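import Pool.Agent.BTF.Defs
import Mathlib.RingTheory.RegularLocalRing.Defs

/-!
# BTF: statements of the modules (I), (II)

MP_e17fa799_al (captain helper21). Every `def St_X : Prop` is one module `Pool/Agent/BTF/X.lean` with
`theorem thm_X : St_X` (with the statements listed after `needs` as hypotheses) in the namespace
`Pool.Agent.BTF`; auxiliary lemmas in a sub-namespace with the name of the file.

The idea: let `X`, `Y` be integral regular schemes, proper over `B`, with the same function field `K`
over `B`. A point `x` of `X` outside the largest common open subset `U` either has `κ(x)` of Kronecker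
dimension `≤ d`, or `V = 𝒪_{X,x}` is a discrete valuation ring which dominates a regular local ring
`R = 𝒪_{Y,y}` of `Y`, `R ≠ V`, and then (Abhyankar) `κ(x) = L(t)`, `L` of Kronecker dimension `≤ d`. Both
kinds of fields are `Good`. So `K'_n (X \ U)` is in `𝒮` for all `n`, and the same for `Y`.
-/

set_option autoImplicit false

noncomputable section

namespace Pool.Agent.BTF

open CategoryTheory CategoryTheory.Limits AlgebraicGeometry Pool.Agent.KPR
open Pool.Agent.KGT.W (SerreClass FinType)

/-! ### commutative algebra -/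

/-- **AB** (Abhyankar; helper20). Proof: `φ` is not surjective. Let `x_1, .., x_m` be minimal generators
of the maximal ideal of `R` with `v(x_1)` minimal (`m ≥ 2`, otherwise `R` is a discrete valuation ring
dominated by `V` with the same fractions, so `φ` is onto). Let `R_1` be the localisation of
`R[x_2/x_1, .., x_m/x_1] ⊆ V` at the preimage of the maximal ideal of `V`. As `x_1, .., x_m` is a regular
sequence, `R[x_2/x_1, .., x_m/x_1] / (x_1)` is the polynomial ring `κ(R)[y_2, .., y_m]` (one variable at a
time: `A[y/x] = A[Y]/(xY - y)` if `y` is regular modulo `x`), so `R_1 / (x_1)` is a localisation of a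
polynomial ring over a field, regular, and `R_1` is a regular local domain. Every element of the maximal
ideal of `R` is `x_1` times an element of `R_1`. Let `V` be the localisation of `ℤ[a_1, .., a_r]` and
`a_j = f_j / g`, `f_j, g ∈ R`. If `g` is not a unit of `R`, then no `f_j` is a unit (as `a_j ∈ V`), and
`a_j = (f_j/x_1) / (g/x_1)` with `v(g/x_1) < v(g)`. So by induction on `v(g)` there is a chain
`R = R_0, R_1, .., R_l` with all `a_j ∈ R_l`, hence `R_l = V`. In the last step `R_l / (x_1)` is a domain, `R_l = V`
is a discrete valuation ring, so `(x_1)` is the maximal ideal and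
`κ(V) = Frac κ(R_(l-1))[y_2, .., y_m] = L(y_m)`, `m ≥ 2`. needs: nothing -/
def St_AB : Prop := ∀ (R V : Type) [CommRing R] [IsDomain R] [IsRegularLocalRing R] [CommRing V]
  [IsDomain V] [IsDiscreteValuationRing V] (φ : R →+* V) [IsLocalHom φ], Function.Injective φ →
  SameFrac φ → EssFin V → Function.Bijective φ ∨
    ∃ (L : Type) (_ : Field L), Nonempty (IsLocalRing.ResidueField V ≃+* RatFunc L)

/-- **DL**. Residue fields at non-zero primes. `κ` is the field of fractions of `A / q`. Proof: let
`K = Frac A`. (a) `char K = p`: if `y_1, .., y_r ∈ A` have algebraically independent images in `κ` over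
`𝔽_p` and `0 ≠ a ∈ q`, then `y_1, .., y_r, a` are algebraically independent: otherwise take
`0 ≠ P ∈ 𝔽_p[Y, T]` with `P(y, a) = 0`; dividing by a power of `T` (`a ≠ 0`, `A` a domain) one may assume
`P(Y, 0) ≠ 0`, and `P(y, 0) ∈ q`. (b) `char κ = 0`: the same over `ℤ` instead of `𝔽_p` (then `char K = 0`).
(c) `char K = 0`, `char κ = p`: elements of `A` with images algebraically independent over `𝔽_p` are
algebraically independent over `ℚ` (divide a relation over `ℤ` by its content). A transcendence basis of
`κ` can be chosen in the image of `A` (`κ` is algebraic over the subfield generated by it: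
`exists_isTranscendenceBasis_subset`, or use numerators and denominators), and `trdeg` over the prime
field, over `ℚ`, `𝔽_p` (`Subfield.bot` is isomorphic). The transcendence degrees are finite here. There may
be ready lemmas in `Pool/Agent/GTH`, `Pool/Agent/BassH`. needs: nothing -/
def St_DL : Prop := ∀ (A K κ : Type) [CommRing A] [IsDomain A] [Field K] [Algebra A K]
  [IsFractionRing A K] [Field κ] (π : A →+* κ), (∃ a : A, a ≠ 0 ∧ π a = 0) →
  (∀ z : κ, ∃ a b : A, π b ≠ 0 ∧ π b * z = π a) → ∀ d : ℕ, KrLe (d + 1) K → KrLe d κ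

/-- **KL**. Purely transcendental extensions: `trdeg L(t) = trdeg L + 1`; the same characteristic.
needs: nothing -/
def St_KL : Prop := ∀ (L K : Type) [Field L] [Field K], Nonempty (K ≃+* RatFunc L) →
  ∀ d : ℕ, KrLe (d + 1) K → KrLe d L

/-- **DV**. A regular local domain all of whose non-zero primes are maximal is a field or a discrete
valuation ring. Proof: the Krull dimension is `≤ 1`, so the maximal ideal is generated by one element
(`IsRegularLocalRing.spanFinrank_maximalIdeal`). needs: nothing -/
def St_DV : Prop := ∀ (O : Type) [CommRing O] [IsDomain O] [IsRegularLocalRing O],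
  (∀ q : Ideal O, q.IsPrime → q ≠ ⊥ → q = IsLocalRing.maximalIdeal O) → ¬ IsField O →
    IsDiscreteValuationRing O

/-! ### `K'`-theory -/

/-- **K0**. The base case. Proof: noetherian induction (`Pool.Agent.GQ.sch_ind`, see the proof of
`Pool.Agent.KGT.w_res` in `KGT/WFin.lean`) reduces to `Sp D`, `D` a domain of finite type over `ℤ` with all
residue fields of Kronecker dimension `≤ 1`. If `char Frac D = p`, `D` is an `𝔽_p`-algebra and the
transcendence degrees are `≤ 1`; if the characteristic is `0`, all transcendence degrees over the prime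
fields are `0`: the generic one by `KrLe`, and a residue field of characteristic `p` is the residue field
at a non-zero prime (`DL` with `d = 0`). Both cases are in `Pool.Agent.KGT.statements_base`
(`KGT/YFin.lean`) or `small_all` (`KGT/WFin.lean`): `(m, d) = (p, 1)`, `(0, 0)`. needs: DL -/
def St_K0 : Prop := ∀ T : Scheme.{0}, FinType ℤ T → Kr 1 T → ∀ n : ℕ, AddGroup.FG (KX n T)

/-- **K1**. Schemes all of whose residue fields are good. Proof: noetherian induction
(`Pool.Agent.GQ.sch_ind`; see `w_res` in `KGT/WFin.lean`): for an integral closed subscheme `W` take an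
affine open `Spec C`, `C` a domain of finite type over `ℤ`, whose function field is the residue field of
`Z` at the generic point of `W`, and then `Spec C[1/s]`. needs: nothing -/
def St_K1 : Prop := ∀ (𝒮 : (G : Type 1) → [AddCommGroup G] → Prop), SerreClass 𝒮 →
  ∀ Z : Scheme.{0}, FinType ℤ Z → (∀ z : Z, Good 𝒮 (Z.residueField z)) → ∀ n : ℕ, 𝒮 (KX n Z)

/-- **K2**. Fields of Kronecker dimension `≤ d` are good: `s = 1`, the residue fields of `Spec C` have
Kronecker dimension `≤ d` by `DL` (and `KrLe d → KrLe (d + 1)`). needs: DL -/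
def St_K2 : Prop := ∀ (𝒮 : (G : Type 1) → [AddCommGroup G] → Prop), SerreClass 𝒮 → ∀ d : ℕ,
  Low 𝒮 d → ∀ (κ : Type) [Field κ], KrLe d κ → Good 𝒮 κ

/-- **K4**. Ruled fields are good. Proof: let `C` be a domain of finite type over `ℤ` with
`Frac C = L(t)`. (1) There are a subring `D ⊆ L` of finite type over `ℤ` and `0 ≠ h ∈ D[t]`, `0 ≠ s ∈ C` with
`Frac D = L` and `C[1/s] = D[t][1/h]` in `L(t)`: the generators of `C` are `f_j / g`, `f_j, g ∈ L[t]`; let
`D_0` be generated by the coefficients of `f_j, g`; `t` and the coefficients are fractions `u / s_1` with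
`u ∈ C`; so `C ⊆ D_0[t][1/g]` and `D_0[t] ⊆ C[1/s_1]`, and `C[1/(s_1 g')] = D_0[t][1/(g h')]` for the obvious
`g' , h'`. `L` is finitely generated as a field and `Frac D_0 = L` follows: an element `c` of `L` is in
`Frac C = (Frac D_0)(t)`, so it is in `Frac D_0` (compare coefficients of `c q = p`). (2) `K'_n (D[t]) =
K'_n (D)` (homotopy invariance, `(L.th n).hom` for `L` from `Pool.Agent.KGT.real all_HOMK`) is in `𝒮`; the
residue fields of `D[t]/(h)` have Kronecker dimension `≤ d`: they are residue fields of the domain `D[t]`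
at non-zero primes, `KrLe (d + 1) (L(t))` by `KrLe d L`, and `DL`. (3) `K'_n(D[t]) → K'_n(D[t][1/h]) →
K'_(n-1)(D[t]/(h))` is exact (`L.exU`). needs: DL -/
def St_K4 : Prop := ∀ (𝒮 : (G : Type 1) → [AddCommGroup G] → Prop), SerreClass 𝒮 → ∀ d : ℕ,
  Low 𝒮 d → ∀ (κ L : Type) [Field κ] [Field L], Nonempty (κ ≃+* RatFunc L) → KrLe d L → Good 𝒮 κ

/-- **K3**. Comparison with an open subscheme. Proof: the complement `Z` (reduced) is of finite type
with good residue fields, so `K'_n(Z)` is in `𝒮` for all `n` (`K1`), and
`K'_n(Z) → K'_n(X) → K'_n(U) → K'_(n-1)(Z)` is exact (`LThy`; `KGT.real all_HOMK`; negative degrees are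
zero). needs: K1 -/
def St_K3 : Prop := ∀ (𝒮 : (G : Type 1) → [AddCommGroup G] → Prop), SerreClass 𝒮 →
  ∀ (X U : Scheme.{0}) (j : U ⟶ X) [IsOpenImmersion j], FinType ℤ X →
    (∀ x : X, x ∉ Set.range j → Good 𝒮 (X.residueField x)) →
      ∀ n : ℕ, 𝒮 (KX n X) ↔ 𝒮 (KX n U)

/-! ### geometry -/

/-- **G0**. The isomorphism of the function fields of birational schemes. Proof: a partial isomorphism
maps the generic point to the generic point; the stalks of an open subscheme are the stalks
(`PartialMap.fromFunctionField`, `Scheme.Hom.stalkMap`). needs: nothing -/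
def St_G0 : Prop := ∀ (X Y B : Scheme.{0}) [IsIntegral X] [IsIntegral Y] (f : X ⟶ B) (g : Y ⟶ B),
  Scheme.BirationalOver f g → ∃ θ : Y.functionField ≅ X.functionField, OverB θ f g

/-- **G1**. The largest common open subset. Proof: `θ` gives rational maps `φ : X ⤏ Y` and `ψ : Y ⤏ X`
over `B` (`RationalMap.ofFunctionField`) with largest domains `D_φ`, `D_ψ` (`RationalMap.toPartialMap`).
Let `U = φ⁻¹ (D_ψ) ⊆ D_φ` and `U' = ψ⁻¹ (D_φ) ⊆ D_ψ`. On `U` one has `ψ ∘ φ =` inclusion (both agree at the
generic point, `U` is reduced, `X` separated), so `φ(U) ⊆ U'`, the same for `ψ`, and `φ : U → U'` is an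
isomorphism. If `x` and `y` are compatible, the morphism `Spec 𝒪_{X,x} ≅ Spec 𝒪_{Y,y} → Y` spreads out
(`PartialMap.ofFromSpecStalk`), so `x ∈ D_φ`, `φ(x) = y`, and in the same way `y ∈ D_ψ`; so `x ∈ U`.
Both statements follow by symmetry. needs: nothing -/
def St_G1 : Prop := ∀ (X Y B : Scheme.{0}) [IsIntegral X] [IsIntegral Y] [B.IsSeparated]
  (f : X ⟶ B) (g : Y ⟶ B) [IsSeparated f] [IsSeparated g] [LocallyOfFiniteType f]
  [LocallyOfFiniteType g] (θ : Y.functionField ≅ X.functionField), OverB θ f g →
  ∃ (U : Scheme.{0}) (i : U ⟶ X) (j : U ⟶ Y), IsOpenImmersion i ∧ IsOpenImmersion j ∧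
    (∀ x : X, x ∉ Set.range i → ∀ y : Y, ¬ Compat θ x y) ∧
    ∀ y : Y, y ∉ Set.range j → ∀ x : X, ¬ Compat θ x y

/-- **G2**. The centre of a valuation. Proof: `IsProper.eq_valuativeCriterion` for `g`, the valuation ring
`𝒪_{X,x}` with field of fractions `K(X)`, and the square `Spec K(X) → Y` (by `θ`), `Spec 𝒪_{X,x} → X → B`. The
lift `Spec 𝒪_{X,x} → Y` maps the closed point to `y`; `λ` is the local homomorphism of the stalks
(`Scheme.stalkClosedPointTo`). needs: nothing -/
def St_G2 : Prop := ∀ (X Y B : Scheme.{0}) [IsIntegral X] [IsIntegral Y] (f : X ⟶ B) (g : Y ⟶ B)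
  [IsProper g] (θ : Y.functionField ≅ X.functionField), OverB θ f g → ∀ x : X,
  ValuationRing (X.presheaf.stalk x) →
    ∃ (y : Y) (l : Y.presheaf.stalk y ⟶ X.presheaf.stalk x), IsLocalHom l.hom ∧
      l ≫ toF X x = toF Y y ≫ θ.hom

/-- **G3**. Local rings of schemes of finite type over `ℤ`. Proof: an affine open neighbourhood
`Spec A`, `A` of finite type over `ℤ`, `𝒪_{X,x} = A_p`; `s` is the image of a set of generators.
needs: nothing -/
def St_G3 : Prop := ∀ (X : Scheme.{0}), FinType ℤ X → ∀ x : X, EssFin (X.presheaf.stalk x)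

/-- **G4**. The points of an integral regular scheme. Proof: let `O = 𝒪_{X,x}`, with field of fractions
`K(X)`. If there is a prime `0 ≠ q ≠ m` of `O`, `DL` for `O → Frac (O/q)` and for `O/q → κ(x)` gives
`KrLe d κ(x)`. Otherwise `O` is a field, and then `x` is the generic point, or `O` is a discrete valuation
ring (`DV`), and `KrLe (d + 1) κ(x)` by `DL`. needs: DL, DV -/
def St_G4 : Prop := ∀ (X : Scheme.{0}) [IsIntegral X], KGT.W.Regular X → ∀ d : ℕ,
  KrLe (d + 2) X.functionField → ∀ x : X, KrLe d (X.residueField x) ∨ x = genericPoint X ∨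
    (IsDiscreteValuationRing (X.presheaf.stalk x) ∧ KrLe (d + 1) (X.residueField x))

/-- **PI** (I). Proof: `θ` (`G0`), `U`, `i`, `j` (`G1`). Let `x ∉ range i`. Then `x` is not the generic point
(the generic points are compatible). By `G4` either `KrLe d κ(x)`, good by `K2`, or `𝒪_{X,x}` is a discrete
valuation ring. Let `y`, `l` be as in `G2`; `l` is injective since `toF` is, `SameFrac` because every
element of `K(X)` is a fraction of elements of `𝒪_{Y,y}`; `𝒪_{Y,y}` is regular. By `AB` and `G3` either `l` is
bijective, and then `x` and `y` are compatible, which is excluded, or `κ(x) = L(t)`; `KrLe d L` by `KL`, and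
`κ(x)` is good by `K4`. The same for `Y`. Then `K3` twice. needs: all above -/
def St_PI : Prop := ∀ (𝒮 : (G : Type 1) → [AddCommGroup G] → Prop), SerreClass 𝒮 → ∀ d : ℕ,
  Low 𝒮 d → BirInv 𝒮 d

/-! ### (II) -/

/-- **V1**. Discrete valuation rings of `F(t)`. Proof: let `v` be the valuation of `V`. (1) If `F ⊄ V`, let
`W = V ∩ F`, a valuation ring of `F`, discrete and not `F` (the value group is a non-zero subgroup of `ℤ`).
Let `t' = t` or `1/t`, in `V`, and `R` the localisation of `W[t']` at the preimage of the maximal ideal `m` of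
`V`: a regular local ring (`Polynomial.isRegularRing_of_isRegularRing`, `W` is a Dedekind domain) with
the field of fractions `F(t)`, dominated by `V`. By `AB` either `κ(V) = L(s)`, or `R = V`; then the
uniformiser `π` of `W` generates a prime ideal of `R` (`W[t']/(π)` is a domain), non-zero, so the maximal
one, and `κ(V)` is the field of fractions of `κ(W)[t']`. (2) `F ⊆ V`, `t ∈ V`: `F[t] ⊆ V`. (3) `F ⊆ V`,
`t ∉ V`: `V` dominates the discrete valuation ring `F[1/t]_(1/t)`, so it is equal, `κ(V) = F`. needs: AB -/
def St_V1 : Prop := ∀ (F V : Type) [Field F] [CommRing V] [IsDomain V] [IsDiscreteValuationRing V]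
  [Algebra V (RatFunc F)] [IsFractionRing V (RatFunc F)], EssFin V →
  (∃ (L : Type) (_ : Field L), Nonempty (IsLocalRing.ResidueField V ≃+* RatFunc L)) ∨
  (∀ p : Polynomial F, ∃ v : V, algebraMap V (RatFunc F) v = algebraMap (Polynomial F) _ p) ∨
  Nonempty (IsLocalRing.ResidueField V ≃+* F)

/-- **V2**. A regular affine open subscheme of `T`. `D` is a regular domain of finite type over `ℤ` with
`Spec D` open in `T` (`Pool.Agent.KGT.gen_reg`), so `Frac D = K(T)`; the residue field at `z ∈ T` outside of
`Spec D` is good: it has Kronecker dimension `≤ d` (`DL`). So (`K3`) `K'_n(D)` is in `𝒮` for all `n`, and for the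
same reason (`K3` for `Spec C[1/s]` in the other direction) every field isomorphic to `K(T)` is good: if
`Frac C = K(T)`, `C[1/s] = D[1/s']` for some `s`, `s'`. needs: DL, K2, K3 -/
def St_V2 : Prop := ∀ (𝒮 : (G : Type 1) → [AddCommGroup G] → Prop), SerreClass 𝒮 → ∀ d : ℕ,
  Low 𝒮 d → ∀ (T : Scheme.{0}) [IsIntegral T], FinType ℤ T → KrLe (d + 1) T.functionField →
    (∀ n : ℕ, 𝒮 (KX n T)) →
    ∃ (D : Type) (_ : CommRing D) (_ : IsDomain D), Algebra.FiniteType ℤ D ∧ IsRegularRing D ∧
      Nonempty (FractionRing D ≃+* T.functionField) ∧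
      (∀ n : ℕ, 𝒮 (KX n (Spec (CommRingCat.of D)))) ∧
      ∀ (κ : Type) [Field κ], Nonempty (κ ≃+* T.functionField) → Good 𝒮 κ

/-- **PII** (II). Proof: `D` as in `V2`, `Y = Spec D[t]`, `K'_n(Y) = K'_n(D)` is in `𝒮`, `Y` is regular and integral,
`θ : K(Y) = K(X)` over `ℤ`. `U`, `i`, `j` from `G1`. Points `y ∉ range j`: exactly as in the proof of `PI` (`X` is
proper and regular). Points `x ∉ range i`: `G4`; if `V = 𝒪_{X,x}` is a discrete valuation ring, `V1`: in the
first case `κ(x)` is good by `KL`, `K4`, in the third case by `V2`. In the second case `D[t] → V`; let `y` be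
the preimage of the maximal ideal; `y ∩ D = 0`, `y ≠ 0`, so `𝒪_{Y,y} = F[t]_q` (`F = Frac D`) is a discrete
valuation ring dominated by `V`, so equal to `V`: `x` and `y` are compatible, excluded. Then `K3` twice.
needs: all above -/
def St_PII : Prop := ∀ (𝒮 : (G : Type 1) → [AddCommGroup G] → Prop), SerreClass 𝒮 → ∀ d : ℕ,
  Low 𝒮 d → Ruled 𝒮 d

/-- **T0**. Let `K(X) = F(t)`, `X` of finite type over `ℤ`. Then `F` is the function field of an integral
scheme of finite type over `ℤ`. Proof: let `C` be a domain of finite type with `Frac C = F(t)`, generated by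
`f_j / g`, `f_j, g ∈ F[t]`, and let `D` be the subring of `F` generated by the coefficients of `f_j`, `g`. Then
`F ⊆ (Frac D)(t)` in `F(t)`, hence `F = Frac D`: if `c q = p` with `c ∈ F`, `q ≠ 0` and `p`, `q` polynomials over
`Frac D`, compare a non-zero coefficient of `q` (see `K4`). `T = Spec D`. needs: nothing -/
def St_T0 : Prop := ∀ (X : Scheme.{0}) [IsIntegral X], FinType ℤ X → ∀ (F : Type) [Field F],
  Nonempty (X.functionField ≃+* RatFunc F) →
    ∃ (T : Scheme.{0}) (_ : IsIntegral T), FinType ℤ T ∧ Nonempty (T.functionField ≃+* F)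

/-- **CO**. Proof: `T` from `T0` with `F = L(s)`, `KrLe 2 F` and `KrLe 1 L` by `KL`; the residue fields of `T`
are good for the class of finitely generated groups: the generic one by `K4`, the others by `DL` and
`K2` (`Low` is `K0`); so all `K'_n(T)` are finitely generated (`K1`); `PII` with `d = 1`. needs: all above -/
def St_CO : Prop := Rational3

end Pool.Agent.BTF
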