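import Pool.Agent.BTF.AbE
import Pool.Agent.BTF.St

/-!
# BTF AB: Abhyankar's theorem
-/

set_option autoImplicit false

noncomputable section

namespace Pool.Agent.BTF

open IsLocalRing Polynomial

/-- the conclusion -/
def AbCon {R V : Type} [CommRing R] [CommRing V] [IsLocalRing V] (φ : R →+* V) : Prop :=
  Function.Bijective φ ∨
    ∃ (L : Type) (_ : Field L), Nonempty (IsLocalRing.ResidueField V ≃+* RatFunc L)

/-- the statement for elements `g` with `π ^ n ∤ φ g` -/
def AbN (V : Type) [CommRing V] [IsDomain V] [IsDiscreteValuationRing V] (π : V) (s : Finset V)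
    (n : ℕ) : Prop :=
  ∀ (R : Type) [CommRing R] [IsRegularLocalRing R] (φ : R →+* V) [IsLocalHom φ],
    Function.Injective φ → ∀ g : R, g ≠ 0 → (∀ a ∈ s, ∃ f : R, φ g * a = φ f) →
    ¬ π ^ n ∣ φ g → AbCon φ

theorem Ab_unit {R V : Type} [CommRing R] [CommRing V] (φ : R →+* V) [IsLocalHom φ]
    (hφ : Function.Injective φ) (s : Finset V)
    (hs : ∀ v : V, ∃ a ∈ Subring.closure (s : Set V), ∃ b ∈ Subring.closure (s : Set V),
      IsUnit b ∧ b * v = a) (g : R) (hg : IsUnit g) (hf : ∀ a ∈ s, ∃ f : R, φ g * a = φ f) :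
    Function.Bijective φ := by
  refine ⟨hφ, ?_⟩
  have h1 : Subring.closure (s : Set V) ≤ φ.range := by
    rw [Subring.closure_le]
    intro a ha
    obtain ⟨f, hf⟩ := hf a ha
    obtain ⟨u, hu⟩ := hg
    refine ⟨(↑u⁻¹ : R) * f, ?_⟩
    rw [map_mul, ← hf, ← hu, ← mul_assoc, ← map_mul, Units.inv_mul, map_one, one_mul]
  intro v
  obtain ⟨a, ha, b, hb, hbu, hv⟩ := hs v
  obtain ⟨a, rfl⟩ := h1 ha
  obtain ⟨b, rfl⟩ := h1 hb
  have hbR : IsUnit b := (isUnit_map_iff φ b).1 hbu
  obtain ⟨u, rfl⟩ := hbR
  refine ⟨(↑u⁻¹ : R) * a, ?_⟩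
  rw [map_mul, ← hv, ← mul_assoc, ← map_mul, Units.inv_mul, map_one, one_mul]

theorem mem_of_dvd' {Q : Type} [CommRing Q] (I : Ideal Q) {a b : Q} (h : a ∣ b) (ha : a ∈ I) :
    b ∈ I := by
  obtain ⟨c, rfl⟩ := h
  exact Ideal.mul_mem_right _ _ ha

/-- the inner induction -/
theorem Ab_inner {V : Type} [CommRing V] [IsDomain V] [IsDiscreteValuationRing V] {π : V}
    (hπ : Ideal.span {π} = maximalIdeal V) (s : Finset V) (n : ℕ) (hN : AbN V π s n) (k : ℕ) :
    ∀ (R : Type) [CommRing R] [IsRegularLocalRing R] (φ : R →+* V) [IsLocalHom φ],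
      Function.Injective φ → ∀ (x : R) (w : List R), w.length = k → RP R (x :: w) → x ≠ 0 →
      (∀ z ∈ w, φ x ∣ φ z) → ∀ g : R, g ≠ 0 → g ∈ Ideal.ofList (x :: w) →
      (∀ a ∈ s, ∃ f ∈ Ideal.ofList (x :: w), φ g * a = φ f) → ¬ π ^ (n + 1) ∣ φ g → AbCon φ := by
  induction k with
  | zero =>
    intro R _ _ φ _ hφ x w hw hRP hx0 _ g hg0 hg hf hn
    have hw' : w = [] := List.length_eq_zero_iff.1 hw
    subst hw'
    rw [Ideal.ofList_singleton, Ideal.mem_span_singleton] at hg
    obtain ⟨g', rfl⟩ := hg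
    have hxm : φ x ∈ maximalIdeal V := by
      have h1 := hRP.mem x List.mem_cons_self
      rw [mem_maximalIdeal] at h1 ⊢
      exact fun h2 => h1 ((isUnit_map_iff φ x).1 h2)
    rw [← hπ, Ideal.mem_span_singleton] at hxm
    have hφx : φ x ≠ 0 := fun h => hx0 (hφ (by rw [h, map_zero]))
    refine hN R φ hφ g' (right_ne_zero_of_mul hg0) ?_ ?_
    · intro a ha
      obtain ⟨f, hf1, hf2⟩ := hf a ha
      rw [Ideal.ofList_singleton, Ideal.mem_span_singleton] at hf1
      obtain ⟨f', rfl⟩ := hf1
      refine ⟨f', ?_⟩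
      rw [map_mul, map_mul, mul_assoc] at hf2
      exact mul_left_cancel₀ hφx hf2
    · intro h1
      apply hn
      rw [map_mul, pow_succ, mul_comm]
      exact mul_dvd_mul hxm h1
  | succ k ih =>
    intro R _ _ φ _ hφ x w hw hRP hx0 hdiv g hg0 hg hf hn
    cases w with
    | nil => exact absurd hw (by simp)
    | cons z w =>
      obtain ⟨y, hy⟩ := hdiv z List.mem_cons_self
      have hz : ∀ a, x ∣ z * a → x ∣ a := by
        intro a ha
        have h1 := hRP.wr [x] z w rfl a (by
          rw [Ideal.ofList_singleton, Ideal.mem_span_singleton]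
          exact ha)
        rwa [Ideal.ofList_singleton, Ideal.mem_span_singleton] at h1
      have hinj := th_inj φ x z y hy hφ hz
      have hloc : IsLocalRing (R1 φ x z y) := isLocalRing_R1 φ x z y hy
      have hRP1 := RP_R1 φ y hy hφ hRP hx0
      have hreg : IsRegularLocalRing (R1 φ x z y) := hRP1.regular
      have hlh := th_local φ x z y hy
      have hio : Function.Injective (io φ x z y) := by
        intro a b hab
        apply hφ
        rw [← th_io φ x z y hy, ← th_io φ x z y hy, hab]
      have hmem : ∀ r ∈ Ideal.ofList (x :: z :: w),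
          io φ x z y r ∈ Ideal.ofList (io φ x z y x :: w.map (io φ x z y)) := by
        intro r hr
        have h1 : Ideal.ofList (x :: z :: w) ≤
            (Ideal.ofList (io φ x z y x :: w.map (io φ x z y))).comap (io φ x z y) := by
          rw [Ideal.ofList, Ideal.span_le]
          intro u hu
          rw [SetLike.mem_coe, Ideal.mem_comap]
          rcases List.mem_cons.1 hu with h2 | h2
          · rw [h2]
            exact Ideal.subset_span List.mem_cons_self
          · rcases List.mem_cons.1 h2 with h3 | h3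
            · rw [h3]
              exact mem_of_dvd' _ (dvd_io φ y (x := x) (z := z))
                (Ideal.subset_span List.mem_cons_self)
            · exact Ideal.subset_span (List.mem_cons_of_mem _ (List.mem_map_of_mem h3))
        exact h1 hr
      have h := ih (R1 φ x z y) (th φ x z y hy) hinj (io φ x z y x) (w.map (io φ x z y))
        (by simpa using hw) hRP1 (by
          intro h1
          exact hx0 (hio (by rw [h1, map_zero]))) (by
          intro u hu
          obtain ⟨u, hu', rfl⟩ := List.mem_map.1 hu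
          rw [th_io, th_io]
          exact hdiv u (List.mem_cons_of_mem _ hu')) (io φ x z y g) (by
          intro h1
          exact hg0 (hio (by rw [h1, map_zero]))) (hmem g hg) (by
          intro a ha
          obtain ⟨f, hf1, hf2⟩ := hf a ha
          exact ⟨io φ x z y f, hmem f hf1, by rw [th_io, th_io]; exact hf2⟩) (by
          rw [th_io]
          exact hn)
      rcases h with h | h
      · exact Or.inr (ruled_of_surj φ hφ hRP hx0 y hy h.2)
      · exact Or.inr h

theorem exists_min {R V : Type} [CommRing R] [CommRing V] [IsDomain V]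
    [IsDiscreteValuationRing V] (φ : R →+* V) (l : List R) (hl : l ≠ []) :
    ∃ x ∈ l, ∀ z ∈ l, φ x ∣ φ z := by
  induction l with
  | nil => exact absurd rfl hl
  | cons a l ih =>
    by_cases h : l = []
    · subst h
      exact ⟨a, List.mem_cons_self, by simp⟩
    · obtain ⟨x, hx, hx2⟩ := ih h
      rcases ValuationRing.dvd_total (φ a) (φ x) with h1 | h1
      · refine ⟨a, List.mem_cons_self, ?_⟩
        intro z hz
        rcases List.mem_cons.1 hz with rfl | hz
        · exact dvd_rfl
        · exact h1.trans (hx2 z hz)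
      · refine ⟨x, List.mem_cons_of_mem _ hx, ?_⟩
        intro z hz
        rcases List.mem_cons.1 hz with rfl | hz
        · exact h1
        · exact hx2 z hz

/-- the outer induction -/
theorem Ab_outer {V : Type} [CommRing V] [IsDomain V] [IsDiscreteValuationRing V] {π : V}
    (hπ : Ideal.span {π} = maximalIdeal V) (s : Finset V)
    (hs : ∀ v : V, ∃ a ∈ Subring.closure (s : Set V), ∃ b ∈ Subring.closure (s : Set V),
      IsUnit b ∧ b * v = a) (n : ℕ) : AbN V π s n := by
  classical
  induction n with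
  | zero =>
    intro R _ _ φ _ _ g _ _ h
    exact absurd (by rw [pow_zero]; exact one_dvd _) h
  | succ n ih =>
    intro R _ _ φ _ hφ g hg0 hf hn
    by_cases hg : IsUnit g
    · exact Or.inl (Ab_unit φ hφ s hs g hg hf)
    have hgm : g ∈ maximalIdeal R := (mem_maximalIdeal _).2 hg
    obtain ⟨l, hl1, hl2⟩ := exists_rsp R
    have hl0 : l ≠ [] := by
      rintro rfl
      rw [Ideal.ofList_nil] at hl1
      rw [← hl1, Ideal.mem_bot] at hgm
      exact hg0 hgm
    obtain ⟨x, hx, hx2⟩ := exists_min φ l hl0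
    have hperm := List.perm_cons_erase hx
    have hof : Ideal.ofList (x :: l.erase x) = maximalIdeal R := by
      rw [← hl1, Ideal.ofList, Ideal.ofList]
      congr 1
      ext r
      exact hperm.mem_iff.symm
    have hlen : (x :: l.erase x).length ≤ (maximalIdeal R).spanFinrank := by
      rw [← hperm.length_eq]
      exact hl2
    have hRP : RP R (x :: l.erase x) := rsp_RP hof hlen
    have hx0 : x ≠ 0 := by
      intro h0
      have h1 := hRP.wr [] x (l.erase x) rfl 1 (by
        rw [h0, zero_mul]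
        exact Ideal.zero_mem _)
      rw [Ideal.ofList_nil, Ideal.mem_bot] at h1
      exact one_ne_zero h1
    refine Ab_inner hπ s n ih _ R φ hφ x (l.erase x) rfl hRP hx0 ?_ g hg0 ?_ ?_ hn
    · intro z hz
      exact hx2 z (List.mem_of_mem_erase hz)
    · rw [hof]
      exact hgm
    · intro a ha
      obtain ⟨f, hfa⟩ := hf a ha
      refine ⟨f, ?_, hfa⟩
      rw [hof, mem_maximalIdeal]
      intro hu
      have h1 : IsUnit (φ g * a) := by
        rw [hfa]
        exact hu.map φ
      exact hg ((isUnit_map_iff φ g).1 (isUnit_of_mul_isUnit_left h1))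

theorem exists_den {R V : Type} [CommRing R] [IsDomain R] [CommRing V] (φ : R →+* V)
    (h : SameFrac φ) (s : Finset V) : ∃ g : R, g ≠ 0 ∧ ∀ a ∈ s, ∃ f : R, φ g * a = φ f := by
  classical
  induction s using Finset.induction_on with
  | empty => exact ⟨1, one_ne_zero, by simp⟩
  | insert a s _ ih =>
    obtain ⟨g, hg, hs⟩ := ih
    obtain ⟨c, b, hb, hab⟩ := h a
    refine ⟨b * g, mul_ne_zero hb hg, ?_⟩
    intro u hu
    rcases Finset.mem_insert.1 hu with rfl | hu
    · refine ⟨g * c, ?_⟩
      rw [map_mul, map_mul, ← hab]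
      ring
    · obtain ⟨f, hf⟩ := hs u hu
      refine ⟨b * f, ?_⟩
      rw [map_mul, map_mul, ← hf]
      ring

theorem thm_AB : St_AB := by
  intro R V _ _ _ _ _ _ φ _ hφ hfrac hess
  obtain ⟨s, hs⟩ := hess
  obtain ⟨g, hg0, hf⟩ := exists_den φ hfrac s
  obtain ⟨π, hπ⟩ := (IsPrincipalIdealRing.principal (maximalIdeal V)).principal
  have hπ' : Ideal.span {π} = maximalIdeal V := hπ.symm
  have hπu : ¬ IsUnit π := by
    rw [← mem_nonunits_iff, ← mem_maximalIdeal, ← hπ']
    exact Ideal.mem_span_singleton_self π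
  have hφg : φ g ≠ 0 := fun h => hg0 (hφ (by rw [h, map_zero]))
  obtain ⟨n, hn⟩ := FiniteMultiplicity.of_not_isUnit hπu hφg
  exact Ab_outer hπ' s hs (n + 1) R φ hφ g hg0 hf hn

end Pool.Agent.BTF
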