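import Pool.Agent.BTF.St3

/-!
# BTF / AL: the algebra of the last step
-/

set_option autoImplicit false

noncomputable section

namespace Pool.Agent.BTF

open Pool.Agent.KGT.W (SerreClass)

namespace AL

variable {𝒮 : (G : Type 1) → [AddCommGroup G] → Prop}

theorem sub (h𝒮 : SerreClass 𝒮) {A B : Type 1} [AddCommGroup A] [AddCommGroup B] (i : A →+ B)
    (hi : Function.Injective i) (hB : 𝒮 B) : 𝒮 A := by
  refine h𝒮.exact PUnit.{2} A B 0 i (fun x => ?_) (h𝒮.zero PUnit.{2}) hB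
  constructor
  · intro h
    exact ⟨PUnit.unit, ((injective_iff_map_eq_zero i).1 hi x h).symm⟩
  · rintro ⟨y, rfl⟩
    rw [AddMonoidHom.zero_apply, map_zero]

theorem quo (h𝒮 : SerreClass 𝒮) {A B : Type 1} [AddCommGroup A] [AddCommGroup B] (p : A →+ B)
    (hp : Function.Surjective p) (hA : 𝒮 A) : 𝒮 B := by
  refine h𝒮.exact A B PUnit.{2} p 0 (fun x => ?_) hA (h𝒮.zero PUnit.{2})
  exact ⟨fun _ => hp x, fun _ => rfl⟩

theorem ext (h𝒮 : SerreClass 𝒮) {A B C K : Type 1} [AddCommGroup A] [AddCommGroup B]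
    [AddCommGroup C] [AddCommGroup K] (f : A →+ B) (k : C →+ B) (h1 : ∀ a, ∃ c, k c = f a) (hC : 𝒮 C) (hK : 𝒮 K) (m : f.ker →+ K)
    (hm : Function.Injective m) : 𝒮 A := by
  have hr : 𝒮 k.range := quo h𝒮 k.rangeRestrict k.rangeRestrict_surjective hC
  have hk : 𝒮 f.ker := sub h𝒮 m hm hK
  let g : A →+ k.range := f.codRestrict k.range fun a => by
    obtain ⟨c, hc⟩ := h1 a
    exact ⟨c, hc⟩
  refine h𝒮.exact f.ker A k.range f.ker.subtype g (fun x => ?_) hk hr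
  constructor
  · intro h
    have h2 : f x = 0 := congrArg Subtype.val h
    exact ⟨⟨x, h2⟩, rfl⟩
  · rintro ⟨y, rfl⟩
    exact Subtype.ext y.2

/-- `(θ - N)^e = (-N)^e + ψ θ` -/
theorem expand {G : Type 1} [AddCommGroup G] (θ : G →+ G) (N : ℕ) (e : ℕ) :
    ∃ ψ : G →+ G, ∀ a : G, (fun a => θ a - N • a)^[e] a = (-(N : ℤ)) ^ e • a + ψ (θ a) := by
  induction e with
  | zero => exact ⟨0, fun a => by simp⟩
  | succ e ih =>
    obtain ⟨ψ, hψ⟩ := ih
    refine ⟨zsmulAddGroupHom ((-(N : ℤ)) ^ e) + ψ.comp (θ - nsmulAddMonoidHom N), fun a => ?_⟩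
    rw [Function.iterate_succ_apply, hψ]
    have h1 : θ (θ a - N • a) = θ (θ a) - N • θ a := by rw [map_sub, map_nsmul]
    have h2 : (zsmulAddGroupHom ((-(N : ℤ)) ^ e) + ψ.comp (θ - nsmulAddMonoidHom N) : G →+ G)
        (θ a) = (-(N : ℤ)) ^ e • θ a + ψ (θ (θ a) - N • θ a) := rfl
    rw [h1, h2, smul_sub, pow_succ, mul_smul, neg_smul, natCast_zsmul, smul_neg]
    abel

end AL

theorem thm_AL : St_AL := by
  intro 𝒮 h𝒮 G G₀ H E M _ _ _ _ _ r p q u w N e hr hu hM hw hθ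
  obtain ⟨ψ, hψ⟩ := AL.expand (q.comp p) N e
  -- the power of `N`
  have hpow : ∃ ψ' : G₀ →+ G₀, ∀ a, N ^ e • a = ψ' (q (p a)) := by
    refine ⟨zsmulAddGroupHom (-(-1 : ℤ) ^ e) |>.comp ψ, fun a => ?_⟩
    have h1 := hψ a
    have h2 : (fun a => (q.comp p) a - N • a)^[e] a = 0 := hθ a
    rw [h2] at h1
    have h3 : (-(N : ℤ)) ^ e • a = - ψ ((q.comp p) a) := by
      rw [eq_neg_iff_add_eq_zero]
      exact h1.symm
    have h4 : N ^ e • a = ((-1 : ℤ) ^ e) • ((-(N : ℤ)) ^ e • a) := by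
      rw [← mul_smul, ← mul_pow]
      have : (-1 : ℤ) * -(N : ℤ) = ((N : ℕ) : ℤ) := by ring
      rw [this, ← Nat.cast_pow, natCast_zsmul]
    rw [h4, h3]
    show _ = (-(-1 : ℤ) ^ e) • ψ (q (p a))
    rw [neg_smul, smul_neg]
    rfl
  obtain ⟨ψ', hψ'⟩ := hpow
  -- the image
  have hI : 𝒮 (p.comp r).range := by
    refine AL.ext h𝒮 (u.comp (p.comp r).range.subtype) w ?_ hM hu
      ((p.comp r).range.subtype.comp (u.comp (p.comp r).range.subtype).ker.subtype |>.codRestrict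
        u.ker fun x => x.2) ?_
    · rintro ⟨_, g, rfl⟩
      exact hw g
    · intro x y hxy
      have h : x.1.1 = y.1.1 := congrArg (fun z : u.ker => z.1) hxy
      exact Subtype.ext (Subtype.ext h)
  unfold MulIn
  refine AL.ext h𝒮 (r.comp (nsmulAddMonoidHom (α := G) (N ^ e)).range.subtype)
    ((ψ'.comp q).comp (p.comp r).range.subtype) ?_ hI hr
    ((nsmulAddMonoidHom (α := G) (N ^ e)).range.subtype.comp
      (r.comp (nsmulAddMonoidHom (α := G) (N ^ e)).range.subtype).ker.subtype |>.codRestrict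
        r.ker fun x => x.2) ?_
  · rintro ⟨_, g, rfl⟩
    refine ⟨⟨p (r g), g, rfl⟩, ?_⟩
    show ψ' (q (p (r g))) = r (N ^ e • g)
    rw [map_nsmul, hψ']
  · intro x y hxy
    have h : x.1.1 = y.1.1 := congrArg (fun z : r.ker => z.1) hxy
    exact Subtype.ext (Subtype.ext h)

end Pool.Agent.BTF
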