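import Pool.Agent.BTF.St7
import Pool.Agent.BTF.AL

/-!
# BTF / ALb: the algebra of the last step, the exponent two
-/

set_option autoImplicit false

noncomputable section

namespace Pool.Agent.BTF

open Pool.Agent.KGT.W (SerreClass)

namespace ALb

variable {𝒮 : (G : Type 1) → [AddCommGroup G] → Prop}

theorem prod (h𝒮 : SerreClass 𝒮) {A B : Type 1} [AddCommGroup A] [AddCommGroup B]
    (hA : 𝒮 A) (hB : 𝒮 B) : 𝒮 (A × B) := by
  refine h𝒮.exact A (A × B) B (AddMonoidHom.inl A B) (AddMonoidHom.snd A B) (fun x => ?_) hA hB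
  constructor
  · intro h
    refine ⟨x.1, ?_⟩
    have h2 : x.2 = 0 := h
    exact Prod.ext rfl h2.symm
  · rintro ⟨y, rfl⟩
    rfl

end ALb

theorem thm_ALb : St_ALb := by
  intro 𝒮 h𝒮 G G₀ H E M J _ _ _ _ _ _ r p q u w k N hr hu hM hJ hw hθ
  obtain ⟨ψ, hψ⟩ := AL.expand (q.comp p) N 2
  -- the image
  have hI : 𝒮 (p.comp r).range := by
    refine AL.ext h𝒮 (u.comp (p.comp r).range.subtype) w ?_ hM hu
      ((p.comp r).range.subtype.comp (u.comp (p.comp r).range.subtype).ker.subtype |>.codRestrict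
        u.ker fun x => x.2) ?_
    · rintro ⟨_, g, rfl⟩
      exact hw g
    · intro x y hxy
      have h : x.1.1 = y.1.1 := congrArg (fun z : u.ker => z.1) hxy
      exact Subtype.ext (Subtype.ext h)
  have hJI : 𝒮 (J × (p.comp r).range) := ALb.prod h𝒮 hJ hI
  unfold MulIn
  refine AL.ext h𝒮 (r.comp (nsmulAddMonoidHom (α := G) (N ^ 2)).range.subtype)
    (k.coprod (-((ψ.comp q).comp (p.comp r).range.subtype))) ?_ hJI hr
    ((nsmulAddMonoidHom (α := G) (N ^ 2)).range.subtype.comp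
      (r.comp (nsmulAddMonoidHom (α := G) (N ^ 2)).range.subtype).ker.subtype |>.codRestrict
        r.ker fun x => x.2) ?_
  · rintro ⟨_, g, rfl⟩
    obtain ⟨b, hb⟩ := hθ (r g)
    refine ⟨(b, ⟨p (r g), g, rfl⟩), ?_⟩
    have h1 : (-(N : ℤ)) ^ 2 • r g + ψ ((q.comp p) (r g)) = k b := by
      rw [← hψ (r g)]
      exact hb
    have h2 : (-(N : ℤ)) ^ 2 • r g = N ^ 2 • r g := by
      rw [neg_sq, ← Nat.cast_pow, natCast_zsmul]
    show k b + -ψ (q (p (r g))) = r (N ^ 2 • g)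
    rw [map_nsmul, ← h2, ← h1]
    show _ + -ψ ((q.comp p) (r g)) = _
    abel
  · intro x y hxy
    have h : x.1.1 = y.1.1 := congrArg (fun z : r.ker => z.1) hxy
    exact Subtype.ext (Subtype.ext h)

end Pool.Agent.BTF
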