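import Pool.Agent.KGT.Reg

/-!
# BTF: regular local rings (domains, quotients by parameters)
-/

set_option autoImplicit false

noncomputable section

namespace Pool.Agent.BTF

open IsLocalRing Pointwise

/-- the Krull dimension of a quotient by an element outside the minimal primes -/
theorem dim_quot_le {R : Type} [CommRing R] [IsLocalRing R] (x : R)
    (hx : ∀ p ∈ minimalPrimes R, x ∉ p) :
    ringKrullDim (R ⧸ Ideal.span {x}) + 1 ≤ ringKrullDim R := by
  have h1 := Module.supportDim_quotSMulTop_succ_le_of_notMem_minimalPrimes (R := R) (M := R)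
    (x := x) (by
      intro p hp
      apply hx
      rw [minimalPrimes]
      have : Module.annihilator R R = ⊥ := by
        rw [Module.annihilator_eq_bot]
        infer_instance
      rwa [this] at hp)
  rw [Module.supportDim_self_eq_ringKrullDim] at h1
  have h2 : Ideal.span {x} = x • (⊤ : Ideal R) := by
    simp [← Submodule.ideal_span_singleton_smul]
  rw [ringKrullDim_eq_of_ringEquiv (Ideal.quotientEquivAlgOfEq R h2).toRingEquiv,
    ← Module.supportDim_quotient_eq_ringKrullDim]
  exact h1

theorem finite_minimalPrimes {R : Type} [CommRing R] [IsNoetherianRing R] :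
    (minimalPrimes R).Finite := minimalPrimes.finite_of_isNoetherianRing R

/-- a regular local ring is a domain -/
theorem isDomain_aux (n : ℕ) : ∀ (R : Type) [CommRing R] [IsRegularLocalRing R],
    (maximalIdeal R).spanFinrank ≤ n → IsDomain R := by
  induction n with
  | zero =>
    intro R _ _ h
    have h1 : (maximalIdeal R).spanFinrank = 0 := Nat.le_zero.1 h
    have h2 : maximalIdeal R = ⊥ := by
      rw [Submodule.spanFinrank_eq_zero_iff_eq_bot] at h1
      · exact h1
      · exact (maximalIdeal R).fg_of_isNoetherianRing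
    exact (IsLocalRing.isField_iff_maximalIdeal_eq.2 h2).isDomain
  | succ n ih =>
    intro R _ _ h
    classical
    by_cases h0 : (maximalIdeal R).spanFinrank ≤ n
    · exact ih R h0
    have hn : (maximalIdeal R).spanFinrank = n + 1 := by omega
    have hdim : ringKrullDim R = ((n + 1 : ℕ) : WithBot ℕ∞) := by
      rw [← (isRegularLocalRing_iff R).1 inferInstance, hn]
    obtain ⟨x, hxm, hx2, hxp⟩ : ∃ x ∈ maximalIdeal R, x ∉ maximalIdeal R ^ 2 ∧
        ∀ p ∈ minimalPrimes R, x ∉ p := by
      have hfin := finite_minimalPrimes (R := R)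
      let s : Finset (Ideal R) := insert (maximalIdeal R ^ 2) hfin.toFinset
      have hcov : ¬ ((maximalIdeal R : Set R) ⊆ ⋃ i ∈ (s : Set (Ideal R)), (id i : Ideal R)) := by
        intro hc
        rw [Ideal.subset_union_prime (f := id) (maximalIdeal R ^ 2) (maximalIdeal R ^ 2) (by
          intro i hi hi1 _
          rcases Finset.mem_insert.1 hi with hi | hi
          · exact absurd hi hi1
          · exact (hfin.mem_toFinset.1 hi).1.1)] at hc
        obtain ⟨i, hi, hle⟩ := hc
        rcases Finset.mem_insert.1 hi with rfl | hi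
        · have h3 : maximalIdeal R = ⊥ := by
            apply Submodule.eq_bot_of_le_smul_of_le_jacobson_bot (maximalIdeal R) (maximalIdeal R)
              (maximalIdeal R).fg_of_isNoetherianRing
            · rw [smul_eq_mul, ← pow_two]
              exact hle
            · rw [IsLocalRing.jacobson_eq_maximalIdeal ⊥ bot_ne_top]
          have h4 : (maximalIdeal R).spanFinrank = 0 := by
            rw [h3]
            exact Submodule.spanFinrank_bot
          omega
        · have hip := hfin.mem_toFinset.1 hi
          have h3 : i = maximalIdeal R := by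
            exact le_antisymm (IsLocalRing.le_maximalIdeal hip.1.1.ne_top) hle
          have h4 : (maximalIdeal R).height = 0 := by
            rw [← h3]
            have := hip.1.1
            exact Ideal.height_eq_zero_iff.2 hip
          have h5 := IsLocalRing.maximalIdeal_height_eq_ringKrullDim (R := R)
          rw [h4, hdim] at h5
          exact absurd h5 (by
            intro h6
            have h7 : (0 : ℕ∞) = ((n + 1 : ℕ) : ℕ∞) := by exact_mod_cast h6
            have h8 : (0 : ℕ) = n + 1 := by exact_mod_cast h7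
            omega)
      rw [Set.not_subset] at hcov
      obtain ⟨x, hx, hxs⟩ := hcov
      refine ⟨x, hx, ?_, ?_⟩
      · intro h3
        apply hxs
        rw [Set.mem_iUnion₂]
        exact ⟨maximalIdeal R ^ 2, Finset.mem_coe.2 (Finset.mem_insert_self _ _), h3⟩
      · intro p hp h3
        apply hxs
        rw [Set.mem_iUnion₂]
        exact ⟨p, Finset.mem_coe.2 (Finset.mem_insert_of_mem (hfin.mem_toFinset.2 hp)), h3⟩
    have := KGT.reg_local x hxm hx2
    have hd := dim_quot_le x hxp
    have hdd : (maximalIdeal (R ⧸ Ideal.span {x})).spanFinrank ≤ n := by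
      rw [hdim, ← (isRegularLocalRing_iff (R ⧸ Ideal.span {x})).1 inferInstance] at hd
      have h7 : (((maximalIdeal (R ⧸ Ideal.span {x})).spanFinrank + 1 : ℕ) : WithBot ℕ∞) ≤
          ((n + 1 : ℕ) : WithBot ℕ∞) := by
        push_cast
        push_cast at hd
        exact hd
      have h8 : (maximalIdeal (R ⧸ Ideal.span {x})).spanFinrank + 1 ≤ n + 1 := by
        exact_mod_cast h7
      omega
    have hD := ih (R ⧸ Ideal.span {x}) hdd
    have hxP : (Ideal.span {x}).IsPrime := (Ideal.Quotient.isDomain_iff_prime _).1 hD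
    obtain ⟨p, hp, hpx⟩ := Ideal.exists_minimalPrimes_le (I := ⊥) (J := Ideal.span {x}) bot_le
    have hpp : p.IsPrime := hp.1.1
    have hxnp : x ∉ p := hxp p hp
    have h9 : p = ⊥ := by
      apply Submodule.eq_bot_of_le_smul_of_le_jacobson_bot (maximalIdeal R) p
        p.fg_of_isNoetherianRing
      · intro y hy
        obtain ⟨a, rfl⟩ := Ideal.mem_span_singleton'.1 (hpx hy)
        have ha : a ∈ p := (hpp.mem_or_mem hy).resolve_right hxnp
        rw [mul_comm]
        exact Submodule.smul_mem_smul hxm ha
      · rw [IsLocalRing.jacobson_eq_maximalIdeal ⊥ bot_ne_top]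
    rw [h9] at hpp
    exact IsDomain.of_bot_isPrime R

theorem isDomain_of_regular (R : Type) [CommRing R] [IsRegularLocalRing R] : IsDomain R :=
  isDomain_aux _ R le_rfl

/-- the quotient of a local ring by a proper ideal is local -/
theorem isLocalRing_quot {R : Type} [CommRing R] [IsLocalRing R] (I : Ideal R)
    (hI : I ≤ maximalIdeal R) : IsLocalRing (R ⧸ I) := by
  have hne : I ≠ ⊤ := by
    intro h
    rw [h, top_le_iff] at hI
    exact (maximalIdeal.isMaximal R).ne_top hI
  have : Nontrivial (R ⧸ I) := Ideal.Quotient.nontrivial_iff.2 hne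
  exact IsLocalRing.of_surjective' (Ideal.Quotient.mk I) Ideal.Quotient.mk_surjective

theorem comap_max {R : Type} [CommRing R] [IsLocalRing R] (I : Ideal R) [IsLocalRing (R ⧸ I)] :
    (maximalIdeal (R ⧸ I)).comap (Ideal.Quotient.mk I) = maximalIdeal R := by
  have h := Ideal.comap_isMaximal_of_surjective (Ideal.Quotient.mk I)
    Ideal.Quotient.mk_surjective (K := maximalIdeal (R ⧸ I))
  exact IsLocalRing.eq_maximalIdeal h

theorem mk_mem_max {R : Type} [CommRing R] [IsLocalRing R] (I : Ideal R) [IsLocalRing (R ⧸ I)]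
    (x : R) : Ideal.Quotient.mk I x ∈ maximalIdeal (R ⧸ I) ↔ x ∈ maximalIdeal R := by
  rw [← comap_max I, Ideal.mem_comap]

/-- regularity ascends from `R / (x)` to `R` -/
theorem regular_of_quot {R : Type} [CommRing R] [IsLocalRing R] [IsNoetherianRing R] (x : R)
    (hx : x ∈ maximalIdeal R) (hreg : ∀ y, x * y = 0 → y = 0)
    (h : IsRegularLocalRing (R ⧸ Ideal.span {x})) : IsRegularLocalRing R := by
  classical
  apply IsRegularLocalRing.of_spanFinrank_maximalIdeal_le
  have hfg : (maximalIdeal (R ⧸ Ideal.span {x})).FG :=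
    (maximalIdeal (R ⧸ Ideal.span {x})).fg_of_isNoetherianRing
  have hG := Submodule.FG.finite_generators hfg
  let G := (maximalIdeal (R ⧸ Ideal.span {x})).generators
  have hGs : Ideal.span G = maximalIdeal (R ⧸ Ideal.span {x}) :=
    (maximalIdeal (R ⧸ Ideal.span {x})).span_generators
  let π := Ideal.Quotient.mk (Ideal.span {x})
  obtain ⟨f, hf⟩ := (Ideal.Quotient.mk_surjective (I := Ideal.span {x})).hasRightInverse
  have hm : maximalIdeal R = Ideal.span (insert x (f '' G)) := by
    apply le_antisymm
    · intro y hy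
      rw [← mk_mem_max (Ideal.span {x}), ← hGs] at hy
      have h1 : Ideal.span G = (Ideal.span (f '' G)).map π := by
        rw [Ideal.map_span]
        congr 1
        rw [← Set.image_comp]
        have : (fun g => π (f g)) '' G = G := by
          have h2 : (fun g => π (f g)) = id := funext hf
          rw [h2, Set.image_id]
        exact this.symm
      rw [h1, Ideal.mem_quotient_iff_mem_sup] at hy
      rw [Ideal.span_insert, sup_comm]
      exact hy
    · rw [Ideal.span_le]
      intro y hy
      rcases Set.mem_insert_iff.1 hy with rfl | ⟨g, hg, rfl⟩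
      · exact hx
      · rw [SetLike.mem_coe, ← mk_mem_max (Ideal.span {x}), hf, ← hGs]
        exact Ideal.subset_span hg
  have h1 : (maximalIdeal R).spanFinrank ≤
      (maximalIdeal (R ⧸ Ideal.span {x})).spanFinrank + 1 := by
    rw [hm, ← Submodule.FG.generators_ncard hfg]
    refine (Submodule.spanFinrank_span_le_ncard_of_finite ((hG.image f).insert x)).trans ?_
    refine (Set.ncard_insert_le _ _).trans ?_
    exact Nat.add_le_add_right (Set.ncard_image_le hG) 1
  have h2 := ringKrullDim_quotient_span_singleton_succ_eq_ringKrullDim_of_mem_jacobson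
    (R := R) (x := x) (by
      intro a b hab
      have h3 : x * (a - b) = 0 := by
        rw [mul_sub]
        exact sub_eq_zero.2 hab
      exact sub_eq_zero.1 (hreg _ h3)) (by
      rw [IsLocalRing.ringJacobson_eq_maximalIdeal]
      exact hx)
  rw [← h2, ← (isRegularLocalRing_iff (R ⧸ Ideal.span {x})).1 h]
  exact_mod_cast h1

/-- weakly regular lists, elementwise -/
def WR {R : Type} [CommRing R] (l : List R) : Prop := ∀ l₁ a l₂, l = l₁ ++ a :: l₂ →
  ∀ y, a * y ∈ Ideal.ofList l₁ → y ∈ Ideal.ofList l₁

/-- part of a regular system of parameters (for a noetherian local ring `R`) -/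
structure RP (R : Type) [CommRing R] [IsLocalRing R] (l : List R) : Prop where
  mem : ∀ x ∈ l, x ∈ maximalIdeal R
  wr : WR l
  quo : IsRegularLocalRing (R ⧸ Ideal.ofList l)

theorem mk_mem_ofList {R : Type} [CommRing R] (x y : R) (l : List R) :
    Ideal.Quotient.mk (Ideal.span {x}) y ∈
      Ideal.ofList (l.map (Ideal.Quotient.mk (Ideal.span {x}))) ↔ y ∈ Ideal.ofList (x :: l) := by
  rw [← Ideal.map_ofList, Ideal.mem_quotient_iff_mem_sup, Ideal.ofList_cons, sup_comm]

theorem WR.tail {R : Type} [CommRing R] {x : R} {l : List R} (h : WR (x :: l)) :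
    WR (l.map (Ideal.Quotient.mk (Ideal.span {x}))) := by
  intro l₁ a l₂ hl y hy
  obtain ⟨m₁, m₂, rfl, rfl, h2⟩ := List.map_eq_append_iff.1 hl
  obtain ⟨b, m₃, rfl, rfl, rfl⟩ := List.map_eq_cons_iff.1 h2
  obtain ⟨y, rfl⟩ := Ideal.Quotient.mk_surjective y
  rw [← map_mul, mk_mem_ofList] at hy
  rw [mk_mem_ofList]
  exact h (x :: m₁) b m₃ rfl y hy

theorem WR.cons {R : Type} [CommRing R] {x : R} {l : List R} (hx : ∀ y, x * y = 0 → y = 0)
    (h : WR (l.map (Ideal.Quotient.mk (Ideal.span {x})))) : WR (x :: l) := by
  intro l₁ a l₂ hl y hy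
  cases l₁ with
  | nil =>
    rw [List.nil_append, List.cons.injEq] at hl
    rw [Ideal.ofList_nil, Ideal.mem_bot] at hy ⊢
    rw [← hl.1] at hy
    exact hx y hy
  | cons b l₁ =>
    rw [List.cons_append, List.cons.injEq] at hl
    obtain ⟨rfl, rfl⟩ := hl
    rw [← mk_mem_ofList]
    apply h (l₁.map _) (Ideal.Quotient.mk _ a) (l₂.map _)
    · rw [List.map_append, List.map_cons]
    · rw [← map_mul, mk_mem_ofList]
      exact hy

theorem ofList_le_max {R : Type} [CommRing R] [IsLocalRing R] {l : List R}
    (h : ∀ x ∈ l, x ∈ maximalIdeal R) : Ideal.ofList l ≤ maximalIdeal R :=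
  Ideal.span_le.2 h

/-- the double quotient -/
def quotCons {R : Type} [CommRing R] (x : R) (l : List R) :
    ((R ⧸ Ideal.span {x}) ⧸ Ideal.ofList (l.map (Ideal.Quotient.mk (Ideal.span {x})))) ≃+*
      (R ⧸ Ideal.ofList (x :: l)) :=
  (Ideal.quotEquivOfEq (Ideal.map_ofList _ _).symm).trans
    ((DoubleQuot.quotQuotEquivQuotSup (Ideal.span {x}) (Ideal.ofList l)).trans
      (Ideal.quotEquivOfEq (Ideal.ofList_cons x l).symm))

theorem RP.tail {R : Type} [CommRing R] [IsLocalRing R] {x : R} {l : List R}
    [IsLocalRing (R ⧸ Ideal.span {x})] (h : RP R (x :: l)) :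
    RP (R ⧸ Ideal.span {x}) (l.map (Ideal.Quotient.mk (Ideal.span {x}))) where
  mem := by
    intro y hy
    obtain ⟨z, hz, rfl⟩ := List.mem_map.1 hy
    exact (mk_mem_max _ _).2 (h.mem z (List.mem_cons_of_mem _ hz))
  wr := h.wr.tail
  quo := by
    have := h.quo
    exact IsRegularLocalRing.of_ringEquiv (quotCons x l).symm

theorem regular_of_RP (l : List ℕ) : ∀ (R : Type) [CommRing R] [IsLocalRing R]
    [IsNoetherianRing R] (m : List R), m.length = l.length → RP R m → IsRegularLocalRing R := by
  induction l with
  | nil =>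
    intro R _ _ _ m hm h
    have hm' : m = [] := List.length_eq_zero_iff.1 hm
    subst hm'
    have := h.quo
    exact IsRegularLocalRing.of_ringEquiv
      ((Ideal.quotEquivOfEq Ideal.ofList_nil).trans (RingEquiv.quotientBot R))
  | cons _ l ih =>
    intro R _ _ _ m hm h
    cases m with
    | nil => exact absurd hm (by simp)
    | cons x m =>
      have hx : x ∈ maximalIdeal R := h.mem x List.mem_cons_self
      have : IsLocalRing (R ⧸ Ideal.span {x}) :=
        isLocalRing_quot _ ((Ideal.span_singleton_le_iff_mem _).2 hx)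
      have h1 := ih (R ⧸ Ideal.span {x}) (m.map (Ideal.Quotient.mk (Ideal.span {x})))
        (by simpa using hm) h.tail
      refine regular_of_quot x hx ?_ h1
      intro y hy
      have h2 := h.wr [] x m rfl y (by rw [Ideal.ofList_nil, Ideal.mem_bot]; exact hy)
      rwa [Ideal.ofList_nil, Ideal.mem_bot] at h2

theorem RP.regular {R : Type} [CommRing R] [IsLocalRing R] [IsNoetherianRing R] {m : List R}
    (h : RP R m) : IsRegularLocalRing R :=
  regular_of_RP (m.map fun _ => 0) R m (by simp) h

end Pool.Agent.BTF
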