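import Pool.Agent.BTF.AbA

/-!
# BTF: regular systems of parameters, localisations of polynomial rings
-/

set_option autoImplicit false

noncomputable section

namespace Pool.Agent.BTF

open IsLocalRing Polynomial

theorem ncard_le_length {R : Type} (l : List R) : {r | r ∈ l}.ncard ≤ l.length := by
  classical
  have h : {r | r ∈ l} = (l.toFinset : Set R) := by
    ext r
    simp
  rw [h, Set.ncard_coe_finset]
  exact l.toFinset_card_le

theorem dim_quot_eq {R : Type} [CommRing R] [IsRegularLocalRing R] (x : R)
    (hx : x ∈ maximalIdeal R) (hx0 : x ≠ 0) [IsRegularLocalRing (R ⧸ Ideal.span {x})] :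
    (maximalIdeal (R ⧸ Ideal.span {x})).spanFinrank + 1 = (maximalIdeal R).spanFinrank := by
  have hD := isDomain_of_regular R
  have h2 := ringKrullDim_quotient_span_singleton_succ_eq_ringKrullDim_of_mem_jacobson
    (R := R) (x := x) (by
      intro a b hab
      have h3 : x * (a - b) = 0 := by
        rw [mul_sub]
        exact sub_eq_zero.2 hab
      exact sub_eq_zero.1 ((mul_eq_zero.1 h3).resolve_left hx0)) (by
      rw [IsLocalRing.ringJacobson_eq_maximalIdeal]
      exact hx)
  rw [← (isRegularLocalRing_iff (R ⧸ Ideal.span {x})).1 inferInstance,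
    ← (isRegularLocalRing_iff R).1 inferInstance] at h2
  exact_mod_cast h2

/-- a minimal list of generators of the maximal ideal is a regular system of parameters -/
theorem rsp_aux (n : ℕ) : ∀ (R : Type) [CommRing R] [IsRegularLocalRing R] (l : List R),
    l.length = n → Ideal.ofList l = maximalIdeal R →
    l.length ≤ (maximalIdeal R).spanFinrank → RP R l := by
  induction n with
  | zero =>
    intro R _ _ l hl _ _
    have hl' : l = [] := List.length_eq_zero_iff.1 hl
    subst hl'
    refine ⟨by simp, ?_, ?_⟩
    · intro l₁ a l₂ h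
      exact absurd h.symm (by simp)
    · exact IsRegularLocalRing.of_ringEquiv
        ((Ideal.quotEquivOfEq Ideal.ofList_nil).trans (RingEquiv.quotientBot R)).symm
  | succ n ih =>
    intro R _ _ l hl hm hle
    cases l with
    | nil => exact absurd hl (by simp)
    | cons x l =>
      have hD := isDomain_of_regular R
      have hx : x ∈ maximalIdeal R := by
        rw [← hm, Ideal.ofList_cons]
        exact Ideal.mem_sup_left (Ideal.mem_span_singleton_self x)
      have hx2 : x ∉ maximalIdeal R ^ 2 := by
        intro h2
        have h3 : maximalIdeal R ≤ Ideal.ofList l := by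
          apply Submodule.le_of_le_smul_of_le_jacobson_bot (I := maximalIdeal R)
            (maximalIdeal R).fg_of_isNoetherianRing
          · rw [IsLocalRing.jacobson_eq_maximalIdeal ⊥ bot_ne_top]
          · rw [smul_eq_mul, ← pow_two]
            conv_lhs => rw [← hm, Ideal.ofList_cons]
            exact sup_le (((Ideal.span_singleton_le_iff_mem _).2 h2).trans le_sup_right)
              le_sup_left
        have h4 : Ideal.ofList l = maximalIdeal R := by
          apply le_antisymm _ h3
          rw [← hm, Ideal.ofList_cons]
          exact le_sup_right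
        have h5 : (maximalIdeal R).spanFinrank ≤ l.length := by
          rw [← h4]
          have hf : {r | r ∈ l}.Finite := by
            classical
            have h : {r | r ∈ l} = (l.toFinset : Set R) := by
              ext r
              simp
            rw [h]
            exact Finset.finite_toSet _
          exact (Submodule.spanFinrank_span_le_ncard_of_finite hf).trans (ncard_le_length l)
        rw [List.length_cons] at hle
        omega
      have hx0 : x ≠ 0 := by
        rintro rfl
        exact hx2 (Ideal.zero_mem _)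
      have hQ := KGT.reg_local x hx hx2
      have hd := dim_quot_eq x hx hx0
      have h1 : RP (R ⧸ Ideal.span {x}) (l.map (Ideal.Quotient.mk (Ideal.span {x}))) := by
        apply ih
        · simpa using hl
        · ext y
          obtain ⟨y, rfl⟩ := Ideal.Quotient.mk_surjective y
          rw [mk_mem_ofList, hm, mk_mem_max]
        · rw [List.length_map]
          rw [List.length_cons] at hle
          omega
      refine ⟨?_, ?_, ?_⟩
      · intro y hy
        rw [← hm]
        exact Ideal.subset_span hy
      · exact WR.cons (fun y hy => (mul_eq_zero.1 hy).resolve_left hx0) h1.wr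
      · have := h1.quo
        exact IsRegularLocalRing.of_ringEquiv (quotCons x l)

theorem rsp_RP {R : Type} [CommRing R] [IsRegularLocalRing R] {l : List R}
    (hm : Ideal.ofList l = maximalIdeal R) (hle : l.length ≤ (maximalIdeal R).spanFinrank) :
    RP R l := rsp_aux _ R l rfl hm hle

theorem exists_rsp (R : Type) [CommRing R] [IsRegularLocalRing R] :
    ∃ l : List R, Ideal.ofList l = maximalIdeal R ∧ l.length ≤ (maximalIdeal R).spanFinrank := by
  classical
  have hfg : (maximalIdeal R).FG := (maximalIdeal R).fg_of_isNoetherianRing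
  have hG := Submodule.FG.finite_generators hfg
  refine ⟨hG.toFinset.toList, ?_, ?_⟩
  · have : {r | r ∈ hG.toFinset.toList} = (maximalIdeal R).generators := by
      ext r
      simp
    rw [Ideal.ofList, this]
    exact (maximalIdeal R).span_generators
  · rw [Finset.length_toList, ← Submodule.FG.generators_ncard hfg, Set.ncard_eq_toFinset_card _ hG]

/-- the quotient by a part of a regular system of parameters is regular -/
theorem RP.initial_aux (n : ℕ) : ∀ (R : Type) [CommRing R] [IsLocalRing R] [IsNoetherianRing R]
    (l₁ l₂ : List R), l₁.length = n → RP R (l₁ ++ l₂) →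
    IsRegularLocalRing (R ⧸ Ideal.ofList l₁) := by
  induction n with
  | zero =>
    intro R _ _ _ l₁ l₂ hl h
    have hl' : l₁ = [] := List.length_eq_zero_iff.1 hl
    subst hl'
    have := h.regular
    exact IsRegularLocalRing.of_ringEquiv
      ((Ideal.quotEquivOfEq Ideal.ofList_nil).trans (RingEquiv.quotientBot R)).symm
  | succ n ih =>
    intro R _ _ _ l₁ l₂ hl h
    cases l₁ with
    | nil => exact absurd hl (by simp)
    | cons x l₁ =>
      have hx : x ∈ maximalIdeal R := h.mem x (by simp)
      have hloc : IsLocalRing (R ⧸ Ideal.span {x}) :=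
        isLocalRing_quot _ ((Ideal.span_singleton_le_iff_mem _).2 hx)
      have h1 : RP (R ⧸ Ideal.span {x}) (l₁.map (Ideal.Quotient.mk (Ideal.span {x})) ++
          l₂.map (Ideal.Quotient.mk (Ideal.span {x}))) := by
        rw [← List.map_append]
        exact RP.tail h
      have h2 := ih (R ⧸ Ideal.span {x}) _ _ (by simpa using hl) h1
      exact IsRegularLocalRing.of_ringEquiv (quotCons x l₁)

theorem RP.quot_left {R : Type} [CommRing R] [IsLocalRing R] [IsNoetherianRing R]
    {l₁ l₂ : List R} (h : RP R (l₁ ++ l₂)) : IsRegularLocalRing (R ⧸ Ideal.ofList l₁) :=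
  RP.initial_aux _ R l₁ l₂ rfl h

/-! ### localisations of the polynomial ring -/

/-- quotients of localisations are localisations of quotients -/
theorem regular_locQuot {A B : Type} [CommRing A] [CommRing B] [Algebra A B] (P : Ideal A)
    [P.IsPrime] [IsLocalization.AtPrime B P] (J : Ideal A) (Q : Ideal (A ⧸ J)) [Q.IsPrime]
    (hQ : Q.comap (Ideal.Quotient.mk J) = P) (h : IsRegularLocalRing (Localization.AtPrime Q)) :
    IsRegularLocalRing (B ⧸ J.map (algebraMap A B)) := by
  let b : (A ⧸ J) →+* (B ⧸ J.map (algebraMap A B)) := Ideal.Quotient.lift J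
    ((Ideal.Quotient.mk (J.map (algebraMap A B))).comp (algebraMap A B)) (by
      intro y hy
      rw [RingHom.comp_apply, Ideal.Quotient.eq_zero_iff_mem]
      exact Ideal.mem_map_of_mem _ hy)
  letI : Algebra (A ⧸ J) (B ⧸ J.map (algebraMap A B)) := b.toAlgebra
  have hloc : IsLocalization (P.primeCompl.map (Ideal.Quotient.mk J))
      (B ⧸ J.map (algebraMap A B)) :=
    IsLocalization.of_surjective P.primeCompl B (Ideal.Quotient.mk J)
      Ideal.Quotient.mk_surjective (Ideal.Quotient.mk (J.map (algebraMap A B)))
      Ideal.Quotient.mk_surjective rfl (by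
        rw [Ideal.mk_ker, Ideal.mk_ker])
  have hM : P.primeCompl.map (Ideal.Quotient.mk J) = Q.primeCompl := by
    ext y
    constructor
    · rintro ⟨z, hz, rfl⟩ hy
      apply hz
      rw [← hQ]
      exact hy
    · intro hy
      obtain ⟨z, rfl⟩ := Ideal.Quotient.mk_surjective y
      refine ⟨z, ?_, rfl⟩
      intro hz
      apply hy
      rw [← hQ] at hz
      exact hz
  rw [hM] at hloc
  exact IsRegularLocalRing.of_ringEquiv
    (IsLocalization.algEquiv Q.primeCompl (Localization.AtPrime Q)
      (B ⧸ J.map (algebraMap A B))).toRingEquiv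

theorem regular_locEquiv {A A' : Type} [CommRing A] [CommRing A'] (e : A ≃+* A') (Q : Ideal A')
    [Q.IsPrime] (h : IsRegularLocalRing (Localization.AtPrime (Q.comap e))) :
    IsRegularLocalRing (Localization.AtPrime Q) :=
  IsRegularLocalRing.of_ringEquiv <| IsLocalization.ringEquivOfRingEquiv
    (Localization.AtPrime (Q.comap e)) (Localization.AtPrime Q) e (e.map_primeCompl_comap_eq Q)

section Loc

variable {R : Type} [CommRing R] (P : Ideal R[X]) [P.IsPrime]

/-- the map from `R` to the localisation of `R[X]` -/
def toB : R →+* Localization.AtPrime P := (algebraMap R[X] (Localization.AtPrime P)).comp C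

/-- quotients of the localisation of `R[X]` are regular -/
theorem regular_locPoly [IsLocalRing R] (hP : P.comap C = maximalIdeal R) (I : Ideal R)
    (hI : I ≤ maximalIdeal R) [IsRegularLocalRing (R ⧸ I)] :
    IsRegularLocalRing (Localization.AtPrime P ⧸ I.map (toB P)) := by
  classical
  let J : Ideal R[X] := I.map C
  have hJP : J ≤ P := by
    rw [Ideal.map_le_iff_le_comap, hP]
    exact hI
  let e : (R ⧸ I)[X] ≃+* R[X] ⧸ J := Ideal.polynomialQuotientEquivQuotientPolynomial I
  let Q : Ideal (R[X] ⧸ J) := P.map (Ideal.Quotient.mk J)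
  have hQ : Q.IsPrime := Ideal.map_isPrime_of_surjective Ideal.Quotient.mk_surjective (by
    rw [Ideal.mk_ker]
    exact hJP)
  have hQc : Q.comap (Ideal.Quotient.mk J) = P := by
    rw [Ideal.comap_map_mk hJP]
  have hmax : (Q.comap e).comap C = maximalIdeal (R ⧸ I) := by
    ext y
    obtain ⟨y, rfl⟩ := Ideal.Quotient.mk_surjective y
    rw [mk_mem_max, ← hP, Ideal.mem_comap, Ideal.mem_comap, Ideal.mem_comap]
    have h1 : e (C (Ideal.Quotient.mk I y)) = Ideal.Quotient.mk J (C y) := by
      have h2 := Ideal.polynomialQuotientEquivQuotientPolynomial_map_mk I (C y)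
      rw [Polynomial.map_C] at h2
      exact h2
    rw [h1, ← hQc, Ideal.mem_comap]
  have hQ' : (Q.comap e).IsPrime := Ideal.comap_isPrime _ _
  have hreg2 : IsRegularLocalRing (Localization.AtPrime Q) :=
    regular_locEquiv e Q (Polynomial.isRegularLocalRing_localization_atPrime_of_comap_eq_maximalIdeal
      (R ⧸ I) (Q.comap e) hmax)
  have hIJ : I.map (toB P) = J.map (algebraMap R[X] (Localization.AtPrime P)) := by
    rw [toB, ← Ideal.map_map]
  rw [hIJ]
  exact regular_locQuot P J Q hQc hreg2

/-- weak regularity passes to the localisation of `R[X]` -/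
theorem WR.toB {l : List R} (h : WR l) : WR (l.map (toB P)) := by
  intro l₁ a l₂ hl y hy
  obtain ⟨m₁, m₂, rfl, rfl, h2⟩ := List.map_eq_append_iff.1 hl
  obtain ⟨b, m₃, rfl, rfl, rfl⟩ := List.map_eq_cons_iff.1 h2
  rw [← Ideal.map_ofList, BTF.toB, ← Ideal.map_map] at hy ⊢
  obtain ⟨⟨F, s⟩, hF⟩ := IsLocalization.surj P.primeCompl y
  have h3 : algebraMap R[X] (Localization.AtPrime P) (C b * F) ∈
      ((Ideal.ofList m₁).map C).map (algebraMap R[X] (Localization.AtPrime P)) := by
    have h4 : algebraMap R[X] (Localization.AtPrime P) (C b * F) =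
        ((algebraMap R[X] (Localization.AtPrime P)).comp C b * y) *
          algebraMap R[X] (Localization.AtPrime P) s := by
      rw [map_mul, ← hF, RingHom.comp_apply, mul_assoc]
    rw [h4]
    exact Ideal.mul_mem_right _ _ hy
  rw [IsLocalization.algebraMap_mem_map_algebraMap_iff P.primeCompl] at h3
  obtain ⟨t, ht, h5⟩ := h3
  have h6 : t * F ∈ (Ideal.ofList m₁).map (C : R →+* R[X]) := by
    rw [Ideal.mem_map_C_iff]
    intro n
    apply h m₁ b m₃ rfl
    rw [← coeff_C_mul]
    have h7 : C b * (t * F) = t * (C b * F) := by ring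
    rw [h7]
    exact Ideal.mem_map_C_iff.1 h5 n
  have h8 : algebraMap R[X] (Localization.AtPrime P) F ∈
      ((Ideal.ofList m₁).map C).map (algebraMap R[X] (Localization.AtPrime P)) := by
    rw [IsLocalization.algebraMap_mem_map_algebraMap_iff P.primeCompl]
    exact ⟨t, ht, h6⟩
  rw [← hF] at h8
  exact (Ideal.mul_unit_mem_iff_mem _ (IsLocalization.map_units _ s)).1 h8

end Loc

end Pool.Agent.BTF
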