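import Pool.Agent.BTF.AbB

/-!
# BTF: the kernel of `R[X] → V`, `X ↦ z / x`, and fields of fractions
-/

set_option autoImplicit false

noncomputable section

namespace Pool.Agent.BTF

open IsLocalRing Polynomial

theorem dvd_of_pow_mul {R : Type} [CommRing R] {x z : R} (hz : ∀ a, x ∣ z * a → x ∣ a) (n : ℕ) :
    ∀ a, x ∣ a * z ^ n → x ∣ a := by
  induction n with
  | zero =>
    intro a h
    rwa [pow_zero, mul_one] at h
  | succ n ih =>
    intro a h
    apply ih
    apply hz
    have : z * (a * z ^ n) = a * z ^ (n + 1) := by ring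
    rwa [this]

/-- the leading coefficient of an element of the kernel is divisible by `x` -/
theorem dvd_coeff {R V : Type} [CommRing R] [CommRing V] (φ : R →+* V)
    (hφ : Function.Injective φ) {x z : R} (hz : ∀ a, x ∣ z * a → x ∣ a) {y : V}
    (hy : φ z = φ x * y) (n : ℕ) (F : R[X]) (hF : F.natDegree < n + 2)
    (h0 : eval₂ φ y F = 0) : x ∣ F.coeff (n + 1) := by
  have h1 : ∑ i ∈ Finset.range (n + 2), F.coeff i * z ^ i * x ^ (n + 1 - i) = 0 := by
    apply hφ
    rw [map_zero, map_sum]
    have h2 : φ x ^ (n + 1) * eval₂ φ y F = 0 := by rw [h0, mul_zero]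
    rw [← h2, eval₂_eq_sum_range' φ hF, Finset.mul_sum]
    apply Finset.sum_congr rfl
    intro i hi
    have hi' : i ≤ n + 1 := by
      have := Finset.mem_range.1 hi
      omega
    rw [map_mul, map_mul, map_pow, map_pow, hy, mul_pow]
    have h3 : φ x ^ (n + 1) = φ x ^ i * φ x ^ (n + 1 - i) := by
      rw [← pow_add]
      congr 1
      omega
    rw [h3]
    ring
  rw [Finset.sum_range_succ, Nat.sub_self, pow_zero, mul_one] at h1
  apply dvd_of_pow_mul hz (n + 1)
  have h4 : x ∣ ∑ i ∈ Finset.range (n + 1), F.coeff i * z ^ i * x ^ (n + 1 - i) := by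
    apply Finset.dvd_sum
    intro i hi
    have hi' := Finset.mem_range.1 hi
    refine Dvd.dvd.mul_left (dvd_pow_self x ?_) _
    omega
  exact (dvd_add_right h4).1 (h1 ▸ dvd_zero x)

/-- the kernel of `R[X] → V`, `X ↦ z / x` -/
theorem mem_span_of_eval {R V : Type} [CommRing R] [CommRing V] (φ : R →+* V)
    (hφ : Function.Injective φ) {x z : R} (hz : ∀ a, x ∣ z * a → x ∣ a) {y : V}
    (hy : φ z = φ x * y) (n : ℕ) :
    ∀ F : R[X], F.natDegree ≤ n → eval₂ φ y F = 0 → F ∈ Ideal.span {C x * X - C z} := by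
  induction n with
  | zero =>
    intro F hF h0
    have h1 : F = C (F.coeff 0) := eq_C_of_natDegree_le_zero hF
    rw [h1, eval₂_C] at h0
    have h2 : F.coeff 0 = 0 := hφ (by rw [h0, map_zero])
    rw [h1, h2, C_0]
    exact Ideal.zero_mem _
  | succ n ih =>
    intro F hF h0
    obtain ⟨b, hb⟩ := dvd_coeff φ hφ hz hy n F (by omega) h0
    have h1 : F - C b * X ^ n * (C x * X - C z) ∈ Ideal.span {C x * X - C z} := by
      apply ih
      · rw [natDegree_le_iff_coeff_eq_zero]
        intro m hm
        have h2 : C b * X ^ n * (C x * X - C z) = C (x * b) * X ^ (n + 1) - C (b * z) * X ^ n := by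
          rw [C_mul, C_mul]
          ring
        rw [h2, coeff_sub, coeff_sub, coeff_C_mul_X_pow, coeff_C_mul_X_pow]
        by_cases hm1 : m = n + 1
        · subst hm1
          rw [if_pos rfl, if_neg (by omega), hb]
          ring
        · rw [if_neg hm1, if_neg (by omega), coeff_eq_zero_of_natDegree_lt (by omega)]
          ring
      · have h5 : eval₂ φ y (C x * X - C z) = 0 := by
          rw [eval₂_sub, eval₂_mul, eval₂_C, eval₂_X, eval₂_C, hy, sub_self]
        rw [eval₂_sub, h0, eval₂_mul, h5, mul_zero, sub_zero]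
    have h3 : F = (F - C b * X ^ n * (C x * X - C z)) + C b * X ^ n * (C x * X - C z) := by ring
    rw [h3]
    exact Ideal.add_mem _ h1 (Ideal.mul_mem_left _ _ (Ideal.mem_span_singleton_self _))

/-- fields which are generated by the images of the same ring with the same kernel -/
theorem frac_equiv {A K₁ K₂ : Type} [CommRing A] [Field K₁] [Field K₂] (g : A →+* K₁)
    (j : A →+* K₂) (hk : ∀ a, g a = 0 ↔ j a = 0) (h1 : ∀ v : K₁, ∃ a b, g b ≠ 0 ∧ g b * v = g a)
    (h2 : ∀ v : K₂, ∃ a b, j b ≠ 0 ∧ j b * v = j a) : Nonempty (K₁ ≃+* K₂) := by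
  let I : Ideal A := RingHom.ker g
  have hI : I.IsPrime := RingHom.ker_isPrime g
  let D := A ⧸ I
  have hD : IsDomain D := inferInstance
  let g' : D →+* K₁ := Ideal.Quotient.lift I g (fun a ha => ha)
  let j' : D →+* K₂ := Ideal.Quotient.lift I j (fun a ha => (hk a).1 ha)
  let _ : Algebra D K₁ := g'.toAlgebra
  let _ : Algebra D K₂ := j'.toAlgebra
  have hg' : Function.Injective (algebraMap D K₁) := by
    rw [injective_iff_map_eq_zero]
    intro a ha
    obtain ⟨a, rfl⟩ := Ideal.Quotient.mk_surjective a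
    exact Ideal.Quotient.eq_zero_iff_mem.2 ha
  have hj' : Function.Injective (algebraMap D K₂) := by
    rw [injective_iff_map_eq_zero]
    intro a ha
    obtain ⟨a, rfl⟩ := Ideal.Quotient.mk_surjective a
    exact Ideal.Quotient.eq_zero_iff_mem.2 ((hk a).2 ha)
  have : FaithfulSMul D K₁ := (faithfulSMul_iff_algebraMap_injective D K₁).2 hg'
  have : FaithfulSMul D K₂ := (faithfulSMul_iff_algebraMap_injective D K₂).2 hj'
  have : IsFractionRing D K₁ := IsFractionRing.of_field D K₁ (by
    intro v
    obtain ⟨a, b, hb, hv⟩ := h1 v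
    refine ⟨Ideal.Quotient.mk I a, Ideal.Quotient.mk I b, ?_⟩
    change v = g a / g b
    rw [eq_div_iff hb, mul_comm]
    exact hv)
  have : IsFractionRing D K₂ := IsFractionRing.of_field D K₂ (by
    intro v
    obtain ⟨a, b, hb, hv⟩ := h2 v
    refine ⟨Ideal.Quotient.mk I a, Ideal.Quotient.mk I b, ?_⟩
    change v = j a / j b
    rw [eq_div_iff hb, mul_comm]
    exact hv)
  exact ⟨(IsLocalization.algEquiv (nonZeroDivisors D) K₁ K₂).toRingEquiv⟩

/-- rational functions over a field of fractions -/
theorem ratFunc_frac {S L : Type} [CommRing S] [IsDomain S] [Field L] [Algebra S L]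
    [IsFractionRing S L] (v : RatFunc L) : ∃ a b : S[X],
      algebraMap L[X] (RatFunc L) (b.map (algebraMap S L)) ≠ 0 ∧
      algebraMap L[X] (RatFunc L) (b.map (algebraMap S L)) * v =
        algebraMap L[X] (RatFunc L) (a.map (algebraMap S L)) := by
  obtain ⟨p, q, hq, rfl⟩ := IsFractionRing.div_surjective (A := L[X]) v
  have hq0 : q ≠ 0 := nonZeroDivisors.ne_zero hq
  obtain ⟨c, hc, hp⟩ := IsLocalization.integerNormalization_spec (nonZeroDivisors S) p
  obtain ⟨d, hd, hq'⟩ := IsLocalization.integerNormalization_spec (nonZeroDivisors S) q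
  have hc0 : c ≠ 0 := nonZeroDivisors.ne_zero hc
  have hd0 : d ≠ 0 := nonZeroDivisors.ne_zero hd
  have hcL : algebraMap S L c ≠ 0 := by
    intro h
    exact hc0 ((IsFractionRing.injective S L) (by rw [h, map_zero]))
  have hdL : algebraMap S L d ≠ 0 := by
    intro h
    exact hd0 ((IsFractionRing.injective S L) (by rw [h, map_zero]))
  have e1 : (C d * IsLocalization.integerNormalization (nonZeroDivisors S) p).map (algebraMap S L) =
      C (algebraMap S L d) * (C (algebraMap S L c) * p) := by
    rw [Polynomial.map_mul, map_C, hp, Algebra.smul_def, Polynomial.algebraMap_apply]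
  have e2 : (C c * IsLocalization.integerNormalization (nonZeroDivisors S) q).map (algebraMap S L) =
      C (algebraMap S L c) * (C (algebraMap S L d) * q) := by
    rw [Polynomial.map_mul, map_C, hq', Algebra.smul_def, Polynomial.algebraMap_apply]
  refine ⟨C d * IsLocalization.integerNormalization (nonZeroDivisors S) p,
    C c * IsLocalization.integerNormalization (nonZeroDivisors S) q, ?_, ?_⟩
  · rw [e2]
    intro h
    rw [← map_zero (algebraMap L[X] (RatFunc L))] at h
    have h3 := IsFractionRing.injective L[X] (RatFunc L) h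
    rcases mul_eq_zero.1 h3 with h4 | h4
    · exact hcL (C_eq_zero.1 h4)
    · rcases mul_eq_zero.1 h4 with h5 | h5
      · exact hdL (C_eq_zero.1 h5)
      · exact hq0 h5
  · rw [e1, e2]
    have hqR : algebraMap L[X] (RatFunc L) q ≠ 0 := by
      intro h
      rw [← map_zero (algebraMap L[X] (RatFunc L))] at h
      exact hq0 (IsFractionRing.injective L[X] (RatFunc L) h)
    rw [map_mul, map_mul, map_mul, map_mul]
    field_simp

end Pool.Agent.BTF
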