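import Pool.Agent.BTF.AbC

/-!
# BTF: one blow-up `R → R[z/x]` localised at the centre of `V`
-/

set_option autoImplicit false

noncomputable section

namespace Pool.Agent.BTF

open IsLocalRing Polynomial

theorem isRegularLocalRing_eq {R : Type} [CommRing R] {I J : Ideal R} (h : I = J)
    (hI : IsRegularLocalRing (R ⧸ I)) : IsRegularLocalRing (R ⧸ J) := h ▸ hI

theorem ofList_swap {B : Type} [CommRing B] (x z h t : B) (l : List B) (ht : h = x * t - z) :
    Ideal.ofList (h :: x :: l) = Ideal.ofList (x :: z :: l) := by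
  rw [Ideal.ofList_cons, Ideal.ofList_cons, Ideal.ofList_cons, Ideal.ofList_cons, ← sup_assoc,
    ← sup_assoc]
  congr 1
  rw [← Ideal.span_insert, ← Ideal.span_insert]
  apply le_antisymm
  · rw [Ideal.span_le]
    intro y hy
    rcases hy with rfl | hy
    · rw [ht]
      exact Ideal.sub_mem _ (Ideal.mul_mem_right _ _ (Ideal.subset_span (Set.mem_insert _ _)))
        (Ideal.subset_span (Set.mem_insert_of_mem _ rfl))
    · rw [Set.mem_singleton_iff] at hy
      rw [hy]
      exact Ideal.subset_span (Set.mem_insert _ _)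
  · rw [Ideal.span_le]
    intro y hy
    rcases hy with rfl | hy
    · exact Ideal.subset_span (Set.mem_insert_of_mem _ rfl)
    · rw [Set.mem_singleton_iff] at hy
      have : y = x * t - h := by
        rw [hy, ht]
        ring
      rw [this]
      exact Ideal.sub_mem _ (Ideal.mul_mem_right _ _
        (Ideal.subset_span (Set.mem_insert_of_mem _ rfl))) (Ideal.subset_span (Set.mem_insert _ _))

section Op

variable {R V : Type} [CommRing R] [CommRing V] [IsLocalRing V] (φ : R →+* V) (x z : R) (y : V)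

/-- the centre of `V` on `R[X]`, `X ↦ y` -/
def cen : Ideal R[X] := (maximalIdeal V).comap (eval₂RingHom φ y)

instance : (cen φ y).IsPrime := Ideal.comap_isPrime _ _

theorem mem_cen (F : R[X]) : F ∈ cen φ y ↔ eval₂ φ y F ∈ maximalIdeal V := Iff.rfl

/-- the localisation of `R[X]` -/
abbrev Bl : Type := Localization.AtPrime (cen φ y)

/-- `x X - z` in the localisation -/
def hB : Bl φ y := algebraMap R[X] (Bl φ y) (C x * X - C z)

/-- the blown up ring -/
abbrev R1 : Type := Bl φ y ⧸ Ideal.span {hB φ x z y}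

/-- the map from `R` -/
def io : R →+* R1 φ x z y := (Ideal.Quotient.mk _).comp (toB (cen φ y))

theorem unit_of_compl (s : (cen φ y).primeCompl) : IsUnit (eval₂RingHom φ y (s : R[X])) := by
  by_contra h
  exact s.2 ((mem_maximalIdeal _).2 h)

/-- the map from the localisation to `V` -/
def lam : Bl φ y →+* V :=
  IsLocalization.lift (M := (cen φ y).primeCompl) (g := eval₂RingHom φ y) (unit_of_compl φ y)

theorem lam_alg (F : R[X]) : lam φ y (algebraMap R[X] (Bl φ y) F) = eval₂ φ y F :=
  IsLocalization.lift_eq _ F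

variable (hy : φ z = φ x * y)

omit [IsLocalRing V] in
include hy in
theorem eval_h : eval₂ φ y (C x * X - C z) = 0 := by
  rw [eval₂_sub, eval₂_mul, eval₂_C, eval₂_X, eval₂_C, hy, sub_self]

/-- the map from the blown up ring to `V` -/
def th : R1 φ x z y →+* V := Ideal.Quotient.lift _ (lam φ y) (by
  intro a ha
  obtain ⟨b, rfl⟩ := Ideal.mem_span_singleton'.1 ha
  rw [map_mul, hB, lam_alg, eval_h φ x z y hy, mul_zero])

theorem th_mk (b : Bl φ y) : th φ x z y hy (Ideal.Quotient.mk _ b) = lam φ y b := rfl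

theorem th_io (r : R) : th φ x z y hy (io φ x z y r) = φ r := by
  change lam φ y (algebraMap R[X] (Bl φ y) (C r)) = φ r
  rw [lam_alg, eval₂_C]

include hy in
theorem hB_mem : hB φ x z y ∈ maximalIdeal (Bl φ y) := by
  rw [← Localization.AtPrime.map_eq_maximalIdeal]
  apply Ideal.mem_map_of_mem
  rw [mem_cen, eval_h φ x z y hy]
  exact Ideal.zero_mem _

include hy in
theorem isLocalRing_R1 : IsLocalRing (R1 φ x z y) :=
  isLocalRing_quot _ ((Ideal.span_singleton_le_iff_mem _).2 (hB_mem φ x z y hy))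

theorem lam_local (b : Bl φ y) (h : IsUnit (lam φ y b)) : IsUnit b := by
  obtain ⟨⟨F, s⟩, hF⟩ := IsLocalization.surj (cen φ y).primeCompl b
  have h1 : IsUnit (lam φ y (algebraMap R[X] (Bl φ y) F)) := by
    rw [← hF, map_mul]
    exact h.mul ((IsLocalization.map_units (Bl φ y) s).map (lam φ y))
  rw [lam_alg] at h1
  have h2 : F ∈ (cen φ y).primeCompl := fun h3 => (mem_maximalIdeal _).1 h3 h1
  have h3 := IsLocalization.map_units (Bl φ y) (⟨F, h2⟩ : (cen φ y).primeCompl)
  have h4 : IsUnit (b * algebraMap R[X] (Bl φ y) s) := by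
    rw [hF]
    exact h3
  exact isUnit_of_mul_isUnit_left h4

theorem th_local : IsLocalHom (th φ x z y hy) := by
  refine ⟨fun b hb => ?_⟩
  obtain ⟨b, rfl⟩ := Ideal.Quotient.mk_surjective b
  exact (lam_local φ y b hb).map _

theorem th_inj (hφ : Function.Injective φ) (hz : ∀ a, x ∣ z * a → x ∣ a) :
    Function.Injective (th φ x z y hy) := by
  rw [injective_iff_map_eq_zero]
  intro b hb
  obtain ⟨b, rfl⟩ := Ideal.Quotient.mk_surjective b
  rw [th_mk] at hb
  rw [Ideal.Quotient.eq_zero_iff_mem]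
  obtain ⟨⟨F, s⟩, hF⟩ := IsLocalization.surj (cen φ y).primeCompl b
  have h1 : eval₂ φ y F = 0 := by
    rw [← lam_alg, ← hF, map_mul, hb, zero_mul]
  have h2 := mem_span_of_eval φ hφ hz hy F.natDegree F le_rfl h1
  have h3 : algebraMap R[X] (Bl φ y) F ∈ Ideal.span {hB φ x z y} := by
    obtain ⟨G, rfl⟩ := Ideal.mem_span_singleton'.1 h2
    rw [map_mul]
    exact Ideal.mul_mem_left _ _ (Ideal.mem_span_singleton_self _)
  rw [← hF] at h3
  exact (Ideal.mul_unit_mem_iff_mem _ (IsLocalization.map_units _ s)).1 h3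

theorem surj_frac (v : R1 φ x z y) : ∃ (F : R[X]) (s : R[X]), s ∉ cen φ y ∧
    th φ x z y hy v * eval₂ φ y s = eval₂ φ y F := by
  obtain ⟨b, rfl⟩ := Ideal.Quotient.mk_surjective v
  obtain ⟨⟨F, s⟩, hF⟩ := IsLocalization.surj (cen φ y).primeCompl b
  refine ⟨F, s, s.2, ?_⟩
  rw [th_mk, ← lam_alg, ← lam_alg, ← hF, map_mul]

variable [IsLocalRing R] [IsLocalHom φ]

theorem cen_comap : (cen φ y).comap C = maximalIdeal R := by
  ext r
  rw [Ideal.mem_comap, mem_cen, eval₂_C, mem_maximalIdeal, mem_maximalIdeal]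
  exact not_congr (isUnit_map_iff φ r)

variable {x z}

include hy in
/-- the parameters in the blown up ring -/
theorem RP_R1 [IsDomain V] [IsLocalRing (R1 φ x z y)] (hφ : Function.Injective φ) {w : List R}
    (h : RP R (x :: z :: w)) (hx0 : x ≠ 0) :
    RP (R1 φ x z y) (io φ x z y x :: w.map (io φ x z y)) := by
  have hz : ∀ a, x ∣ z * a → x ∣ a := by
    intro a ha
    have h1 := h.wr [x] z w rfl a (by
      rw [Ideal.ofList_singleton, Ideal.mem_span_singleton]
      exact ha)
    rwa [Ideal.ofList_singleton, Ideal.mem_span_singleton] at h1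
  have hinj := th_inj φ x z y hy hφ hz
  have hlocal := th_local φ x z y hy
  have hmem : ∀ r ∈ maximalIdeal R, io φ x z y r ∈ maximalIdeal (R1 φ x z y) := by
    intro r hr
    rw [mem_maximalIdeal] at hr ⊢
    intro hu
    have h1 := hu.map (th φ x z y hy)
    rw [th_io] at h1
    exact hr ((isUnit_map_iff φ r).1 h1)
  have hlist : ∀ m : List R, io φ x z y x :: m.map (io φ x z y) =
      (toB (cen φ y) x :: m.map (toB (cen φ y))).map
        (Ideal.Quotient.mk (Ideal.span {hB φ x z y})) := by
    intro m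
    rw [List.map_cons, List.map_map]
    rfl
  have hswap : ∀ m : List R, Ideal.ofList (hB φ x z y :: toB (cen φ y) x ::
      m.map (toB (cen φ y))) = Ideal.ofList ((x :: z :: m).map (toB (cen φ y))) := by
    intro m
    rw [List.map_cons, List.map_cons]
    apply ofList_swap _ _ _ (algebraMap R[X] (Bl φ y) X)
    rw [hB, map_sub, map_mul]
    rfl
  refine ⟨?_, ?_, ?_⟩
  · intro r hr
    rcases List.mem_cons.1 hr with h1 | h1
    · rw [h1]
      exact hmem x (h.mem x List.mem_cons_self)
    · obtain ⟨r', hr', h2⟩ := List.mem_map.1 h1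
      rw [← h2]
      exact hmem r' (h.mem r' (List.mem_cons_of_mem _ (List.mem_cons_of_mem _ hr')))
  · intro l₁ a l₂ hl b hb
    cases l₁ with
    | nil =>
      rw [List.nil_append, List.cons.injEq] at hl
      rw [Ideal.ofList_nil, Ideal.mem_bot] at hb ⊢
      rw [← hl.1] at hb
      apply hinj
      rw [map_zero]
      have h1 := congrArg (th φ x z y hy) hb
      rw [map_mul, th_io, map_zero] at h1
      refine (mul_eq_zero.1 h1).resolve_left ?_
      intro h2
      exact hx0 (hφ (by rw [h2, map_zero]))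
    | cons c l₁ =>
      rw [List.cons_append, List.cons.injEq] at hl
      obtain ⟨rfl, hl⟩ := hl
      obtain ⟨m₁, m₂, rfl, rfl, h2⟩ := List.map_eq_append_iff.1 hl
      obtain ⟨a, m₃, rfl, rfl, rfl⟩ := List.map_eq_cons_iff.1 h2
      obtain ⟨b, rfl⟩ := Ideal.Quotient.mk_surjective b
      have h3 : io φ x z y a * Ideal.Quotient.mk _ b =
          Ideal.Quotient.mk (Ideal.span {hB φ x z y}) (toB (cen φ y) a * b) := by
        rw [map_mul]
        rfl
      rw [h3, hlist, mk_mem_ofList, hswap] at hb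
      rw [hlist, mk_mem_ofList, hswap]
      refine (WR.toB (cen φ y) h.wr) _ (toB (cen φ y) a) (m₃.map (toB (cen φ y))) ?_ b hb
      rw [List.map_cons, List.map_cons, List.map_cons, List.map_cons, List.map_append,
        List.map_cons, List.cons_append, List.cons_append]
  · rw [hlist]
    have h1 : IsRegularLocalRing (Bl φ y ⧸ (Ideal.ofList (x :: z :: w)).map (toB (cen φ y))) := by
      have := h.quo
      exact regular_locPoly (cen φ y) (cen_comap φ y) _ (ofList_le_max h.mem)
    rw [Ideal.map_ofList] at h1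
    have h2 : IsRegularLocalRing (Bl φ y ⧸ Ideal.ofList (hB φ x z y :: toB (cen φ y) x ::
      w.map (toB (cen φ y)))) := isRegularLocalRing_eq (hswap w).symm h1
    exact IsRegularLocalRing.of_ringEquiv (quotCons _ _).symm

omit [IsLocalRing R] [IsLocalHom φ] in
theorem dvd_io : io φ x z y x ∣ io φ x z y z := by
  refine ⟨Ideal.Quotient.mk _ (algebraMap R[X] (Bl φ y) X), ?_⟩
  have h1 : Ideal.Quotient.mk (Ideal.span {hB φ x z y}) (hB φ x z y) = 0 :=
    Ideal.Quotient.eq_zero_iff_mem.2 (Ideal.mem_span_singleton_self _)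
  have h2 : hB φ x z y = toB (cen φ y) x * algebraMap R[X] (Bl φ y) X - toB (cen φ y) z := by
    rw [hB, map_sub, map_mul]
    rfl
  have h3 := congrArg (Ideal.Quotient.mk (Ideal.span {hB φ x z y})) h2
  rw [h1, map_sub, map_mul] at h3
  exact (sub_eq_zero.1 h3.symm).symm

end Op

end Pool.Agent.BTF
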