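import Pool.Agent.BTF.AbD

/-!
# BTF: the residue field is a field of rational functions if the blown up ring is `V`
-/

set_option autoImplicit false

noncomputable section

namespace Pool.Agent.BTF

open IsLocalRing Polynomial

theorem map_mk_eq_zero {R : Type} [CommRing R] (I : Ideal R) (F : R[X]) :
    F.map (Ideal.Quotient.mk I) = 0 ↔ F ∈ I.map (C : R →+* R[X]) := by
  rw [Ideal.mem_map_C_iff, Polynomial.ext_iff]
  apply forall_congr'
  intro n
  rw [coeff_map, coeff_zero, Ideal.Quotient.eq_zero_iff_mem]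

theorem RP.prime {Q : Type} [CommRing Q] [IsLocalRing Q] [IsNoetherianRing Q] {a : Q}
    {l : List Q} (h : RP Q (a :: l)) (ha : a ≠ 0) : Prime a := by
  have h1 : IsRegularLocalRing (Q ⧸ Ideal.ofList [a]) := RP.quot_left (l₁ := [a]) (l₂ := l) h
  have h2 : IsDomain (Q ⧸ Ideal.ofList [a]) := isDomain_of_regular _
  have h3 := (Ideal.Quotient.isDomain_iff_prime _).1 h2
  rw [Ideal.ofList_singleton] at h3
  exact (Ideal.span_singleton_prime ha).1 h3

theorem ruled_of_surj {R V : Type} [CommRing R] [IsLocalRing R] [IsNoetherianRing R] [CommRing V]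
    [IsDomain V] [IsDiscreteValuationRing V] (φ : R →+* V) [IsLocalHom φ]
    (hφ : Function.Injective φ) {x z : R} {w : List R} (h : RP R (x :: z :: w)) (hx0 : x ≠ 0)
    (y : V) (hy : φ z = φ x * y) (hs : Function.Surjective (th φ x z y hy)) :
    ∃ (L : Type) (_ : Field L), Nonempty (ResidueField V ≃+* RatFunc L) := by
  classical
  have hz : ∀ a, x ∣ z * a → x ∣ a := by
    intro a ha
    have h1 := h.wr [x] z w rfl a (by
      rw [Ideal.ofList_singleton, Ideal.mem_span_singleton]
      exact ha)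
    rwa [Ideal.ofList_singleton, Ideal.mem_span_singleton] at h1
  have hinj := th_inj φ x z y hy hφ hz
  have hloc : IsLocalRing (R1 φ x z y) := isLocalRing_R1 φ x z y hy
  have hRP := RP_R1 φ y hy hφ h hx0
  -- the quotient `S`
  let I : Ideal R := Ideal.ofList [x, z]
  have hSreg : IsRegularLocalRing (R ⧸ I) :=
    RP.quot_left (l₁ := [x, z]) (l₂ := w) h
  have hSdom : IsDomain (R ⧸ I) := isDomain_of_regular _
  have hI : I.IsPrime := (Ideal.Quotient.isDomain_iff_prime _).1 hSdom
  let J : Ideal R[X] := I.map C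
  have hJ : J.IsPrime := Ideal.isPrime_map_C_of_isPrime
  have hIm : I ≤ maximalIdeal R := ofList_le_max (by
    intro r hr
    rcases List.mem_cons.1 hr with h1 | h1
    · rw [h1]
      exact h.mem x (by simp)
    · rw [List.mem_singleton.1 h1]
      exact h.mem z (by simp))
  have hJP : J ≤ cen φ y := by
    rw [Ideal.map_le_iff_le_comap, cen_comap]
    exact hIm
  have hxJ : C x ∈ J := Ideal.mem_map_of_mem _ (Ideal.subset_span (by simp))
  have hzJ : C z ∈ J := Ideal.mem_map_of_mem _ (Ideal.subset_span (by simp))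
  -- `φ x` generates the maximal ideal of `V`
  have hprime : Prime (io φ x z y x) := by
    apply RP.prime hRP
    intro h5
    have h6 := congrArg (th φ x z y hy) h5
    rw [th_io, map_zero] at h6
    exact hx0 (hφ (by rw [h6, map_zero]))
  let e : R1 φ x z y ≃+* V := RingEquiv.ofBijective (th φ x z y hy) ⟨hinj, hs⟩
  have hprimeV : Prime (φ x) := by
    have h1 := (MulEquiv.prime_iff e.toMulEquiv (p := io φ x z y x)).2 hprime
    have h2 : e.toMulEquiv (io φ x z y x) = φ x := th_io φ x z y hy x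
    rwa [h2] at h1
  have hmax : Ideal.span {φ x} = maximalIdeal V := by
    have h1 : (Ideal.span {φ x}).IsPrime := (Ideal.span_singleton_prime hprimeV.ne_zero).2 hprimeV
    have h2 : (Ideal.span {φ x}).IsMaximal := IsPrime.to_maximal_ideal (by
      rw [Ne, Ideal.span_singleton_eq_bot]
      exact hprimeV.ne_zero)
    exact IsLocalRing.eq_maximalIdeal h2
  have hPJ : ∀ F, F ∈ cen φ y → F ∈ J := by
    intro F hF
    rw [mem_cen, ← hmax, Ideal.mem_span_singleton] at hF
    obtain ⟨v, hv⟩ := hF
    obtain ⟨r, rfl⟩ := hs v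
    obtain ⟨G, s, hsc, hG⟩ := surj_frac φ x z y hy r
    have h1 : eval₂ φ y (F * s - C x * G) = 0 := by
      rw [eval₂_sub, eval₂_mul, eval₂_mul, eval₂_C, hv, mul_assoc, hG, sub_self]
    have h2 := mem_span_of_eval φ hφ hz hy _ _ le_rfl h1
    have h3 : F * s - C x * G ∈ J := by
      obtain ⟨H, hH⟩ := Ideal.mem_span_singleton'.1 h2
      rw [← hH]
      exact Ideal.mul_mem_left _ _ (Ideal.sub_mem _ (Ideal.mul_mem_right _ _ hxJ) hzJ)
    have h4 : F * s ∈ J := by
      have h5 := Ideal.add_mem _ h3 (Ideal.mul_mem_right G _ hxJ)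
      rwa [sub_add_cancel] at h5
    exact (hJ.mem_or_mem h4).resolve_right fun h5 => hsc (hJP h5)
  refine ⟨FractionRing (R ⧸ I), inferInstance, ?_⟩
  let g : R[X] →+* ResidueField V := (residue V).comp (eval₂RingHom φ y)
  let j : R[X] →+* RatFunc (FractionRing (R ⧸ I)) :=
    (algebraMap (FractionRing (R ⧸ I))[X] (RatFunc (FractionRing (R ⧸ I)))).comp
      ((mapRingHom (algebraMap (R ⧸ I) (FractionRing (R ⧸ I)))).comp
        (mapRingHom (Ideal.Quotient.mk I)))
  have hg : ∀ F, g F = 0 ↔ F ∈ J := by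
    intro F
    constructor
    · intro h1
      apply hPJ
      rw [mem_cen]
      exact (residue_eq_zero_iff _).1 h1
    · intro h1
      exact (residue_eq_zero_iff _).2 (hJP h1)
  have hj : ∀ F, j F = 0 ↔ F ∈ J := by
    intro F
    have h1 : j F = algebraMap (FractionRing (R ⧸ I))[X] (RatFunc (FractionRing (R ⧸ I)))
        ((F.map (Ideal.Quotient.mk I)).map (algebraMap (R ⧸ I) (FractionRing (R ⧸ I)))) := rfl
    rw [h1, ← map_mk_eq_zero]
    constructor
    · intro h2
      rw [← map_zero (algebraMap (FractionRing (R ⧸ I))[X] (RatFunc (FractionRing (R ⧸ I))))] at h2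
      have h3 := IsFractionRing.injective (FractionRing (R ⧸ I))[X]
        (RatFunc (FractionRing (R ⧸ I))) h2
      exact (Polynomial.map_eq_zero_iff (IsFractionRing.injective (R ⧸ I)
        (FractionRing (R ⧸ I)))).1 h3
    · intro h2
      rw [h2, Polynomial.map_zero, map_zero]
  apply frac_equiv g j
  · intro F
    rw [hg, hj]
  · intro v
    obtain ⟨u, rfl⟩ := residue_surjective v
    obtain ⟨r, rfl⟩ := hs u
    obtain ⟨F, s, hsc, hF⟩ := surj_frac φ x z y hy r
    refine ⟨F, s, ?_, ?_⟩
    · intro h1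
      exact hsc (hJP ((hg s).1 h1))
    · change residue V (eval₂ φ y s) * residue V (th φ x z y hy r) = residue V (eval₂ φ y F)
      rw [← map_mul, mul_comm, hF]
  · intro v
    obtain ⟨a, b, hb, hv⟩ := ratFunc_frac (S := R ⧸ I) (L := FractionRing (R ⧸ I)) v
    obtain ⟨A, rfl⟩ := Polynomial.map_surjective _ (Ideal.Quotient.mk_surjective (I := I)) a
    obtain ⟨B, rfl⟩ := Polynomial.map_surjective _ (Ideal.Quotient.mk_surjective (I := I)) b
    exact ⟨A, B, hb, hv⟩

end Pool.Agent.BTF
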