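import Pool.Agent.BTF.St
import Mathlib.RingTheory.AlgebraicIndependent.TranscendenceBasis

/-!
# BTF, PI: birational invariance for proper regular schemes, assembly
-/

set_option autoImplicit false

noncomputable section

namespace Pool.Agent.BTF

open CategoryTheory CategoryTheory.Limits AlgebraicGeometry Pool.Agent.KPR
open Pool.Agent.KGT.W (SerreClass FinType)

namespace PI

section trdeg

variable {K K' : Type} [Field K] [Field K']

theorem mem_bot_map (e : K ≃+* K') (x : (⊥ : Subfield K)) : e x ∈ (⊥ : Subfield K') := by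
  have h : (⊥ : Subfield K) ≤ (⊥ : Subfield K').comap e.toRingHom := bot_le
  exact h x.2

/-- the isomorphism of the prime fields -/
def bm (e : K ≃+* K') : (⊥ : Subfield K) →+* (⊥ : Subfield K') :=
  (e.toRingHom.comp (⊥ : Subfield K).subtype).codRestrict (⊥ : Subfield K') (mem_bot_map e)

theorem bm_surj (e : K ≃+* K') : Function.Surjective (bm e) := by
  intro y
  exact ⟨⟨e.symm y, mem_bot_map e.symm y⟩, Subtype.ext (e.apply_symm_apply _)⟩

theorem trdeg_eq (e : K ≃+* K') :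
    Algebra.trdeg (⊥ : Subfield K') K' = Algebra.trdeg (⊥ : Subfield K) K := by
  let a1 : Algebra (⊥ : Subfield K) (⊥ : Subfield K') := (bm e).toAlgebra
  let a2 : Algebra (⊥ : Subfield K) K' :=
    (e.toRingHom.comp (⊥ : Subfield K).subtype).toAlgebra
  have h1 : IsScalarTower (⊥ : Subfield K) (⊥ : Subfield K') K' :=
    IsScalarTower.of_algebraMap_eq (fun _ => rfl)
  have h2 : Algebra.IsAlgebraic (⊥ : Subfield K) (⊥ : Subfield K') := ⟨fun y => by
    obtain ⟨x, rfl⟩ := bm_surj e y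
    exact isAlgebraic_algebraMap x⟩
  have h3 := _root_.trdeg_add_eq (⊥ : Subfield K) (⊥ : Subfield K') (A := K')
  have h4 : Algebra.trdeg (⊥ : Subfield K) (⊥ : Subfield K') = 0 := trdeg_eq_zero
  rw [h4, zero_add] at h3
  let e' : K ≃ₐ[(⊥ : Subfield K)] K' := AlgEquiv.ofRingEquiv (f := e) (fun _ => rfl)
  rw [h3]
  exact e'.trdeg_eq.symm

theorem krLe_of_equiv (e : K ≃+* K') (d : ℕ) (h : KrLe d K) : KrLe d K' := by
  constructor
  · rw [trdeg_eq e]
    exact h.1
  · intro h0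
    have h1 : CharZero K := charZero_of_injective_ringHom (f := e.symm.toRingHom) e.symm.injective
    rw [trdeg_eq e]
    exact h.2 h1

end trdeg

theorem toF_injective (X : Scheme.{0}) [IsIntegral X] (x : X) :
    Function.Injective (toF X x).hom :=
  IsFractionRing.injective (X.presheaf.stalk x) X.functionField

theorem toF_generic (X : Scheme.{0}) [IsIntegral X] : toF X (genericPoint X) = 𝟙 _ :=
  X.presheaf.stalkSpecializes_refl (genericPoint X)

theorem compat_generic {X Y : Scheme.{0}} [IsIntegral X] [IsIntegral Y]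
    (θ : Y.functionField ≅ X.functionField) : Compat θ (genericPoint X) (genericPoint Y) := by
  refine ⟨θ, ?_⟩
  rw [toF_generic, toF_generic]
  exact (Category.comp_id θ.hom).trans (Category.id_comp θ.hom).symm

theorem compat_symm {X Y : Scheme.{0}} [IsIntegral X] [IsIntegral Y]
    (θ : Y.functionField ≅ X.functionField) (x : X) (y : Y) (h : Compat θ.symm y x) :
    Compat θ x y := by
  obtain ⟨e, he⟩ := h
  refine ⟨e.symm, ?_⟩
  have h1 : e.hom ≫ toF Y y ≫ θ.hom = toF X x := by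
    rw [← Category.assoc, he, Category.assoc]
    exact (congrArg (fun t => toF X x ≫ t) θ.inv_hom_id).trans (Category.comp_id _)
  rw [← h1]
  exact (e.inv_hom_id_assoc _)

theorem overB_symm {X Y B : Scheme.{0}} [IsIntegral X] [IsIntegral Y]
    (θ : Y.functionField ≅ X.functionField) (f : X ⟶ B) (g : Y ⟶ B) (h : OverB θ f g) :
    OverB θ.symm g f := by
  unfold OverB at h ⊢
  rw [← h, ← Category.assoc, ← Spec.map_comp]
  have h1 : θ.hom ≫ θ.symm.hom = 𝟙 _ := θ.hom_inv_id
  rw [h1, Spec.map_id, Category.id_comp]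

theorem inj_of_comp {X Y : Scheme.{0}} [IsIntegral X] [IsIntegral Y]
    (θ : Y.functionField ≅ X.functionField) (x : X) (y : Y)
    (l : Y.presheaf.stalk y ⟶ X.presheaf.stalk x) (h : l ≫ toF X x = toF Y y ≫ θ.hom) :
    Function.Injective l.hom := by
  have h1 : Function.Injective ((toF X x).hom ∘ l.hom) := by
    have h2 : (toF X x).hom ∘ l.hom = θ.hom.hom ∘ (toF Y y).hom := by
      have h3 := congrArg (fun t => (t.hom : Y.presheaf.stalk y → X.functionField)) h
      exact h3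
    rw [h2]
    exact Function.Injective.comp θ.commRingCatIsoToRingEquiv.injective (toF_injective Y y)
  exact Function.Injective.of_comp h1

theorem frac_exists (Y : Scheme.{0}) [IsIntegral Y] (y : Y) (k : Y.functionField) :
    ∃ a b : Y.presheaf.stalk y, b ≠ 0 ∧ (toF Y y).hom b * k = (toF Y y).hom a := by
  obtain ⟨⟨a, b⟩, hab⟩ := IsLocalization.surj (nonZeroDivisors (Y.presheaf.stalk y)) k
  refine ⟨a, b, nonZeroDivisors.coe_ne_zero b, ?_⟩
  rw [mul_comm]
  exact hab

theorem sameFrac_of_comp {X Y : Scheme.{0}} [IsIntegral X] [IsIntegral Y]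
    (θ : Y.functionField ≅ X.functionField) (x : X) (y : Y)
    (l : Y.presheaf.stalk y ⟶ X.presheaf.stalk x) (h : l ≫ toF X x = toF Y y ≫ θ.hom) :
    SameFrac l.hom := by
  have h3 : ∀ r, (toF X x).hom (l.hom r) = θ.hom.hom ((toF Y y).hom r) := by
    intro r
    have h4 := congrArg (fun t => (t.hom : Y.presheaf.stalk y → X.functionField) r) h
    exact h4
  intro v
  obtain ⟨a, b, hb, hab⟩ := frac_exists Y y (θ.inv.hom ((toF X x).hom v))
  refine ⟨a, b, hb, toF_injective X x ?_⟩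
  have h5 := congrArg θ.hom.hom hab
  rw [map_mul] at h5
  have h6 : θ.hom.hom (θ.inv.hom ((toF X x).hom v)) = (toF X x).hom v := by
    have h7 := congrArg (fun t => (t.hom : X.functionField → X.functionField)
      ((toF X x).hom v)) θ.inv_hom_id
    exact h7
  rw [h6] at h5
  rw [map_mul, h3, h3]
  exact h5

theorem compat_of_bij {X Y : Scheme.{0}} [IsIntegral X] [IsIntegral Y]
    (θ : Y.functionField ≅ X.functionField) (x : X) (y : Y)
    (l : Y.presheaf.stalk y ⟶ X.presheaf.stalk x) (h : l ≫ toF X x = toF Y y ≫ θ.hom)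
    (hb : Function.Bijective l.hom) : Compat θ x y :=
  ⟨(RingEquiv.ofBijective l.hom hb).toCommRingCatIso, h⟩

theorem finType_comp {X B : Scheme.{0}} (f : X ⟶ B) [IsProper f] (hB : FinType ℤ B) :
    FinType ℤ X := by
  obtain ⟨h, h1, h2⟩ := hB
  have h3 : QuasiCompact f := inferInstance
  exact ⟨f ≫ h, inferInstance, inferInstance⟩

theorem good_side (hKL : St_KL) (hAB : St_AB) (hK2 : St_K2) (hK4 : St_K4) (hG2 : St_G2)
    (hG3 : St_G3) (hG4 : St_G4) (𝒮 : (G : Type 1) → [AddCommGroup G] → Prop)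
    (h𝒮 : SerreClass 𝒮) (d : ℕ) (hlow : Low 𝒮 d) (X Y B : Scheme.{0}) [IsIntegral X]
    [IsIntegral Y] (f : X ⟶ B) (g : Y ⟶ B) [IsProper g] (θ : Y.functionField ≅ X.functionField)
    (hθ : OverB θ f g) (hX : FinType ℤ X) (hrX : KGT.W.Regular X) (hrY : KGT.W.Regular Y)
    (hkr : KrLe (d + 2) X.functionField) (x : X) (hx : ∀ y : Y, ¬ Compat θ x y) :
    Good 𝒮 (X.residueField x) := by
  rcases hG4 X hrX d hkr x with h1 | h1 | ⟨h1, h2⟩
  · exact hK2 𝒮 h𝒮 d hlow _ h1
  · exact absurd (compat_generic θ) (h1 ▸ hx (genericPoint Y))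
  · obtain ⟨y, l, hl, hlc⟩ := hG2 X Y B f g θ hθ x inferInstance
    have hreg : IsRegularLocalRing (Y.presheaf.stalk y) := hrY y
    rcases hAB (Y.presheaf.stalk y) (X.presheaf.stalk x) l.hom (inj_of_comp θ x y l hlc)
      (sameFrac_of_comp θ x y l hlc) (hG3 X hX x) with hb | ⟨L, hL, ⟨e⟩⟩
    · exact absurd (compat_of_bij θ x y l hlc hb) (hx y)
    · have e' : X.residueField x ≃+* RatFunc L := e
      exact hK4 𝒮 h𝒮 d hlow (X.residueField x) L ⟨e'⟩
        (hKL L (X.residueField x) ⟨e'⟩ d h2)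

end PI

/-- **PI** (I) -/
theorem thm_PI (hKL : St_KL) (hAB : St_AB) (hK2 : St_K2) (hK3 : St_K3) (hK4 : St_K4)
    (hG0 : St_G0) (hG1 : St_G1) (hG2 : St_G2) (hG3 : St_G3) (hG4 : St_G4) : St_PI := by
  intro 𝒮 h𝒮 d hlow X Y B _ _ _ f g _ _ hB hrX hrY hkr hbir n
  obtain ⟨θ, hθ⟩ := hG0 X Y B f g hbir
  obtain ⟨U, i, j, hi, hj, h1, h2⟩ := hG1 X Y B f g θ hθ
  have hX : FinType ℤ X := PI.finType_comp f hB
  have hY : FinType ℤ Y := PI.finType_comp g hB
  have hkr' : KrLe (d + 2) Y.functionField :=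
    PI.krLe_of_equiv θ.symm.commRingCatIsoToRingEquiv (d + 2) hkr
  have hgX : ∀ x : X, x ∉ Set.range i → Good 𝒮 (X.residueField x) := fun x hx =>
    PI.good_side hKL hAB hK2 hK4 hG2 hG3 hG4 𝒮 h𝒮 d hlow X Y B f g θ hθ hX hrX hrY hkr x (h1 x hx)
  have hgY : ∀ y : Y, y ∉ Set.range j → Good 𝒮 (Y.residueField y) := fun y hy =>
    PI.good_side hKL hAB hK2 hK4 hG2 hG3 hG4 𝒮 h𝒮 d hlow Y X B g f θ.symm
      (PI.overB_symm θ f g hθ) hY hrY hrX hkr' y
      (fun x hx => h2 y hy x (PI.compat_symm θ x y hx))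
  exact (hK3 𝒮 h𝒮 X U i hX hgX n).trans (hK3 𝒮 h𝒮 Y U j hY hgY n).symm

end Pool.Agent.BTF
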