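import Pool.Agent.BTF.St3
import Pool.Agent.BTF.PI
import Mathlib.AlgebraicGeometry.Limits

/-!
# BTF, module C1: regular proper schemes are complete

MP_e17fa799_al (captain helper21); helper97.
-/

set_option autoImplicit false

noncomputable section

namespace Pool.Agent.BTF

open CategoryTheory CategoryTheory.Limits AlgebraicGeometry Pool.Agent.KPR
open Pool.Agent.KGT.W (SerreClass FinType)

namespace C1

theorem goodIn_of_good (𝒮 : (G : Type 1) → [AddCommGroup G] → Prop) (n : ℕ) (κ : Type) [Field κ]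
    (h : Good 𝒮 κ) : GoodIn 𝒮 n κ := by
  intro C _ _ _ hC
  obtain ⟨s, hs, hn⟩ := h C hC
  exact ⟨s, hs, hn n⟩

/-- the residue field of a discrete valuation ring -/
theorem krLe_residue (hDL : St_DL) (X : Scheme.{0}) [IsIntegral X] (x : X)
    [IsDiscreteValuationRing (X.presheaf.stalk x)] (d : ℕ) (h : KrLe (d + 1) X.functionField) :
    KrLe d (X.residueField x) := by
  have hf : ¬ IsField (X.presheaf.stalk x) := IsDiscreteValuationRing.not_isField _
  have hm : IsLocalRing.maximalIdeal (X.presheaf.stalk x) ≠ ⊥ := fun hc =>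
    hf (IsLocalRing.isField_iff_maximalIdeal_eq.mpr hc)
  obtain ⟨a, ham, ha0⟩ := Submodule.exists_mem_ne_zero_of_ne_bot hm
  refine hDL (X.presheaf.stalk x) X.functionField (X.residueField x) (X.residue x).hom
    ⟨a, ha0, ?_⟩ ?_ d h
  · have h1 : a ∈ RingHom.ker (IsLocalRing.residue (X.presheaf.stalk x)) := by
      rw [IsLocalRing.ker_residue]
      exact ham
    exact h1
  · intro z
    obtain ⟨y, rfl⟩ := X.residue_surjective x z
    exact ⟨y, 1, by simp, by simp⟩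

/-- ruled residue fields are good -/
theorem good_ruled (hDL : St_DL) (hKL : St_KL) (hK4 : St_K4)
    (𝒮 : (G : Type 1) → [AddCommGroup G] → Prop) (h𝒮 : SerreClass 𝒮) (d : ℕ) (hlow : Low 𝒮 d)
    (X : Scheme.{0}) [IsIntegral X] (x : X) [IsDiscreteValuationRing (X.presheaf.stalk x)]
    (h : KrLe (d + 2) X.functionField) (L : Type) [Field L]
    (e : X.residueField x ≃+* RatFunc L) (n : ℕ) : GoodIn 𝒮 n (X.residueField x) :=
  goodIn_of_good 𝒮 n _ (hK4 𝒮 h𝒮 d hlow (X.residueField x) L ⟨e⟩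
    (hKL L (X.residueField x) ⟨e⟩ d (krLe_residue hDL X x (d + 1) h)))

end C1

/-- **C1**. Regular proper schemes are complete. -/
theorem thm_C1 (hAB : St_AB) (hDL : St_DL) (hKL : St_KL) (hK4 : St_K4) (hG2 : St_G2)
    (hG3 : St_G3) : St_C1 := by
  intro 𝒮 h𝒮 d hlow Y _ hpY hrY hkr n X₁ _ θ hX₁ x₁ hdvr hbad
  obtain ⟨g, hg⟩ := hpY
  obtain ⟨f, hf1, hf2⟩ := id hX₁
  have hθ : OverB θ f g := specZIsTerminal.hom_ext _ _
  have hkr' : KrLe (d + 2) X₁.functionField :=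
    PI.krLe_of_equiv θ.commRingCatIsoToRingEquiv (d + 2) hkr
  obtain ⟨y, l, hl, hlc⟩ := hG2 X₁ Y _ f g θ hθ x₁ inferInstance
  have hreg : IsRegularLocalRing (Y.presheaf.stalk y) := hrY y
  rcases hAB (Y.presheaf.stalk y) (X₁.presheaf.stalk x₁) l.hom (PI.inj_of_comp θ x₁ y l hlc)
    (PI.sameFrac_of_comp θ x₁ y l hlc) (hG3 X₁ hX₁ x₁) with hb | ⟨L, hL, ⟨e⟩⟩
  · exact ⟨y, PI.compat_of_bij θ x₁ y l hlc hb⟩
  · exact absurd (C1.good_ruled hDL hKL hK4 𝒮 h𝒮 d hlow X₁ x₁ hkr' L e n) hbad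

end Pool.Agent.BTF
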