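import Pool.Agent.BTF.St8
import Pool.Agent.BTF.C1

/-!
# BTF, module C1B: regular proper schemes over `B` are complete

MP_e17fa799_al (captain helper21); helper2.
-/

set_option autoImplicit false

noncomputable section

namespace Pool.Agent.BTF

open CategoryTheory CategoryTheory.Limits AlgebraicGeometry Pool.Agent.KPR
open Pool.Agent.KGT.W (SerreClass FinType)

/-- **C1B**. Regular proper schemes over `B` are complete. -/
theorem thm_C1B (hAB : St_AB) (hDL : St_DL) (hKL : St_KL) (hK4 : St_K4) (hG2 : St_G2)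
    (hG3 : St_G3) : St_C1B := by
  intro 𝒮 h𝒮 d hlow Y B _ g _ _ hrY hkr n X₁ _ f₁ θ hθ hX₁ x₁ hdvr hbad
  have hkr' : KrLe (d + 2) X₁.functionField :=
    PI.krLe_of_equiv θ.commRingCatIsoToRingEquiv (d + 2) hkr
  obtain ⟨y, l, hl, hlc⟩ := hG2 X₁ Y B f₁ g θ hθ x₁ inferInstance
  have hreg : IsRegularLocalRing (Y.presheaf.stalk y) := hrY y
  rcases hAB (Y.presheaf.stalk y) (X₁.presheaf.stalk x₁) l.hom (PI.inj_of_comp θ x₁ y l hlc)
    (PI.sameFrac_of_comp θ x₁ y l hlc) (hG3 X₁ hX₁ x₁) with hb | ⟨L, hL, ⟨e⟩⟩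
  · exact ⟨y, PI.compat_of_bij θ x₁ y l hlc hb⟩
  · exact absurd (C1.good_ruled hDL hKL hK4 𝒮 h𝒮 d hlow X₁ x₁ hkr' L e n) hbad

end Pool.Agent.BTF
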