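import Pool.Agent.BTF.DL

/-!
# BTF: module KL, the Kronecker dimension of `L(t)`
-/

set_option autoImplicit false

noncomputable section

namespace Pool.Agent.BTF

namespace KL

/-- the transcendence degree of the field of rational functions -/
theorem trdeg_ratFunc (L : Type) [Field L] : Algebra.trdeg L (RatFunc L) = 1 := by
  have h1 := trdeg_add_eq L (Polynomial L) (A := RatFunc L)
  have : Algebra.IsAlgebraic (Polynomial L) (RatFunc L) :=
    IsLocalization.isAlgebraic _ (nonZeroDivisors (Polynomial L))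
  rw [trdeg_eq_zero (R := Polynomial L) (A := RatFunc L), add_zero,
    Polynomial.trdeg_of_isDomain] at h1
  exact h1.symm

/-- additivity over the prime field -/
theorem trdeg_tower (L M : Type) [Field L] [Field M] [Algebra L M] :
    Algebra.trdeg (⊥ : Subfield M) M = Algebra.trdeg (⊥ : Subfield L) L + Algebra.trdeg L M := by
  rw [trdeg_add_eq (⊥ : Subfield L) L (A := M)]
  refine (DL.trdeg_bot (⊥ : Subfield L) M fun r => ?_).symm
  exact (bot_le : (⊥ : Subfield L) ≤ (⊥ : Subfield M).comap (algebraMap L M)) r.2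

theorem trdeg_equiv (K M : Type) [Field K] [Field M] (e : K ≃+* M) :
    Algebra.trdeg (⊥ : Subfield K) K = Algebra.trdeg (⊥ : Subfield M) M := by
  let _ : Algebra (⊥ : Subfield K) M :=
    (e.toRingHom.comp (algebraMap (⊥ : Subfield K) K)).toAlgebra
  let e' : K ≃ₐ[(⊥ : Subfield K)] M := AlgEquiv.ofRingEquiv (f := e) fun _ => rfl
  rw [e'.trdeg_eq]
  refine DL.trdeg_bot (⊥ : Subfield K) M fun r => ?_
  exact (bot_le : (⊥ : Subfield K) ≤ (⊥ : Subfield M).comap e.toRingHom) r.2

end KL

theorem thm_KL : St_KL := by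
  rintro L K _ _ ⟨e⟩ d ⟨h1, h2⟩
  have hK : Algebra.trdeg (⊥ : Subfield K) K = Algebra.trdeg (⊥ : Subfield L) L + 1 :=
    (KL.trdeg_equiv K (RatFunc L) e).trans ((KL.trdeg_tower L (RatFunc L)).trans (by rw [KL.trdeg_ratFunc]))
  rw [hK] at h1 h2
  have key : ∀ (a b : Cardinal.{0}) (n : ℕ), b = a + 1 → b ≤ ((n + 1 : ℕ) : Cardinal.{0}) →
      a ≤ (n : Cardinal.{0}) := by
    intro a b n hb h
    rw [hb] at h
    have h3 : a < Cardinal.aleph0 :=
      lt_of_le_of_lt (le_self_add.trans h) (Cardinal.natCast_lt_aleph0)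
    obtain ⟨k, rfl⟩ := Cardinal.lt_aleph0.1 h3
    have h4 : ((k + 1 : ℕ) : Cardinal.{0}) ≤ ((n + 1 : ℕ) : Cardinal.{0}) := by
      rw [Nat.cast_succ k]
      exact h
    have h5 : k + 1 ≤ n + 1 := Nat.cast_le.1 h4
    exact Nat.cast_le.2 (by omega)
  refine ⟨key _ _ d rfl h1, fun hL => ?_⟩
  have hc : CharZero (RatFunc L) :=
    charZero_of_injective_algebraMap (algebraMap L (RatFunc L)).injective
  have hcK : CharZero K := ⟨fun a b hab => hc.cast_injective (by
    rw [← map_natCast e a, ← map_natCast e b, hab])⟩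
  have h3 := h2 hcK
  have h4 : (Algebra.trdeg (⊥ : Subfield L) L + 1) ≤ (d : Cardinal.{0}) := by
    refine key _ _ d rfl ?_
    exact h3
  exact h4

end Pool.Agent.BTF
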