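import Pool.Agent.BTF.St3
import Pool.Agent.BTF.PI
import Pool.Agent.BTF.KL

/-!
# BTF, C2: the affine line over a good ring is complete
-/

set_option autoImplicit false

noncomputable section

namespace Pool.Agent.BTF

open CategoryTheory CategoryTheory.Limits AlgebraicGeometry Pool.Agent.KPR Pool.Agent.KTX
open Pool.Agent.KGT.W (SerreClass FinType)
open Polynomial (X C)

namespace C2

section alg

variable {D F : Type} [CommRing D] [IsDomain D] [Field F] [Algebra D F] [IsFractionRing D F]

/-- clearing denominators of a polynomial -/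
theorem clear (p : Polynomial F) :
    ∃ (c : D) (a : Polynomial D), c ≠ 0 ∧
      a.map (algebraMap D F) = Polynomial.C (algebraMap D F c) * p := by
  obtain ⟨b, hb, hb2⟩ := IsLocalization.integerNormalization_spec (nonZeroDivisors D) p
  refine ⟨b, _, nonZeroDivisors.ne_zero hb, hb2.trans ?_⟩
  rw [← Polynomial.smul_eq_C_mul, algebraMap_smul]

variable {K : Type} [Field K] (u : Polynomial D →+* K) (hu : Function.Injective u)

omit [IsDomain D] in
include hu in
theorem uC_inj : Function.Injective (u.comp Polynomial.C) := by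
  intro a b h
  exact Polynomial.C_injective (hu h)

/-- the embedding of `F` -/
def w0 : F →+* K := IsFractionRing.lift (A := D) (uC_inj u hu)

omit [IsDomain D] in
theorem w0_alg (c : D) : w0 (F := F) u hu (algebraMap D F c) = u (Polynomial.C c) :=
  IsFractionRing.lift_algebraMap (uC_inj u hu) c

/-- the embedding of `F[t]` -/
def w1 : Polynomial F →+* K := Polynomial.eval₂RingHom (w0 (F := F) u hu) (u X)

omit [IsDomain D] in
theorem w1_C (c : F) : w1 u hu (Polynomial.C c) = w0 u hu c :=
  Polynomial.eval₂_C _ _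

omit [IsDomain D] in
theorem w1_map (p : Polynomial D) : w1 (F := F) u hu (p.map (algebraMap D F)) = u p := by
  have h : (w1 (F := F) u hu).comp (Polynomial.mapRingHom (algebraMap D F)) = u := by
    refine Polynomial.ringHom_ext (fun c => ?_) ?_
    · change w1 (F := F) u hu ((Polynomial.C c).map (algebraMap D F)) = _
      rw [Polynomial.map_C, w1_C, w0_alg]
    · change w1 (F := F) u hu ((X : Polynomial D).map (algebraMap D F)) = _
      rw [Polynomial.map_X]
      exact Polynomial.eval₂_X _ _
  exact congrArg (fun f => f p) h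

theorem w1_inj : Function.Injective (w1 (F := F) u hu) := by
  rw [injective_iff_map_eq_zero]
  intro p hp
  obtain ⟨c, a, hc, ha⟩ := clear (D := D) p
  have h1 : u a = 0 := by
    rw [← w1_map (F := F) u hu a, ha, map_mul, hp, mul_zero]
  have h2 : a = 0 := hu (by rw [h1, map_zero])
  rw [h2, Polynomial.map_zero] at ha
  rcases mul_eq_zero.1 ha.symm with h3 | h3
  · have h4 : algebraMap D F c = 0 := Polynomial.C_eq_zero.1 h3
    exact absurd ((IsFractionRing.injective D F) (by rw [h4, map_zero])) hc
  · exact h3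

/-- the isomorphism -/
def w2 : RatFunc F →+* K := IsFractionRing.lift (A := Polynomial F) (w1_inj (F := F) u hu)

theorem w2_alg (p : Polynomial F) :
    w2 u hu (algebraMap (Polynomial F) (RatFunc F) p) = w1 u hu p :=
  IsFractionRing.lift_algebraMap (w1_inj u hu) p

theorem w2_surj (hs : ∀ k : K, ∃ a b : Polynomial D, b ≠ 0 ∧ u b * k = u a) :
    Function.Surjective (w2 (F := F) u hu) := by
  intro k
  obtain ⟨a, b, hb, hab⟩ := hs k
  have hb' : u b ≠ 0 := fun h => hb (hu (by rw [h, map_zero]))
  refine ⟨algebraMap (Polynomial F) (RatFunc F) (a.map (algebraMap D F)) /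
    algebraMap (Polynomial F) (RatFunc F) (b.map (algebraMap D F)), ?_⟩
  rw [map_div₀, w2_alg, w2_alg, w1_map, w1_map, div_eq_iff hb', ← hab, mul_comm]

/-- the isomorphism -/
def sig (hs : ∀ k : K, ∃ a b : Polynomial D, b ≠ 0 ∧ u b * k = u a) : RatFunc F ≃+* K :=
  RingEquiv.ofBijective (w2 (F := F) u hu) ⟨(w2 (F := F) u hu).injective, w2_surj u hu hs⟩

theorem sig_apply (hs : ∀ k : K, ∃ a b : Polynomial D, b ≠ 0 ∧ u b * k = u a) (p : Polynomial F) :
    sig u hu hs (algebraMap (Polynomial F) (RatFunc F) p) = w1 u hu p :=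
  w2_alg u hu p

end alg

/-- the trichotomy -/
theorem tri (hV1 : St_V1) (D F K V : Type) [CommRing D] [IsDomain D] [Field F] [Algebra D F]
    [IsFractionRing D F] [Field K] (u : Polynomial D →+* K) (hu : Function.Injective u)
    (hs : ∀ k : K, ∃ a b : Polynomial D, b ≠ 0 ∧ u b * k = u a) [CommRing V] [IsDomain V]
    [IsDiscreteValuationRing V] [Algebra V K] [IsFractionRing V K] (hE : EssFin V) :
    (∃ (L : Type) (_ : Field L), Nonempty (IsLocalRing.ResidueField V ≃+* RatFunc L)) ∨
    Nonempty (IsLocalRing.ResidueField V ≃+* F) ∨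
    ∃ j : Polynomial D →+* V, (∀ p, algebraMap V K (j p) = u p) ∧
      ∀ v : V, ∃ a b : Polynomial D, IsUnit (j b) ∧ j b * v = j a := by
  let σ : RatFunc F ≃+* K := sig (F := F) u hu hs
  let aV : Algebra V (RatFunc F) := (σ.symm.toRingHom.comp (algebraMap V K)).toAlgebra
  have haV : ∀ v : V, algebraMap V (RatFunc F) v = σ.symm (algebraMap V K v) := fun _ => rfl
  let e : K ≃ₐ[V] RatFunc F := AlgEquiv.ofRingEquiv (f := σ.symm) (fun _ => rfl)
  have : IsFractionRing V (RatFunc F) :=
    IsLocalization.isLocalization_of_algEquiv (nonZeroDivisors V) e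
  rcases hV1 F V hE with h | h | h
  · exact Or.inl h
  · refine Or.inr (Or.inr ?_)
    have hinj : Function.Injective (algebraMap V K) := IsFractionRing.injective V K
    -- the map from `F[t]`
    have h' : ∀ p : Polynomial F, ∃ v : V, algebraMap V K v = w1 u hu p := by
      intro p
      obtain ⟨v, hv⟩ := h p
      refine ⟨v, ?_⟩
      rw [haV] at hv
      have h1 := congrArg σ hv
      rw [RingEquiv.apply_symm_apply] at h1
      rw [h1]
      exact sig_apply u hu hs p
    choose g hg using h'
    let j' : Polynomial F →+* V :=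
      { toFun := g
        map_one' := hinj (by rw [hg, map_one, map_one])
        map_mul' := fun a b => hinj (by rw [hg, map_mul, map_mul, hg, hg])
        map_zero' := hinj (by rw [hg, map_zero, map_zero])
        map_add' := fun a b => hinj (by rw [hg, map_add, map_add, hg, hg]) }
    have hj' : ∀ p, algebraMap V K (j' p) = w1 u hu p := hg
    let j : Polynomial D →+* V := j'.comp (Polynomial.mapRingHom (algebraMap D F))
    have hj : ∀ p, j p = j' (p.map (algebraMap D F)) := fun _ => rfl
    refine ⟨j, fun p => ?_, fun v => ?_⟩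
    · rw [hj, hj', w1_map]
    · obtain ⟨a₀, b₀, hb₀, hab⟩ := hs (algebraMap V K v)
      have h1 : j' (b₀.map (algebraMap D F)) * v = j' (a₀.map (algebraMap D F)) := by
        apply hinj
        rw [map_mul, hj', hj', w1_map, w1_map, hab]
      have hb1 : b₀.map (algebraMap D F) ≠ 0 := by
        intro h0
        apply hb₀
        exact Polynomial.map_injective _ (IsFractionRing.injective D F) (by rw [h0, Polynomial.map_zero])
      -- coprime reduction
      obtain ⟨p, q, hpq, hq0, hqv⟩ : ∃ p q : Polynomial F, IsCoprime p q ∧ q ≠ 0 ∧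
          j' q * v = j' p := by
        let _ : GCDMonoid (Polynomial F) := UniqueFactorizationMonoid.toGCDMonoid _
        obtain ⟨p, q, hp, hq, hc⟩ := extract_gcd (a₀.map (algebraMap D F))
          (b₀.map (algebraMap D F))
        have hg0 : gcd (a₀.map (algebraMap D F)) (b₀.map (algebraMap D F)) ≠ 0 := by
          intro h0
          rw [h0, zero_mul] at hq
          exact hb1 hq
        refine ⟨p, q, (gcd_isUnit_iff _ _).1 hc, ?_, ?_⟩
        · rintro rfl
          rw [mul_zero] at hq
          exact hb1 hq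
        · have hgj : j' (gcd (a₀.map (algebraMap D F)) (b₀.map (algebraMap D F))) ≠ 0 := by
            intro h0
            apply hg0
            apply w1_inj (F := F) u hu
            rw [← hj', h0, map_zero, map_zero]
          apply mul_left_cancel₀ hgj
          rw [← mul_assoc, ← map_mul, ← map_mul, ← hp, ← hq]
          exact h1
      obtain ⟨r, s, hrs⟩ := hpq
      have hu1 : j' q * (j' r * v + j' s) = 1 := by
        have h2 := congrArg j' hrs
        rw [map_add, map_mul, map_mul, map_one, ← hqv] at h2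
        rw [← h2]
        ring
      have hunit : IsUnit (j' q) := IsUnit.of_mul_eq_one _ hu1
      obtain ⟨c₁, a, hc₁, ha⟩ := clear (D := D) p
      obtain ⟨c₂, b, hc₂, hb⟩ := clear (D := D) q
      refine ⟨Polynomial.C c₂ * a, Polynomial.C c₁ * b, ?_, ?_⟩
      · rw [hj, Polynomial.map_mul, hb, Polynomial.map_C, map_mul, map_mul]
        have hcu : ∀ c : D, c ≠ 0 → IsUnit (j' (Polynomial.C (algebraMap D F c))) := by
          intro c hc
          apply IsUnit.map
          apply Polynomial.isUnit_C.2
          apply IsUnit.mk0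
          intro h0
          exact hc ((IsFractionRing.injective D F) (by rw [h0, map_zero]))
        exact (hcu c₁ hc₁).mul ((hcu c₂ hc₂).mul hunit)
      · rw [hj, hj, Polynomial.map_mul, Polynomial.map_mul, ha, hb, Polynomial.map_C,
          Polynomial.map_C, map_mul, map_mul, map_mul, map_mul, ← hqv]
        ring
  · exact Or.inr (Or.inl h)

section kr

theorem krLe_ratFunc (F : Type) [Field F] (d : ℕ) (h : KrLe d F) : KrLe (d + 1) (RatFunc F) := by
  have hK : Algebra.trdeg (⊥ : Subfield (RatFunc F)) (RatFunc F) =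
      Algebra.trdeg (⊥ : Subfield F) F + 1 :=
    (KL.trdeg_tower F (RatFunc F)).trans (by rw [KL.trdeg_ratFunc])
  refine ⟨?_, fun h0 => ?_⟩
  · rw [hK, Nat.cast_succ]
    gcongr
    exact h.1
  · have hc : CharZero F := by
      refine ⟨fun a b hab => h0.cast_injective ?_⟩
      rw [← map_natCast (algebraMap F (RatFunc F)) a, ← map_natCast (algebraMap F (RatFunc F)) b,
        hab]
    rw [hK, Nat.cast_succ]
    gcongr
    exact h.2 hc

theorem goodIn_of_good (𝒮 : (G : Type 1) → [AddCommGroup G] → Prop) (n : ℕ) (κ : Type) [Field κ]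
    (h : Good 𝒮 κ) : GoodIn 𝒮 n κ := by
  intro C _ _ _ hC
  obtain ⟨s, hs, h2⟩ := h C hC
  exact ⟨s, hs, h2 n⟩

theorem goodIn_equiv (𝒮 : (G : Type 1) → [AddCommGroup G] → Prop) (n : ℕ) (κ κ' : Type) [Field κ]
    [Field κ'] (e : κ ≃+* κ') (h : GoodIn 𝒮 n κ') : GoodIn 𝒮 n κ := by
  intro C _ _ _ hC
  exact h C ⟨hC.some.trans e⟩

end kr

/-- the residue field of a discrete valuation ring of the function field -/
theorem krLe_residue (hDL : St_DL) (V K : Type) [CommRing V] [IsDomain V]
    [IsDiscreteValuationRing V] [Field K] [Algebra V K] [IsFractionRing V K] (d : ℕ)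
    (h : KrLe (d + 1) K) : KrLe d (IsLocalRing.ResidueField V) := by
  obtain ⟨ϖ, hϖ⟩ := IsDiscreteValuationRing.exists_irreducible V
  refine hDL V K (IsLocalRing.ResidueField V) (IsLocalRing.residue V) ⟨ϖ, hϖ.ne_zero, ?_⟩ ?_ d h
  · rw [IsLocalRing.residue_eq_zero_iff]
    exact (IsLocalRing.mem_maximalIdeal ϖ).2 hϖ.not_isUnit
  · intro z
    obtain ⟨a, rfl⟩ := IsLocalRing.residue_surjective z
    exact ⟨a, 1, by rw [map_one]; exact one_ne_zero, by rw [map_one, one_mul]⟩

/-- from a homomorphism to a point of the affine scheme -/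
theorem compat (R : Type) [CommRing R] [IsIntegral (Sp R)] (X₁ : Scheme.{0}) [IsIntegral X₁]
    (θ : (Sp R).functionField ≅ X₁.functionField) (x₁ : X₁) (j : R →+* X₁.presheaf.stalk x₁)
    (hj : ∀ p, (toF X₁ x₁).hom (j p) =
      θ.hom.hom ((StructureSheaf.toStalk R (genericPoint (Sp R))).hom p))
    (hs : ∀ v : X₁.presheaf.stalk x₁, ∃ a b : R, IsUnit (j b) ∧ j b * v = j a) :
    ∃ y : (Sp R), Compat θ x₁ y := by
  let P : Ideal R := (IsLocalRing.maximalIdeal (X₁.presheaf.stalk x₁)).comap j
  have hP : P.IsPrime := Ideal.IsPrime.comap j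
  let y : PrimeSpectrum R := ⟨P, hP⟩
  have hy : ∀ b : R, b ∈ y.asIdeal.primeCompl ↔ IsUnit (j b) := by
    intro b
    change ¬ (j b ∈ IsLocalRing.maximalIdeal _) ↔ _
    rw [IsLocalRing.mem_maximalIdeal, mem_nonunits_iff, not_not]
  let aR : Algebra R ((Spec.structureSheaf R).presheaf.stalk y) := StructureSheaf.stalkAlgebra R y
  have hR : IsLocalization y.asIdeal.primeCompl ((Spec.structureSheaf R).presheaf.stalk y) :=
    StructureSheaf.IsLocalization.to_stalk R y
  let l : (Spec.structureSheaf R).presheaf.stalk y →+* X₁.presheaf.stalk x₁ :=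
    IsLocalization.lift (M := y.asIdeal.primeCompl) (g := j) (fun b => (hy b).1 b.2)
  have hl : ∀ p, l ((StructureSheaf.toStalk R y).hom p) = j p := fun p =>
    IsLocalization.lift_eq (M := y.asIdeal.primeCompl) (fun b => (hy b).1 b.2) p
  have hsurj : Function.Surjective l := by
    intro v
    obtain ⟨a, b, hb, hab⟩ := hs v
    refine ⟨IsLocalization.mk' _ a (⟨b, (hy b).2 hb⟩ : y.asIdeal.primeCompl), ?_⟩
    rw [IsLocalization.lift_mk'_spec]
    exact hab.symm
  have key : ∀ p : R, (toF (Sp R) y).hom ((StructureSheaf.toStalk R y).hom p) =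
      (StructureSheaf.toStalk R (genericPoint (Sp R))).hom p := by
    intro p
    have h := StructureSheaf.toStalk_stalkSpecializes (R := R)
      ((genericPoint_spec (Sp R)).specializes (y := (y : Sp R)) trivial)
    exact congrArg (fun t => t.hom p) h
  let f : (Spec.structureSheaf R).presheaf.stalk y →+* X₁.functionField :=
    (toF X₁ x₁).hom.comp l
  let g : (Spec.structureSheaf R).presheaf.stalk y →+* X₁.functionField :=
    θ.hom.hom.comp (toF (Sp R) y).hom
  have hfg : f = g := by
    refine IsLocalization.ringHom_ext y.asIdeal.primeCompl (RingHom.ext fun p => ?_)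
    change (toF X₁ x₁).hom (l ((StructureSheaf.toStalk R y).hom p)) =
      θ.hom.hom ((toF (Sp R) y).hom ((StructureSheaf.toStalk R y).hom p))
    rw [hl, key, hj]
  have hcomp : (CommRingCat.ofHom l : (Sp R).presheaf.stalk y ⟶ X₁.presheaf.stalk x₁) ≫ toF X₁ x₁ =
      toF (Sp R) y ≫ θ.hom := CommRingCat.hom_ext hfg
  exact ⟨y, PI.compat_of_bij θ x₁ y _ hcomp ⟨PI.inj_of_comp θ x₁ y _ hcomp, hsurj⟩⟩

theorem frac_aux (A : CommRingCat.{0}) [IsDomain A] :
    Function.Injective (algebraMap A (Spec A).functionField) ∧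
      ∀ k : (Spec A).functionField, ∃ a b : A, b ≠ 0 ∧
        algebraMap A (Spec A).functionField b * k = algebraMap A (Spec A).functionField a := by
  have hF : IsFractionRing A (Spec A).functionField := functionField_isFractionRing_of_affine A
  refine ⟨IsFractionRing.injective A (Spec A).functionField, fun k => ?_⟩
  obtain ⟨⟨a, b⟩, hab⟩ := IsLocalization.surj (nonZeroDivisors A) k
  refine ⟨a, b, nonZeroDivisors.ne_zero b.2, ?_⟩
  rw [mul_comm]
  exact hab

/-- the map from the ring to the function field -/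
def um (R : Type) [CommRing R] [IsIntegral (Sp R)] : R →+* (Sp R).functionField :=
  (StructureSheaf.toStalk R (genericPoint (Sp R))).hom

theorem um_frac (R : Type) [CommRing R] [IsDomain R] [IsIntegral (Sp R)] :
    Function.Injective (um R) ∧ ∀ k : (Sp R).functionField, ∃ a b : R, b ≠ 0 ∧
      um R b * k = um R a := by
  have hD : IsDomain (CommRingCat.of R) := inferInstanceAs (IsDomain R)
  exact frac_aux (CommRingCat.of R)

end C2

/-- **C2**. `Spec D[t]` is complete if `Frac D` is good. -/
theorem thm_C2 (hDL : St_DL) (hKL : St_KL) (hK4 : St_K4) (hG3 : St_G3) (hV1 : St_V1) :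
    St_C2 := by
  intro 𝒮 h𝒮 d hlow D F _ _ _ _ _ _ hF n hgF _ X₁ _ θ hX₁ x₁ hdvr hng
  obtain ⟨hi, hs⟩ := C2.um_frac (Polynomial D)
  have hθ : Function.Injective θ.hom.hom := θ.commRingCatIsoToRingEquiv.injective
  let u : Polynomial D →+* X₁.functionField := θ.hom.hom.comp (C2.um (Polynomial D))
  have hu : Function.Injective u := hθ.comp hi
  have hus : ∀ k : X₁.functionField, ∃ a b : Polynomial D, b ≠ 0 ∧ u b * k = u a := by
    intro k
    obtain ⟨k', hk'⟩ := θ.commRingCatIsoToRingEquiv.surjective k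
    obtain ⟨a, b, hb, hab⟩ := hs k'
    refine ⟨a, b, hb, ?_⟩
    have h1 := congrArg θ.hom.hom hab
    rw [map_mul] at h1
    rw [← hk']
    exact h1
  have hkrK : KrLe (d + 2) X₁.functionField :=
    PI.krLe_of_equiv (C2.sig (F := F) u hu hus) (d + 2) (C2.krLe_ratFunc F (d + 1) hF)
  rcases C2.tri hV1 D F X₁.functionField (X₁.presheaf.stalk x₁) u hu hus (hG3 X₁ hX₁ x₁) with
    ⟨L, hL, ⟨e⟩⟩ | ⟨⟨e⟩⟩ | ⟨j, hj, hjs⟩
  · exfalso
    apply hng
    have e' : X₁.residueField x₁ ≃+* RatFunc L := e
    have h2 : KrLe (d + 1) (X₁.residueField x₁) :=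
      C2.krLe_residue hDL (X₁.presheaf.stalk x₁) X₁.functionField (d + 1) hkrK
    exact C2.goodIn_of_good 𝒮 n _ (hK4 𝒮 h𝒮 d hlow (X₁.residueField x₁) L ⟨e'⟩
      (hKL L (X₁.residueField x₁) ⟨e'⟩ d h2))
  · exfalso
    apply hng
    have e' : X₁.residueField x₁ ≃+* F := e
    exact C2.goodIn_equiv 𝒮 n _ _ e' hgF
  · exact C2.compat (Polynomial D) X₁ θ x₁ j hj hjs

end Pool.Agent.BTF
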