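import Pool.Agent.BTF.St

/-!
# BTF / G0: the isomorphism of the function fields of birational schemes
-/

set_option autoImplicit false

noncomputable section

namespace Pool.Agent.BTF

open CategoryTheory CategoryTheory.Limits AlgebraicGeometry

namespace G0

theorem stalk_iso {U X : Scheme.{0}} (i : U ⟶ X) [IsOpenImmersion i] (u : U) (x : X)
    (e : i u = x) : ∃ φ : X.presheaf.stalk x ≅ U.presheaf.stalk u,
      Spec.map φ.hom ≫ X.fromSpecStalk x = U.fromSpecStalk u ≫ i := by
  subst e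
  exact ⟨asIso (i.stalkMap u), Scheme.SpecMap_stalkMap_fromSpecStalk i⟩

end G0

theorem thm_G0 : St_G0 := by
  intro X Y B _ _ f g h
  obtain ⟨p, hp⟩ := h
  have hne : Nonempty p.source.toScheme := by
    obtain ⟨x, hx⟩ := p.dense_source.nonempty
    exact ⟨⟨x, hx⟩⟩
  have hint : IsIntegral p.source.toScheme := isIntegral_of_isOpenImmersion p.source.ι
  have hi : p.source.ι (genericPoint p.source.toScheme) = genericPoint X :=
    genericPoint_eq_of_isOpenImmersion p.source.ι
  have hj : (p.iso.hom ≫ p.target.ι) (genericPoint p.source.toScheme) = genericPoint Y :=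
    genericPoint_eq_of_isOpenImmersion (p.iso.hom ≫ p.target.ι)
  obtain ⟨φ, hφ⟩ := G0.stalk_iso p.source.ι _ _ hi
  obtain ⟨ψ, hψ⟩ := G0.stalk_iso (p.iso.hom ≫ p.target.ι) _ _ hj
  refine ⟨ψ ≪≫ φ.symm, ?_⟩
  have hp' : p.iso.hom ≫ p.target.ι ≫ g = p.source.ι ≫ f := hp
  unfold OverB
  have e1 : (ψ ≪≫ φ.symm).hom = ψ.hom ≫ φ.inv := rfl
  rw [e1, Spec.map_comp, Category.assoc]
  have e2 : Spec.map ψ.hom ≫ Y.fromSpecStalk (genericPoint Y) ≫ g =
      Spec.map φ.hom ≫ X.fromSpecStalk (genericPoint X) ≫ f := by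
    rw [← Category.assoc, hψ, ← Category.assoc (Spec.map φ.hom), hφ]
    simp only [Category.assoc]
    rw [hp']
  rw [e2, ← Category.assoc (Spec.map φ.inv), ← Spec.map_comp, φ.hom_inv_id, Spec.map_id,
    Category.id_comp]

end Pool.Agent.BTF
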