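import Pool.Agent.BTF.St
import Mathlib.AlgebraicGeometry.ValuativeCriterion

/-!
helper92. Module G2 of BTF: the centre of a valuation ring of the function field on a proper scheme.
-/

set_option autoImplicit false

noncomputable section

namespace Pool.Agent.BTF

open CategoryTheory CategoryTheory.Limits AlgebraicGeometry Pool.Agent.KPR
open Pool.Agent.KGT.W (SerreClass FinType)

namespace G2

/-- the local ring of an integral scheme has the function field as its field of fractions -/
theorem isFrac (X : Scheme.{0}) [IsIntegral X] (x : X) :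
    IsFractionRing (X.presheaf.stalk x) X.functionField := inferInstance

theorem isDom (X : Scheme.{0}) [IsIntegral X] (x : X) :
    IsDomain (X.presheaf.stalk x) := inferInstance

theorem spec_toF (X : Scheme.{0}) [IsIntegral X] (x : X) :
    Spec.map (toF X x) ≫ X.fromSpecStalk x = X.fromSpecStalk (genericPoint X) :=
  Scheme.SpecMap_stalkSpecializes_fromSpecStalk _

theorem toF_eq (X : Scheme.{0}) [IsIntegral X] (x : X) :
    (toF X x).hom = algebraMap (X.presheaf.stalk x) X.functionField := rfl

/-- the valuative criterion for a morphism of a local ring to a field -/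
theorem lift {Y B : Scheme.{0}} (g : Y ⟶ B) [UniversallyClosed g] (R K : CommRingCat.{0})
    (hR : IsDomain R) (hv : ValuationRing R) (hK : IsField K) (φ : R ⟶ K)
    (hf : @IsFractionRing R _ K _ φ.hom.toAlgebra)
    (i₁ : Spec K ⟶ Y) (i₂ : Spec R ⟶ B) (h : i₁ ≫ g = Spec.map φ ≫ i₂) :
    ∃ L : Spec R ⟶ Y, Spec.map φ ≫ L = i₁ ∧ L ≫ g = i₂ := by
  have hE : ValuativeCriterion.Existence g := by
    have h1 : UniversallyClosed g := inferInstance
    rw [UniversallyClosed.eq_valuativeCriterion] at h1
    exact h1.1
  let : Field K := hK.toField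
  let : Algebra R K := φ.hom.toAlgebra
  let S : ValuativeCommSq g :=
    { R := R
      K := K
      isFractionRing := hf
      i₁ := i₁
      i₂ := i₂
      commSq := ⟨h⟩ }
  obtain ⟨⟨L, hL1, hL2⟩⟩ := (hE S).exists_lift
  exact ⟨L, hL1, hL2⟩

end G2

open G2 in
theorem thm_G2 : St_G2 := by
  intro X Y B _ _ f g _ θ hθ x hx
  have hc : (Spec.map θ.hom ≫ Y.fromSpecStalk (genericPoint Y)) ≫ g =
      Spec.map (toF X x) ≫ (X.fromSpecStalk x ≫ f) := by
    rw [← Category.assoc (Spec.map (toF X x)), spec_toF, Category.assoc]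
    exact hθ
  obtain ⟨L, hL1, hL2⟩ := lift g (X.presheaf.stalk x) X.functionField (isDom X x) hx
    (Field.toIsField _) (toF X x) (isFrac X x) _ _ hc
  refine ⟨L (IsLocalRing.closedPoint (X.presheaf.stalk x)), Scheme.stalkClosedPointTo L,
    inferInstance, ?_⟩
  apply Spec.map_injective
  rw [← cancel_mono (Y.fromSpecStalk _), Spec.map_comp, Category.assoc,
    Scheme.Spec_stalkClosedPointTo_fromSpecStalk, hL1, Spec.map_comp, Category.assoc, spec_toF]

end Pool.Agent.BTF
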