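import Pool.Agent.BTF.St2
import Pool.Agent.BTF.G0
import Pool.Agent.BTF.G2

/-!
# BTF / CE: the centre on the projective line

MP_e17fa799_al. helper98.
-/

set_option autoImplicit false

noncomputable section

namespace Pool.Agent.BTF

open CategoryTheory CategoryTheory.Limits AlgebraicGeometry Pool.Agent.KPR Pool.Agent.KTX
open Pool.Agent.KGT.W (SerreClass FinType)

namespace CE

/-- the embedding of `D[t]` through the polynomials over the field of fractions -/
theorem toT_apply (D : Type) [CommRing D] [IsDomain D] (p : Polynomial D) :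
    toT D p = algebraMap (Polynomial (FractionRing D)) (RatFunc (FractionRing D))
      (p.map (algebraMap D (FractionRing D))) := by
  induction p using Polynomial.induction_on' with
  | add p q hp hq => simp only [map_add, Polynomial.map_add, hp, hq]
  | monomial n c =>
    simp only [toT, Polynomial.coe_eval₂RingHom, Polynomial.eval₂_monomial,
      Polynomial.map_monomial, RingHom.comp_apply]
    rw [← Polynomial.C_mul_X_pow_eq_monomial, map_mul, map_pow, RatFunc.algebraMap_X,
      RatFunc.algebraMap_C]
    rfl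

theorem toT_inj (D : Type) [CommRing D] [IsDomain D] : Function.Injective (toT D) := by
  intro p q h
  rw [toT_apply, toT_apply] at h
  exact Polynomial.map_injective _ (IsFractionRing.injective D (FractionRing D))
    (RatFunc.algebraMap_injective _ h)

/-- clearing denominators -/
theorem clear (D : Type) [CommRing D] [IsDomain D] (P : Polynomial (FractionRing D)) :
    ∃ (c : D) (p : Polynomial D), c ≠ 0 ∧
      Polynomial.C (algebraMap D (FractionRing D) c) * P = p.map (algebraMap D (FractionRing D)) := by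
  obtain ⟨b, hb0, hb⟩ := IsLocalization.integerNormalization_spec (nonZeroDivisors D) P
  refine ⟨b, IsLocalization.integerNormalization (nonZeroDivisors D) P,
    nonZeroDivisors.ne_zero hb0, ?_⟩
  rw [hb]
  ext n
  rw [Polynomial.coeff_C_mul, Polynomial.coeff_smul, Algebra.smul_def]

theorem toT_frac (D : Type) [CommRing D] [IsDomain D] (z : RatFunc (FractionRing D)) :
    ∃ p q : Polynomial D, q ≠ 0 ∧ toT D q * z = toT D p := by
  obtain ⟨c, p, hc, hp⟩ := clear D z.num
  obtain ⟨e, q, he, hq⟩ := clear D z.denom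
  have hd : algebraMap (Polynomial (FractionRing D)) (RatFunc (FractionRing D)) z.denom ≠ 0 :=
    RatFunc.algebraMap_ne_zero z.denom_ne_zero
  have hz : algebraMap (Polynomial (FractionRing D)) (RatFunc (FractionRing D)) z.denom * z =
      algebraMap (Polynomial (FractionRing D)) (RatFunc (FractionRing D)) z.num := by
    nth_rewrite 2 [← RatFunc.num_div_denom z]
    rw [mul_div_cancel₀ _ hd]
  refine ⟨Polynomial.C e * p, Polynomial.C c * q, ?_, ?_⟩
  · intro h
    have hq0 : q = 0 := by
      rcases mul_eq_zero.1 h with h | h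
      · exact absurd (Polynomial.C_eq_zero.1 h) hc
      · exact h
    rw [hq0, Polynomial.map_zero] at hq
    rcases mul_eq_zero.1 hq with h1 | h1
    · have h2 := Polynomial.C_eq_zero.1 h1
      rw [map_eq_zero_iff _ (IsFractionRing.injective D (FractionRing D))] at h2
      exact he h2
    · exact z.denom_ne_zero h1
  · rw [toT_apply, toT_apply, Polynomial.map_mul, Polynomial.map_mul, Polynomial.map_C,
      Polynomial.map_C, ← hp, ← hq, map_mul, map_mul, map_mul, map_mul, ← hz]
    ring

/-- a criterion for fields of fractions -/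
theorem fracOf (R K : Type) [CommRing R] [IsDomain R] [Field K] (f : R →+* K)
    (hi : Function.Injective f) (hs : ∀ z : K, ∃ p q : R, q ≠ 0 ∧ f q * z = f p) :
    @IsFractionRing R _ K _ f.toAlgebra := by
  let _ : Algebra R K := f.toAlgebra
  have hF : FaithfulSMul R K := by
    rw [faithfulSMul_iff_algebraMap_injective]
    exact hi
  refine IsFractionRing.of_field R K (fun z => ?_)
  obtain ⟨p, q, hq, h⟩ := hs z
  refine ⟨p, q, ?_⟩
  have hq' : f q ≠ 0 := fun h0 => hq (hi (h0.trans (map_zero f).symm))
  have h1 : z = f p / f q := by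
    rw [eq_div_iff hq', mul_comm]
    exact h
  exact h1

/-- the function field of `Spec R` -/
theorem specIso (R : CommRingCat.{0}) [IsDomain R] (K : CommRingCat.{0}) (hK : IsField K)
    (f : R ⟶ K) (hi : Function.Injective f.hom)
    (hs : ∀ z : K, ∃ p q : R, q ≠ 0 ∧ f.hom q * z = f.hom p) :
    ∃ ψ : (Spec R).functionField ≅ K,
      Spec.map ψ.hom ≫ (Spec R).fromSpecStalk (genericPoint (Spec R)) = Spec.map f := by
  let _ : Field K := hK.toField
  let _ : Algebra R K := f.hom.toAlgebra
  have hfr : IsFractionRing R K := fracOf R K f.hom hi hs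
  let e : (Spec R).functionField ≃ₐ[R] K := IsLocalization.algEquiv (nonZeroDivisors R) _ _
  refine ⟨e.toRingEquiv.toCommRingCatIso, ?_⟩
  rw [Spec.fromSpecStalk_eq, ← Spec.map_comp]
  congr 1
  ext r
  exact e.commutes r

/-- (1): the isomorphism of the function fields -/
theorem thetaEx (R : CommRingCat.{0}) [IsDomain R] (P X : Scheme.{0}) [IsIntegral P] [IsIntegral X]
    (a : Spec R ⟶ P) [IsOpenImmersion a] (f : R ⟶ X.functionField)
    (hi : Function.Injective f.hom)
    (hs : ∀ z : X.functionField, ∃ p q : R, q ≠ 0 ∧ f.hom q * z = f.hom p) :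
    ∃ θ : P.functionField ≅ X.functionField,
      Spec.map θ.hom ≫ P.fromSpecStalk (genericPoint P) = Spec.map f ≫ a := by
  obtain ⟨ψ, hψ⟩ := specIso R X.functionField (Field.toIsField _) f hi hs
  have ha : a (genericPoint (Spec R)) = genericPoint P := genericPoint_eq_of_isOpenImmersion a
  obtain ⟨φ, hφ⟩ := G0.stalk_iso a _ _ ha
  refine ⟨φ ≪≫ ψ, ?_⟩
  rw [Iso.trans_hom, Spec.map_comp, Category.assoc, hφ, ← Category.assoc, hψ]

/-- factorisation through an injective homomorphism -/
theorem factor (R V K : Type) [CommRing R] [CommRing V] [CommRing K] (f : R →+* K) (g : V →+* K)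
    (hg : Function.Injective g) (h : ∀ r : R, ∃ v : V, g v = f r) :
    ∃ ρ : R →+* V, g.comp ρ = f := by
  choose ρ hρ using h
  refine ⟨{ toFun := ρ, map_one' := ?_, map_mul' := ?_, map_zero' := ?_, map_add' := ?_ }, ?_⟩
  · apply hg
    rw [hρ, map_one, map_one]
  · intro x y
    apply hg
    rw [hρ, map_mul, map_mul, hρ, hρ]
  · apply hg
    rw [hρ, map_zero, map_zero]
  · intro x y
    apply hg
    rw [hρ, map_add, map_add, hρ, hρ]
  · ext r
    exact hρ r

/-- (2): the centre -/
theorem centre (R : CommRingCat.{0}) (P X : Scheme.{0}) [IsIntegral P] [IsIntegral X]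
    (θ : P.functionField ≅ X.functionField) (x : X) (ρ : R ⟶ X.presheaf.stalk x)
    (a : Spec R ⟶ P)
    (h : Spec.map θ.hom ≫ P.fromSpecStalk (genericPoint P) =
      Spec.map (ρ ≫ toF X x) ≫ a) :
    ∃ (y : P) (l : P.presheaf.stalk y ⟶ X.presheaf.stalk x), IsLocalHom l.hom ∧
      l ≫ toF X x = toF P y ≫ θ.hom := by
  let L : Spec (X.presheaf.stalk x) ⟶ P := Spec.map ρ ≫ a
  refine ⟨L (IsLocalRing.closedPoint (X.presheaf.stalk x)), Scheme.stalkClosedPointTo L,
    inferInstance, ?_⟩
  apply Spec.map_injective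
  rw [← cancel_mono (P.fromSpecStalk _), Spec.map_comp, Category.assoc,
    Scheme.Spec_stalkClosedPointTo_fromSpecStalk, Spec.map_comp, Category.assoc, G2.spec_toF, h,
    Spec.map_comp, Category.assoc]

/-- a polynomial subring is generated by the constants and the variable -/
theorem polyIn (D V K : Type) [CommRing D] [CommRing V] [CommRing K] (f : Polynomial D →+* K)
    (g : V →+* K) (hC : ∀ c : D, ∃ v : V, g v = f (Polynomial.C c))
    (hX : ∃ v : V, g v = f Polynomial.X) (r : Polynomial D) : ∃ v : V, g v = f r := by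
  induction r using Polynomial.induction_on with
  | C c => exact hC c
  | add p q hp hq =>
    obtain ⟨u, hu⟩ := hp
    obtain ⟨v, hv⟩ := hq
    exact ⟨u + v, by rw [map_add, map_add, hu, hv]⟩
  | monomial n c _ =>
    obtain ⟨u, hu⟩ := hC c
    obtain ⟨v, hv⟩ := hX
    exact ⟨u * v ^ (n + 1), by rw [map_mul, map_mul, map_pow, map_pow, hu, hv]⟩

end CE

open CE in
theorem thm_CE : St_CE := by
  intro D _ _ _ P p a b s hL X _ _ θ0
  have hoa : IsOpenImmersion a := hL.opa
  let f : CommRingCat.of (Polynomial D) ⟶ X.functionField :=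
    CommRingCat.ofHom ((θ0 : RatFunc (FractionRing D) →+* X.functionField).comp (toT D))
  obtain ⟨θ, hθ⟩ := thetaEx (CommRingCat.of (Polynomial D)) P X a f
    (θ0.injective.comp (toT_inj D)) (fun z => by
      obtain ⟨p, q, hq, h⟩ := toT_frac D (θ0.symm z)
      refine ⟨p, q, hq, ?_⟩
      have h1 := congrArg θ0 h
      rw [map_mul, RingEquiv.apply_symm_apply] at h1
      exact h1)
  refine ⟨θ, fun x hV hD => ?_⟩
  have hinj : Function.Injective (toF X x).hom := by
    rw [G2.toF_eq]
    exact IsFractionRing.injective _ _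
  rcases ValuationRing.isInteger_or_isInteger (X.presheaf.stalk x)
      (θ0 RatFunc.X : X.functionField) with ⟨v, hv⟩ | ⟨v, hv⟩
  · obtain ⟨ρ, hρ⟩ := factor (Polynomial D) (X.presheaf.stalk x) X.functionField f.hom
      (toF X x).hom hinj (polyIn _ _ _ _ _ (fun c => hD c) ⟨v, by
        rw [G2.toF_eq, hv]
        show θ0 RatFunc.X = θ0 (toT D Polynomial.X)
        rw [toT, Polynomial.coe_eval₂RingHom, Polynomial.eval₂_X]⟩)
    refine centre (CommRingCat.of (Polynomial D)) P X θ x (CommRingCat.ofHom ρ) a ?_
    rw [hθ]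
    have e0 : f = CommRingCat.ofHom ρ ≫ toF X x := CommRingCat.hom_ext hρ.symm
    rw [e0]
    rfl
  · let f' : Polynomial D →+* X.functionField :=
      (θ0 : RatFunc (FractionRing D) →+* X.functionField).comp (toI D)
    obtain ⟨ρ, hρ⟩ := factor (Polynomial D) (X.presheaf.stalk x) X.functionField f'
      (toF X x).hom hinj (polyIn _ _ _ _ _ (fun c => by
        obtain ⟨u, hu⟩ := hD c
        refine ⟨u, hu.trans ?_⟩
        show θ0 (toT D (Polynomial.C c)) = θ0 (toI D (Polynomial.C c))
        rw [toT, toI, Polynomial.coe_eval₂RingHom, Polynomial.coe_eval₂RingHom,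
          Polynomial.eval₂_C, Polynomial.eval₂_C]) ⟨v, by
        rw [G2.toF_eq, hv]
        show (θ0 RatFunc.X)⁻¹ = θ0 (toI D Polynomial.X)
        rw [toI, Polynomial.coe_eval₂RingHom, Polynomial.eval₂_X, map_inv₀]⟩)
    refine centre (CommRingCat.of (Polynomial D)) P X θ x (CommRingCat.ofHom ρ) b ?_
    rw [hθ]
    have e1 : Spec.map f = Spec.map (CommRingCat.ofHom
        (θ0 : RatFunc (FractionRing D) →+* X.functionField)) ≫ Sm (toT D) := by
      rw [← Spec.map_comp]
      rfl
    have e2 : Spec.map (CommRingCat.ofHom ρ ≫ toF X x) = Spec.map (CommRingCat.ofHom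
        (θ0 : RatFunc (FractionRing D) →+* X.functionField)) ≫ Sm (toI D) := by
      rw [← Spec.map_comp]
      congr 1
      exact CommRingCat.hom_ext hρ
    refine Eq.trans ?_ (congrArg (· ≫ b) e2.symm)
    show Spec.map f ≫ a = (Spec.map (CommRingCat.ofHom
        (θ0 : RatFunc (FractionRing D) →+* X.functionField)) ≫ Sm (toI D)) ≫ b
    rw [e1, Category.assoc, Category.assoc, hL.glue]

end Pool.Agent.BTF
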