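import Pool.Agent.BTF.St8
import Pool.Agent.BTF.CE

/-!
# BTF / CEB: the centre on the projective line, with the statement on the generic point

MP_e17fa799_al. helper49 (the proof is that of `CE.lean` by helper98).
-/

set_option autoImplicit false

noncomputable section

namespace Pool.Agent.BTF

open CategoryTheory CategoryTheory.Limits AlgebraicGeometry Pool.Agent.KPR Pool.Agent.KTX
open Pool.Agent.KGT.W (SerreClass FinType)

open CE in
theorem thm_CEB : St_CEB := by
  intro D _ _ _ P p a b s hL X _ _ θ0
  have hoa : IsOpenImmersion a := hL.opa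
  let f : CommRingCat.of (Polynomial D) ⟶ X.functionField :=
    CommRingCat.ofHom ((θ0 : RatFunc (FractionRing D) →+* X.functionField).comp (toT D))
  obtain ⟨θ, hθ⟩ := thetaEx (CommRingCat.of (Polynomial D)) P X a f
    (θ0.injective.comp (toT_inj D)) (fun z => by
      obtain ⟨p, q, hq, h⟩ := toT_frac D (θ0.symm z)
      refine ⟨p, q, hq, ?_⟩
      have h1 := congrArg θ0 h
      rw [map_mul, RingEquiv.apply_symm_apply] at h1
      exact h1)
  refine ⟨θ, hθ, fun x hV hD => ?_⟩
  have hinj : Function.Injective (toF X x).hom := by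
    rw [G2.toF_eq]
    exact IsFractionRing.injective _ _
  rcases ValuationRing.isInteger_or_isInteger (X.presheaf.stalk x)
      (θ0 RatFunc.X : X.functionField) with ⟨v, hv⟩ | ⟨v, hv⟩
  · obtain ⟨ρ, hρ⟩ := factor (Polynomial D) (X.presheaf.stalk x) X.functionField f.hom
      (toF X x).hom hinj (polyIn _ _ _ _ _ (fun c => hD c) ⟨v, by
        rw [G2.toF_eq, hv]
        show θ0 RatFunc.X = θ0 (toT D Polynomial.X)
        rw [toT, Polynomial.coe_eval₂RingHom, Polynomial.eval₂_X]⟩)
    refine centre (CommRingCat.of (Polynomial D)) P X θ x (CommRingCat.ofHom ρ) a ?_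
    rw [hθ]
    have e0 : f = CommRingCat.ofHom ρ ≫ toF X x := CommRingCat.hom_ext hρ.symm
    rw [e0]
    rfl
  · let f' : Polynomial D →+* X.functionField :=
      (θ0 : RatFunc (FractionRing D) →+* X.functionField).comp (toI D)
    obtain ⟨ρ, hρ⟩ := factor (Polynomial D) (X.presheaf.stalk x) X.functionField f'
      (toF X x).hom hinj (polyIn _ _ _ _ _ (fun c => by
        obtain ⟨u, hu⟩ := hD c
        refine ⟨u, hu.trans ?_⟩
        show θ0 (toT D (Polynomial.C c)) = θ0 (toI D (Polynomial.C c))
        rw [toT, toI, Polynomial.coe_eval₂RingHom, Polynomial.coe_eval₂RingHom,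
          Polynomial.eval₂_C, Polynomial.eval₂_C]) ⟨v, by
        rw [G2.toF_eq, hv]
        show (θ0 RatFunc.X)⁻¹ = θ0 (toI D Polynomial.X)
        rw [toI, Polynomial.coe_eval₂RingHom, Polynomial.eval₂_X, map_inv₀]⟩)
    refine centre (CommRingCat.of (Polynomial D)) P X θ x (CommRingCat.ofHom ρ) b ?_
    rw [hθ]
    have e1 : Spec.map f = Spec.map (CommRingCat.ofHom
        (θ0 : RatFunc (FractionRing D) →+* X.functionField)) ≫ Sm (toT D) := by
      rw [← Spec.map_comp]
      rfl
    have e2 : Spec.map (CommRingCat.ofHom ρ ≫ toF X x) = Spec.map (CommRingCat.ofHom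
        (θ0 : RatFunc (FractionRing D) →+* X.functionField)) ≫ Sm (toI D) := by
      rw [← Spec.map_comp]
      congr 1
      exact CommRingCat.hom_ext hρ
    refine Eq.trans ?_ (congrArg (· ≫ b) e2.symm)
    show Spec.map f ≫ a = (Spec.map (CommRingCat.ofHom
        (θ0 : RatFunc (FractionRing D) →+* X.functionField)) ≫ Sm (toI D)) ≫ b
    rw [e1, Category.assoc, Category.assoc, hL.glue]

end Pool.Agent.BTF
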