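import Pool.Agent.BTF.St3

/-!
# BTF/CF (helper79): common denominators (used in CFI.lean)
-/

set_option autoImplicit false

noncomputable section
namespace Pool.Agent.BTF
open CategoryTheory CategoryTheory.Limits AlgebraicGeometry Pool.Agent.KPR Pool.Agent.KTX

namespace CF

open Finset

/-- common denominators -/
theorem den (V A : Type) [CommRing V] [CommRing A] (j : A →+* V)
    (hj : ∀ v : V, ∃ a b : A, IsUnit (j b) ∧ j b * v = j a) (ι : Type) (s : Finset ι) (x : ι → V) :
    ∃ f : A, IsUnit (j f) ∧ ∀ i ∈ s, ∃ a, j f * x i = j a := by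
  classical
  induction s using Finset.induction_on with
  | empty => exact ⟨1, by simp, by simp⟩
  | insert i s hi ih =>
    obtain ⟨f, hf, h⟩ := ih
    obtain ⟨a, b, hb, hab⟩ := hj (x i)
    refine ⟨f * b, by rw [map_mul]; exact hf.mul hb, ?_⟩
    intro k hk
    rw [mem_insert] at hk
    rcases hk with rfl | hk
    · exact ⟨f * a, by rw [map_mul, map_mul, mul_assoc, hab]⟩
    · obtain ⟨c, hc⟩ := h k hk
      exact ⟨c * b, by rw [map_mul, map_mul, ← hc]; ring⟩

end CF

end Pool.Agent.BTF
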