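import Pool.Agent.BTF.St6
import Pool.Agent.BTF.CF

/-!
# BTF/CFI (helper79): a flat finitely generated model of a discrete valuation ring,
finite extensions which need not be separable
-/

set_option autoImplicit false

noncomputable section
namespace Pool.Agent.BTF
open CategoryTheory CategoryTheory.Limits AlgebraicGeometry Pool.Agent.KPR Pool.Agent.KTX

namespace CFI

open Finset

theorem ess (V A : Type) [CommRing V] [CommRing A] [Algebra.FiniteType ℤ A] (j : A →+* V)
    (hj : ∀ v : V, ∃ a b : A, IsUnit (j b) ∧ j b * v = j a) :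
    EssFin V := by
  classical
  obtain ⟨s, hs⟩ := (inferInstance : Algebra.FiniteType ℤ A).out
  have h1 : ∀ a : A, j a ∈ Subring.closure ((s.image j : Finset V) : Set V) := by
    intro a
    have h2 : a ∈ Algebra.adjoin ℤ (s : Set A) := by rw [hs]; exact Algebra.mem_top
    have h3 : a ∈ Subring.closure (s : Set A) := by
      rw [Algebra.adjoin_int] at h2
      exact h2
    rw [Finset.coe_image, ← RingHom.map_closure]
    exact ⟨a, h3, rfl⟩
  refine ⟨s.image j, fun v => ?_⟩
  obtain ⟨a, b, hb, hab⟩ := hj v
  exact ⟨j a, h1 a, j b, h1 b, hb, hab⟩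

theorem basis (K K' V V' : Type) [Field K] [Field K'] [CommRing V] [IsDomain V]
    [IsDiscreteValuationRing V] [Algebra V K] [IsFractionRing V K] [CommRing V'] [IsDomain V']
    [IsDiscreteValuationRing V'] [Algebra V' K'] [IsFractionRing V' K'] (φ : K →+* K') (N : ℕ)
    (ψ : V →+* V') (hφ : FinDeg φ N) (hFI : St_FI) (hV : EssFin V)
    (hc : ∀ v : V, φ (algebraMap V K v) = algebraMap V' K' (ψ v)) :
    ∃ (ι : Type) (_ : Fintype ι) (e : ι → V'), (∀ i, ψ.IsIntegralElem (e i)) ∧
      (∀ w : V', ψ.IsIntegralElem w → ∃ x : ι → V, w = ∑ i, ψ (x i) * e i) ∧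
      ∀ x : ι → V, ∑ i, ψ (x i) * e i = 0 → ∀ i, x i = 0 := by
  let a1 : Algebra K K' := φ.toAlgebra
  let a2 : Algebra V V' := ψ.toAlgebra
  let a3 : Algebra V K' := ((algebraMap V' K').comp ψ).toAlgebra
  have t1 : IsScalarTower V V' K' := IsScalarTower.of_algebraMap_eq' rfl
  have t2 : IsScalarTower V K K' := IsScalarTower.of_algebraMap_eq fun v => (hc v).symm
  obtain ⟨f1, -⟩ := hφ
  have : FiniteDimensional K K' := f1
  have hinjV : Function.Injective (algebraMap V K') := by
    rw [IsScalarTower.algebraMap_eq V K K']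
    exact (algebraMap K K').injective.comp (IsFractionRing.injective V K)
  have hinjV' : Function.Injective (algebraMap V' K') := IsFractionRing.injective V' K'
  have : FaithfulSMul V K' := (faithfulSMul_iff_algebraMap_injective V K').2 hinjV
  have : Module.IsTorsionFree V K' := inferInstance
  let W := integralClosure V K'
  have : Module.Finite V W := hFI V hV K K' W
  have : Module.IsTorsionFree V W := inferInstance
  have : Module.Free V W := Module.free_of_finite_type_torsion_free'
  let b := Module.Free.chooseBasis V W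
  have hint : ∀ w : V', ψ.IsIntegralElem w ↔ IsIntegral V (algebraMap V' K' w) := by
    intro w
    have h1 : ψ.IsIntegralElem w ↔ IsIntegral V w := Iff.rfl
    rw [h1, isIntegral_algebraMap_iff hinjV']
  have hex : ∀ w : W, ∃ v : V', algebraMap V' K' v = w := by
    intro w
    have hw : IsIntegral V (w : K') := w.2
    have hw' : IsIntegral V' (w : K') := hw.tower_top
    exact (IsIntegrallyClosed.isIntegral_iff (R := V') (K := K')).1 hw'
  choose g hg using hex
  refine ⟨Module.Free.ChooseBasisIndex V W, inferInstance, fun i => g (b i), ?_, ?_, ?_⟩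
  · intro i
    rw [hint, hg]
    exact (b i).2
  · intro w hw
    rw [hint] at hw
    let w' : W := ⟨algebraMap V' K' w, hw⟩
    refine ⟨fun i => b.repr w' i, ?_⟩
    apply hinjV'
    have h := b.sum_repr w'
    have h2 : ((∑ i, b.repr w' i • b i : W) : K') = w' := by rw [h]
    rw [map_sum]
    rw [← show (w' : K') = algebraMap V' K' w from rfl, ← h2]
    simp only [AddSubmonoidClass.coe_finsetSum, Algebra.smul_def, map_mul, hg]
    rfl
  · intro x hx
    have h2 : ∑ i, x i • b i = 0 := by
      apply Subtype.ext
      have h3 := congrArg (algebraMap V' K') hx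
      rw [map_sum, map_zero] at h3
      simp only [AddSubmonoidClass.coe_finsetSum, Algebra.smul_def]
      rw [← show (0 : K') = ((0 : W) : K') from rfl, ← h3]
      apply sum_congr rfl
      intro i _
      rw [map_mul, hg]
      rfl
    exact Fintype.linearIndependent_iff.1 b.linearIndependent x h2

end CFI

theorem thm_CF (hFI : St_FI) (hWL : St_WL) : St_CF := by
  intro K K' V V' _ _ _ _ _ _ _ _ _ _ _ _ φ N ψ hφ hl hc A _ _ _ j hji hjl
  classical
  have hV : EssFin V := CFI.ess V A j hjl
  obtain ⟨ι, _, e, he, hspan, hli⟩ := CFI.basis K K' V V' φ N ψ hφ hFI hV hc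
  have hmul : ∀ i k, ∃ x : ι → V, e i * e k = ∑ l, ψ (x l) * e l := fun i k =>
    hspan _ (RingHom.IsIntegralElem.mul ψ (he i) (he k))
  choose c hcc using hmul
  obtain ⟨u, hu⟩ := hspan 1 (RingHom.isIntegralElem_one ψ)
  obtain ⟨f, hf, hfx⟩ := CF.den V A j hjl ((ι × ι × ι) ⊕ ι) Finset.univ
    (Sum.elim (fun p => c p.1 p.2.1 p.2.2) u)
  let R := Localization.Away f
  let jf : R →+* V := Localization.awayLift j f hf
  have hjf : ∀ a, jf (algebraMap A R a) = j a := fun a => IsLocalization.Away.lift_eq f hf a
  have hf0 : f ≠ 0 := by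
    rintro rfl
    rw [map_zero] at hf
    exact not_isUnit_zero hf
  have : IsDomain R := IsLocalization.isDomain_localization
    (powers_le_nonZeroDivisors_of_noZeroDivisors hf0)
  have hjfi : Function.Injective jf := by
    rw [injective_iff_map_eq_zero]
    intro r hr
    obtain ⟨n, a, ha⟩ := IsLocalization.Away.surj f r
    have h1 : j a = 0 := by rw [← hjf, ← ha, map_mul, hr, zero_mul]
    have h2 : a = 0 := hji (by rw [h1, map_zero])
    rw [h2, map_zero] at ha
    have h3 : IsUnit (algebraMap A R f ^ n) :=
      (IsLocalization.Away.algebraMap_isUnit f).pow n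
    exact (h3.mul_left_eq_zero).1 ha
  have hR : ∀ (v : V) (a : A), j f * v = j a → ∃ r : R, jf r = v := by
    intro v a h
    obtain ⟨i, hi⟩ := (IsLocalization.Away.algebraMap_isUnit f : IsUnit (algebraMap A R f)).exists_left_inv
    refine ⟨i * algebraMap A R a, ?_⟩
    have h1 : jf i * j f = 1 := by rw [← hjf f, ← map_mul, hi, map_one]
    rw [map_mul, hjf, ← h, ← mul_assoc, h1, one_mul]
  let algR : Algebra R V' := (ψ.comp jf).toAlgebra
  have hsm : ∀ (r : R) (w : V'), r • w = ψ (jf r) * w := fun r w => rfl
  let p : Submodule R V' := Submodule.span R (Set.range e)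
  have hp : ∀ x : ι → V, (∀ i, ∃ r : R, jf r = x i) → ∑ i, ψ (x i) * e i ∈ p := by
    intro x hx
    choose r hr using hx
    refine Submodule.sum_mem _ fun i _ => ?_
    rw [← hr i, ← hsm]
    exact Submodule.smul_mem _ _ (Submodule.subset_span ⟨i, rfl⟩)
  have h1 : (1 : V') ∈ p := by
    rw [hu]
    apply hp
    intro i
    obtain ⟨a, ha⟩ := hfx (Sum.inr i) (Finset.mem_univ _)
    exact hR _ a ha
  have hee : ∀ i k, e i * e k ∈ p := by
    intro i k
    rw [hcc]
    apply hp
    intro l
    obtain ⟨a, ha⟩ := hfx (Sum.inl (i, k, l)) (Finset.mem_univ _)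
    exact hR _ a ha
  have hm : ∀ x y, x ∈ p → y ∈ p → x * y ∈ p := by
    intro x y hx hy
    have h : p * p ≤ p := by
      rw [Submodule.span_mul_span, Submodule.span_le]
      rintro _ ⟨_, ⟨i, rfl⟩, _, ⟨k, rfl⟩, rfl⟩
      exact hee i k
    exact h (Submodule.mul_mem_mul hx hy)
  let B : Subalgebra R V' := p.toSubalgebra h1 hm
  have hBp : Subalgebra.toSubmodule B = p := Submodule.toSubalgebra_toSubmodule p h1 hm
  have hfin : Module.Finite R B := by
    have : Module.Finite R (Subalgebra.toSubmodule B) := by
      rw [hBp]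
      exact Module.Finite.span_of_finite R (Set.finite_range e)
    exact this
  have hfree : Module.Free R B := by
    have hli' : LinearIndependent R e := by
      rw [Fintype.linearIndependent_iff]
      intro g hg i
      apply hjfi
      rw [map_zero]
      exact hli (fun i => jf (g i)) hg i
    have : Module.Free R (Subalgebra.toSubmodule B) := by
      rw [hBp]
      exact Module.Free.of_basis (Module.Basis.span hli')
    exact this
  refine ⟨B, inferInstance, inferInstance, ?_, (algebraMap R B).comp (algebraMap A R),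
    B.val.toRingHom, ?_, Subtype.val_injective, ?_, ?_⟩
  · have t1 : (algebraMap ℤ A).FiniteType := RingHom.finiteType_algebraMap.2 inferInstance
    have t2 : (algebraMap A R).FiniteType := by
      rw [RingHom.finiteType_algebraMap]
      exact IsLocalization.finiteType_of_monoid_fg (Submonoid.powers f) R
    have t3 : (algebraMap R B).FiniteType := by
      rw [RingHom.finiteType_algebraMap]
      infer_instance
    have t4 := (t3.comp t2).comp t1
    have t5 : ((algebraMap R B).comp (algebraMap A R)).comp (algebraMap ℤ A) = algebraMap ℤ B :=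
      RingHom.ext_int _ _
    rw [t5] at t4
    exact RingHom.finiteType_algebraMap.1 t4
  · have t2 : (algebraMap A R).Flat := by
      rw [RingHom.flat_algebraMap_iff]
      exact IsLocalization.flat R (Submonoid.powers f)
    have t3 : (algebraMap R B).Flat := by
      rw [RingHom.flat_algebraMap_iff]
      infer_instance
    exact RingHom.Flat.comp t2 t3
  · ext a
    change ψ (jf (algebraMap A R a)) = ψ (j a)
    rw [hjf]
  · intro v
    obtain ⟨a, b, ha, hb, hub, hab⟩ := hWL K K' V V' φ N ψ hφ hl hc v
    obtain ⟨x, hx⟩ := hspan a ha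
    obtain ⟨y, hy⟩ := hspan b hb
    obtain ⟨g, hg, hgx⟩ := CF.den V A j hjl (ι ⊕ ι) Finset.univ (Sum.elim x y)
    have key : ∀ z : ι → V, (∀ i, ∃ a, j g * z i = j a) → ψ (j g) * ∑ i, ψ (z i) * e i ∈ p := by
      intro z hz
      have h2 : ψ (j g) * ∑ i, ψ (z i) * e i = ∑ i, ψ (j g * z i) * e i := by
        rw [Finset.mul_sum]
        apply Finset.sum_congr rfl
        intro i _
        rw [map_mul, mul_assoc]
      rw [h2]
      apply hp
      intro i
      obtain ⟨a, ha⟩ := hz i
      exact ⟨algebraMap A R a, by rw [hjf, ha]⟩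
    have ka : ψ (j g) * a ∈ p := by
      rw [hx]
      exact key x fun i => hgx (Sum.inl i) (Finset.mem_univ _)
    have kb : ψ (j g) * b ∈ p := by
      rw [hy]
      exact key y fun i => hgx (Sum.inr i) (Finset.mem_univ _)
    refine ⟨⟨ψ (j g) * a, ka⟩, ⟨ψ (j g) * b, kb⟩, ?_, ?_⟩
    · change IsUnit (ψ (j g) * b)
      exact (hg.map ψ).mul hub
    · change ψ (j g) * b * v = ψ (j g) * a
      rw [mul_assoc, hab]

end Pool.Agent.BTF
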