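import Pool.Agent.BTF.St

/-!
# BTF, module CO (helper8): rational schemes of dimension three
-/

set_option autoImplicit false

noncomputable section

namespace Pool.Agent.BTF

open CategoryTheory CategoryTheory.Limits AlgebraicGeometry Pool.Agent.KPR
open Pool.Agent.KGT.W (SerreClass FinType)

namespace CO

/-- finitely generated groups -/
theorem serre_fg : SerreClass (fun G _ => AddGroup.FG G) where
  zero G _ _ := by
    have : Finite G := Finite.of_subsingleton
    infer_instance
  int := by
    have : AddGroup.FG (ULift.{1} ℤ) :=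
      AddGroup.fg_of_surjective (f := (AddEquiv.ulift : ULift.{1} ℤ ≃+ ℤ).symm.toAddMonoidHom)
        (AddEquiv.ulift : ULift.{1} ℤ ≃+ ℤ).symm.surjective
    exact this
  exact G G' G'' _ _ _ f g h h1 h2 := by
    have : Module.Finite ℤ G := Module.Finite.iff_addGroup_fg.2 h1
    have : Module.Finite ℤ G'' := Module.Finite.iff_addGroup_fg.2 h2
    refine Module.Finite.iff_addGroup_fg.1 ?_
    refine ⟨Submodule.fg_of_fg_map_of_fg_inf_ker g.toIntLinearMap ?_ ?_⟩
    · exact IsNoetherian.noetherian _
    · have he : (⊤ : Submodule ℤ G') ⊓ LinearMap.ker g.toIntLinearMap =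
          Submodule.map f.toIntLinearMap ⊤ := by
        ext x
        constructor
        · intro hx
          obtain ⟨y, hy⟩ := (h x).1 hx.2
          exact ⟨y, trivial, hy⟩
        · rintro ⟨y, _, hy⟩
          exact ⟨trivial, (h x).2 ⟨y, hy⟩⟩
      rw [he]
      exact Submodule.FG.map _ Module.Finite.fg_top

/-- rational function fields of isomorphic fields -/
theorem ratFunc {F F' : Type} [Field F] [Field F'] (e : F ≃+* F') :
    Nonempty (RatFunc F ≃+* RatFunc F') :=
  ⟨IsFractionRing.ringEquivOfRingEquiv (K := RatFunc F) (L := RatFunc F') (Polynomial.mapEquiv e)⟩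

/-- the residue field at the generic point -/
theorem res_gen (T : Scheme.{0}) [IsIntegral T] :
    Nonempty (T.residueField (genericPoint T) ≃+* T.functionField) := by
  have hb : Function.Bijective (T.residue (genericPoint T)).hom := by
    refine ⟨?_, ?_⟩
    · exact RingHom.injective (R := T.functionField) (T.residue (genericPoint T)).hom
    · exact IsLocalRing.residue_surjective (R := T.presheaf.stalk (genericPoint T))
  exact ⟨(RingEquiv.ofBijective _ hb).symm⟩

/-- the maximal ideal at the other points is not zero -/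
theorem exists_ne (T : Scheme.{0}) [IsIntegral T] (z : T) (hz : z ≠ genericPoint T) :
    ∃ a : T.presheaf.stalk z, a ≠ 0 ∧ (T.residue z).hom a = 0 := by
  by_contra hcon
  push Not at hcon
  apply hz
  have hbot : IsLocalRing.maximalIdeal (T.presheaf.stalk z) = ⊥ := by
    rw [eq_bot_iff]
    intro a ha
    by_contra h0
    exact hcon a h0 ((IsLocalRing.residue_eq_zero_iff a).2 ha)
  have hr : genericPoint T ∈ Set.range (T.fromSpecStalk z) := by
    rw [Scheme.range_fromSpecStalk]
    exact (genericPoint_spec T).specializes trivial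
  obtain ⟨p, hp⟩ := hr
  have hpc : p = IsLocalRing.closedPoint (T.presheaf.stalk z) := by
    apply PrimeSpectrum.ext
    refine le_antisymm (IsLocalRing.le_maximalIdeal p.2.ne_top) ?_
    show IsLocalRing.maximalIdeal (T.presheaf.stalk z) ≤ p.asIdeal
    rw [hbot]
    exact bot_le
  rw [← hp, hpc]
  exact Scheme.fromSpecStalk_closedPoint.symm

/-- the residue fields at the other points -/
theorem kr_res (hDL : St_DL) (T : Scheme.{0}) [IsIntegral T] (z : T) (hz : z ≠ genericPoint T)
    (d : ℕ) (h : KrLe (d + 1) T.functionField) : KrLe d (T.residueField z) := by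
  obtain ⟨a, ha, ha0⟩ := exists_ne T z hz
  refine hDL (T.presheaf.stalk z) T.functionField (T.residueField z) (T.residue z).hom
    ⟨a, ha, ha0⟩ (fun w => ?_) d h
  obtain ⟨b, hb⟩ := IsLocalRing.residue_surjective (R := T.presheaf.stalk z) w
  refine ⟨b, 1, ?_, ?_⟩
  · rw [map_one]
    exact one_ne_zero
  · rw [map_one, one_mul]
    exact hb.symm

/-- schemes which are proper over `ℤ` are of finite type -/
theorem finType {X : Scheme.{0}} (h : ProperZ X) : FinType ℤ X := by
  obtain ⟨f, hf⟩ := h
  exact ⟨f, inferInstance, inferInstance⟩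

end CO

theorem thm_CO (hDL : St_DL) (hKL : St_KL) (hK0 : St_K0) (hK1 : St_K1) (hK2 : St_K2)
    (hK4 : St_K4) (hT0 : St_T0) (hPII : St_PII) : St_CO := by
  intro X _ hX hreg hkr L _ he n
  have hlow : Low (fun G _ => AddGroup.FG G) 1 := hK0
  obtain ⟨e⟩ := he
  obtain ⟨T, hTi, hT, ⟨eT⟩⟩ := hT0 X (CO.finType hX) (RatFunc L) ⟨e⟩
  obtain ⟨r⟩ := CO.ratFunc eT.symm
  have hXT : Nonempty (X.functionField ≃+* RatFunc T.functionField) := ⟨e.trans r⟩
  have hkT : KrLe 2 T.functionField := hKL T.functionField X.functionField hXT 2 hkr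
  have hkF : KrLe 2 (RatFunc L) := hKL (RatFunc L) X.functionField ⟨e⟩ 2 hkr
  have hkL : KrLe 1 L := hKL L (RatFunc L) ⟨RingEquiv.refl _⟩ 1 hkF
  have hgood : ∀ z : T, Good (fun G _ => AddGroup.FG G) (T.residueField z) := by
    intro z
    by_cases hz : z = genericPoint T
    · subst hz
      obtain ⟨g⟩ := CO.res_gen T
      exact hK4 _ CO.serre_fg 1 hlow _ L ⟨g.trans eT⟩ hkL
    · exact hK2 _ CO.serre_fg 1 hlow _ (CO.kr_res hDL T z hz 1 hkT)
  exact hPII _ CO.serre_fg 1 hlow X T hX hreg hkr hT hXT (hK1 _ CO.serre_fg T hT hgood) n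

end Pool.Agent.BTF
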