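import Pool.Agent.BTF.St3

/-!
# BTF: the exponent two

MP_e17fa799_al (captain helper21). In part (III) `N^e K'_n(X)` can be replaced by `N² K'_n(X)`: modulo `𝒮` only
the points with residue fields of Kronecker dimension `d + 2` and `d + 1` count, so `(π_* π^* - N)²` maps
`T_n(X°)` into the image of `T_n(Z)` for one closed `Z` with residue fields of Kronecker dimension `≤ d`.
-/

set_option autoImplicit false

noncomputable section

namespace Pool.Agent.BTF

open CategoryTheory CategoryTheory.Limits AlgebraicGeometry Pool.Agent.KPR Pool.Agent.KTX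
open Pool.Agent.KGT.W (SerreClass FinType)

/-- **N4b**. `(π_* π^* - N)²` has its image in the image of one closed subscheme of codimension two.
Proof: (see `N4.lean`: `pull_D`, `D_push`, `D_zero`, the notation `D = π_* π^* - N`). Claim: let `Z` be a closed
subscheme of `X` with its base change `p : Y → Z` of `π`. There is a closed `i' : Z' → Z` which contains no
generic point of an irreducible component of `Z`, such that `D a` is in the image of `i'_*` for all
`a ∈ T_n(Z)`, all `n`. Proof of the claim: `Z` has finitely many irreducible components; for each generic point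
`η` let `O_η` be an affine open neighbourhood of `η` in `Z` which does not meet the other components and which
is mapped to an open set `W` as in `LocFree` (a basic open subset; `D_zero` holds for the base change to
any affine scheme over `W`). The `O_η` are disjoint. Let `O` be their union and `Z'` the complement. `D = 0` on
`T_n(O_η)` (`D_zero`), and `T_n(O)` is the product of the `T_n(O_η)` (for a scheme which is the disjoint union of
two open and closed subschemes: `ex` and `bc`: a class which is zero on the second is the push-forward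
of a class on the first, which is its restriction); so `D = 0` on `T_n(O)`, and `ex`. Now use the claim for
`X` and then for `Z = Z'(X)`: `D² a` is in the image of `T_n(Z'')`. A point `z` of `Z''` is a specialisation
`≠` of a generic point `z₁` of `Z'`, which is a specialisation `≠` of the generic point of `X`. So
`KrLe d κ(z)` by `DL` twice (in the local ring of `X` at `z`: primes `0 < q < m`; there are lemmas of this
kind in `G4.lean`, `N2.lean`, `CO.lean`, `K4.lean`). needs: DL -/
def St_N4b : Prop := ∀ (L : LThy.{1}) (d : ℕ) (X X₁ : Scheme.{0}) [IsIntegral X] [IsNoetherian X]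
  (π : X₁ ⟶ X) [IsFinite π] [Flat π] (N : ℕ), LocFree π N → KrLe (d + 2) X.functionField →
  ∃ (Z : Scheme.{0}) (i : Z ⟶ X) (_ : IsClosedImmersion i),
    (∀ z : Z, KrLe d (Z.residueField z)) ∧
    ∀ (n : ℤ) (a : (L.th n).T X), ∃ b : (L.th n).T Z,
      (fun a => (L.th n).push π ((L.th n).pull π a) - N • a)^[2] a = (L.th n).push i b

/-- **ALb**. As `AL`, the exponent two. Proof: as for `AL`: `(θ - N)² a = N² a + ψ (θ a)` (`AL.expand`), so
`N² r(g) = k(b) - ψ (q (p (r g)))` is in the sum of the range of `k` and of `ψ (q (I))`, both in `𝒮`.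
needs: nothing -/
def St_ALb : Prop := ∀ (𝒮 : (G : Type 1) → [AddCommGroup G] → Prop), SerreClass 𝒮 →
  ∀ (G G₀ H E M J : Type 1) [AddCommGroup G] [AddCommGroup G₀] [AddCommGroup H] [AddCommGroup E]
    [AddCommGroup M] [AddCommGroup J] (r : G →+ G₀) (p : G₀ →+ H) (q : H →+ G₀) (u : H →+ E)
    (w : M →+ E) (k : J →+ G₀) (N : ℕ), 𝒮 r.ker → 𝒮 u.ker → 𝒮 M → 𝒮 J →
    (∀ g : G, ∃ m : M, w m = u (p (r g))) →
    (∀ a : G₀, ∃ b : J, (fun a => q (p a) - N • a)^[2] a = k b) → MulIn 𝒮 (N ^ 2) G

/-- **GCb**. As `GC`, the exponent two. needs: nothing -/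
def St_GCb : Prop := ∀ (G : Type 1) [AddCommGroup G] (s : Finset ℕ),
  (∀ N ∈ s, AddGroup.FG (nsmulAddMonoidHom (α := G) (N ^ 2)).range) →
    AddGroup.FG (nsmulAddMonoidHom (α := G) ((s.gcd id) ^ 2)).range

end Pool.Agent.BTF
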