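import Pool.Agent.BTF.St4
import Pool.Agent.BTF.CO
import Pool.Agent.BTF.PI
import Pool.Agent.BTF.St7
import Pool.Agent.KIN.H2

/-!
helper68. Module CO3 of BTF: schemes of dimension three.
-/

set_option autoImplicit false

noncomputable section

namespace Pool.Agent.BTF

open CategoryTheory CategoryTheory.Limits AlgebraicGeometry Pool.Agent.KPR
open Pool.Agent.KGT.W (SerreClass FinType)

namespace CO3

/-- proper schemes are noetherian -/
theorem noeth {X : Scheme.{0}} (h : ProperZ X) : IsNoetherian X := by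
  obtain ⟨f, hf⟩ := h
  exact Pool.Agent.KIN.h2_noeth f

/-- finite covers of proper schemes are of finite type -/
theorem fin {X X₁ : Scheme.{0}} (h : ProperZ X) (π : X₁ ⟶ X) [IsFinite π] : FinType ℤ X₁ := by
  obtain ⟨f, hf⟩ := h
  exact ⟨π ≫ f, inferInstance, inferInstance⟩

/-- finite extensions are algebraic -/
theorem alg {K K' : Type} [Field K] [Field K'] (φ : K →+* K') (N : ℕ) (h : FinDeg φ N) (z : K') :
    ∃ p : Polynomial K, p ≠ 0 ∧ Polynomial.eval₂ φ z p = 0 := by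
  let : Algebra K K' := φ.toAlgebra
  obtain ⟨h1, h3⟩ := h
  have h4 : IsAlgebraic K z := Algebra.IsAlgebraic.isAlgebraic z
  obtain ⟨p, hp, hp0⟩ := h4
  exact ⟨p, hp, hp0⟩

/-- `FinDeg` and isomorphisms -/
theorem finDeg {K K' K'' : Type} [Field K] [Field K'] [Field K''] (φ : K →+* K') (N : ℕ)
    (h : FinDeg φ N) (e : K' ≃+* K'') : FinDeg ((e : K' →+* K'').comp φ) N := by
  obtain ⟨h1, h3⟩ := h
  let i1 : Algebra K K' := φ.toAlgebra
  let i2 : Algebra K K'' := ((e : K' →+* K'').comp φ).toAlgebra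
  let e' : K' ≃ₐ[K] K'' := AlgEquiv.ofRingEquiv (f := e) (fun _ => rfl)
  refine ⟨?_, ?_⟩
  · exact Module.Finite.equiv e'.toLinearEquiv
  · rw [← h3]
    exact (LinearEquiv.finrank_eq e'.toLinearEquiv).symm

/-- the range of multiplication by one -/
theorem one {G : Type 1} [AddCommGroup G] (e : ℕ)
    (h : AddGroup.FG (nsmulAddMonoidHom (α := G) (1 ^ e)).range) : AddGroup.FG G := by
  have hs : Function.Surjective (AddSubgroup.subtype (nsmulAddMonoidHom (α := G) (1 ^ e)).range) := by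
    intro g
    refine ⟨⟨g, g, ?_⟩, rfl⟩
    show (1 ^ e) • g = g
    rw [one_pow, one_smul]
  exact AddGroup.fg_of_surjective hs

end CO3

theorem thm_CO3 (hDL : St_DL) (hKL : St_KL) (hKA : St_KA) (hK0 : St_K0) (hK1 : St_K1)
    (hK2 : St_K2) (hK4 : St_K4) (hT0 : St_T0) (hNR : St_NR) (hNN : St_NN) (hPIII : St_PIII)
    (hGCb : St_GCb) : St_CO3 := by
  intro X _ hX hreg hkr s hs n
  have hlow : Low (fun G _ => AddGroup.FG G) 1 := hK0
  have hnoe : IsNoetherian X := CO3.noeth hX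
  have hfX : FinType ℤ X := by
    obtain ⟨f, hf⟩ := id hX
    exact ⟨f, inferInstance, inferInstance⟩
  have hD := (hPIII _ CO.serre_fg 1 hlow).2
  have h1 : AddGroup.FG (nsmulAddMonoidHom (α := KX n X) ((s.gcd id) ^ 2)).range := by
    refine hGCb (KX n X) s ?_
    intro N hN
    obtain ⟨M, _, φ, hφ, hM⟩ := hs N hN
    obtain ⟨X₁, hX₁, π, hπ, ε, -, -⟩ := hNN X hfX (hNR X hreg) (RatFunc M) φ N hφ
    obtain ⟨T, hTi, hT, ⟨eT⟩⟩ := hT0 X₁ (CO3.fin hX π) M ⟨ε⟩
    obtain ⟨r⟩ := CO.ratFunc eT.symm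
    have hkE : KrLe 3 (RatFunc M) :=
      hKA X.functionField (RatFunc M) φ (CO3.alg φ N hφ) 3 hkr
    have hkT : KrLe 2 T.functionField := hKL T.functionField (RatFunc M) ⟨r⟩ 2 hkE
    have hkF : KrLe 2 M := hKL M (RatFunc M) ⟨RingEquiv.refl _⟩ 2 hkE
    have hgood : ∀ z : T, Good (fun G _ => AddGroup.FG G) (T.residueField z) := by
      intro z
      by_cases hz : z = genericPoint T
      · subst hz
        obtain ⟨g⟩ := CO.res_gen T
        rcases hM with hM | ⟨L, _, ⟨eL⟩⟩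
        · refine hK2 _ CO.serre_fg 1 hlow _ ?_
          exact PI.krLe_of_equiv (g.trans eT).symm 1 hM
        · have hkL : KrLe 1 L := hKL L M ⟨eL⟩ 1 hkF
          exact hK4 _ CO.serre_fg 1 hlow _ L ⟨(g.trans eT).trans eL⟩ hkL
      · exact hK2 _ CO.serre_fg 1 hlow _ (CO.kr_res hDL T z hz 1 hkT)
    exact hD X T hX hreg hkr hT ((r : RatFunc M →+* RatFunc T.functionField).comp φ) N
      (CO3.finDeg φ N hφ r) n (hK1 _ CO.serre_fg T hT hgood n)
  refine ⟨h1, fun hg => ?_⟩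
  rw [hg] at h1
  exact CO3.one 2 h1

end Pool.Agent.BTF
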