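import Pool.Agent.BTF.St8
import Pool.Agent.BTF.CO3

/-!
helper40. Module CO3B of BTF: schemes of dimension three over a base.
-/

set_option autoImplicit false

noncomputable section

namespace Pool.Agent.BTF

open CategoryTheory CategoryTheory.Limits AlgebraicGeometry Pool.Agent.KPR Pool.Agent.KTX
open Pool.Agent.KGT.W (SerreClass FinType)

namespace CO3B

/-- schemes which are proper over a scheme of finite type are of finite type -/
theorem finType {X B : Scheme.{0}} (f : X ⟶ B) [IsProper f] (h : FinType ℤ B) : FinType ℤ X := by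
  obtain ⟨g, h1, h2⟩ := h
  exact ⟨f ≫ g, inferInstance, inferInstance⟩

/-- schemes of finite type are noetherian -/
theorem noeth {X : Scheme.{0}} (h : FinType ℤ X) : IsNoetherian X := by
  obtain ⟨f, h1, h2⟩ := h
  exact Pool.Agent.KIN.h2_noeth f

/-- finite covers are of finite type -/
theorem fin {X X₁ : Scheme.{0}} (h : FinType ℤ X) (π : X₁ ⟶ X) [IsFinite π] : FinType ℤ X₁ := by
  obtain ⟨f, h1, h2⟩ := h
  exact ⟨π ≫ f, inferInstance, inferInstance⟩

/-- rational function fields of isomorphic fields -/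
theorem ratFunc {F F' : Type} [Field F] [Field F'] (e : F ≃+* F') :
    ∃ r : RatFunc F ≃+* RatFunc F', (r : RatFunc F →+* RatFunc F').comp
      (algebraMap F (RatFunc F)) = (algebraMap F' (RatFunc F')).comp (e : F →+* F') := by
  refine ⟨IsFractionRing.ringEquivOfRingEquiv (K := RatFunc F) (L := RatFunc F')
    (Polynomial.mapEquiv e), ?_⟩
  ext a
  show IsFractionRing.ringEquivOfRingEquiv (K := RatFunc F) (L := RatFunc F')
    (Polynomial.mapEquiv e) (algebraMap F (RatFunc F) a) = algebraMap F' (RatFunc F') (e a)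
  rw [IsScalarTower.algebraMap_apply F (Polynomial F) (RatFunc F),
    IsFractionRing.ringEquivOfRingEquiv_algebraMap,
    IsScalarTower.algebraMap_apply F' (Polynomial F') (RatFunc F')]
  congr 1
  show Polynomial.mapEquiv e (Polynomial.C a) = Polynomial.C (e a)
  simp

/-- `Sm` and composition -/
theorem Sm_comp {R S T : Type} [CommRing R] [CommRing S] [CommRing T] (f : R →+* S) (g : S →+* T) :
    Sm (g.comp f) = Sm g ≫ Sm f := by
  rw [← Spec.map_comp]
  rfl

end CO3B

theorem thm_CO3B (hDL : St_DL) (hKL : St_KL) (hKA : St_KA) (hK0 : St_K0) (hK1 : St_K1)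
    (hK2 : St_K2) (hK4 : St_K4) (hT0B : St_T0B) (hNR : St_NR) (hNN : St_NN) (hPIIIB : St_PIIIB)
    (hGCb : St_GCb) : St_CO3B := by
  intro X B _ _ f _ hB hreg hkr s hs n
  have hlow : Low (fun G _ => AddGroup.FG G) 1 := hK0
  have hfX : FinType ℤ X := CO3B.finType f hB
  have hnoe : IsNoetherian X := CO3B.noeth hfX
  have hD := (hPIIIB _ CO.serre_fg 1 hlow).2
  have h1 : AddGroup.FG (nsmulAddMonoidHom (α := KX n X) ((s.gcd id) ^ 2)).range := by
    refine hGCb (KX n X) s ?_
    intro N hN
    obtain ⟨M, _, β, φ, hφ, hβ, hM⟩ := hs N hN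
    obtain ⟨X₁, hX₁, π, hπ, ε, -, -⟩ := hNN X hfX (hNR X hreg) (RatFunc M) φ N hφ
    obtain ⟨T, hTi, h, eT, hT, hTβ⟩ := hT0B X₁ B (CO3B.fin hfX π) hB M β ⟨ε⟩
    obtain ⟨r, hr⟩ := CO3B.ratFunc eT.symm
    have hkE : KrLe 3 (RatFunc M) :=
      hKA X.functionField (RatFunc M) φ (CO3.alg φ N hφ) 3 hkr
    have hkT : KrLe 2 T.functionField := hKL T.functionField (RatFunc M) ⟨r⟩ 2 hkE
    have hkF : KrLe 2 M := hKL M (RatFunc M) ⟨RingEquiv.refl _⟩ 2 hkE
    have hgood : ∀ z : T, Good (fun G _ => AddGroup.FG G) (T.residueField z) := by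
      intro z
      by_cases hz : z = genericPoint T
      · subst hz
        obtain ⟨g⟩ := CO.res_gen T
        rcases hM with hM | ⟨L, _, ⟨eL⟩⟩
        · refine hK2 _ CO.serre_fg 1 hlow _ ?_
          exact PI.krLe_of_equiv (g.trans eT).symm 1 hM
        · have hkL : KrLe 1 L := hKL L M ⟨eL⟩ 1 hkF
          exact hK4 _ CO.serre_fg 1 hlow _ L ⟨(g.trans eT).trans eL⟩ hkL
      · exact hK2 _ CO.serre_fg 1 hlow _ (CO.kr_res hDL T z hz 1 hkT)
    have hcomp : etaX ((r : RatFunc M →+* RatFunc T.functionField).comp φ) ≫ f =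
        etaT T ≫ h := by
      have h2 : etaX ((r : RatFunc M →+* RatFunc T.functionField).comp φ) =
          Sm (r : RatFunc M →+* RatFunc T.functionField) ≫ etaX φ := by
        show Sm ((r : RatFunc M →+* RatFunc T.functionField).comp φ) ≫
          X.fromSpecStalk (genericPoint X) = _
        rw [CO3B.Sm_comp, Category.assoc]
        rfl
      have h3 : etaT T = Sm (algebraMap T.functionField (RatFunc T.functionField)) ≫
          T.fromSpecStalk (genericPoint T) := rfl
      rw [h2, Category.assoc, hβ, h3, Category.assoc, hTβ, ← Category.assoc, ← CO3B.Sm_comp, hr,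
        CO3B.Sm_comp, Category.assoc]
    exact hD X T B f h hB hreg hkr hT ((r : RatFunc M →+* RatFunc T.functionField).comp φ) N
      (CO3.finDeg φ N hφ r) hcomp n (hK1 _ CO.serre_fg T hT hgood n)
  refine ⟨h1, fun hg => ?_⟩
  rw [hg] at h1
  exact CO3.one 2 h1

end Pool.Agent.BTF
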