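import Pool.Agent.BTF.St9

/-!
# BTF, module GCS (helper21): greatest common divisors, for Serre classes
-/

set_option autoImplicit false

noncomputable section

namespace Pool.Agent.BTF

open Pool.Agent.KGT.W (SerreClass)

namespace GCS

variable {𝒮 : (G : Type 1) → [AddCommGroup G] → Prop}

theorem sub (h𝒮 : SerreClass 𝒮) {A B : Type 1} [AddCommGroup A] [AddCommGroup B] (i : A →+ B)
    (hi : Function.Injective i) (hB : 𝒮 B) : 𝒮 A := by
  refine h𝒮.exact PUnit.{2} A B 0 i (fun x => ?_) (h𝒮.zero PUnit.{2}) hB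
  constructor
  · intro h
    exact ⟨PUnit.unit, ((injective_iff_map_eq_zero i).1 hi x h).symm⟩
  · rintro ⟨y, rfl⟩
    rw [AddMonoidHom.zero_apply, map_zero]

theorem quo (h𝒮 : SerreClass 𝒮) {A B : Type 1} [AddCommGroup A] [AddCommGroup B] (p : A →+ B)
    (hp : Function.Surjective p) (hA : 𝒮 A) : 𝒮 B := by
  refine h𝒮.exact A B PUnit.{2} p 0 (fun x => ?_) hA (h𝒮.zero PUnit.{2})
  exact ⟨fun _ => hp x, fun _ => rfl⟩

theorem prod (h𝒮 : SerreClass 𝒮) {A B : Type 1} [AddCommGroup A] [AddCommGroup B]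
    (hA : 𝒮 A) (hB : 𝒮 B) : 𝒮 (A × B) := by
  refine h𝒮.exact A (A × B) B (AddMonoidHom.inl A B) (AddMonoidHom.snd A B) (fun x => ?_) hA hB
  constructor
  · intro h
    exact ⟨x.1, Prod.ext rfl h.symm⟩
  · rintro ⟨y, rfl⟩
    rfl

/-- subgroups of a sum of two subgroups in the class -/
theorem sup (h𝒮 : SerreClass 𝒮) {G : Type 1} [AddCommGroup G] (A B C : AddSubgroup G)
    (hA : 𝒮 A) (hB : 𝒮 B) (h : C ≤ A ⊔ B) : 𝒮 C := by
  have h1 : 𝒮 (A ⊔ B : AddSubgroup G) := by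
    let f : A × B →+ (A ⊔ B : AddSubgroup G) :=
      (A.subtype.coprod B.subtype).codRestrict _ (by
        rintro ⟨a, b⟩
        exact AddSubgroup.add_mem _ (AddSubgroup.mem_sup_left a.2) (AddSubgroup.mem_sup_right b.2))
    refine quo h𝒮 f ?_ (prod h𝒮 hA hB)
    rintro ⟨x, hx⟩
    obtain ⟨a, ha, b, hb, rfl⟩ := AddSubgroup.mem_sup.1 hx
    exact ⟨(⟨a, ha⟩, ⟨b, hb⟩), rfl⟩
  exact sub h𝒮 (AddSubgroup.inclusion h) (AddSubgroup.inclusion_injective h) h1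

theorem two (h𝒮 : SerreClass 𝒮) (G : Type 1) [AddCommGroup G] (N m : ℕ)
    (hN : MulIn 𝒮 (N ^ 2) G) (hm : MulIn 𝒮 (m ^ 2) G) : MulIn 𝒮 ((Nat.gcd N m) ^ 2) G := by
  refine sup h𝒮 (nsmulAddMonoidHom (α := G) (N ^ 2)).range
    (nsmulAddMonoidHom (α := G) (m ^ 2)).range _ hN hm ?_
  rintro _ ⟨x, rfl⟩
  have hk : (Nat.gcd N m) ^ 2 = Nat.gcd (N ^ 2) (m ^ 2) := Nat.pow_gcd_pow.symm
  have hz : ((Nat.gcd N m) ^ 2) • x =
      (Nat.gcdA (N ^ 2) (m ^ 2)) • ((N ^ 2) • x) +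
      (Nat.gcdB (N ^ 2) (m ^ 2)) • ((m ^ 2) • x) := by
    rw [hk, ← natCast_zsmul x (Nat.gcd _ _), Nat.gcd_eq_gcd_ab, add_zsmul,
      ← natCast_zsmul x (N ^ 2), ← natCast_zsmul x (m ^ 2), smul_smul, smul_smul,
      mul_comm, mul_comm ((m ^ 2 : ℕ) : ℤ)]
  change ((Nat.gcd N m) ^ 2) • x ∈ _
  rw [hz]
  refine AddSubgroup.add_mem _ ?_ ?_
  · refine AddSubgroup.mem_sup_left (AddSubgroup.zsmul_mem _ ?_ _)
    exact ⟨x, rfl⟩
  · refine AddSubgroup.mem_sup_right (AddSubgroup.zsmul_mem _ ?_ _)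
    exact ⟨x, rfl⟩

end GCS

theorem thm_GCS : St_GCS := by
  intro 𝒮 h𝒮 G _ s
  induction s using Finset.induction_on with
  | empty =>
    intro _
    have h0 : Subsingleton (nsmulAddMonoidHom (α := G) (((∅ : Finset ℕ).gcd id) ^ 2)).range := by
      constructor
      rintro ⟨_, x, rfl⟩ ⟨_, y, rfl⟩
      apply Subtype.ext
      simp
    exact h𝒮.zero _
  | insert N s hNs ih =>
    intro hs
    have h := GCS.two h𝒮 G N (s.gcd id) (hs N (Finset.mem_insert_self N s))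
      (ih (fun M hM => hs M (Finset.mem_insert_of_mem hM)))
    rw [Finset.gcd_insert]
    exact h

end Pool.Agent.BTF
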