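import Pool.Agent.BTF.St9
import Pool.Agent.BTF.GCS
import Pool.Agent.BTF.CO3B

/-!
# BTF, module CO9 (helper21, from CO3 and CO3B of helper68 and helper40): (IV) for all Serre classes
-/

set_option autoImplicit false

noncomputable section

namespace Pool.Agent.BTF

open CategoryTheory CategoryTheory.Limits AlgebraicGeometry Pool.Agent.KPR Pool.Agent.KTX
open Pool.Agent.KGT.W (SerreClass FinType)

theorem thm_CO9 (hDL : St_DL) (hKL : St_KL) (hKA : St_KA) (hK1 : St_K1)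
    (hK2 : St_K2) (hK4 : St_K4) (hT0B : St_T0B) (hNR : St_NR) (hNN : St_NN) (hPIIIB : St_PIIIB)
    (hGCS : St_GCS) : St_CO9 := by
  intro 𝒮 h𝒮 d hlow X B _ _ f _ hB hreg hkr s hs n
  have hfX : FinType ℤ X := CO3B.finType f hB
  have hnoe : IsNoetherian X := CO3B.noeth hfX
  have hD := (hPIIIB 𝒮 h𝒮 d hlow).2
  have h1 : MulIn 𝒮 ((s.gcd id) ^ 2) (KX n X) := by
    refine hGCS 𝒮 h𝒮 (KX n X) s ?_
    intro N hN
    obtain ⟨M, _, β, φ, hφ, hβ, hM⟩ := hs N hN
    obtain ⟨X₁, hX₁, π, hπ, ε, -, -⟩ := hNN X hfX (hNR X hreg) (RatFunc M) φ N hφ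
    obtain ⟨T, hTi, h, eT, hT, hTβ⟩ := hT0B X₁ B (CO3B.fin hfX π) hB M β ⟨ε⟩
    obtain ⟨r, hr⟩ := CO3B.ratFunc eT.symm
    have hkE : KrLe (d + 2) (RatFunc M) :=
      hKA X.functionField (RatFunc M) φ (CO3.alg φ N hφ) (d + 2) hkr
    have hkT : KrLe (d + 1) T.functionField :=
      hKL T.functionField (RatFunc M) ⟨r⟩ (d + 1) hkE
    have hkF : KrLe (d + 1) M := hKL M (RatFunc M) ⟨RingEquiv.refl _⟩ (d + 1) hkE
    have hgood : ∀ z : T, Good 𝒮 (T.residueField z) := by
      intro z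
      by_cases hz : z = genericPoint T
      · subst hz
        obtain ⟨g⟩ := CO.res_gen T
        rcases hM with hM | ⟨L, _, ⟨eL⟩⟩
        · refine hK2 _ h𝒮 d hlow _ ?_
          exact PI.krLe_of_equiv (g.trans eT).symm d hM
        · have hkL : KrLe d L := hKL L M ⟨eL⟩ d hkF
          exact hK4 _ h𝒮 d hlow _ L ⟨(g.trans eT).trans eL⟩ hkL
      · exact hK2 _ h𝒮 d hlow _ (CO.kr_res hDL T z hz d hkT)
    have hcomp : etaX ((r : RatFunc M →+* RatFunc T.functionField).comp φ) ≫ f =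
        etaT T ≫ h := by
      have h2 : etaX ((r : RatFunc M →+* RatFunc T.functionField).comp φ) =
          Sm (r : RatFunc M →+* RatFunc T.functionField) ≫ etaX φ := by
        show Sm ((r : RatFunc M →+* RatFunc T.functionField).comp φ) ≫
          X.fromSpecStalk (genericPoint X) = _
        rw [CO3B.Sm_comp, Category.assoc]
        rfl
      have h3 : etaT T = Sm (algebraMap T.functionField (RatFunc T.functionField)) ≫
          T.fromSpecStalk (genericPoint T) := rfl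
      rw [h2, Category.assoc, hβ, h3, Category.assoc, hTβ, ← Category.assoc, ← CO3B.Sm_comp, hr,
        CO3B.Sm_comp, Category.assoc]
    exact hD X T B f h hB hreg hkr hT ((r : RatFunc M →+* RatFunc T.functionField).comp φ) N
      (CO3.finDeg φ N hφ r) hcomp n (hK1 𝒮 h𝒮 T hT hgood n)
  refine ⟨h1, fun hg => ?_⟩
  rw [hg] at h1
  refine GCS.quo h𝒮 (nsmulAddMonoidHom (α := KX n X) (1 ^ 2)).range.subtype ?_ h1
  intro g
  refine ⟨⟨g, g, ?_⟩, rfl⟩
  show (1 ^ 2) • g = g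
  rw [one_pow, one_smul]

end Pool.Agent.BTF
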