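import Pool.Agent.BTF.St

/-!
# BTF: module DL, residue fields at non-zero primes lower the Kronecker dimension
-/

set_option autoImplicit false

noncomputable section

namespace Pool.Agent.BTF

namespace DL

open Cardinal

/-- the transcendence degree over the prime field is the one over a ring which maps to it -/
theorem trdeg_bot (R L : Type) [CommRing R] [IsDomain R] [Field L] [Algebra R L]
    [FaithfulSMul R L] (h : ∀ r : R, algebraMap R L r ∈ (⊥ : Subfield L)) :
    Algebra.trdeg R L = Algebra.trdeg (⊥ : Subfield L) L := by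
  let _ : Algebra R (⊥ : Subfield L) :=
    ((algebraMap R L).codRestrict (⊥ : Subfield L) h).toAlgebra
  have : IsScalarTower R (⊥ : Subfield L) L := IsScalarTower.of_algebraMap_eq fun _ => rfl
  have : FaithfulSMul R (⊥ : Subfield L) := by
    rw [faithfulSMul_iff_algebraMap_injective]
    intro a b hab
    exact FaithfulSMul.algebraMap_injective R L (congrArg Subtype.val hab)
  have halg : ∀ x : L, x ∈ (⊥ : Subfield L) → IsAlgebraic R x := by
    let F : Subfield L :=
      { carrier := {x | IsAlgebraic R x}
        mul_mem' := fun ha hb => ha.mul hb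
        one_mem' := isAlgebraic_one
        add_mem' := fun ha hb => ha.add hb
        zero_mem' := isAlgebraic_zero
        neg_mem' := fun ha => ha.neg
        inv_mem' := fun x hx => hx.inv }
    intro x hx
    exact (bot_le : (⊥ : Subfield L) ≤ F) hx
  have : Algebra.IsAlgebraic R (⊥ : Subfield L) := ⟨fun x =>
    (isAlgebraic_algebraMap_iff (FaithfulSMul.algebraMap_injective (⊥ : Subfield L) L)).1
      (halg x x.2)⟩
  have h1 := trdeg_add_eq R (⊥ : Subfield L) (A := L)
  rw [trdeg_eq_zero, zero_add] at h1
  exact h1.symm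

theorem trdeg_int (L : Type) [Field L] [CharZero L] :
    Algebra.trdeg ℤ L = Algebra.trdeg (⊥ : Subfield L) L := by
  have : FaithfulSMul ℤ L := by
    rw [faithfulSMul_iff_algebraMap_injective]
    exact (algebraMap ℤ L).injective_int
  refine trdeg_bot ℤ L fun r => ?_
  rw [eq_intCast]
  exact intCast_mem _ r

theorem trdeg_zmod (p : ℕ) [Fact p.Prime] (L : Type) [Field L] [Algebra (ZMod p) L] :
    Algebra.trdeg (ZMod p) L = Algebra.trdeg (⊥ : Subfield L) L := by
  refine trdeg_bot (ZMod p) L fun r => ?_
  rw [← ZMod.natCast_zmod_val r, map_natCast]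
  exact natCast_mem _ _

/-- a transcendence basis in the image -/
theorem basis (k κ : Type) [CommRing k] [IsDomain k] [Field κ] [Algebra k κ] [FaithfulSMul k κ]
    (T : Set κ) (hfr : ∀ z : κ, ∃ u ∈ T, ∃ v ∈ T, v ≠ 0 ∧ v * z = u) :
    ∃ t : Set κ, t ⊆ T ∧ IsTranscendenceBasis k ((↑) : t → κ) := by
  have : Algebra.IsAlgebraic (Algebra.adjoin k T) κ := by
    refine ⟨fun z => ?_⟩
    obtain ⟨u, hu, v, hv, hv0, hz⟩ := hfr z
    let u' : Algebra.adjoin k T := ⟨u, Algebra.subset_adjoin hu⟩
    let v' : Algebra.adjoin k T := ⟨v, Algebra.subset_adjoin hv⟩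
    refine ⟨Polynomial.C v' * Polynomial.X - Polynomial.C u', ?_, ?_⟩
    · intro h0
      have h1 := congrArg (fun q => Polynomial.coeff q 1) h0
      simp only [Polynomial.coeff_sub, Polynomial.coeff_C_mul, Polynomial.coeff_X_one, mul_one,
        Polynomial.coeff_C_succ, sub_zero, Polynomial.coeff_zero] at h1
      exact hv0 (congrArg Subtype.val h1)
    · rw [map_sub, map_mul, Polynomial.aeval_C, Polynomial.aeval_C, Polynomial.aeval_X]
      show v * z - u = 0
      rw [hz, sub_self]
  exact exists_isTranscendenceBasis_subset T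

/-- the case of equal characteristic -/
theorem opt (k A κ K : Type) [CommRing k] [IsDomain k] [CommRing A] [IsDomain A] [Field κ]
    [Field K] [Algebra k A] [Algebra k κ] [Algebra k K] [Algebra A K] [IsScalarTower k A K]
    [FaithfulSMul k κ] (hAK : Function.Injective (algebraMap A K)) (π : A →ₐ[k] κ) (a : A)
    (ha : a ≠ 0) (hπ : π a = 0) (hfr : ∀ z : κ, ∃ a b : A, π b ≠ 0 ∧ π b * z = π a) :
    Algebra.trdeg k κ + 1 ≤ Algebra.trdeg k K := by
  obtain ⟨t, ht, hb⟩ := basis k κ (Set.range π) (by
    intro z
    obtain ⟨a, b, h1, h2⟩ := hfr z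
    exact ⟨π a, ⟨a, rfl⟩, π b, ⟨b, rfl⟩, h1, h2⟩)
  choose y hy using fun i : t => ht i.2
  have hcomp : (π ∘ y) = ((↑) : t → κ) := funext hy
  have hyi : AlgebraicIndependent k y := by
    refine AlgebraicIndependent.of_comp π ?_
    rw [hcomp]
    exact hb.1
  have hinj : ∀ b : Algebra.adjoin k (Set.range y), π (b : A) = 0 → b = 0 := by
    rintro ⟨b, hb'⟩ h0
    rw [Algebra.adjoin_range_eq_range_aeval] at hb'
    obtain ⟨P, rfl⟩ := hb'
    have h1 : MvPolynomial.aeval ((↑) : t → κ) P = 0 := by
      rw [← hcomp]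
      have h2 : MvPolynomial.aeval (π ∘ y) P = π (MvPolynomial.aeval y P) :=
        (MvPolynomial.comp_aeval_apply y π P).symm
      rw [h2]
      exact h0
    have h3 : P = 0 := (algebraicIndependent_iff.1 hb.1) P h1
    apply Subtype.ext
    show MvPolynomial.aeval y P = 0
    rw [h3, map_zero]
  have htr : Transcendental (Algebra.adjoin k (Set.range y)) a := by
    have key : ∀ (n : ℕ) (q : Polynomial (Algebra.adjoin k (Set.range y))), q.natDegree ≤ n →
        Polynomial.aeval a q = 0 → q = 0 := by
      intro n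
      induction n with
      | zero =>
        intro q hq h0
        have h1 := Polynomial.eq_C_of_natDegree_le_zero hq
        rw [h1, Polynomial.aeval_C] at h0
        have h2 : q.coeff 0 = 0 := Subtype.ext h0
        rw [h1, h2, Polynomial.C_0]
      | succ n ih =>
        intro q hq h0
        have h1 := Polynomial.divX_mul_X_add q
        rw [← h1, map_add, map_mul, Polynomial.aeval_X, Polynomial.aeval_C] at h0
        have h2 : π ((q.coeff 0 : Algebra.adjoin k (Set.range y)) : A) = 0 := by
          have h3 := congrArg π h0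
          rw [map_add, map_mul, hπ, mul_zero, zero_add, map_zero] at h3
          exact h3
        have h4 := hinj _ h2
        rw [h4, map_zero, add_zero] at h0
        rcases mul_eq_zero.1 h0 with h5 | h5
        · have h6 := ih q.divX (by
            rw [Polynomial.natDegree_divX_eq_natDegree_tsub_one]
            omega) h5
          rw [← h1, h6, h4, zero_mul, Polynomial.C_0, add_zero]
        · exact absurd h5 ha
    rintro ⟨q, hq0, hq⟩
    exact hq0 (key q.natDegree q le_rfl hq)
  have hopt := (hyi.option_iff_transcendental a).2 htr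
  have hopt' := hopt.map' (f := IsScalarTower.toAlgHom k A K) hAK
  have hc := hopt'.cardinalMk_le_trdeg
  rw [Cardinal.mk_option, hb.cardinalMk_eq_trdeg] at hc
  exact hc

/-- the case of mixed characteristic -/
theorem mixed (p : ℕ) [Fact p.Prime] (A κ K : Type) [CommRing A] [IsDomain A] [Field κ]
    [Field K] [CharZero K] [Algebra (ZMod p) κ] [Algebra A K]
    (hAK : Function.Injective (algebraMap A K)) (π : A →+* κ)
    (hfr : ∀ z : κ, ∃ a b : A, π b ≠ 0 ∧ π b * z = π a) :
    Algebra.trdeg (ZMod p) κ ≤ Algebra.trdeg ℤ K := by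
  have hp : p.Prime := Fact.out
  have : CharZero A := by
    refine ⟨fun m n hmn => ?_⟩
    have h1 := congrArg (algebraMap A K) hmn
    rw [map_natCast, map_natCast] at h1
    exact_mod_cast h1
  obtain ⟨t, ht, hb⟩ := basis (ZMod p) κ (Set.range π) (by
    intro z
    obtain ⟨a, b, h1, h2⟩ := hfr z
    exact ⟨π a, ⟨a, rfl⟩, π b, ⟨b, rfl⟩, h1, h2⟩)
  choose y hy using fun i : t => ht i.2
  have hcomp : (π ∘ y) = ((↑) : t → κ) := funext hy
  have hstep : ∀ Q : MvPolynomial t ℤ, MvPolynomial.aeval y Q = 0 →
      MvPolynomial.C (p : ℤ) ∣ Q := by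
    intro Q hQ
    rw [MvPolynomial.C_dvd_iff_zmod]
    apply (algebraicIndependent_iff.1 hb.1)
    have h1 : MvPolynomial.aeval ((↑) : t → κ)
        (MvPolynomial.map (Int.castRingHom (ZMod p)) Q) = π (MvPolynomial.aeval y Q) := by
      rw [MvPolynomial.aeval_def, MvPolynomial.aeval_def, MvPolynomial.eval₂_map,
        MvPolynomial.eval₂_comp_left, hcomp]
      congr 1
      exact RingHom.ext_int _ _
    rw [h1, hQ, map_zero]
  have hpA : (p : A) ≠ 0 := by
    exact_mod_cast hp.ne_zero
  have hpow : ∀ (m : ℕ) (Q : MvPolynomial t ℤ), MvPolynomial.aeval y Q = 0 →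
      MvPolynomial.C ((p : ℤ) ^ m) ∣ Q := by
    intro m
    induction m with
    | zero =>
      intro Q _
      rw [pow_zero, MvPolynomial.C_1]
      exact one_dvd _
    | succ m ih =>
      intro Q hQ
      obtain ⟨Q1, rfl⟩ := ih Q hQ
      rw [map_mul, MvPolynomial.aeval_C] at hQ
      have h1 : MvPolynomial.aeval y Q1 = 0 := by
        rcases mul_eq_zero.1 hQ with h2 | h2
        · exfalso
          rw [map_pow, eq_intCast, Int.cast_natCast] at h2
          exact pow_ne_zero m hpA h2
        · exact h2
      obtain ⟨Q2, rfl⟩ := hstep Q1 h1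
      refine ⟨Q2, ?_⟩
      rw [pow_succ, MvPolynomial.C_mul, mul_assoc]
  have hyi : AlgebraicIndependent ℤ y := by
    rw [algebraicIndependent_iff]
    intro P hP
    ext s
    rw [MvPolynomial.coeff_zero]
    obtain ⟨Q, hQ⟩ := hpow (MvPolynomial.coeff s P).natAbs P hP
    have h1 : (p : ℤ) ^ (MvPolynomial.coeff s P).natAbs ∣ MvPolynomial.coeff s P := by
      refine ⟨MvPolynomial.coeff s Q, ?_⟩
      conv_lhs => rw [hQ]
      rw [MvPolynomial.coeff_C_mul]
    refine Int.eq_zero_of_dvd_of_natAbs_lt_natAbs h1 ?_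
    rw [Int.natAbs_pow, Int.natAbs_natCast]
    exact Nat.lt_pow_self hp.one_lt
  have hy' := hyi.map' (f := IsScalarTower.toAlgHom ℤ A K) hAK
  have hc := hy'.cardinalMk_le_trdeg
  rw [hb.cardinalMk_eq_trdeg] at hc
  exact hc

private theorem card_aux (x : Cardinal.{0}) (d : ℕ) (h : x + 1 ≤ ((d + 1 : ℕ) : Cardinal)) :
    x ≤ d := by
  have h1 : x < ℵ₀ := lt_of_le_of_lt ((self_le_add_right x 1).trans h) (Cardinal.natCast_lt_aleph0)
  obtain ⟨n, rfl⟩ := Cardinal.lt_aleph0.1 h1
  have h2 : n + 1 ≤ d + 1 := by exact_mod_cast h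
  exact_mod_cast Nat.le_of_succ_le_succ h2

end DL

open DL in
/-- **DL**. Residue fields at non-zero primes. -/
theorem thm_DL : St_DL := by
  intro A K κ _ _ _ _ _ _ π ha hfr d hK
  obtain ⟨a, ha0, hπ⟩ := ha
  have hAK : Function.Injective (algebraMap A K) := IsFractionRing.injective A K
  obtain ⟨q, hq⟩ := CharP.exists κ
  rcases CharP.char_is_prime_or_zero κ q with hqp | rfl
  · -- positive characteristic
    have : Fact q.Prime := ⟨hqp⟩
    let _ : Algebra (ZMod q) κ := ZMod.algebra κ q
    have hnz : ¬ CharZero κ := by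
      intro hz
      have h1 : (q : κ) = 0 := CharP.cast_eq_zero κ q
      exact hqp.ne_zero (by exact_mod_cast h1)
    suffices h : Algebra.trdeg (ZMod q) κ ≤ d by
      rw [trdeg_zmod q κ] at h
      exact ⟨h, fun hz => absurd hz hnz⟩
    obtain ⟨r, hr⟩ := CharP.exists K
    rcases CharP.char_is_prime_or_zero K r with hrp | rfl
    · have hrq : r = q := by
        have h1 : (r : A) = 0 := by
          apply hAK
          rw [map_natCast, map_zero]
          exact CharP.cast_eq_zero K r
        have h2 : (r : κ) = 0 := by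
          rw [← map_natCast π, h1, map_zero]
        have h3 : q ∣ r := (CharP.cast_eq_zero_iff κ q r).1 h2
        exact ((Nat.prime_dvd_prime_iff_eq hqp hrp).1 h3).symm
      subst hrq
      have hcA : CharP A r := RingHom.charP (algebraMap A K) hAK r
      let _ : Algebra (ZMod r) K := ZMod.algebra K r
      let _ : Algebra (ZMod r) A := ZMod.algebra A r
      have : IsScalarTower (ZMod r) A K := by
        refine IsScalarTower.of_algebraMap_eq' ?_
        exact Subsingleton.elim _ _
      let π' : A →ₐ[ZMod r] κ :=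
        { toRingHom := π
          commutes' := fun z => by
            have : π.comp (algebraMap (ZMod r) A) = algebraMap (ZMod r) κ := Subsingleton.elim _ _
            exact congrArg (fun f => f z) this }
      have h4 := opt (ZMod r) A κ K hAK π' a ha0 hπ hfr
      rw [trdeg_zmod r K] at h4
      refine card_aux _ d (h4.trans ?_)
      exact_mod_cast hK.1
    · have : CharZero K := CharP.charP_to_charZero K
      have h4 := mixed q A κ K hAK π hfr
      rw [trdeg_int K] at h4
      refine h4.trans (card_aux _ d ?_)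
      exact_mod_cast hK.2 this
  · have hκ : CharZero κ := CharP.charP_to_charZero κ
    have hA : CharZero A := by
      refine ⟨fun m n hmn => ?_⟩
      have h1 := congrArg π hmn
      rw [map_natCast, map_natCast] at h1
      exact_mod_cast h1
    have hK0 : CharZero K := charZero_of_injective_algebraMap hAK
    have : FaithfulSMul ℤ κ := by
      rw [faithfulSMul_iff_algebraMap_injective]
      exact (algebraMap ℤ κ).injective_int
    let π' : A →ₐ[ℤ] κ := π.toIntAlgHom
    have h4 := opt ℤ A κ K hAK π' a ha0 hπ hfr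
    rw [trdeg_int K, trdeg_int κ] at h4
    have h5 : Algebra.trdeg (⊥ : Subfield K) K ≤ d := card_aux _ d (by exact_mod_cast hK.2 hK0)
    have h6 := h4.trans h5
    exact ⟨(self_le_add_right _ _).trans h6, fun _ => h6⟩

end Pool.Agent.BTF
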