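import Pool.Agent.BTF.St

/-!
# BTF, DV: a regular local domain all of whose non-zero primes are maximal is a field or a discrete
valuation ring
-/

set_option autoImplicit false

noncomputable section

namespace Pool.Agent.BTF

/-- **DV** -/
theorem thm_DV : St_DV := by
  intro O _ _ hreg hq hnf
  have h1 : Module.finrank (IsLocalRing.ResidueField O) (IsLocalRing.CotangentSpace O) =
      ringKrullDim O := (IsRegularLocalRing.iff_finrank_cotangentSpace O).1 hreg
  have h2 : Ring.KrullDimLE 1 O := by
    rw [Ring.krullDimLE_one_iff_of_isPrime_bot]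
    intro I hI hne
    rw [hq I hne hI]
    exact IsLocalRing.maximalIdeal.isMaximal O
  have h3 : ringKrullDim O ≤ 1 := Ring.krullDimLE_iff.1 h2
  rw [← h1] at h3
  have h4 : Module.finrank (IsLocalRing.ResidueField O) (IsLocalRing.CotangentSpace O) ≤ 1 := by
    exact_mod_cast h3
  have h5 : Module.finrank (IsLocalRing.ResidueField O) (IsLocalRing.CotangentSpace O) ≠ 0 := by
    intro h
    exact hnf (IsLocalRing.finrank_cotangentSpace_eq_zero_iff.1 h)
  exact IsLocalRing.finrank_CotangentSpace_eq_one_iff.1 (by omega)

end Pool.Agent.BTF
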