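import Pool.Agent.KGT.WDefs
import Mathlib.AlgebraicGeometry.Birational.Birational
import Mathlib.AlgebraicGeometry.FunctionField
import Mathlib.AlgebraicGeometry.Morphisms.Proper
import Mathlib.FieldTheory.RatFunc.Basic

/-!
# BTF: birational invariance of the finite generation of `K'_n`: definitions

MP_e17fa799_al (captain helper21, second reader helper20).
-/

set_option autoImplicit false

noncomputable section

namespace Pool.Agent.BTF

open CategoryTheory CategoryTheory.Limits AlgebraicGeometry Pool.Agent.KPR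
open Pool.Agent.KGT.W (SerreClass FinType)

/-- The Kronecker dimension of the field `K` is at most `d`: the transcendence degree over the prime
field is at most `d`, and at most `d - 1` if the characteristic is zero. -/
def KrLe (d : ℕ) (K : Type) [Field K] : Prop :=
  Algebra.trdeg (⊥ : Subfield K) K ≤ d ∧
    (CharZero K → Algebra.trdeg (⊥ : Subfield K) K + 1 ≤ d)

/-- all residue fields of `X` have Kronecker dimension at most `d` -/
def Kr (d : ℕ) (X : Scheme.{0}) : Prop := ∀ x : X, KrLe d (X.residueField x)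

/-- `K'_n(T)` is in `𝒮` for all `n` and all `T` of finite type over `ℤ` and of Kronecker dimension at
most `d` -/
def Low (𝒮 : (G : Type 1) → [AddCommGroup G] → Prop) (d : ℕ) : Prop :=
  ∀ T : Scheme.{0}, FinType ℤ T → Kr d T → ∀ n : ℕ, 𝒮 (KX n T)

/-- `X` is proper over `ℤ` -/
def ProperZ (X : Scheme.{0}) : Prop := ∃ f : X ⟶ Spec (CommRingCat.of ℤ), IsProper f

/-- (I) -/
def BirInv (𝒮 : (G : Type 1) → [AddCommGroup G] → Prop) (d : ℕ) : Prop :=
  ∀ (X Y B : Scheme.{0}) [IsIntegral X] [IsIntegral Y] [B.IsSeparated] (f : X ⟶ B) (g : Y ⟶ B)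
    [IsProper f] [IsProper g], FinType ℤ B → KGT.W.Regular X → KGT.W.Regular Y →
    KrLe (d + 2) X.functionField → Scheme.BirationalOver f g → ∀ n : ℕ, 𝒮 (KX n X) ↔ 𝒮 (KX n Y)

/-- (II) -/
def Ruled (𝒮 : (G : Type 1) → [AddCommGroup G] → Prop) (d : ℕ) : Prop :=
  ∀ (X T : Scheme.{0}) [IsIntegral X] [IsIntegral T], ProperZ X → KGT.W.Regular X →
    KrLe (d + 2) X.functionField → FinType ℤ T → Nonempty (X.functionField ≃+* RatFunc T.functionField) →
    (∀ n : ℕ, 𝒮 (KX n T)) → ∀ n : ℕ, 𝒮 (KX n X)

/-- (III) rational schemes of dimension three -/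
def Rational3 : Prop :=
  ∀ (X : Scheme.{0}) [IsIntegral X], ProperZ X → KGT.W.Regular X → KrLe 3 X.functionField →
    ∀ (L : Type) [Field L], Nonempty (X.functionField ≃+* RatFunc (RatFunc L)) →
      ∀ n : ℕ, AddGroup.FG (KX n X)

/-! ### commutative algebra -/

/-- `φ : R → V` induces a surjection on fields of fractions -/
def SameFrac {R V : Type} [CommRing R] [CommRing V] (φ : R →+* V) : Prop :=
  ∀ v : V, ∃ a b : R, b ≠ 0 ∧ φ b * v = φ a

/-- `V` is a localisation of a finitely generated ring -/
def EssFin (V : Type) [CommRing V] : Prop :=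
  ∃ s : Finset V, ∀ v : V, ∃ a ∈ Subring.closure (s : Set V), ∃ b ∈ Subring.closure (s : Set V),
    IsUnit b ∧ b * v = a

/-! ### good fields -/

/-- every integral affine scheme of finite type over `ℤ` with the function field `κ` has a nonempty
open subscheme all of whose `K'_n` are in `𝒮` -/
def Good (𝒮 : (G : Type 1) → [AddCommGroup G] → Prop) (κ : Type) [Field κ] : Prop :=
  ∀ (C : Type) [CommRing C] [IsDomain C] [Algebra.FiniteType ℤ C],
    Nonempty (FractionRing C ≃+* κ) →
      ∃ s : C, s ≠ 0 ∧ ∀ n : ℕ, 𝒮 (KX n (Spec (CommRingCat.of (Localization.Away s))))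

/-! ### function fields -/

/-- the morphism from the local ring to the function field -/
def toF (X : Scheme.{0}) [IsIntegral X] (x : X) : X.presheaf.stalk x ⟶ X.functionField :=
  X.presheaf.stalkSpecializes ((genericPoint_spec X).specializes trivial)

/-- the local rings at `x` and `y` are the same (in the common function field) -/
def Compat {X Y : Scheme.{0}} [IsIntegral X] [IsIntegral Y] (θ : Y.functionField ≅ X.functionField)
    (x : X) (y : Y) : Prop :=
  ∃ e : Y.presheaf.stalk y ≅ X.presheaf.stalk x, e.hom ≫ toF X x = toF Y y ≫ θ.hom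

/-- `θ` is compatible with the morphisms to `B` -/
def OverB {X Y B : Scheme.{0}} [IsIntegral X] [IsIntegral Y]
    (θ : Y.functionField ≅ X.functionField) (f : X ⟶ B) (g : Y ⟶ B) : Prop :=
  Spec.map θ.hom ≫ Y.fromSpecStalk (genericPoint Y) ≫ g =
    X.fromSpecStalk (genericPoint X) ≫ f

end Pool.Agent.BTF
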