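import Pool.Agent.BTF.Defs
import Pool.Agent.KTX.Defs

/-!
# BTF: definitions for part (III), domination

MP_e17fa799_al (captain helper21).
-/

set_option autoImplicit false

noncomputable section

namespace Pool.Agent.BTF

open CategoryTheory CategoryTheory.Limits AlgebraicGeometry Pool.Agent.KPR Pool.Agent.KTX
open Pool.Agent.KGT.W (SerreClass FinType)

/-- `K → K'` is finite of degree `N` -/
def FinDeg {K K' : Type} [Field K] [Field K'] (φ : K →+* K') (N : ℕ) : Prop :=
  letI := φ.toAlgebra
  FiniteDimensional K K' ∧ Module.finrank K K' = N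

/-- the subgroup `m G` is in the class -/
def MulIn (𝒮 : (G : Type 1) → [AddCommGroup G] → Prop) (m : ℕ) (G : Type 1) [AddCommGroup G] :
    Prop := 𝒮 (nsmulAddMonoidHom (α := G) m).range

/-- (III) domination: if the function field of `X` is embedded with finite degree `N` in that of `Y` or
`T × ℙ¹`, and `K'_n(Y)` or `K'_n(T)` is in `𝒮`, then `N² K'_n(X)` is in `𝒮` -/
def Dominated (𝒮 : (G : Type 1) → [AddCommGroup G] → Prop) (d : ℕ) : Prop :=
  (∀ (X Y : Scheme.{0}) [IsIntegral X] [IsIntegral Y], ProperZ X → KGT.W.Regular X →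
    KrLe (d + 2) X.functionField → ProperZ Y → KGT.W.Regular Y →
    ∀ (φ : X.functionField →+* Y.functionField) (N : ℕ), FinDeg φ N → ∀ n : ℕ, 𝒮 (KX n Y) →
      MulIn 𝒮 (N ^ 2) (KX n X)) ∧
  ∀ (X T : Scheme.{0}) [IsIntegral X] [IsIntegral T], ProperZ X → KGT.W.Regular X →
    KrLe (d + 2) X.functionField → FinType ℤ T →
    ∀ (φ : X.functionField →+* RatFunc T.functionField) (N : ℕ), FinDeg φ N → ∀ n : ℕ,
      𝒮 (KX n T) → MulIn 𝒮 (N ^ 2) (KX n X)

/-! ### good fields, one degree -/

/-- as `Good`, in one degree -/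
def GoodIn (𝒮 : (G : Type 1) → [AddCommGroup G] → Prop) (n : ℕ) (κ : Type) [Field κ] : Prop :=
  ∀ (C : Type) [CommRing C] [IsDomain C] [Algebra.FiniteType ℤ C],
    Nonempty (FractionRing C ≃+* κ) →
      ∃ s : C, s ≠ 0 ∧ 𝒮 (KX n (Spec (CommRingCat.of (Localization.Away s))))

/-- All discrete valuation rings `𝒪_{X₁,x₁}` of the function field of `Y` whose residue field is not
good are local rings of `Y`. -/
def Complete (𝒮 : (G : Type 1) → [AddCommGroup G] → Prop) (n : ℕ) (Y : Scheme.{0})
    [IsIntegral Y] : Prop :=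
  ∀ (X₁ : Scheme.{0}) [IsIntegral X₁] (θ : Y.functionField ≅ X₁.functionField), FinType ℤ X₁ →
    ∀ x₁ : X₁, IsDiscreteValuationRing (X₁.presheaf.stalk x₁) →
      ¬ GoodIn 𝒮 n (X₁.residueField x₁) → ∃ y : Y, Compat θ x₁ y

/-! ### chains of blow-ups inside a discrete valuation ring -/

/-- the elements of the subring `R` of `V` which are not units in `V` -/
def mIn {V : Type} [CommRing V] [IsLocalRing V] (R : Subring V) : Ideal R :=
  (IsLocalRing.maximalIdeal V).comap R.subtype

/-- `R` is a regular local ring with the same field of fractions as `V`, dominated by `V` -/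
structure RegIn {V : Type} [CommRing V] (R : Subring V) : Prop where
  reg : IsRegularLocalRing R
  dom : ∀ r : R, IsUnit (r : V) → IsUnit r
  frac : ∀ v : V, ∃ a b : R, b ≠ 0 ∧ (b : V) * v = a

/-- `R` is the localisation of `S` at the elements which are units in `V` -/
def IsLocOf {V : Type} [CommRing V] (S R : Subring V) : Prop :=
  ∀ v : V, v ∈ R ↔ ∃ a ∈ S, ∃ b ∈ S, IsUnit b ∧ b * v = a

/-- `x`, `y` are in the maximal ideal and linearly independent modulo its square -/
def Indep {V : Type} [CommRing V] [IsLocalRing V] (R : Subring V) (x y : R) : Prop :=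
  x ∈ mIn R ∧ y ∈ mIn R ∧ ∀ a b : R, a * x + b * y ∈ mIn R ^ 2 → a ∈ mIn R ∧ b ∈ mIn R

/-- a finite subset of `V` which is not contained in a smaller regular local ring dominated by `V` -/
def Term (V : Type) [CommRing V] : Prop :=
  ∃ s : Finset V, ∀ R : Subring V, RegIn R → (s : Set V) ⊆ R → R = ⊤

/-! ### graded theories -/

/-- the push-forward along the section `T = 0` of `A[T]` is zero -/
def PZ (L : LThy.{1}) : Prop :=
  ∀ (n : ℤ) (A : Type) [CommRing A] [IsNoetherianRing A]
    [IsFinite (Sm (Polynomial.constantCoeff : Polynomial A →+* A))] (x : (L.th n).T (Sp A)),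
    (L.th n).push (Sm (Polynomial.constantCoeff : Polynomial A →+* A)) x = 0

/-- The classes of `X` are unramified along the discrete valuation ring `V` with field of fractions
`K`, `η : Spec K → X`: there are a domain `A` of finite type over `ℤ`, `V` is the localisation of `A` at a
prime, an open immersion `i : Spec A[1/w] → X`, `w ≠ 0`, compatible with `η`, such that for all `α` in
`T_n(X)` the restriction of `α` to `Spec A[1/w]` extends to `Spec A`. If `b` does not hold, `w` is not a
unit in `V`. -/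
def Unram (L : LThy.{1}) (X : Scheme.{0}) (K V : Type) [Field K] [CommRing V] [Algebra V K]
    (η : Sp K ⟶ X) (b : Prop) : Prop :=
  ∃ (A : Type) (_ : CommRing A) (_ : IsDomain A) (_ : Algebra.FiniteType ℤ A) (j : A →+* V) (w : A)
    (W : Type) (_ : CommRing W) (l : A →+* W) (k : W →+* K) (i : Sp W ⟶ X),
    Function.Injective j ∧ (∀ v : V, ∃ a b : A, IsUnit (j b) ∧ j b * v = j a) ∧ w ≠ 0 ∧
    IsLoc w l ∧ IsOpenImmersion i ∧ k.comp l = (algebraMap V K).comp j ∧ Sm k ≫ i = η ∧
    (b ∨ ¬ IsUnit (j w)) ∧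
    ∀ (_ : Flat (Sm l)) (_ : Flat i) (n : ℤ) (α : (L.th n).T X), ∃ β : (L.th n).T (Sp A),
      (L.th n).pull (Sm l) β = (L.th n).pull i α

/-- Extension of classes near `y`: for every closed set `F` which does not contain `y` there is an open
neighbourhood `W` of `y` which does not meet `F`, with `W \ U` in the closure of `y`, such that the
restriction of `ρ^* α` to `W ∩ U` extends to `W`, for all `α`. -/
def ExtAt (L : LThy.{1}) {X Y : Scheme.{0}} (U : Y.Opens) (ρ : U.toScheme ⟶ X) [Flat ρ] (y : Y) :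
    Prop :=
  ∀ F : Set Y, IsClosed F → y ∉ F → ∃ W : Y.Opens, y ∈ W ∧ Disjoint (W : Set Y) F ∧
    (∀ z ∈ W, z ∉ U → z ∈ closure ({y} : Set Y)) ∧
    ∀ (n : ℤ) (α : (L.th n).T X), ∃ β : (L.th n).T W.toScheme,
      (L.th n).pull (Y.homOfLE (inf_le_left : W ⊓ U ≤ W)) β =
        (L.th n).pull (Y.homOfLE (inf_le_right : W ⊓ U ≤ U)) ((L.th n).pull ρ α)

/-- the morphism from the spectrum of the function field to `Y`, and to an open subscheme -/
def etaU {Y : Scheme.{0}} [IsIntegral Y] (U : Y.Opens) (h : genericPoint Y ∈ U) :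
    Spec Y.functionField ⟶ U.toScheme := U.fromSpecStalkOfMem (genericPoint Y) h

/-- the morphism `Spec K' → X` for a homomorphism `φ : K(X) → K'` -/
def etaX {X : Scheme.{0}} [IsIntegral X] {K' : Type} [CommRing K'] (φ : X.functionField →+* K') :
    Sp K' ⟶ X :=
  Spec.map (CommRingCat.ofHom φ) ≫ X.fromSpecStalk (genericPoint X)

/-- `π` is locally free of rank `N` on the open set `X₀`: every point has an affine open neighbourhood
`W` with a basis of `N` elements of the sections over `π⁻¹ W`. -/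
def LocFree {X₁ X : Scheme.{0}} (π : X₁ ⟶ X) (N : ℕ) : Prop :=
  ∀ x : X, ∃ W : X.Opens, x ∈ W ∧ IsAffineOpen W ∧
    (letI := (π.app W).hom.toAlgebra
     Nonempty (Module.Basis (Fin N) Γ(X, W) Γ(X₁, π ⁻¹ᵁ W)))

end Pool.Agent.BTF
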