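import Pool.Agent.BTF.St6

/-!
# FI: finiteness of the integral closure in a finite extension, Frobenius trick
-/

set_option autoImplicit false

namespace Pool.Agent.BTF

namespace FI

theorem ft {A B : Type} [CommRing A] [CommRing B] (f : A →+* B) (s : Finset B)
    (h : ∀ v : B, ∃ a ∈ Subring.closure (s : Set B), ∃ c : A, v = f c * a) : f.FiniteType := by
  let _ : Algebra A B := f.toAlgebra
  have h1 : Algebra.adjoin A (s : Set B) = ⊤ := by
    refine Algebra.eq_top_iff.2 fun v => ?_
    obtain ⟨a, ha, c, rfl⟩ := h v
    have h2 : Subring.closure (s : Set B) ≤ (Algebra.adjoin A (s : Set B)).toSubring :=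
      Subring.closure_le.2 fun x hx => Algebra.subset_adjoin hx
    exact mul_mem ((Algebra.adjoin A (s : Set B)).algebraMap_mem c) (h2 ha)
  exact ⟨⟨s, h1⟩⟩

/-- the iterated Frobenius of a ring which is essentially finitely generated is finite -/
theorem frob {R : Type} [CommRing R] (hR : EssFin R) (p : ℕ) [ExpChar R p] (r : ℕ) :
    (iterateFrobenius R p r).Finite := by
  obtain ⟨s, hs⟩ := hR
  have hq : 0 < p ^ r := pow_pos (expChar_pos R p) r
  refine RingHom.IsIntegral.to_finite ?_ (ft _ s ?_)
  · intro t
    refine ⟨Polynomial.X ^ p ^ r - Polynomial.C t,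
      Polynomial.monic_X_pow_sub_C t hq.ne', ?_⟩
    rw [Polynomial.eval₂_sub, Polynomial.eval₂_pow, Polynomial.eval₂_X, Polynomial.eval₂_C,
      iterateFrobenius_def, sub_self]
  · intro v
    obtain ⟨a, ha, b, hb, hu, hv⟩ := hs v
    obtain ⟨c, hc⟩ := hu.exists_left_inv
    refine ⟨a * b ^ (p ^ r - 1), mul_mem ha (pow_mem hb _), c, ?_⟩
    rw [iterateFrobenius_def, ← hv]
    obtain ⟨k, hk⟩ : ∃ k, p ^ r = k + 1 := ⟨p ^ r - 1, by omega⟩
    rw [hk, Nat.add_sub_cancel]
    have h1 : c ^ (k + 1) * (b * v * b ^ k) = (c * b) ^ (k + 1) * v := by ring
    rw [h1, hc, one_pow, one_mul]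

/-- a subring of a finite one -/
theorem sub {R B C : Type} [CommRing R] [IsNoetherianRing R] [CommRing B] [CommRing C]
    [Algebra R B] (ψ : B →+* C) (hψ : Function.Injective ψ)
    (h : (ψ.comp (algebraMap R B)).Finite) : Module.Finite R B := by
  let _ : Algebra R C := (ψ.comp (algebraMap R B)).toAlgebra
  have h1 : Module.Finite R C := h
  have h2 : IsNoetherian R C := isNoetherian_of_isNoetherianRing_of_finite R C
  let f : B →ₗ[R] C :=
    { toFun := ψ
      map_add' := map_add ψ
      map_smul' := by
        intro x b
        rw [Algebra.smul_def, Algebra.smul_def, map_mul]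
        rfl }
  exact Module.Finite.of_injective f hψ

end FI

/-- **FI** -/
theorem thm_FI : St_FI := by
  intro R _ _ _ _ hR K K' B _ _ _ _ _ _ _ _ _ _ _ _ _
  obtain ⟨p, hp⟩ := CharP.exists R
  rcases CharP.char_is_prime_or_zero R p with hpp | hp0
  · -- characteristic `p`
    have : Fact p.Prime := ⟨hpp⟩
    have hKp : CharP K p := charP_of_injective_algebraMap (IsFractionRing.injective R K) p
    have : ExpChar R p := ExpChar.prime hpp
    have : ExpChar K p := ExpChar.prime hpp
    let E := separableClosure K K'
    have : ExpChar E p := expChar_of_injective_algebraMap (algebraMap K E).injective p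
    have : ExpChar K' p := expChar_of_injective_algebraMap (algebraMap K K').injective p
    have : FiniteDimensional E K' := inferInstance
    have : IsScalarTower R E K' := IsScalarTower.of_algebraMap_eq fun x => rfl
    let r := IsPurelyInseparable.exponent E K'
    let φ : K' →+* E := IsPurelyInseparable.iterateFrobenius E K' p (le_refl r)
    have hφ : ∀ a : K', algebraMap E K' (φ a) = a ^ p ^ r :=
      IsPurelyInseparable.algebraMap_iterateFrobenius E p (le_refl r)
    have hfin : Module.Finite R (integralClosure R E) :=
      IsIntegralClosure.finite R K E (integralClosure R E)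
    have hBinj : Function.Injective (algebraMap B K') :=
      IsIntegralClosure.algebraMap_injective B R K'
    have hint : ∀ b : B, φ (algebraMap B K' b) ∈ integralClosure R E := by
      intro b
      have h1 : IsIntegral R (algebraMap B K' b) :=
        (IsIntegralClosure.isIntegral_iff (A := B)).2 ⟨b, rfl⟩
      have h2 : IsIntegral R (algebraMap E K' (φ (algebraMap B K' b))) := by
        rw [hφ]
        exact h1.pow _
      exact (isIntegral_algebraMap_iff (algebraMap E K').injective).1 h2
    let ψ : B →+* integralClosure R E :=
      (φ.comp (algebraMap B K')).codRestrict (integralClosure R E) hint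
    have hψ : Function.Injective ψ := by
      intro b b' h
      have h1 : φ (algebraMap B K' b) = φ (algebraMap B K' b') := congrArg Subtype.val h
      exact hBinj (φ.injective h1)
    refine FI.sub ψ hψ ?_
    have hcomp : ψ.comp (algebraMap R B) =
        (algebraMap R (integralClosure R E)).comp (iterateFrobenius R p r) := by
      refine RingHom.ext fun x => Subtype.ext ?_
      apply (algebraMap E K').injective
      show algebraMap E K' (φ (algebraMap B K' (algebraMap R B x))) =
        algebraMap E K' (algebraMap R E (iterateFrobenius R p r x))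
      rw [hφ, iterateFrobenius_def, ← IsScalarTower.algebraMap_apply R B K',
        ← IsScalarTower.algebraMap_apply R E K', map_pow]
    rw [hcomp]
    exact RingHom.Finite.comp (RingHom.finite_algebraMap.2 hfin) (FI.frob hR p r)
  · -- characteristic zero
    subst hp0
    have : CharZero R := CharP.charP_to_charZero R
    have : CharZero K := charZero_of_injective_algebraMap (IsFractionRing.injective R K)
    exact IsIntegralClosure.finite R K K' B

end Pool.Agent.BTF
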