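import Pool.Agent.BTF.St3

/-!
# BTF: module GL, extension of classes to finitely many points
-/

set_option autoImplicit false

noncomputable section

namespace Pool.Agent.BTF

open CategoryTheory CategoryTheory.Limits AlgebraicGeometry Pool.Agent.KPR Pool.Agent.KTX

namespace GLm

theorem noeth {Y : Scheme.{0}} [IsNoetherian Y] (U : Y.Opens) : IsNoetherian U.toScheme :=
  { __ := isLocallyNoetherian_of_isOpenImmersion U.ι
    toCompactSpace := by
      have : TopologicalSpace.NoetherianSpace U.toScheme :=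
        U.ι.isOpenEmbedding.isInducing.noetherianSpace
      infer_instance }

theorem pull_trans (T : STh.{1}) {Y : Scheme.{0}} [IsNoetherian Y] {U V W : Y.Opens} (h : U ≤ V)
    (h' : V ≤ W) (x : T.T W.toScheme) :
    T.pull (Y.homOfLE h) (T.pull (Y.homOfLE h') x) = T.pull (Y.homOfLE (h.trans h')) x := by
  have := noeth U
  have := noeth V
  have := noeth W
  rw [← T.pull_comp]
  simp only [Scheme.homOfLE_homOfLE]

theorem pull_rfl (T : STh.{1}) {Y : Scheme.{0}} [IsNoetherian Y] {U : Y.Opens} (h : U ≤ U)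
    (x : T.T U.toScheme) : T.pull (Y.homOfLE h) x = x := by
  have := noeth U
  simp only [Scheme.homOfLE_rfl]
  exact T.pull_id _ x

end GLm

open GLm in
/-- **GL**. Extension to finitely many points. -/
theorem thm_GL (hMV : St_MV) : St_GL := by
  intro L X Y _ _ U ρ _ s
  suffices hs : (∀ y ∈ s, y ∉ U) →
      (∀ y ∈ s, ∀ z ∈ s, y ∈ closure ({z} : Set Y) → y = z) → (∀ y ∈ s, ExtAt L U ρ y) →
      ∃ (Y' : Y.Opens) (h : U ≤ Y'), (∀ y ∈ s, y ∈ Y') ∧
        (∀ z ∈ Y', z ∉ U → ∃ y ∈ s, z ∈ closure ({y} : Set Y)) ∧ ∀ (n : ℤ) (α : (L.th n).T X),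
        ∃ β : (L.th n).T Y'.toScheme, (L.th n).pull (Y.homOfLE h) β = (L.th n).pull ρ α by
    intro h1 h2 h3
    obtain ⟨Y', h, h4, _, h5⟩ := hs h1 h2 h3
    exact ⟨Y', h, h4, h5⟩
  classical
  induction s using Finset.induction_on with
  | empty =>
    intro _ _ _
    refine ⟨U, le_rfl, by simp, fun z hz hz' => absurd hz hz', fun n α => ⟨(L.th n).pull ρ α, ?_⟩⟩
    exact pull_rfl _ _ _
  | insert y s hy ih =>
    intro h1 h2 h3
    obtain ⟨Y', h, h4, h5, h6⟩ := ih (fun z hz => h1 z (Finset.mem_insert_of_mem hz))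
      (fun z hz w hw => h2 z (Finset.mem_insert_of_mem hz) w (Finset.mem_insert_of_mem hw))
      (fun z hz => h3 z (Finset.mem_insert_of_mem hz))
    have hF : IsClosed (⋃ z ∈ s, closure ({z} : Set Y)) :=
      Set.Finite.isClosed_biUnion s.finite_toSet fun z _ => isClosed_closure
    have hyF : y ∉ ⋃ z ∈ s, closure ({z} : Set Y) := by
      intro hm
      obtain ⟨z, hz, hm⟩ := Set.mem_iUnion₂.1 hm
      have := h2 y (Finset.mem_insert_self y s) z (Finset.mem_insert_of_mem hz) hm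
      exact hy (this ▸ hz)
    obtain ⟨W, hyW, hWF, hWU, hW⟩ := h3 y (Finset.mem_insert_self y s) _ hF hyF
    have hle : Y' ⊓ W ≤ U := by
      intro z hz
      by_contra hzU
      obtain ⟨w, hw, hzw⟩ := h5 z hz.1 hzU
      exact Set.disjoint_left.1 hWF hz.2 (Set.mem_iUnion₂.2 ⟨w, hw, hzw⟩)
    refine ⟨Y' ⊔ W, h.trans le_sup_left, ?_, ?_, fun n α => ?_⟩
    · intro z hz
      rcases Finset.mem_insert.1 hz with rfl | hz
      · exact (le_sup_right : W ≤ Y' ⊔ W) hyW
      · exact (le_sup_left : Y' ≤ Y' ⊔ W) (h4 z hz)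
    · rintro z (hz | hz) hzU
      · obtain ⟨w, hw, hzw⟩ := h5 z hz hzU
        exact ⟨w, Finset.mem_insert_of_mem hw, hzw⟩
      · exact ⟨y, Finset.mem_insert_self y s, hWU z hz hzU⟩
    · obtain ⟨β, hβ⟩ := h6 n α
      obtain ⟨δ, hδ⟩ := hW n α
      obtain ⟨γ, hγ⟩ := hMV L Y Y' W n β δ (by
        rw [← pull_trans (L.th n) hle h β, hβ,
          ← pull_trans (L.th n) (le_inf inf_le_right hle : Y' ⊓ W ≤ W ⊓ U) inf_le_left δ, hδ,
          pull_trans])
      refine ⟨γ, ?_⟩
      rw [← pull_trans (L.th n) h le_sup_left γ, hγ, hβ]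

end Pool.Agent.BTF
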