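import Pool.Agent.BTF.St3
import Pool.Agent.KTX.Sq
import Pool.Agent.KTX.R0

/-!
# BTF, module GY: the Gysin map of `x Y - y`

`M = A[T][Y][u] / (u T - (x Y - y))`; over `T = 0` this is `A'[u]`, over `T ≠ 0` it is
`A[T, 1/T][Y]`, and `M[1/x] = A[1/x][T][u]`.
-/

set_option autoImplicit false
set_option linter.unusedSectionVars false
set_option linter.style.haveILetI false

noncomputable section

namespace Pool.Agent.BTF

open CategoryTheory AlgebraicGeometry Pool.Agent.KTX
open Polynomial (X C)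

namespace GY

/-! ### localisation at one element -/

section Loc

variable {A V D : Type} [CommRing A] [CommRing V] [CommRing D] {s : A} {l : A →+* V}

theorem loc_mk (h1 : IsUnit (l s)) (h2 : ∀ v, ∃ (k : ℕ) (a : A), v * l s ^ k = l a)
    (h3 : ∀ a, l a = 0 → ∃ k : ℕ, s ^ k * a = 0) : IsLoc s l := by
  letI := l.toAlgebra
  have h : IsLocalization (Submonoid.powers s) V := by
    rw [isLocalization_iff]
    refine ⟨?_, ?_, ?_⟩
    · rintro ⟨_, k, rfl⟩
      show IsUnit (l (s ^ k))
      rw [map_pow]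
      exact h1.pow k
    · intro v
      obtain ⟨k, a, h⟩ := h2 v
      refine ⟨⟨a, ⟨s ^ k, k, rfl⟩⟩, ?_⟩
      show v * l (s ^ k) = l a
      rw [map_pow, h]
    · intro a b hab
      obtain ⟨k, hk⟩ := h3 (a - b) (by rw [map_sub]; exact sub_eq_zero.2 hab)
      refine ⟨⟨s ^ k, k, rfl⟩, ?_⟩
      rw [mul_sub, sub_eq_zero] at hk
      exact hk
  exact h

theorem loc_unit (h : IsLoc s l) : IsUnit (l s) := by
  letI := l.toAlgebra
  haveI : IsLocalization.Away s V := h
  exact IsLocalization.Away.algebraMap_isUnit s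

theorem loc_surj (h : IsLoc s l) (v : V) : ∃ (k : ℕ) (a : A), v * l s ^ k = l a := by
  letI := l.toAlgebra
  haveI : IsLocalization.Away s V := h
  obtain ⟨⟨a, ⟨_, k, rfl⟩⟩, h⟩ := IsLocalization.surj (Submonoid.powers s) v
  refine ⟨k, a, ?_⟩
  rw [← map_pow]
  exact h

theorem loc_zero (h : IsLoc s l) (a : A) (ha : l a = 0) : ∃ k : ℕ, s ^ k * a = 0 := by
  letI := l.toAlgebra
  haveI : IsLocalization.Away s V := h
  obtain ⟨⟨_, k, rfl⟩, h⟩ := (IsLocalization.map_eq_zero_iff (Submonoid.powers s) V a).1 ha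
  exact ⟨k, h⟩

theorem loc_lift (h : IsLoc s l) (g : A →+* D) (hg : IsUnit (g s)) :
    ∃ w : V →+* D, w.comp l = g := by
  letI := l.toAlgebra
  haveI : IsLocalization.Away s V := h
  exact ⟨IsLocalization.Away.lift s hg, IsLocalization.Away.lift_comp s hg⟩

theorem loc_ext (h : IsLoc s l) (w w' : V →+* D) (hw : w.comp l = w'.comp l) : w = w' := by
  letI := l.toAlgebra
  haveI : IsLocalization.Away s V := h
  exact IsLocalization.ringHom_ext (Submonoid.powers s) hw

theorem loc_flat (h : IsLoc s l) : l.Flat := by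
  letI := l.toAlgebra
  haveI : IsLocalization.Away s V := h
  exact IsLocalization.flat V (Submonoid.powers s)

theorem loc_noeth [IsNoetherianRing A] (h : IsLoc s l) : IsNoetherianRing V := by
  letI := l.toAlgebra
  haveI : IsLocalization.Away s V := h
  exact IsLocalization.isNoetherianRing (Submonoid.powers s) V inferInstance

theorem loc_ex (s : A) : ∃ (V : Type) (_ : CommRing V) (l : A →+* V), IsLoc s l := by
  refine ⟨Localization.Away s, inferInstance, algebraMap _ _, loc_mk ?_ ?_ ?_⟩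
  · exact IsLocalization.Away.algebraMap_isUnit s
  · intro v
    obtain ⟨⟨a, ⟨_, k, rfl⟩⟩, h⟩ := IsLocalization.surj (Submonoid.powers s) v
    refine ⟨k, a, ?_⟩
    rw [← map_pow]
    exact h
  · intro a ha
    obtain ⟨⟨_, k, rfl⟩, h⟩ :=
      (IsLocalization.map_eq_zero_iff (Submonoid.powers s) (Localization.Away s) a).1 ha
    exact ⟨k, h⟩

theorem loc_poly (h : IsLoc s l) :
    IsLoc (C s : Polynomial A) (Polynomial.mapRingHom l) := by
  refine loc_mk ?_ (fun v => ?_) (fun p hp => ?_)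
  · rw [Polynomial.coe_mapRingHom, Polynomial.map_C]
    exact (loc_unit h).map (C : V →+* Polynomial V)
  · induction v using Polynomial.induction_on' with
    | add p q hp hq =>
      obtain ⟨k, a, ha⟩ := hp
      obtain ⟨j, b, hb⟩ := hq
      refine ⟨k + j, C s ^ j * a + C s ^ k * b, ?_⟩
      rw [map_add, map_mul, map_mul, map_pow, map_pow, ← ha, ← hb]
      ring
    | monomial n v =>
      obtain ⟨k, a, ha⟩ := loc_surj h v
      refine ⟨k, Polynomial.monomial n a, ?_⟩
      rw [Polynomial.coe_mapRingHom, Polynomial.map_C, Polynomial.map_monomial, ← ha, ← map_pow,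
        Polynomial.monomial_mul_C]
  · have h1 : ∀ i, ∃ k : ℕ, s ^ k * p.coeff i = 0 := fun i => loc_zero h _ (by
      have := congrArg (fun q => Polynomial.coeff q i) hp
      simpa using this)
    choose k hk using h1
    refine ⟨∑ i ∈ p.support, k i, ?_⟩
    ext i
    rw [← map_pow, Polynomial.coeff_C_mul, Polynomial.coeff_zero]
    by_cases hi : i ∈ p.support
    · rw [← Finset.add_sum_erase _ _ hi, add_comm, pow_add, mul_assoc, hk, mul_zero]
    · rw [Polynomial.notMem_support_iff.1 hi, mul_zero]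

end Loc

/-! ### pushouts -/

section Po

variable {M B M' B' : Type} [CommRing M] [CommRing B] [CommRing M'] [CommRing B']

/-- the localisation of an algebra -/
theorem po_loc {f : M →+* B} {l : M →+* M'} {l' : B →+* B'} {f' : M' →+* B'} {s : M}
    (h : IsLoc s l) (h' : IsLoc (f s) l') (e : l'.comp f = f'.comp l) :
    IsPushout (CommRingCat.ofHom f) (CommRingCat.ofHom l) (CommRingCat.ofHom l')
      (CommRingCat.ofHom f') := by
  refine isPushout_of f l l' f' e ?_ ?_
  · intro D _ u v huv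
    have hu : IsUnit (u (f s)) := by
      have h1 : u (f s) = v (l s) := DFunLike.congr_fun huv s
      rw [h1]
      exact (loc_unit h).map v
    obtain ⟨w, hw⟩ := loc_lift h' u hu
    refine ⟨w, hw, loc_ext h _ _ ?_⟩
    rw [RingHom.comp_assoc, ← e, ← RingHom.comp_assoc, hw, huv]
  · intro D _ w w' h1 _
    exact loc_ext h' w w' h1

/-- quotients by one element -/
theorem po_quot {π : M →+* B} {g : M →+* M'} {c : B →+* B'} {π' : M' →+* B'} {s : M}
    (hπ : Function.Surjective π) (hs : π s = 0) (hπ' : Function.Surjective π')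
    (hk : ∀ m, π' m = 0 → ∃ b, m = g s * b) (e : c.comp π = π'.comp g) :
    IsPushout (CommRingCat.ofHom π) (CommRingCat.ofHom g) (CommRingCat.ofHom c)
      (CommRingCat.ofHom π') := by
  refine isPushout_of π g c π' e ?_ ?_
  · intro D _ u v huv
    have hv : RingHom.ker π' ≤ RingHom.ker v := by
      intro m hm
      obtain ⟨b, rfl⟩ := hk m hm
      have h1 : v (g s) = u (π s) := (DFunLike.congr_fun huv s).symm
      rw [RingHom.mem_ker, map_mul, h1, hs, map_zero, zero_mul]
    have hw : ((RingHom.liftOfSurjective π' hπ') ⟨v, hv⟩).comp π' = v :=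
      RingHom.liftOfSurjective_comp π' hπ' ⟨v, hv⟩
    refine ⟨(RingHom.liftOfSurjective π' hπ') ⟨v, hv⟩, ?_, hw⟩
    refine (RingHom.cancel_right hπ).1 ?_
    rw [RingHom.comp_assoc, e, ← RingHom.comp_assoc, hw, huv]
  · intro D _ w w' _ h2
    exact (RingHom.cancel_right hπ').1 h2

end Po

/-- The localisation of `R[u] / (t u - h)` at `t`. -/
theorem loc_comp {R M V : Type} [CommRing R] [CommRing M] [CommRing V] {φ : R →+* M} {u : M}
    {t h : R} (hs : Function.Surjective (Polynomial.eval₂ φ u))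
    (hk : ∀ p : Polynomial R, Polynomial.eval₂ φ u p = 0 → ∃ q, p = (C t * X - C h) * q)
    (htu : φ t * u = φ h) {l : M →+* V} (hl : IsLoc (φ t) l) : IsLoc t (l.comp φ) := by
  have key : ∀ m : M, ∃ (k : ℕ) (a : R), φ t ^ k * m = φ a := by
    intro m
    obtain ⟨p, rfl⟩ := hs m
    induction p using Polynomial.induction_on' with
    | add p q hp hq =>
      obtain ⟨k, a, hp⟩ := hp
      obtain ⟨j, b, hq⟩ := hq
      refine ⟨k + j, t ^ j * a + t ^ k * b, ?_⟩
      rw [Polynomial.eval₂_add, map_add, map_mul, map_mul, ← hp, ← hq, map_pow, map_pow]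
      ring
    | monomial n a =>
      refine ⟨n, a * h ^ n, ?_⟩
      rw [Polynomial.eval₂_monomial, map_mul, map_pow, ← htu]
      ring
  have hu : IsUnit ((l.comp φ) t) := by
    rw [RingHom.comp_apply]
    exact loc_unit hl
  refine loc_mk hu (fun v => ?_) (fun a ha => ?_)
  · obtain ⟨k, m, hv⟩ := loc_surj hl v
    obtain ⟨j, a, ha⟩ := key m
    refine ⟨k + j, a, ?_⟩
    rw [RingHom.comp_apply, RingHom.comp_apply, pow_add, ← mul_assoc, hv, ← ha, map_mul, map_pow]
    ring
  · obtain ⟨k, hk1⟩ := loc_zero hl (φ a) ha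
    obtain ⟨q, hq⟩ := hk (C (t ^ k * a)) (by
      rw [Polynomial.eval₂_C, map_mul, map_pow]
      exact hk1)
    obtain ⟨W, _, r, hr⟩ := loc_ex t
    obtain ⟨c, hc⟩ := (loc_unit hr).exists_right_inv
    have h1 := congrArg (Polynomial.eval₂ r (c * r h)) hq
    rw [Polynomial.eval₂_C, Polynomial.eval₂_mul, Polynomial.eval₂_sub, Polynomial.eval₂_mul,
      Polynomial.eval₂_C, Polynomial.eval₂_X, Polynomial.eval₂_C, ← mul_assoc, hc, one_mul,
      sub_self, zero_mul] at h1
    obtain ⟨j, hj⟩ := loc_zero hr _ h1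
    exact ⟨j + k, by rw [pow_add, mul_assoc]; exact hj⟩

/-! ### the naturality of the boundary -/

theorem flat_C (A : Type) [CommRing A] : (C : A →+* Polynomial A).Flat := by
  have h : (algebraMap A (Polynomial A)).Flat := RingHom.flat_algebraMap_iff.2 inferInstance
  exact h

theorem nat_ring (L : LThy.{1}) (n : ℤ) {A Q V A' Q' V' : Type} [CommRing A] [CommRing Q]
    [CommRing V] [CommRing A'] [CommRing Q'] [CommRing V'] [IsNoetherianRing A]
    [IsNoetherianRing A'] {s : A} {π : A →+* Q} {l : A →+* V} {π' : A' →+* Q'} {l' : A' →+* V'}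
    {g : A →+* A'} {c : Q →+* Q'} {v : V →+* V'} (hπ : Function.Surjective π)
    (hk : RingHom.ker π = Ideal.span {s}) (hl : IsLoc s l) (hg : g.Flat)
    (h1 : IsPushout (CommRingCat.ofHom π) (CommRingCat.ofHom g) (CommRingCat.ofHom c)
      (CommRingCat.ofHom π'))
    (h2 : IsPushout (CommRingCat.ofHom l) (CommRingCat.ofHom g) (CommRingCat.ofHom v)
      (CommRingCat.ofHom l')) (u : (L.th (n + 1)).T (Sp V)) :
    R0.pl L n c (R0.bd L n π l u) = R0.bd L n π' l' (R0.pl L (n + 1) v u) := by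
  haveI i1 := R0.closed_Sm hπ
  haveI i2 := R0.open_Sm hl
  haveI i3 := R0.flat_Sm hg
  have s1 : IsPullback (Sm c) (Sm π') (Sm π) (Sm g) := isPullback_SpecMap_of_isPushout _ _ _ _ h1
  have s2 : IsPullback (Sm v) (Sm l') (Sm l) (Sm g) := isPullback_SpecMap_of_isPushout _ _ _ _ h2
  haveI : IsClosedImmersion (Sm π') := MorphismProperty.of_isPullback s1 i1
  haveI : IsOpenImmersion (Sm l') := MorphismProperty.of_isPullback s2 i2
  haveI : Flat (Sm c) := MorphismProperty.of_isPullback s1.flip i3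
  haveI : Flat (Sm v) := MorphismProperty.of_isPullback s2.flip i3
  rw [R0.pl_eq, R0.bd_eq, R0.pl_eq, R0.bd_eq]
  exact L.nat n (Sm π) (Sm l) (Sm π') (Sm l') (Sm c) (Sm g) (Sm v) (R0.range_Sm hπ hk hl) s1 s2 u

/-! ### the ring `M` -/

section M

variable {S : Type} [CommRing S] (t x y : S)

/-- the element `x Y - y` of `S[Y]` -/
def hh : Polynomial S := C x * X - C y

/-- the equation `t u - (x Y - y)` -/
def gg : Polynomial (Polynomial S) := C (C t) * X - C (hh x y)

/-- the ideal -/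
def II : Ideal (Polynomial (Polynomial S)) := Ideal.span {gg t x y}

/-- `S[Y][u] / (t u - (x Y - y))` -/
def MM : Type := Polynomial (Polynomial S) ⧸ II t x y

instance : CommRing (MM t x y) := Ideal.Quotient.commRing (II t x y)

/-- the class of a polynomial -/
def mk : Polynomial (Polynomial S) →+* MM t x y := Ideal.Quotient.mk (II t x y)

theorem mk_surj : Function.Surjective (mk t x y) := Ideal.Quotient.mk_surjective

instance [IsNoetherianRing S] : IsNoetherianRing (MM t x y) :=
  isNoetherianRing_of_surjective _ _ (mk t x y) (mk_surj t x y)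

theorem mk_zero {p : Polynomial (Polynomial S)} (h : mk t x y p = 0) :
    ∃ q, p = gg t x y * q := by
  have h1 : p ∈ II t x y := Ideal.Quotient.eq_zero_iff_mem.1 h
  obtain ⟨q, hq⟩ := Ideal.mem_span_singleton'.1 h1
  exact ⟨q, by rw [← hq, mul_comm]⟩

theorem mk_gg : mk t x y (gg t x y) = 0 :=
  Ideal.Quotient.eq_zero_iff_mem.2 (Ideal.mem_span_singleton_self _)

theorem mk_eq : mk t x y (C (C t)) * mk t x y X = mk t x y (C (hh x y)) := by
  have h := mk_gg t x y
  rw [gg, map_sub, map_mul, sub_eq_zero] at h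
  exact h

/-- `S[Y] → M` -/
def φ₁ : Polynomial S →+* MM t x y := (mk t x y).comp C

theorem eval₁ (p : Polynomial (Polynomial S)) :
    Polynomial.eval₂ (φ₁ t x y) (mk t x y X) p = mk t x y p := by
  rw [φ₁, ← Polynomial.hom_eval₂, Polynomial.eval₂_C_X]

theorem loc₁ {V : Type} [CommRing V] {l : MM t x y →+* V} (hl : IsLoc (mk t x y (C (C t))) l) :
    IsLoc (C t) (l.comp (φ₁ t x y)) := by
  refine loc_comp (φ := φ₁ t x y) (u := mk t x y X) (h := hh x y) ?_ ?_ ?_ hl
  · intro m
    obtain ⟨p, rfl⟩ := mk_surj t x y m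
    exact ⟨p, eval₁ t x y p⟩
  · intro p hp
    rw [eval₁] at hp
    exact mk_zero t x y hp
  · exact mk_eq t x y

/-- `S[u] → M` -/
def φ₂ : Polynomial S →+* MM t x y :=
  Polynomial.eval₂RingHom (((mk t x y).comp C).comp C) (mk t x y X)

theorem φ₂_C (r : S) : φ₂ t x y (C r) = mk t x y (C (C r)) := by
  simp [φ₂]

theorem φ₂_X : φ₂ t x y X = mk t x y X := by
  simp [φ₂]

theorem eval₂' (p : Polynomial (Polynomial S)) :
    Polynomial.eval₂ (φ₂ t x y) (mk t x y (C X)) p =
      mk t x y (Polynomial.Bivariate.swap p) := by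
  have h : Polynomial.eval₂RingHom (φ₂ t x y) (mk t x y (C X)) =
      (mk t x y).comp (Polynomial.Bivariate.swap (R := S)).toRingEquiv.toRingHom := by
    refine Polynomial.ringHom_ext' (Polynomial.ringHom_ext' ?_ ?_) ?_
    · ext r
      simp [φ₂_C, Polynomial.Bivariate.swap_C_C]
    · simp [φ₂_X, Polynomial.Bivariate.swap_X]
    · simp [Polynomial.Bivariate.swap_Y]
  exact DFunLike.congr_fun h p

theorem loc₂ {V : Type} [CommRing V] {l : MM t x y →+* V}
    (hl : IsLoc (mk t x y (C (C x))) l) : IsLoc (C x) (l.comp (φ₂ t x y)) := by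
  refine loc_comp (φ := φ₂ t x y) (u := mk t x y (C X)) (h := C t * X + C y) ?_ ?_ ?_ ?_
  · intro m
    obtain ⟨p, rfl⟩ := mk_surj t x y m
    exact ⟨Polynomial.Bivariate.swap p, by
      rw [eval₂', Polynomial.Bivariate.swap_swap_apply]⟩
  · intro p hp
    rw [eval₂'] at hp
    obtain ⟨q, hq⟩ := mk_zero t x y hp
    refine ⟨- Polynomial.Bivariate.swap q, ?_⟩
    have h1 := congrArg (Polynomial.Bivariate.swap (R := S)) hq
    rw [Polynomial.Bivariate.swap_swap_apply, map_mul] at h1
    have h2 : Polynomial.Bivariate.swap (gg t x y) =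
        -(C (C x) * X - C (C t * X + C y)) := by
      simp only [gg, hh, map_sub, map_mul, map_add, Polynomial.Bivariate.swap_C_C,
        Polynomial.Bivariate.swap_X, Polynomial.Bivariate.swap_Y]
      ring
    rw [h1, h2]
    ring
  · rw [φ₂_C, map_add, map_mul, φ₂_C, φ₂_X, φ₂_C, mk_eq, ← map_mul, ← map_add]
    simp [hh]
  · rw [φ₂_C]
    exact hl

variable {t x y} {A A' : Type} [CommRing A] [CommRing A'] (σ : S →+* A) (ι : A →+* A') (z : A')

/-- `S[Y] → A'`, `Y ↦ z` -/
def ff : Polynomial S →+* A' :=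
  (Polynomial.eval₂RingHom ι z).comp (Polynomial.mapRingHom σ)

variable (hσ : Function.Surjective σ) (ht : RingHom.ker σ = Ideal.span {t})
  (hs : Function.Surjective (Polynomial.eval₂ ι z))
  (hk : ∀ p : Polynomial A, Polynomial.eval₂ ι z p = 0 ↔ ∃ q, p = (C (σ x) * X - C (σ y)) * q)

include hσ hs in
theorem ff_surj : Function.Surjective (ff σ ι z) := by
  intro a
  obtain ⟨p, rfl⟩ := hs a
  obtain ⟨q, rfl⟩ := Polynomial.map_surjective σ hσ p
  exact ⟨q, rfl⟩

theorem ff_C (s : S) : ff σ ι z (C s) = ι (σ s) := by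
  simp [ff]

include ht in
theorem σt : σ t = 0 := by
  have h : t ∈ RingHom.ker σ := by
    rw [ht]
    exact Ideal.mem_span_singleton_self t
  exact h

include hk in
theorem ff_hh : ff σ ι z (hh x y) = 0 := by
  have h : Polynomial.eval₂ ι z (C (σ x) * X - C (σ y)) = 0 := (hk _).2 ⟨1, by rw [mul_one]⟩
  rw [← h]
  simp [ff, hh]

include hσ ht hk in
theorem ff_zero (p : Polynomial S) (hp : ff σ ι z p = 0) :
    ∃ a b, p = C t * a + hh x y * b := by
  obtain ⟨q, hq⟩ := (hk _).1 (show Polynomial.eval₂ ι z (Polynomial.mapRingHom σ p) = 0 from hp)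
  obtain ⟨r, rfl⟩ := Polynomial.map_surjective σ hσ q
  have h1 : p - hh x y * r ∈ RingHom.ker (Polynomial.mapRingHom σ) := by
    rw [RingHom.mem_ker, map_sub, map_mul, hq]
    simp [hh]
  rw [Polynomial.ker_mapRingHom, ht, Ideal.map_span, Set.image_singleton,
    Ideal.mem_span_singleton] at h1
  obtain ⟨a, ha⟩ := h1
  exact ⟨a, r, by rw [← ha]; ring⟩

include ht hk in
theorem ff_gg : Polynomial.mapRingHom (ff σ ι z) (gg t x y) = 0 := by
  rw [gg, Polynomial.coe_mapRingHom, Polynomial.map_sub, Polynomial.map_mul, Polynomial.map_C,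
    Polynomial.map_C, ff_C, ff_hh σ ι z hk, σt σ ht]
  simp

/-- `M → A'[u]` -/
def πM : MM t x y →+* Polynomial A' := Ideal.Quotient.lift (II t x y)
  (Polynomial.mapRingHom (ff σ ι z)) (by
    intro p hp
    obtain ⟨q, rfl⟩ := Ideal.mem_span_singleton'.1 hp
    rw [map_mul, ff_gg σ ι z ht hk, mul_zero])

theorem πM_mk (p : Polynomial (Polynomial S)) :
    πM σ ι z ht hk (mk t x y p) = Polynomial.mapRingHom (ff σ ι z) p := rfl

theorem πM_C (s : S) : πM σ ι z ht hk (mk t x y (C (C s))) = C (ι (σ s)) := by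
  rw [πM_mk, Polynomial.coe_mapRingHom, Polynomial.map_C, ff_C]

include hσ hs in
theorem πM_surj : Function.Surjective (πM σ ι z ht hk) := by
  intro a
  obtain ⟨p, rfl⟩ := Polynomial.map_surjective (ff σ ι z) (ff_surj σ ι z hσ hs) a
  exact ⟨mk t x y p, rfl⟩

include hσ in
theorem πM_zero (m : MM t x y) (hm : πM σ ι z ht hk m = 0) :
    ∃ b, m = mk t x y (C (C t)) * b := by
  obtain ⟨p, rfl⟩ := mk_surj t x y m
  have h1 : p ∈ RingHom.ker (Polynomial.mapRingHom (ff σ ι z)) := hm
  have h2 : RingHom.ker (ff σ ι z) ≤ Ideal.span {C t, hh x y} := by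
    intro q hq
    obtain ⟨a, b, rfl⟩ := ff_zero σ ι z hσ ht hk q hq
    exact Ideal.add_mem _ (Ideal.mul_mem_right _ _ (Ideal.subset_span (by simp)))
      (Ideal.mul_mem_right _ _ (Ideal.subset_span (by simp)))
  rw [Polynomial.ker_mapRingHom] at h1
  have h3 := Ideal.map_mono (f := (C : Polynomial S →+* Polynomial (Polynomial S))) h2 h1
  rw [Ideal.map_span, Set.image_pair, Ideal.mem_span_pair] at h3
  obtain ⟨a, b, hab⟩ := h3
  refine ⟨mk t x y a + mk t x y X * mk t x y b, ?_⟩
  rw [← hab, map_add, map_mul, map_mul, ← mk_eq]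
  ring

end M

end GY

open GY in
/-- **GY** -/
theorem thm_GY : St_GY := by
  intro L hL A A' W _ _ _ _ _ ι x y z hs hk l hl _ _ n β
  -- the rings
  have hσ : Function.Surjective (Polynomial.constantCoeff : Polynomial A →+* A) :=
    fun a => ⟨C a, by simp⟩
  have ht : RingHom.ker (Polynomial.constantCoeff : Polynomial A →+* A) = Ideal.span {X} :=
    Polynomial.ker_constantCoeff
  have hk' : ∀ p : Polynomial A, Polynomial.eval₂ ι z p = 0 ↔
      ∃ q, p = (C (Polynomial.constantCoeff (C x)) * X -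
        C (Polynomial.constantCoeff (C y))) * q := by
    intro p
    rw [hk p]
    simp
  obtain ⟨V₀, _, l₀, hl₀⟩ := loc_ex (X : Polynomial A)
  obtain ⟨V₁, _, l₁, hl₁⟩ := loc_ex (mk (X : Polynomial A) (C x) (C y) (C (C X)))
  obtain ⟨M', _, lM, hlM⟩ := loc_ex (mk (X : Polynomial A) (C x) (C y) (C (C (C x))))
  obtain ⟨V', _, lV, hlV⟩ := loc_ex (l₁ (mk (X : Polynomial A) (C x) (C y) (C (C (C x)))))
  haveI : IsNoetherianRing V₀ := loc_noeth hl₀
  haveI : IsNoetherianRing V₁ := loc_noeth hl₁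
  haveI : IsNoetherianRing M' := loc_noeth hlM
  haveI : IsNoetherianRing V' := loc_noeth hlV
  haveI : IsNoetherianRing W := loc_noeth hl
  -- the homomorphisms
  let π := πM (Polynomial.constantCoeff : Polynomial A →+* A) ι z ht hk'
  let α : Polynomial A →+* MM (X : Polynomial A) (C x) (C y) := (φ₁ X (C x) (C y)).comp C
  have hα : α X = mk X (C x) (C y) (C (C X)) := rfl
  obtain ⟨a₁, ha₁⟩ := loc_lift hl₀ (l₁.comp α) (by
    rw [RingHom.comp_apply, hα]
    exact loc_unit hl₁)
  obtain ⟨j', hj'⟩ := loc_lift hlM (lV.comp l₁) (by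
    rw [RingHom.comp_apply]
    exact loc_unit hlV)
  have hx : π (mk X (C x) (C y) (C (C (C x)))) = C (ι x) := by
    rw [πM_C]
    simp
  obtain ⟨π', hπ'⟩ := loc_lift hlM ((Polynomial.mapRingHom l).comp π) (by
    rw [RingHom.comp_apply, hx]
    exact loc_unit (loc_poly hl))
  -- the squares
  have p1 : IsPushout (CommRingCat.ofHom π) (CommRingCat.ofHom lM)
      (CommRingCat.ofHom (Polynomial.mapRingHom l)) (CommRingCat.ofHom π') :=
    po_loc hlM (by rw [hx]; exact loc_poly hl) hπ'.symm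
  have p2 : IsPushout (CommRingCat.ofHom l₁) (CommRingCat.ofHom lM) (CommRingCat.ofHom lV)
      (CommRingCat.ofHom j') := po_loc hlM hlV hj'.symm
  have p3 : IsPushout (CommRingCat.ofHom (Polynomial.constantCoeff : Polynomial A →+* A))
      (CommRingCat.ofHom α) (CommRingCat.ofHom (C.comp ι)) (CommRingCat.ofHom π) := by
    refine po_quot (s := X) hσ (by simp) (πM_surj _ ι z hσ ht hs hk') ?_ ?_
    · intro m hm
      exact πM_zero _ ι z hσ ht hk' m hm
    · refine RingHom.ext fun r => ?_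
      show C (ι (Polynomial.constantCoeff r)) = π (mk X (C x) (C y) (C (C r)))
      rw [πM_C]
  have p4 : IsPushout (CommRingCat.ofHom l₀) (CommRingCat.ofHom α) (CommRingCat.ofHom a₁)
      (CommRingCat.ofHom l₁) := (po_loc (f := α) hl₀ (by rw [hα]; exact hl₁) ha₁.symm).flip
  have p5 : IsPushout (CommRingCat.ofHom (Polynomial.constantCoeff : Polynomial A →+* A))
      (CommRingCat.ofHom (lM.comp α))
      (CommRingCat.ofHom ((Polynomial.mapRingHom l).comp (C.comp ι))) (CommRingCat.ofHom π') :=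
    p3.paste_vert p1
  have p6 : IsPushout (CommRingCat.ofHom l₀) (CommRingCat.ofHom (lM.comp α))
      (CommRingCat.ofHom (lV.comp a₁)) (CommRingCat.ofHom j') := p4.paste_vert p2
  -- flatness
  have f1 : a₁.Flat := by
    have h1 : IsPushout (CommRingCat.ofHom l₀)
        (CommRingCat.ofHom (C : Polynomial A →+* Polynomial (Polynomial A)))
        (CommRingCat.ofHom a₁) (CommRingCat.ofHom (l₁.comp (φ₁ X (C x) (C y)))) :=
      (po_loc (f := (C : Polynomial A →+* Polynomial (Polynomial A))) hl₀ (loc₁ _ _ _ hl₁)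
        ha₁.symm).flip
    exact flat_of_pushout h1 (flat_C _)
  have f2 : (lM.comp α).Flat := by
    have h1 : α = (φ₂ X (C x) (C y)).comp C := by
      refine RingHom.ext fun r => ?_
      exact (φ₂_C X (C x) (C y) r).symm
    rw [h1]
    exact (flat_C (Polynomial A)).comp (loc_flat (loc₂ _ _ _ hlM))
  -- the classes
  have hβ : R0.pu L n (Polynomial.constantCoeff : Polynomial A →+* A) β = 0 := by
    haveI : IsFinite (Sm (Polynomial.constantCoeff : Polynomial A →+* A)) :=
      R0.finite_Sm (RingHom.Finite.of_surjective _ hσ)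
    rw [R0.pu_eq]
    exact hL n A β
  obtain ⟨δ, hδ⟩ := R0.ax_exZ L n X Polynomial.constantCoeff l₀ hσ ht hl₀ β hβ
  obtain ⟨β', hβ'⟩ := (R0.ax_hom L n A').2 (R0.bd L n π l₁ (R0.pl L (n + 1) a₁ δ))
  have hkπ : RingHom.ker π = Ideal.span {mk X (C x) (C y) (C (C X))} := by
    refine le_antisymm (fun m hm => ?_) ((Ideal.span_singleton_le_iff_mem _).2 ?_)
    · obtain ⟨b, rfl⟩ := πM_zero _ ι z hσ ht hk' m hm
      exact Ideal.mul_mem_right _ _ (Ideal.mem_span_singleton_self _)
    · rw [RingHom.mem_ker, πM_C]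
      simp
  have n1 := nat_ring L n (πM_surj _ ι z hσ ht hs hk') hkπ hl₁ (loc_flat hlM) p1 p2
    (R0.pl L (n + 1) a₁ δ)
  have n2 := nat_ring L n hσ ht hl₀ f2 p5 p6 δ
  have fl : l.Flat := loc_flat hl
  have fι : (l.comp ι).Flat := by
    have h1 : Flat (Sm (l.comp ι)) := inferInstance
    rw [Flat.SpecMap_iff] at h1
    exact h1
  have e1 : R0.pl L n (Polynomial.mapRingHom l) (R0.pl L n C β') =
      R0.pl L n C (R0.pl L n l β') := by
    rw [← R0.ax_pl_comp L n C (Polynomial.mapRingHom l) (flat_C _) (loc_flat (loc_poly hl)),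
      ← R0.ax_pl_comp L n l C fl (flat_C _)]
    congr 1
    congr 1
    refine RingHom.ext fun r => ?_
    simp
  have e2 : R0.pl L n ((Polynomial.mapRingHom l).comp (C.comp ι)) β =
      R0.pl L n C (R0.pl L n (l.comp ι) β) := by
    rw [← R0.ax_pl_comp L n (l.comp ι) C fι (flat_C _)]
    congr 1
    congr 1
    refine RingHom.ext fun r => ?_
    simp
  have e3 : R0.pl L (n + 1) (lV.comp a₁) δ = R0.pl L (n + 1) lV (R0.pl L (n + 1) a₁ δ) :=
    R0.ax_pl_comp L (n + 1) a₁ lV f1 (loc_flat hlV) δ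
  rw [← hβ', e1] at n1
  rw [hδ, e2, e3, ← n1] at n2
  have e4 := (R0.ax_hom L n W).1 n2
  refine ⟨β', ?_⟩
  rw [← R0.pl_eq, ← R0.pl_eq, e4]

end Pool.Agent.BTF
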