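import Pool.Agent.BTF.Defs3
import Pool.Agent.BTF.St

/-!
# BTF: statements of the modules of part (III), domination

MP_e17fa799_al (captain helper21). Every `def St_X : Prop` is one module `Pool/Agent/BTF/X.lean` with
`theorem thm_X : St_X` (with the statements listed after `needs` as hypotheses) in the namespace
`Pool.Agent.BTF`; auxiliary lemmas in a sub-namespace with the name of the file.

Let `T_n = K'_n`. `X` is regular and proper over `ℤ`, `K = K(X) → K' = K(Y)` finite of degree `N`,
`Y` complete (the discrete valuation rings of `K'` with a bad residue field are local rings of `Y`) and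
`T_n(Y)` in `𝒮`. Let `π : X₁ → X` be the normalisation of `X` in `K'` (finite), `X° ⊆ X` the open set where
`π_* 𝒪` is locally free, `U ⊆ X₁° = π⁻¹ X°` the largest open set which is also open in `Y`, `ρ : U → X`.
(1) The residue fields of the points of `X \ X°` and `X₁° \ U` are good. (2) For `α ∈ T_n(X)` the class
`ρ^* α ∈ T_n(U)` extends to an open set `Y' ⊇ U` of `Y` such that the points of `Y \ Y'` are good
(unramifiedness: `Unram`, `ExtAt`). So the image of `T_n(X) → T_n(U)` is in `𝒮`, hence (by (1)) the image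
of `T_n(X) → T_n(X₁°)`. (3) `(π_* π^* - N)²` on `T_n(X°)` has its image in a
subgroup in `𝒮` (`St7.lean`, `N4b`, `ALb`). So `N² T_n(X)` is in `𝒮`.
-/

set_option autoImplicit false

noncomputable section

namespace Pool.Agent.BTF

open CategoryTheory CategoryTheory.Limits AlgebraicGeometry Pool.Agent.KPR Pool.Agent.KTX
open Pool.Agent.KGT.W (SerreClass FinType)
open Polynomial (X C)

/-- **RL**. `K'_n` as a graded theory with `PZ`. Proof: that of `Pool.Agent.KGT.real` (`KGT/Real.lean`), with
`all_HOMK` (`KQH/HomAll.lean`). needs: nothing -/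
def St_RL : Prop := ∃ L : LThy.{1}, PZ L ∧
  (∀ (n : ℕ) (Z : Scheme.{0}), Nonempty ((L.th n).T Z ≃+ KX n Z)) ∧
  ∀ (n : ℕ) (Z : Scheme.{0}) (z : (L.th (Int.negSucc n)).T Z), z = 0

/-! ### discrete valuation rings -/

/-- **IP** (helper20). Induction along the chain of blow-ups of two elements. Proof: as for `AB`. Let
`R` be as in `RegIn`, `R ≠ ⊤`, `x_1, .., x_m` minimal generators of the maximal ideal with `v(x_1)` minimal
(`m ≥ 2`), `z_j = x_j/x_1 ∈ V`. Adjoin `z_2, .., z_m` one after the other, and localise: `R[z]` is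
`R[Y]/(x_1 Y - x_2)`, and its localisation `R'` is regular, since `x_1 Y - x_2` is not in the square of the
maximal ideal of the localisation of `R[Y]`; the images of `x_1, x_3, .., x_m` are independent modulo the
square of the maximal ideal of `R'`. After `m - 1` steps every element of the maximal ideal of `R` is
divisible by `x_1`. Let `s` be as in `Term`; write its elements as `f_j / g`, `f_j, g ∈ R`, and use induction
on `v(g)`: if `g` is a unit of `R`, `s ⊆ R`, so `R = ⊤`; otherwise all `f_j` are non-units and after a full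
blow-up `g` may be replaced by `g / x_1`. `AB` follows: if `R' = ⊤ ≠ R`, then `(x_1)` is the maximal ideal,
`R'/(x_1)` is a localisation of `(R/(x_1, x_2))[Y]` and a field, so `R/(x_1, x_2) = κ(R)` and
`κ(V) = κ(R)(Y)`. needs: nothing -/
def St_IP : Prop := ∀ (V : Type) [CommRing V] [IsDomain V] [IsDiscreteValuationRing V], Term V →
  ∀ P : Subring V → Prop, ∀ R₀ : Subring V, RegIn R₀ → P R₀ →
  (∀ R : Subring V, RegIn R → P R → ∀ x y : R, Indep R x y → ∀ z : V, (x : V) * z = y →
    ∀ R' : Subring V, IsLocOf (Subring.closure (insert z (R : Set V))) R' → RegIn R' → P R') → P ⊤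

/-- **TM**. The termination condition. Proof of the first: generators up to localisation. Second: the
residue fields of the rings `R` contain the residues of `s`. Let `s` be a finite set of lifts of elements
of `κ(V)` which are algebraically independent over the prime field, `d + 1` of them (`d` in
characteristic zero) (they exist as `KrLe d κ(V)` fails). If `R` is `RegIn`, `s ⊆ R`, and `0 ≠ q ≠ m` is a
prime of `R`, then `KrLe d κ(R)` by `DL` twice, a contradiction; so by `DV` `R` is a discrete valuation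
ring or a field, and dominated by `V` with the same field of fractions, hence `R = ⊤`. needs: DL, DV -/
def St_TM : Prop := ∀ (V : Type) [CommRing V] [IsDomain V] [IsDiscreteValuationRing V],
  (EssFin V → Term V) ∧
  ∀ (K : Type) [Field K] [Algebra V K] [IsFractionRing V K] (d : ℕ), KrLe (d + 2) K →
    ¬ KrLe d (IsLocalRing.ResidueField V) → Term V

/-- **VI**. The restriction of a discrete valuation ring `V'` of `K'` to `K`, `K'/K` finite. Proof:
`V = φ⁻¹ V'` (`ValuationSubring.comap`); it is not `K` since `V'` is integrally closed and `K'` algebraic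
over `K`; its value group is a non-zero subgroup of `ℤ`. `κ(V')` is algebraic over `κ(V)` (an equation over
`K` with coefficients in `V`, one of them a unit), so the transcendence degrees are the same.
needs: nothing -/
def St_VI : Prop := ∀ (K K' V' : Type) [Field K] [Field K'] [CommRing V'] [IsDomain V']
  [IsDiscreteValuationRing V'] [Algebra V' K'] [IsFractionRing V' K'] (φ : K →+* K') (N : ℕ),
  FinDeg φ N → ∃ (V : Type) (_ : CommRing V) (_ : IsDomain V) (_ : IsDiscreteValuationRing V)
    (_ : Algebra V K) (_ : IsFractionRing V K) (ψ : V →+* V'), IsLocalHom ψ ∧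
    (∀ v : V, φ (algebraMap V K v) = algebraMap V' K' (ψ v)) ∧
    (∀ (k : K) (v' : V'), φ k = algebraMap V' K' v' → ∃ v : V, algebraMap V K v = k) ∧
    ∀ d : ℕ, KrLe d (IsLocalRing.ResidueField V) → KrLe d (IsLocalRing.ResidueField V')

/-- **KA**. Algebraic extensions. needs: nothing -/
def St_KA : Prop := ∀ (K K' : Type) [Field K] [Field K'] (φ : K →+* K'),
  (∀ z : K', ∃ p : Polynomial K, p ≠ 0 ∧ Polynomial.eval₂ φ z p = 0) →
    ∀ d : ℕ, KrLe d K → KrLe d K'

/-- **WL**. `V'` is a localisation of the integral closure `W` of `V` in `K'`. Proof: `W` is a Dedekind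
domain with the field of fractions `K'`, contained
in `V'` (integrally closed); let `m' = m(V') ∩ W ≠ 0`; `W` localised at `m'` is a discrete valuation ring
with the field of fractions `K'`, dominated by `V'`, so equal to `V'`. needs: nothing -/
def St_WL : Prop := ∀ (K K' V V' : Type) [Field K] [Field K'] [CommRing V] [IsDomain V]
  [IsDiscreteValuationRing V] [Algebra V K] [IsFractionRing V K] [CommRing V'] [IsDomain V']
  [IsDiscreteValuationRing V'] [Algebra V' K'] [IsFractionRing V' K'] (φ : K →+* K') (N : ℕ)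
  (ψ : V →+* V'), FinDeg φ N → IsLocalHom ψ →
  (∀ v : V, φ (algebraMap V K v) = algebraMap V' K' (ψ v)) →
  ∀ v : V', ∃ a b : V', ψ.IsIntegralElem a ∧ ψ.IsIntegralElem b ∧ IsUnit b ∧ b * v = a

/-- **CF**. A flat model of `V'`. Proof: let `W` be the integral closure of `V` in `K'`: free of rank
`N` over `V` (finite by `FI` in `St6.lean`), with basis `e_i`. The structure constants and the
coefficients of `1` are in `V`; multiplying by units of `V` in `A` they are in `A_f = A[1/f]`, `j(f)` a unit.
So `C₀ = ⊕ A_f e_i` is a subring of `K'`, free over `A_f`, with `C₀ ⊗ V = W`. By `WL` `V'` is the localisation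
of `W`, hence of `C₀` (every element of `W` is an element of `C₀` divided by an element of `A_f` which is a
unit in `V`), at the elements which are units in `V'`; take `B = C₀`. needs: WL -/
def St_CF : Prop := ∀ (K K' V V' : Type) [Field K] [Field K'] [CommRing V] [IsDomain V]
  [IsDiscreteValuationRing V] [Algebra V K] [IsFractionRing V K] [CommRing V'] [IsDomain V']
  [IsDiscreteValuationRing V'] [Algebra V' K'] [IsFractionRing V' K'] (φ : K →+* K') (N : ℕ)
  (ψ : V →+* V'), FinDeg φ N → IsLocalHom ψ →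
  (∀ v : V, φ (algebraMap V K v) = algebraMap V' K' (ψ v)) →
  ∀ (A : Type) [CommRing A] [IsDomain A] [Algebra.FiniteType ℤ A] (j : A →+* V),
    Function.Injective j → (∀ v : V, ∃ a b : A, IsUnit (j b) ∧ j b * v = j a) →
    ∃ (B : Type) (_ : CommRing B) (_ : IsDomain B) (_ : Algebra.FiniteType ℤ B) (γ : A →+* B)
      (δ : B →+* V'), γ.Flat ∧ Function.Injective δ ∧ δ.comp γ = ψ.comp j ∧
      ∀ v : V', ∃ a b : B, IsUnit (δ b) ∧ δ b * v = δ a

/-! ### unramified classes -/

/-- **GY**. The Gysin map of `x Y - y`. Proof: let `R₁ = A[Y]`, `h = x Y - y`, `A' = R₁/(h)`, and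
`M = R₁[T, u]/(u T - h)`. Then `M/(T) = A'[u]` and `M[1/T] = R₁[T, 1/T]`. Let `β ∈ T_n(A)`. By `PZ` and `exZ`
there is `δ ∈ T_(n+1)(A[T, 1/T])` with boundary `β` for `T = 0` in `Spec A[T]`. Let `γ ∈ T_n(A'[u])` be the
boundary (for `T = 0` in `Spec M`) of the pull-back of `δ` to `R₁[T, 1/T]`, and `β' ∈ T_n(A')` the class with
pull-back `γ` (homotopy invariance). Over `A[1/x]`: `M[1/x] = A[1/x][T, u]` (`Y = (u T + y)/x`) is flat
over `A[T]`, and `M[1/x]/(T) = A[1/x][u]`; by naturality of the boundary (`nat`, twice) the restriction of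
`γ` is the pull-back of `β`; so the pull-backs of `β'` and `β` to `A[1/x][u]` agree, and those to
`W = A[1/x]` (homotopy invariance). (`Spec M → Spec A` is used only through `R₁[T, 1/T] ← A[T, 1/T]`, flat.)
There are explicit lemmas for pull-backs, push-forwards, localisations of rings in `KTX/R0.lean` and
following. needs: nothing -/
def St_GY : Prop := ∀ (L : LThy.{1}), PZ L → ∀ (A A' W : Type) [CommRing A] [CommRing A']
  [CommRing W] [IsNoetherianRing A] [IsNoetherianRing A'] (ι : A →+* A') (x y : A) (z : A'),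
  Function.Surjective (Polynomial.eval₂ ι z) →
  (∀ p : Polynomial A, Polynomial.eval₂ ι z p = 0 ↔ ∃ q, p = (C x * X - C y) * q) →
  ∀ (l : A' →+* W), IsLoc (ι x) l → ∀ [Flat (Sm l)] [Flat (Sm (l.comp ι))] (n : ℤ)
    (β : (L.th n).T (Sp A)), ∃ β' : (L.th n).T (Sp A'),
      (L.th n).pull (Sm l) β' = (L.th n).pull (Sm (l.comp ι)) β

/-- **KE**. The kernel of `A[Y] → V`, `Y ↦ z`, `x z = y`, if `y` is regular modulo `x`: it is generated by
`x Y - y`. Proof: induction on the degree: if `∑ a_i z^i = 0`, `i ≤ n`, multiply by `x^n`: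
`x` divides `a_n y^n`, so `a_n = x a`; subtract `a Y^(n-1) (x Y - y)`. needs: nothing -/
def St_KE : Prop := ∀ (A V : Type) [CommRing A] [IsDomain A] [CommRing V] [IsDomain V]
  (j : A →+* V) (x y : A) (z : V), Function.Injective j → x ≠ 0 → j x * z = j y →
  (∀ a : A, x ∣ a * y → x ∣ a) → ∀ p : Polynomial A, Polynomial.eval₂ j z p = 0 ↔
    ∃ q, p = (C x * X - C y) * q

/-- **UR**. Unramifiedness. Proof: `IP` with `P R` = there are data as in `Unram` with `R` instead of `V`: a
finitely generated subring `A ⊆ V` with `IsLocOf A R`, `w ∈ A`, `i : Spec A[1/w] → X`, .., and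
(`R = range l`, or `w` is not a unit). Start: `R₀ = range l`, an affine open neighbourhood of `x`, `w = 1`.
Step: `x, y ∈ R`, `z`: multiply `x`, `y` by a unit of `V` in `A` so that `x, y ∈ A` (the same `z`). As `x, y` are
independent, `y` is regular modulo `x` in the regular local ring `R` (`x` generates a prime ideal); the
ideal `(x : y)/(x)` of the noetherian ring `A/(x)` is finitely generated and vanishes in `R/(x)`, so after
inverting an element `s ∈ A`, a unit in `V`, `y` is regular modulo `x` in `A`. Then `A' = A[z]` is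
`A[Y]/(xY - y)` (`KE`), `w' = w x`, `A'[1/(w x)] = A[1/(w x)]`, and by `GY` the class `β` on `Spec A` gives
`β'` on `Spec A'` with the same restriction to `A[1/x]`. `IsLocOf A' R'` is clear. needs: IP, GY, KE (and the
facts on regular local rings in the file `AB.lean` or `IP.lean`) -/
def St_UR : Prop := ∀ (L : LThy.{1}), PZ L → ∀ (Z : Scheme.{0}) [IsIntegral Z], FinType ℤ Z →
  ∀ (K V : Type) [Field K] [CommRing V] [IsDomain V] [IsDiscreteValuationRing V] [Algebra V K]
  [IsFractionRing V K], Term V → ∀ (x : Z) (l : Z.presheaf.stalk x →+* V), IsLocalHom l →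
  Function.Injective l → IsRegularLocalRing (Z.presheaf.stalk x) → SameFrac l →
    Unram L Z K V (Spec.map (CommRingCat.ofHom ((algebraMap V K).comp l)) ≫ Z.fromSpecStalk x)
      (Function.Bijective l)

/-- **G5**. The centre of an abstract valuation ring. Proof: as `G2` (valuative criterion for
`X → Spec ℤ`). needs: nothing -/
def St_G5 : Prop := ∀ (Z : Scheme.{0}) [IsIntegral Z], ProperZ Z → ∀ (V : Type) [CommRing V]
  [IsDomain V] [ValuationRing V] [Algebra V Z.functionField] [IsFractionRing V Z.functionField],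
  ∃ (x : Z) (l : Z.presheaf.stalk x →+* V), IsLocalHom l ∧
    ∀ s : Z.presheaf.stalk x, algebraMap V Z.functionField (l s) = (toF Z x).hom s

/-- **NB**. From `Unram` to `ExtAt`. Proof: `CF` gives `B`, `γ`, `δ` for `V' = 𝒪_{Y,y}`. The local ring of
`Spec B` at `m(V') ∩ B` is `V'`, so (`G1` for `Spec B` and `Y` over `ℤ`, or spreading out) there is an open
immersion `Spec B[1/b] → Y`, `δ(b)` a unit, compatible with the generic points, with `y` in the image. Let
`w`, `i` be as in `Unram`. Enlarging `b` one gets: (1) the image `W` does not meet `F`; (2) `W \ U` is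
contained in the closure of `y` (`y ∉ U` is a maximal point of `Y \ U` since `𝒪_{Y,y}` is a discrete
valuation ring: the other irreducible components of the noetherian space `Y \ U` do not contain `y`);
(3) the zero set of `γ(w)` in `Spec B[1/b]` is the closure of `y` (`γ(w)` is not a unit of `V'`, and not
zero, so it generates a power of the maximal ideal of `V'`). So `W ∩ U = Spec B[1/b][1/w]`. Let `β ∈ T_n(A)`
be the class of `Unram` for `α`; its pull-back to `B[1/b]` restricts on `B[1/b][1/w]` to the pull-back of `α`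
along `Spec B[1/b][1/w] → Spec A[1/w] → X`; this morphism and `W ∩ U → U → X` agree at the generic point,
so they are equal (`X` separated, `Y` reduced). needs: CF, G1 -/
def St_NB : Prop := ∀ (L : LThy.{1}) (X Y : Scheme.{0}) [IsIntegral X] [IsIntegral Y]
  [X.IsSeparated] [Y.IsSeparated], FinType ℤ X → FinType ℤ Y →
  ∀ (φ : X.functionField →+* Y.functionField) (N : ℕ), FinDeg φ N →
  ∀ (U : Y.Opens) (hU : genericPoint Y ∈ U) (ρ : U.toScheme ⟶ X) [Flat ρ],
  etaU U hU ≫ ρ = etaX φ → ∀ y : Y, y ∉ U → IsDiscreteValuationRing (Y.presheaf.stalk y) →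
  ∀ (V : Type) [CommRing V] [IsDomain V] [IsDiscreteValuationRing V] [Algebra V X.functionField]
    [IsFractionRing V X.functionField] (ψ : V →+* Y.presheaf.stalk y), IsLocalHom ψ →
    (∀ v : V, φ (algebraMap V X.functionField v) = (toF Y y).hom (ψ v)) →
    Unram L X X.functionField V (X.fromSpecStalk (genericPoint X)) False → ExtAt L U ρ y

/-- **MV**. Extension of classes. Proof: let `E` be the complement of `U` in `U ⊔ V` (a closed subscheme
`i : E → U ⊔ V`); its intersection with `V` is `E` again, closed in `V` with complement `U ⊓ V`. By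
naturality (`nat`, for the open immersion `V → U ⊔ V`) the boundary of `α` in `T_(n-1)(E)` is the boundary
of the restriction of `α` to `U ⊓ V`, zero by `bd_pull`; `exU`. (`n = m + 1`.) needs: nothing -/
def St_MV : Prop := ∀ (L : LThy.{1}) (Y : Scheme.{0}) [IsNoetherian Y] (U V : Y.Opens) (n : ℤ)
  (α : (L.th n).T U.toScheme) (β : (L.th n).T V.toScheme),
  (L.th n).pull (Y.homOfLE (inf_le_left : U ⊓ V ≤ U)) α =
    (L.th n).pull (Y.homOfLE (inf_le_right : U ⊓ V ≤ V)) β →
  ∃ γ : (L.th n).T (U ⊔ V : Y.Opens).toScheme,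
    (L.th n).pull (Y.homOfLE (le_sup_left : U ≤ U ⊔ V)) γ = α

/-- **GL**. Extension to finitely many points. Proof: induction on `s`, with `Y'` contained in the union of
`U` and the closures of the points: for a new point `y` let `W` be as in `ExtAt` for `F` the union of the
closures of the other points of `s`; then `W ⊓ Y'` is contained in `U` (a point of `Y' \ U` is in the closure
of another point), so the class on `Y'` and the class on `W` agree on `W ⊓ Y' = W ⊓ U`; `MV`. needs: MV -/
def St_GL : Prop := ∀ (L : LThy.{1}) (X Y : Scheme.{0}) [IsNoetherian Y] [IsNoetherian X]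
  (U : Y.Opens) (ρ : U.toScheme ⟶ X) [Flat ρ] (s : Finset Y), (∀ y ∈ s, y ∉ U) →
  (∀ y ∈ s, ∀ z ∈ s, y ∈ closure ({z} : Set Y) → y = z) → (∀ y ∈ s, ExtAt L U ρ y) →
  ∃ (Y' : Y.Opens) (h : U ≤ Y'), (∀ y ∈ s, y ∈ Y') ∧ ∀ (n : ℤ) (α : (L.th n).T X),
    ∃ β : (L.th n).T Y'.toScheme, (L.th n).pull (Y.homOfLE h) β = (L.th n).pull ρ α

/-! ### the normalisation -/

/-- **NR**. Integral regular schemes are normal. Proof: by induction on `dim 𝒪_{X,x}`: let `x₁` be in the
maximal ideal `m` of `O = 𝒪_{X,x}`, not in `m²`; `O/(x₁)` is regular, so a domain, and `O[1/x₁]` is normal as the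
localisations of `O[1/x₁]` at its primes are local rings `𝒪_{X,x'}` of smaller dimension (a ring is the
intersection of the localisations at the maximal ideals). An element `z = a/x₁^k ∈ Frac O` integral over
`O`, `x₁ ∤ a`, `k ≥ 1`: the equation gives `x₁ ∣ a^n`, a contradiction. needs: nothing (domains: see
`AB.lean` / `IP.lean`) -/
def St_NR : Prop := ∀ (Z : Scheme.{0}) [IsIntegral Z], KGT.W.Regular Z → ∀ x : Z,
  IsIntegrallyClosed (Z.presheaf.stalk x)

/-- **NN**. The normalisation in a finite extension. Proof: Mathlib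
`AlgebraicGeometry.Scheme.Hom.normalization` of the morphism `etaX φ : Spec K' → X`
(`Mathlib/AlgebraicGeometry/Normalization.lean`): over an affine open `Spec A` it is the spectrum of the
integral closure of `A` in `K'`, finite over `A` since `A` is noetherian and integrally closed
(`IsIntegrallyClosed.of_localization...`, all stalks are), by `FI`. The field of fractions of the integral closure is `K'`. The stalks are
localisations of integrally closed domains. needs: FI -/
def St_NN : Prop := ∀ (X : Scheme.{0}) [IsIntegral X] [IsNoetherian X], FinType ℤ X →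
  (∀ x : X, IsIntegrallyClosed (X.presheaf.stalk x)) → ∀ (K' : Type) [Field K']
  (φ : X.functionField →+* K') (N : ℕ), FinDeg φ N →
  ∃ (X₁ : Scheme.{0}) (_ : IsIntegral X₁) (π : X₁ ⟶ X) (_ : IsFinite π)
    (ε : X₁.functionField ≃+* K'),
    Spec.map (CommRingCat.ofHom (ε : X₁.functionField →+* K')) ≫
      X₁.fromSpecStalk (genericPoint X₁) ≫ π = etaX φ ∧
    ∀ x : X₁, IsIntegrallyClosed (X₁.presheaf.stalk x)

/-- **N2**. The points of an integral scheme with integrally closed stalks: as `G4`. Proof: as `G4`; a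
noetherian integrally closed local domain of dimension one is a discrete valuation ring. needs: DL -/
def St_N2 : Prop := ∀ (Z : Scheme.{0}) [IsIntegral Z] [IsNoetherian Z],
  (∀ x : Z, IsIntegrallyClosed (Z.presheaf.stalk x)) → ∀ d : ℕ,
  KrLe (d + 2) Z.functionField → ∀ x : Z, KrLe d (Z.residueField x) ∨ x = genericPoint Z ∨
    (IsDiscreteValuationRing (Z.presheaf.stalk x) ∧ KrLe (d + 1) (Z.residueField x))

/-- **N3**. The locus where `π` is locally free. Proof: let `x ∈ X` with `𝒪_{X,x}` a discrete valuation ring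
or a field, `Spec A` an affine open neighbourhood, `B = Γ(π⁻¹ Spec A)`, a finite torsion-free `A`-module. Then
`B ⊗ 𝒪_{X,x}` is free of rank `N = [K(X₁) : K(X)]`; a basis can be taken in `B`, and it is a basis over `A[1/a]`
for some `a` not vanishing at `x` (finite presentation: `Module.FinitePresentation` has lemmas on
localisations of isomorphisms). `X°` is the union of these open sets. (The second statement: `Flat`
is local.) needs: nothing -/
def St_N3 : Prop := ∀ (X X₁ : Scheme.{0}) [IsIntegral X] [IsIntegral X₁] [IsNoetherian X]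
  (π : X₁ ⟶ X) [IsFinite π] (K' : Type) [Field K'] (ε : X₁.functionField ≃+* K')
  (φ : X.functionField →+* K') (N : ℕ), FinDeg φ N →
  Spec.map (CommRingCat.ofHom (ε : X₁.functionField →+* K')) ≫
      X₁.fromSpecStalk (genericPoint X₁) ≫ π = etaX φ →
  ∃ X₀ : X.Opens, (∀ x : X, IsDiscreteValuationRing (X.presheaf.stalk x) → x ∈ X₀) ∧
    genericPoint X ∈ X₀ ∧ LocFree (π ∣_ X₀) N ∧ Flat (π ∣_ X₀)

/-- **N4**. `π_* π^*` is `N` plus a nilpotent operator. Proof: let `θ_Z = π_* π^*` on `T_n(Z)` for closed
subschemes `Z` of `X` (with the base change of `π`). By noetherian induction (closed subsets) there is an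
`e` with `(θ_Z - N)^e = 0` on `T_n(Z)`: let `Z' ⊆ Z` be an affine open non-empty subset contained in some `W` of
`LocFree` (a basic open subset), `i : Z'' → Z` the complement: `θ = N` on `T_n(Z')` (axiom `free`, the base
change of a free algebra is free), `θ` commutes with restriction to `Z'` and with `i_*` (axiom `bc`,
`push_comp`); for `α ∈ T_n(Z)`, `(θ - N) α` vanishes on `Z'`, so it is `i_* β`, and `(θ - N)^e'' i_* β = 0`. (`GQ.sch_ind`
may help.) needs: nothing -/
def St_N4 : Prop := ∀ (L : LThy.{1}) (X X₁ : Scheme.{0}) [IsNoetherian X] (π : X₁ ⟶ X)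
  [IsFinite π] [Flat π] (N : ℕ), LocFree π N → ∀ n : ℤ, ∃ e : ℕ, ∀ α : (L.th n).T X,
    (fun a => (L.th n).push π ((L.th n).pull π a) - N • a)^[e] α = 0

/-! ### complete models -/

/-- **C1**. Regular proper schemes are complete. Proof: let `x₁` be as in `Complete`. `G2` (over `ℤ`) gives
the centre `y` and `l : 𝒪_{Y,y} → 𝒪_{X₁,x₁}`; by `AB` and `G3` it is bijective, so `Compat`, or the residue field is
`L(t)`; it has `KrLe (d + 1)` (`DL`), so `KrLe d L` (`KL`), and it is good (`K4`). needs: AB, DL, KL, K4, G2, G3 -/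
def St_C1 : Prop := ∀ (𝒮 : (G : Type 1) → [AddCommGroup G] → Prop), SerreClass 𝒮 → ∀ d : ℕ,
  Low 𝒮 d → ∀ (Y : Scheme.{0}) [IsIntegral Y], ProperZ Y → KGT.W.Regular Y →
    KrLe (d + 2) Y.functionField → ∀ n : ℕ, Complete 𝒮 n Y

/-- **C2**. `Spec D[t]` is complete if `Frac D` is good. Proof: as in `PII`: `V1` for `V = 𝒪_{X₁,x₁}`: the
residue field is ruled (good as in `C1`), or isomorphic to `F = Frac D` (good), or `F[t] ⊆ V`; then
let `y` be the preimage of the maximal ideal in `D[t]`: `y ∩ D = 0`, `y ≠ 0`, `𝒪_{Y,y} = F[t]_q` is a discrete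
valuation ring dominated by `V`, so equal. needs: AB, DL, KL, K4, G3, V1 -/
def St_C2 : Prop := ∀ (𝒮 : (G : Type 1) → [AddCommGroup G] → Prop), SerreClass 𝒮 → ∀ d : ℕ,
  Low 𝒮 d → ∀ (D F : Type) [CommRing D] [IsDomain D] [Algebra.FiniteType ℤ D] [Field F]
  [Algebra D F] [IsFractionRing D F], KrLe (d + 1) F → ∀ n : ℕ, GoodIn 𝒮 n F →
    ∀ [IsIntegral (Sp (Polynomial D))], Complete 𝒮 n (Sp (Polynomial D))

/-! ### assembly -/

/-- the main step of (III) -/
def Dom0 (𝒮 : (G : Type 1) → [AddCommGroup G] → Prop) (d : ℕ) : Prop :=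
  ∀ (X Y : Scheme.{0}) [IsIntegral X] [IsIntegral Y] [Y.IsSeparated], ProperZ X →
    KGT.W.Regular X → KrLe (d + 2) X.functionField → FinType ℤ Y → KGT.W.Regular Y →
    ∀ (φ : X.functionField →+* Y.functionField) (N : ℕ), FinDeg φ N → ∀ n : ℕ,
      Complete 𝒮 n Y → 𝒮 (KX n Y) → MulIn 𝒮 (N ^ 2) (KX n X)

/-- **N7**. The points of `Y` outside of `U`. Proof: `V' = 𝒪_{Y,y}`, `V` its restriction to `K(X)`, `ψ` (`VI`);
`Term V` by `TM` (`¬ KrLe d κ(V)`, otherwise `KrLe d κ(y)`). `X₁` is proper over `ℤ`; let `x₁` be the centre of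
`V'` on `X₁` (`G5`; `K(X₁) = K(Y)` by `θ`), `x = π(x₁)`. `𝒪_{X,x} → 𝒪_{X₁,x₁} → V'` (local, injective) factors
through `l : 𝒪_{X,x} → V` by the third property of `VI`; `l` is local, injective, `SameFrac`. (a) Let `l` be
bijective. If `v ∈ V'`, then `b v = a`, `b` a unit of `V'`, `a`, `b` integral over `V` (`WL`), so in `𝒪_{X₁,x₁}`
(integrally closed), and `b` is a unit of `𝒪_{X₁,x₁}`; so `𝒪_{X₁,x₁} = V'`, `x₁` and `y` are compatible; excluded.
(b) Otherwise `UR` (with `η`: the generic point of `X`) and `NB`. needs: VI, TM, WL, G5, UR, NB -/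
def St_N7 : Prop := ∀ (L : LThy.{1}), PZ L → ∀ (d : ℕ) (X X₁ Y : Scheme.{0}) [IsIntegral X]
  [IsIntegral X₁] [IsIntegral Y] [Y.IsSeparated], ProperZ X → KGT.W.Regular X →
  KrLe (d + 2) X.functionField → FinType ℤ Y → ∀ (φ : X.functionField →+* Y.functionField)
  (N : ℕ), FinDeg φ N → ∀ (π : X₁ ⟶ X) [IsFinite π] (θ : Y.functionField ≅ X₁.functionField),
  Spec.map θ.inv ≫ X₁.fromSpecStalk (genericPoint X₁) ≫ π = etaX φ →
  (∀ x : X₁, IsIntegrallyClosed (X₁.presheaf.stalk x)) →
  ∀ (U : Y.Opens) (hU : genericPoint Y ∈ U) (ρ : U.toScheme ⟶ X) [Flat ρ],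
  etaU U hU ≫ ρ = etaX φ → ∀ y : Y, y ∉ U → IsDiscreteValuationRing (Y.presheaf.stalk y) →
  ¬ KrLe d (Y.residueField y) → (∀ x₁ : X₁, ¬ Compat θ x₁ y) → ExtAt L U ρ y

/-- **AL**. The algebra of the last step. `G = T_n(X)`, `G₀ = T_n(X°)`, `H = T_n(X₁°)`, `E = T_n(U)`,
`M = T_n(Y')`. Proof: let `I` be the image of `p ∘ r` in `H`. Its image in `E` is contained in the image of
`w`, so it is in `𝒮` (subgroups and quotients), and the kernel of `I → E` is in `𝒮`; so `I` is in `𝒮`. With
`θ = q ∘ p`, `(θ - N)^e = 0` gives `N^e = θ' ∘ θ`, `θ'` a polynomial in `θ` with integer coefficients, up to sign;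
so `N^e r(G) ⊆ θ' (q (I))` is in `𝒮`; and the kernel of `r` is in `𝒮`. needs: nothing -/
def St_AL : Prop := ∀ (𝒮 : (G : Type 1) → [AddCommGroup G] → Prop), SerreClass 𝒮 →
  ∀ (G G₀ H E M : Type 1) [AddCommGroup G] [AddCommGroup G₀] [AddCommGroup H] [AddCommGroup E]
    [AddCommGroup M] (r : G →+ G₀) (p : G₀ →+ H) (q : H →+ G₀) (u : H →+ E) (w : M →+ E)
    (N e : ℕ), 𝒮 r.ker → 𝒮 u.ker → 𝒮 M → (∀ g : G, ∃ m : M, w m = u (p (r g))) →
    (∀ a : G₀, (fun a => q (p a) - N • a)^[e] a = 0) → MulIn 𝒮 (N ^ e) G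

/-- **N9**. Proof: the docstring of this file. `X₁`, `π` (`NR`, `NN`), `X°` (`N3`), `G1` for `X₁` and `Y` gives the
largest common open `U₀`; `U = U₀ ∩ π⁻¹ X°`. Points of `X \ X°`: `KrLe d` (`G4`), good. Points of
`π⁻¹ X° \ U`: by `N2` good, or discrete valuation rings with bad residue field, local rings of `Y`
(`Complete`), excluded (`G1`). Bad points `y` of `Y \ U`: by `G4` (`Y` regular) discrete valuation rings,
maximal points of `Y \ U`, so finitely many; if `y` is compatible with some `x₁ ∈ X₁`, then `x₁ ∈ U₀`, so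
`π(x₁) ∉ X°`, `KrLe d κ(π(x₁))` and `KrLe d κ(x₁)` (finite extension, `KA`), so `KrLe d κ(y)`. Here bad means
`¬ KrLe d κ(y)`. So `N7`, `GL` with all bad points `y` of `Y \ U` (no specialisations between them).
`T_n(Y')` is in `𝒮` (`K3`: the points of `Y \ Y'` are good, `K2`). Then `N4` and `AL`.
(`K3`, `K1` for `GoodIn` in one degree: for the points of `π⁻¹ X° \ U` only the image of `T_n` of the
complement is needed; `KN` of `St2.lean`.) needs: all above -/
def St_N9 : Prop := ∀ (𝒮 : (G : Type 1) → [AddCommGroup G] → Prop), SerreClass 𝒮 → ∀ d : ℕ,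
  Low 𝒮 d → Dom0 𝒮 d

/-- **PIII** (III). Proof: (a) `C1` and `Dom0`. (b) `D` as in `V2` for `T` (one degree: `St2.lean`),
`Y = Spec D[t]`, `C2` and `Dom0`; `K'_n(D[t]) = K'_n(D)`. needs: all above -/
def St_PIII : Prop := ∀ (𝒮 : (G : Type 1) → [AddCommGroup G] → Prop), SerreClass 𝒮 → ∀ d : ℕ,
  Low 𝒮 d → Dominated 𝒮 d

end Pool.Agent.BTF
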