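import Pool.Agent.BTF.AB
import Pool.Agent.BTF.St3

/-!
# BTF IP: induction along the chain of blow-ups inside a discrete valuation ring
-/

set_option autoImplicit false

noncomputable section

namespace Pool.Agent.BTF

namespace IP

open IsLocalRing Polynomial

/-- regular parameters are not in the square of the maximal ideal -/
theorem not_sq {Q : Type} [CommRing Q] [IsLocalRing Q] [IsNoetherianRing Q] {z : Q} {l : List Q}
    (h : RP Q (z :: l)) : z ∉ maximalIdeal Q ^ 2 := by
  classical
  intro hz2
  have hreg : IsRegularLocalRing Q := h.regular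
  have hzm : z ∈ maximalIdeal Q := h.mem z List.mem_cons_self
  have hz0 : z ≠ 0 := by
    intro h0
    have h1 := h.wr [] z l rfl 1 (by
      rw [h0, zero_mul]
      exact Ideal.zero_mem _)
    rw [Ideal.ofList_nil, Ideal.mem_bot] at h1
    exact one_ne_zero h1
  have hloc : IsLocalRing (Q ⧸ Ideal.span {z}) :=
    isLocalRing_quot _ ((Ideal.span_singleton_le_iff_mem _).2 hzm)
  have hQ : IsRegularLocalRing (Q ⧸ Ideal.span {z}) := h.tail.regular
  have hd := dim_quot_eq z hzm hz0
  have hfg : (maximalIdeal (Q ⧸ Ideal.span {z})).FG :=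
    (maximalIdeal (Q ⧸ Ideal.span {z})).fg_of_isNoetherianRing
  have hG := Submodule.FG.finite_generators hfg
  let G := (maximalIdeal (Q ⧸ Ideal.span {z})).generators
  have hGs : Ideal.span G = maximalIdeal (Q ⧸ Ideal.span {z}) :=
    (maximalIdeal (Q ⧸ Ideal.span {z})).span_generators
  let π := Ideal.Quotient.mk (Ideal.span {z})
  obtain ⟨f, hf⟩ := (Ideal.Quotient.mk_surjective (I := Ideal.span {z})).hasRightInverse
  have hle : Ideal.span (f '' G) ≤ maximalIdeal Q := by
    rw [Ideal.span_le]
    rintro _ ⟨g, hg, rfl⟩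
    rw [SetLike.mem_coe, ← mk_mem_max (Ideal.span {z}), hf, ← hGs]
    exact Ideal.subset_span hg
  have hm : maximalIdeal Q ≤ Ideal.span (f '' G) := by
    apply Submodule.le_of_le_smul_of_le_jacobson_bot (I := maximalIdeal Q)
      (maximalIdeal Q).fg_of_isNoetherianRing
    · rw [IsLocalRing.jacobson_eq_maximalIdeal ⊥ bot_ne_top]
    · intro y hy
      rw [← mk_mem_max (Ideal.span {z}), ← hGs] at hy
      have h1 : Ideal.span G = (Ideal.span (f '' G)).map π := by
        rw [Ideal.map_span]
        congr 1
        rw [← Set.image_comp]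
        have : (fun g => π (f g)) '' G = G := by
          have h2 : (fun g => π (f g)) = id := funext hf
          rw [h2, Set.image_id]
        exact this.symm
      rw [h1, Ideal.mem_quotient_iff_mem_sup] at hy
      rw [smul_eq_mul, ← pow_two]
      exact (sup_le_sup_left ((Ideal.span_singleton_le_iff_mem _).2 hz2) _) hy
  have h1 : (maximalIdeal Q).spanFinrank ≤
      (maximalIdeal (Q ⧸ Ideal.span {z})).spanFinrank := by
    rw [le_antisymm hm hle, ← Submodule.FG.generators_ncard hfg]
    exact (Submodule.spanFinrank_span_le_ncard_of_finite (hG.image f)).trans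
      (Set.ncard_image_le hG)
  omega

theorem indep_max {Q : Type} [CommRing Q] [IsLocalRing Q] [IsNoetherianRing Q] {x z : Q}
    {l : List Q} (h : RP Q (x :: z :: l)) (a b : Q) (hab : a * x + b * z ∈ maximalIdeal Q ^ 2) :
    a ∈ maximalIdeal Q ∧ b ∈ maximalIdeal Q := by
  have hxm : x ∈ maximalIdeal Q := h.mem x (by simp)
  have hzm : z ∈ maximalIdeal Q := h.mem z (by simp)
  have hb : b ∈ maximalIdeal Q := by
    by_contra hb
    rw [mem_maximalIdeal] at hb
    have hbu : IsUnit b := not_not.1 hb
    have hloc : IsLocalRing (Q ⧸ Ideal.span {x}) :=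
      isLocalRing_quot _ ((Ideal.span_singleton_le_iff_mem _).2 hxm)
    have h1 := not_sq (z := Ideal.Quotient.mk (Ideal.span {x}) z) h.tail
    apply h1
    have h2 : (maximalIdeal Q ^ 2).map (Ideal.Quotient.mk (Ideal.span {x})) ≤
        maximalIdeal (Q ⧸ Ideal.span {x}) ^ 2 := by
      rw [Ideal.map_pow]
      apply Ideal.pow_right_mono
      rw [Ideal.map_le_iff_le_comap, comap_max]
    have h3 := h2 (Ideal.mem_map_of_mem _ hab)
    rw [map_add, map_mul, map_mul, Ideal.Quotient.eq_zero_iff_mem.2
      (Ideal.mem_span_singleton_self x), mul_zero, zero_add] at h3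
    exact (Ideal.unit_mul_mem_iff_mem _ (hbu.map (Ideal.Quotient.mk (Ideal.span {x})))).1 h3
  refine ⟨?_, hb⟩
  by_contra ha
  rw [mem_maximalIdeal] at ha
  have hau : IsUnit a := not_not.1 ha
  have h1 : a * x ∈ maximalIdeal Q ^ 2 := by
    have h2 : b * z ∈ maximalIdeal Q ^ 2 := by
      rw [pow_two]
      exact Ideal.mul_mem_mul hb hzm
    have h3 := Ideal.sub_mem _ hab h2
    rwa [add_sub_cancel_right] at h3
  exact not_sq h ((Ideal.unit_mul_mem_iff_mem _ hau).1 h1)

theorem WR_equiv {Q Q' : Type} [CommRing Q] [CommRing Q'] (e : Q ≃+* Q') {l : List Q}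
    (h : WR l) : WR (l.map e) := by
  intro l₁ a l₂ hl y hy
  obtain ⟨m₁, m₂, rfl, rfl, h2⟩ := List.map_eq_append_iff.1 hl
  obtain ⟨b, m₃, rfl, rfl, rfl⟩ := List.map_eq_cons_iff.1 h2
  have hmem : ∀ u : Q', u ∈ Ideal.ofList (m₁.map e) ↔ e.symm u ∈ Ideal.ofList m₁ := by
    intro u
    have h3 : Ideal.ofList (m₁.map e) = (Ideal.ofList m₁).map (e : Q →+* Q') := by
      rw [Ideal.map_ofList]
      rfl
    rw [h3]
    constructor
    · intro h4
      have h5 := Ideal.mem_map_of_mem (e.symm : Q' →+* Q) h4
      rw [Ideal.map_map] at h5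
      have h6 : ((e.symm : Q' →+* Q).comp (e : Q →+* Q')) = RingHom.id Q := by
        ext t
        simp
      rw [h6, Ideal.map_id] at h5
      exact h5
    · intro h4
      have h5 := Ideal.mem_map_of_mem (e : Q →+* Q') h4
      have h6 : (e : Q →+* Q') (e.symm u) = u := e.apply_symm_apply u
      rwa [h6] at h5
  rw [hmem] at hy ⊢
  apply h m₁ b m₃ rfl
  rw [map_mul, e.symm_apply_apply] at hy
  exact hy

theorem RP_equiv {Q Q' : Type} [CommRing Q] [CommRing Q'] [IsLocalRing Q] [IsLocalRing Q']
    (e : Q ≃+* Q') {l : List Q} (h : RP Q l) : RP Q' (l.map e) where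
  mem := by
    intro y hy
    obtain ⟨x, hx, rfl⟩ := List.mem_map.1 hy
    have h1 := h.mem x hx
    rw [mem_maximalIdeal] at h1 ⊢
    intro h2
    apply h1
    have h3 := h2.map e.symm
    rwa [e.symm_apply_apply] at h3
  wr := WR_equiv e h.wr
  quo := by
    have := h.quo
    have h3 : Ideal.ofList (l.map e) = (Ideal.ofList l).map (e : Q →+* Q') := by
      rw [Ideal.map_ofList]
      rfl
    exact IsRegularLocalRing.of_ringEquiv
      (Ideal.quotientEquiv (Ideal.ofList l) (Ideal.ofList (l.map e)) e h3)

section Step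

variable {V : Type} [CommRing V] [IsDomain V] [IsDiscreteValuationRing V] (R : Subring V)
  (hR : RegIn R)

include hR in
theorem local_sub : IsLocalHom R.subtype := ⟨fun r hr => hR.dom r hr⟩

include hR in
theorem mIn_eq [IsLocalRing R] : mIn R = maximalIdeal R := by
  have := local_sub R hR
  ext r
  change R.subtype r ∈ maximalIdeal V ↔ _
  rw [mem_maximalIdeal, mem_maximalIdeal]
  exact not_congr (isUnit_map_iff R.subtype r)

variable (x z : R) (y : V) (hy : (z : V) = x * y)

/-- the blown up subring -/
def nxt : Subring V := (th R.subtype x z y hy).range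

theorem eval_mem (F : R[X]) :
    eval₂ R.subtype y F ∈ Subring.closure (insert y (R : Set V)) := by
  induction F using Polynomial.induction_on' with
  | add p q hp hq =>
    rw [eval₂_add]
    exact Subring.add_mem _ hp hq
  | monomial n a =>
    rw [eval₂_monomial]
    exact Subring.mul_mem _ (Subring.subset_closure (Set.mem_insert_of_mem _ a.2))
      (Subring.pow_mem _ (Subring.subset_closure (Set.mem_insert _ _)) _)

theorem exists_eval {v : V} (hv : v ∈ Subring.closure (insert y (R : Set V))) :
    ∃ F : R[X], eval₂ R.subtype y F = v := by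
  have h1 : Subring.closure (insert y (R : Set V)) ≤ (eval₂RingHom R.subtype y).range := by
    rw [Subring.closure_le]
    intro u hu
    rcases Set.mem_insert_iff.1 hu with rfl | hu
    · exact ⟨Polynomial.X, eval₂_X _ _⟩
    · exact ⟨Polynomial.C ⟨u, hu⟩, eval₂_C _ _⟩
  exact h1 hv

theorem isLocOf_nxt : IsLocOf (Subring.closure (insert y (R : Set V))) (nxt R x z y hy) := by
  intro v
  constructor
  · rintro ⟨r, rfl⟩
    obtain ⟨F, s, hs, hF⟩ := surj_frac R.subtype x z y hy r
    refine ⟨_, eval_mem R y F, _, eval_mem R y s, ?_, ?_⟩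
    · by_contra h
      exact hs ((mem_maximalIdeal _).2 h)
    · rw [mul_comm]
      exact hF
  · rintro ⟨a, ha, b, hb, hbu, hv⟩
    obtain ⟨F, rfl⟩ := exists_eval R y ha
    obtain ⟨s, rfl⟩ := exists_eval R y hb
    have hs : s ∈ (cen R.subtype y).primeCompl := fun h => (mem_maximalIdeal _).1 h hbu
    refine ⟨Ideal.Quotient.mk _ (IsLocalization.mk' (Bl R.subtype y) F
      (⟨s, hs⟩ : (cen R.subtype y).primeCompl)), ?_⟩
    rw [th_mk]
    have h1 : lam R.subtype y (IsLocalization.mk' (Bl R.subtype y) F
        (⟨s, hs⟩ : (cen R.subtype y).primeCompl)) * eval₂ R.subtype y s =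
        eval₂ R.subtype y F := by
      rw [← lam_alg, ← lam_alg, ← map_mul]
      congr 1
      exact IsLocalization.mk'_spec _ _ _
    have h2 : eval₂ R.subtype y s * lam R.subtype y (IsLocalization.mk' (Bl R.subtype y) F
        (⟨s, hs⟩ : (cen R.subtype y).primeCompl)) = eval₂ R.subtype y s * v := by
      rw [mul_comm, h1, hv]
    exact hbu.mul_left_cancel h2

theorem le_nxt : R ≤ nxt R x z y hy := by
  intro r hr
  exact ⟨io R.subtype x z y ⟨r, hr⟩, th_io R.subtype x z y hy ⟨r, hr⟩⟩

end Step

/-- the statement for elements `g` with `π ^ n ∤ g` -/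
def N (V : Type) [CommRing V] [IsDomain V] [IsDiscreteValuationRing V] (P : Subring V → Prop)
    (π : V) (s : Finset V) (n : ℕ) : Prop :=
  ∀ R : Subring V, RegIn R → P R → ∀ g : R, g ≠ 0 → (∀ a ∈ s, ∃ f : R, (g : V) * a = f) →
    ¬ π ^ n ∣ (g : V) → P ⊤

theorem inner {V : Type} [CommRing V] [IsDomain V] [IsDiscreteValuationRing V]
    {P : Subring V → Prop}
    (hstep : ∀ R : Subring V, RegIn R → P R → ∀ x y : R, Indep R x y → ∀ z : V, (x : V) * z = y →
      ∀ R' : Subring V, IsLocOf (Subring.closure (insert z (R : Set V))) R' → RegIn R' → P R')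
    {π : V} (hπ : Ideal.span {π} = maximalIdeal V) (s : Finset V) (n : ℕ) (hN : N V P π s n)
    (k : ℕ) : ∀ (R : Subring V) (hR : RegIn R) (_ : IsLocalRing R), P R → ∀ (x : R) (w : List R),
      w.length = k → RP R (x :: w) → x ≠ 0 → (∀ z ∈ w, (x : V) ∣ (z : V)) → ∀ g : R, g ≠ 0 →
      g ∈ Ideal.ofList (x :: w) →
      (∀ a ∈ s, ∃ f ∈ Ideal.ofList (x :: w), (g : V) * a = ((f : R) : V)) →
      ¬ π ^ (n + 1) ∣ (g : V) → P ⊤ := by
  induction k with
  | zero =>
    intro R hR _ hP x w hw hRP hx0 _ g hg0 hg hf hn
    have hw' : w = [] := List.length_eq_zero_iff.1 hw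
    subst hw'
    rw [Ideal.ofList_singleton, Ideal.mem_span_singleton] at hg
    obtain ⟨g', rfl⟩ := hg
    have hxm : (x : V) ∈ maximalIdeal V := by
      have h1 := hRP.mem x List.mem_cons_self
      rw [← mIn_eq R hR] at h1
      exact h1
    rw [← hπ, Ideal.mem_span_singleton] at hxm
    have hφx : (x : V) ≠ 0 := fun h => hx0 (Subtype.ext h)
    refine hN R hR hP g' (right_ne_zero_of_mul hg0) ?_ ?_
    · intro a ha
      obtain ⟨f, hf1, hf2⟩ := hf a ha
      rw [Ideal.ofList_singleton, Ideal.mem_span_singleton] at hf1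
      obtain ⟨f', rfl⟩ := hf1
      refine ⟨f', ?_⟩
      rw [Subring.coe_mul, Subring.coe_mul, mul_assoc] at hf2
      exact mul_left_cancel₀ hφx hf2
    · intro h1
      apply hn
      rw [Subring.coe_mul, pow_succ, mul_comm]
      exact mul_dvd_mul hxm h1
  | succ k ih =>
    intro R hR hloc0 hP x w hw hRP hx0 hdiv g hg0 hg hf hn
    cases w with
    | nil => exact absurd hw (by simp)
    | cons z w =>
      have hreg0 : IsRegularLocalRing R := hR.reg
      have hlh0 := local_sub R hR
      have hφ : Function.Injective R.subtype := Subtype.val_injective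
      obtain ⟨y, hy⟩ := hdiv z List.mem_cons_self
      have hz : ∀ a, x ∣ z * a → x ∣ a := by
        intro a ha
        have h1 := hRP.wr [x] z w rfl a (by
          rw [Ideal.ofList_singleton, Ideal.mem_span_singleton]
          exact ha)
        rwa [Ideal.ofList_singleton, Ideal.mem_span_singleton] at h1
      have hinj := th_inj R.subtype x z y hy hφ hz
      have hloc : IsLocalRing (R1 R.subtype x z y) := isLocalRing_R1 R.subtype x z y hy
      have hRP1 := RP_R1 R.subtype y hy hφ hRP hx0
      have hreg : IsRegularLocalRing (R1 R.subtype x z y) := hRP1.regular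
      have hlh := th_local R.subtype x z y hy
      -- the subring
      let e : R1 R.subtype x z y ≃+* nxt R x z y hy :=
        RingEquiv.ofBijective (th R.subtype x z y hy).rangeRestrict
          ⟨fun a b hab => hinj (congrArg Subtype.val hab), (th R.subtype x z y hy).rangeRestrict_surjective⟩
      have he : ∀ a, ((e a : nxt R x z y hy) : V) = th R.subtype x z y hy a := fun a => rfl
      have hR' : RegIn (nxt R x z y hy) := by
        refine ⟨IsRegularLocalRing.of_ringEquiv (R := R1 R.subtype x z y) e, ?_, ?_⟩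
        · intro r hr
          obtain ⟨a, rfl⟩ := e.surjective r
          rw [he] at hr
          exact ((isUnit_map_iff (th R.subtype x z y hy) a).1 hr).map e
        · intro v
          obtain ⟨a, b, hb, hv⟩ := hR.frac v
          refine ⟨⟨a, le_nxt R x z y hy a.2⟩, ⟨b, le_nxt R x z y hy b.2⟩, ?_, hv⟩
          intro h
          have h1 : (b : V) = ((0 : nxt R x z y hy) : V) := congrArg Subtype.val h
          exact hb (Subtype.ext h1)
      have hInd : Indep R x z := by
        refine ⟨?_, ?_, ?_⟩
        · rw [mIn_eq R hR]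
          exact hRP.mem x (by simp)
        · rw [mIn_eq R hR]
          exact hRP.mem z (by simp)
        · rw [mIn_eq R hR]
          intro a b hab
          exact indep_max hRP a b hab
      have hP' : P (nxt R x z y hy) :=
        hstep R hR hP x z hInd y hy.symm _ (isLocOf_nxt R x z y hy) hR'
      have hreg' : IsRegularLocalRing (nxt R x z y hy) := hR'.reg
      have hloc' : IsLocalRing (nxt R x z y hy) := hreg'.toIsLocalRing
      have hRP2 := RP_equiv e hRP1
      rw [List.map_cons, List.map_map] at hRP2
      have hioe : ∀ r : R, ((e (io R.subtype x z y r) : nxt R x z y hy) : V) = r := by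
        intro r
        rw [he, th_io]
        rfl
      have hmem : ∀ r ∈ Ideal.ofList (x :: z :: w), e (io R.subtype x z y r) ∈
          Ideal.ofList (e (io R.subtype x z y x) :: w.map (e ∘ io R.subtype x z y)) := by
        intro r hr
        have h1 : Ideal.ofList (x :: z :: w) ≤
            (Ideal.ofList (e (io R.subtype x z y x) :: w.map (e ∘ io R.subtype x z y))).comap
              ((e : R1 R.subtype x z y →+* nxt R x z y hy).comp (io R.subtype x z y)) := by
          rw [Ideal.ofList, Ideal.span_le]
          intro u hu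
          rw [SetLike.mem_coe, Ideal.mem_comap]
          rcases List.mem_cons.1 hu with h2 | h2
          · rw [h2]
            exact Ideal.subset_span List.mem_cons_self
          · rcases List.mem_cons.1 h2 with h3 | h3
            · rw [h3]
              have h4 := map_dvd (e : R1 R.subtype x z y →+* nxt R x z y hy)
                (dvd_io R.subtype y (x := x) (z := z))
              exact mem_of_dvd' _ h4 (Ideal.subset_span List.mem_cons_self)
            · exact Ideal.subset_span (List.mem_cons_of_mem _
                (List.mem_map_of_mem (f := e ∘ io R.subtype x z y) h3))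
        exact h1 hr
      refine ih (nxt R x z y hy) hR' hloc' hP' (e (io R.subtype x z y x))
        (w.map (e ∘ io R.subtype x z y)) ?_ hRP2 ?_ ?_ (e (io R.subtype x z y g)) ?_ (hmem g hg)
        ?_ ?_
      · simpa using hw
      · intro h1
        have h2 := congrArg Subtype.val h1
        rw [hioe] at h2
        exact hx0 (Subtype.ext h2)
      · intro u hu
        obtain ⟨u, hu', rfl⟩ := List.mem_map.1 hu
        rw [hioe]
        have h2 : (((e ∘ io R.subtype x z y) u : nxt R x z y hy) : V) = u := hioe u
        rw [h2]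
        exact hdiv u (List.mem_cons_of_mem _ hu')
      · intro h1
        have h2 := congrArg Subtype.val h1
        rw [hioe] at h2
        exact hg0 (Subtype.ext h2)
      · intro a ha
        obtain ⟨f, hf1, hf2⟩ := hf a ha
        refine ⟨e (io R.subtype x z y f), hmem f hf1, ?_⟩
        rw [hioe, hioe]
        exact hf2
      · rw [hioe]
        exact hn

theorem outer {V : Type} [CommRing V] [IsDomain V] [IsDiscreteValuationRing V]
    {P : Subring V → Prop}
    (hstep : ∀ R : Subring V, RegIn R → P R → ∀ x y : R, Indep R x y → ∀ z : V, (x : V) * z = y →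
      ∀ R' : Subring V, IsLocOf (Subring.closure (insert z (R : Set V))) R' → RegIn R' → P R')
    {π : V} (hπ : Ideal.span {π} = maximalIdeal V) (s : Finset V)
    (hs : ∀ R : Subring V, RegIn R → (s : Set V) ⊆ R → R = ⊤) (n : ℕ) : N V P π s n := by
  classical
  induction n with
  | zero =>
    intro R _ _ g _ _ h
    exact absurd (by rw [pow_zero]; exact one_dvd _) h
  | succ n ih =>
    intro R hR hP g hg0 hf hn
    have hreg : IsRegularLocalRing R := hR.reg
    have hloc : IsLocalRing R := hreg.toIsLocalRing
    have hlh := local_sub R hR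
    by_cases hg : IsUnit g
    · have h1 : R = ⊤ := by
        apply hs R hR
        intro a ha
        obtain ⟨f, hf⟩ := hf a ha
        obtain ⟨u, hu⟩ := hg
        have h2 : a = (((↑u⁻¹ : R) * f : R) : V) := by
          rw [Subring.coe_mul, ← hf, ← hu, ← mul_assoc, ← Subring.coe_mul, Units.inv_mul,
            Subring.coe_one, one_mul]
        rw [h2]
        exact Subtype.property _
      rw [← h1]
      exact hP
    have hgm : g ∈ maximalIdeal R := (mem_maximalIdeal _).2 hg
    obtain ⟨l, hl1, hl2⟩ := exists_rsp R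
    have hl0 : l ≠ [] := by
      rintro rfl
      rw [Ideal.ofList_nil] at hl1
      rw [← hl1, Ideal.mem_bot] at hgm
      exact hg0 hgm
    obtain ⟨x, hx, hx2⟩ := exists_min R.subtype l hl0
    have hperm := List.perm_cons_erase hx
    have hof : Ideal.ofList (x :: l.erase x) = maximalIdeal R := by
      rw [← hl1, Ideal.ofList, Ideal.ofList]
      congr 1
      ext r
      exact hperm.mem_iff.symm
    have hlen : (x :: l.erase x).length ≤ (maximalIdeal R).spanFinrank := by
      rw [← hperm.length_eq]
      exact hl2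
    have hRP : RP R (x :: l.erase x) := rsp_RP hof hlen
    have hx0 : x ≠ 0 := by
      intro h0
      have h1 := hRP.wr [] x (l.erase x) rfl 1 (by
        rw [h0, zero_mul]
        exact Ideal.zero_mem _)
      rw [Ideal.ofList_nil, Ideal.mem_bot] at h1
      exact one_ne_zero h1
    refine inner hstep hπ s n ih _ R hR hloc hP x (l.erase x) rfl hRP hx0 ?_ g hg0 ?_ ?_ hn
    · intro z hz
      exact hx2 z (List.mem_of_mem_erase hz)
    · rw [hof]
      exact hgm
    · intro a ha
      obtain ⟨f, hfa⟩ := hf a ha
      refine ⟨f, ?_, hfa⟩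
      rw [hof, mem_maximalIdeal]
      intro hu
      have h1 : IsUnit ((g : V) * a) := by
        rw [hfa]
        exact hu.map R.subtype
      exact hg (hR.dom g (isUnit_of_mul_isUnit_left h1))

theorem exists_den' {V : Type} [CommRing V] [IsDomain V] {R : Subring V}
    (h : ∀ v : V, ∃ a b : R, b ≠ 0 ∧ (b : V) * v = a) (s : Finset V) :
    ∃ g : R, g ≠ 0 ∧ ∀ a ∈ s, ∃ f : R, (g : V) * a = f := by
  have h1 : SameFrac R.subtype := h
  exact exists_den R.subtype h1 s

end IP

open IP IsLocalRing in
theorem thm_IP : St_IP := by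
  intro V _ _ _ hT P R₀ hR₀ hP₀ hstep
  obtain ⟨s, hs⟩ := hT
  obtain ⟨g, hg0, hf⟩ := exists_den' hR₀.frac s
  obtain ⟨π, hπ⟩ := (IsPrincipalIdealRing.principal (maximalIdeal V)).principal
  have hπ' : Ideal.span {π} = maximalIdeal V := hπ.symm
  have hπu : ¬ IsUnit π := by
    rw [← mem_nonunits_iff, ← mem_maximalIdeal, ← hπ']
    exact Ideal.mem_span_singleton_self π
  have hφg : (g : V) ≠ 0 := fun h => hg0 (Subtype.ext h)
  obtain ⟨n, hn⟩ := FiniteMultiplicity.of_not_isUnit hπu hφg
  exact outer hstep hπ' s hs (n + 1) R₀ hR₀ hP₀ g hg0 hf hn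

end Pool.Agent.BTF
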