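import Pool.Agent.BTF.St
import Pool.Agent.KGT.WAll

/-!
# BTF, module K0: schemes of Kronecker dimension at most one
-/

set_option autoImplicit false
set_option linter.style.haveILetI false
set_option linter.unusedSectionVars false

noncomputable section

namespace Pool.Agent.BTF

open CategoryTheory CategoryTheory.Limits AlgebraicGeometry Pool.Agent.KPR
open Pool.Agent.KGT.W (SerreClass FinType)

namespace K0

open Pool.Agent.KTX Pool.Agent.GTH Pool.Agent.KQH Pool.Agent.KGT
open BassH (ResDimLE)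

/-- Kronecker dimension at most one -/
def KD (K : Type) [Field K] : Prop := TD 1 K ∧ (CharZero K → TD 0 K)

theorem kd_of {K : Type} [Field K] (h : KrLe 1 K) : KD K := by
  refine ⟨h.1, fun h0 => ?_⟩
  have h1 := h.2 h0
  have h2 : Algebra.trdeg (⊥ : Subfield K) K + 1 ≤ (0 : Cardinal) + 1 := by
    simpa using h1
  have h3 := Cardinal.add_one_le_add_one_iff.1 h2
  show Algebra.trdeg (⊥ : Subfield K) K ≤ ((0 : ℕ) : Cardinal)
  simpa using h3

theorem kd_to {K : Type} [Field K] (h : KD K) : KrLe (0 + 1) K := by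
  have ha : Algebra.trdeg (⊥ : Subfield K) K ≤ ((1 : ℕ) : Cardinal) := h.1
  refine ⟨by simpa using ha, fun h0 => ?_⟩
  have h1 := h.2 h0
  have h2 : Algebra.trdeg (⊥ : Subfield K) K ≤ ((0 : ℕ) : Cardinal) := h1
  have h3 : Algebra.trdeg (⊥ : Subfield K) K + 1 ≤ ((0 : ℕ) : Cardinal) + 1 :=
    Cardinal.add_one_le_add_one_iff.2 h2
  simpa using h3

theorem KD.iso {K L : Type} [Field K] [Field L] (e : K ≃+* L) (h : KD K) : KD L := by
  refine ⟨TD.iso e h.1, fun h0 => TD.iso e (h.2 ?_)⟩
  exact ⟨fun a b hab => h0.cast_injective (by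
    have h1 := congrArg e hab
    rwa [map_natCast, map_natCast] at h1)⟩

/-- all residue fields have Kronecker dimension at most one -/
def KS (X : Scheme.{0}) : Prop := ∀ x : X, KD (X.residueField x)

/-- all residue fields have Kronecker dimension at most one -/
def KR (C : Type) [CommRing C] : Prop := ∀ (P : Ideal C) [P.IsPrime], KD (FractionRing (C ⧸ P))

theorem key_iso {C : Type} [CommRing C] (x : Sp C) :
    Nonempty (FractionRing (C ⧸ x.asIdeal) ≃+* (Sp C).residueField x) := by
  obtain ⟨e⟩ := frac_res x.asIdeal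
  exact ⟨e.trans (Scheme.Spec.residueFieldIso (CommRingCat.of C) x).symm.commRingCatIsoToRingEquiv⟩

theorem ks_spec (C : Type) [CommRing C] : KS (Sp C) ↔ KR C := by
  constructor
  · intro h P hP
    obtain ⟨e⟩ := key_iso (C := C) ⟨P, hP⟩
    exact KD.iso e.symm (h ⟨P, hP⟩)
  · intro h x
    obtain ⟨e⟩ := key_iso x
    exact KD.iso e (h x.asIdeal)

theorem ks_open {X Y : Scheme.{0}} (j : Y ⟶ X) [IsOpenImmersion j] (h : KS X) : KS Y := fun y =>
  KD.iso (asIso (j.residueFieldMap y)).commRingCatIsoToRingEquiv (h (j y))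

theorem ks_closed {X Y : Scheme.{0}} (i : Y ⟶ X) [IsClosedImmersion i] (h : KS X) : KS Y := by
  intro y
  have hs : Function.Surjective (i.residueFieldMap y).hom := by
    have h1 : Function.Surjective (i.stalkMap y).hom := i.stalkMap_surjective y
    intro z
    obtain ⟨w, rfl⟩ := IsLocalRing.residue_surjective z
    obtain ⟨v, rfl⟩ := h1 w
    exact ⟨X.residue (i y) v, rfl⟩
  exact KD.iso (RingEquiv.ofBijective _ ⟨RingHom.injective _, hs⟩) (h (i y))

theorem kr_quot {C : Type} [CommRing C] (I : Ideal C) (h : KR C) : KR (C ⧸ I) := by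
  rw [← ks_spec] at h ⊢
  haveI : IsClosedImmersion (Sm (Ideal.Quotient.mk I)) :=
    IsClosedImmersion.spec_of_surjective _ Ideal.Quotient.mk_surjective
  exact ks_closed (Sm (Ideal.Quotient.mk I)) h

theorem open_away {C : Type} [CommRing C] (s : C) :
    IsOpenImmersion (Sm (algebraMap C (Localization.Away s))) :=
  inferInstanceAs (IsOpenImmersion (Spec.map (CommRingCat.ofHom
    (algebraMap C (Localization.Away s)))))

theorem kr_away {C : Type} [CommRing C] (s : C) (h : KR C) : KR (Localization.Away s) := by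
  rw [← ks_spec] at h ⊢
  haveI := open_away s
  exact ks_open (Sm (algebraMap C (Localization.Away s))) h

theorem ft_quot {E : Type} [CommRing E] [Algebra.FiniteType ℤ E] (I : Ideal E) :
    @Algebra.FiniteType ℤ (E ⧸ I) _ _ (Ring.toIntAlgebra _) :=
  @ft_int_alg (E ⧸ I) _ (Ideal.Quotient.algebra ℤ)
    (Algebra.FiniteType.of_surjective (Ideal.Quotient.mkₐ ℤ I)
      (Ideal.Quotient.mkₐ_surjective ℤ I))

theorem ft_away {E : Type} [CommRing E] [Algebra.FiniteType ℤ E] (s : E) :
    @Algebra.FiniteType ℤ (Localization.Away s) _ _ (Ring.toIntAlgebra _) := by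
  have h1 : (algebraMap E (Localization.Away s)).FiniteType :=
    (RingHom.finiteType_algebraMap (A := E) (B := Localization.Away s)).2
      (IsLocalization.finiteType_of_monoid_fg (Submonoid.powers s) _)
  have h2 : (algebraMap ℤ E).FiniteType :=
    (RingHom.finiteType_algebraMap (A := ℤ) (B := E)).2 inferInstance
  have h3 := h1.comp h2
  exact @ft_int_alg (Localization.Away s) _
    ((algebraMap E (Localization.Away s)).comp (algebraMap ℤ E)).toAlgebra h3

/-- the class -/
abbrev GG (R : Type) [CommRing R] : Prop := ∀ n : ℕ, AddGroup.FG (KX n (Sp R))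

theorem gg_iff (R : Type) [CommRing R] : GG R ↔
    ∀ M : ℕ, W.UpTo (fun G _ => AddGroup.FG G) M (Sp R) :=
  ⟨fun h _ n _ => h n, fun h n => h n n le_rfl⟩

theorem gg_glue {R : Type} [CommRing R] [IsNoetherianRing R] (s : R)
    (h1 : GG (R ⧸ Ideal.span {s})) (h2 : GG (Localization.Away s)) : GG R := by
  obtain ⟨L, G, k1, k2, k3⟩ := real_deg W.serre_fg.serre
  rw [gg_iff]
  intro M
  refine (k3 M R).1 ?_
  exact (cls_SFG G W.serre_fg.serre M).of_away R (Localization.Away s) s
    ((k3 M _).2 fun n _ => h1 n) ((k3 M _).2 fun n _ => h2 n)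

theorem gg_zero {R : Type} [CommRing R] [Subsingleton R] : GG R := by
  obtain ⟨L, G, k1, k2, k3⟩ := real_deg W.serre_fg.serre
  rw [gg_iff]
  intro M
  exact (k3 M R).1 ((cls_SFG G W.serre_fg.serre M).zero R)

/-- algebras over the prime field -/
theorem gg_p {E : Type} [CommRing E] [Algebra.FiniteType ℤ E] (hE : KR E) {p : ℕ}
    (hp : p.Prime) (h : (p : E) = 0) : GG E := by
  obtain ⟨m, hm⟩ := CharP.exists E
  have hmp : m ∣ p := (CharP.cast_eq_zero_iff E m p).1 h
  letI : Algebra (ZMod p) E := (ZMod.castHom hmp E).toAlgebra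
  haveI : IsScalarTower ℤ (ZMod p) E := IsScalarTower.of_algebraMap_eq' (Subsingleton.elim _ _)
  haveI : Algebra.FiniteType (ZMod p) E := Algebra.FiniteType.of_restrictScalars_finiteType ℤ _ _
  exact small_all all_NR p 1 (Or.inr ⟨hp, le_rfl⟩) E (fun P _ => (hE P).1)

/-- algebras in which a positive integer is zero -/
theorem gg_m (m : ℕ) : m ≠ 0 → ∀ (E : Type) [CommRing E] [Algebra.FiniteType ℤ E], KR E →
    (m : E) = 0 → GG E := by
  induction m using induction_on_primes with
  | zero => exact fun h => absurd rfl h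
  | one =>
    intro _ E _ _ _ h
    have h1 : (0 : E) = 1 := by simpa using h.symm
    haveI : Subsingleton E := subsingleton_of_zero_eq_one h1
    exact gg_zero
  | prime_mul p a hp ih =>
    intro hpa E _ _ hE h
    have ha : a ≠ 0 := by
      rintro rfl
      exact hpa (mul_zero p)
    haveI : IsNoetherianRing E := Algebra.FiniteType.isNoetherianRing ℤ E
    refine gg_glue (p : E) ?_ ?_
    · haveI := ft_quot (Ideal.span {(p : E)})
      refine gg_p (kr_quot _ hE) hp ?_
      have h1 : Ideal.Quotient.mk (Ideal.span {(p : E)}) (p : E) = 0 :=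
        Ideal.Quotient.eq_zero_iff_mem.2 (Ideal.mem_span_singleton_self _)
      simpa using h1
    · have h1 : IsUnit (algebraMap E (Localization.Away (p : E)) (p : E)) :=
        IsLocalization.Away.algebraMap_isUnit _
      rw [map_natCast] at h1
      haveI := ft_away (p : E)
      refine ih ha _ (kr_away _ hE) ?_
      have h2 : ((p * a : ℕ) : Localization.Away (p : E)) = 0 := by
        have h3 := congrArg (algebraMap E (Localization.Away (p : E))) h
        rwa [map_zero, map_natCast] at h3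
      rw [Nat.cast_mul] at h2
      exact (h1.mul_right_eq_zero).1 h2

/-- residue fields at primes which contain a horizontal minimal prime -/
theorem td_zero (hDL : St_DL) {D : Type} [CommRing D] (hD : KR D) (P Q : Ideal D) [P.IsPrime]
    [Q.IsPrime] (hPQ : P ≤ Q) (hP : ∀ k : ℕ, k ≠ 0 → (k : D) ∉ P) :
    TD 0 (FractionRing (D ⧸ Q)) := by
  by_cases h0 : CharZero (FractionRing (D ⧸ Q))
  · exact (hD Q).2 h0
  · obtain ⟨p, hp⟩ := CharP.exists (FractionRing (D ⧸ Q))
    have hp0 : p ≠ 0 := by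
      rintro rfl
      exact h0 (CharP.charP_to_charZero _)
    have h1 : (p : FractionRing (D ⧸ Q)) = 0 := CharP.cast_eq_zero _ p
    let π : (D ⧸ P) →+* FractionRing (D ⧸ Q) :=
      (algebraMap (D ⧸ Q) (FractionRing (D ⧸ Q))).comp (Ideal.Quotient.factor hPQ)
    have h2 := hDL (D ⧸ P) (FractionRing (D ⧸ P)) (FractionRing (D ⧸ Q)) π
      ⟨(p : D ⧸ P), fun h => hP p hp0 (by
        rw [← Ideal.Quotient.eq_zero_iff_mem, map_natCast]
        exact h), by rw [map_natCast]; exact h1⟩ (fun z => by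
        obtain ⟨x, y, hy, rfl⟩ := IsFractionRing.div_surjective (A := D ⧸ Q) z
        obtain ⟨a, rfl⟩ := Ideal.Quotient.mk_surjective x
        obtain ⟨b, rfl⟩ := Ideal.Quotient.mk_surjective y
        have hb : algebraMap (D ⧸ Q) (FractionRing (D ⧸ Q)) (Ideal.Quotient.mk Q b) ≠ 0 :=
          IsFractionRing.to_map_ne_zero_of_mem_nonZeroDivisors hy
        refine ⟨Ideal.Quotient.mk P a, Ideal.Quotient.mk P b, ?_, ?_⟩
        · show algebraMap (D ⧸ Q) (FractionRing (D ⧸ Q)) (Ideal.Quotient.mk Q b) ≠ 0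
          exact hb
        · show algebraMap (D ⧸ Q) (FractionRing (D ⧸ Q)) (Ideal.Quotient.mk Q b) * _ =
            algebraMap (D ⧸ Q) (FractionRing (D ⧸ Q)) (Ideal.Quotient.mk Q a)
          field_simp) 0 (kd_to (hD P))
    exact h2.1

/-- an integer outside of which all components are horizontal -/
theorem exists_m (D : Type) [CommRing D] [IsNoetherianRing D] : ∃ m : ℕ, m ≠ 0 ∧
    ∀ P ∈ minimalPrimes D, (m : D) ∈ P ∨ ∀ k : ℕ, k ≠ 0 → (k : D) ∉ P := by
  classical
  have hf : (minimalPrimes D).Finite := minimalPrimes.finite_of_isNoetherianRing D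
  have h1 : ∀ P : Ideal D, ∃ m : ℕ, m ≠ 0 ∧ ((m : D) ∈ P ∨ ∀ k : ℕ, k ≠ 0 → (k : D) ∉ P) := by
    intro P
    by_cases h : ∃ k : ℕ, k ≠ 0 ∧ (k : D) ∈ P
    · obtain ⟨k, hk, hk'⟩ := h
      exact ⟨k, hk, Or.inl hk'⟩
    · exact ⟨1, one_ne_zero, Or.inr fun k hk hk' => h ⟨k, hk, hk'⟩⟩
  choose f hf0 hf1 using h1
  refine ⟨∏ P ∈ hf.toFinset, f P, Finset.prod_ne_zero_iff.2 fun P _ => hf0 P, fun P hP => ?_⟩
  rcases hf1 P with h | h
  · left
    have h2 : f P ∣ ∏ P ∈ hf.toFinset, f P :=
      Finset.dvd_prod_of_mem f (hf.mem_toFinset.2 hP)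
    obtain ⟨c, hc⟩ := h2
    rw [hc, Nat.cast_mul]
    exact P.mul_mem_right _ h
  · exact Or.inr h

/-- finitely generated rings all of whose residue fields have Kronecker dimension at most one -/
theorem gg_all (hDL : St_DL) (D : Type) [CommRing D] [Algebra.FiniteType ℤ D] (hD : KR D) :
    GG D := by
  haveI : IsNoetherianRing D := Algebra.FiniteType.isNoetherianRing ℤ D
  obtain ⟨m, hm0, hm⟩ := exists_m D
  refine gg_glue (m : D) ?_ ?_
  · haveI := ft_quot (Ideal.span {(m : D)})
    refine gg_m m hm0 _ (kr_quot _ hD) ?_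
    have h1 : Ideal.Quotient.mk (Ideal.span {(m : D)}) (m : D) = 0 :=
      Ideal.Quotient.eq_zero_iff_mem.2 (Ideal.mem_span_singleton_self _)
    simpa using h1
  · haveI := ft_away (m : D)
    have h1 : ResDimLE 0 (Localization.Away (m : D)) := by
      refine (resS_spec 0 _).1 fun y => ?_
      haveI := open_away (m : D)
      let j := Sm (algebraMap D (Localization.Away (m : D)))
      refine TD.iso (asIso (j.residueFieldMap y)).commRingCatIsoToRingEquiv ?_
      obtain ⟨e⟩ := key_iso (j y)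
      refine TD.iso e ?_
      obtain ⟨P, hP, hPQ⟩ := Ideal.exists_minimalPrimes_le (I := ⊥) (J := (j y).asIdeal) bot_le
      haveI : P.IsPrime := hP.1.1
      refine td_zero hDL hD P (j y).asIdeal hPQ ?_
      refine (hm P hP).resolve_left fun h => ?_
      have h2 : (m : D) ∈ (j y).asIdeal := hPQ h
      have h3 : algebraMap D (Localization.Away (m : D)) (m : D) ∈ y.asIdeal := h2
      exact y.2.ne_top (Ideal.eq_top_of_isUnit_mem _ h3
        (IsLocalization.Away.algebraMap_isUnit _))
    intro n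
    obtain ⟨e⟩ := kx_ka all_HOMK n (Localization.Away (m : D))
    exact Pool.Agent.GQ.fg_equiv e (all_NR _ h1 n)

end K0

open K0 Pool.Agent.KTX Pool.Agent.GTH Pool.Agent.KQH Pool.Agent.KGT in
/-- **K0** -/
theorem thm_K0 (hDL : St_DL) : St_K0 := by
  intro X hX hK n
  have hd : KS X := fun x => kd_of (hK x)
  obtain ⟨f, hf1, hf2⟩ := hX
  obtain ⟨L, G, e1, e2, -⟩ := real all_HOMK
  have h𝒮 : Serre (fun (G : Type 1) _ => AddGroup.FG G) := W.serre_fg.serre
  haveI : IsNoetherian (Sp ℤ) := inferInstance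
  haveI : IsNoetherian X := Pool.Agent.KIN.h2_noeth f
  refine Pool.Agent.GQ.sch_ind (X := X) (fun Z => AddGroup.FG (KX n Z))
    (fun Z W i j _ _ _ => ?_) (fun Z' Z W _ i j _ _ hij h1 h2 => ?_)
  · haveI hZ : IsNoetherian Z := Pool.Agent.KIN.h2_noeth i
    haveI : LocallyOfFiniteType (j ≫ i ≫ f) := inferInstance
    haveI : QuasiCompact j := inferInstance
    haveI : IsNoetherian W := Pool.Agent.KIN.h2_noeth j
    obtain ⟨D, i1, i2, hD, ⟨e⟩⟩ := aff_alg (j ≫ i ≫ f)
    haveI : IsNoetherianRing D := Algebra.FiniteType.isNoetherianRing ℤ D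
    have hW : KS W := ks_open j (ks_closed i hd)
    have hD' : KR D := (ks_spec D).1 (ks_open e.inv hW)
    obtain ⟨a⟩ := e1 n W
    obtain ⟨b⟩ := e1 n (Sp D)
    obtain ⟨c⟩ := th_iso (L.th n) e
    have h1 : @Algebra.FiniteType ℤ D _ _ (Ring.toIntAlgebra D) := @ft_int_alg D _ i2 hD
    exact (serre_iff h𝒮 (a.symm.trans (c.symm.trans b))).2 (@gg_all hDL D _ h1 hD' n)
  · obtain ⟨a⟩ := e1 n Z'
    obtain ⟨b⟩ := e1 n Z
    obtain ⟨c⟩ := e1 n W
    rw [← serre_iff h𝒮 b]
    exact h𝒮.exact _ _ _ ((L.th n).push i) ((L.th n).pull j)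
      (fun x => ⟨(L.th n).ex i j hij x, by
        rintro ⟨y, rfl⟩
        exact (L.th n).ex0 i j hij y⟩) ((serre_iff h𝒮 a).2 h1) ((serre_iff h𝒮 c).2 h2)

end Pool.Agent.BTF
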