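import Pool.Agent.BTF.K1

/-!
# BTF, module K3N: comparison with an open subscheme, one degree

MP_e17fa799_al.
-/

set_option autoImplicit false
set_option linter.style.haveILetI false

noncomputable section

namespace Pool.Agent.BTF

open CategoryTheory CategoryTheory.Limits AlgebraicGeometry Pool.Agent.KPR TopologicalSpace
open Pool.Agent.KGT.W (SerreClass FinType)
open Pool.Agent.KTX (Sp Sm LThy)
open Pool.Agent.GTH (Serre)
open Pool.Agent.KGT (serre_iff)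

namespace K3N

/-- the reduced complement of an open subscheme -/
theorem compl {X U : Scheme.{0}} (j : U ⟶ X) [IsOpenImmersion j] :
    ∃ (Z : Scheme.{0}) (i : Z ⟶ X), IsClosedImmersion i ∧ Set.range i = (Set.range j)ᶜ := by
  let C0 : Closeds X := ⟨(Set.range j)ᶜ, j.isOpenEmbedding.isOpen_range.isClosed_compl⟩
  let I : X.IdealSheafData := Scheme.IdealSheafData.vanishingIdeal C0
  refine ⟨I.subscheme, I.subschemeι, inferInstance, ?_⟩
  rw [Scheme.IdealSheafData.range_subschemeι, Scheme.IdealSheafData.coe_support_vanishingIdeal]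
  rfl

section

variable {𝒮 : (G : Type 1) → [AddCommGroup G] → Prop} (h𝒮 : Serre 𝒮)

include h𝒮

/-- the open part, positive degrees -/
theorem opart (n : ℕ) {Z X U : Scheme.{0}} [IsNoetherian X] (i : Z ⟶ X) (j : U ⟶ X)
    [IsClosedImmersion i] [IsOpenImmersion j] (hij : Set.range i = (Set.range j)ᶜ)
    (h1 : 𝒮 (KX n Z)) (h2 : 𝒮 (KX (n + 1) X)) : 𝒮 (KX (n + 1) U) := by
  obtain ⟨L, G, e1, e2, -⟩ := KGT.real Pool.Agent.KQH.all_HOMK
  obtain ⟨a⟩ := e1 n Z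
  obtain ⟨b⟩ := e1 (n + 1) X
  obtain ⟨c⟩ := e1 (n + 1) U
  have hb : 𝒮 ((L.th ((n : ℤ) + 1)).T X) := (serre_iff h𝒮 b).2 h2
  have key : 𝒮 ((L.th ((n : ℤ) + 1)).T U) :=
    h𝒮.exact _ _ _ ((L.th ((n : ℤ) + 1)).pull j) (L.bd (n : ℤ) i j)
      (fun x => ⟨L.exU (n : ℤ) i j hij x, by
        rintro ⟨y, rfl⟩
        exact L.bd_pull (n : ℤ) i j hij y⟩) hb ((serre_iff h𝒮 a).2 h1)
  exact (serre_iff h𝒮 c).1 key

/-- the open part, degree zero -/
theorem opart0 {Z X U : Scheme.{0}} [IsNoetherian X] (i : Z ⟶ X) (j : U ⟶ X)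
    [IsClosedImmersion i] [IsOpenImmersion j] (hij : Set.range i = (Set.range j)ᶜ)
    (h2 : 𝒮 (KX 0 X)) : 𝒮 (KX 0 U) := by
  obtain ⟨L, G, e1, e2, e3⟩ := KGT.real Pool.Agent.KQH.all_HOMK
  obtain ⟨b⟩ := e1 0 X
  obtain ⟨c⟩ := e1 0 U
  have hb : 𝒮 ((L.th (-1 + 1)).T X) := (serre_iff h𝒮 b).2 h2
  have key : 𝒮 ((L.th (-1 + 1)).T U) :=
    h𝒮.of_surj ((L.th (-1 + 1)).pull j) (fun u => L.exU (-1) i j hij u (e3 0 Z _)) hb
  exact (serre_iff h𝒮 c).1 key

end

end K3N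

/-- **K3N** -/
theorem thm_K3N : St_K3N := by
  intro 𝒮 h X U j _ hX n
  have h𝒮 : Serre 𝒮 := h.serre
  obtain ⟨f, hf1, hf2⟩ := hX
  haveI : IsNoetherian (Sp ℤ) := inferInstance
  haveI : IsNoetherian X := Pool.Agent.KIN.h2_noeth f
  obtain ⟨Z, i, hi, hij⟩ := K3N.compl j
  haveI : IsNoetherian Z := Pool.Agent.KIN.h2_noeth i
  refine ⟨fun hg => ?_, fun h2 => K3N.opart0 h𝒮 i j hij h2⟩
  have hZ : 𝒮 (KX n Z) := by
    refine K1.main h n Z ⟨i ≫ f, inferInstance, inferInstance⟩ (fun z => ?_)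
    have hz : i z ∉ Set.range j := by
      have h1 : i z ∈ Set.range i := ⟨z, rfl⟩
      rw [hij] at h1
      exact h1
    have h2 := hg (i z) hz
    have hs : Function.Surjective (i.residueFieldMap z).hom := by
      have h1 : Function.Surjective (i.stalkMap z).hom := i.stalkMap_surjective z
      intro w
      obtain ⟨w', rfl⟩ := IsLocalRing.residue_surjective w
      obtain ⟨v, rfl⟩ := h1 w'
      exact ⟨X.residue (i z) v, rfl⟩
    exact K1.gIso (RingEquiv.ofBijective _ ⟨RingHom.injective _, hs⟩) h2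
  exact ⟨fun hU => K1.glue h𝒮 n Z X U i j hij hZ hU, fun h2 => K3N.opart h𝒮 n i j hij hZ h2⟩

end Pool.Agent.BTF
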