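import Pool.Agent.BTF.St
import Pool.Agent.BTF.K3N

/-!
# BTF, module K3 (helper58): comparison with an open subscheme, all degrees
-/

set_option autoImplicit false

noncomputable section

namespace Pool.Agent.BTF

open CategoryTheory CategoryTheory.Limits AlgebraicGeometry Pool.Agent.KPR
open Pool.Agent.KGT.W (SerreClass FinType)

/-- **K3** -/
theorem thm_K3 : St_K3 := by
  intro 𝒮 h𝒮 X U j _ hX hg n
  have hgn : ∀ (m : ℕ) (x : X), x ∉ Set.range j → GoodN 𝒮 m (X.residueField x) :=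
    fun m x hx => K1.goodN_of (hg x hx) m
  rcases n with _ | n
  · exact ⟨(thm_K3N 𝒮 h𝒮 X U j hX 0).2, ((thm_K3N 𝒮 h𝒮 X U j hX 0).1 (hgn 0)).1⟩
  · exact ⟨((thm_K3N 𝒮 h𝒮 X U j hX n).1 (hgn n)).2,
      ((thm_K3N 𝒮 h𝒮 X U j hX (n + 1)).1 (hgn (n + 1))).1⟩

end Pool.Agent.BTF
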