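import Pool.Agent.BTF.St3
import Pool.Agent.BTF.DL

/-!
# BTF: module KA, the Kronecker dimension of algebraic extensions
-/

set_option autoImplicit false

noncomputable section

namespace Pool.Agent.BTF

namespace KA

theorem trdeg_eq (K K' : Type) [Field K] [Field K'] (φ : K →+* K')
    (h : ∀ z : K', ∃ p : Polynomial K, p ≠ 0 ∧ Polynomial.eval₂ φ z p = 0) :
    Algebra.trdeg (⊥ : Subfield K') K' = Algebra.trdeg (⊥ : Subfield K) K := by
  let _ : Algebra K K' := φ.toAlgebra
  have _ : Algebra.IsAlgebraic K K' := ⟨fun z => by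
    obtain ⟨p, hp, hz⟩ := h z
    exact ⟨p, hp, hz⟩⟩
  have h1 := trdeg_add_eq (⊥ : Subfield K) K (A := K')
  rw [trdeg_eq_zero (R := K) (A := K'), add_zero] at h1
  rw [h1]
  refine (DL.trdeg_bot (⊥ : Subfield K) K' fun r => ?_).symm
  have h2 : (⊥ : Subfield K) ≤ Subfield.comap φ (⊥ : Subfield K') := bot_le
  exact h2 r.2

end KA

theorem thm_KA : St_KA := by
  intro K K' _ _ φ h d hd
  unfold KrLe at hd ⊢
  rw [KA.trdeg_eq K K' φ h]
  refine ⟨hd.1, fun h0 => hd.2 ?_⟩
  exact RingHom.charZero φ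

end Pool.Agent.BTF
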