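import Pool.Agent.BTF.St3

/-!
# BTF: extension of classes to a union of two open sets (MV)

MP_e17fa799_al (helper75).
-/

set_option autoImplicit false

noncomputable section

namespace Pool.Agent.BTF

open CategoryTheory CategoryTheory.Limits AlgebraicGeometry Pool.Agent.KPR Pool.Agent.KTX

namespace MV

theorem noeth_closed {X Y : Scheme.{0}} (f : X ⟶ Y) [IsNoetherian Y] [IsClosedImmersion f] :
    IsNoetherian X :=
  { __ := LocallyOfFiniteType.isLocallyNoetherian f
    toCompactSpace := QuasiCompact.compactSpace_of_compactSpace f }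

theorem noeth_open {X Y : Scheme.{0}} (f : X ⟶ Y) [IsNoetherian Y] [IsOpenImmersion f] :
    IsNoetherian X :=
  { __ := isLocallyNoetherian_of_isOpenImmersion f
    toCompactSpace := by
      have : TopologicalSpace.NoetherianSpace X :=
        f.isOpenEmbedding.isInducing.noetherianSpace
      infer_instance }

theorem pull_congr (T : STh.{1}) {X Y : Scheme.{0}} {f g : X ⟶ Y} [Flat f] [Flat g] (h : f = g)
    (x : T.T Y) : T.pull f x = T.pull g x := by
  subst h
  rfl

/-- the pull-back along an isomorphism is injective -/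
theorem pull_inj (T : STh.{1}) {X Y : Scheme.{0}} [IsNoetherian X] [IsNoetherian Y] (f : X ⟶ Y)
    [IsIso f] [Flat f] (x : T.T Y) (h : T.pull f x = 0) : x = 0 := by
  have h1 : T.pull (inv f ≫ f) x = T.pull (inv f) (T.pull f x) := T.pull_comp (inv f) f x
  rw [h, map_zero] at h1
  have h2 : T.pull (inv f ≫ f) x = T.pull (𝟙 Y) x := pull_congr T (IsIso.inv_hom_id f) x
  rw [h1, T.pull_id] at h2
  exact h2.symm

end MV

theorem thm_MV : St_MV := by
  intro L Y _ U V n α β h
  obtain ⟨m, rfl⟩ : ∃ m : ℤ, n = m + 1 := ⟨n - 1, by ring⟩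
  have hYW : IsNoetherian (U ⊔ V : Y.Opens).toScheme := MV.noeth_open (U ⊔ V : Y.Opens).ι
  have hYV : IsNoetherian V.toScheme := MV.noeth_open V.ι
  let j : U.toScheme ⟶ (U ⊔ V : Y.Opens).toScheme := Y.homOfLE le_sup_left
  let g : V.toScheme ⟶ (U ⊔ V : Y.Opens).toScheme := Y.homOfLE le_sup_right
  let b : (U ⊓ V : Y.Opens).toScheme ⟶ U.toScheme := Y.homOfLE inf_le_left
  let j' : (U ⊓ V : Y.Opens).toScheme ⟶ V.toScheme := Y.homOfLE inf_le_right
  have hsq : IsPullback b j' j g := isPullback_opens_inf_le le_sup_left le_sup_right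
  let C0 : TopologicalSpace.Closeds (U ⊔ V : Y.Opens).toScheme :=
    ⟨(Set.range j)ᶜ, j.isOpenEmbedding.isOpen_range.isClosed_compl⟩
  let i := (Scheme.IdealSheafData.vanishingIdeal C0).subschemeι
  have hi : Set.range i = (Set.range j)ᶜ := by
    change Set.range (Scheme.IdealSheafData.vanishingIdeal C0).subschemeι = _
    rw [Scheme.IdealSheafData.range_subschemeι, Scheme.IdealSheafData.coe_support_vanishingIdeal]
    rfl
  have hsq' : IsPullback (pullback.fst i g) (pullback.snd i g) i g := IsPullback.of_hasPullback i g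
  -- every point of the union lies in `U` or in `V`
  have hcov : ∀ w : (U ⊔ V : Y.Opens).toScheme, w ∈ Set.range j ∨ w ∈ Set.range g := by
    intro w
    rcases w.2 with hw | hw
    · left
      exact ⟨⟨w.1, hw⟩, Subtype.ext (Y.homOfLE_apply _ _)⟩
    · right
      exact ⟨⟨w.1, hw⟩, Subtype.ext (Y.homOfLE_apply _ _)⟩
  have hj' : Set.range j' = g ⁻¹' Set.range j := by
    ext v
    constructor
    · rintro ⟨x, rfl⟩
      refine ⟨b x, ?_⟩
      rw [← Scheme.Hom.comp_apply, ← Scheme.Hom.comp_apply, hsq.w]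
    · rintro ⟨u, hu⟩
      obtain ⟨z, _, hz⟩ := Scheme.Pullback.exists_preimage_pullback u v hu
      refine ⟨hsq.isoPullback.inv z, ?_⟩
      rw [← Scheme.Hom.comp_apply, hsq.isoPullback_inv_snd]
      exact hz
  have hi' : Set.range (pullback.snd i g) = (Set.range j')ᶜ := by
    rw [Scheme.Pullback.range_snd, hi, hj', Set.preimage_compl]
  have hN1 : IsNoetherian (Scheme.IdealSheafData.vanishingIdeal C0).subscheme :=
    MV.noeth_closed i
  have hN2 : IsNoetherian (pullback i g) := MV.noeth_closed (pullback.snd i g)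
  have hiso : IsIso (pullback.fst i g) := by
    refine isIso_of_isOpenImmersion_of_opensRange_eq_top _ (TopologicalSpace.Opens.ext ?_)
    rw [Scheme.Hom.coe_opensRange, Scheme.Pullback.range_fst]
    ext x
    refine ⟨fun _ => trivial, fun _ => ?_⟩
    rcases hcov (i x) with h1 | h1
    · exfalso
      have h2 : i x ∈ Set.range i := ⟨x, rfl⟩
      rw [hi] at h2
      exact h2 h1
    · exact h1
  have h1 := L.nat m i j (pullback.snd i g) j' (pullback.fst i g) g b hi hsq' hsq α
  have h2 : (L.th (m + 1)).pull b α = (L.th (m + 1)).pull j' β := h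
  rw [h2, L.bd_pull m (pullback.snd i g) j' hi' β] at h1
  exact L.exU m i j hi α (MV.pull_inj _ _ _ h1)

end Pool.Agent.BTF
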