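import Pool.Agent.BTF.St3

/-!
# BTF, module N2: the points of an integral scheme with integrally closed stalks

Adapted from `Pool/Agent/BTF/G4.lean` (helper63).
-/

set_option autoImplicit false

noncomputable section

namespace Pool.Agent.BTF

open CategoryTheory CategoryTheory.Limits AlgebraicGeometry Pool.Agent.KPR
open Pool.Agent.KGT.W (SerreClass FinType)

namespace N2

/-- a noetherian integrally closed local domain of dimension one is a discrete valuation ring -/
theorem dvr (O : Type) [CommRing O] [IsDomain O] [IsLocalRing O] [IsNoetherianRing O]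
    [IsIntegrallyClosed O] (h : ∀ q : Ideal O, q.IsPrime → q ≠ ⊥ → q = IsLocalRing.maximalIdeal O)
    (hf : ¬ IsField O) : IsDiscreteValuationRing O := by
  have hm : IsLocalRing.maximalIdeal O ≠ ⊥ := fun hc =>
    hf (IsLocalRing.isField_iff_maximalIdeal_eq.mpr hc)
  have ht := (IsDiscreteValuationRing.TFAE O hf).out 3 0
  refine ht.1 ⟨inferInstance, IsLocalRing.maximalIdeal O,
    ⟨hm, (IsLocalRing.maximalIdeal.isMaximal O).isPrime⟩, ?_⟩
  rintro q ⟨hq0, hq⟩
  exact h q hq hq0

theorem alg (hDL : St_DL) (O K κ : Type) [CommRing O] [IsDomain O]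
    [IsLocalRing O] [IsNoetherianRing O] [IsIntegrallyClosed O] [Field K] [Algebra O K]
    [IsFractionRing O K] [Field κ] (π : O →+* κ)
    (hs : Function.Surjective π) (hk : RingHom.ker π = IsLocalRing.maximalIdeal O) (d : ℕ)
    (hK : KrLe (d + 2) K) :
    KrLe d κ ∨ IsField O ∨ (IsDiscreteValuationRing O ∧ KrLe (d + 1) κ) := by
  by_cases h : ∃ q : Ideal O, q.IsPrime ∧ q ≠ ⊥ ∧ q ≠ IsLocalRing.maximalIdeal O
  · left
    obtain ⟨q, hq, hq0, hqm⟩ := h
    have hle : q ≤ IsLocalRing.maximalIdeal O := IsLocalRing.le_maximalIdeal hq.ne_top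
    obtain ⟨a, haq, ha0⟩ := Submodule.exists_mem_ne_zero_of_ne_bot hq0
    obtain ⟨b, hbm, hbq⟩ : ∃ b, b ∈ IsLocalRing.maximalIdeal O ∧ b ∉ q := by
      by_contra hc
      push Not at hc
      exact hqm (le_antisymm hle hc)
    have h1 : KrLe (d + 1) (FractionRing (O ⧸ q)) := by
      refine hDL O K (FractionRing (O ⧸ q))
        ((algebraMap (O ⧸ q) (FractionRing (O ⧸ q))).comp (Ideal.Quotient.mk q))
        ⟨a, ha0, ?_⟩ ?_ (d + 1) hK
      · simp [Ideal.Quotient.eq_zero_iff_mem.mpr haq]
      · intro z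
        obtain ⟨x, y, hy, hz⟩ := IsFractionRing.div_surjective (A := O ⧸ q) z
        obtain ⟨x, rfl⟩ := Ideal.Quotient.mk_surjective x
        obtain ⟨y, rfl⟩ := Ideal.Quotient.mk_surjective y
        have hy0 : algebraMap (O ⧸ q) (FractionRing (O ⧸ q)) (Ideal.Quotient.mk q y) ≠ 0 :=
          IsFractionRing.to_map_ne_zero_of_mem_nonZeroDivisors hy
        refine ⟨x, y, hy0, ?_⟩
        rw [← hz, RingHom.comp_apply, RingHom.comp_apply, mul_div_cancel₀ _ hy0]
    have hl : ∀ x ∈ q, π x = 0 := by
      intro x hx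
      have : x ∈ RingHom.ker π := by rw [hk]; exact hle hx
      exact this
    refine hDL (O ⧸ q) (FractionRing (O ⧸ q)) κ (Ideal.Quotient.lift q π hl)
      ⟨Ideal.Quotient.mk q b, ?_, ?_⟩ ?_ d h1
    · intro hc
      exact hbq (Ideal.Quotient.eq_zero_iff_mem.mp hc)
    · rw [Ideal.Quotient.lift_mk]
      have : b ∈ RingHom.ker π := by rw [hk]; exact hbm
      exact this
    · intro z
      obtain ⟨x, rfl⟩ := hs z
      exact ⟨Ideal.Quotient.mk q x, 1, by simp, by simp⟩
  · right
    push Not at h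
    by_cases hf : IsField O
    · left; exact hf
    · right
      refine ⟨dvr O h hf, ?_⟩
      have hm : IsLocalRing.maximalIdeal O ≠ ⊥ := fun hc =>
        hf (IsLocalRing.isField_iff_maximalIdeal_eq.mpr hc)
      obtain ⟨a, ham, ha0⟩ := Submodule.exists_mem_ne_zero_of_ne_bot hm
      refine hDL O K κ π ⟨a, ha0, ?_⟩ ?_ (d + 1) hK
      · have : a ∈ RingHom.ker π := by rw [hk]; exact ham
        exact this
      · intro z
        obtain ⟨x, rfl⟩ := hs z
        exact ⟨x, 1, by simp, by simp⟩

theorem gen (X : Scheme.{0}) [IsIntegral X] (x : X) (h : IsField (X.presheaf.stalk x)) :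
    x = genericPoint X := by
  have hsub : ∀ p q : (Spec (X.presheaf.stalk x)), p = q := by
    intro p q
    have hp : ∀ p : PrimeSpectrum (X.presheaf.stalk x), p.asIdeal = ⊥ := by
      intro p
      by_contra hc
      obtain ⟨a, hap, ha0⟩ := Submodule.exists_mem_ne_zero_of_ne_bot hc
      obtain ⟨b, hb⟩ := h.mul_inv_cancel ha0
      apply p.2.ne_top
      rw [Ideal.eq_top_iff_one, ← hb]
      exact Ideal.mul_mem_right _ _ hap
    exact PrimeSpectrum.ext ((hp p).trans (hp q).symm)
  have h1 : x ∈ Set.range (X.fromSpecStalk x) := by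
    rw [Scheme.range_fromSpecStalk]; exact specializes_rfl
  have h2 : genericPoint X ∈ Set.range (X.fromSpecStalk x) := by
    rw [Scheme.range_fromSpecStalk]
    exact (genericPoint_spec X).specializes trivial
  obtain ⟨p, hp⟩ := h1
  obtain ⟨q, hq⟩ := h2
  rw [← hp, ← hq, hsub p q]

end N2

/-- **N2** -/
theorem thm_N2 (hDL : St_DL) : St_N2 := by
  intro X _ _ hX d hd x
  have : IsIntegrallyClosed (X.presheaf.stalk x) := hX x
  rcases N2.alg hDL (X.presheaf.stalk x) X.functionField (X.residueField x)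
    (X.residue x).hom (X.residue_surjective x) IsLocalRing.ker_residue d hd with h | h | h
  · left; exact h
  · right; left; exact N2.gen X x h
  · right; right; exact h

end Pool.Agent.BTF
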