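import Pool.Agent.BTF.St3

/-!
# BTF: the locus where a finite morphism is locally free (module N3, helper37)
-/

set_option autoImplicit false

noncomputable section

namespace Pool.Agent.BTF

open CategoryTheory CategoryTheory.Limits AlgebraicGeometry Pool.Agent.KPR Pool.Agent.KTX
open Pool.Agent.KGT.W (SerreClass FinType)

namespace N3

/-! ### localisation -/

section loc

variable {A A' : Type} [CommRing A] [CommRing A'] (l : A →+* A') (a : A)

theorem isU (hl : IsLoc a l) : IsUnit (l a) := by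
  let := l.toAlgebra
  have : IsLocalization.Away a A' := hl
  exact IsLocalization.Away.algebraMap_isUnit a

theorem zer (hl : IsLoc a l) (x : A) (hx : l x = 0) : ∃ n : ℕ, a ^ n * x = 0 := by
  let := l.toAlgebra
  have : IsLocalization.Away a A' := hl
  obtain ⟨⟨_, n, rfl⟩, h⟩ := (IsLocalization.map_eq_zero_iff (Submonoid.powers a) A' x).1 hx
  exact ⟨n, h⟩

theorem cd (hl : IsLoc a l) {N : ℕ} (g : Fin N → A') :
    ∃ (n : ℕ) (d : Fin N → A), ∀ i, l a ^ n * g i = l (d i) := by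
  let := l.toAlgebra
  have : IsLocalization.Away a A' := hl
  obtain ⟨⟨_, n, rfl⟩, h⟩ :=
    IsLocalization.exist_integer_multiples_of_finite (Submonoid.powers a) g
  choose d hd using h
  refine ⟨n, d, fun i => ?_⟩
  rw [← map_pow]
  have h1 := hd i
  rw [Algebra.smul_def] at h1
  exact h1.symm

end loc

/-- a basis after localisation -/
theorem loc {A B A' B' : Type} [CommRing A] [CommRing B] [CommRing A'] [CommRing B']
    (f : A →+* B) (f' : A' →+* B') (l : A →+* A') (l' : B →+* B')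
    (hc : f'.comp l = l'.comp f) (a : A) (hl : IsLoc a l) (hl' : IsLoc (f a) l') {N : ℕ}
    (e : Fin N → B) (hli : ∀ c : Fin N → A, ∑ i, f (c i) * e i = 0 → ∀ i, c i = 0)
    (hsp : ∀ b : B, ∃ c : Fin N → A, f a * b = ∑ i, f (c i) * e i) :
    letI := f'.toAlgebra
    Nonempty (Module.Basis (Fin N) A' B') := by
  let := f'.toAlgebra
  have hc' : ∀ x, f' (l x) = l' (f x) := fun x => congrArg (fun g : A →+* B' => g x) hc
  have hu : IsUnit (l a) := isU l a hl
  have hli' : LinearIndependent A' (fun i => l' (e i)) := by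
    rw [Fintype.linearIndependent_iff]
    intro g hg i
    obtain ⟨n, d, hd⟩ := cd l a hl g
    have h1 : l' (∑ i, f (d i) * e i) = 0 := by
      have h2 : l' (∑ i, f (d i) * e i) = f' (l a ^ n) * ∑ i, g i • l' (e i) := by
        rw [map_sum, Finset.mul_sum]
        refine Finset.sum_congr rfl fun i _ => ?_
        have h3 : g i • l' (e i) = f' (g i) * l' (e i) := rfl
        rw [h3, map_mul, ← hc', ← hd i, map_mul, mul_assoc]
      rw [h2, hg, mul_zero]
    obtain ⟨k, hk⟩ := zer l' (f a) hl' _ h1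
    have h4 : ∑ i, f (a ^ k * d i) * e i = 0 := by
      rw [← hk, Finset.mul_sum]
      refine Finset.sum_congr rfl fun i _ => ?_
      rw [map_mul, map_pow, mul_assoc]
    have h5 := congrArg l (hli _ h4 i)
    rw [map_mul, map_pow, map_zero, ← hd i, ← mul_assoc, ← pow_add] at h5
    exact ((hu.pow (k + n)).mul_right_eq_zero).1 h5
  have hsp' : ⊤ ≤ Submodule.span A' (Set.range fun i => l' (e i)) := by
    intro y _
    obtain ⟨n, d, hd⟩ := cd l' (f a) hl' (fun _ : Fin 1 => y)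
    obtain ⟨c, hc1⟩ := hsp (d 0)
    have h1 : f' (l a ^ (n + 1)) * y = ∑ i, l (c i) • l' (e i) := by
      have h2 : l' (f a * d 0) = ∑ i, l (c i) • l' (e i) := by
        rw [hc1, map_sum]
        refine Finset.sum_congr rfl fun i _ => ?_
        have h3 : l (c i) • l' (e i) = f' (l (c i)) * l' (e i) := rfl
        rw [h3, map_mul, hc']
      rw [← h2, map_mul, ← hd 0, map_pow, hc', pow_succ']
      ring
    obtain ⟨u, hu'⟩ := hu.pow (n + 1)
    have h4 : y = (↑u⁻¹ : A') • ∑ i, l (c i) • l' (e i) := by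
      rw [← h1, ← hu']
      show y = f' (↑u⁻¹ : A') * (f' (u : A') * y)
      rw [← mul_assoc, ← map_mul, Units.inv_mul, map_one, one_mul]
    rw [h4]
    exact Submodule.smul_mem _ _ (Submodule.sum_mem _ fun i _ =>
      Submodule.smul_mem _ _ (Submodule.subset_span ⟨i, rfl⟩))
  exact ⟨Module.Basis.mk hli' hsp'⟩

/-! ### the algebra -/

theorem alg {A B R K K' : Type} [CommRing A] [CommRing B] [CommRing R] [IsDomain R]
    [IsPrincipalIdealRing R] [Field K] [Field K'] [Algebra R K] [IsFractionRing R K]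
    (f : A →+* B) (hf : f.Finite) (g : A →+* R) (hg : Function.Injective g)
    (hg' : ∀ r : R, ∃ s a : A, IsUnit (g s) ∧ g s * r = g a)
    (φ : K →+* K') (N : ℕ) (hφ : FinDeg φ N) (i : B →+* K') (hi : Function.Injective i)
    (hi' : ∀ z : K', ∃ b c : B, i c ≠ 0 ∧ i c * z = i b)
    (hc : ∀ a, i (f a) = φ (algebraMap R K (g a))) :
    ∃ (e : Fin N → B) (a : A), IsUnit (g a) ∧
      (∀ c : Fin N → A, ∑ i, f (c i) * e i = 0 → ∀ i, c i = 0) ∧
      ∀ b : B, ∃ c : Fin N → A, f a * b = ∑ i, f (c i) * e i := by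
  classical
  let a1 : Algebra K K' := φ.toAlgebra
  let a2 : Algebra R K' := (φ.comp (algebraMap R K)).toAlgebra
  have : IsScalarTower R K K' := IsScalarTower.of_algebraMap_eq fun _ => rfl
  obtain ⟨hfd, hN⟩ := hφ
  have : FiniteDimensional K K' := hfd
  have hN' : Module.finrank K K' = N := hN
  have hinj : Function.Injective (algebraMap R K') :=
    φ.injective.comp (IsFractionRing.injective R K)
  have hsm : ∀ (r : R) (z : K'), r • z = algebraMap R K' r * z := fun r z => rfl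
  have hc' : ∀ a, i (f a) = algebraMap R K' (g a) := hc
  obtain ⟨M, hM⟩ : ∃ M : Submodule R K', M = Submodule.span R (Set.range i) := ⟨_, rfl⟩
  -- generators of `B`
  obtain ⟨t, ht⟩ : ∃ t : Finset B, ∀ E : AddSubgroup B, (∀ b ∈ t, b ∈ E) →
      (∀ (a : A), ∀ b ∈ E, f a * b ∈ E) → ∀ b, b ∈ E := by
    let := f.toAlgebra
    have h1 : Module.Finite A B := hf
    obtain ⟨t, ht⟩ := h1.fg_top
    refine ⟨t, fun E h2 h3 b => ?_⟩
    let E' : Submodule A B := { E with smul_mem' := fun a b hb => h3 a b hb }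
    have h4 : Submodule.span A (t : Set B) ≤ E' := Submodule.span_le.2 h2
    rw [ht] at h4
    exact h4 (Submodule.mem_top (x := b))
  have hMt : M = Submodule.span R (i '' (t : Set B)) := by
    rw [hM]
    apply le_antisymm
    · refine Submodule.span_le.2 ?_
      rintro _ ⟨b, rfl⟩
      refine ht ((Submodule.span R (i '' (t : Set B))).toAddSubgroup.comap i.toAddMonoidHom)
        ?_ ?_ b
      · intro b hb
        exact Submodule.subset_span ⟨b, hb, rfl⟩
      · intro a b hb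
        have hb' : i b ∈ Submodule.span R (i '' (t : Set B)) := hb
        show i (f a * b) ∈ Submodule.span R (i '' (t : Set B))
        rw [map_mul, hc', ← hsm]
        exact Submodule.smul_mem _ _ hb'
    · exact Submodule.span_mono (Set.image_subset_range _ _)
  have hfin : Module.Finite R M := by
    rw [Module.Finite.iff_fg, hMt]
    exact Submodule.fg_span ((Finset.finite_toSet t).image _)
  have : FaithfulSMul R K' := (faithfulSMul_iff_algebraMap_injective R K').2 hinj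
  have : Module.IsTorsionFree R K' := inferInstance
  have : Module.IsTorsionFree R M := inferInstance
  have : Module.Free R M := inferInstance
  -- a basis of `M`
  obtain ⟨m, ⟨b⟩⟩ : ∃ m : ℕ, Nonempty (Module.Basis (Fin m) R M) :=
    ⟨Module.finrank R M, ⟨Module.finBasis R M⟩⟩
  obtain ⟨v, hv⟩ : ∃ v : Fin m → K', v = fun k => (b k : K') := ⟨_, rfl⟩
  have hvM : ∀ k, v k ∈ M := fun k => by rw [hv]; exact (b k).2
  have hvR : LinearIndependent R v := by
    rw [hv]
    exact b.linearIndependent.map' M.subtype (Submodule.ker_subtype M)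
  have hvK : LinearIndependent K v := (LinearIndependent.iff_fractionRing R K).1 hvR
  have hrep : ∀ x ∈ M, ∃ r : Fin m → R, x = ∑ k, algebraMap R K' (r k) * v k := by
    intro x hx
    refine ⟨fun k => b.repr ⟨x, hx⟩ k, ?_⟩
    have h1 := congrArg (M.subtype) (b.sum_repr ⟨x, hx⟩)
    rw [map_sum] at h1
    rw [hv]
    exact h1.symm
  -- the rank
  have hspan : (⊤ : Submodule K K') ≤ Submodule.span K (Set.range v) := by
    have h1 : ∀ x ∈ Set.range i, x ∈ Submodule.span K (Set.range v) := by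
      rintro x hx
      obtain ⟨r, hr⟩ := hrep x (by rw [hM]; exact Submodule.subset_span hx)
      rw [hr]
      refine Submodule.sum_mem _ fun k _ => ?_
      exact Submodule.smul_mem _ (algebraMap R K (r k)) (Submodule.subset_span ⟨k, rfl⟩)
    have h2 : ∀ x ∈ Algebra.adjoin K (Set.range i), x ∈ Submodule.span K (Set.range v) := by
      intro x hx
      have h3 : x ∈ Subalgebra.toSubmodule (Algebra.adjoin K (Set.range i)) := hx
      rw [Algebra.adjoin_eq_span] at h3
      have h4 : (Submonoid.closure (Set.range i) : Set K') ⊆ Set.range i := by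
        have h5 : Submonoid.closure (Set.range i) ≤ MonoidHom.mrange (i : B →* K') :=
          Submonoid.closure_le.2 fun y hy => hy
        exact h5
      exact (Submodule.span_le.2 fun y hy => h1 y (h4 hy)) h3
    intro z _
    apply h2
    obtain ⟨x, y, hy, hz⟩ := hi' z
    have h6 : i y ∈ Algebra.adjoin K (Set.range i) := Algebra.subset_adjoin ⟨y, rfl⟩
    have h7 : (i y)⁻¹ ∈ Algebra.adjoin K (Set.range i) :=
      Subalgebra.inv_mem_of_algebraic _ (x := ⟨i y, h6⟩) (Algebra.IsAlgebraic.isAlgebraic (i y))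
    have h8 : z = (i y)⁻¹ * i x := by
      rw [← hz, ← mul_assoc, inv_mul_cancel₀ hy, one_mul]
    rw [h8]
    exact Subalgebra.mul_mem _ h7 (Algebra.subset_adjoin ⟨x, rfl⟩)
  have hm : m = N := by
    rw [← hN', Module.finrank_eq_card_basis (Module.Basis.mk hvK hspan), Fintype.card_fin]
  subst hm
  -- denominators
  have hden : ∀ x ∈ M, ∃ (s : A) (y : B), IsUnit (g s) ∧ i y = i (f s) * x := by
    intro x hx
    rw [hM] at hx
    refine Submodule.span_induction ?_ ?_ ?_ ?_ hx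
    · rintro _ ⟨y, rfl⟩
      exact ⟨1, y, by rw [map_one]; exact isUnit_one, by rw [map_one, map_one, one_mul]⟩
    · exact ⟨1, 0, by rw [map_one]; exact isUnit_one, by rw [map_zero, mul_zero]⟩
    · rintro x y _ _ ⟨s, z, hs, hz⟩ ⟨s', z', hs', hz'⟩
      refine ⟨s * s', f s' * z + f s * z', by rw [map_mul]; exact hs.mul hs', ?_⟩
      rw [map_add, map_mul, map_mul, map_mul, map_mul, hz, hz']
      ring
    · rintro r x _ ⟨s, z, hs, hz⟩
      obtain ⟨s', a, hs', ha⟩ := hg' r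
      refine ⟨s' * s, f a * z, by rw [map_mul]; exact hs'.mul hs, ?_⟩
      rw [map_mul, map_mul, map_mul, hz, hc', hc' s', ← ha, map_mul, hsm]
      ring
  choose s e hs he using fun k => hden (v k) (hvM k)
  choose u hu using hs
  have huv : ∀ k, v k = algebraMap R K' (↑(u k)⁻¹ : R) * i (e k) := by
    intro k
    rw [he, hc', ← hu k, ← mul_assoc, ← map_mul, Units.inv_mul, map_one, one_mul]
  -- generators
  have hgen : ∀ y : B, ∃ (a : A) (c : Fin m → A), IsUnit (g a) ∧ f a * y = ∑ k, f (c k) * e k := by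
    intro y
    obtain ⟨r, hr⟩ := hrep (i y) (by rw [hM]; exact Submodule.subset_span ⟨y, rfl⟩)
    choose w d hw hd using fun k => hg' (r k * (↑(u k)⁻¹ : R))
    refine ⟨∏ k, w k, fun k => (∏ j ∈ Finset.univ.erase k, w j) * d k, ?_, ?_⟩
    · rw [map_prod]
      exact IsUnit.prod_univ_iff.2 hw
    · apply hi
      rw [map_mul, hr, map_sum, Finset.mul_sum]
      refine Finset.sum_congr rfl fun k _ => ?_
      rw [huv k, map_mul, map_mul, map_mul, hc', hc' (d k), ← hd k, hc',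
        ← Finset.mul_prod_erase _ _ (Finset.mem_univ k), map_mul, map_mul, map_mul, map_mul]
      ring
  have hall : ∃ a : A, IsUnit (g a) ∧ ∀ y ∈ t, ∃ c : Fin m → A, f a * y = ∑ k, f (c k) * e k := by
    choose a c ha hac using hgen
    refine ⟨∏ y ∈ t, a y, ?_, fun y hy => ?_⟩
    · rw [map_prod]
      exact IsUnit.prod_iff.2 fun y _ => ha y
    · refine ⟨fun k => (∏ z ∈ t.erase y, a z) * c y k, ?_⟩
      rw [← Finset.mul_prod_erase t _ hy, map_mul, mul_comm (f (a y)), mul_assoc, hac,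
        Finset.mul_sum]
      refine Finset.sum_congr rfl fun k _ => ?_
      rw [map_mul, mul_assoc]
  obtain ⟨a, ha, hat⟩ := hall
  refine ⟨e, a, ha, ?_, ?_⟩
  · intro c hcz k
    have h1 : ∑ k, (g (c k) * (u k : R)) • v k = 0 := by
      have h2 := congrArg i hcz
      rw [map_zero, map_sum] at h2
      rw [← h2]
      refine Finset.sum_congr rfl fun k _ => ?_
      rw [hsm, map_mul, map_mul, he, hc', hc', hu k]
      ring
    have h3 := (Fintype.linearIndependent_iff.1 hvR) _ h1 k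
    have h4 : g (c k) = 0 := (u k).isUnit.mul_left_eq_zero.1 h3
    exact hg (by rw [h4, map_zero])
  · let E : AddSubgroup B :=
      { carrier := {y | ∃ c : Fin m → A, f a * y = ∑ k, f (c k) * e k}
        zero_mem' := ⟨fun _ => 0, by simp⟩
        add_mem' := by
          rintro x y ⟨c, hcx⟩ ⟨c', hcy⟩
          refine ⟨fun k => c k + c' k, ?_⟩
          rw [mul_add, hcx, hcy, ← Finset.sum_add_distrib]
          refine Finset.sum_congr rfl fun k _ => ?_
          rw [map_add, add_mul]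
        neg_mem' := by
          rintro x ⟨c, hcx⟩
          refine ⟨fun k => - c k, ?_⟩
          rw [mul_neg, hcx, ← Finset.sum_neg_distrib]
          refine Finset.sum_congr rfl fun k _ => ?_
          rw [map_neg, neg_mul] }
    refine ht E hat ?_
    rintro x y ⟨c, hcy⟩
    refine ⟨fun k => x * c k, ?_⟩
    rw [mul_left_comm, hcy, Finset.mul_sum]
    refine Finset.sum_congr rfl fun k _ => ?_
    rw [map_mul, mul_assoc]

/-- transport of a basis along isomorphisms -/
theorem tr {A B A' B' : Type} [CommRing A] [CommRing B] [CommRing A'] [CommRing B']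
    (f : A →+* B) (f' : A' →+* B') (l : A →+* A') (l' : B →+* B')
    (hc : f'.comp l = l'.comp f) (hl : Function.Bijective l) (hl' : Function.Bijective l') {N : ℕ}
    (h : letI := f.toAlgebra; Nonempty (Module.Basis (Fin N) A B)) :
    letI := f'.toAlgebra
    Nonempty (Module.Basis (Fin N) A' B') := by
  obtain ⟨e, h1, h2⟩ : ∃ e : Fin N → B, (∀ c : Fin N → A, ∑ i, f (c i) * e i = 0 → ∀ i, c i = 0) ∧
      ∀ b : B, ∃ c : Fin N → A, b = ∑ i, f (c i) * e i := by
    let := f.toAlgebra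
    obtain ⟨b⟩ := h
    refine ⟨b, fun c hc => ?_, fun y => ⟨fun i => b.repr y i, ?_⟩⟩
    · exact (Fintype.linearIndependent_iff.1 b.linearIndependent) c hc
    · exact (b.sum_repr y).symm
  refine loc f f' l l' hc 1 ?_ ?_ e h1 ?_
  · let := l.toAlgebra
    exact IsLocalization.away_of_isUnit_of_bijective A' isUnit_one hl
  · let := l'.toAlgebra
    rw [map_one]
    exact IsLocalization.away_of_isUnit_of_bijective B' isUnit_one hl'
  · intro y
    rw [map_one, one_mul]
    exact h2 y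

/-! ### geometry -/

/-- a basis over `W` -/
def HB {X₁ X : Scheme.{0}} (π : X₁ ⟶ X) (N : ℕ) (W : X.Opens) : Prop :=
  letI := (π.app W).hom.toAlgebra
  Nonempty (Module.Basis (Fin N) Γ(X, W) Γ(X₁, π ⁻¹ᵁ W))

theorem bij {R S : CommRingCat.{0}} (f : R ⟶ S) [IsIso f] : Function.Bijective f.hom :=
  (ConcreteCategory.isIso_iff_bijective f).1 inferInstance

/-- the restriction to an open subset -/
theorem restr {X₁ X : Scheme.{0}} (π : X₁ ⟶ X) (N : ℕ) (X₀ W : X.Opens) (hW : W ≤ X₀)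
    (h : HB π N W) : HB (π ∣_ X₀) N (X₀.ι ⁻¹ᵁ W) := by
  have e : (π ∣_ X₀) ≫ X₀.ι = (π ⁻¹ᵁ X₀).ι ≫ π := morphismRestrict_ι π X₀
  have e1 := Scheme.Hom.congr_app e W
  rw [Scheme.Hom.comp_app, Scheme.Hom.comp_app] at e1
  have i1 : IsIso (X₀.ι.app W) := X₀.ι.isIso_app W (by rw [Scheme.Opens.opensRange_ι]; exact hW)
  have i2 : IsIso ((π ⁻¹ᵁ X₀).ι.app (π ⁻¹ᵁ W)) :=
    (π ⁻¹ᵁ X₀).ι.isIso_app _ (by rw [Scheme.Opens.opensRange_ι]; exact fun x hx => hW hx)
  have e2 : ((π ∣_ X₀) ≫ X₀.ι) ⁻¹ᵁ W = ((π ⁻¹ᵁ X₀).ι ≫ π) ⁻¹ᵁ W := by rw [e]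
  have e3 : Function.Bijective (((π ⁻¹ᵁ X₀).toScheme.presheaf.map (eqToHom e2).op).hom.comp
      ((π ⁻¹ᵁ X₀).ι.app (π ⁻¹ᵁ W)).hom) := by
    rw [RingHom.coe_comp]
    exact (bij ((π ⁻¹ᵁ X₀).toScheme.presheaf.map (eqToHom e2).op)).comp
      (bij ((π ⁻¹ᵁ X₀).ι.app (π ⁻¹ᵁ W)))
  exact tr (π.app W).hom ((π ∣_ X₀).app (X₀.ι ⁻¹ᵁ W)).hom (X₀.ι.app W).hom
    (((π ⁻¹ᵁ X₀).toScheme.presheaf.map (eqToHom e2).op).hom.comp
      ((π ⁻¹ᵁ X₀).ι.app (π ⁻¹ᵁ W)).hom)
    (congrArg CommRingCat.Hom.hom e1) (bij _) e3 h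

theorem flat {X₁ X : Scheme.{0}} (π : X₁ ⟶ X) [IsAffineHom π] (N : ℕ) (h : LocFree π N) :
    Flat π := by
  rw [HasRingHomProperty.iff_exists_appLE (P := @Flat)
    (RingHom.Flat.stableUnderComposition.stableUnderCompositionWithLocalizationAway
      RingHom.Flat.holdsForLocalizationAway).1]
  intro x
  obtain ⟨W, hxW, hW, hb⟩ := h (π x)
  refine ⟨⟨W, hW⟩, ⟨π ⁻¹ᵁ W, hW.preimage π⟩, hxW, le_rfl, ?_⟩
  show (π.appLE W (π ⁻¹ᵁ W) le_rfl).hom.Flat
  rw [Scheme.Hom.appLE_eq_app]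
  let := (π.app W).hom.toAlgebra
  obtain ⟨b⟩ := hb
  have h1 : Module.Free Γ(X, W) Γ(X₁, π ⁻¹ᵁ W) := Module.Free.of_basis b
  exact (inferInstance : Module.Flat Γ(X, W) Γ(X₁, π ⁻¹ᵁ W))

/-- basic open subsets -/
theorem basic {X₁ X : Scheme.{0}} (π : X₁ ⟶ X) [IsAffineHom π] (N : ℕ) (U : X.Opens)
    (hU : IsAffineOpen U) (a : Γ(X, U)) (e : Fin N → Γ(X₁, π ⁻¹ᵁ U))
    (hli : ∀ c : Fin N → Γ(X, U), ∑ i, (π.app U).hom (c i) * e i = 0 → ∀ i, c i = 0)
    (hsp : ∀ b, ∃ c : Fin N → Γ(X, U), (π.app U).hom a * b = ∑ i, (π.app U).hom (c i) * e i) :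
    HB π N (X.basicOpen a) := by
  have hV : IsAffineOpen (π ⁻¹ᵁ U) := hU.preimage π
  refine loc (π.app U).hom (π.app (X.basicOpen a)).hom
    (X.presheaf.map (homOfLE (X.basicOpen_le a)).op).hom
    (X₁.presheaf.map (homOfLE (show π ⁻¹ᵁ X.basicOpen a ≤ π ⁻¹ᵁ U from
      fun x hx => X.basicOpen_le a hx)).op).hom ?_ a ?_ ?_ e hli hsp
  · exact congrArg CommRingCat.Hom.hom (π.naturality (homOfLE (X.basicOpen_le a)).op)
  · exact hU.isLocalization_of_eq_basicOpen a _ rfl
  · exact hV.isLocalization_of_eq_basicOpen ((π.app U).hom a) _ (Scheme.preimage_basicOpen π a)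

theorem cp {X X₁ : Scheme.{0}} (π : X₁ ⟶ X) {R : CommRingCat.{0}} [IsLocalRing R]
    (G : Spec R ⟶ X₁) (F : Spec R ⟶ X) (h : F = G ≫ π) (U : X.Opens)
    (h1 : F (IsLocalRing.closedPoint R) ∈ U) (h2 : G (IsLocalRing.closedPoint R) ∈ π ⁻¹ᵁ U) :
    X.presheaf.germ U _ h1 ≫ Scheme.stalkClosedPointTo F =
      π.app U ≫ X₁.presheaf.germ (π ⁻¹ᵁ U) _ h2 ≫ Scheme.stalkClosedPointTo G := by
  subst h
  rw [Scheme.stalkClosedPointTo_comp]
  exact Scheme.Hom.germ_stalkMap_assoc π U _ h1 _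

theorem cp2 {X : Scheme.{0}} {R : CommRingCat.{0}} [IsLocalRing R] {x : X}
    (f : X.presheaf.stalk x ⟶ R) [IsLocalHom f.hom] (F : Spec R ⟶ X)
    (h : F = Spec.map f ≫ X.fromSpecStalk x) (U : X.Opens)
    (h1 : F (IsLocalRing.closedPoint R) ∈ U) (hx : x ∈ U) :
    X.presheaf.germ U _ h1 ≫ Scheme.stalkClosedPointTo F = X.presheaf.germ U x hx ≫ f := by
  subst h
  exact Scheme.germ_stalkClosedPointTo_Spec_fromSpecStalk f U h1

/-- the homomorphisms to `K'` -/
theorem eqn {X X₁ : Scheme.{0}} [IsIntegral X] [IsIntegral X₁] (π : X₁ ⟶ X) (K' : Type) [Field K']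
    (ε : X₁.functionField ≃+* K') (φ : X.functionField →+* K')
    (h : Spec.map (CommRingCat.ofHom (ε : X₁.functionField →+* K')) ≫
      X₁.fromSpecStalk (genericPoint X₁) ≫ π = etaX φ) :
    π (genericPoint X₁) = genericPoint X ∧
    ∀ (U : X.Opens) (hU : genericPoint X ∈ U) (hV : genericPoint X₁ ∈ π ⁻¹ᵁ U) (a : Γ(X, U)),
      ε (X₁.presheaf.germ (π ⁻¹ᵁ U) _ hV ((π.app U).hom a)) =
        φ (X.presheaf.germ U _ hU a) := by
  have l1 : IsLocalHom (CommRingCat.ofHom φ).hom := ⟨fun a ha => by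
    have h1 : φ a ≠ 0 := ha.ne_zero
    have h2 : a ≠ 0 := fun h3 => h1 (by rw [h3, map_zero])
    exact isUnit_iff_ne_zero.2 h2⟩
  have l2 : IsLocalHom (CommRingCat.ofHom (ε : X₁.functionField →+* K')).hom := ⟨fun a ha => by
    have h1 : ε a ≠ 0 := ha.ne_zero
    have h2 : a ≠ 0 := fun h3 => h1 (by rw [h3, map_zero])
    exact isUnit_iff_ne_zero.2 h2⟩
  obtain ⟨F₁, hF₁⟩ : ∃ F₁ : Sp K' ⟶ X, F₁ = Spec.map (CommRingCat.ofHom φ) ≫
    X.fromSpecStalk (genericPoint X) := ⟨_, rfl⟩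
  obtain ⟨G, hG⟩ : ∃ G : Sp K' ⟶ X₁, G =
    Spec.map (CommRingCat.ofHom (ε : X₁.functionField →+* K')) ≫
      X₁.fromSpecStalk (genericPoint X₁) := ⟨_, rfl⟩
  have hFG : G ≫ π = F₁ := by
    rw [hG, hF₁, Category.assoc]
    exact h
  have p1 : F₁ (IsLocalRing.closedPoint K') = genericPoint X := by
    rw [hF₁, Scheme.Hom.comp_apply]
    rw [Spec_closedPoint]
    exact Scheme.fromSpecStalk_closedPoint
  have p2 : G (IsLocalRing.closedPoint K') = genericPoint X₁ := by
    rw [hG, Scheme.Hom.comp_apply]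
    rw [Spec_closedPoint]
    exact Scheme.fromSpecStalk_closedPoint
  refine ⟨?_, ?_⟩
  · rw [← p1, ← p2, ← hFG]
    rfl
  · intro U hU hV a
    have h1 := cp2 (CommRingCat.ofHom φ) F₁ hF₁ U (by rw [p1]; exact hU) hU
    have h2 := cp2 (CommRingCat.ofHom (ε : X₁.functionField →+* K')) G hG (π ⁻¹ᵁ U)
      (by rw [p2]; exact hV) hV
    have h3 := cp π G F₁ hFG.symm U (by rw [p1]; exact hU) (by rw [p2]; exact hV)
    rw [h1, h2] at h3
    exact (congrArg (fun g : Γ(X, U) ⟶ CommRingCat.of K' => g.hom a) h3).symm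

/-- the neighbourhoods of a point with a principal local ring -/
theorem point {X X₁ : Scheme.{0}} [IsIntegral X] [IsIntegral X₁] (π : X₁ ⟶ X) [IsFinite π]
    (K' : Type) [Field K'] (ε : X₁.functionField ≃+* K') (φ : X.functionField →+* K') (N : ℕ)
    (hφ : FinDeg φ N)
    (h : Spec.map (CommRingCat.ofHom (ε : X₁.functionField →+* K')) ≫
      X₁.fromSpecStalk (genericPoint X₁) ≫ π = etaX φ) (x : X)
    (hx : IsPrincipalIdealRing (X.presheaf.stalk x)) :
    ∃ W : X.Opens, x ∈ W ∧ IsAffineOpen W ∧ HB π N W := by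
  obtain ⟨hp, he⟩ := eqn π K' ε φ h
  obtain ⟨_, ⟨U, hU, rfl⟩, hxU, -⟩ := X.isBasis_affineOpens.exists_subset_of_mem_open
    (Set.mem_univ x) isOpen_univ
  have hU' : IsAffineOpen U := hU
  have hgU : genericPoint X ∈ U := (genericPoint_specializes x).mem_open U.2 hxU
  have hgV : genericPoint X₁ ∈ π ⁻¹ᵁ U := by
    show π (genericPoint X₁) ∈ U
    rw [hp]
    exact hgU
  have hV : IsAffineOpen (π ⁻¹ᵁ U) := hU'.preimage π
  have : Nonempty (π ⁻¹ᵁ U) := ⟨⟨_, hgV⟩⟩
  have : Nonempty U := ⟨⟨x, hxU⟩⟩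
  have hfr : IsFractionRing Γ(X₁, π ⁻¹ᵁ U) X₁.functionField :=
    functionField_isFractionRing_of_isAffineOpen X₁ _ hV
  have hst := hU'.isLocalization_stalk ⟨x, hxU⟩
  have c1 : ∀ r : X.presheaf.stalk x, ∃ s a : Γ(X, U),
      IsUnit ((X.presheaf.germ U x hxU).hom s) ∧
        (X.presheaf.germ U x hxU).hom s * r = (X.presheaf.germ U x hxU).hom a := by
    let : Algebra Γ(X, U) (X.presheaf.stalk x) := (X.presheaf.germ U x hxU).hom.toAlgebra
    have hst' : IsLocalization.AtPrime (X.presheaf.stalk x)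
      (hU'.primeIdealOf ⟨x, hxU⟩).asIdeal := hst
    intro r
    obtain ⟨⟨b, s⟩, hs⟩ := IsLocalization.surj (hU'.primeIdealOf ⟨x, hxU⟩).asIdeal.primeCompl r
    refine ⟨s, b, IsLocalization.map_units (X.presheaf.stalk x) s, ?_⟩
    rw [mul_comm]
    exact hs
  have c2 : Function.Injective
      ((ε : X₁.functionField →+* K').comp (X₁.presheaf.germ (π ⁻¹ᵁ U) _ hgV).hom) := by
    rw [RingHom.coe_comp]
    exact ε.injective.comp (germ_injective_of_isIntegral X₁ _ hgV)
  have c3 : ∀ z : K', ∃ b c : Γ(X₁, π ⁻¹ᵁ U),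
      ((ε : X₁.functionField →+* K').comp (X₁.presheaf.germ (π ⁻¹ᵁ U) _ hgV).hom) c ≠ 0 ∧
      ((ε : X₁.functionField →+* K').comp (X₁.presheaf.germ (π ⁻¹ᵁ U) _ hgV).hom) c * z =
      ((ε : X₁.functionField →+* K').comp (X₁.presheaf.germ (π ⁻¹ᵁ U) _ hgV).hom) b := by
    intro z
    obtain ⟨b, c, hc, hz⟩ := IsFractionRing.div_surjective (A := Γ(X₁, π ⁻¹ᵁ U)) (ε.symm z)
    have hc0 : algebraMap Γ(X₁, π ⁻¹ᵁ U) X₁.functionField c ≠ 0 :=
      IsFractionRing.to_map_ne_zero_of_mem_nonZeroDivisors hc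
    refine ⟨b, c, ?_, ?_⟩
    · intro h0
      apply hc0
      apply ε.injective
      rw [map_zero]
      exact h0
    · have h3 : algebraMap Γ(X₁, π ⁻¹ᵁ U) X₁.functionField c * ε.symm z =
          algebraMap Γ(X₁, π ⁻¹ᵁ U) X₁.functionField b := by
        rw [← hz, mul_div_cancel₀ _ hc0]
      have h4 := congrArg ε h3
      rw [map_mul, RingEquiv.apply_symm_apply] at h4
      exact h4
  have c4 : ∀ a : Γ(X, U),
      ((ε : X₁.functionField →+* K').comp (X₁.presheaf.germ (π ⁻¹ᵁ U) _ hgV).hom)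
        ((π.app U).hom a) =
      φ (algebraMap (X.presheaf.stalk x) X.functionField ((X.presheaf.germ U x hxU).hom a)) := by
    intro a
    refine (he U hgU hgV a).trans ?_
    congr 1
    exact (congrArg (fun g : Γ(X, U) ⟶ X.functionField => g.hom a)
      (TopCat.Presheaf.germ_stalkSpecializes X.presheaf hxU
        ((genericPoint_spec X).specializes trivial))).symm
  obtain ⟨e, a, ha, h1, h2⟩ := alg (K := X.functionField) (π.app U).hom (π.finite_app U hU')
    (X.presheaf.germ U x hxU).hom (germ_injective_of_isIntegral X x hxU) c1 φ N hφ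
    ((ε : X₁.functionField →+* K').comp (X₁.presheaf.germ (π ⁻¹ᵁ U) _ hgV).hom) c2 c3 c4
  refine ⟨X.basicOpen a, ?_, hU'.basicOpen a, basic π N U hU' a e h1 h2⟩
  exact (Scheme.mem_basicOpen X a x hxU).2 ha

end N3

/-- **N3** -/
theorem thm_N3 : St_N3 := by
  intro X X₁ _ _ _ π _ K' _ ε φ N hφ h
  have hlf : LocFree (π ∣_ (sSup {W : X.Opens | IsAffineOpen W ∧ N3.HB π N W})) N := by
    intro z
    obtain ⟨W, ⟨hW, hb⟩, hz⟩ := TopologicalSpace.Opens.mem_sSup.1 z.2
    have hle : W ≤ sSup {W : X.Opens | IsAffineOpen W ∧ N3.HB π N W} := le_sSup ⟨hW, hb⟩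
    refine ⟨_, hz, hW.preimage_of_isOpenImmersion _ ?_, N3.restr π N _ W hle hb⟩
    rw [Scheme.Opens.opensRange_ι]
    exact hle
  refine ⟨sSup {W : X.Opens | IsAffineOpen W ∧ N3.HB π N W}, ?_, ?_, ?_, ?_⟩
  · intro x hx
    obtain ⟨W, hxW, hW, hb⟩ := N3.point π K' ε φ N hφ h x inferInstance
    exact TopologicalSpace.Opens.mem_sSup.2 ⟨W, ⟨hW, hb⟩, hxW⟩
  · obtain ⟨W, hxW, hW, hb⟩ := N3.point π K' ε φ N hφ h (genericPoint X)
      (inferInstanceAs (IsPrincipalIdealRing X.functionField))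
    exact TopologicalSpace.Opens.mem_sSup.2 ⟨W, ⟨hW, hb⟩, hxW⟩
  · exact hlf
  · exact N3.flat _ N hlf

end Pool.Agent.BTF
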