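import Pool.Agent.BTF.St3
import Pool.Agent.KIN.H2

/-!
# BTF, module N4: `π_* π^*` is `N` plus a nilpotent operator

MP_e17fa799_al (captain helper21); helper97.
-/

set_option autoImplicit false
set_option linter.style.haveILetI false

noncomputable section

namespace Pool.Agent.BTF

namespace N4

open CategoryTheory CategoryTheory.Limits AlgebraicGeometry TopologicalSpace Pool.Agent.KTX
open Pool.Agent.KIN (h2_noeth)

/-- `π_* π^* - N` -/
def D (t : STh.{1}) {Y Z : Scheme.{0}} (p : Y ⟶ Z) [Flat p] [IsFinite p] (N : ℕ) (a : t.T Z) :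
    t.T Z :=
  t.push p (t.pull p a) - N • a

theorem pull_congr (t : STh.{1}) {Y Z : Scheme.{0}} {f g : Y ⟶ Z} [Flat f] [Flat g] (h : f = g)
    (a : t.T Z) : t.pull f a = t.pull g a := by
  subst h
  rfl

theorem push_congr (t : STh.{1}) {Y Z : Scheme.{0}} {f g : Y ⟶ Z} [IsFinite f] [IsFinite g]
    (h : f = g) (a : t.T Y) : t.push f a = t.push g a := by
  subst h
  rfl

/-- flat base change -/
theorem pull_D (t : STh.{1}) {X' X Y' Y : Scheme.{0}} [IsNoetherian Y] [IsNoetherian Y']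
    (g' : X' ⟶ X) (f' : X' ⟶ Y') (f : X ⟶ Y) (g : Y' ⟶ Y) [Flat g] [IsFinite f] [Flat f]
    [IsFinite f'] [Flat f'] (sq : IsPullback g' f' f g) (N : ℕ) (a : t.T Y) :
    t.pull g (D t f N a) = D t f' N (t.pull g a) := by
  haveI : Flat g' := MorphismProperty.of_isPullback sq.flip ‹Flat g›
  haveI : IsNoetherian X := h2_noeth f
  haveI : IsNoetherian X' := h2_noeth f'
  have h1 : t.pull g (t.push f (t.pull f a)) = t.push f' (t.pull f' (t.pull g a)) := by
    rw [t.bc g' f' f g sq, ← t.pull_comp, ← t.pull_comp]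
    exact congrArg _ (pull_congr t sq.w a)
  unfold D
  rw [map_sub, map_nsmul, h1]

/-- finite push-forward -/
theorem D_push (t : STh.{1}) {X' X Y' Y : Scheme.{0}} [IsNoetherian Y]
    (g' : X' ⟶ X) (f' : X' ⟶ Y') (f : X ⟶ Y) (g : Y' ⟶ Y) [IsFinite g] [IsFinite f] [Flat f]
    [IsFinite f'] [Flat f'] (sq : IsPullback g' f' f g) (N : ℕ) (a : t.T Y') :
    D t f N (t.push g a) = t.push g (D t f' N a) := by
  haveI : IsFinite g' := MorphismProperty.of_isPullback sq.flip ‹IsFinite g›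
  haveI : IsNoetherian X := h2_noeth f
  haveI : IsNoetherian Y' := h2_noeth g
  have h1 : t.push f (t.pull f (t.push g a)) = t.push g (t.push f' (t.pull f' a)) := by
    rw [t.bc f' g' g f sq.flip, ← t.push_comp, ← t.push_comp]
    exact push_congr t sq.w _
  unfold D
  rw [map_sub, map_nsmul, h1]

/-- the empty scheme -/
theorem zero_of_isEmpty (t : STh.{1}) (Z : Scheme.{0}) [IsNoetherian Z] [IsEmpty Z] (a : t.T Z) :
    a = 0 := by
  have h := t.ex0 (𝟙 Z) (𝟙 Z) (Set.ext fun z => (IsEmpty.false z).elim) a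
  rwa [t.push_id, t.pull_id] at h

/-- the sections over an affine open set -/
theorem sq_affine {X X₁ : Scheme.{0}} (π : X₁ ⟶ X) (W : X.Opens) (hW : IsAffineOpen W)
    (hW' : IsAffineOpen (π ⁻¹ᵁ W)) :
    IsPullback hW'.fromSpec (Spec.map (π.app W)) π hW.fromSpec := by
  have h1 := (isPullback_morphismRestrict π W).flip
  have h2 : Spec.map (π.app W) ≫ hW.fromSpec = hW'.fromSpec ≫ π := by
    rw [Scheme.Hom.app_eq_appLE]
    exact IsAffineOpen.SpecMap_appLE_fromSpec π hW hW' le_rfl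
  refine h1.of_iso hW'.isoSpec (Iso.refl _) hW.isoSpec (Iso.refl _) ?_ ?_ ?_ ?_
  · rw [Iso.refl_hom, Category.comp_id, IsAffineOpen.isoSpec_hom_fromSpec]
  · rw [← cancel_mono hW.fromSpec, Category.assoc, Category.assoc, h2,
      IsAffineOpen.isoSpec_hom_fromSpec, IsAffineOpen.isoSpec_hom_fromSpec_assoc]
    exact h1.w.symm
  · rw [Iso.refl_hom, Iso.refl_hom, Category.comp_id, Category.id_comp]
  · rw [Iso.refl_hom, Category.comp_id, IsAffineOpen.isoSpec_hom_fromSpec]

/-- zero on an open subscheme over `W` -/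
theorem D_zero (t : STh.{1}) {X X₁ : Scheme.{0}} (π : X₁ ⟶ X) (N : ℕ) (W : X.Opens)
    (hW : IsAffineOpen W) (hW' : IsAffineOpen (π ⁻¹ᵁ W))
    (hb : letI := (π.app W).hom.toAlgebra
      Nonempty (Module.Basis (Fin N) Γ(X, W) Γ(X₁, π ⁻¹ᵁ W)))
    {Y Z : Scheme.{0}} [IsNoetherian Z] (p : Y ⟶ Z) [Flat p] [IsFinite p] (q : Y ⟶ X₁)
    (h : Z ⟶ Spec Γ(X, W)) (sq : IsPullback q p π (h ≫ hW.fromSpec)) (a : t.T Z) :
    D t p N a = 0 := by
  have h1 := sq_affine π W hW hW'
  let g : Y ⟶ Spec Γ(X₁, π ⁻¹ᵁ W) := h1.lift q (p ≫ h) (by rw [sq.w, Category.assoc])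
  have hg1 : g ≫ hW'.fromSpec = q := h1.lift_fst _ _ _
  have hg2 : g ≫ Spec.map (π.app W) = p ≫ h := h1.lift_snd _ _ _
  have sq' : IsPullback (g ≫ hW'.fromSpec) p π (h ≫ hW.fromSpec) := by
    rw [hg1]
    exact sq
  have h2 : IsPullback g p (Spec.map (π.app W)) h := IsPullback.of_right sq' hg2 h1
  letI : Algebra Γ(X, W) Γ(X₁, π ⁻¹ᵁ W) := (π.app W).hom.toAlgebra
  obtain ⟨b⟩ := hb
  have h3 := t.free Γ(X, W) Γ(X₁, π ⁻¹ᵁ W) N b p g h h2.flip a
  unfold D
  rw [h3, sub_self]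

theorem main (t : STh.{1}) (X X₁ : Scheme.{0}) [IsNoetherian X] (π : X₁ ⟶ X) [IsFinite π] [Flat π]
    (N : ℕ) (hN : LocFree π N) : ∀ (C : Closeds X) (Z : Scheme.{0}) (i : Z ⟶ X)
      [IsClosedImmersion i], Set.range i = (C : Set X) → ∀ (Y : Scheme.{0}) (p : Y ⟶ Z)
      (q : Y ⟶ X₁) [Flat p] [IsFinite p], IsPullback q p π i →
      ∃ e : ℕ, ∀ a : t.T Z, (D t p N)^[e] a = 0 := by
  intro C
  induction C using WellFoundedLT.induction with
  | ind C ih =>
  intro Z i _ hC Y p q _ _ sq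
  have hZ : IsNoetherian Z := h2_noeth i
  rcases isEmpty_or_nonempty Z with hem | ⟨⟨z⟩⟩
  · exact ⟨0, fun a => zero_of_isEmpty t Z a⟩
  obtain ⟨W, hxW, hW, hb⟩ := hN (i z)
  have hW' : IsAffineOpen (π ⁻¹ᵁ W) := hW.preimage π
  -- the open subscheme
  let Z' : Scheme.{0} := pullback i hW.fromSpec
  let j : Z' ⟶ Z := pullback.fst i hW.fromSpec
  let h : Z' ⟶ Spec Γ(X, W) := pullback.snd i hW.fromSpec
  have hjh : j ≫ i = h ≫ hW.fromSpec := pullback.condition
  haveI : IsOpenImmersion j := inferInstance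
  haveI hZ' : IsNoetherian Z' := h2_noeth j
  have hzj : z ∈ Set.range j := by
    have h1 : i z ∈ Set.range hW.fromSpec := by
      rw [hW.range_fromSpec]
      exact hxW
    obtain ⟨w, hw⟩ := h1
    obtain ⟨y, hy1, -⟩ := Scheme.Pullback.exists_preimage_pullback (f := i) (g := hW.fromSpec) z w
      hw.symm
    exact ⟨y, hy1⟩
  let p' : pullback p j ⟶ Z' := pullback.snd p j
  let q' : pullback p j ⟶ Y := pullback.fst p j
  have sq1 : IsPullback q' p' p j := IsPullback.of_hasPullback p j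
  haveI : Flat p' := inferInstance
  haveI : IsFinite p' := inferInstance
  have sq2 : IsPullback (q' ≫ q) p' π (j ≫ i) := sq1.paste_horiz sq
  have hD0 : ∀ a : t.T Z', D t p' N a = 0 := by
    intro a
    refine D_zero t π N W hW hW' hb p' (q' ≫ q) h ?_ a
    rw [← hjh]
    exact sq2
  -- the closed complement
  let C0 : Closeds Z := ⟨(j.opensRange : Set Z)ᶜ, j.opensRange.isOpen.isClosed_compl⟩
  let I : Z.IdealSheafData := Scheme.IdealSheafData.vanishingIdeal C0
  let i' : I.subscheme ⟶ Z := I.subschemeι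
  have hi' : Set.range i' = (Set.range j)ᶜ := by
    change Set.range I.subschemeι = _
    rw [Scheme.IdealSheafData.range_subschemeι, Scheme.IdealSheafData.coe_support_vanishingIdeal]
    rfl
  let C' : Closeds X := ⟨Set.range (i' ≫ i), (i' ≫ i).isClosedEmbedding.isClosed_range⟩
  have hlt : C' < C := by
    refine lt_of_le_of_ne ?_ ?_
    · rintro _ ⟨x, rfl⟩
      rw [Scheme.Hom.comp_apply]
      change i (i' x) ∈ (C : Set X)
      rw [← hC]
      exact ⟨_, rfl⟩
    · intro he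
      have h1 : i z ∈ (C' : Set X) := by
        rw [he, ← hC]
        exact ⟨z, rfl⟩
      obtain ⟨x, hx⟩ := h1
      rw [Scheme.Hom.comp_apply] at hx
      have h2 := i.isClosedEmbedding.injective hx
      have h3 : z ∈ Set.range i' := ⟨x, h2⟩
      rw [hi'] at h3
      exact h3 hzj
  let p'' : pullback p i' ⟶ I.subscheme := pullback.snd p i'
  let q'' : pullback p i' ⟶ Y := pullback.fst p i'
  have sq3 : IsPullback q'' p'' p i' := IsPullback.of_hasPullback p i'
  haveI : Flat p'' := inferInstance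
  haveI : IsFinite p'' := inferInstance
  have sq4 : IsPullback (q'' ≫ q) p'' π (i' ≫ i) := sq3.paste_horiz sq
  obtain ⟨e, he⟩ := ih C' hlt I.subscheme (i' ≫ i) rfl (pullback p i') p'' (q'' ≫ q) sq4
  refine ⟨e + 1, fun a => ?_⟩
  rw [Function.iterate_succ_apply]
  have h1 : t.pull j (D t p N a) = 0 := by
    rw [pull_D t q' p' p j sq1 N a, hD0]
  obtain ⟨b, hb'⟩ := t.ex i' j hi' (D t p N a) h1
  rw [← hb']
  have h2 : ∀ (k : ℕ) (b : t.T I.subscheme),
      (D t p N)^[k] (t.push i' b) = t.push i' ((D t p'' N)^[k] b) := by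
    intro k
    induction k with
    | zero => intro b; rfl
    | succ k ihk =>
      intro b
      rw [Function.iterate_succ_apply, Function.iterate_succ_apply,
        D_push t q'' p'' p i' sq3 N b, ihk]
  rw [h2, he, map_zero]

end N4

open CategoryTheory AlgebraicGeometry TopologicalSpace Pool.Agent.KTX

theorem thm_N4 : St_N4 := by
  intro L X X₁ _ π _ _ N hN n
  exact N4.main (L.th n) X X₁ π N hN ⊤ X (𝟙 X) (by simp) X₁ π (𝟙 X₁)
    (IsPullback.of_horiz_isIso ⟨by simp⟩)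

end Pool.Agent.BTF
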