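import Pool.Agent.BTF.St7
import Pool.Agent.BTF.N4

/-!
# BTF, module N4b: the exponent two

MP_e17fa799_al (captain helper21); helper24. Uses `N4.lean` (helper97).
-/

set_option autoImplicit false
set_option linter.style.haveILetI false

noncomputable section

namespace Pool.Agent.BTF

namespace N4b

open CategoryTheory CategoryTheory.Limits AlgebraicGeometry TopologicalSpace Pool.Agent.KTX
open Pool.Agent.KIN (h2_noeth)
open N4 (D pull_D D_push D_zero zero_of_isEmpty)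

/-- `D` is zero on all noetherian schemes over the open set `O` -/
def Q (L : LThy.{1}) {X X₁ Z : Scheme.{0}} (π : X₁ ⟶ X) (N : ℕ) (i : Z ⟶ X) (O : Z.Opens) : Prop :=
  ∀ (V Y : Scheme.{0}) [IsNoetherian V] (v : V ⟶ Z) (p : Y ⟶ V) (q : Y ⟶ X₁) [Flat p] [IsFinite p],
    Set.range v ⊆ (O : Set Z) → IsPullback q p π (v ≫ i) →
      ∀ (n : ℤ) (a : (L.th n).T V), D (L.th n) p N a = 0

theorem Q_mono (L : LThy.{1}) {X X₁ Z : Scheme.{0}} (π : X₁ ⟶ X) (N : ℕ) (i : Z ⟶ X)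
    {O O' : Z.Opens} (h : O' ≤ O) (hO : Q L π N i O) : Q L π N i O' := by
  intro V Y _ v p q _ _ hv sq n a
  exact hO V Y v p q (hv.trans h) sq n a

theorem Q_bot (L : LThy.{1}) {X X₁ Z : Scheme.{0}} (π : X₁ ⟶ X) (N : ℕ) (i : Z ⟶ X) :
    Q L π N i ⊥ := by
  intro V Y _ v p q _ _ hv sq n a
  haveI : IsEmpty V := by
    constructor
    intro x
    have h : v x ∈ ((⊥ : Z.Opens) : Set Z) := hv ⟨x, rfl⟩
    exact h
  exact zero_of_isEmpty _ V _

theorem Q_point (L : LThy.{1}) {X X₁ Z : Scheme.{0}} [IsNoetherian X] (π : X₁ ⟶ X) [IsFinite π]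
    (N : ℕ) (hN : LocFree π N) (i : Z ⟶ X) (z : Z) : ∃ O : Z.Opens, z ∈ O ∧ Q L π N i O := by
  obtain ⟨W, hxW, hW, hb⟩ := hN (i z)
  have hW' : IsAffineOpen (π ⁻¹ᵁ W) := hW.preimage π
  refine ⟨i ⁻¹ᵁ W, hxW, ?_⟩
  intro V Y _ v p q _ _ hv sq n a
  have hr : Set.range (v ≫ i) ⊆ Set.range hW.fromSpec := by
    rw [hW.range_fromSpec]
    rintro _ ⟨x, rfl⟩
    rw [Scheme.Hom.comp_apply]
    exact hv ⟨x, rfl⟩
  let h : V ⟶ Spec Γ(X, W) := IsOpenImmersion.lift hW.fromSpec (v ≫ i) hr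
  have hh : h ≫ hW.fromSpec = v ≫ i := IsOpenImmersion.lift_fac _ _ _
  refine D_zero (L.th n) π N W hW hW' hb p q h ?_ a
  rw [hh]
  exact sq

theorem pull_push (t : STh.{1}) {U V : Scheme.{0}} [IsNoetherian V] (j : U ⟶ V)
    [IsOpenImmersion j] [IsClosedImmersion j] (b : t.T U) : t.pull j (t.push j b) = b := by
  haveI : IsNoetherian U := h2_noeth j
  have sq : IsPullback (𝟙 U) (𝟙 U) j j := IsKernelPair.id_of_mono j
  rw [t.bc (𝟙 U) (𝟙 U) j j sq, t.pull_id, t.push_id]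

theorem Q_sup (L : LThy.{1}) {X X₁ Z : Scheme.{0}} [IsNoetherian X] (π : X₁ ⟶ X) [IsFinite π]
    [Flat π] (N : ℕ) (i : Z ⟶ X) {O₁ O₂ : Z.Opens} (hd : Disjoint O₁ O₂) (h₁ : Q L π N i O₁)
    (h₂ : Q L π N i O₂) : Q L π N i (O₁ ⊔ O₂) := by
  intro V Y _ v p q _ _ hv sq n a
  let j₁ := (v ⁻¹ᵁ O₁).ι
  let j₂ := (v ⁻¹ᵁ O₂).ι
  have hr1 : Set.range j₁ = ((v ⁻¹ᵁ O₁ : V.Opens) : Set V) := Scheme.Opens.range_ι _
  have hr2 : Set.range j₂ = ((v ⁻¹ᵁ O₂ : V.Opens) : Set V) := Scheme.Opens.range_ι _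
  have hr : Set.range j₂ = (Set.range j₁)ᶜ := by
    rw [hr1, hr2]
    ext x
    constructor
    · intro hx hx'
      have hx2 : v x ∈ O₂ := hx
      have hx1 : v x ∈ O₁ := hx'
      have h3 : v x ∈ (O₁ ⊓ O₂ : Z.Opens) := ⟨hx1, hx2⟩
      rw [hd.eq_bot] at h3
      exact h3
    · intro hx
      have h3 : v x ∈ ((O₁ ⊔ O₂ : Z.Opens) : Set Z) := hv ⟨x, rfl⟩
      rcases h3 with h3 | h3
      · exact absurd h3 hx
      · exact h3
  haveI hc : IsClosedImmersion j₂ := by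
    refine IsClosedImmersion.of_isPreimmersion j₂ ?_
    rw [hr, hr1]
    exact (v ⁻¹ᵁ O₁).isOpen.isClosed_compl
  haveI : IsNoetherian ((v ⁻¹ᵁ O₁ : V.Opens) : Scheme.{0}) := h2_noeth j₁
  haveI : IsNoetherian ((v ⁻¹ᵁ O₂ : V.Opens) : Scheme.{0}) := h2_noeth j₂
  have key : ∀ (O : Z.Opens) (_ : Q L π N i O) [IsNoetherian ((v ⁻¹ᵁ O : V.Opens) : Scheme.{0})],
      (L.th n).pull (v ⁻¹ᵁ O).ι (D (L.th n) p N a) = 0 := by
    intro O hO _
    have sq1 : IsPullback (pullback.fst p (v ⁻¹ᵁ O).ι) (pullback.snd p (v ⁻¹ᵁ O).ι) p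
      (v ⁻¹ᵁ O).ι := IsPullback.of_hasPullback _ _
    have sq2 := sq1.paste_horiz sq
    rw [pull_D (L.th n) _ _ p (v ⁻¹ᵁ O).ι sq1 N a]
    refine hO _ _ ((v ⁻¹ᵁ O).ι ≫ v) (pullback.snd p (v ⁻¹ᵁ O).ι)
      (pullback.fst p (v ⁻¹ᵁ O).ι ≫ q) ?_ ?_ n _
    · rintro _ ⟨x, rfl⟩
      rw [Scheme.Hom.comp_apply]
      have h3 : (v ⁻¹ᵁ O).ι x ∈ Set.range (v ⁻¹ᵁ O).ι := ⟨x, rfl⟩
      rw [Scheme.Opens.range_ι] at h3
      exact h3
    · rw [Category.assoc]
      exact sq2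
  obtain ⟨b, hb⟩ := (L.th n).ex j₂ j₁ hr (D (L.th n) p N a) (key O₁ h₁)
  have hb2 : b = 0 := by
    rw [← pull_push (L.th n) j₂ b, hb]
    exact key O₂ h₂
  rw [← hb, hb2, map_zero]

theorem Q_finset (L : LThy.{1}) {X X₁ Z : Scheme.{0}} [IsNoetherian X] (π : X₁ ⟶ X) [IsFinite π]
    [Flat π] (N : ℕ) (i : Z ⟶ X) {ι : Type} (O : ι → Z.Opens)
    (hd : ∀ c c' : ι, c ≠ c' → Disjoint (O c) (O c')) (h : ∀ c, Q L π N i (O c)) (s : Finset ι) :
    Q L π N i (s.sup O) := by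
  classical
  induction s using Finset.induction_on with
  | empty =>
    rw [Finset.sup_empty]
    exact Q_bot L π N i
  | insert c s hc ih =>
    rw [Finset.sup_insert]
    refine Q_sup L π N i ?_ (h c) ih
    rw [Finset.disjoint_sup_right]
    intro c' hc'
    refine hd c c' ?_
    rintro rfl
    exact hc hc'

/-- an open set which contains the generic points -/
theorem dense (L : LThy.{1}) {X X₁ Z : Scheme.{0}} [IsNoetherian X] [IsNoetherian Z] (π : X₁ ⟶ X)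
    [IsFinite π] [Flat π] (N : ℕ) (hN : LocFree π N) (i : Z ⟶ X) :
    ∃ U : Z.Opens, Q L π N i U ∧ ∀ z : Z, z ∉ U → ∃ w : Z, w ⤳ z ∧ w ≠ z := by
  classical
  let ι := {C : Set Z // C ∈ irreducibleComponents Z}
  have hfin : (irreducibleComponents Z).Finite := NoetherianSpace.finite_irreducibleComponents
  haveI : Finite ι := hfin.to_subtype
  haveI : Fintype ι := Fintype.ofFinite ι
  have hcl : ∀ C : ι, IsClosed C.1 := fun C => isClosed_of_mem_irreducibleComponents C.1 C.2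
  have hgen : ∀ C : ι, ∃ η : Z, IsGenericPoint η C.1 := fun C =>
    QuasiSober.sober C.2.1 (hcl C)
  choose η hη using hgen
  choose O₀ hO₀ hQ₀ using fun z : Z => Q_point L π N hN i z
  let K : ι → Set Z := fun C => ⋃ C' ∈ {C' : ι | C' ≠ C}, C'.1
  have hK : ∀ C, IsClosed (K C) := fun C =>
    (Set.toFinite {C' : ι | C' ≠ C}).isClosed_biUnion fun C' _ => hcl C'
  let O : ι → Z.Opens := fun C => O₀ (η C) ⊓ ⟨(K C)ᶜ, (hK C).isOpen_compl⟩
  have hηO : ∀ C, η C ∈ O C := by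
    intro C
    refine ⟨hO₀ _, ?_⟩
    intro hk
    obtain ⟨C', hC', hx⟩ := Set.mem_iUnion₂.1 hk
    have h1 : C.1 ⊆ C'.1 := by
      rw [← (hη C).def]
      exact (hcl C').closure_subset_iff.2 (Set.singleton_subset_iff.2 hx)
    have h2 : C'.1 ⊆ C.1 := C.2.2 C'.2.1 h1
    exact hC' (Subtype.ext (Set.Subset.antisymm h2 h1))
  have hcov : ∀ x : Z, ∃ C : ι, x ∈ C.1 := fun x =>
    ⟨⟨irreducibleComponent x, irreducibleComponent_mem_irreducibleComponents x⟩,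
      mem_irreducibleComponent⟩
  have hdis : ∀ C C' : ι, C ≠ C' → Disjoint (O C) (O C') := by
    intro C C' hne
    rw [disjoint_iff]
    ext x
    constructor
    · rintro ⟨⟨_, hx1⟩, ⟨_, hx2⟩⟩
      obtain ⟨C'', hx⟩ := hcov x
      by_cases h1 : C'' = C
      · subst h1
        exact absurd (Set.mem_iUnion₂.2 ⟨C'', hne, hx⟩) hx2
      · exact absurd (Set.mem_iUnion₂.2 ⟨C'', h1, hx⟩) hx1
    · intro hx
      exact False.elim hx
  refine ⟨Finset.univ.sup O, Q_finset L π N i O hdis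
    (fun C => Q_mono L π N i inf_le_left (hQ₀ (η C))) _, ?_⟩
  intro z hz
  obtain ⟨C, hzC⟩ := hcov z
  refine ⟨η C, ?_, ?_⟩
  · rw [specializes_iff_mem_closure, (hη C).def]
    exact hzC
  · rintro rfl
    have h1 : O C ≤ Finset.univ.sup O := Finset.le_sup (Finset.mem_univ C)
    exact hz (h1 (hηO C))

/-- the claim in the docstring -/
theorem step (L : LThy.{1}) {X X₁ : Scheme.{0}} [IsNoetherian X] (π : X₁ ⟶ X) [IsFinite π]
    [Flat π] (N : ℕ) (hN : LocFree π N) (Z : Scheme.{0}) (i : Z ⟶ X) [IsClosedImmersion i]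
    (Y : Scheme.{0}) (p : Y ⟶ Z) (q : Y ⟶ X₁) [Flat p] [IsFinite p] (sq : IsPullback q p π i) :
    ∃ (Z' : Scheme.{0}) (i' : Z' ⟶ Z) (_ : IsClosedImmersion i'),
      (∀ z : Z', ∃ w : Z, w ⤳ i' z ∧ w ≠ i' z) ∧
      ∀ (n : ℤ) (a : (L.th n).T Z), ∃ b : (L.th n).T Z', D (L.th n) p N a = (L.th n).push i' b := by
  haveI hZ : IsNoetherian Z := h2_noeth i
  obtain ⟨U, hU, hz⟩ := dense L π N hN i
  let C0 : Closeds Z := ⟨(U : Set Z)ᶜ, U.isOpen.isClosed_compl⟩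
  let I : Z.IdealSheafData := Scheme.IdealSheafData.vanishingIdeal C0
  let i' : I.subscheme ⟶ Z := I.subschemeι
  have hi' : Set.range i' = (Set.range U.ι)ᶜ := by
    rw [Scheme.Opens.range_ι]
    change Set.range I.subschemeι = _
    rw [Scheme.IdealSheafData.range_subschemeι, Scheme.IdealSheafData.coe_support_vanishingIdeal]
    rfl
  refine ⟨I.subscheme, i', inferInstance, ?_, ?_⟩
  · intro z
    refine hz (i' z) ?_
    have h1 : i' z ∈ Set.range i' := ⟨z, rfl⟩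
    rw [hi', Scheme.Opens.range_ι] at h1
    exact h1
  · intro n a
    haveI : IsNoetherian (U : Scheme.{0}) := h2_noeth U.ι
    have sq1 : IsPullback (pullback.fst p U.ι) (pullback.snd p U.ι) p U.ι :=
      IsPullback.of_hasPullback _ _
    have h1 : (L.th n).pull U.ι (D (L.th n) p N a) = 0 := by
      rw [pull_D (L.th n) _ _ p U.ι sq1 N a]
      refine hU _ _ U.ι (pullback.snd p U.ι) (pullback.fst p U.ι ≫ q) ?_
        (sq1.paste_horiz sq) n _
      rw [Scheme.Opens.range_ι]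
    obtain ⟨b, hb⟩ := (L.th n).ex i' U.ι hi' (D (L.th n) p N a) h1
    exact ⟨b, hb.symm⟩

/-- two steps -/
theorem alg (hDL : St_DL) (O K κ : Type) [CommRing O] [IsDomain O] [Field K] [Algebra O K]
    [IsFractionRing O K] [Field κ] (π : O →+* κ) (hs : Function.Surjective π) (d : ℕ)
    (hK : KrLe (d + 2) K) (q : Ideal O) (hq : q.IsPrime) (hq0 : q ≠ ⊥)
    (hl : ∀ x ∈ q, π x = 0) (hb : ∃ b, π b = 0 ∧ b ∉ q) : KrLe d κ := by
  obtain ⟨a, haq, ha0⟩ := Submodule.exists_mem_ne_zero_of_ne_bot hq0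
  obtain ⟨b, hb0, hbq⟩ := hb
  have h1 : KrLe (d + 1) (FractionRing (O ⧸ q)) := by
    refine hDL O K (FractionRing (O ⧸ q))
      ((algebraMap (O ⧸ q) (FractionRing (O ⧸ q))).comp (Ideal.Quotient.mk q))
      ⟨a, ha0, ?_⟩ ?_ (d + 1) hK
    · simp [Ideal.Quotient.eq_zero_iff_mem.mpr haq]
    · intro z
      obtain ⟨x, y, hy, hz⟩ := IsFractionRing.div_surjective (A := O ⧸ q) z
      obtain ⟨x, rfl⟩ := Ideal.Quotient.mk_surjective x
      obtain ⟨y, rfl⟩ := Ideal.Quotient.mk_surjective y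
      have hy0 : algebraMap (O ⧸ q) (FractionRing (O ⧸ q)) (Ideal.Quotient.mk q y) ≠ 0 :=
        IsFractionRing.to_map_ne_zero_of_mem_nonZeroDivisors hy
      refine ⟨x, y, hy0, ?_⟩
      rw [← hz, RingHom.comp_apply, RingHom.comp_apply, mul_div_cancel₀ _ hy0]
  refine hDL (O ⧸ q) (FractionRing (O ⧸ q)) κ (Ideal.Quotient.lift q π hl)
    ⟨Ideal.Quotient.mk q b, ?_, ?_⟩ ?_ d h1
  · intro hc
    exact hbq (Ideal.Quotient.eq_zero_iff_mem.mp hc)
  · rw [Ideal.Quotient.lift_mk]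
    exact hb0
  · intro z
    obtain ⟨x, rfl⟩ := hs z
    exact ⟨Ideal.Quotient.mk q x, 1, by simp, by simp⟩

/-- the residue fields -/
theorem res (hDL : St_DL) (X : Scheme.{0}) [IsIntegral X] (Z : Scheme.{0}) (i : Z ⟶ X)
    [IsClosedImmersion i] (d : ℕ) (hK : KrLe (d + 2) X.functionField) (z : Z) (y w : X)
    (hy : y ⤳ i z) (hyz : y ≠ i z) (hw : w ⤳ y) (hwy : w ≠ y) : KrLe d (Z.residueField z) := by
  have hyg : y ≠ genericPoint X := by
    rintro rfl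
    exact hwy (hw.antisymm ((genericPoint_spec X).specializes trivial)).eq
  have h1 : y ∈ Set.range (X.fromSpecStalk (i z)) := by
    rw [Scheme.range_fromSpecStalk]
    exact hy
  obtain ⟨𝔮, h𝔮⟩ := h1
  have h2 : genericPoint X ∈ Set.range (X.fromSpecStalk (i z)) := by
    rw [Scheme.range_fromSpecStalk]
    exact (genericPoint_spec X).specializes trivial
  obtain ⟨𝔭, h𝔭⟩ := h2
  have hq0 : 𝔮.asIdeal ≠ ⊥ := by
    intro h0
    apply hyg
    have h3' : 𝔮.asIdeal ≤ 𝔭.asIdeal := by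
      rw [h0]
      exact bot_le
    have h3 : 𝔮 ⤳ 𝔭 := (PrimeSpectrum.le_iff_specializes _ _).1 h3'
    have h4 := h3.map (X.fromSpecStalk (i z)).continuous
    rw [h𝔮, h𝔭] at h4
    exact (h4.antisymm ((genericPoint_spec X).specializes trivial)).eq
  have hqm : 𝔮.asIdeal ≠ IsLocalRing.maximalIdeal (X.presheaf.stalk (i z)) := by
    intro h0
    apply hyz
    have h3 : 𝔮 = IsLocalRing.closedPoint (X.presheaf.stalk (i z)) := PrimeSpectrum.ext h0
    rw [← h𝔮, h3]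
    exact Scheme.fromSpecStalk_closedPoint
  have hle : 𝔮.asIdeal ≤ IsLocalRing.maximalIdeal (X.presheaf.stalk (i z)) :=
    IsLocalRing.le_maximalIdeal 𝔮.2.ne_top
  have hsurj : Function.Surjective ((X.residue (i z) ≫ i.residueFieldMap z).hom) := by
    rw [Scheme.residue_residueFieldMap]
    rw [CommRingCat.hom_comp, RingHom.coe_comp]
    exact (Z.residue_surjective z).comp (i.stalkMap_surjective z)
  have hker : ∀ x ∈ IsLocalRing.maximalIdeal (X.presheaf.stalk (i z)),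
      (X.residue (i z) ≫ i.residueFieldMap z).hom x = 0 := by
    intro x hx
    rw [CommRingCat.hom_comp, RingHom.comp_apply]
    have h3 : (X.residue (i z)).hom x = 0 := (IsLocalRing.residue_eq_zero_iff x).2 hx
    rw [h3, map_zero]
  refine alg hDL (X.presheaf.stalk (i z)) X.functionField (Z.residueField z)
    (X.residue (i z) ≫ i.residueFieldMap z).hom hsurj d hK 𝔮.asIdeal 𝔮.2 hq0
    (fun x hx => hker x (hle hx)) ?_
  by_contra hc
  push Not at hc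
  exact hqm (le_antisymm hle fun x hx => hc x (hker x hx))

end N4b

open CategoryTheory CategoryTheory.Limits AlgebraicGeometry TopologicalSpace Pool.Agent.KTX

/-- **N4b** -/
theorem thm_N4b (hDL : St_DL) : St_N4b := by
  intro L d X X₁ _ _ π _ _ N hN hK
  obtain ⟨Z1, i1, hi1, hz1, hD1⟩ := N4b.step L π N hN X (𝟙 X) X₁ π (𝟙 X₁)
    (IsPullback.of_horiz_isIso ⟨by simp⟩)
  haveI : IsNoetherian Z1 := Pool.Agent.KIN.h2_noeth i1
  have sq1 : IsPullback (pullback.fst π i1) (pullback.snd π i1) π i1 :=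
    IsPullback.of_hasPullback _ _
  obtain ⟨Z2, i2, hi2, hz2, hD2⟩ := N4b.step L π N hN Z1 i1 (pullback π i1)
    (pullback.snd π i1) (pullback.fst π i1) sq1
  refine ⟨Z2, i2 ≫ i1, inferInstance, ?_, ?_⟩
  · intro z
    obtain ⟨w1, hw1, hne1⟩ := hz2 z
    obtain ⟨w0, hw0, hne0⟩ := hz1 w1
    refine N4b.res hDL X Z2 (i2 ≫ i1) d hK z (i1 w1) w0 ?_ ?_ hw0 hne0
    · rw [Scheme.Hom.comp_apply]
      exact hw1.map i1.continuous
    · rw [Scheme.Hom.comp_apply]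
      intro h
      exact hne1 (i1.isClosedEmbedding.injective h)
  · intro n a
    obtain ⟨b1, hb1⟩ := hD1 n a
    obtain ⟨b2, hb2⟩ := hD2 n b1
    refine ⟨b2, ?_⟩
    rw [Function.iterate_succ_apply, Function.iterate_one]
    change N4.D (L.th n) π N (N4.D (L.th n) π N a) = _
    rw [hb1, N4.D_push (L.th n) _ _ π i1 sq1 N b1, hb2, ← (L.th n).push_comp]

end Pool.Agent.BTF
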