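import Pool.Agent.BTF.St3
import Pool.Agent.BTF.G2

/-!
helper68. Module N7 of BTF: the points of `Y` outside of `U`.
-/

set_option autoImplicit false

noncomputable section

namespace Pool.Agent.BTF

open CategoryTheory CategoryTheory.Limits AlgebraicGeometry Pool.Agent.KPR Pool.Agent.KTX
open Pool.Agent.KGT.W (SerreClass FinType)

namespace N7

/-- proper schemes over the integers are of finite type -/
theorem finType {X : Scheme.{0}} (h : ProperZ X) : FinType ℤ X := by
  obtain ⟨f, hf⟩ := h
  exact ⟨f, inferInstance, inferInstance⟩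

/-- proper schemes over the integers are separated -/
theorem sep {X : Scheme.{0}} (h : ProperZ X) : X.IsSeparated := by
  obtain ⟨f, hf⟩ := h
  constructor
  rw [← terminal.comp_from f]
  infer_instance

/-- finite schemes over proper ones are proper -/
theorem proper {X X₁ : Scheme.{0}} (h : ProperZ X) (π : X₁ ⟶ X) [IsFinite π] : ProperZ X₁ := by
  obtain ⟨f, hf⟩ := h
  exact ⟨π ≫ f, inferInstance⟩

/-- a homomorphism to `K` with values in `V` -/
theorem factor {R V K : Type} [CommRing R] [CommRing V] [Field K] (i : V →+* K)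
    (hi : Function.Injective i) (g : R →+* K) (h : ∀ s, ∃ v, i v = g s) :
    ∃ l : R →+* V, ∀ s, i (l s) = g s := by
  choose l hl using h
  refine ⟨{ toFun := l
            map_one' := hi (by rw [hl, map_one, map_one])
            map_mul' := fun a b => hi (by rw [hl, map_mul, map_mul, hl, hl])
            map_zero' := hi (by rw [hl, map_zero, map_zero])
            map_add' := fun a b => hi (by rw [hl, map_add, map_add, hl, hl]) }, hl⟩

/-- integral elements lie in the integrally closed local ring -/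
theorem int {O O₁ V V' F : Type} [CommRing O] [CommRing O₁] [IsDomain O₁] [IsIntegrallyClosed O₁]
    [CommRing V] [CommRing V'] [Field F] [Algebra O₁ F] [IsFractionRing O₁ F] (l : O →+* V)
    (hl : Function.Bijective l) (p : O →+* O₁) (l₁ : O₁ →+* V') (ψ : V →+* V')
    (h : ψ.comp l = l₁.comp p) (i : V' →+* F) (hi : Function.Injective i)
    (hil : i.comp l₁ = algebraMap O₁ F) (a : V') (ha : ψ.IsIntegralElem a) :
    ∃ a₁ : O₁, l₁ a₁ = a := by
  obtain ⟨q, hq, hq0⟩ := ha
  let e := RingEquiv.ofBijective l hl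
  have he : (l : O →+* V).comp (e.symm : V →+* O) = RingHom.id V := by
    ext v
    exact e.apply_symm_apply v
  have h1 : Polynomial.eval₂ l₁ a ((q.map (e.symm : V →+* O)).map p) = 0 := by
    rw [Polynomial.eval₂_map, Polynomial.eval₂_map, ← h, RingHom.comp_assoc, he, RingHom.comp_id]
    exact hq0
  have h2 : IsIntegral O₁ (i a) := by
    refine ⟨(q.map (e.symm : V →+* O)).map p, (hq.map _).map _, ?_⟩
    rw [← hil, ← Polynomial.hom_eval₂, h1, map_zero]
  obtain ⟨a₁, ha₁⟩ := IsIntegrallyClosed.isIntegral_iff.1 h2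
  refine ⟨a₁, hi ?_⟩
  rw [← ha₁, ← hil]
  rfl

/-- the case of a bijection -/
theorem surj {O O₁ V V' F : Type} [CommRing O] [CommRing O₁] [IsDomain O₁] [IsIntegrallyClosed O₁]
    [CommRing V] [CommRing V'] [Field F] [Algebra O₁ F] [IsFractionRing O₁ F] (l : O →+* V)
    (hl : Function.Bijective l) (p : O →+* O₁) (l₁ : O₁ →+* V') (hl₁ : IsLocalHom l₁) (ψ : V →+* V')
    (h : ψ.comp l = l₁.comp p) (i : V' →+* F) (hi : Function.Injective i)
    (hil : i.comp l₁ = algebraMap O₁ F)
    (hW : ∀ v : V', ∃ a b : V', ψ.IsIntegralElem a ∧ ψ.IsIntegralElem b ∧ IsUnit b ∧ b * v = a) :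
    Function.Surjective l₁ := by
  intro v
  obtain ⟨a, b, ha, hb, hub, hv⟩ := hW v
  obtain ⟨a₁, rfl⟩ := int l hl p l₁ ψ h i hi hil a ha
  obtain ⟨b₁, rfl⟩ := int l hl p l₁ ψ h i hi hil b hb
  obtain ⟨u, rfl⟩ := hl₁.map_nonunit b₁ hub
  refine ⟨(u⁻¹ : O₁ˣ) * a₁, ?_⟩
  rw [map_mul, ← hv, ← mul_assoc, ← map_mul, Units.inv_mul, map_one, one_mul]

end N7

open N7 in
theorem thm_N7 (hVI : St_VI) (hTM : St_TM) (hWL : St_WL) (hG5 : St_G5) (hUR : St_UR)
    (hNB : St_NB) : St_N7 := by
  intro L hPZ d X X₁ Y _ _ _ _ hPX hRX hKX hFY φ N hφ π _ θ hθ hint U hU ρ _ hρ y hyU hDVR hbad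
    hcomp
  have hsep : X.IsSeparated := sep hPX
  obtain ⟨V, iV1, iV2, iV3, iV4, iV5, ψ, hψ, h1, h2, h3⟩ :=
    hVI X.functionField Y.functionField (Y.presheaf.stalk y) φ N hφ
  have hTerm : Term V := (hTM V).2 X.functionField d hKX (fun h => hbad (h3 d h))
  let jj : Y.presheaf.stalk y →+* X₁.functionField := θ.hom.hom.comp (toF Y y).hom
  let : Algebra (Y.presheaf.stalk y) X₁.functionField := jj.toAlgebra
  have hfr : IsFractionRing (Y.presheaf.stalk y) X₁.functionField := by
    have h4 : IsFractionRing (Y.presheaf.stalk y) Y.functionField := inferInstance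
    exact IsLocalization.isLocalization_of_algEquiv (nonZeroDivisors (Y.presheaf.stalk y))
      (AlgEquiv.ofRingEquiv (f := θ.commRingCatIsoToRingEquiv) (fun x => rfl) :
        Y.functionField ≃ₐ[Y.presheaf.stalk y] X₁.functionField)
  have hjj : Function.Injective jj := IsFractionRing.injective (Y.presheaf.stalk y) X₁.functionField
  obtain ⟨x₁, l₁, hl₁, hl₁'⟩ := hG5 X₁ (proper hPX π) (Y.presheaf.stalk y)
  obtain ⟨φ', hφ'⟩ : ∃ φ' : X.functionField ⟶ Y.functionField, φ'.hom = φ :=
    ⟨CommRingCat.ofHom φ, rfl⟩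
  have hφ2 : etaX φ = Spec.map φ' ≫ X.fromSpecStalk (genericPoint X) := by
    rw [← hφ']
    rfl
  have hc : π.stalkMap x₁ ≫ toF X₁ x₁ ≫ θ.inv = toF X (π x₁) ≫ φ' := by
    apply Spec.map_injective
    rw [← cancel_mono (X.fromSpecStalk (π x₁))]
    rw [Spec.map_comp, Spec.map_comp, Spec.map_comp, Category.assoc, Category.assoc,
      Category.assoc, Scheme.SpecMap_stalkMap_fromSpecStalk,
      ← Category.assoc (Spec.map (toF X₁ x₁)), G2.spec_toF, hθ, G2.spec_toF, hφ2]
  have hc' : ∀ s : X.presheaf.stalk (π x₁), φ ((toF X (π x₁)).hom s) =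
      algebraMap (Y.presheaf.stalk y) Y.functionField (l₁ ((π.stalkMap x₁).hom s)) := by
    intro s
    have h5 : θ.inv.hom ((toF X₁ x₁).hom ((π.stalkMap x₁).hom s)) =
        φ ((toF X (π x₁)).hom s) := by
      rw [← hφ']
      exact congrArg (fun f => f.hom s) hc
    rw [← h5, ← hl₁']
    have h6 : ∀ v : Y.functionField, θ.inv.hom (θ.hom.hom v) = v := by
      intro v
      exact congrArg (fun f => f.hom v) θ.hom_inv_id
    exact h6 _
  obtain ⟨l, hl⟩ := factor (algebraMap V X.functionField)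
    (IsFractionRing.injective V X.functionField) (toF X (π x₁)).hom
    (fun s => h2 _ _ (hc' s))
  have hψl : ψ.comp l = l₁.comp (π.stalkMap x₁).hom := by
    ext s
    apply IsFractionRing.injective (Y.presheaf.stalk y) Y.functionField
    rw [RingHom.comp_apply, RingHom.comp_apply, ← h1, hl]
    exact hc' s
  have hlloc : IsLocalHom l := by
    constructor
    intro s hs
    have h7 : IsUnit (l₁ ((π.stalkMap x₁).hom s)) := by
      have h8 := hs.map ψ
      rwa [← RingHom.comp_apply, hψl] at h8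
    exact isUnit_of_map_unit (π.stalkMap x₁).hom _ (hl₁.map_nonunit _ h7)
  have hlinj : Function.Injective l := by
    intro s t hst
    apply IsFractionRing.injective (X.presheaf.stalk (π x₁)) X.functionField
    rw [← G2.toF_eq, ← hl, ← hl, hst]
  have hsame : SameFrac l := by
    intro v
    obtain ⟨a, b, hb, hab⟩ := IsFractionRing.div_surjective (A := X.presheaf.stalk (π x₁))
      (algebraMap V X.functionField v)
    have hb0 : b ≠ 0 := nonZeroDivisors.ne_zero hb
    refine ⟨a, b, hb0, ?_⟩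
    apply IsFractionRing.injective V X.functionField
    rw [map_mul, hl, hl, ← hab, G2.toF_eq]
    have h9 : algebraMap (X.presheaf.stalk (π x₁)) X.functionField b ≠ 0 := by
      intro h
      exact hb0 (IsFractionRing.injective (X.presheaf.stalk (π x₁)) X.functionField
        (by rw [h, map_zero]))
    field_simp
  have hnb : ¬ Function.Bijective l := by
    intro hbij
    have hs := surj l hbij (π.stalkMap x₁).hom l₁ hl₁ ψ hψl jj hjj
      (RingHom.ext fun s => hl₁' s)
      (hWL X.functionField Y.functionField V (Y.presheaf.stalk y) φ N ψ hφ hψ h1)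
    have hi : Function.Injective l₁ := by
      intro s t hst
      apply IsFractionRing.injective (X₁.presheaf.stalk x₁) X₁.functionField
      rw [← G2.toF_eq, ← hl₁', ← hl₁', hst]
    let e := RingEquiv.ofBijective l₁ ⟨hi, hs⟩
    refine hcomp x₁ ⟨e.symm.toCommRingCatIso, ?_⟩
    ext v
    obtain ⟨s, rfl⟩ := hs v
    have h10 : e.symm (l₁ s) = s := e.symm_apply_apply s
    show (toF X₁ x₁).hom (e.symm (l₁ s)) = θ.hom.hom ((toF Y y).hom (l₁ s))
    rw [h10, ← hl₁']
    rfl
  have hun := hUR L hPZ X (finType hPX) X.functionField V hTerm (π x₁) l hlloc hlinj (hRX _) hsame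
  have hη : Spec.map (CommRingCat.ofHom ((algebraMap V X.functionField).comp l)) ≫
      X.fromSpecStalk (π x₁) = X.fromSpecStalk (genericPoint X) := by
    rw [← G2.spec_toF X (π x₁)]
    congr 2
    ext s
    exact hl s
  rw [hη] at hun
  have hun' : Unram L X X.functionField V (X.fromSpecStalk (genericPoint X)) False := by
    obtain ⟨A, a1, a2, a3, j, w, W, b1, lw, k, i, c1, c2, c3, c4, c5, c6, c7, c8, c9⟩ := hun
    exact ⟨A, a1, a2, a3, j, w, W, b1, lw, k, i, c1, c2, c3, c4, c5, c6, c7,
      Or.inr (c8.resolve_left hnb), c9⟩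
  exact hNB L X Y (finType hPX) hFY φ N hφ U hU ρ hρ y hyU hDVR V ψ hψ h1 hun'

end Pool.Agent.BTF
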