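import Pool.Agent.BTF.St

/-!
# BTF: G1, the largest common open subset

MP_e17fa799_al.
-/

set_option autoImplicit false

noncomputable section

namespace Pool.Agent.BTF

open CategoryTheory CategoryTheory.Limits AlgebraicGeometry

namespace G1

variable {X Y B : Scheme.{0}}

/-- the condition for `RationalMap.ofFunctionField` -/
theorem cond [IsIntegral X] [IsIntegral Y] {f : X ⟶ B} {g : Y ⟶ B}
    {θ : Y.functionField ≅ X.functionField} (h : OverB θ f g) :
    (Spec.map θ.hom ≫ Y.fromSpecStalk (genericPoint Y)) ≫ g =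
      X.fromSpecStalk (genericPoint X) ≫ f := by
  rw [Category.assoc]
  exact h

/-- the rational map -/
def phi [IsIntegral X] [IsIntegral Y] {f : X ⟶ B} {g : Y ⟶ B} [LocallyOfFiniteType g]
    {θ : Y.functionField ≅ X.functionField} (h : OverB θ f g) : X.RationalMap Y :=
  Scheme.RationalMap.ofFunctionField f g (Spec.map θ.hom ≫ Y.fromSpecStalk (genericPoint Y)) (cond h)

theorem phi_ff [IsIntegral X] [IsIntegral Y] {f : X ⟶ B} {g : Y ⟶ B} [LocallyOfFiniteType g]
    {θ : Y.functionField ≅ X.functionField} (h : OverB θ f g) :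
    (phi h).fromFunctionField = Spec.map θ.hom ≫ Y.fromSpecStalk (genericPoint Y) :=
  Scheme.RationalMap.fromFunctionField_ofFunctionField f g _ (cond h)

theorem isSep (f : X ⟶ B) [IsSeparated f] [B.IsSeparated] : X.IsSeparated := by
  refine ⟨?_⟩
  rw [← terminal.comp_from f]
  infer_instance

theorem symm_over [IsIntegral X] [IsIntegral Y] {f : X ⟶ B} {g : Y ⟶ B}
    {θ : Y.functionField ≅ X.functionField} (h : OverB θ f g) : OverB θ.symm g f := by
  show Spec.map θ.inv ≫ X.fromSpecStalk (genericPoint X) ≫ f =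
    Y.fromSpecStalk (genericPoint Y) ≫ g
  have h' : Spec.map θ.hom ≫ Y.fromSpecStalk (genericPoint Y) ≫ g =
    X.fromSpecStalk (genericPoint X) ≫ f := h
  rw [← h', ← Spec.map_comp_assoc, θ.hom_inv_id, Spec.map_id, Category.id_comp]

theorem symm_compat [IsIntegral X] [IsIntegral Y] {θ : Y.functionField ≅ X.functionField}
    {x : X} {y : Y} (h : Compat θ x y) : Compat θ.symm y x := by
  obtain ⟨e, he⟩ := h
  refine ⟨e.symm, ?_⟩
  show e.inv ≫ toF Y y = toF X x ≫ θ.inv
  rw [Iso.inv_comp_eq, ← Category.assoc, he, Category.assoc, θ.hom_inv_id, Category.comp_id]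

theorem ap {X Y Z : Scheme.{0}} {f : X ⟶ Y} {g : Y ⟶ Z} {h : X ⟶ Z} (e : f ≫ g = h) (x : X) :
    g (f x) = h x := by
  rw [← e]
  rfl

theorem ap2 {X Y Z W : Scheme.{0}} {f : X ⟶ Y} {g : Y ⟶ Z} {h : X ⟶ W} {k : W ⟶ Z}
    (e : f ≫ g = h ≫ k) (x : X) : g (f x) = k (h x) := ap e x

theorem gen_mem [IsIntegral X] (U : X.Opens) {x : X} (hx : x ∈ U) : genericPoint X ∈ U :=
  (genericPoint_specializes x).mem_open U.2 hx

instance dom_gen [IsIntegral X] : IsDominant (X.fromSpecStalk (genericPoint X)) := by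
  refine ⟨?_⟩
  have h1 : genericPoint X ∈ Set.range (X.fromSpecStalk (genericPoint X)) :=
    ⟨_, Scheme.fromSpecStalk_closedPoint⟩
  rw [denseRange_iff_closure_range, ← Set.univ_subset_iff]
  have h2 : closure {genericPoint X} = (Set.univ : Set X) := genericPoint_closure X
  have h3 : closure {genericPoint X} ⊆ closure (Set.range (X.fromSpecStalk (genericPoint X))) :=
    closure_mono (Set.singleton_subset_iff.2 h1)
  rw [h2] at h3
  exact h3

theorem dom_open [IsIntegral X] (U : X.Opens) (h : genericPoint X ∈ U) :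
    IsDominant (U.fromSpecStalkOfMem (genericPoint X) h) := by
  have h1 : IsDominant (U.fromSpecStalkOfMem (genericPoint X) h ≫ U.ι) := by
    rw [Scheme.Opens.fromSpecStalkOfMem_ι]
    infer_instance
  exact IsDominant.of_comp_of_isOpenImmersion _ U.ι

theorem fs_homOfLE (U D : X.Opens) (hUD : U ≤ D) (x : X) (hx : x ∈ U) :
    U.fromSpecStalkOfMem x hx ≫ X.homOfLE hUD = D.fromSpecStalkOfMem x (hUD hx) := by
  rw [← cancel_mono D.ι, Category.assoc, Scheme.homOfLE_ι, Scheme.Opens.fromSpecStalkOfMem_ι,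
    Scheme.Opens.fromSpecStalkOfMem_ι]

theorem key [IsIntegral X] [IsIntegral Y] [X.IsSeparated] (θ : Y.functionField ≅ X.functionField)
    (D : X.Opens) (u : D.toScheme ⟶ Y) (E : Y.Opens) (v : E.toScheme ⟶ X)
    (hD : genericPoint X ∈ D) (hE : genericPoint Y ∈ E)
    (hu : D.fromSpecStalkOfMem _ hD ≫ u = Spec.map θ.hom ≫ Y.fromSpecStalk (genericPoint Y))
    (hv : E.fromSpecStalkOfMem _ hE ≫ v = Spec.map θ.inv ≫ X.fromSpecStalk (genericPoint X))
    (U : X.Opens) (hUD : U ≤ D) (hU : genericPoint X ∈ U) (e : U.toScheme ⟶ E.toScheme)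
    (he : e ≫ E.ι = X.homOfLE hUD ≫ u) : e ≫ v = U.ι := by
  have := dom_open U hU
  refine ext_of_isDominant (U.fromSpecStalkOfMem _ hU) ?_
  rw [Scheme.Opens.fromSpecStalkOfMem_ι]
  have h1 : U.fromSpecStalkOfMem _ hU ≫ e = Spec.map θ.hom ≫ E.fromSpecStalkOfMem _ hE := by
    rw [← cancel_mono E.ι, Category.assoc, he, ← Category.assoc, fs_homOfLE, hu, Category.assoc,
      Scheme.Opens.fromSpecStalkOfMem_ι]
  rw [← Category.assoc, h1, Category.assoc, hv, ← Spec.map_comp_assoc, θ.inv_hom_id, Spec.map_id,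
    Category.id_comp]

/-- the largest open subset on which `v ∘ u` is defined -/
def dm (D : X.Opens) (u : D.toScheme ⟶ Y) (E : Y.Opens) : X.Opens := D.ι ''ᵁ (u ⁻¹ᵁ E)

theorem mem_dm {D : X.Opens} {u : D.toScheme ⟶ Y} {E : Y.Opens} {x : X} :
    x ∈ dm D u E ↔ ∃ hx : x ∈ D, u ⟨x, hx⟩ ∈ E := by
  constructor
  · rintro ⟨z, hz, rfl⟩
    exact ⟨z.2, hz⟩
  · rintro ⟨hx, h⟩
    exact ⟨⟨x, hx⟩, h, rfl⟩

theorem dm_le (D : X.Opens) (u : D.toScheme ⟶ Y) (E : Y.Opens) : dm D u E ≤ D := by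
  intro x hx
  exact (mem_dm.1 hx).1

/-- the morphism on it -/
def jj (D : X.Opens) (u : D.toScheme ⟶ Y) (E : Y.Opens) : (dm D u E).toScheme ⟶ Y :=
  X.homOfLE (dm_le D u E) ≫ u

theorem jj_apply (D : X.Opens) (u : D.toScheme ⟶ Y) (E : Y.Opens) (x : X) (hx : x ∈ dm D u E) :
    jj D u E ⟨x, hx⟩ = u ⟨x, dm_le D u E hx⟩ := by
  refine (ap (h := jj D u E) rfl (⟨x, hx⟩ : (dm D u E).toScheme)).symm.trans ?_
  congr 1
  exact Subtype.ext (ap (X.homOfLE_ι (dm_le D u E)) (⟨x, hx⟩ : (dm D u E).toScheme))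

theorem jj_mem (D : X.Opens) (u : D.toScheme ⟶ Y) (E : Y.Opens) :
    Set.range (jj D u E) ⊆ Set.range E.ι := by
  rintro _ ⟨⟨x, hx⟩, rfl⟩
  rw [Scheme.Opens.range_ι, jj_apply]
  exact (mem_dm.1 hx).2

def ee (D : X.Opens) (u : D.toScheme ⟶ Y) (E : Y.Opens) : (dm D u E).toScheme ⟶ E.toScheme :=
  IsOpenImmersion.lift E.ι (jj D u E) (jj_mem D u E)

theorem ee_ι (D : X.Opens) (u : D.toScheme ⟶ Y) (E : Y.Opens) : ee D u E ≫ E.ι = jj D u E :=
  IsOpenImmersion.lift_fac _ _ _

theorem gen_dm [IsIntegral X] [IsIntegral Y] (θ : Y.functionField ≅ X.functionField)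
    (D : X.Opens) (u : D.toScheme ⟶ Y) (E : Y.Opens)
    (hD : genericPoint X ∈ D) (hE : genericPoint Y ∈ E)
    (hu : D.fromSpecStalkOfMem _ hD ≫ u = Spec.map θ.hom ≫ Y.fromSpecStalk (genericPoint Y)) :
    genericPoint X ∈ dm D u E := by
  refine mem_dm.2 ⟨hD, ?_⟩
  have h1 : (D.fromSpecStalkOfMem _ hD) (IsLocalRing.closedPoint (X.presheaf.stalk (genericPoint X)))
      = ⟨genericPoint X, hD⟩ := by
    apply Subtype.ext
    exact (ap (Scheme.Opens.fromSpecStalkOfMem_ι D (genericPoint X) hD)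
      (IsLocalRing.closedPoint (X.presheaf.stalk (genericPoint X)))).trans
      Scheme.fromSpecStalk_closedPoint
  have h2 := ap2 hu (IsLocalRing.closedPoint (X.presheaf.stalk (genericPoint X)))
  rw [h1] at h2
  rw [h2]
  have h3 : Y.fromSpecStalk (genericPoint Y) ((Spec.map θ.hom)
      (IsLocalRing.closedPoint (X.presheaf.stalk (genericPoint X)))) ∈
      Set.range (Y.fromSpecStalk (genericPoint Y)) := ⟨_, rfl⟩
  rw [Scheme.range_fromSpecStalk] at h3
  exact Specializes.mem_open h3 E.2 hE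

/-- the image of `dm` lies in the `dm` of the other side -/
theorem jj_range [IsIntegral X] [IsIntegral Y] [X.IsSeparated]
    (θ : Y.functionField ≅ X.functionField)
    (D : X.Opens) (u : D.toScheme ⟶ Y) (E : Y.Opens) (v : E.toScheme ⟶ X)
    (hD : genericPoint X ∈ D) (hE : genericPoint Y ∈ E)
    (hu : D.fromSpecStalkOfMem _ hD ≫ u = Spec.map θ.hom ≫ Y.fromSpecStalk (genericPoint Y))
    (hv : E.fromSpecStalkOfMem _ hE ≫ v = Spec.map θ.inv ≫ X.fromSpecStalk (genericPoint X)) :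
    Set.range (jj D u E) ⊆ Set.range (dm E v D).ι := by
  have hk := key θ D u E v hD hE hu hv (dm D u E) (dm_le D u E) (gen_dm θ D u E hD hE hu)
    (ee D u E) (ee_ι D u E)
  rintro _ ⟨z, rfl⟩
  rw [Scheme.Opens.range_ι]
  have h1 : jj D u E z = (ee D u E z).1 := (ap (ee_ι D u E) z).symm
  refine mem_dm.2 ⟨by rw [h1]; exact (ee D u E z).2, ?_⟩
  have h2 : v (ee D u E z) = z.1 := ap hk z
  have h3 : (⟨jj D u E z, by rw [h1]; exact (ee D u E z).2⟩ : E.toScheme) = ee D u E z :=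
    Subtype.ext h1
  rw [h3, h2]
  exact dm_le D u E z.2

theorem open_imm [IsIntegral X] [IsIntegral Y] [X.IsSeparated] [Y.IsSeparated]
    (θ : Y.functionField ≅ X.functionField)
    (D : X.Opens) (u : D.toScheme ⟶ Y) (E : Y.Opens) (v : E.toScheme ⟶ X)
    (hD : genericPoint X ∈ D) (hE : genericPoint Y ∈ E)
    (hu : D.fromSpecStalkOfMem _ hD ≫ u = Spec.map θ.hom ≫ Y.fromSpecStalk (genericPoint Y))
    (hv : E.fromSpecStalkOfMem _ hE ≫ v = Spec.map θ.inv ≫ X.fromSpecStalk (genericPoint X)) :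
    IsOpenImmersion (jj D u E) := by
  have hk := key θ D u E v hD hE hu hv (dm D u E) (dm_le D u E) (gen_dm θ D u E hD hE hu)
    (ee D u E) (ee_ι D u E)
  have hk' := key θ.symm E v D u hE hD hv hu (dm E v D) (dm_le E v D)
    (gen_dm θ.symm E v D hE hD hv) (ee E v D) (ee_ι E v D)
  let a : (dm D u E).toScheme ⟶ (dm E v D).toScheme :=
    IsOpenImmersion.lift (dm E v D).ι (jj D u E) (jj_range θ D u E v hD hE hu hv)
  let b : (dm E v D).toScheme ⟶ (dm D u E).toScheme :=
    IsOpenImmersion.lift (dm D u E).ι (jj E v D) (jj_range θ.symm E v D u hE hD hv hu)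
  have ha : a ≫ (dm E v D).ι = jj D u E := IsOpenImmersion.lift_fac _ _ _
  have hb : b ≫ (dm D u E).ι = jj E v D := IsOpenImmersion.lift_fac _ _ _
  have hae : a ≫ Y.homOfLE (dm_le E v D) = ee D u E := by
    rw [← cancel_mono E.ι, Category.assoc, Scheme.homOfLE_ι, ha, ee_ι]
  have hbe : b ≫ X.homOfLE (dm_le D u E) = ee E v D := by
    rw [← cancel_mono D.ι, Category.assoc, Scheme.homOfLE_ι, hb, ee_ι]
  have hab : a ≫ b = 𝟙 _ := by
    rw [← cancel_mono (dm D u E).ι, Category.assoc, hb, Category.id_comp]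
    show a ≫ Y.homOfLE (dm_le E v D) ≫ v = _
    rw [← Category.assoc, hae, hk]
  have hba : b ≫ a = 𝟙 _ := by
    rw [← cancel_mono (dm E v D).ι, Category.assoc, ha, Category.id_comp]
    show b ≫ X.homOfLE (dm_le D u E) ≫ u = _
    rw [← Category.assoc, hbe, hk']
  have : IsIso a := ⟨b, hab, hba⟩
  rw [← ha]
  infer_instance

instance dom_toF [IsIntegral X] (x : X) : IsDominant (Spec.map (toF X x)) := by
  refine ⟨?_⟩
  have h0 : Spec.map (toF X x) ≫ X.fromSpecStalk x = X.fromSpecStalk (genericPoint X) :=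
    Scheme.SpecMap_stalkSpecializes_fromSpecStalk _
  set c := IsLocalRing.closedPoint (X.presheaf.stalk (genericPoint X)) with hc
  have h1 : X.fromSpecStalk x ((Spec.map (toF X x)) c) = genericPoint X :=
    (ap h0 c).trans Scheme.fromSpecStalk_closedPoint
  have hind : Topology.IsInducing (X.fromSpecStalk x) := (X.fromSpecStalk x).isEmbedding.isInducing
  have h2 : closure {(Spec.map (toF X x)) c} = (Set.univ : Set (Spec (X.presheaf.stalk x))) := by
    rw [Set.eq_univ_iff_forall]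
    intro z
    rw [← specializes_iff_mem_closure, ← hind.specializes_iff, h1]
    exact genericPoint_specializes _
  rw [denseRange_iff_closure_range, ← Set.univ_subset_iff, ← h2]
  exact closure_mono (Set.singleton_subset_iff.2 ⟨c, rfl⟩)

theorem dom [IsIntegral X] [IsIntegral Y] [B.IsSeparated] [Y.IsSeparated] {f : X ⟶ B} {g : Y ⟶ B}
    [LocallyOfFiniteType g] {θ : Y.functionField ≅ X.functionField} (h : OverB θ f g)
    {x : X} {y : Y} (hc : Compat θ x y) :
    ∃ hx : x ∈ (phi h).domain, (phi h).toPartialMap.hom ⟨x, hx⟩ = y := by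
  obtain ⟨e, he⟩ := hc
  have hgen : Spec.map (toF X x) ≫ Spec.map e.hom ≫ Y.fromSpecStalk y =
      Spec.map θ.hom ≫ Y.fromSpecStalk (genericPoint Y) := by
    rw [← Spec.map_comp_assoc, he, Spec.map_comp_assoc]
    congr 1
    exact Scheme.SpecMap_stalkSpecializes_fromSpecStalk _
  have hρ : (Spec.map e.hom ≫ Y.fromSpecStalk y) ≫ g = X.fromSpecStalk x ≫ f := by
    refine ext_of_isDominant (Spec.map (toF X x)) ?_
    rw [← Category.assoc, hgen, cond h, ← Category.assoc]
    congr 1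
    exact (Scheme.SpecMap_stalkSpecializes_fromSpecStalk _).symm
  set r := Scheme.PartialMap.ofFromSpecStalk f g (Spec.map e.hom ≫ Y.fromSpecStalk y) hρ with hrdef
  have hx : x ∈ r.domain := Scheme.PartialMap.mem_domain_ofFromSpecStalk f g _ hρ
  have hrx : r.domain.fromSpecStalkOfMem x hx ≫ r.hom = Spec.map e.hom ≫ Y.fromSpecStalk y :=
    Scheme.PartialMap.fromSpecStalkOfMem_ofFromSpecStalk f g _ hρ
  have hr : r.toRationalMap = phi h := by
    refine Scheme.RationalMap.eq_of_fromFunctionField_eq _ _ ?_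
    rw [phi_ff]
    show r.domain.fromSpecStalkOfMem (genericPoint X) _ ≫ r.hom = _
    rw [← hgen, ← hrx, ← Category.assoc]
    congr 1
    rw [← cancel_mono r.domain.ι, Category.assoc, Scheme.Opens.fromSpecStalkOfMem_ι,
      Scheme.Opens.fromSpecStalkOfMem_ι]
    exact (Scheme.SpecMap_stalkSpecializes_fromSpecStalk _).symm
  rw [← hr]
  refine ⟨r.le_domain_toRationalMap hx, ?_⟩
  have h1 : r.toRationalMap.toPartialMap.hom ⟨x, r.le_domain_toRationalMap hx⟩ =
      r.hom ⟨x, hx⟩ := by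
    refine Eq.trans ?_ (ap (f := X.homOfLE r.le_domain_toRationalMap)
      (g := r.toRationalMap.toPartialMap.hom) r.toPartialMap_toRationalMap_restrict
      (⟨x, hx⟩ : r.domain.toScheme))
    congr 1
    exact Subtype.ext (ap (X.homOfLE_ι r.le_domain_toRationalMap)
      (⟨x, hx⟩ : r.domain.toScheme)).symm
  rw [h1]
  have h2 : (r.domain.fromSpecStalkOfMem x hx) (IsLocalRing.closedPoint (X.presheaf.stalk x))
      = ⟨x, hx⟩ := by
    apply Subtype.ext
    exact (ap (Scheme.Opens.fromSpecStalkOfMem_ι r.domain x hx)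
      (IsLocalRing.closedPoint (X.presheaf.stalk x))).trans Scheme.fromSpecStalk_closedPoint
  have h3 := ap2 hrx (IsLocalRing.closedPoint (X.presheaf.stalk x))
  rw [h2] at h3
  rw [h3]
  have h4 : (Spec.map e.hom) (IsLocalRing.closedPoint (X.presheaf.stalk x)) =
      IsLocalRing.closedPoint (Y.presheaf.stalk y) := IsLocalRing.comap_closedPoint e.hom.hom
  rw [h4]
  exact Scheme.fromSpecStalk_closedPoint

end G1

theorem thm_G1 : St_G1 := by
  intro X Y B _ _ _ f g _ _ _ _ θ h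
  have hX : X.IsSeparated := G1.isSep f
  have hY : Y.IsSeparated := G1.isSep g
  have h' := G1.symm_over h
  set p := (G1.phi h).toPartialMap with hp
  set q := (G1.phi h').toPartialMap with hq
  have hD : genericPoint X ∈ p.domain :=
    G1.gen_mem _ p.dense_domain.nonempty.choose_spec
  have hE : genericPoint Y ∈ q.domain :=
    G1.gen_mem _ q.dense_domain.nonempty.choose_spec
  have hu : p.domain.fromSpecStalkOfMem _ hD ≫ p.hom =
      Spec.map θ.hom ≫ Y.fromSpecStalk (genericPoint Y) := by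
    rw [← G1.phi_ff h]
    conv_rhs => rw [← (G1.phi h).toRationalMap_toPartialMap]
    rfl
  have hv : q.domain.fromSpecStalkOfMem _ hE ≫ q.hom =
      Spec.map θ.inv ≫ X.fromSpecStalk (genericPoint X) := by
    have h1 := G1.phi_ff h'
    rw [← (G1.phi h').toRationalMap_toPartialMap] at h1
    exact h1
  have hkey : ∀ (x : X) (y : Y), Compat θ x y → ∃ hx : x ∈ G1.dm p.domain p.hom q.domain,
      G1.jj p.domain p.hom q.domain ⟨x, hx⟩ = y := by
    intro x y hc
    obtain ⟨hx, hxy⟩ := G1.dom h hc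
    obtain ⟨hy, -⟩ := G1.dom h' (G1.symm_compat hc)
    have hmem : x ∈ G1.dm p.domain p.hom q.domain := by
      have h3 : p.hom ⟨x, hx⟩ = y := hxy
      have h4 : p.hom ⟨x, hx⟩ ∈ q.domain := h3.symm ▸ hy
      exact G1.mem_dm.2 ⟨hx, h4⟩
    refine ⟨hmem, ?_⟩
    rw [G1.jj_apply]
    exact hxy
  refine ⟨(G1.dm p.domain p.hom q.domain).toScheme, (G1.dm p.domain p.hom q.domain).ι,
    G1.jj p.domain p.hom q.domain, inferInstance, G1.open_imm θ _ _ _ q.hom hD hE hu hv, ?_, ?_⟩
  · intro x hx y hc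
    obtain ⟨hx', -⟩ := hkey x y hc
    exact hx ⟨⟨x, hx'⟩, rfl⟩
  · intro y hy x hc
    obtain ⟨hx', h2⟩ := hkey x y hc
    exact hy ⟨_, h2⟩

end Pool.Agent.BTF
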