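import Pool.Agent.BTF.St
import Pool.Agent.KTX.Defs

/-!
# BTF: statements of the modules, (II) in each degree

MP_e17fa799_al (captain helper21; this file helper65). `RuledIff`: let `X` be integral, regular and
proper over `ℤ`, of Kronecker dimension `≤ d + 2`, and `K(X) = K(T)(t)`, `T` integral of finite type
over `ℤ`. Then `K'_n(X)` is in `𝒮` if and only if `K'_n(T)` is, for each `n`.

The idea: let `Spec D` be a regular affine open subscheme of `T` and `P` the projective line over
`Spec D`. Then `K'_n(T) ∈ 𝒮 ↔ K'_n(D) ∈ 𝒮` and `K'_n(P) ∈ 𝒮 ↔ K'_n(D) ∈ 𝒮`. Let `U` be the largest common open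
subset of `X` and `P`. A point `y ∈ P \ U` is good as in (I), because `X` is proper and regular. For a
point `x ∈ X \ U` with `V = 𝒪_{X,x}` a discrete valuation ring either `κ(x) = L(s)` or `K(T) ⊆ V` (`V1A`), and
in the second case `D[t] ⊆ V` or `D[1/t] ⊆ V`, so `V` has a centre on `P`, which is regular, and `x` is good
by Abhyankar's theorem as in (I). So `K3` twice.
-/

set_option autoImplicit false

noncomputable section

namespace Pool.Agent.BTF

open CategoryTheory CategoryTheory.Limits AlgebraicGeometry Pool.Agent.KPR Pool.Agent.KTX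
open Pool.Agent.KGT.W (SerreClass FinType)

/-- (II) in each degree -/
def RuledIff (𝒮 : (G : Type 1) → [AddCommGroup G] → Prop) (d : ℕ) : Prop :=
  ∀ (X T : Scheme.{0}) [IsIntegral X] [IsIntegral T], ProperZ X → KGT.W.Regular X →
    KrLe (d + 2) X.functionField → FinType ℤ T →
    Nonempty (X.functionField ≃+* RatFunc T.functionField) → ∀ n : ℕ, 𝒮 (KX n X) ↔ 𝒮 (KX n T)

/-- the embedding `D[t] → F(t)`, `F = Frac D` -/
def toT (D : Type) [CommRing D] [IsDomain D] : Polynomial D →+* RatFunc (FractionRing D) :=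
  Polynomial.eval₂RingHom
    ((algebraMap (FractionRing D) (RatFunc (FractionRing D))).comp (algebraMap D (FractionRing D)))
    RatFunc.X

/-- the embedding `D[t] → F(t)`, `t ↦ 1/t` -/
def toI (D : Type) [CommRing D] [IsDomain D] : Polynomial D →+* RatFunc (FractionRing D) :=
  Polynomial.eval₂RingHom
    ((algebraMap (FractionRing D) (RatFunc (FractionRing D))).comp (algebraMap D (FractionRing D)))
    (RatFunc.X)⁻¹

/-- `P` is a projective line over `Spec D` with the charts `a` (coordinate `t`), `b` (coordinate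
`1/t`) and the section at infinity `s` -/
structure IsLine (D : Type) [CommRing D] [IsDomain D] (P : Scheme.{0}) (p : P ⟶ Sp D)
    (a b : Sp (Polynomial D) ⟶ P) (s : Sp D ⟶ P) : Prop where
  int : IsIntegral P
  sep : IsSeparated p
  lft : LocallyOfFiniteType p
  qc : QuasiCompact p
  flat : Flat p
  opa : IsOpenImmersion a
  opb : IsOpenImmersion b
  cls : IsClosedImmersion s
  ap : a ≫ p = Sm (Polynomial.C : D →+* Polynomial D)
  bp : b ≫ p = Sm (Polynomial.C : D →+* Polynomial D)
  compl : Set.range s = (Set.range a)ᶜ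
  cover : ∀ x : P, x ∈ Set.range a ∨ x ∈ Set.range b
  glue : Sm (toT D) ≫ a = Sm (toI D) ≫ b

/-- **PL** (helper65). The projective line: `Proj D[x_0, x_1]`. needs: nothing -/
def St_PL : Prop := ∀ (D : Type) [CommRing D] [IsDomain D] [IsNoetherianRing D],
  ∃ (P : Scheme.{0}) (p : P ⟶ Sp D) (a b : Sp (Polynomial D) ⟶ P) (s : Sp D ⟶ P),
    IsLine D P p a b s

/-- **LP**. `K'_n` of the projective line. Proof: `L` from `Pool.Agent.KGT.real all_HOMK`. The sequence
`K'_n(D) → K'_n(P) → K'_n(D[t])` (`push s`, `pull a`) is exact (`ex`, `ex0`), `K'_n(D[t]) = K'_n(D)` (`hom`). And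
`pull a ∘ pull p = pull (a ≫ p)` is bijective (`pull_comp`, `hom`), so `pull a` is surjective. `P` is noetherian
(`Pool.Agent.KIN.h2_noeth`). needs: nothing -/
def St_LP : Prop := ∀ (𝒮 : (G : Type 1) → [AddCommGroup G] → Prop), SerreClass 𝒮 →
  ∀ (D : Type) [CommRing D] [IsDomain D] [IsNoetherianRing D] (P : Scheme.{0}) (p : P ⟶ Sp D)
    (a b : Sp (Polynomial D) ⟶ P) (s : Sp D ⟶ P), IsLine D P p a b s →
      ∀ n : ℕ, 𝒮 (KX n P) ↔ 𝒮 (KX n (Sp D))

/-- **V1A**. The first part of `V1`: if `F ⊄ V`, then `κ(V)` is ruled. needs: AB -/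
def St_V1A : Prop := ∀ (F V : Type) [Field F] [CommRing V] [IsDomain V] [IsDiscreteValuationRing V]
  [Algebra V (RatFunc F)] [IsFractionRing V (RatFunc F)], EssFin V →
  (∃ (L : Type) (_ : Field L), Nonempty (IsLocalRing.ResidueField V ≃+* RatFunc L)) ∨
  ∀ c : F, ∃ v : V, algebraMap V (RatFunc F) v = algebraMap F (RatFunc F) c

/-- **V2A**. `V2` in each degree (see `V2.opn` in `V2.lean`). needs: DL, K2, K3 -/
def St_V2A : Prop := ∀ (𝒮 : (G : Type 1) → [AddCommGroup G] → Prop), SerreClass 𝒮 → ∀ d : ℕ,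
  Low 𝒮 d → ∀ (T : Scheme.{0}) [IsIntegral T], FinType ℤ T → KrLe (d + 1) T.functionField →
    ∃ (D : Type) (_ : CommRing D) (_ : IsDomain D), Algebra.FiniteType ℤ D ∧ IsRegularRing D ∧
      Nonempty (FractionRing D ≃+* T.functionField) ∧
      ∀ n : ℕ, 𝒮 (KX n T) ↔ 𝒮 (KX n (Sp D))

/-- **RP**. The projective line over a regular ring is regular. Proof: the stalk of `P` at `a(z)` or
`b(z)` is the stalk of `Spec D[t]` at `z`; `Polynomial.isRegularRing_of_isRegularRing`.
needs: nothing -/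
def St_RP : Prop := ∀ (D : Type) [CommRing D] [IsDomain D] [IsNoetherianRing D] (P : Scheme.{0})
  (p : P ⟶ Sp D) (a b : Sp (Polynomial D) ⟶ P) (s : Sp D ⟶ P), IsLine D P p a b s →
    IsRegularRing D → KGT.W.Regular P

/-- **CE**. The centre on the projective line. `θ0` is an isomorphism `F(t) ≅ K(X)`. (1) There is an
isomorphism `θ : K(P) ≅ K(X)` such that the generic point `Spec K(X) → P` is `Spec K(X) ≅ Spec F(t) →
Spec D[t] → P` (`a`); it does not depend on `x`. (2) If the images of `D` under `θ0` are in `V = 𝒪_{X,x}`, a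
valuation ring, then `θ0(t)` or `θ0(1/t)` is in `V`, so there is `D[t] → V` with `Spec K(X) → Spec V →
Spec D[t] → P` (`a` or `b`) the generic point (`glue`); the centre is the image of the closed point (the
second half of the proof of `G2` in `G2.lean`). needs: nothing -/
def St_CE : Prop := ∀ (D : Type) [CommRing D] [IsDomain D] [IsNoetherianRing D] (P : Scheme.{0})
  (p : P ⟶ Sp D) (a b : Sp (Polynomial D) ⟶ P) (s : Sp D ⟶ P), IsLine D P p a b s →
  ∀ (X : Scheme.{0}) [IsIntegral X] [IsIntegral P]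
    (θ0 : RatFunc (FractionRing D) ≃+* X.functionField),
    ∃ θ : P.functionField ≅ X.functionField, ∀ x : X, ValuationRing (X.presheaf.stalk x) →
      (∀ c : D, ∃ v : X.presheaf.stalk x, (toF X x).hom v = θ0 (toT D (Polynomial.C c))) →
      ∃ (y : P) (l : P.presheaf.stalk y ⟶ X.presheaf.stalk x), IsLocalHom l.hom ∧
        l ≫ toF X x = toF P y ≫ θ.hom

/-- **PIIA** (II) in each degree. Proof: `D` as in `V2A`, `P` from `PL`, `θ` from `CE` (`OverB` over `Spec ℤ` is
automatic), `U`, `i`, `j` from `G1`. Points `y ∉ range j`: `PI.good_side`. Points `x ∉ range i`: `G4`; if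
`V = 𝒪_{X,x}` is a discrete valuation ring, `V1A`: in the first case `κ(x)` is good by `KL`, `K4`; in the
second case `CE` gives a centre, and the rest of `PI.good_side` applies (`AB`). Then `K3` twice, and `LP`,
`V2A`. needs: all above -/
def St_PIIA : Prop := ∀ (𝒮 : (G : Type 1) → [AddCommGroup G] → Prop), SerreClass 𝒮 → ∀ d : ℕ,
  Low 𝒮 d → RuledIff 𝒮 d

/-! ### one degree -/

/-- `Good` in the degree `n` -/
def GoodN (𝒮 : (G : Type 1) → [AddCommGroup G] → Prop) (n : ℕ) (κ : Type) [Field κ] : Prop :=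
  ∀ (C : Type) [CommRing C] [IsDomain C] [Algebra.FiniteType ℤ C],
    Nonempty (FractionRing C ≃+* κ) →
      ∃ s : C, s ≠ 0 ∧ 𝒮 (KX n (Spec (CommRingCat.of (Localization.Away s))))

/-- **K1N**. `K1` in one degree. needs: nothing -/
def St_K1N : Prop := ∀ (𝒮 : (G : Type 1) → [AddCommGroup G] → Prop), SerreClass 𝒮 → ∀ (n : ℕ)
  (Z : Scheme.{0}), FinType ℤ Z → (∀ z : Z, GoodN 𝒮 n (Z.residueField z)) → 𝒮 (KX n Z)

/-- **K3N**. `K3` in one degree. needs: K1N -/
def St_K3N : Prop := ∀ (𝒮 : (G : Type 1) → [AddCommGroup G] → Prop), SerreClass 𝒮 →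
  ∀ (X U : Scheme.{0}) (j : U ⟶ X) [IsOpenImmersion j], FinType ℤ X → ∀ n : ℕ,
    ((∀ x : X, x ∉ Set.range j → GoodN 𝒮 n (X.residueField x)) →
      (𝒮 (KX n U) → 𝒮 (KX n X)) ∧ (𝒮 (KX (n + 1) X) → 𝒮 (KX (n + 1) U))) ∧
    (𝒮 (KX 0 X) → 𝒮 (KX 0 U))

end Pool.Agent.BTF
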