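import Pool.Agent.BTF.St3
import Pool.Agent.BTF.St2
import Pool.Agent.BTF.St7
import Pool.Agent.BTF.G1
import Pool.Agent.BTF.PI
import Pool.Agent.KGT.Sch

/-!
# BTF, N9: the main step of part (III), domination
-/

set_option autoImplicit false

noncomputable section

namespace Pool.Agent.BTF

open CategoryTheory CategoryTheory.Limits AlgebraicGeometry Pool.Agent.KPR Pool.Agent.KTX
open Pool.Agent.KGT.W (SerreClass FinType)
open Pool.Agent.GTH (Serre)

namespace N9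

/-! ### finite type -/

theorem ft_proper {X : Scheme.{0}} (h : ProperZ X) : FinType ℤ X := by
  obtain ⟨f, hf⟩ := h
  exact ⟨f, inferInstance, inferInstance⟩

theorem ft_comp {X Y : Scheme.{0}} (g : X ⟶ Y) [LocallyOfFiniteType g] [QuasiCompact g]
    (h : FinType ℤ Y) : FinType ℤ X := by
  obtain ⟨f, hf1, hf2⟩ := h
  exact ⟨g ≫ f, inferInstance, inferInstance⟩

theorem noeth {X : Scheme.{0}} (h : FinType ℤ X) : IsNoetherian X := by
  obtain ⟨f, hf1, hf2⟩ := h
  have : IsNoetherian (Sp ℤ) := inferInstance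
  exact Pool.Agent.KIN.h2_noeth f

theorem ft_open {X Y : Scheme.{0}} (g : X ⟶ Y) [IsOpenImmersion g] (h : FinType ℤ Y) :
    FinType ℤ X := by
  have := noeth h
  have : QuasiCompact g := inferInstance
  exact ft_comp g h

/-! ### classes -/

theorem serre {𝒮 : (G : Type 1) → [AddCommGroup G] → Prop} (h : SerreClass 𝒮) : Serre 𝒮 :=
  ⟨h.zero, h.exact⟩

theorem iso_iff {𝒮 : (G : Type 1) → [AddCommGroup G] → Prop} (h : SerreClass 𝒮)
    {A B : Type 1} [AddCommGroup A] [AddCommGroup B] (e : A ≃+ B) : 𝒮 A ↔ 𝒮 B :=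
  (serre h).of_bij e.toAddMonoidHom e.bijective

theorem mulIn_iso {𝒮 : (G : Type 1) → [AddCommGroup G] → Prop} (h : SerreClass 𝒮)
    {A B : Type 1} [AddCommGroup A] [AddCommGroup B] (e : A ≃+ B) (m : ℕ) (hA : MulIn 𝒮 m A) :
    MulIn 𝒮 m B := by
  let f : (nsmulAddMonoidHom (α := A) m).range →+ (nsmulAddMonoidHom (α := B) m).range :=
    (e.toAddMonoidHom.comp (nsmulAddMonoidHom (α := A) m).range.subtype).codRestrict _ (by
      rintro ⟨_, a, rfl⟩
      exact ⟨e a, (map_nsmul e m a).symm⟩)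
  refine (serre h).of_surj f ?_ hA
  rintro ⟨_, b, rfl⟩
  refine ⟨⟨_, e.symm b, rfl⟩, Subtype.ext ?_⟩
  show e (m • e.symm b) = m • b
  rw [map_nsmul, AddEquiv.apply_symm_apply]

theorem goodN_iso {𝒮 : (G : Type 1) → [AddCommGroup G] → Prop} {n : ℕ} {κ κ' : Type} [Field κ]
    [Field κ'] (e : κ ≃+* κ') (h : GoodN 𝒮 n κ) : GoodN 𝒮 n κ' := by
  rintro C _ _ _ ⟨f⟩
  exact h C ⟨f.trans e.symm⟩

theorem goodN_of {𝒮 : (G : Type 1) → [AddCommGroup G] → Prop} {κ : Type} [Field κ]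
    (h : Good 𝒮 κ) (n : ℕ) : GoodN 𝒮 n κ := by
  intro C _ _ _ hC
  obtain ⟨s, hs, hh⟩ := h C hC
  exact ⟨s, hs, hh n⟩

/-! ### kernels of restrictions -/

theorem res_closed {X Y : Scheme.{0}} (i : Y ⟶ X) [IsClosedImmersion i] (y : Y) :
    Nonempty (X.residueField (i y) ≃+* Y.residueField y) := by
  have hs : Function.Surjective (i.residueFieldMap y).hom := by
    have h1 : Function.Surjective (i.stalkMap y).hom := i.stalkMap_surjective y
    intro z
    obtain ⟨w, rfl⟩ := IsLocalRing.residue_surjective z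
    obtain ⟨v, rfl⟩ := h1 w
    exact ⟨X.residue (i y) v, rfl⟩
  exact ⟨RingEquiv.ofBijective _ ⟨RingHom.injective _, hs⟩⟩

theorem res_open {X Y : Scheme.{0}} (j : Y ⟶ X) [IsOpenImmersion j] (y : Y) :
    Nonempty (X.residueField (j y) ≃+* Y.residueField y) :=
  ⟨(asIso (j.residueFieldMap y)).commRingCatIsoToRingEquiv⟩

theorem ker_mem (hK1N : St_K1N) {𝒮 : (G : Type 1) → [AddCommGroup G] → Prop}
    (h𝒮 : SerreClass 𝒮) (L : LThy.{1})
    (hL : ∀ (n : ℕ) (Z : Scheme.{0}), Nonempty ((L.th n).T Z ≃+ KX n Z)) (n : ℕ)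
    {X U : Scheme.{0}} (j : U ⟶ X) [IsOpenImmersion j] (hX : FinType ℤ X)
    (h : ∀ x : X, x ∉ Set.range j → GoodN 𝒮 n (X.residueField x)) :
    𝒮 ((L.th n).pull j).ker := by
  have hXn : IsNoetherian X := noeth hX
  let C0 : TopologicalSpace.Closeds X := ⟨(Set.range j)ᶜ, j.isOpenEmbedding.isOpen_range.isClosed_compl⟩
  let I : X.IdealSheafData := Scheme.IdealSheafData.vanishingIdeal C0
  let i : I.subscheme ⟶ X := I.subschemeι
  have hi : Set.range i = (Set.range j)ᶜ := by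
    change Set.range I.subschemeι = _
    rw [Scheme.IdealSheafData.range_subschemeι,
      Scheme.IdealSheafData.coe_support_vanishingIdeal]
    rfl
  have hZ : FinType ℤ I.subscheme := ft_comp i hX
  have h1 : 𝒮 (KX n I.subscheme) := by
    refine hK1N 𝒮 h𝒮 n I.subscheme hZ fun z => ?_
    obtain ⟨e⟩ := res_closed i z
    refine goodN_iso e (h (i z) ?_)
    have h2 : i z ∈ Set.range i := ⟨z, rfl⟩
    rw [hi] at h2
    exact h2
  obtain ⟨e⟩ := hL n I.subscheme
  have h2 : 𝒮 ((L.th n).T I.subscheme) := (iso_iff h𝒮 e).2 h1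
  refine (serre h𝒮).of_surj (((L.th n).push i).codRestrict ((L.th n).pull j).ker
    (fun z => (L.th n).ex0 i j hi z)) ?_ h2
  rintro ⟨x, hx⟩
  obtain ⟨z, hz⟩ := (L.th n).ex i j hi x hx
  exact ⟨z, Subtype.ext hz⟩

/-! ### geometry -/

/-- the function field of an open subscheme -/
theorem ff_open {X U : Scheme.{0}} [IsIntegral X] [IsIntegral U] (j : U ⟶ X) [IsOpenImmersion j] :
    Nonempty (X.functionField ≃+* U.functionField) := by
  have h : j (genericPoint U) = genericPoint X := genericPoint_eq_of_isOpenImmersion j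
  have e1 : X.presheaf.stalk (j (genericPoint U)) ≅ U.presheaf.stalk (genericPoint U) :=
    asIso (j.stalkMap (genericPoint U))
  have e2 : X.presheaf.stalk (genericPoint X) ≅ X.presheaf.stalk (j (genericPoint U)) :=
    X.presheaf.stalkCongr (Inseparable.of_eq h.symm)
  exact ⟨(e2 ≪≫ e1).commRingCatIsoToRingEquiv⟩

/-- the largest common open subset, with its morphism -/
theorem big (X Y B : Scheme.{0}) [IsIntegral X] [IsIntegral Y] [B.IsSeparated]
    (f : X ⟶ B) (g : Y ⟶ B) [IsSeparated f] [IsSeparated g] [LocallyOfFiniteType f]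
    [LocallyOfFiniteType g] (θ : Y.functionField ≅ X.functionField) (h : OverB θ f g) :
    ∃ (D : X.Opens) (hD : genericPoint X ∈ D) (j : D.toScheme ⟶ Y), IsOpenImmersion j ∧
      D.fromSpecStalkOfMem (genericPoint X) hD ≫ j =
        Spec.map θ.hom ≫ Y.fromSpecStalk (genericPoint Y) ∧
      ∀ (x : X) (y : Y), Compat θ x y → ∃ hx : x ∈ D, j ⟨x, hx⟩ = y := by
  have hX : X.IsSeparated := G1.isSep f
  have hY : Y.IsSeparated := G1.isSep g
  have h' := G1.symm_over h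
  set p := (G1.phi h).toPartialMap with hp
  set q := (G1.phi h').toPartialMap with hq
  have hD : genericPoint X ∈ p.domain :=
    G1.gen_mem _ p.dense_domain.nonempty.choose_spec
  have hE : genericPoint Y ∈ q.domain :=
    G1.gen_mem _ q.dense_domain.nonempty.choose_spec
  have hu : p.domain.fromSpecStalkOfMem _ hD ≫ p.hom =
      Spec.map θ.hom ≫ Y.fromSpecStalk (genericPoint Y) := by
    rw [← G1.phi_ff h]
    conv_rhs => rw [← (G1.phi h).toRationalMap_toPartialMap]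
    rfl
  have hv : q.domain.fromSpecStalkOfMem _ hE ≫ q.hom =
      Spec.map θ.inv ≫ X.fromSpecStalk (genericPoint X) := by
    have h1 := G1.phi_ff h'
    rw [← (G1.phi h').toRationalMap_toPartialMap] at h1
    exact h1
  refine ⟨G1.dm p.domain p.hom q.domain, G1.gen_dm θ _ _ _ hD hE hu,
    G1.jj p.domain p.hom q.domain, G1.open_imm θ _ _ _ q.hom hD hE hu hv, ?_, ?_⟩
  · show _ ≫ X.homOfLE (G1.dm_le p.domain p.hom q.domain) ≫ p.hom = _
    rw [← Category.assoc, G1.fs_homOfLE, hu]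
  · intro x y hc
    obtain ⟨hx, hxy⟩ := G1.dom h hc
    obtain ⟨hy, -⟩ := G1.dom h' (G1.symm_compat hc)
    have hmem : x ∈ G1.dm p.domain p.hom q.domain := by
      have h3 : p.hom ⟨x, hx⟩ = y := hxy
      have h4 : p.hom ⟨x, hx⟩ ∈ q.domain := h3.symm ▸ hy
      exact G1.mem_dm.2 ⟨hx, h4⟩
    refine ⟨hmem, ?_⟩
    rw [G1.jj_apply]
    exact hxy

/-- compatible points have the same residue field -/
theorem res_compat {X Y : Scheme.{0}} [IsIntegral X] [IsIntegral Y]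
    {θ : Y.functionField ≅ X.functionField} {x : X} {y : Y} (h : Compat θ x y) :
    Nonempty (X.residueField x ≃+* Y.residueField y) := by
  obtain ⟨e, -⟩ := h
  exact ⟨(IsLocalRing.ResidueField.mapEquiv e.symm.commRingCatIsoToRingEquiv)⟩

/-- the residue field extensions of a finite morphism are algebraic -/
theorem res_alg {X₁ X : Scheme.{0}} (π : X₁ ⟶ X) [IsFinite π] (x₁ : X₁)
    (z : X₁.residueField x₁) : ∃ p : Polynomial (X.residueField (π x₁)), p ≠ 0 ∧
      Polynomial.eval₂ (π.residueFieldMap x₁).hom z p = 0 := by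
  let _ : Algebra (X.residueField (π x₁)) (X₁.residueField x₁) :=
    (π.residueFieldMap x₁).hom.toAlgebra
  obtain ⟨W, hW, hxW, -⟩ := exists_isAffineOpen_mem_and_subset (x := π x₁) (U := ⊤) trivial
  have hV : IsAffineOpen (π ⁻¹ᵁ W) := hW.preimage π
  have hx : x₁ ∈ π ⁻¹ᵁ W := hxW
  have hint : (π.app W).hom.IsIntegral := π.isIntegral_app W hW
  have key : ∀ b : Γ(X₁, π ⁻¹ᵁ W), IsAlgebraic (X.residueField (π x₁))
      (X₁.evaluation (π ⁻¹ᵁ W) x₁ hx b) := by
    intro b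
    obtain ⟨p, hp, hpb⟩ := hint b
    refine ⟨p.map (X.evaluation W (π x₁) hxW).hom, (hp.map _).ne_zero, ?_⟩
    rw [Polynomial.aeval_def, Polynomial.eval₂_map]
    have h1 : (algebraMap (X.residueField (π x₁)) (X₁.residueField x₁)).comp
        (X.evaluation W (π x₁) hxW).hom =
        (X₁.evaluation (π ⁻¹ᵁ W) x₁ hx).hom.comp (π.app W).hom := by
      have h2 := Scheme.evaluation_naturality π x₁ hxW
      exact congrArg (fun t => t.hom) h2
    rw [h1]
    have h3 := congrArg (X₁.evaluation (π ⁻¹ᵁ W) x₁ hx).hom hpb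
    rw [Polynomial.hom_eval₂, map_zero] at h3
    exact h3
  obtain ⟨w, rfl⟩ := X₁.residue_surjective x₁ z
  let _ := X₁.presheaf.algebra_section_stalk ⟨x₁, hx⟩
  have hloc := hV.isLocalization_stalk ⟨x₁, hx⟩
  obtain ⟨⟨a, b⟩, hab⟩ := IsLocalization.surj
    (hV.primeIdealOf ⟨x₁, hx⟩).asIdeal.primeCompl w
  have h4 : (X₁.residue x₁) w = (X₁.evaluation (π ⁻¹ᵁ W) x₁ hx a) *
      (X₁.evaluation (π ⁻¹ᵁ W) x₁ hx b)⁻¹ := by
    have hb : X₁.evaluation (π ⁻¹ᵁ W) x₁ hx b ≠ 0 := by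
      have h5 := IsLocalization.map_units (X₁.presheaf.stalk x₁) b
      have h6 : IsUnit ((X₁.residue x₁).hom (algebraMap _ (X₁.presheaf.stalk x₁) (b : Γ(X₁, π ⁻¹ᵁ W)))) :=
        h5.map (X₁.residue x₁).hom
      exact h6.ne_zero
    rw [eq_mul_inv_iff_mul_eq₀ hb]
    have h7 := congrArg (X₁.residue x₁).hom hab
    rw [map_mul] at h7
    exact h7
  have h8 : IsAlgebraic (X.residueField (π x₁)) ((X₁.residue x₁) w) := by
    rw [h4]
    exact (key a).mul (key b).inv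
  exact h8

theorem fs_gen {X : Scheme.{0}} [IsIntegral X] (p : Spec (X.presheaf.stalk (genericPoint X))) :
    X.fromSpecStalk (genericPoint X) p = genericPoint X := by
  have h : X.fromSpecStalk (genericPoint X) p ∈
      Set.range (X.fromSpecStalk (genericPoint X)) := ⟨p, rfl⟩
  rw [Scheme.range_fromSpecStalk] at h
  exact (Specializes.antisymm h (genericPoint_specializes _)).eq

/-- the generizations of a point whose local ring is a discrete valuation ring -/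
theorem dvr_gen {Y : Scheme.{0}} [IsIntegral Y] (y : Y)
    [IsDiscreteValuationRing (Y.presheaf.stalk y)] (z : Y) (h : z ⤳ y) :
    z = y ∨ z = genericPoint Y := by
  have hz : z ∈ Set.range (Y.fromSpecStalk y) := by
    rw [Scheme.range_fromSpecStalk]
    exact h
  obtain ⟨p, rfl⟩ := hz
  have hg : genericPoint Y ∈ Set.range (Y.fromSpecStalk y) := by
    rw [Scheme.range_fromSpecStalk]
    exact genericPoint_specializes y
  obtain ⟨q, hq⟩ := hg
  by_cases hp : p.asIdeal = ⊥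
  · right
    refine (Specializes.antisymm ?_ (genericPoint_specializes _)).eq
    rw [← hq]
    refine Specializes.map ?_ (Y.fromSpecStalk y).continuous
    refine (PrimeSpectrum.le_iff_specializes p q).1 ?_
    show p.asIdeal ≤ q.asIdeal
    rw [hp]
    exact bot_le
  · left
    have hm : p.asIdeal.IsMaximal := p.isPrime.isMaximal hp
    have hpc : p = IsLocalRing.closedPoint (Y.presheaf.stalk y) := by
      apply PrimeSpectrum.ext
      exact IsLocalRing.eq_maximalIdeal hm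
    rw [hpc]
    exact Scheme.fromSpecStalk_closedPoint

/-- the maximal points of a closed subset are finitely many -/
theorem fin_bad {Y : Type} [TopologicalSpace Y] [TopologicalSpace.NoetherianSpace Y]
    [QuasiSober Y] [T0Space Y] (C : Set Y) (hC : IsClosed C) (B : Set Y) (hB : B ⊆ C)
    (h : ∀ y ∈ B, ∀ z ∈ C, z ⤳ y → z = y) : B.Finite := by
  classical
  obtain ⟨S, hS, hS1, hS2, hS3⟩ :=
    TopologicalSpace.NoetherianSpace.exists_finite_set_isClosed_irreducible hC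
  let F : Set Y → Set Y := fun t => {y | IsGenericPoint y t}
  have hF : ∀ t, (F t).Finite := fun t => by
    refine Set.Subsingleton.finite ?_
    intro x hx y hy
    exact IsGenericPoint.eq hx hy
  refine (hS.biUnion fun t _ => hF t).subset ?_
  intro y hy
  have h1 := hB hy
  rw [hS3] at h1
  obtain ⟨t, ht, hyt⟩ := h1
  have h2 := (hS2 t ht).isGenericPoint_genericPoint (hS1 t ht)
  have h3 : (hS2 t ht).genericPoint ∈ C := by
    rw [hS3]
    exact ⟨t, ht, h2.mem⟩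
  have h4 : (hS2 t ht).genericPoint = y := h y hy _ h3 (h2.specializes hyt)
  refine Set.mem_biUnion ht ?_
  show IsGenericPoint y t
  rw [← h4]
  exact h2

end N9

/-- **N9** -/
theorem thm_N9 (hK1N : St_K1N) (hK2 : St_K2) (hK3 : St_K3) (hG4 : St_G4) (hRL : St_RL)
    (hKA : St_KA) (hGL : St_GL) (hNR : St_NR) (hNN : St_NN) (hN2 : St_N2) (hN3 : St_N3)
    (hN4b : St_N4b) (hN7 : St_N7) (hALb : St_ALb) : St_N9 := by
  intro 𝒮 h𝒮 d hlow X Y _ _ _ hpX hrX hkr hfY hrY φ N hφ n hcomp hY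
  obtain ⟨L, hPZ, hLK, -⟩ := hRL
  have hfX : FinType ℤ X := N9.ft_proper hpX
  have hXn : IsNoetherian X := N9.noeth hfX
  have hYn : IsNoetherian Y := N9.noeth hfY
  have hic : ∀ x : X, IsIntegrallyClosed (X.presheaf.stalk x) := hNR X hrX
  obtain ⟨X₁, hX₁, π, hπ, ε, hε, hic₁⟩ := hNN X hfX hic Y.functionField φ N hφ
  obtain ⟨X₀, hX₀, hgX₀, hLF, hFl⟩ := hN3 X X₁ π Y.functionField ε φ N hφ hε
  have hfX₁ : FinType ℤ X₁ := N9.ft_comp π hfX
  have hX₁n : IsNoetherian X₁ := N9.noeth hfX₁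
  let θ : Y.functionField ≅ X₁.functionField := ε.symm.toCommRingCatIso
  have hθ : Spec.map θ.inv ≫ X₁.fromSpecStalk (genericPoint X₁) ≫ π = etaX φ := hε
  obtain ⟨fX, hfXp⟩ := id hpX
  obtain ⟨g, hg1, hg2⟩ := id hfY
  have hOB : OverB θ (π ≫ fX) g := specZIsTerminal.hom_ext _ _
  obtain ⟨D, hD, j, hj, hDj, hDc⟩ := N9.big X₁ Y _ (π ≫ fX) g θ hOB
  have hπg : π (genericPoint X₁) = genericPoint X := by
    have h1 := G1.ap2 (f := Spec.map θ.inv) (g := X₁.fromSpecStalk (genericPoint X₁) ≫ π)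
      (h := Spec.map (CommRingCat.ofHom φ)) (k := X.fromSpecStalk (genericPoint X)) hθ
      (IsLocalRing.closedPoint Y.functionField)
    rw [N9.fs_gen] at h1
    exact (congrArg π (N9.fs_gen ((Spec.map θ.inv)
      (IsLocalRing.closedPoint Y.functionField)))).symm.trans h1
  have hgood0 : ∀ x : X, x ∉ X₀ → KrLe d (X.residueField x) := by
    intro x hx
    rcases hG4 X hrX d hkr x with h | h | h
    · exact h
    · exact absurd (h ▸ hgX₀) hx
    · exact absurd (hX₀ x h.1) hx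
  have hgood1 : ∀ x₁ : X₁, x₁ ∉ π ⁻¹ᵁ X₀ → KrLe d (X₁.residueField x₁) := fun x₁ hx =>
    hKA (X.residueField (π x₁)) (X₁.residueField x₁) (π.residueFieldMap x₁).hom
      (N9.res_alg π x₁) d (hgood0 (π x₁) hx)
  have hkrY : KrLe (d + 2) Y.functionField := by
    refine hKA X.functionField Y.functionField φ ?_ (d + 2) hkr
    intro z
    let _ := φ.toAlgebra
    have h1 : FiniteDimensional X.functionField Y.functionField := hφ.1
    have h2 : IsAlgebraic X.functionField z := Algebra.IsAlgebraic.isAlgebraic z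
    exact h2
  have hkrX₁ : KrLe (d + 2) X₁.functionField := PI.krLe_of_equiv ε.symm (d + 2) hkrY
  let P : X₁.Opens := π ⁻¹ᵁ X₀
  have hgP : genericPoint X₁ ∈ P := by
    show π (genericPoint X₁) ∈ X₀
    rw [hπg]
    exact hgX₀
  let D' : X₁.Opens := D ⊓ P
  have hgD' : genericPoint X₁ ∈ D' := ⟨hD, hgP⟩
  let a : D'.toScheme ⟶ Y := X₁.homOfLE (inf_le_left : D' ≤ D) ≫ j
  let b : D'.toScheme ⟶ P.toScheme := X₁.homOfLE (inf_le_right : D' ≤ P)
  have ha : IsOpenImmersion a := inferInstance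
  let U : Y.Opens := a.opensRange
  let e : D'.toScheme ≅ U.toScheme := a.isoOpensRange
  have he : e.inv ≫ a = U.ι := a.isoOpensRange_inv_comp
  let c : U.toScheme ⟶ P.toScheme := e.inv ≫ b
  let ρ : U.toScheme ⟶ X := c ≫ (π ∣_ X₀) ≫ X₀.ι
  have hρf : Flat ρ := inferInstance
  have hX₀n : IsNoetherian X₀.toScheme := N9.noeth (N9.ft_open X₀.ι hfX)
  have hPn : IsNoetherian P.toScheme := N9.noeth (N9.ft_open P.ι hfX₁)
  have hUn : IsNoetherian U.toScheme := N9.noeth (N9.ft_open U.ι hfY)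
  have hgU : genericPoint Y ∈ U := by
    have : Nonempty D'.toScheme := ⟨⟨_, hgD'⟩⟩
    exact ⟨genericPoint D'.toScheme, genericPoint_eq_of_isOpenImmersion a⟩
  have heta : etaU U hgU ≫ ρ = etaX φ := by
    have h1 : etaU U hgU ≫ e.inv = Spec.map θ.inv ≫ D'.fromSpecStalkOfMem _ hgD' := by
      rw [← cancel_mono a, Category.assoc, he]
      show U.fromSpecStalkOfMem _ hgU ≫ U.ι = _
      rw [Scheme.Opens.fromSpecStalkOfMem_ι, Category.assoc]
      show _ = Spec.map θ.inv ≫ D'.fromSpecStalkOfMem _ hgD' ≫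
        X₁.homOfLE (inf_le_left : D' ≤ D) ≫ j
      rw [← Category.assoc (D'.fromSpecStalkOfMem _ hgD'), G1.fs_homOfLE, hDj,
        ← Spec.map_comp_assoc, θ.hom_inv_id, Spec.map_id, Category.id_comp]
    have h2 : ρ = e.inv ≫ D'.ι ≫ π := by
      show (e.inv ≫ X₁.homOfLE (inf_le_right : D' ≤ P)) ≫ (π ∣_ X₀) ≫ X₀.ι = _
      rw [morphismRestrict_ι, Category.assoc, ← Category.assoc (X₁.homOfLE _),
        Scheme.homOfLE_ι]
    rw [h2, ← Category.assoc, h1, Category.assoc, ← Category.assoc (D'.fromSpecStalkOfMem _ hgD'),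
      Scheme.Opens.fromSpecStalkOfMem_ι]
    exact hθ
  have haU : ∀ (x₁ : X₁) (hx : x₁ ∈ D) (hx' : x₁ ∈ P), j ⟨x₁, hx⟩ ∈ U := by
    intro x₁ hx hx'
    refine ⟨(⟨x₁, hx, hx'⟩ : D'.toScheme), ?_⟩
    have h1 := G1.ap (X₁.homOfLE_ι (inf_le_left : D' ≤ D)) (⟨x₁, hx, hx'⟩ : D'.toScheme)
    have h2 : X₁.homOfLE (inf_le_left : D' ≤ D) (⟨x₁, hx, hx'⟩ : D'.toScheme) = ⟨x₁, hx⟩ :=
      Subtype.ext h1
    show j (X₁.homOfLE (inf_le_left : D' ≤ D) (⟨x₁, hx, hx'⟩ : D'.toScheme)) = _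
    rw [h2]
  let B : Set Y := {y | y ∉ U ∧ ¬ KrLe d (Y.residueField y)}
  have hBdvr : ∀ y ∈ B, IsDiscreteValuationRing (Y.presheaf.stalk y) := by
    intro y hy
    rcases hG4 Y hrY d hkrY y with h | h | h
    · exact absurd h hy.2
    · exact absurd (h ▸ hgU) hy.1
    · exact h.1
  have hBmax : ∀ y ∈ B, ∀ z : Y, z ∉ U → z ⤳ y → z = y := by
    intro y hy z hz hzy
    have := hBdvr y hy
    rcases N9.dvr_gen y z hzy with h | h
    · exact h
    · exact absurd (h ▸ hgU) hz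
  have hBfin : B.Finite :=
    N9.fin_bad (U : Set Y)ᶜ U.isOpen.isClosed_compl B (fun y hy => hy.1) hBmax
  have hBext : ∀ y ∈ B, ExtAt L U ρ y := by
    intro y hy
    refine hN7 L hPZ d X X₁ Y hpX hrX hkr hfY φ N hφ π θ hθ hic₁ U hgU ρ heta y hy.1
      (hBdvr y hy) hy.2 (fun x₁ hc => ?_)
    obtain ⟨hx, hxy⟩ := hDc x₁ y hc
    by_cases hxP : x₁ ∈ P
    · exact hy.1 (hxy ▸ haU x₁ hx hxP)
    · obtain ⟨e'⟩ := N9.res_compat hc
      exact hy.2 (PI.krLe_of_equiv e' d (hgood1 x₁ hxP))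
  obtain ⟨Y', hUY', hsY', hext⟩ := hGL L X Y U ρ hBfin.toFinset
    (fun y hy => (hBfin.mem_toFinset.1 hy).1)
    (fun y hy z hz hyz => (hBmax y (hBfin.mem_toFinset.1 hy) z (hBfin.mem_toFinset.1 hz).1
      (specializes_iff_mem_closure.2 hyz)).symm)
    (fun y hy => hBext y (hBfin.mem_toFinset.1 hy))
  have hY' : 𝒮 (KX n Y'.toScheme) := by
    refine (hK3 𝒮 h𝒮 Y Y'.toScheme Y'.ι hfY (fun y hy => hK2 𝒮 h𝒮 d hlow _ ?_) n).1 hY
    by_contra hcon
    refine hy ?_
    rw [Scheme.Opens.range_ι]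
    by_cases hyU : y ∈ U
    · exact hUY' hyU
    · exact hsY' y (hBfin.mem_toFinset.2 ⟨hyU, hcon⟩)
  have hX₀ne : Nonempty X₀.toScheme := ⟨⟨_, hgX₀⟩⟩
  have hX₀i : IsIntegral X₀.toScheme := inferInstance
  have hkrX₀ : KrLe (d + 2) X₀.toScheme.functionField := by
    obtain ⟨e'⟩ := N9.ff_open X₀.ι
    exact PI.krLe_of_equiv e' (d + 2) hkr
  obtain ⟨Z₂, i₂, hi₂, hkZ₂, hm⟩ := hN4b L d X₀.toScheme P.toScheme (π ∣_ X₀) N hLF hkrX₀
  have hZ₂ : 𝒮 (KX n Z₂) := hlow Z₂ (N9.ft_comp i₂ (N9.ft_open X₀.ι hfX)) hkZ₂ n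
  have hk1 : 𝒮 ((L.th n).pull X₀.ι).ker := by
    refine N9.ker_mem hK1N h𝒮 L hLK n X₀.ι hfX (fun x hx => ?_)
    refine N9.goodN_of (hK2 𝒮 h𝒮 d hlow _ (hgood0 x (fun h => hx ?_))) n
    rw [Scheme.Opens.range_ι]
    exact h
  have hk2 : 𝒮 ((L.th n).pull c).ker := by
    refine N9.ker_mem hK1N h𝒮 L hLK n c (N9.ft_open P.ι hfX₁) (fun x hx => ?_)
    obtain ⟨e'⟩ := N9.res_open P.ι x
    refine N9.goodN_iso e' ?_
    have hxD' : P.ι x ∉ D' := by
      intro hxD
      apply hx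
      let z : D'.toScheme := ⟨P.ι x, hxD⟩
      refine ⟨e.hom z, ?_⟩
      have h1 : c (e.hom z) = b z := G1.ap (f := e.hom) (g := c) (h := b)
        (e.hom_inv_id_assoc b) z
      have h2 := G1.ap (X₁.homOfLE_ι (inf_le_right : D' ≤ P)) z
      rw [h1]
      exact Subtype.ext h2
    have hxP : P.ι x ∈ P := x.2
    rcases hN2 X₁ hic₁ d hkrX₁ (P.ι x) with h | h | h
    · exact N9.goodN_of (hK2 𝒮 h𝒮 d hlow _ h) n
    · exact absurd (h ▸ hgD') hxD'
    · by_contra hcon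
      obtain ⟨y, hy⟩ := hcomp X₁ θ hfX₁ (P.ι x) h.1 hcon
      obtain ⟨hxD, -⟩ := hDc _ _ hy
      exact hxD' ⟨hxD, hxP⟩
  obtain ⟨eX⟩ := hLK n X
  obtain ⟨eY'⟩ := hLK n Y'.toScheme
  obtain ⟨eZ₂⟩ := hLK n Z₂
  refine N9.mulIn_iso h𝒮 eX _ (hALb 𝒮 h𝒮 _ _ _ _ _ _ ((L.th n).pull X₀.ι)
    ((L.th n).pull (π ∣_ X₀)) ((L.th n).push (π ∣_ X₀)) ((L.th n).pull c)
    ((L.th n).pull (Y.homOfLE hUY')) ((L.th n).push i₂) N hk1 hk2 ((N9.iso_iff h𝒮 eY').2 hY')
    ((N9.iso_iff h𝒮 eZ₂).2 hZ₂) ?_ (hm n))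
  intro α
  obtain ⟨β, hβ⟩ := hext n α
  have e1 := (L.th n).pull_comp c ((π ∣_ X₀) ≫ X₀.ι) α
  have e2 := (L.th n).pull_comp (π ∣_ X₀) X₀.ι α
  exact ⟨β, hβ.trans (e1.trans (congrArg ((L.th n).pull c) e2))⟩

end Pool.Agent.BTF
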