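import Pool.Agent.BTF.St3

/-!
# BTF: NB, from `Unram` to `ExtAt`

MP_e17fa799_al.
-/

set_option autoImplicit false

noncomputable section

namespace Pool.Agent.BTF

open CategoryTheory CategoryTheory.Limits AlgebraicGeometry Pool.Agent.KPR Pool.Agent.KTX
open Pool.Agent.KGT.W (SerreClass FinType)

namespace NB

/-! ### closed sets near a point whose local ring is a discrete valuation ring -/

theorem two_pts (Y : Scheme.{0}) [IsIntegral Y] (y z : Y)
    (hy : IsDiscreteValuationRing (Y.presheaf.stalk y)) (h : z ⤳ y) :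
    z = y ∨ z = genericPoint Y := by
  have h1 : z ∈ Set.range (Y.fromSpecStalk y) := by
    rw [Scheme.range_fromSpecStalk]
    exact h
  have h2 : genericPoint Y ∈ Set.range (Y.fromSpecStalk y) := by
    rw [Scheme.range_fromSpecStalk]
    exact (genericPoint_spec Y).specializes trivial
  obtain ⟨p, hp⟩ := h1
  obtain ⟨q, hq⟩ := h2
  by_cases hp0 : p.asIdeal = ⊥
  · right
    have h3 : p ⤳ q := by
      refine (PrimeSpectrum.le_iff_specializes (R := Y.presheaf.stalk y) p q).1 ?_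
      show p.asIdeal ≤ q.asIdeal
      rw [hp0]
      exact bot_le
    have h4 : z ⤳ genericPoint Y := by
      rw [← hp, ← hq]
      exact h3.map (Y.fromSpecStalk y).continuous
    exact (h4.antisymm (genericPoint_specializes z)).eq
  · left
    have h3 : p.asIdeal.IsMaximal := p.2.isMaximal hp0
    have h4 : p = IsLocalRing.closedPoint (Y.presheaf.stalk y) :=
      PrimeSpectrum.ext (IsLocalRing.eq_maximalIdeal h3)
    rw [← hp, h4]
    exact Scheme.fromSpecStalk_closedPoint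

theorem near (Y : Scheme.{0}) [IsIntegral Y] [IsNoetherian Y] (y : Y)
    (hy : IsDiscreteValuationRing (Y.presheaf.stalk y)) (Z : Set Y) (hZ : IsClosed Z)
    (hg : genericPoint Y ∉ Z) :
    ∃ W : Y.Opens, y ∈ W ∧ ∀ z ∈ W, z ∈ Z → z ∈ closure ({y} : Set Y) := by
  obtain ⟨S, hSf, hSc, hSi, hS⟩ :=
    TopologicalSpace.NoetherianSpace.exists_finite_set_isClosed_irreducible hZ
  have hfin : {t | t ∈ S ∧ y ∉ t}.Finite := hSf.subset fun t ht => ht.1
  refine ⟨⟨(⋃₀ {t | t ∈ S ∧ y ∉ t})ᶜ, ?_⟩, ?_, ?_⟩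
  · rw [isOpen_compl_iff, Set.sUnion_eq_biUnion]
    exact hfin.isClosed_biUnion fun t ht => hSc t ht.1
  · rintro ⟨t, ht, hyt⟩
    exact ht.2 hyt
  · intro z hzW hz
    rw [hS] at hz
    obtain ⟨t, ht, hzt⟩ := hz
    have hyt : y ∈ t := by
      by_contra hc
      exact hzW ⟨t, ⟨ht, hc⟩, hzt⟩
    have hgen := (hSi t ht).isGenericPoint_genericPoint_closure
    rw [(hSc t ht).closure_eq] at hgen
    set x := (hSi t ht).genericPoint
    have h1 : x ⤳ y := hgen.specializes hyt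
    rcases two_pts Y y x hy h1 with h2 | h2
    · rw [← h2, hgen.def]
      exact hzt
    · exfalso
      apply hg
      rw [hS, ← h2]
      exact ⟨t, ht, hgen.mem⟩

/-! ### algebra -/

theorem lift_inj {D V B : Type} [CommRing D] [CommRing V] [CommRing B] (g : D →+* V)
    (hg : Function.Injective g) (δ : B →+* V) (h : ∀ b, ∃ d, g d = δ b) :
    ∃ κ : B →+* D, g.comp κ = δ := by
  choose f hf using h
  refine ⟨{ toFun := f, map_one' := ?_, map_mul' := ?_, map_zero' := ?_, map_add' := ?_ }, ?_⟩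
  · apply hg
    rw [hf, map_one, map_one]
  · intro x y
    apply hg
    rw [hf, map_mul, map_mul, hf, hf]
  · apply hg
    rw [hf, map_zero, map_zero]
  · intro x y
    apply hg
    rw [hf, map_add, map_add, hf, hf]
  · ext b
    exact hf b

theorem adj_range {D V B : Type} [CommRing D] [CommRing V] [CommRing B] (g : D →+* V)
    (δ : B →+* V) (s : Set B) (hs : Algebra.adjoin ℤ s = ⊤) (h : ∀ b ∈ s, ∃ d, g d = δ b) :
    ∀ b, ∃ d, g d = δ b := by
  intro b
  have hb : b ∈ Algebra.adjoin ℤ s := by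
    rw [hs]
    exact Algebra.mem_top
  refine Algebra.adjoin_induction (fun x hx => h x hx) (fun n => ?_) ?_ ?_ hb
  · exact ⟨n, by rw [map_intCast, eq_intCast, map_intCast]⟩
  · rintro x y - - ⟨c, hc⟩ ⟨d, hd⟩
    exact ⟨c + d, by rw [map_add, map_add, hc, hd]⟩
  · rintro x y - - ⟨c, hc⟩ ⟨d, hd⟩
    exact ⟨c * d, by rw [map_mul, map_mul, hc, hd]⟩

theorem clear {D B : Type} [CommRing D] [CommRing B] (κ : B →+* D) (P : B → Prop) (h1 : P 1)
    (hmul : ∀ x y, P x → P y → P (x * y)) (t : Finset D) (ht : Algebra.adjoin ℤ (t : Set D) = ⊤)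
    (h : ∀ d : D, ∃ a b, P b ∧ κ b * d = κ a) :
    ∃ b, P b ∧ ∀ d : D, ∃ (m : ℕ) (a : B), κ b ^ m * d = κ a := by
  classical
  choose A E hE hAE using h
  refine ⟨∏ c ∈ t, E c, ?_, ?_⟩
  · exact Finset.prod_induction _ P hmul h1 fun c _ => hE c
  · intro d
    have hd : d ∈ Algebra.adjoin ℤ (t : Set D) := by
      rw [ht]
      exact Algebra.mem_top
    refine Algebra.adjoin_induction (fun x hx => ?_) (fun n => ?_) ?_ ?_ hd
    · refine ⟨1, (∏ c ∈ t.erase x, E c) * A x, ?_⟩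
      rw [pow_one, ← Finset.mul_prod_erase t E hx, map_mul, map_mul, ← hAE x]
      ring
    · exact ⟨0, n, by rw [pow_zero, one_mul, eq_intCast, map_intCast]⟩
    · rintro x y - - ⟨m, a, ha⟩ ⟨m', a', ha'⟩
      refine ⟨m + m', (∏ c ∈ t, E c) ^ m' * a + (∏ c ∈ t, E c) ^ m * a', ?_⟩
      rw [map_add, map_mul, map_mul, map_pow, map_pow, ← ha, ← ha']
      ring
    · rintro x y - - ⟨m, a, ha⟩ ⟨m', a', ha'⟩
      refine ⟨m + m', a * a', ?_⟩
      rw [map_mul, ← ha, ← ha']
      ring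

theorem flat_loc {B D D' : Type} [CommRing B] [CommRing D] [CommRing D'] (κ : B →+* D)
    (hκ : Function.Injective κ) (b : B) (h : ∀ d : D, ∃ (m : ℕ) (a : B), κ b ^ m * d = κ a)
    (r : D →+* D') (hr : IsLoc (κ b) r) (hinj : Function.Injective r) : (r.comp κ).Flat := by
  let : Algebra D D' := r.toAlgebra
  have : IsLocalization.Away (κ b) D' := hr
  let : Algebra B D' := (r.comp κ).toAlgebra
  have hu : IsUnit (r (κ b)) := IsLocalization.Away.algebraMap_isUnit (κ b)
  have hloc : IsLocalization (Submonoid.powers b) D' := by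
    refine ⟨?_, ?_, ?_⟩
    · rintro ⟨_, m, rfl⟩
      show IsUnit (r (κ (b ^ m)))
      rw [map_pow, map_pow]
      exact hu.pow m
    · intro z
      obtain ⟨⟨d, ⟨_, m, rfl⟩⟩, hd⟩ := IsLocalization.surj (Submonoid.powers (κ b)) z
      obtain ⟨m', a, ha⟩ := h d
      refine ⟨⟨a, ⟨b ^ (m + m'), m + m', rfl⟩⟩, ?_⟩
      show z * r (κ (b ^ (m + m'))) = r (κ a)
      have hd' : z * r (κ b ^ m) = r d := hd
      rw [← ha, map_mul, ← hd', map_pow κ, pow_add, map_mul]
      ring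
    · intro x y hxy
      refine ⟨1, ?_⟩
      have h3 : r (κ x) = r (κ y) := hxy
      rw [hκ (hinj h3)]
  show Module.Flat B D'
  exact IsLocalization.flat D' (Submonoid.powers b)

/-! ### geometry -/

theorem ft (Y : Scheme.{0}) (f : Y ⟶ Spec (CommRingCat.of ℤ)) [LocallyOfFiniteType f]
    (W : Y.Opens) (hW : IsAffineOpen W) : Algebra.FiniteType ℤ Γ(Y, W) := by
  have h1 : RingHom.FiniteType (f.appLE ⊤ W le_top).hom :=
    HasRingHomProperty.appLE (P := @LocallyOfFiniteType) f inferInstance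
      ⟨⊤, isAffineOpen_top _⟩ ⟨W, hW⟩ le_top
  have h2 : RingHom.FiniteType (Scheme.ΓSpecIso (CommRingCat.of ℤ)).inv.hom :=
    RingHom.FiniteType.of_surjective _
      (Scheme.ΓSpecIso (CommRingCat.of ℤ)).symm.commRingCatIsoToRingEquiv.surjective
  have h3 := h1.comp h2
  rw [← RingHom.finiteType_algebraMap]
  rwa [Subsingleton.elim (algebraMap ℤ Γ(Y, W)) _]

theorem fin_open (Y : Scheme.{0}) (y : Y) {B : Type} (δ : B → Y.presheaf.stalk y)
    (s : Finset B) : ∃ (U : Y.Opens) (hy : y ∈ U), ∀ b ∈ s, ∃ c : Γ(Y, U),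
      (Y.presheaf.germ U y hy).hom c = δ b := by
  classical
  induction s using Finset.induction_on with
  | empty => exact ⟨⊤, trivial, fun b hb => absurd hb (Finset.notMem_empty b)⟩
  | insert a s ha ih =>
    obtain ⟨U, hy, hU⟩ := ih
    obtain ⟨V, hyV, c, hc⟩ := Y.presheaf.exists_germ_eq (δ a)
    refine ⟨U ⊓ V, ⟨hy, hyV⟩, fun b hb => ?_⟩
    rcases Finset.mem_insert.1 hb with rfl | hb
    · refine ⟨(Y.presheaf.map (homOfLE inf_le_right).op).hom c, ?_⟩
      rw [← hc]
      exact Y.presheaf.germ_res_apply _ _ _ _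
    · obtain ⟨d, hd⟩ := hU b hb
      refine ⟨(Y.presheaf.map (homOfLE inf_le_left).op).hom d, ?_⟩
      rw [← hd]
      exact Y.presheaf.germ_res_apply _ _ _ _

/-- a flat chart -/
theorem model (Y : Scheme.{0}) [IsIntegral Y] (f : Y ⟶ Spec (CommRingCat.of ℤ))
    [LocallyOfFiniteType f] (y : Y) (B : Type) [CommRing B] [Algebra.FiniteType ℤ B]
    (δ : B →+* Y.presheaf.stalk y) (hδ : Function.Injective δ)
    (hfr : ∀ v : Y.presheaf.stalk y, ∃ a b : B, IsUnit (δ b) ∧ δ b * v = δ a) :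
    ∃ (W : Y.Opens) (_ : IsAffineOpen W) (hy : y ∈ W) (κ : B →+* Γ(Y, W)), κ.Flat ∧
      (Y.presheaf.germ W y hy).hom.comp κ = δ := by
  obtain ⟨s, hs⟩ := (Algebra.FiniteType.out : (⊤ : Subalgebra ℤ B).FG)
  obtain ⟨U, hyU, hU⟩ := fin_open Y y δ s
  obtain ⟨W₁, hW₁, hy₁, hWU⟩ := exists_isAffineOpen_mem_and_subset hyU
  have hle : W₁ ≤ U := hWU
  set g := (Y.presheaf.germ W₁ y hy₁).hom with hg
  have hginj : Function.Injective g := germ_injective_of_isIntegral Y y hy₁
  have h1 : ∀ b ∈ (s : Set B), ∃ d, g d = δ b := by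
    intro b hb
    obtain ⟨c, hc⟩ := hU b hb
    refine ⟨(Y.presheaf.map (homOfLE hle).op).hom c, ?_⟩
    rw [← hc]
    exact Y.presheaf.germ_res_apply _ _ _ _
  obtain ⟨κ₁, hκ₁⟩ := lift_inj g hginj δ (adj_range g δ s hs h1)
  have hκ : ∀ b, g (κ₁ b) = δ b := fun b => RingHom.congr_fun hκ₁ b
  have hκinj : Function.Injective κ₁ := by
    intro x x' h
    apply hδ
    rw [← hκ, ← hκ, h]
  have := ft Y f W₁ hW₁
  obtain ⟨t, ht⟩ := (Algebra.FiniteType.out : (⊤ : Subalgebra ℤ Γ(Y, W₁)).FG)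
  obtain ⟨b, hb, hbc⟩ := clear κ₁ (fun b => IsUnit (δ b)) (by rw [map_one]; exact isUnit_one)
    (fun x x' hx hx' => by rw [map_mul]; exact hx.mul hx') t ht (fun d => by
      obtain ⟨a, b, hb, hab⟩ := hfr (g d)
      refine ⟨a, b, hb, hginj ?_⟩
      rw [map_mul, hκ, hκ, hab])
  have hyW : y ∈ Y.basicOpen (κ₁ b) := by
    have : IsUnit (g (κ₁ b)) := by rw [hκ]; exact hb
    exact (Scheme.mem_basicOpen Y (κ₁ b) y hy₁).2 this
  have hgerm : ∀ d, (Y.presheaf.germ (Y.basicOpen (κ₁ b)) y hyW).hom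
      ((Y.presheaf.map (homOfLE (Y.basicOpen_le (κ₁ b))).op).hom d) = g d :=
    fun d => Y.presheaf.germ_res_apply _ _ _ _
  refine ⟨Y.basicOpen (κ₁ b), hW₁.basicOpen _, hyW,
    (Y.presheaf.map (homOfLE (Y.basicOpen_le (κ₁ b))).op).hom.comp κ₁, ?_, ?_⟩
  · refine flat_loc κ₁ hκinj b hbc _ (hW₁.isLocalization_basicOpen (κ₁ b)) ?_
    intro d d' h
    apply hginj
    rw [← hgerm, ← hgerm, h]
  · ext x
    exact (hgerm (κ₁ x)).trans (hκ x)

theorem dom_gen (X : Scheme.{0}) [IsIntegral X] : IsDominant (X.fromSpecStalk (genericPoint X)) := by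
  refine ⟨?_⟩
  have h1 : genericPoint X ∈ Set.range (X.fromSpecStalk (genericPoint X)) :=
    ⟨_, Scheme.fromSpecStalk_closedPoint⟩
  rw [denseRange_iff_closure_range, ← Set.univ_subset_iff]
  have h2 : closure {genericPoint X} = (Set.univ : Set X) := genericPoint_closure X
  have h3 : closure {genericPoint X} ⊆ closure (Set.range (X.fromSpecStalk (genericPoint X))) :=
    closure_mono (Set.singleton_subset_iff.2 h1)
  rw [h2] at h3
  exact h3

theorem dom_open {X : Scheme.{0}} [IsIntegral X] (U : X.Opens) (h : genericPoint X ∈ U) :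
    IsDominant (U.fromSpecStalkOfMem (genericPoint X) h) := by
  have h0 := dom_gen X
  have h1 : IsDominant (U.fromSpecStalkOfMem (genericPoint X) h ≫ U.ι) := by
    rw [Scheme.Opens.fromSpecStalkOfMem_ι]
    infer_instance
  exact IsDominant.of_comp_of_isOpenImmersion _ U.ι

theorem fs_homOfLE {X : Scheme.{0}} (U D : X.Opens) (hUD : U ≤ D) (x : X) (hx : x ∈ U) :
    U.fromSpecStalkOfMem x hx ≫ X.homOfLE hUD = D.fromSpecStalkOfMem x (hUD hx) := by
  rw [← cancel_mono D.ι, Category.assoc, Scheme.homOfLE_ι, Scheme.Opens.fromSpecStalkOfMem_ι,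
    Scheme.Opens.fromSpecStalkOfMem_ι]

theorem noeth_ft {X : Scheme.{0}} (h : FinType ℤ X) : IsNoetherian X := by
  obtain ⟨f, hf, hq⟩ := h
  exact { __ := LocallyOfFiniteType.isLocallyNoetherian f
          toCompactSpace := QuasiCompact.compactSpace_of_compactSpace f }

theorem noeth_open {X Y : Scheme.{0}} (f : X ⟶ Y) [IsNoetherian Y] [IsOpenImmersion f] :
    IsNoetherian X :=
  { __ := isLocallyNoetherian_of_isOpenImmersion f
    toCompactSpace := by
      have : TopologicalSpace.NoetherianSpace X :=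
        f.isOpenEmbedding.isInducing.noetherianSpace
      infer_instance }

theorem pull_congr (T : STh.{1}) {X Y : Scheme.{0}} {f g : X ⟶ Y} [Flat f] [Flat g] (h : f = g)
    (x : T.T Y) : T.pull f x = T.pull g x := by
  subst h
  rfl

theorem open_Sm {A V : Type} [CommRing A] [CommRing V] {s : A} {l : A →+* V}
    (h : IsLoc s l) : IsOpenImmersion (Sm l) := by
  let : Algebra A V := l.toAlgebra
  have : IsLocalization.Away s V := h
  exact IsOpenImmersion.of_isLocalization s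

/-- flatness can be checked after an open immersion -/
theorem flat_of {X Y Z : Scheme.{0}} (f : X ⟶ Y) (g : Y ⟶ Z) [IsOpenImmersion g]
    (h : Flat (f ≫ g)) : Flat f := by
  refine Flat.of_stalkMap _ fun x => ?_
  have h1 := Flat.stalkMap (f ≫ g) x
  rw [Scheme.Hom.stalkMap_comp] at h1
  have e : (f.stalkMap x).hom = ((g.stalkMap (f x) ≫ f.stalkMap x).hom).comp
      (inv (g.stalkMap (f x))).hom := by
    rw [← CommRingCat.hom_comp, IsIso.inv_hom_id_assoc]
  rw [e]
  refine RingHom.Flat.comp ?_ h1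
  exact RingHom.Flat.of_bijective (ConcreteCategory.bijective_of_isIso (inv (g.stalkMap (f x))))

theorem lift_loc {A V C : Type} [CommRing A] [CommRing V] [CommRing C] {s : A} {l : A →+* V}
    (h : IsLoc s l) (f : A →+* C) (hf : IsUnit (f s)) : ∃ g : V →+* C, g.comp l = f := by
  let : Algebra A V := l.toAlgebra
  have : IsLocalization.Away s V := h
  exact ⟨IsLocalization.Away.lift s hf, IsLocalization.Away.lift_comp s hf⟩

/-- the morphism of an affine open set to the spectrum of a ring -/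
def mor {Y : Scheme.{0}} {A : Type} [CommRing A] (W : Y.Opens) (κ : A →+* Γ(Y, W)) :
    W.toScheme ⟶ Sp A := W.toSpecΓ ≫ Spec.map (CommRingCat.ofHom κ)

theorem mor_flat {Y : Scheme.{0}} {A : Type} [CommRing A] (W : Y.Opens) (hW : IsAffineOpen W)
    (κ : A →+* Γ(Y, W)) (h : κ.Flat) : Flat (mor W κ) := by
  have h1 : IsIso W.toSpecΓ := by
    rw [← hW.isoSpec_hom]
    infer_instance
  have h2 : Flat (Spec.map (CommRingCat.ofHom κ)) := by
    rw [Flat.SpecMap_iff]
    exact h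
  unfold mor
  infer_instance

theorem mor_res {Y : Scheme.{0}} {A : Type} [CommRing A] (W D : Y.Opens) (hDW : D ≤ W)
    (κ : A →+* Γ(Y, W)) : Y.homOfLE hDW ≫ mor W κ =
      mor D ((Y.presheaf.map (homOfLE hDW).op).hom.comp κ) := by
  unfold mor
  rw [← Category.assoc, ← Scheme.Opens.toSpecΓ_SpecMap_presheaf_map D W hDW, Category.assoc,
    ← Spec.map_comp]
  rfl

theorem mor_comp {Y : Scheme.{0}} {A V : Type} [CommRing A] [CommRing V] (W : Y.Opens)
    (κ : V →+* Γ(Y, W)) (l : A →+* V) : mor W κ ≫ Sm l = mor W (κ.comp l) := by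
  unfold mor
  rw [Category.assoc, ← Spec.map_comp]
  rfl

theorem fs_mor {Y : Scheme.{0}} {A : Type} [CommRing A] (W : Y.Opens) (κ : A →+* Γ(Y, W)) (x : Y)
    (hx : x ∈ W) : W.fromSpecStalkOfMem x hx ≫ mor W κ =
      Spec.map (CommRingCat.ofHom ((Y.presheaf.germ W x hx).hom.comp κ)) := by
  unfold mor
  rw [← Category.assoc, Scheme.Opens.fromSpecStalkOfMem_toSpecΓ, ← Spec.map_comp]
  rfl

end NB

open NB in
/-- **NB** -/
theorem thm_NB (hCF : St_CF) : St_NB := by
  intro L X Y _ _ _ _ hX hYf φ N hφ U hU ρ _ hρ y hyU hyD V _ _ _ _ _ ψ hψ hcomp hun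
  obtain ⟨A, _, _, _, j, w, W₀, _, l, k, i, hj, hfrac, hw, hl, hi, hk, hη, -, hext⟩ := hun
  obtain ⟨B, _, _, _, γ, δ, hγ, hδ, hcomm, hfr⟩ := hCF X.functionField Y.functionField V
    (Y.presheaf.stalk y) φ N ψ hφ hψ (fun v => hcomp v) A j hj hfrac
  have nX := noeth_ft hX
  have nY := noeth_ft hYf
  obtain ⟨fY, hfY, -⟩ := hYf
  obtain ⟨W', hW', hy', κ, hκ, hgerm⟩ := model Y fY y B δ hδ hfr
  -- injectivity of `ψ`
  have hψinj : ∀ v : V, ψ v = 0 → v = 0 := by
    intro v hv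
    have h1 := hcomp v
    rw [hv, map_zero, map_eq_zero] at h1
    exact (IsFractionRing.injective V X.functionField) (by rw [h1, map_zero])
  set u : Γ(Y, W') := κ (γ w) with hu
  have hgu : (Y.presheaf.germ W' y hy').hom u = ψ (j w) := by
    have h1 := RingHom.congr_fun hgerm (γ w)
    have h2 := RingHom.congr_fun hcomm w
    exact h1.trans h2
  have hu0 : u ≠ 0 := by
    intro h0
    rw [h0, map_zero] at hgu
    have h1 := hψinj _ hgu.symm
    exact hw (hj (by rw [h1, map_zero]))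
  have hgW' : genericPoint Y ∈ W' := (genericPoint_specializes y).mem_open W'.2 hy'
  have hgD : genericPoint Y ∈ Y.basicOpen u := by
    refine (Scheme.mem_basicOpen Y u _ hgW').2 ?_
    have h1 : (Y.presheaf.germ W' (genericPoint Y) hgW').hom u ≠ 0 := by
      intro h0
      exact hu0 (germ_injective_of_isIntegral Y (genericPoint Y) hgW' (by
        rw [map_zero]
        exact h0))
    exact IsUnit.mk0 (G₀ := Y.functionField) _ h1
  obtain ⟨W₁, hy₁, hW₁⟩ := near Y y hyD ((U : Set Y)ᶜ ∪ (Y.basicOpen u : Set Y)ᶜ)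
    (U.2.isClosed_compl.union (Y.basicOpen u).2.isClosed_compl) (by
      rintro (h | h)
      · exact h hU
      · exact h hgD)
  intro F hF hyF
  let W : Y.Opens := W' ⊓ W₁ ⊓ ⟨Fᶜ, hF.isOpen_compl⟩
  refine ⟨W, ⟨⟨hy', hy₁⟩, hyF⟩, ?_, fun z hz hzU => hW₁ z hz.1.2 (Or.inl hzU), ?_⟩
  · rw [Set.disjoint_left]
    intro z hz hzF
    exact hz.2 hzF
  intro n α
  have hWW' : W ≤ W' := fun z hz => hz.1.1
  have hTD : W ⊓ U ≤ Y.basicOpen u := by
    intro z hz
    by_contra hc
    have h1 := hW₁ z hz.1.1.2 (Or.inr hc)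
    exact hyU ((specializes_iff_mem_closure.2 h1).mem_open U.2 hz.2)
  have hgT : genericPoint Y ∈ W ⊓ U :=
    ⟨(genericPoint_specializes y).mem_open W.2 ⟨⟨hy', hy₁⟩, hyF⟩, hU⟩
  have hDW : Y.basicOpen u ≤ W' := Y.basicOpen_le u
  set r : Γ(Y, W') →+* Γ(Y, Y.basicOpen u) := (Y.presheaf.map (homOfLE hDW).op).hom with hr
  have hunit : IsUnit ((r.comp (κ.comp γ)) w) := RingedSpace.isUnit_res_basicOpen _ u
  obtain ⟨lw, hlw⟩ := lift_loc hl (r.comp (κ.comp γ)) hunit
  have hfl0 : Flat (mor W' (κ.comp γ)) := mor_flat W' hW' _ (RingHom.Flat.comp hγ hκ)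
  let g : W.toScheme ⟶ Sp A := Y.homOfLE hWW' ≫ mor W' (κ.comp γ)
  have hg : Flat g := inferInstance
  let h : (W ⊓ U : Y.Opens).toScheme ⟶ Sp W₀ := Y.homOfLE hTD ≫ mor (Y.basicOpen u) lw
  have hh : h ≫ Sm l = Y.homOfLE (inf_le_left : W ⊓ U ≤ W) ≫ g := by
    show (Y.homOfLE hTD ≫ mor (Y.basicOpen u) lw) ≫ Sm l =
      Y.homOfLE (inf_le_left : W ⊓ U ≤ W) ≫ Y.homOfLE hWW' ≫ mor W' (κ.comp γ)
    rw [Category.assoc, mor_comp, hlw, hr, ← mor_res, ← Category.assoc, ← Category.assoc,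
      Scheme.homOfLE_homOfLE, Scheme.homOfLE_homOfLE]
  have ho : IsOpenImmersion (Sm l) := open_Sm hl
  have hhf : Flat (h ≫ Sm l) := by
    rw [hh]
    infer_instance
  have hhf' : Flat h := flat_of h (Sm l) hhf
  have hhi : h ≫ i = Y.homOfLE (inf_le_right : W ⊓ U ≤ U) ≫ ρ := by
    have hd := dom_open (W ⊓ U) hgT
    refine ext_of_isDominant ((W ⊓ U).fromSpecStalkOfMem (genericPoint Y) hgT) ?_
    have h1 : (W ⊓ U).fromSpecStalkOfMem (genericPoint Y) hgT ≫ h =
        Spec.map (CommRingCat.ofHom φ) ≫ Sm k := by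
      rw [← cancel_mono (Sm l), Category.assoc, hh]
      show (W ⊓ U).fromSpecStalkOfMem (genericPoint Y) hgT ≫
        Y.homOfLE (inf_le_left : W ⊓ U ≤ W) ≫ Y.homOfLE hWW' ≫ mor W' (κ.comp γ) = _
      rw [← Category.assoc, fs_homOfLE, ← Category.assoc, fs_homOfLE, fs_mor, Category.assoc,
        ← Spec.map_comp, ← Spec.map_comp]
      congr 1
      ext a
      have e1 : (Y.presheaf.germ W' (genericPoint Y) hgW').hom (κ (γ a)) =
          (toF Y y).hom ((Y.presheaf.germ W' y hy').hom (κ (γ a))) := by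
        have e2 := Y.presheaf.germ_stalkSpecializes (U := W') hy'
          ((genericPoint_spec Y).specializes trivial : genericPoint Y ⤳ y)
        rw [← e2]
        rfl
      have e3 : (Y.presheaf.germ W' y hy').hom (κ (γ a)) = ψ (j a) :=
        (RingHom.congr_fun hgerm (γ a)).trans (RingHom.congr_fun hcomm a)
      have e4 : k (l a) = algebraMap V X.functionField (j a) := RingHom.congr_fun hk a
      show (Y.presheaf.germ W' (genericPoint Y) hgW').hom (κ (γ a)) = φ (k (l a))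
      rw [e1, e3, e4, hcomp]
    rw [← Category.assoc, h1, ← Category.assoc, fs_homOfLE, Category.assoc, hη]
    exact hρ.symm
  have nA : IsNoetherianRing A := Algebra.FiniteType.isNoetherianRing ℤ A
  have nSA : IsNoetherian (Sp A) := inferInstance
  have nW₀ : IsNoetherian (Sp W₀) := noeth_open (Sm l)
  have nW : IsNoetherian W.toScheme := noeth_open W.ι
  have nU : IsNoetherian U.toScheme := noeth_open U.ι
  have nT : IsNoetherian (W ⊓ U : Y.Opens).toScheme := noeth_open (W ⊓ U : Y.Opens).ι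
  obtain ⟨β, hβ⟩ := hext inferInstance inferInstance n α
  refine ⟨(L.th n).pull g β, ?_⟩
  rw [← (L.th n).pull_comp, ← (L.th n).pull_comp, pull_congr (L.th n) hh.symm,
    (L.th n).pull_comp, hβ, ← (L.th n).pull_comp, pull_congr (L.th n) hhi]

end Pool.Agent.BTF
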