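import Pool.Agent.BTF.St3
import Mathlib.AlgebraicGeometry.Normalization
import Mathlib.RingTheory.LocalProperties.IntegrallyClosed
import Mathlib.RingTheory.DedekindDomain.IntegralClosure

/-!
# BTF: the normalisation in a finite separable extension (module NN, helper94)
-/

set_option autoImplicit false

noncomputable section

namespace Pool.Agent.BTF

open CategoryTheory CategoryTheory.Limits AlgebraicGeometry TopologicalSpace Pool.Agent.KTX

namespace NN

/-- sections over an affine open set, if the stalks are integrally closed -/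
theorem closed {X : Scheme.{0}} [IsIntegral X] (h : ∀ x : X, IsIntegrallyClosed (X.presheaf.stalk x))
    {U : X.Opens} (hU : IsAffineOpen U) [Nonempty U] : IsIntegrallyClosed Γ(X, U) := by
  let (x : PrimeSpectrum Γ(X, U)) : Algebra Γ(X, U) (X.presheaf.stalk (hU.fromSpec x)) :=
    TopCat.Presheaf.algebra_section_stalk X.presheaf ⟨hU.fromSpec x, (hU.isoSpec.inv _).2⟩
  have (P : Ideal Γ(X, U)) [hP : P.IsPrime] :
      IsLocalization.AtPrime (X.presheaf.stalk (hU.fromSpec ⟨P, hP⟩)) P :=
    hU.isLocalization_stalk' ⟨P, hP⟩ (hU.isoSpec.inv _).2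
  exact IsIntegrallyClosed.of_isLocalization_maximal
    (fun P hP => X.presheaf.stalk (hU.fromSpec ⟨P, hP.isPrime⟩)) fun P hP => h _

/-- stalks, if the sections over an affine open set are integrally closed -/
theorem stalk {X : Scheme.{0}} [IsIntegral X] {U : X.Opens} (hU : IsAffineOpen U) (x : X)
    (hx : x ∈ U) (h : IsIntegrallyClosed Γ(X, U)) : IsIntegrallyClosed (X.presheaf.stalk x) := by
  have : Nonempty U := ⟨⟨x, hx⟩⟩
  let := TopCat.Presheaf.algebra_section_stalk X.presheaf ⟨x, hx⟩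
  have := hU.isLocalization_stalk ⟨x, hx⟩
  exact isIntegrallyClosed_of_isLocalization (X.presheaf.stalk x)
    (hU.primeIdealOf ⟨x, hx⟩).asIdeal.primeCompl (Ideal.primeCompl_le_nonZeroDivisors _)


/-- The sections over `π⁻¹ U` are the integral closure of those over `U`. -/
theorem sec {X : Scheme.{0}} {K' : Type} [Field K'] (f : Sp K' ⟶ X) [QuasiCompact f]
    [QuasiSeparated f] {U : X.Opens} (hU : IsAffineOpen U)
    (e : Γ(Sp K', f ⁻¹ᵁ U) ≅ CommRingCat.of K') :
      Function.Injective (f.toNormalization.appLE (f.fromNormalization ⁻¹ᵁ U) (f ⁻¹ᵁ U)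
        (by simp [← Scheme.Hom.comp_preimage]) ≫ e.hom).hom ∧
      ∀ y : K', (f.app U ≫ e.hom).hom.IsIntegralElem y ↔
        ∃ x, (f.toNormalization.appLE (f.fromNormalization ⁻¹ᵁ U) (f ⁻¹ᵁ U)
          (by simp [← Scheme.Hom.comp_preimage]) ≫ e.hom).hom x = y := by
  let alg := (f.app U).hom.toAlgebra
  have hv := f.normalizationObjIso_hom_val hU
  obtain ⟨i, hi⟩ : ∃ i, i = f.normalizationObjIso hU := ⟨_, rfl⟩
  rw [← hi] at hv
  have hv' : ∀ x, (f.toNormalization.appLE (f.fromNormalization ⁻¹ᵁ U) (f ⁻¹ᵁ U)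
        (by simp [← Scheme.Hom.comp_preimage]) ≫ e.hom).hom x = e.hom.hom (i.hom.hom x).1 := by
    intro x
    rw [← hv]
    rfl
  have he : ∀ z, e.inv.hom (e.hom.hom z) = z := fun z => by
    rw [← CommRingCat.comp_apply, e.hom_inv_id]
    rfl
  have he' : ∀ z, e.hom.hom (e.inv.hom z) = z := fun z => by
    rw [← CommRingCat.comp_apply, e.inv_hom_id]
    rfl
  have hi1 : ∀ z, i.inv.hom (i.hom.hom z) = z := fun z => by
    rw [← CommRingCat.comp_apply, i.hom_inv_id]
    rfl
  have hi2 : ∀ z, i.hom.hom (i.inv.hom z) = z := fun z => by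
    rw [← CommRingCat.comp_apply, i.inv_hom_id]
    rfl
  constructor
  · intro x y hxy
    rw [hv', hv'] at hxy
    have h1 := congrArg e.inv.hom hxy
    rw [he, he] at h1
    have h2 := congrArg i.inv.hom (Subtype.ext h1)
    rwa [hi1, hi1] at h2
  · intro y
    constructor
    · rintro ⟨p, hp, h⟩
      refine ⟨i.inv.hom ⟨e.inv.hom y, p, hp, ?_⟩, ?_⟩
      · have h1 := congrArg e.inv.hom h
        rw [map_zero, Polynomial.hom_eval₂] at h1
        rw [← h1]
        congr 1
        ext z
        exact (he _).symm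
      · rw [hv', hi2]
        exact he' y
    · rintro ⟨x, rfl⟩
      rw [hv']
      obtain ⟨p, hp, h⟩ := (i.hom.hom x).2
      refine ⟨p, hp, ?_⟩
      have h1 := congrArg e.hom.hom h
      rw [map_zero, Polynomial.hom_eval₂] at h1
      exact h1

theorem germ_eq {X : Scheme.{0}} {K' : Type} [Field K'] (f : Sp K' ⟶ X) [QuasiCompact f]
    [QuasiSeparated f] {U : X.Opens} (hpU : f (IsLocalRing.closedPoint K') ∈ U)
    (hpV : f.toNormalization (IsLocalRing.closedPoint K') ∈ f.fromNormalization ⁻¹ᵁ U) :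
    ∃ e : Γ(Sp K', f ⁻¹ᵁ U) ≅ CommRingCat.of K',
      X.presheaf.germ U _ hpU ≫ Scheme.stalkClosedPointTo f = f.app U ≫ e.hom ∧
      f.normalization.presheaf.germ (f.fromNormalization ⁻¹ᵁ U) _ hpV ≫
        Scheme.stalkClosedPointTo f.toNormalization =
        f.toNormalization.appLE (f.fromNormalization ⁻¹ᵁ U) (f ⁻¹ᵁ U)
        (by simp [← Scheme.Hom.comp_preimage]) ≫ e.hom := by
  refine ⟨_, Scheme.germ_stalkClosedPointTo f U hpU, ?_⟩
  rw [Scheme.germ_stalkClosedPointTo]
  simp only [Scheme.Hom.appLE, Category.assoc, Iso.trans_hom, Functor.mapIso_hom]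
  congr 1

theorem cp {X : Scheme.{0}} {R : CommRingCat.{0}} [IsLocalRing R] {x : X}
    (g : X.presheaf.stalk x ⟶ R) [IsLocalHom g.hom] :
    (Spec.map g ≫ X.fromSpecStalk x) (IsLocalRing.closedPoint R) = x := by
  rw [Scheme.Hom.comp_apply, Spec_closedPoint, Scheme.fromSpecStalk_closedPoint]

theorem gen {X₁ : Scheme.{0}} [IsIntegral X₁] {K' : Type} [Field K'] (η : Sp K' ⟶ X₁)
    [IsDominant η] : η (IsLocalRing.closedPoint K') = genericPoint X₁ := by
  have h1 : Set.range η = {η (IsLocalRing.closedPoint K')} := by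
    ext y
    constructor
    · rintro ⟨z, rfl⟩
      have : z = IsLocalRing.closedPoint K' := Subsingleton.elim _ _
      rw [this]
      exact Set.mem_singleton _
    · rintro rfl
      exact ⟨_, rfl⟩
  have h2 := η.denseRange
  have h3 : IsGenericPoint (η (IsLocalRing.closedPoint K')) (Set.univ : Set X₁) := by
    unfold IsGenericPoint
    rw [← h1]
    exact h2.closure_range
  exact h3.eq (genericPoint_spec X₁)

end NN

end Pool.Agent.BTF
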