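import Pool.Agent.BTF.St6
import Pool.Agent.BTF.NN

/-!
# BTF: the normalisation in a finite extension, not necessarily separable (module NNI, helper94)
-/

set_option autoImplicit false

noncomputable section

namespace Pool.Agent.BTF

open CategoryTheory CategoryTheory.Limits AlgebraicGeometry TopologicalSpace Pool.Agent.KTX
open Pool.Agent.KGT.W (SerreClass FinType)

namespace NNI

/-- The algebra: the integral closure of `A` in `L`. -/
theorem alg (hFI : St_FI) {A K L B : Type} [CommRing A] [IsDomain A] [IsNoetherianRing A]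
    [IsIntegrallyClosed A] (hA : EssFin A) [Field K] [Algebra A K] [IsFractionRing A K] [Field L]
    [CommRing B] (φ : K →+* L) (N : ℕ) (hφ : FinDeg φ N) (b : B →+* L)
    (hb : Function.Injective b) (g : A →+* B) (hg : b.comp g = φ.comp (algebraMap A K))
    (hi : ∀ y : L, (φ.comp (algebraMap A K)).IsIntegralElem y → ∃ x, b x = y)
    (hi' : ∀ x : B, (φ.comp (algebraMap A K)).IsIntegralElem (b x)) :
    g.Finite ∧ IsIntegrallyClosed B ∧ ∀ z : L, ∃ x y : B, b y ≠ 0 ∧ b y * z = b x := by
  let a1 : Algebra K L := φ.toAlgebra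
  let a2 : Algebra A L := (φ.comp (algebraMap A K)).toAlgebra
  let a3 : Algebra A B := g.toAlgebra
  let a4 : Algebra B L := b.toAlgebra
  have t1 : IsScalarTower A K L := IsScalarTower.of_algebraMap_eq' rfl
  have t2 : IsScalarTower A B L := IsScalarTower.of_algebraMap_eq' hg.symm
  obtain ⟨h1, -⟩ := hφ
  have : FiniteDimensional K L := h1
  have i1 : IsIntegralClosure B A L :=
    { algebraMap_injective := hb
      isIntegral_iff := fun {y} => ⟨fun h => hi y h, by
        rintro ⟨x, rfl⟩
        exact hi' x⟩ }
  have hdB : IsDomain B := hb.isDomain b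
  have hf : IsFractionRing B L := IsIntegralClosure.isFractionRing_of_finite_extension A K L B
  refine ⟨?_, ?_, ?_⟩
  · have : Module.Finite A B := hFI A hA K L B
    exact this
  · refine (isIntegrallyClosed_iff L).2 ?_
    intro y hy
    have hA : Algebra.IsIntegral A B := IsIntegralClosure.isIntegral_algebra A L
    exact (IsIntegralClosure.isIntegral_iff (A := B)).1 (isIntegral_trans (R := A) y hy)
  · intro z
    obtain ⟨x, y, hy, h⟩ := IsFractionRing.div_surjective (A := B) z
    have hy0 : b y ≠ 0 := by
      rw [Ne, map_eq_zero_iff b hb]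
      exact nonZeroDivisors.ne_zero hy
    refine ⟨x, y, hy0, ?_⟩
    rw [← h]
    exact mul_div_cancel₀ (b x) hy0

/-- rings of finite type over the integers -/
theorem ess {A : Type} [CommRing A] (f : ℤ →+* A) (hf : f.FiniteType) : EssFin A := by
  have hfe : f = algebraMap ℤ A := Subsingleton.elim _ _
  subst hfe
  obtain ⟨s, hs⟩ := (RingHom.finiteType_algebraMap.1 hf).out
  refine ⟨s, fun v => ⟨v, ?_, 1, one_mem _, isUnit_one, one_mul v⟩⟩
  have h1 : v ∈ Algebra.adjoin ℤ (s : Set A) := by
    rw [hs]
    exact Algebra.mem_top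
  have h2 : Algebra.adjoin ℤ (s : Set A) ≤ subalgebraOfSubring (Subring.closure (s : Set A)) :=
    Algebra.adjoin_le Subring.subset_closure
  exact h2 h1

/-- sections over affine open sets -/
theorem sec {X : Scheme.{0}} (hX : FinType ℤ X) {U : X.Opens} (hU : IsAffineOpen U) :
    EssFin Γ(X, U) := by
  obtain ⟨f, hf, -⟩ := hX
  have h1 := f.finiteType_appLE (isAffineOpen_top _) hU le_top
  have h2 : ((Scheme.ΓSpecIso (CommRingCat.of ℤ)).inv.hom).FiniteType := by
    refine RingHom.FiniteType.of_surjective _ ?_
    intro z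
    refine ⟨(Scheme.ΓSpecIso (CommRingCat.of ℤ)).hom.hom z, ?_⟩
    rw [← CommRingCat.comp_apply, Iso.hom_inv_id]
    rfl
  exact ess _ (h1.comp h2)

end NNI

theorem thm_NN (hFI : St_FI) : St_NN := by
  intro X _ _ hX hcl K' _ φ N hφ
  obtain ⟨f, hf⟩ : ∃ f : Sp K' ⟶ X, f = etaX φ := ⟨_, rfl⟩
  have : QuasiCompact f := inferInstance
  have : QuasiSeparated f := inferInstance
  have : IsIntegral f.normalization := inferInstance
  have hloc : IsLocalHom (CommRingCat.ofHom φ).hom := by
    constructor
    intro a ha
    exact isUnit_iff_ne_zero.2 fun h => ha.ne_zero (by rw [h, map_zero])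
  have hfp : f (IsLocalRing.closedPoint K') = genericPoint X := by
    rw [hf]
    exact NN.cp (CommRingCat.ofHom φ)
  have key : ∀ U : X.Opens, IsAffineOpen U → genericPoint X ∈ U →
      (f.fromNormalization.app U).hom.Finite ∧
      IsIntegrallyClosed Γ(f.normalization, f.fromNormalization ⁻¹ᵁ U) ∧
      ∀ hpV, ∀ z : K', ∃ x y, (f.normalization.presheaf.germ (f.fromNormalization ⁻¹ᵁ U) _ hpV ≫
        Scheme.stalkClosedPointTo f.toNormalization).hom y ≠ 0 ∧
        (f.normalization.presheaf.germ (f.fromNormalization ⁻¹ᵁ U) _ hpV ≫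
        Scheme.stalkClosedPointTo f.toNormalization).hom y * z =
        (f.normalization.presheaf.germ (f.fromNormalization ⁻¹ᵁ U) _ hpV ≫
        Scheme.stalkClosedPointTo f.toNormalization).hom x := by
    intro U hU hgU
    have hpU : f (IsLocalRing.closedPoint K') ∈ U := by rw [hfp]; exact hgU
    have hUn : Nonempty U := ⟨⟨_, hgU⟩⟩
    have hpV : f.toNormalization (IsLocalRing.closedPoint K') ∈ f.fromNormalization ⁻¹ᵁ U := by
      have h1 : (f.toNormalization ≫ f.fromNormalization) (IsLocalRing.closedPoint K') ∈ U := by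
        rw [f.toNormalization_fromNormalization]
        exact hpU
      exact h1
    obtain ⟨e, he1, he2⟩ := NN.germ_eq f hpU hpV
    obtain ⟨hb, hb'⟩ := NN.sec f hU e
    rw [← he1] at hb'
    rw [← he2] at hb
    have h2 : (X.presheaf.germ U _ hpU ≫ Scheme.stalkClosedPointTo f).hom =
        φ.comp (algebraMap Γ(X, U) X.functionField) := by
      subst hf
      have h3 := Scheme.germ_stalkClosedPointTo_Spec_fromSpecStalk (CommRingCat.ofHom φ) U hpU
      have h4 := congrArg CommRingCat.Hom.hom h3
      exact h4
    have h5 : f.fromNormalization.app U ≫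
        f.toNormalization.appLE (f.fromNormalization ⁻¹ᵁ U) (f ⁻¹ᵁ U)
        (by simp [← Scheme.Hom.comp_preimage]) = f.app U := by
      rw [← Scheme.Hom.comp_appLE]
      simp [Scheme.Hom.app_eq_appLE]
    obtain ⟨b, hbd⟩ : ∃ b, b = (f.normalization.presheaf.germ (f.fromNormalization ⁻¹ᵁ U) _ hpV ≫
        Scheme.stalkClosedPointTo f.toNormalization).hom := ⟨_, rfl⟩
    rw [← he2, ← hbd] at hb'
    rw [← hbd] at hb
    have hg : b.comp (f.fromNormalization.app U).hom =
        φ.comp (algebraMap Γ(X, U) X.functionField) := by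
      rw [← h2, he1, ← h5, hbd, he2]
      rfl
    rw [h2] at hb'
    have := NN.closed hcl hU
    have := IsLocallyNoetherian.component_noetherian (X := X) ⟨U, hU⟩
    have := functionField_isFractionRing_of_isAffineOpen X U hU
    obtain ⟨g1, g2, g3⟩ := NNI.alg hFI (NNI.sec hX hU) φ N hφ b hb (f.fromNormalization.app U).hom hg
      (fun y hy => (hb' y).1 hy) (fun x => (hb' _).2 ⟨x, rfl⟩)
    refine ⟨g1, g2, ?_⟩
    intro hpV z
    rw [← hbd]
    exact g3 z
  have hgen : f.toNormalization (IsLocalRing.closedPoint K') = genericPoint f.normalization :=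
    NN.gen _
  have hgp : ∀ U : X.Opens, ∀ x ∈ U, genericPoint X ∈ U := fun U x hx =>
    ((genericPoint_spec X).mem_open_set_iff U.isOpen).2 ⟨x, trivial, hx⟩
  have hfin : IsFinite f.fromNormalization := by
    refine { finite_app := ?_ }
    intro U hU
    by_cases h : ∃ x, x ∈ U
    · obtain ⟨x, hx⟩ := h
      exact (key U hU (hgp U x hx)).1
    · have h1 : f.fromNormalization ⁻¹ᵁ U = ⊥ := by
        ext y
        constructor
        · intro hy
          exact absurd ⟨_, hy⟩ h
        · intro hy
          exact hy.elim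
      have h2 : Subsingleton Γ(f.normalization, f.fromNormalization ⁻¹ᵁ U) := by
        rw [h1]
        infer_instance
      let := (f.fromNormalization.app U).hom.toAlgebra
      have h3 : Module.Finite Γ(X, U) Γ(f.normalization, f.fromNormalization ⁻¹ᵁ U) :=
        inferInstance
      exact h3
  obtain ⟨t, ht⟩ : ∃ t : f.normalization.functionField ⟶ CommRingCat.of K',
      t = f.normalization.presheaf.stalkSpecializes (specializes_of_eq hgen) ≫
        Scheme.stalkClosedPointTo f.toNormalization := ⟨_, rfl⟩
  have ht1 : Spec.map t ≫ f.normalization.fromSpecStalk (genericPoint f.normalization) =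
      f.toNormalization := by
    rw [ht, Spec.map_comp, Category.assoc, Scheme.SpecMap_stalkSpecializes_fromSpecStalk,
      Scheme.Spec_stalkClosedPointTo_fromSpecStalk]
  have hsurj : Function.Surjective t.hom := by
    intro z
    obtain ⟨_, ⟨U, hU, rfl⟩, hgU, -⟩ := X.isBasis_affineOpens.exists_subset_of_mem_open
      (Set.mem_univ (genericPoint X)) isOpen_univ
    have hpV : f.toNormalization (IsLocalRing.closedPoint K') ∈ f.fromNormalization ⁻¹ᵁ U := by
      have h1 : (f.toNormalization ≫ f.fromNormalization) (IsLocalRing.closedPoint K') ∈ U := by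
        rw [f.toNormalization_fromNormalization, hfp]
        exact hgU
      exact h1
    have hgV : genericPoint f.normalization ∈ f.fromNormalization ⁻¹ᵁ U := by
      rw [← hgen]
      exact hpV
    obtain ⟨x, y, hy, hz⟩ := (key U hU hgU).2.2 hpV z
    have e1 : f.normalization.presheaf.germ (f.fromNormalization ⁻¹ᵁ U) _ hpV ≫
        Scheme.stalkClosedPointTo f.toNormalization =
        f.normalization.presheaf.germ (f.fromNormalization ⁻¹ᵁ U) _ hgV ≫ t := by
      rw [ht, TopCat.Presheaf.germ_stalkSpecializes_assoc]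
    rw [e1] at hy hz
    refine ⟨(f.normalization.presheaf.germ (f.fromNormalization ⁻¹ᵁ U) _ hgV).hom x /
      (f.normalization.presheaf.germ (f.fromNormalization ⁻¹ᵁ U) _ hgV).hom y, ?_⟩
    have hy' : t.hom ((f.normalization.presheaf.germ (f.fromNormalization ⁻¹ᵁ U) _ hgV).hom y) ≠
      0 := hy
    have hz' : t.hom ((f.normalization.presheaf.germ (f.fromNormalization ⁻¹ᵁ U) _ hgV).hom y) *
      z = t.hom ((f.normalization.presheaf.germ (f.fromNormalization ⁻¹ᵁ U) _ hgV).hom x) := hz
    rw [map_div₀, div_eq_iff hy', mul_comm]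
    exact hz'.symm
  refine ⟨f.normalization, inferInstance, f.fromNormalization, hfin,
    RingEquiv.ofBijective t.hom ⟨t.hom.injective, hsurj⟩, ?_, ?_⟩
  · have e2 : CommRingCat.ofHom ((RingEquiv.ofBijective t.hom ⟨t.hom.injective, hsurj⟩ :
        f.normalization.functionField ≃+* K') : f.normalization.functionField →+* K') = t := rfl
    rw [e2, ← Category.assoc, ht1, f.toNormalization_fromNormalization, hf]
  · intro x
    obtain ⟨_, ⟨U, hU, rfl⟩, hxU, -⟩ := X.isBasis_affineOpens.exists_subset_of_mem_open
      (Set.mem_univ (f.fromNormalization x)) isOpen_univ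
    exact NN.stalk (hU.preimage f.fromNormalization) x hxU (key U hU (hgp U _ hxU)).2.1

end Pool.Agent.BTF
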