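import Pool.Agent.BTF.St3
import Pool.Agent.KGT.Reg

/-!
# BTF, module NR (helper74): integral regular schemes are normal

Also: regular local rings are domains (`NR.isDomain`), and the stalks of regular schemes are regular
rings (`NR.stalk_reg`).
-/

set_option autoImplicit false
set_option linter.overlappingInstances false

noncomputable section

namespace Pool.Agent.BTF

open CategoryTheory CategoryTheory.Limits AlgebraicGeometry Pool.Agent.KPR
open Pool.Agent.KGT.W (SerreClass FinType)

namespace NR

open IsLocalRing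

/-! ### dimensions -/

theorem wb (a b : WithBot ℕ∞) (n : ℕ) (h1 : a + 1 ≤ b) (h2 : b < ((n + 1 : ℕ) : WithBot ℕ∞)) :
    a < (n : WithBot ℕ∞) := by
  by_contra hc
  rw [not_lt] at hc
  have h3 : ((n + 1 : ℕ) : WithBot ℕ∞) ≤ a + 1 := by
    rw [Nat.cast_add, Nat.cast_one]
    exact add_le_add_left hc 1
  exact absurd (h3.trans h1) (not_le.2 h2)

/-- an element outside of the minimal primes -/
theorem dim_quot {R : Type} [CommRing R] {r : R} (hr : ∀ p ∈ (⊥ : Ideal R).minimalPrimes, r ∉ p) :
    ringKrullDim (R ⧸ Ideal.span {r}) + 1 ≤ ringKrullDim R := by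
  by_cases hr' : Ideal.span {r} = ⊤
  · rw [hr', ringKrullDim_eq_bot_of_subsingleton]
    simp
  have : Nonempty (PrimeSpectrum.zeroLocus (R := R) (Ideal.span {r})) := by
    rwa [Set.nonempty_coe_sort, Set.nonempty_iff_ne_empty, ne_eq,
      PrimeSpectrum.zeroLocus_empty_iff_eq_top]
  have := Ideal.Quotient.nontrivial_iff.mpr hr'
  have := (Ideal.Quotient.mk (Ideal.span {r})).domain_nontrivial
  rw [ringKrullDim_quotient, Order.krullDim_eq_iSup_length, ringKrullDim,
    Order.krullDim_eq_iSup_length, ← WithBot.coe_one, ← WithBot.coe_add,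
    ENat.iSup_add, WithBot.coe_le_coe, iSup_le_iff]
  intro l
  obtain ⟨p, hp, hp'⟩ := Ideal.exists_minimalPrimes_le (J := l.head.1.asIdeal) bot_le
  let p' : PrimeSpectrum R := ⟨p, hp.1.1⟩
  have hp' : p' < l.head := lt_of_le_of_ne hp' fun h => hr p hp (by
    have h1 : r ∈ l.head.1.asIdeal := by simpa using l.head.2
    have h2 : l.head.1.asIdeal = p := by rw [← h]
    rwa [h2] at h1)
  have hsm : StrictMono (Subtype.val :
      PrimeSpectrum.zeroLocus (R := R) (Ideal.span {r}) → PrimeSpectrum R) := Subtype.strictMono_coe _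
  have hrel : p' < (l.map Subtype.val hsm).head := hp'
  have h1 : ((l.map Subtype.val hsm).cons p' hrel).length = l.length + 1 := by
    rw [RelSeries.cons_length, LTSeries.map_length]
  refine le_trans ?_ (le_iSup _ ((l.map Subtype.val hsm).cons p' hrel))
  rw [h1, Nat.cast_add, Nat.cast_one]

/-! ### regular local rings are domains -/

theorem dom (n : ℕ) : ∀ (R : Type) [CommRing R] [IsRegularLocalRing R],
    ringKrullDim R < (n : WithBot ℕ∞) → IsDomain R := by
  classical
  induction n with
  | zero =>
    intro R _ _ h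
    exact absurd (ringKrullDim_nonneg_of_nontrivial (R := R)) (not_le.2 (by exact_mod_cast h))
  | succ n ih =>
    intro R _ hreg h
    by_cases hm : maximalIdeal R = ⊥
    · exact (isField_iff_maximalIdeal_eq.2 hm).isDomain
    have hjac : maximalIdeal R ≤ (⊥ : Ideal R).jacobson :=
      (IsLocalRing.jacobson_eq_maximalIdeal ⊥ bot_ne_top).ge
    have hfg := (maximalIdeal R).fg_of_isNoetherianRing
    -- an element outside of the square and the minimal primes
    have hfin := Ideal.finite_minimalPrimes_of_isNoetherianRing R ⊥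
    let S : Finset (Ideal R) := insert (maximalIdeal R ^ 2) hfin.toFinset
    have hx : ∃ x ∈ maximalIdeal R, x ∉ maximalIdeal R ^ 2 ∧
        ∀ p ∈ (⊥ : Ideal R).minimalPrimes, x ∉ p := by
      by_contra hcon
      push Not at hcon
      have h1 : (maximalIdeal R : Set R) ⊆ ⋃ i ∈ (↑S : Set (Ideal R)), (id i : Ideal R) := by
        intro x hx
        rw [Set.mem_iUnion₂]
        by_cases h2 : x ∈ maximalIdeal R ^ 2
        · exact ⟨maximalIdeal R ^ 2, by simp [S], h2⟩
        · obtain ⟨p, hp, hxp⟩ := hcon x hx h2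
          exact ⟨p, by simp [S, hp], hxp⟩
      obtain ⟨P, hP, hle⟩ := (Ideal.subset_union_prime (f := id) (maximalIdeal R ^ 2)
        (maximalIdeal R ^ 2) (fun i hi h2 _ => by
          have h3 : i ∈ (⊥ : Ideal R).minimalPrimes := by
            rcases Finset.mem_insert.1 hi with h4 | h4
            · exact absurd h4 h2
            · exact hfin.mem_toFinset.1 h4
          exact h3.1.1)).1 h1
      rcases Finset.mem_insert.1 hP with h2 | h2
      · apply hm
        refine Submodule.eq_bot_of_le_smul_of_le_jacobson_bot (maximalIdeal R) _ hfg ?_ hjac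
        rw [smul_eq_mul, ← pow_two, ← h2]
        exact hle
      · have h3 := hfin.mem_toFinset.1 h2
        have h4 : Ring.KrullDimLE 0 R := by
          refine Ring.KrullDimLE.mk₀ fun I hI => ?_
          have h5 : I ≤ maximalIdeal R := le_maximalIdeal hI.ne_top
          have h6 : P ≤ I := h3.2 ⟨hI, bot_le⟩ (h5.trans hle)
          have h7 : I = maximalIdeal R := le_antisymm h5 (hle.trans h6)
          rw [h7]
          exact maximalIdeal.isMaximal R
        have h5 : ringKrullDim R ≤ 0 := Ring.krullDimLE_iff.1 h4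
        rw [← hreg.spanFinrank_maximalIdeal] at h5
        have h6 : (maximalIdeal R).spanFinrank = 0 := by
          have h7 : (maximalIdeal R).spanFinrank ≤ 0 := by exact_mod_cast h5
          omega
        exact hm ((Submodule.spanFinrank_eq_zero_iff_eq_bot hfg).1 h6)
    obtain ⟨x, hx1, hx2, hx3⟩ := hx
    have hreg' := KGT.reg_local x hx1 hx2
    have hdim := wb _ _ n (dim_quot hx3) h
    have hdom : IsDomain (R ⧸ Ideal.span {x}) := ih _ hdim
    have hprime : (Ideal.span {x}).IsPrime := (Ideal.Quotient.isDomain_iff_prime _).1 hdom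
    obtain ⟨P, hP, hPx⟩ := Ideal.exists_minimalPrimes_le (I := (⊥ : Ideal R))
      (J := Ideal.span {x}) bot_le
    have hPp : P.IsPrime := hP.1.1
    have hP0 : P = ⊥ := by
      refine Submodule.eq_bot_of_le_smul_of_le_jacobson_bot (maximalIdeal R) _
        P.fg_of_isNoetherianRing ?_ hjac
      intro y hy
      obtain ⟨a, ha⟩ := Ideal.mem_span_singleton'.1 (hPx hy)
      rw [← ha] at hy
      have h1 : a ∈ P := (hPp.mem_or_mem hy).resolve_right (hx3 P hP)
      rw [← ha, smul_eq_mul, mul_comm a x]
      exact Ideal.mul_mem_mul hx1 h1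
    rw [hP0] at hPp
    exact IsDomain.of_bot_isPrime R

/-- regular local rings are domains -/
theorem isDomain (R : Type) [CommRing R] [hreg : IsRegularLocalRing R] : IsDomain R := by
  refine dom ((maximalIdeal R).spanFinrank + 1) R ?_
  rw [← hreg.spanFinrank_maximalIdeal]
  exact_mod_cast Nat.lt_succ_self _

/-! ### regular rings -/

/-- localisations of rings whose local rings are regular -/
theorem loc_reg {A O : Type} [CommRing A] [CommRing O] [Algebra A O] [IsNoetherianRing O]
    (M : Submonoid A) [IsLocalization M O]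
    (h : ∀ (P : Ideal A) [P.IsPrime], IsRegularLocalRing (Localization.AtPrime P)) :
    IsRegularRing O := by
  rw [isRegularRing_iff]
  intro Q hQ
  have h1 : IsLocalization.AtPrime (Localization.AtPrime Q) (Q.comap (algebraMap A O)) :=
    IsLocalization.isLocalization_isLocalization_atPrime_isLocalization M
      (Localization.AtPrime Q) Q
  have h2 := h (Q.comap (algebraMap A O))
  exact IsRegularLocalRing.of_ringEquiv
    (IsLocalization.algEquiv (Q.comap (algebraMap A O)).primeCompl
      (Localization.AtPrime (Q.comap (algebraMap A O))) (Localization.AtPrime Q)).toRingEquiv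

/-- the stalks of regular schemes are regular rings -/
theorem stalk_reg (Z : Scheme.{0}) (hZ : KGT.W.Regular Z) (x : Z) :
    IsRegularRing (Z.presheaf.stalk x) := by
  obtain ⟨U, hU, hx, -⟩ := exists_isAffineOpen_mem_and_subset (x := x) (U := ⊤) trivial
  have hU : IsAffineOpen U := hU
  have hregx := hZ x
  let _ : Algebra Γ(Z, U) (Z.presheaf.stalk x) :=
    TopCat.Presheaf.algebra_section_stalk Z.presheaf ⟨x, hx⟩
  have hloc : IsLocalization.AtPrime (Z.presheaf.stalk x) (hU.primeIdealOf ⟨x, hx⟩).asIdeal :=
    hU.isLocalization_stalk ⟨x, hx⟩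
  refine loc_reg (A := Γ(Z, U)) (hU.primeIdealOf ⟨x, hx⟩).asIdeal.primeCompl ?_
  intro P hP
  have hy : hU.fromSpec ⟨P, hP⟩ ∈ U := (hU.isoSpec.inv _).2
  let _ : Algebra Γ(Z, U) (Z.presheaf.stalk (hU.fromSpec ⟨P, hP⟩)) :=
    TopCat.Presheaf.algebra_section_stalk Z.presheaf ⟨_, hy⟩
  have h1 : IsLocalization.AtPrime (Z.presheaf.stalk (hU.fromSpec ⟨P, hP⟩)) P :=
    hU.isLocalization_stalk' ⟨P, hP⟩ hy
  have h2 := hZ (hU.fromSpec ⟨P, hP⟩)
  exact IsRegularLocalRing.of_ringEquiv
    (IsLocalization.algEquiv P.primeCompl (Z.presheaf.stalk (hU.fromSpec ⟨P, hP⟩))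
      (Localization.AtPrime P)).toRingEquiv

/-! ### integrally closed -/

/-- denominators outside of a prime ideal -/
theorem den {L S : Type} [CommRing L] [IsDomain L] (P : Ideal L) [P.IsPrime] [CommRing S]
    [IsDomain S] [Algebra L S] [IsLocalization.AtPrime S P] [hc : IsIntegrallyClosed S]
    (z : FractionRing L) (hz : IsIntegral L z) : ∃ s, s ∉ P ∧ ∃ c : L,
      algebraMap L (FractionRing L) s * z = algebraMap L (FractionRing L) c := by
  have hle : P.primeCompl ≤ nonZeroDivisors L := P.primeCompl_le_nonZeroDivisors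
  obtain ⟨g, hg⟩ : ∃ g : L →+* FractionRing S,
    g = (algebraMap S (FractionRing S)).comp (algebraMap L S) := ⟨_, rfl⟩
  have hgi : Function.Injective g := by
    rw [hg]
    exact (IsFractionRing.injective S _).comp (IsLocalization.injective S hle)
  let ι : FractionRing L →+* FractionRing S := IsFractionRing.lift hgi
  have hι : ∀ a : L, ι (algebraMap L (FractionRing L) a) = g a := fun a =>
    IsFractionRing.lift_algebraMap hgi a
  have hιc : ι.comp (algebraMap L (FractionRing L)) = g := RingHom.ext hι
  obtain ⟨p, hp, hpz⟩ := hz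
  have h1 : IsIntegral S (ι z) := by
    refine ⟨p.map (algebraMap L S), hp.map _, ?_⟩
    rw [Polynomial.eval₂_map, ← hg, ← hιc, ← Polynomial.hom_eval₂, hpz, map_zero]
  obtain ⟨y, hy⟩ := IsIntegrallyClosed.isIntegral_iff.1 h1
  obtain ⟨⟨c, s⟩, hcs⟩ := IsLocalization.surj P.primeCompl y
  refine ⟨s, s.2, c, ι.injective ?_⟩
  rw [map_mul, hι, hι, ← hy, hg, RingHom.comp_apply, RingHom.comp_apply, ← hcs, ← map_mul,
    mul_comm]

theorem main (n : ℕ) : ∀ (L : Type) [CommRing L] [IsDomain L] [IsLocalRing L] [IsRegularRing L],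
    ringKrullDim L < (n : WithBot ℕ∞) → IsIntegrallyClosed L := by
  classical
  induction n with
  | zero =>
    intro L _ _ _ _ h
    exact absurd (ringKrullDim_nonneg_of_nontrivial (R := L)) (not_le.2 (by exact_mod_cast h))
  | succ n ih =>
    intro L _ _ _ _ h
    by_cases hm : maximalIdeal L = ⊥
    · let _ := (isField_iff_maximalIdeal_eq.2 hm).toField
      infer_instance
    have hreg : IsRegularLocalRing L := IsRegularLocalRing.of_isRegularRing_of_isLocalRing L
    have hjac : maximalIdeal L ≤ (⊥ : Ideal L).jacobson :=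
      (IsLocalRing.jacobson_eq_maximalIdeal ⊥ bot_ne_top).ge
    have hfg := (maximalIdeal L).fg_of_isNoetherianRing
    obtain ⟨x, hx, hx2⟩ : ∃ x ∈ maximalIdeal L, x ∉ maximalIdeal L ^ 2 := by
      by_contra hcon
      push Not at hcon
      apply hm
      refine Submodule.eq_bot_of_le_smul_of_le_jacobson_bot (maximalIdeal L) _ hfg ?_ hjac
      rw [smul_eq_mul, ← pow_two]
      exact hcon
    have hx0 : x ≠ 0 := fun h0 => hx2 (by rw [h0]; exact Ideal.zero_mem _)
    have hreg' := KGT.reg_local x hx hx2
    have hprime : Prime x := (Ideal.span_singleton_prime hx0).1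
      ((Ideal.Quotient.isDomain_iff_prime _).1 (isDomain (L ⧸ Ideal.span {x})))
    refine (isIntegrallyClosed_iff (FractionRing L)).2 fun {z} hz => ?_
    let J : Ideal L :=
      { carrier := {a | ∃ c : L, algebraMap L (FractionRing L) a * z =
          algebraMap L (FractionRing L) c}
        add_mem' := by
          rintro a b ⟨c, hc⟩ ⟨d, hd⟩
          exact ⟨c + d, by rw [map_add, map_add, add_mul, hc, hd]⟩
        zero_mem' := ⟨0, by rw [map_zero, zero_mul]⟩
        smul_mem' := by
          rintro a b ⟨c, hc⟩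
          exact ⟨a * c, by rw [smul_eq_mul, map_mul, map_mul, mul_assoc, hc]⟩ }
    have hxJ : x ∈ J.radical := by
      rw [Ideal.radical_eq_sInf, Ideal.mem_sInf]
      rintro P ⟨hJP, hP⟩
      by_cases hPm : P = maximalIdeal L
      · rw [hPm]
        exact hx
      · exfalso
        have hlt : P < maximalIdeal L := lt_of_le_of_ne (le_maximalIdeal hP.ne_top) hPm
        have h1 : ringKrullDim (Localization.AtPrime P) + 1 ≤ ringKrullDim L := by
          rw [IsLocalization.AtPrime.ringKrullDim_eq_height P (Localization.AtPrime P),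
            ← maximalIdeal_height_eq_ringKrullDim]
          exact_mod_cast Ideal.height_add_one_le_of_lt_of_isPrime hlt
        have hle : P.primeCompl ≤ nonZeroDivisors L := P.primeCompl_le_nonZeroDivisors
        have hdom : IsDomain (Localization.AtPrime P) := IsLocalization.isDomain_localization hle
        have hrr : IsRegularRing (Localization.AtPrime P) :=
          loc_reg P.primeCompl fun Q _ => inferInstance
        have hcl : IsIntegrallyClosed (Localization.AtPrime P) := ih _ (wb _ _ n h1 h)
        obtain ⟨s, hs, hs'⟩ := den (S := Localization.AtPrime P) P z hz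
        exact hs (hJP hs')
    have hex : ∃ k : ℕ, x ^ k ∈ J := hxJ
    let k := Nat.find hex
    have hk : x ^ k ∈ J := Nat.find_spec hex
    obtain ⟨c, hc⟩ := hk
    rcases Nat.eq_zero_or_pos k with h0 | hpos
    · refine ⟨c, ?_⟩
      rw [← hc, h0, pow_zero, map_one, one_mul]
    · exfalso
      obtain ⟨p, hp, hpz⟩ := hz
      have h1 : x ^ k ∣ c ^ p.natDegree := Polynomial.dvd_pow_natDegree_of_eval₂_eq_zero
        (IsFractionRing.injective L (FractionRing L)) hp (x ^ k) c z hpz hc
      have h2 : x ∣ c := hprime.dvd_of_dvd_pow ((dvd_pow_self x hpos.ne').trans h1)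
      obtain ⟨c', rfl⟩ := h2
      have hx0' : algebraMap L (FractionRing L) x ≠ 0 :=
        (map_ne_zero_iff _ (IsFractionRing.injective L (FractionRing L))).2 hx0
      have h3 : x ^ (k - 1) ∈ J := by
        refine ⟨c', mul_left_cancel₀ hx0' ?_⟩
        rw [← mul_assoc, ← map_mul, ← pow_succ', Nat.sub_add_cancel hpos, hc, map_mul]
      exact Nat.find_min hex (Nat.sub_lt hpos one_pos) h3

end NR

/-- **NR** -/
theorem thm_NR : St_NR := by
  intro Z _ hZ x
  have h1 := NR.stalk_reg Z hZ x
  have h2 : IsRegularLocalRing (Z.presheaf.stalk x) := hZ x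
  refine NR.main ((IsLocalRing.maximalIdeal (Z.presheaf.stalk x)).spanFinrank + 1) _ ?_
  rw [← h2.spanFinrank_maximalIdeal]
  exact_mod_cast Nat.lt_succ_self _

end Pool.Agent.BTF
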