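import Pool.Agent.BTF.St
import Pool.Agent.KGT.GenReg
import Pool.Agent.KGT.Sch

/-!
# BTF, module V2 (helper77): a regular affine open subscheme
-/

set_option autoImplicit false

noncomputable section

namespace Pool.Agent.BTF

open CategoryTheory CategoryTheory.Limits AlgebraicGeometry Pool.Agent.KPR Pool.Agent.KTX
open Pool.Agent.KGT.W (SerreClass FinType)

namespace V2

/-! ### commutative algebra -/

/-- the elements of `K` with a denominator a power of `s` -/
def fr {C K : Type} [CommRing C] [Field K] (φ : C →+* K) (s : C) : Subring K where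
  carrier := {x | ∃ (n : ℕ) (c : C), φ s ^ n * x = φ c}
  mul_mem' := by
    rintro x y ⟨n, c, hx⟩ ⟨m, d, hy⟩
    refine ⟨n + m, c * d, ?_⟩
    rw [map_mul, ← hx, ← hy]
    ring
  one_mem' := ⟨0, 1, by simp⟩
  add_mem' := by
    rintro x y ⟨n, c, hx⟩ ⟨m, d, hy⟩
    refine ⟨n + m, s ^ m * c + s ^ n * d, ?_⟩
    rw [map_add, map_mul, map_mul, ← hx, ← hy, map_pow, map_pow]
    ring
  zero_mem' := ⟨0, 0, by simp⟩
  neg_mem' := by
    rintro x ⟨n, c, hx⟩
    exact ⟨n, -c, by rw [map_neg, ← hx, mul_neg]⟩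

theorem mem_fr {C K : Type} [CommRing C] [Field K] (φ : C →+* K) (s : C) (x : K) :
    x ∈ fr φ s ↔ ∃ (n : ℕ) (c : C), φ s ^ n * x = φ c := Iff.rfl

theorem map_mem {C K : Type} [CommRing C] [Field K] (φ : C →+* K) (s c : C) : φ c ∈ fr φ s :=
  ⟨0, c, by simp⟩

theorem fr_mono {C K : Type} [CommRing C] [Field K] (φ : C →+* K) (s t : C) :
    fr φ s ≤ fr φ (s * t) := by
  rintro x ⟨n, c, hx⟩
  refine ⟨n, t ^ n * c, ?_⟩
  rw [map_mul, map_mul, ← hx, map_pow]
  ring

theorem fr_equiv {C K : Type} [CommRing C] [IsDomain C] [Field K] (φ : C →+* K)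
    (hφ : Function.Injective φ) (s : C) (hs : s ≠ 0) :
    Nonempty (Localization.Away s ≃+* fr φ s) := by
  have hs' : φ s ≠ 0 := (map_ne_zero_iff φ hφ).2 hs
  have hu : IsUnit (φ s) := isUnit_iff_ne_zero.2 hs'
  obtain ⟨F, hF⟩ : ∃ F : Localization.Away s →+* K,
    F = IsLocalization.Away.lift (S := Localization.Away s) s hu := ⟨_, rfl⟩
  have hFe : ∀ r : C, F (algebraMap C (Localization.Away s) r) = φ r := fun r => by
    rw [hF]; exact IsLocalization.Away.lift_eq s hu r
  have hle : Submonoid.powers s ≤ nonZeroDivisors C :=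
    powers_le_nonZeroDivisors_of_noZeroDivisors hs
  have hFi : Function.Injective F := by
    rw [hF]
    refine (IsLocalization.lift_injective_iff _).2 fun a b => ?_
    rw [(IsLocalization.injective (Localization.Away s) hle).eq_iff, hφ.eq_iff]
  have hr : ∀ x, F x ∈ fr φ s := by
    intro x
    obtain ⟨n, c, hx⟩ := IsLocalization.Away.surj s x
    refine ⟨n, c, ?_⟩
    rw [← hFe s, ← hFe c, ← hx, map_mul, map_pow, mul_comm]
  refine ⟨RingEquiv.ofBijective (F.codRestrict (fr φ s) hr) ⟨fun a b h => hFi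
    (congrArg Subtype.val h), ?_⟩⟩
  rintro ⟨x, n, c, hx⟩
  refine ⟨algebraMap C (Localization.Away s) c *
    IsLocalization.Away.invSelf s ^ n, Subtype.ext ?_⟩
  have h1 := congrArg F (IsLocalization.Away.mul_invSelf (S := Localization.Away s) s)
  rw [map_mul, map_one, hFe] at h1
  show F _ = x
  rw [map_mul, map_pow, hFe, ← hx, mul_right_comm, ← mul_pow, h1, one_pow, one_mul]

/-- a common denominator -/
theorem exists_den {C D K : Type} [CommRing C] [CommRing D] [IsDomain D] [Field K]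
    [hC : Algebra.FiniteType ℤ C] (φ : C →+* K) (ψ : D →+* K)
    (h : ∀ x : K, ∃ a b : D, ψ b ≠ 0 ∧ ψ b * x = ψ a) :
    ∃ t : D, t ≠ 0 ∧ ∀ c : C, φ c ∈ fr ψ t := by
  classical
  obtain ⟨S, hS⟩ := hC.out
  choose a b hb hab using h
  refine ⟨∏ g ∈ S, b (φ g), Finset.prod_ne_zero_iff.2 fun g _ h0 => hb (φ g) (by
    rw [h0, map_zero]), fun c => ?_⟩
  set t : D := ∏ g ∈ S, b (φ g) with ht
  have hc : c ∈ Algebra.adjoin ℤ (S : Set C) := by rw [hS]; trivial
  induction hc using Algebra.adjoin_induction with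
  | mem g hg =>
    refine ⟨1, (∏ i ∈ S.erase g, b (φ i)) * a (φ g), ?_⟩
    rw [pow_one, ht, ← Finset.prod_erase_mul S _ (Finset.mem_coe.1 hg), map_mul, mul_assoc, hab,
      map_mul]
  | algebraMap n =>
    rw [eq_intCast, map_intCast]
    exact intCast_mem _ n
  | add x y _ _ hx hy => rw [map_add]; exact add_mem hx hy
  | mul x y _ _ hx hy => rw [map_mul]; exact mul_mem hx hy

/-- one inclusion -/
theorem fr_le {C D K : Type} [CommRing C] [CommRing D] [Field K] (φ : C →+* K) (ψ : D →+* K)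
    (u α : C) (t β : D) (hu : φ u ≠ 0) (hα : φ α ≠ 0) (hC : ∀ c : C, φ c ∈ fr ψ t)
    (k l : ℕ) (h1 : φ u ^ k * ψ t = φ α) (h2 : ψ t ^ l * φ u = ψ β) :
    fr φ (u * α) ≤ fr ψ (t * β) := by
  have ht : ψ t ≠ 0 := fun h => hα (by rw [← h1, h, mul_zero])
  have hβ : ψ β ≠ 0 := by rw [← h2]; exact mul_ne_zero (pow_ne_zero _ ht) hu
  have hinv : (φ (u * α))⁻¹ ∈ fr ψ (t * β) := by
    refine ⟨k + 1, t ^ (l * (k + 1)) * t ^ k, ?_⟩
    have h3 : ψ (t * β) ^ (k + 1) = ψ (t ^ (l * (k + 1)) * t ^ k) * φ (u * α) := by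
      rw [map_mul, map_mul, map_mul, map_pow, map_pow, ← h1, ← h2]
      ring
    rw [h3, mul_inv_cancel_right₀]
    rw [map_mul]
    exact mul_ne_zero hu hα
  rintro x ⟨n, c, hx⟩
  have h4 : x = (φ (u * α))⁻¹ ^ n * φ c := by
    rw [← hx, ← mul_assoc, ← mul_pow, inv_mul_cancel₀, one_pow, one_mul]
    rw [map_mul]
    exact mul_ne_zero hu hα
  rw [h4]
  exact mul_mem (pow_mem hinv n) (fr_mono ψ t β (hC c))

/-- domains of finite type with the same field of fractions -/
theorem comm {C D K : Type} [CommRing C] [IsDomain C] [CommRing D] [IsDomain D] [Field K]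
    [Algebra.FiniteType ℤ C] [Algebra.FiniteType ℤ D] (φ : C →+* K) (ψ : D →+* K)
    (hφ : Function.Injective φ) (hψ : Function.Injective ψ)
    (h1 : ∀ x : K, ∃ a b : C, φ b ≠ 0 ∧ φ b * x = φ a)
    (h2 : ∀ x : K, ∃ a b : D, ψ b ≠ 0 ∧ ψ b * x = ψ a) :
    ∃ (s : C) (s' : D), s ≠ 0 ∧ s' ≠ 0 ∧
      Nonempty (Localization.Away s ≃+* Localization.Away s') := by
  obtain ⟨t, ht, hC⟩ := exists_den φ ψ h2
  obtain ⟨u, hu, hD⟩ := exists_den ψ φ h1
  obtain ⟨k, α, hα⟩ := hD t
  obtain ⟨l, β, hβ⟩ := hC u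
  have hu' : φ u ≠ 0 := (map_ne_zero_iff φ hφ).2 hu
  have ht' : ψ t ≠ 0 := (map_ne_zero_iff ψ hψ).2 ht
  have hα' : φ α ≠ 0 := by rw [← hα]; exact mul_ne_zero (pow_ne_zero _ hu') ht'
  have hβ' : ψ β ≠ 0 := by rw [← hβ]; exact mul_ne_zero (pow_ne_zero _ ht') hu'
  have hα0 : α ≠ 0 := fun h => hα' (by rw [h, map_zero])
  have hβ0 : β ≠ 0 := fun h => hβ' (by rw [h, map_zero])
  have e : fr φ (u * α) = fr ψ (t * β) :=
    le_antisymm (fr_le φ ψ u α t β hu' hα' hC k l hα hβ) (fr_le ψ φ t β u α ht' hβ' hD l k hβ hα)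
  obtain ⟨e1⟩ := fr_equiv φ hφ (u * α) (mul_ne_zero hu hα0)
  obtain ⟨e2⟩ := fr_equiv ψ hψ (t * β) (mul_ne_zero ht hβ0)
  exact ⟨u * α, t * β, mul_ne_zero hu hα0, mul_ne_zero ht hβ0,
    ⟨e1.trans ((RingEquiv.subringCongr e).trans e2.symm)⟩⟩

theorem inj {C K : Type} [CommRing C] [IsDomain C] [Field K] (e : FractionRing C ≃+* K) :
    Function.Injective ((e : FractionRing C →+* K).comp (algebraMap C (FractionRing C))) :=
  e.injective.comp (IsFractionRing.injective C (FractionRing C))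

theorem frac {C K : Type} [CommRing C] [IsDomain C] [Field K] (e : FractionRing C ≃+* K) (x : K) :
    ∃ a b : C, ((e : FractionRing C →+* K).comp (algebraMap C (FractionRing C))) b ≠ 0 ∧
      ((e : FractionRing C →+* K).comp (algebraMap C (FractionRing C))) b * x =
        ((e : FractionRing C →+* K).comp (algebraMap C (FractionRing C))) a := by
  obtain ⟨a, b, hb, hab⟩ := IsFractionRing.div_surjective (A := C) (e.symm x)
  have hb0 : b ≠ 0 := nonZeroDivisors.ne_zero hb
  have h1 : algebraMap C (FractionRing C) b ≠ 0 :=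
    (map_ne_zero_iff _ (IsFractionRing.injective C (FractionRing C))).2 hb0
  refine ⟨a, b, (map_ne_zero_iff _ (inj e)).2 hb0, ?_⟩
  have h2 : x = e (algebraMap C (FractionRing C) a / algebraMap C (FractionRing C) b) := by
    rw [hab, RingEquiv.apply_symm_apply]
  rw [h2]
  show e (algebraMap C (FractionRing C) b) * _ = e (algebraMap C (FractionRing C) a)
  rw [← map_mul, mul_div_cancel₀ _ h1]

/-! ### schemes -/

theorem ff0 (R : CommRingCat.{0}) [IsDomain R] :
    Nonempty (FractionRing R ≃+* (Spec R).functionField) :=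
  ⟨(FractionRing.algEquiv R (Spec R).functionField).toRingEquiv⟩

theorem ftZ (D : Type) [CommRing D] (i : Algebra ℤ D) (h : @Algebra.FiniteType ℤ D _ _ i) :
    @Algebra.FiniteType ℤ D _ _ (Ring.toIntAlgebra D) := by
  obtain rfl : i = Ring.toIntAlgebra D := Subsingleton.elim _ _
  exact h

/-- the field of fractions of an affine open subscheme -/
theorem ff (T : Scheme.{0}) [IsIntegral T] (E : Type) [CommRing E] [IsDomain E] (j : Sp E ⟶ T)
    [IsOpenImmersion j] : Nonempty (FractionRing E ≃+* T.functionField) := by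
  have hd : IsDomain (CommRingCat.of E) := inferInstanceAs (IsDomain E)
  obtain ⟨e1⟩ : Nonempty (FractionRing E ≃+* (Sp E).functionField) := ff0 (CommRingCat.of E)
  have h1 : j (genericPoint (Sp E)) = genericPoint T := genericPoint_eq_of_isOpenImmersion j
  let e2 : T.presheaf.stalk (j (genericPoint (Sp E))) ≅ (Sp E).presheaf.stalk (genericPoint (Sp E)) :=
    asIso (j.stalkMap (genericPoint (Sp E)))
  let e3 : T.presheaf.stalk (j (genericPoint (Sp E))) ≅ T.presheaf.stalk (genericPoint T) :=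
    T.presheaf.stalkCongr (.of_eq h1)
  exact ⟨e1.trans ((e2.symm.trans e3).commRingCatIsoToRingEquiv)⟩

/-- points different from the generic point -/
theorem pt (hDL : St_DL) (T : Scheme.{0}) [IsIntegral T] (d : ℕ) (hT : KrLe (d + 1) T.functionField)
    (z : T) (hz : z ≠ genericPoint T) : KrLe d (T.residueField z) := by
  refine hDL (T.presheaf.stalk z) T.functionField (T.residueField z) (T.residue z).hom ?_ ?_ d hT
  · by_contra hcon
    push Not at hcon
    apply hz
    have hg : genericPoint T ∈ Set.range (T.fromSpecStalk z) := by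
      rw [Scheme.range_fromSpecStalk]
      exact (genericPoint_spec T).specializes trivial
    obtain ⟨p, hp⟩ := hg
    have hm : IsLocalRing.maximalIdeal (T.presheaf.stalk z) = ⊥ := by
      rw [eq_bot_iff]
      intro a ha
      by_contra h0
      refine hcon a h0 ?_
      exact Ideal.Quotient.eq_zero_iff_mem.2 ha
    have hpc : p = IsLocalRing.closedPoint (T.presheaf.stalk z) := by
      apply PrimeSpectrum.ext
      have h2 : p.asIdeal ≤ IsLocalRing.maximalIdeal _ := IsLocalRing.le_maximalIdeal p.2.ne_top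
      rw [hm] at h2
      show p.asIdeal = IsLocalRing.maximalIdeal _
      rw [hm]
      exact eq_bot_iff.2 h2
    rw [← hp, hpc]
    exact Scheme.fromSpecStalk_closedPoint.symm
  · intro x
    obtain ⟨a, rfl⟩ := T.residue_surjective z x
    exact ⟨a, 1, by rw [map_one]; exact one_ne_zero, by rw [map_one, one_mul]⟩

section

variable {𝒮 : (G : Type 1) → [AddCommGroup G] → Prop}

/-- affine open subschemes -/
theorem opn (hDL : St_DL) (hK2 : St_K2) (hK3 : St_K3) (h𝒮 : SerreClass 𝒮) (d : ℕ) (hL : Low 𝒮 d)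
    (T : Scheme.{0}) [IsIntegral T] (hf : FinType ℤ T) (hT : KrLe (d + 1) T.functionField)
    (hK : ∀ n : ℕ, 𝒮 (KX n T)) (E : Type) [CommRing E] [IsDomain E] (j : Sp E ⟶ T)
    [IsOpenImmersion j] (n : ℕ) : 𝒮 (KX n (Sp E)) := by
  refine (hK3 𝒮 h𝒮 T (Sp E) j hf (fun z hz => ?_) n).1 (hK n)
  refine hK2 𝒮 h𝒮 d hL _ (pt hDL T d hT z ?_)
  rintro rfl
  exact hz ⟨genericPoint (Sp E), genericPoint_eq_of_isOpenImmersion j⟩

end

end V2

theorem thm_V2 (hDL : St_DL) (hK2 : St_K2) (hK3 : St_K3) : St_V2 := by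
  intro 𝒮 h𝒮 d hL T _ hf hT hK
  obtain ⟨f, hf1, hf2⟩ := id hf
  obtain ⟨W, hW, hgW, -⟩ := exists_isAffineOpen_mem_and_subset (x := genericPoint T) (U := ⊤) trivial
  have : IsAffine W.toScheme := hW
  have : Nonempty W := ⟨⟨_, hgW⟩⟩
  obtain ⟨C, _, iA, hC, ⟨e⟩⟩ := KGT.aff_alg (W.ι ≫ f)
  obtain rfl : iA = Ring.toIntAlgebra C := Subsingleton.elim _ _
  have hne : Nonempty (Sp C) := ⟨e.hom ⟨_, hgW⟩⟩
  have hCd : IsDomain C := by
    have h1 : IsIntegral W.toScheme := inferInstance
    have h2 : IsIntegral (Sp C) := isIntegral_of_isOpenImmersion e.inv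
    exact (affine_isIntegral_iff (CommRingCat.of C)).1 h2
  obtain ⟨s, hs, hreg⟩ := KGT.gen_reg C
  have hle : Submonoid.powers s ≤ nonZeroDivisors C :=
    powers_le_nonZeroDivisors_of_noZeroDivisors hs
  have hDd : IsDomain (Localization.Away s) := IsLocalization.isDomain_localization hle
  have hDf : Algebra.FiniteType C (Localization.Away s) :=
    IsLocalization.finiteType_of_monoid_fg (Submonoid.powers s) _
  have hDZ := V2.ftZ (Localization.Away s) _ (Algebra.FiniteType.trans (S := C) hC hDf)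
  have hj1 : IsOpenImmersion (Sm (algebraMap C (Localization.Away s))) :=
    inferInstanceAs (IsOpenImmersion (Spec.map (CommRingCat.ofHom
      (algebraMap C (Localization.Away s)))))
  let j : Sp (Localization.Away s) ⟶ T :=
    Sm (algebraMap C (Localization.Away s)) ≫ e.inv ≫ W.ι
  have hj : IsOpenImmersion j := inferInstance
  obtain ⟨eD⟩ := V2.ff T (Localization.Away s) j
  refine ⟨Localization.Away s, inferInstance, hDd, hDZ, hreg, ⟨eD⟩,
    V2.opn hDL hK2 hK3 h𝒮 d hL T hf hT hK _ j, fun κ _ ⟨eκ⟩ C' _ _ _ ⟨eC⟩ => ?_⟩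
  let φ : C' →+* T.functionField :=
    ((eC.trans eκ : FractionRing C' ≃+* T.functionField) : FractionRing C' →+* T.functionField).comp
      (algebraMap C' (FractionRing C'))
  let ψ : Localization.Away s →+* T.functionField :=
    (eD : FractionRing (Localization.Away s) →+* T.functionField).comp
      (algebraMap (Localization.Away s) (FractionRing (Localization.Away s)))
  obtain ⟨u, u', hu, hu', ⟨E⟩⟩ := V2.comm (K := T.functionField) φ ψ
    (V2.inj _) (V2.inj _) (V2.frac _) (V2.frac _)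
  refine ⟨u, hu, fun n => ?_⟩
  have hle' : Submonoid.powers u' ≤ nonZeroDivisors (Localization.Away s) :=
    powers_le_nonZeroDivisors_of_noZeroDivisors hu'
  have hDd' : IsDomain (Localization.Away u') := IsLocalization.isDomain_localization hle'
  have hE1 : IsDomain (Localization.Away u) := E.toMulEquiv.isDomain _
  have hj2 : IsOpenImmersion (Sm (algebraMap (Localization.Away s) (Localization.Away u'))) :=
    inferInstanceAs (IsOpenImmersion (Spec.map (CommRingCat.ofHom
      (algebraMap (Localization.Away s) (Localization.Away u')))))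
  let eS : Sp (Localization.Away u) ≅ Sp (Localization.Away u') :=
    Scheme.Spec.mapIso E.symm.toCommRingCatIso.op
  exact V2.opn hDL hK2 hK3 h𝒮 d hL T hf hT hK (Localization.Away u)
    (eS.hom ≫ Sm (algebraMap (Localization.Away s) (Localization.Away u')) ≫ j) n

end Pool.Agent.BTF
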