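import Pool.Agent.BTF.St3
import Pool.Agent.BTF.V2
import Mathlib.RingTheory.RegularLocalRing.Polynomial

/-!
# BTF, module PIII (helper58): part (III), domination, the final form
-/

set_option autoImplicit false

noncomputable section

namespace Pool.Agent.BTF

open CategoryTheory CategoryTheory.Limits AlgebraicGeometry Pool.Agent.KPR Pool.Agent.KTX
open Pool.Agent.KGT.W (SerreClass FinType)

namespace PIII

/-- proper schemes over the integers are of finite type -/
theorem finType {X : Scheme.{0}} (h : ProperZ X) : FinType ℤ X := by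
  obtain ⟨f, hf⟩ := h
  exact ⟨f, inferInstance, inferInstance⟩

/-- proper schemes over the integers are separated -/
theorem sep {X : Scheme.{0}} (h : ProperZ X) : X.IsSeparated := by
  obtain ⟨f, hf⟩ := h
  constructor
  rw [← terminal.comp_from f]
  infer_instance

theorem alg_of {K K' : Type} [Field K] [Field K'] (φ : K →+* K') (N : ℕ) (h : FinDeg φ N)
    (z : K') : ∃ p : Polynomial K, p ≠ 0 ∧ Polynomial.eval₂ φ z p = 0 := by
  let _ : Algebra K K' := φ.toAlgebra
  have hf : FiniteDimensional K K' := h.1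
  exact Algebra.IsAlgebraic.isAlgebraic (R := K) z

theorem finDeg_comp {K K' K'' : Type} [Field K] [Field K'] [Field K''] (φ : K →+* K')
    (e : K' ≃+* K'') (N : ℕ) (h : FinDeg φ N) : FinDeg ((e : K' →+* K'').comp φ) N := by
  let a1 : Algebra K K' := φ.toAlgebra
  let a2 : Algebra K K'' := ((e : K' →+* K'').comp φ).toAlgebra
  obtain ⟨h1, h3⟩ := h
  let e' : K' ≃ₐ[K] K'' := AlgEquiv.ofRingEquiv (f := e) (fun _ => rfl)
  refine ⟨Module.Finite.equiv e'.toLinearEquiv, ?_⟩
  rw [← e'.toLinearEquiv.finrank_eq]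
  exact h3

/-- rational function fields of isomorphic fields -/
theorem ratFunc {F F' : Type} [Field F] [Field F'] (e : F ≃+* F') :
    Nonempty (RatFunc F ≃+* RatFunc F') :=
  ⟨IsFractionRing.ringEquivOfRingEquiv (K := RatFunc F) (L := RatFunc F') (Polynomial.mapEquiv e)⟩

/-- the field of fractions of `D[t]` -/
theorem frac_poly (D : Type) [CommRing D] [IsDomain D] :
    Nonempty (RatFunc (FractionRing D) ≃+* FractionRing (Polynomial D)) := by
  let F := FractionRing D
  let ι : Polynomial D →+* RatFunc F := (algebraMap (Polynomial F) (RatFunc F)).comp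
    (Polynomial.mapRingHom (algebraMap D F))
  have hι : Function.Injective ι :=
    (IsFractionRing.injective (Polynomial F) (RatFunc F)).comp
      (Polynomial.map_injective _ (IsFractionRing.injective D F))
  let a : Algebra (Polynomial D) (RatFunc F) := ι.toAlgebra
  have hf : FaithfulSMul (Polynomial D) (RatFunc F) :=
    (faithfulSMul_iff_algebraMap_injective _ _).2 hι
  have hC : ∀ (b : D) (p : Polynomial F) (p' : Polynomial D),
      p'.map (algebraMap D F) = b • p →
      ι p' = ι (Polynomial.C b) * algebraMap (Polynomial F) (RatFunc F) p := by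
    intro b p p' h
    show algebraMap (Polynomial F) (RatFunc F) (p'.map (algebraMap D F)) =
      algebraMap (Polynomial F) (RatFunc F) ((Polynomial.C b).map (algebraMap D F)) * _
    rw [h, ← map_mul]
    congr 1
    rw [Polynomial.map_C, ← Polynomial.smul_eq_C_mul, algebraMap_smul]
  have hfr : IsFractionRing (Polynomial D) (RatFunc F) := by
    refine IsFractionRing.of_field _ _ (fun z => ?_)
    obtain ⟨p, q, hq, rfl⟩ := IsFractionRing.div_surjective (A := Polynomial F) z
    obtain ⟨b₁, hb₁, h₁⟩ := IsLocalization.integerNormalization_spec (nonZeroDivisors D) p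
    obtain ⟨b₂, hb₂, h₂⟩ := IsLocalization.integerNormalization_spec (nonZeroDivisors D) q
    obtain ⟨p', hp'⟩ : ∃ p', p' = IsLocalization.integerNormalization (nonZeroDivisors D) p :=
      ⟨_, rfl⟩
    obtain ⟨q', hq'⟩ : ∃ q', q' = IsLocalization.integerNormalization (nonZeroDivisors D) q :=
      ⟨_, rfl⟩
    rw [← hp'] at h₁
    rw [← hq'] at h₂
    have e₁ := hC b₁ p p' h₁
    have e₂ := hC b₂ q q' h₂
    have n₁ : ι (Polynomial.C b₁) ≠ 0 := (map_ne_zero_iff ι hι).2
      (Polynomial.C_ne_zero.2 (nonZeroDivisors.ne_zero hb₁))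
    have n₂ : ι (Polynomial.C b₂) ≠ 0 := (map_ne_zero_iff ι hι).2
      (Polynomial.C_ne_zero.2 (nonZeroDivisors.ne_zero hb₂))
    have n₃ : algebraMap (Polynomial F) (RatFunc F) q ≠ 0 :=
      (map_ne_zero_iff _ (IsFractionRing.injective (Polynomial F) (RatFunc F))).2
        (nonZeroDivisors.ne_zero hq)
    refine ⟨Polynomial.C b₂ * p', Polynomial.C b₁ * q', ?_⟩
    show _ = ι _ / ι _
    rw [map_mul, map_mul, e₁, e₂]
    field_simp
  exact ⟨(FractionRing.algEquiv (Polynomial D) (RatFunc F)).toRingEquiv.symm⟩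

/-- affine schemes of regular rings -/
theorem regular_Sp (R : Type) [CommRing R] [IsRegularRing R] : KGT.W.Regular (Sp R) :=
  fun x => IsRegularLocalRing.of_ringEquiv
    (Spec.stalkIso (CommRingCat.of R) x).symm.commRingCatIsoToRingEquiv

theorem finType_Sp (R : Type) [CommRing R] (h : Algebra.FiniteType ℤ R) : FinType ℤ (Sp R) := by
  refine ⟨Sm (algebraMap ℤ R), ?_, inferInstance⟩
  refine (HasRingHomProperty.Spec_iff (P := @LocallyOfFiniteType)).2 ?_
  exact RingHom.finiteType_algebraMap.2 h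

/-- isomorphic groups -/
theorem iso {𝒮 : (G : Type 1) → [AddCommGroup G] → Prop} (h𝒮 : SerreClass 𝒮) {G G' : Type 1}
    [AddCommGroup G] [AddCommGroup G'] (e : G ≃+ G') (h : 𝒮 G) : 𝒮 G' := by
  refine h𝒮.exact G G' PUnit e.toAddMonoidHom 0 (fun x => ?_) h (h𝒮.zero _)
  exact ⟨fun _ => ⟨e.symm x, e.apply_symm_apply x⟩, fun _ => rfl⟩

/-- homotopy invariance -/
theorem poly (hRL : St_RL) {𝒮 : (G : Type 1) → [AddCommGroup G] → Prop} (h𝒮 : SerreClass 𝒮)
    (n : ℕ) (D : Type) [CommRing D] [IsNoetherianRing D] (h : 𝒮 (KX n (Sp D))) :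
    𝒮 (KX n (Sp (Polynomial D))) := by
  obtain ⟨L, -, hL, -⟩ := hRL
  obtain ⟨e1⟩ := hL n (Sp D)
  obtain ⟨e2⟩ := hL n (Sp (Polynomial D))
  have hf : Flat (Sm (Polynomial.C : D →+* Polynomial D)) := by
    refine (HasRingHomProperty.Spec_iff (P := @Flat)).2 ?_
    exact (RingHom.flat_algebraMap_iff (R := D) (S := Polynomial D)).2 inferInstance
  have hb := (L.th n).hom D (Sm (Polynomial.C : D →+* Polynomial D)) (𝟙 _) (𝟙 _)
    (IsPullback.of_vert_isIso ⟨by simp⟩)
  exact iso h𝒮 ((e1.symm.trans (AddEquiv.ofBijective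
    ((L.th n).pull (Sm (Polynomial.C : D →+* Polynomial D))) hb)).trans e2) h

section

variable {𝒮 : (G : Type 1) → [AddCommGroup G] → Prop}

/-- affine open subschemes, in one degree -/
theorem opn (hDL : St_DL) (hK2 : St_K2) (hK3 : St_K3) (h𝒮 : SerreClass 𝒮) (d : ℕ) (hL : Low 𝒮 d)
    (T : Scheme.{0}) [IsIntegral T] (hf : FinType ℤ T) (hT : KrLe (d + 1) T.functionField)
    (n : ℕ) (hK : 𝒮 (KX n T)) (E : Type) [CommRing E] [IsDomain E] (j : Sp E ⟶ T)
    [IsOpenImmersion j] : 𝒮 (KX n (Sp E)) := by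
  refine (hK3 𝒮 h𝒮 T (Sp E) j hf (fun z hz => ?_) n).1 hK
  refine hK2 𝒮 h𝒮 d hL _ (V2.pt hDL T d hT z ?_)
  rintro rfl
  exact hz ⟨genericPoint (Sp E), genericPoint_eq_of_isOpenImmersion j⟩

/-- `V2` in one degree -/
theorem v2 (hDL : St_DL) (hK2 : St_K2) (hK3 : St_K3) (h𝒮 : SerreClass 𝒮) (d : ℕ) (hL : Low 𝒮 d)
    (T : Scheme.{0}) [IsIntegral T] (hf : FinType ℤ T) (hT : KrLe (d + 1) T.functionField)
    (n : ℕ) (hK : 𝒮 (KX n T)) :
    ∃ (D : Type) (_ : CommRing D) (_ : IsDomain D), Algebra.FiniteType ℤ D ∧ IsRegularRing D ∧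
      Nonempty (FractionRing D ≃+* T.functionField) ∧ 𝒮 (KX n (Sp D)) ∧
      ∀ (κ : Type) [Field κ], Nonempty (κ ≃+* T.functionField) → GoodIn 𝒮 n κ := by
  obtain ⟨f, hf1, hf2⟩ := id hf
  obtain ⟨W, hW, hgW, -⟩ := exists_isAffineOpen_mem_and_subset (x := genericPoint T) (U := ⊤) trivial
  have : IsAffine W.toScheme := hW
  have : Nonempty W := ⟨⟨_, hgW⟩⟩
  obtain ⟨C, _, iA, hC, ⟨e⟩⟩ := KGT.aff_alg (W.ι ≫ f)
  obtain rfl : iA = Ring.toIntAlgebra C := Subsingleton.elim _ _
  have hne : Nonempty (Sp C) := ⟨e.hom ⟨_, hgW⟩⟩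
  have hCd : IsDomain C := by
    have h1 : IsIntegral W.toScheme := inferInstance
    have h2 : IsIntegral (Sp C) := isIntegral_of_isOpenImmersion e.inv
    exact (affine_isIntegral_iff (CommRingCat.of C)).1 h2
  obtain ⟨s, hs, hreg⟩ := KGT.gen_reg C
  have hle : Submonoid.powers s ≤ nonZeroDivisors C :=
    powers_le_nonZeroDivisors_of_noZeroDivisors hs
  have hDd : IsDomain (Localization.Away s) := IsLocalization.isDomain_localization hle
  have hDf : Algebra.FiniteType C (Localization.Away s) :=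
    IsLocalization.finiteType_of_monoid_fg (Submonoid.powers s) _
  have hDZ := V2.ftZ (Localization.Away s) _ (Algebra.FiniteType.trans (S := C) hC hDf)
  have hj1 : IsOpenImmersion (Sm (algebraMap C (Localization.Away s))) :=
    inferInstanceAs (IsOpenImmersion (Spec.map (CommRingCat.ofHom
      (algebraMap C (Localization.Away s)))))
  let j : Sp (Localization.Away s) ⟶ T :=
    Sm (algebraMap C (Localization.Away s)) ≫ e.inv ≫ W.ι
  have hj : IsOpenImmersion j := inferInstance
  obtain ⟨eD⟩ := V2.ff T (Localization.Away s) j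
  refine ⟨Localization.Away s, inferInstance, hDd, hDZ, hreg, ⟨eD⟩,
    opn hDL hK2 hK3 h𝒮 d hL T hf hT n hK _ j, fun κ _ ⟨eκ⟩ C' _ _ _ ⟨eC⟩ => ?_⟩
  let φ : C' →+* T.functionField :=
    ((eC.trans eκ : FractionRing C' ≃+* T.functionField) : FractionRing C' →+* T.functionField).comp
      (algebraMap C' (FractionRing C'))
  let ψ : Localization.Away s →+* T.functionField :=
    (eD : FractionRing (Localization.Away s) →+* T.functionField).comp
      (algebraMap (Localization.Away s) (FractionRing (Localization.Away s)))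
  obtain ⟨u, u', hu, hu', ⟨E⟩⟩ := V2.comm (K := T.functionField) φ ψ
    (V2.inj _) (V2.inj _) (V2.frac _) (V2.frac _)
  refine ⟨u, hu, ?_⟩
  have hle' : Submonoid.powers u' ≤ nonZeroDivisors (Localization.Away s) :=
    powers_le_nonZeroDivisors_of_noZeroDivisors hu'
  have hDd' : IsDomain (Localization.Away u') := IsLocalization.isDomain_localization hle'
  have hE1 : IsDomain (Localization.Away u) := E.toMulEquiv.isDomain _
  have hj2 : IsOpenImmersion (Sm (algebraMap (Localization.Away s) (Localization.Away u'))) :=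
    inferInstanceAs (IsOpenImmersion (Spec.map (CommRingCat.ofHom
      (algebraMap (Localization.Away s) (Localization.Away u')))))
  let eS : Sp (Localization.Away u) ≅ Sp (Localization.Away u') :=
    Scheme.Spec.mapIso E.symm.toCommRingCatIso.op
  exact opn hDL hK2 hK3 h𝒮 d hL T hf hT n hK (Localization.Away u)
    (eS.hom ≫ Sm (algebraMap (Localization.Away s) (Localization.Away u')) ≫ j)

end

end PIII

theorem thm_PIII (hRL : St_RL) (hDL : St_DL) (hKL : St_KL) (hKA : St_KA) (hK2 : St_K2)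
    (hK3 : St_K3) (hC1 : St_C1) (hC2 : St_C2) (hN9 : St_N9) : St_PIII := by
  intro 𝒮 h𝒮 d hL
  have hdom := hN9 𝒮 h𝒮 d hL
  refine ⟨?_, ?_⟩
  · intro X Y _ _ hX hXr hXk hY hYr φ N hφ n hn
    have hs : Y.IsSeparated := PIII.sep hY
    have hk : KrLe (d + 2) Y.functionField := hKA _ _ φ (PIII.alg_of φ N hφ) (d + 2) hXk
    exact hdom X Y hX hXr hXk (PIII.finType hY) hYr φ N hφ n (hC1 𝒮 h𝒮 d hL Y hY hYr hk n) hn
  · intro X T _ _ hX hXr hXk hT φ N hφ n hn
    have hkR : KrLe (d + 2) (RatFunc T.functionField) :=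
      hKA _ _ φ (PIII.alg_of φ N hφ) (d + 2) hXk
    have hkT : KrLe (d + 1) T.functionField :=
      hKL T.functionField (RatFunc T.functionField) ⟨RingEquiv.refl _⟩ (d + 1) hkR
    obtain ⟨D, _, _, hD, hDr, ⟨eD⟩, hDn, hgood⟩ := PIII.v2 hDL hK2 hK3 h𝒮 d hL T hT hkT n hn
    obtain ⟨r⟩ := PIII.ratFunc eD
    have hkD : KrLe (d + 1) (FractionRing D) :=
      hKL (FractionRing D) (RatFunc T.functionField) ⟨r.symm⟩ (d + 1) hkR
    have hdP : IsDomain (CommRingCat.of (Polynomial D)) := inferInstanceAs (IsDomain (Polynomial D))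
    have hint : IsIntegral (Sp (Polynomial D)) := inferInstance
    obtain ⟨e0⟩ := PIII.frac_poly D
    obtain ⟨e1⟩ := V2.ff0 (CommRingCat.of (Polynomial D))
    let e : RatFunc T.functionField ≃+* (Sp (Polynomial D)).functionField :=
      (r.symm.trans e0).trans e1
    have hDP : Algebra.FiniteType ℤ (Polynomial D) :=
      V2.ftZ (Polynomial D) _ (Algebra.FiniteType.trans (S := D) hD inferInstance)
    have hc := hC2 𝒮 h𝒮 d hL D (FractionRing D) hkD n (hgood (FractionRing D) ⟨eD⟩)
    exact hdom X (Sp (Polynomial D)) hX hXr hXk (PIII.finType_Sp _ hDP) (PIII.regular_Sp _)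
      ((e : RatFunc T.functionField →+* (Sp (Polynomial D)).functionField).comp φ) N
      (PIII.finDeg_comp φ e N hφ) n hc (PIII.poly hRL h𝒮 n D hDn)

end Pool.Agent.BTF
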