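import Pool.Agent.BTF.St4
import Pool.Agent.BTF.PI

/-!
# BTF, PIM: birational invariance for isomorphisms modulo a Serre class

MP_e17fa799_al. helper98.
-/

set_option autoImplicit false

noncomputable section

namespace Pool.Agent.BTF

open CategoryTheory CategoryTheory.Limits AlgebraicGeometry Pool.Agent.KPR
open Pool.Agent.KGT.W (SerreClass FinType)

/-- **PIM** (I) for isomorphisms modulo `𝒮` -/
theorem thm_PIM (hKL : St_KL) (hAB : St_AB) (hK2 : St_K2) (hK3M : St_K3M) (hK4 : St_K4)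
    (hG0 : St_G0) (hG1 : St_G1) (hG2 : St_G2) (hG3 : St_G3) (hG4 : St_G4) : St_PIM := by
  intro 𝒮 h𝒮 d hlow X Y B _ _ _ f g _ _ hB hrX hrY hkr hbir n
  obtain ⟨θ, hθ⟩ := hG0 X Y B f g hbir
  obtain ⟨U, i, j, hi, hj, h1, h2⟩ := hG1 X Y B f g θ hθ
  have hX : FinType ℤ X := PI.finType_comp f hB
  have hY : FinType ℤ Y := PI.finType_comp g hB
  have hkr' : KrLe (d + 2) Y.functionField :=
    PI.krLe_of_equiv θ.symm.commRingCatIsoToRingEquiv (d + 2) hkr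
  have hgX : ∀ x : X, x ∉ Set.range i → Good 𝒮 (X.residueField x) := fun x hx =>
    PI.good_side hKL hAB hK2 hK4 hG2 hG3 hG4 𝒮 h𝒮 d hlow X Y B f g θ hθ hX hrX hrY hkr x (h1 x hx)
  have hgY : ∀ y : Y, y ∉ Set.range j → Good 𝒮 (Y.residueField y) := fun y hy =>
    PI.good_side hKL hAB hK2 hK4 hG2 hG3 hG4 𝒮 h𝒮 d hlow Y X B g f θ.symm
      (PI.overB_symm θ f g hθ) hY hrY hrX hkr' y
      (fun x hx => h2 y hy x (PI.compat_symm θ x y hx))
  obtain ⟨u, hu1, hu2⟩ := hK3M 𝒮 h𝒮 X U i hX hgX n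
  obtain ⟨v, hv1, hv2⟩ := hK3M 𝒮 h𝒮 Y U j hY hgY n
  exact ⟨KX n U, inferInstance, u, v, hu1, hu2, hv1, hv2⟩

end Pool.Agent.BTF
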