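import Pool.Agent.BTF.St3
import Pool.Agent.KGT.Real
import Pool.Agent.KQH.HomAll

/-!
# BTF RL: Quillen's groups as a graded theory
-/

set_option autoImplicit false
set_option linter.style.haveILetI false

noncomputable section

namespace Pool.Agent.BTF

open CategoryTheory CategoryTheory.Limits Function Pool.Agent.KQ Pool.Agent.KQG AlgebraicGeometry
open Pool.Agent.KTX Pool.Agent.KPR Pool.Agent.KGT Pool.Agent.KQH

/-- **RL** -/
theorem thm_RL : St_RL := by
  obtain ⟨L, e, h1, h2, h3⟩ := all_THY (kInt all_HOMK)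
  refine ⟨L, ?_, fun n X => ⟨(e n X).trans (kxEquiv n X).symm⟩, h1⟩
  intro n A _ _ _ x
  rcases n with n | n
  · apply (e n (Sp (Polynomial A))).injective
    exact (h3 n _ _ _ x).trans ((push_zero (kInt all_HOMK) n A _).trans (map_zero _).symm)
  · exact h1 n _ _

end Pool.Agent.BTF
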