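import Pool.Agent.BTF.St

/-!
helper82. Module G3 of BTF: the local rings of schemes of finite type over the integers are
localisations of finitely generated rings.
-/

set_option autoImplicit false

namespace Pool.Agent.BTF

open CategoryTheory CategoryTheory.Limits AlgebraicGeometry Pool.Agent.KPR
open Pool.Agent.KGT.W (SerreClass FinType)

namespace G3

theorem closure_of_adjoin {V : Type} [CommRing V] (s : Set V) (v : V)
    (h : v ∈ Algebra.adjoin ℤ s) : v ∈ Subring.closure s := by
  refine Algebra.adjoin_induction (fun x hx => Subring.subset_closure hx) (fun n => ?_)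
    (fun _ _ _ _ hx hy => Subring.add_mem _ hx hy) (fun _ _ _ _ hx hy => Subring.mul_mem _ hx hy) h
  rw [eq_intCast]
  exact intCast_mem _ n

theorem essFin_of {V : Type} [CommRing V] (h : Algebra.EssFiniteType ℤ V) : EssFin V := by
  obtain ⟨s, hs⟩ := (Algebra.essFiniteType_iff ℤ V).1 h
  refine ⟨s, fun v => ?_⟩
  obtain ⟨t, ht, hu, hv⟩ := hs v
  refine ⟨v * t, closure_of_adjoin _ _ hv, t, closure_of_adjoin _ _ ht, hu, mul_comm t v⟩

theorem ess_loc {R S : Type} [CommRing R] [CommRing S] (φ : R →+* S) (M : Submonoid R)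
    (h : @IsLocalization R _ M S _ φ.toAlgebra) : φ.EssFiniteType := by
  unfold RingHom.EssFiniteType
  letI := φ.toAlgebra
  exact Algebra.EssFiniteType.of_isLocalization S M

theorem ess_stalk (p : Spec (CommRingCat.of ℤ)) :
    (Int.castRingHom ((Spec (CommRingCat.of ℤ)).presheaf.stalk p)).EssFiniteType := by
  have h : @IsLocalization (CommRingCat.of ℤ) _ p.asIdeal.primeCompl
      ((Spec (CommRingCat.of ℤ)).presheaf.stalk p) _
      (StructureSheaf.toStalk (CommRingCat.of ℤ) p).hom.toAlgebra :=
    StructureSheaf.IsLocalization.to_stalk (CommRingCat.of ℤ) p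
  have h1 := ess_loc _ _ h
  have h2 : (StructureSheaf.toStalk (CommRingCat.of ℤ) p).hom =
      Int.castRingHom ((Spec (CommRingCat.of ℤ)).presheaf.stalk p) :=
    RingHom.ext_int _ _
  rw [h2] at h1
  exact h1

end G3

open G3 in
theorem thm_G3 : St_G3 := by
  intro X hX x
  obtain ⟨f, hf, _⟩ := hX
  have h1 : (f.stalkMap x).hom.EssFiniteType := LocallyOfFiniteType.stalkMap f x
  have h2 := RingHom.EssFiniteType.comp (ess_stalk (f x)) h1
  apply essFin_of
  rw [← RingHom.essFiniteType_algebraMap]
  rwa [Subsingleton.elim (algebraMap ℤ (X.presheaf.stalk x)) _]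

end Pool.Agent.BTF
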