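import Pool.Agent.BTF.St
import Pool.Agent.BTF.G3

/-!
# BTF, module T0 (helper81): the coefficient field of a rational function field

If the rational function field `F(t)` is the field of fractions of a scheme of finite type over the
integers, then `F` is the field of fractions of a finitely generated ring.
-/

set_option autoImplicit false

noncomputable section

namespace Pool.Agent.BTF

open CategoryTheory CategoryTheory.Limits AlgebraicGeometry Pool.Agent.KPR
open Pool.Agent.KGT.W (SerreClass FinType)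

namespace T0

/-! ### transport -/

theorem closure_map {A B : Type} [CommRing A] [CommRing B] (e : A →+* B) (s : Set A) (a : A)
    (ha : a ∈ Subring.closure s) : e a ∈ Subring.closure (e '' s) := by
  rw [← RingHom.map_closure]
  exact Subring.mem_map.2 ⟨a, ha, rfl⟩

theorem essFin_equiv {A B : Type} [CommRing A] [CommRing B] (e : A ≃+* B) (h : EssFin A) :
    EssFin B := by
  classical
  obtain ⟨s, hs⟩ := h
  refine ⟨s.image e, fun v => ?_⟩
  obtain ⟨a, ha, b, hb, hu, hv⟩ := hs (e.symm v)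
  rw [Finset.coe_image]
  refine ⟨e a, closure_map (e : A →+* B) _ a ha, e b, closure_map (e : A →+* B) _ b hb,
    hu.map e, ?_⟩
  rw [← hv, map_mul, RingEquiv.apply_symm_apply]

/-! ### coefficients -/

/-- the rational functions with coefficients in a subring -/
def Fr {F : Type} [Field F] (D : Subring F) (x : RatFunc F) : Prop :=
  ∃ P Q : Polynomial F, (∀ i, P.coeff i ∈ D) ∧ (∀ i, Q.coeff i ∈ D) ∧ Q ≠ 0 ∧
    algebraMap (Polynomial F) (RatFunc F) Q * x = algebraMap (Polynomial F) (RatFunc F) P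

theorem coeff_mul_mem {F : Type} [Field F] (D : Subring F) (P Q : Polynomial F)
    (hP : ∀ i, P.coeff i ∈ D) (hQ : ∀ i, Q.coeff i ∈ D) (i : ℕ) : (P * Q).coeff i ∈ D := by
  rw [Polynomial.coeff_mul]
  exact Subring.sum_mem _ fun p _ => Subring.mul_mem _ (hP _) (hQ _)

theorem coeff_add_mem {F : Type} [Field F] (D : Subring F) (P Q : Polynomial F)
    (hP : ∀ i, P.coeff i ∈ D) (hQ : ∀ i, Q.coeff i ∈ D) (i : ℕ) : (P + Q).coeff i ∈ D := by
  rw [Polynomial.coeff_add]
  exact Subring.add_mem _ (hP _) (hQ _)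

theorem coeff_one_mem {F : Type} [Field F] (D : Subring F) (i : ℕ) :
    (1 : Polynomial F).coeff i ∈ D := by
  rw [Polynomial.coeff_one]
  split_ifs
  · exact Subring.one_mem _
  · exact Subring.zero_mem _

theorem fr_closure {F : Type} [Field F] (D : Subring F) (s : Set (RatFunc F))
    (hs : ∀ x ∈ s, Fr D x) (x : RatFunc F) (hx : x ∈ Subring.closure s) : Fr D x := by
  refine Subring.closure_induction (p := fun x _ => Fr D x) (fun x hx => hs x hx) ?_ ?_ ?_ ?_ ?_ hx
  · exact ⟨0, 1, fun i => by rw [Polynomial.coeff_zero]; exact Subring.zero_mem _,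
      coeff_one_mem D, one_ne_zero, by simp⟩
  · exact ⟨1, 1, coeff_one_mem D, coeff_one_mem D, one_ne_zero, by simp⟩
  · rintro x y - - ⟨P, Q, hP, hQ, hQ0, h1⟩ ⟨P', Q', hP', hQ', hQ0', h2⟩
    refine ⟨P * Q' + P' * Q, Q * Q', coeff_add_mem D _ _ (coeff_mul_mem D _ _ hP hQ')
      (coeff_mul_mem D _ _ hP' hQ), coeff_mul_mem D _ _ hQ hQ', mul_ne_zero hQ0 hQ0', ?_⟩
    rw [map_mul, map_add, map_mul, map_mul, ← h1, ← h2]
    ring
  · rintro x - ⟨P, Q, hP, hQ, hQ0, h1⟩
    refine ⟨-P, Q, fun i => ?_, hQ, hQ0, ?_⟩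
    · rw [Polynomial.coeff_neg]
      exact Subring.neg_mem _ (hP i)
    · rw [map_neg, ← h1, mul_neg]
  · rintro x y - - ⟨P, Q, hP, hQ, hQ0, h1⟩ ⟨P', Q', hP', hQ', hQ0', h2⟩
    refine ⟨P * P', Q * Q', coeff_mul_mem D _ _ hP hP', coeff_mul_mem D _ _ hQ hQ',
      mul_ne_zero hQ0 hQ0', ?_⟩
    rw [map_mul, map_mul, ← h1, ← h2]
    ring

/-- every element of the coefficient field is a quotient of elements of the subring -/
theorem quot {F : Type} [Field F] (D : Subring F) (s : Set (RatFunc F)) (hs : ∀ x ∈ s, Fr D x)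
    (hq : ∀ v : RatFunc F, ∃ a ∈ Subring.closure s, ∃ b ∈ Subring.closure s,
      IsUnit b ∧ b * v = a) (c : F) : ∃ p ∈ D, ∃ q ∈ D, q ≠ 0 ∧ q * c = p := by
  obtain ⟨a, ha, b, hb, hu, hv⟩ := hq (algebraMap (Polynomial F) (RatFunc F) (Polynomial.C c))
  obtain ⟨P, Q, hP, hQ, hQ0, h1⟩ := fr_closure D s hs a ha
  obtain ⟨P', Q', hP', hQ', hQ0', h2⟩ := fr_closure D s hs b hb
  have hi : Function.Injective (algebraMap (Polynomial F) (RatFunc F)) :=
    IsFractionRing.injective (Polynomial F) (RatFunc F)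
  have hP0' : P' ≠ 0 := by
    intro h0
    rw [h0, map_zero] at h2
    rcases mul_eq_zero.1 h2 with h3 | h3
    · exact hQ0' ((map_eq_zero_iff _ hi).1 h3)
    · rw [h3] at hu
      exact not_isUnit_zero hu
  have h4 : Q * P' * Polynomial.C c = Q' * P := by
    apply hi
    rw [map_mul, map_mul, map_mul, ← h1, ← h2, ← hv]
    ring
  have h5 : Q * P' ≠ 0 := mul_ne_zero hQ0 hP0'
  refine ⟨(Q' * P).coeff (Q * P').natDegree, coeff_mul_mem D _ _ hQ' hP _,
    (Q * P').coeff (Q * P').natDegree, coeff_mul_mem D _ _ hQ hP' _, ?_, ?_⟩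
  · rw [Polynomial.coeff_natDegree]
    exact Polynomial.leadingCoeff_ne_zero.2 h5
  · rw [← h4, Polynomial.coeff_mul_C]

/-- the coefficients of the elements of a finite set -/
theorem coeffs {F : Type} [Field F] (s : Finset (RatFunc F)) :
    ∃ t : Finset F, ∀ x ∈ s, Fr (Subring.closure (t : Set F)) x := by
  classical
  refine ⟨s.biUnion fun f => f.num.coeffs ∪ f.denom.coeffs, fun x hx => ?_⟩
  have key : ∀ R : Polynomial F, R.coeffs ⊆ x.num.coeffs ∪ x.denom.coeffs → ∀ i : ℕ,
      R.coeff i ∈ Subring.closure ((s.biUnion fun f => f.num.coeffs ∪ f.denom.coeffs : Finset F) :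
        Set F) := by
    intro R hR i
    by_cases h0 : R.coeff i = 0
    · rw [h0]
      exact Subring.zero_mem _
    · refine Subring.subset_closure (Finset.mem_coe.2 (Finset.mem_biUnion.2 ⟨x, hx, hR ?_⟩))
      exact Polynomial.coeff_mem_coeffs h0
  refine ⟨x.num, x.denom, key _ Finset.subset_union_left, key _ Finset.subset_union_right,
    x.denom_ne_zero, ?_⟩
  have h1 := RatFunc.num_div_denom x
  have h2 : algebraMap (Polynomial F) (RatFunc F) x.denom ≠ 0 :=
    (map_ne_zero_iff _ (IsFractionRing.injective (Polynomial F) (RatFunc F))).2 x.denom_ne_zero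
  nth_rewrite 2 [← h1]
  exact mul_div_cancel₀ _ h2

/-! ### the ring -/

theorem isFrac {F : Type} [Field F] (D : Subring F)
    (h : ∀ c : F, ∃ p ∈ D, ∃ q ∈ D, q ≠ 0 ∧ q * c = p) : IsFractionRing D F := by
  refine IsFractionRing.of_field D F fun c => ?_
  obtain ⟨p, hp, q, hq, hq0, h1⟩ := h c
  exact ⟨⟨p, hp⟩, ⟨q, hq⟩, by
    show c = p / q
    rw [eq_div_iff hq0, mul_comm, h1]⟩

theorem ft {F : Type} [Field F] (t : Finset F) :
    Algebra.FiniteType ℤ (Subring.closure (t : Set F)) := by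
  have h1 : Algebra.FiniteType ℤ (Algebra.adjoin ℤ (t : Set F)) :=
    (Algebra.adjoin ℤ (t : Set F)).fg_iff_finiteType.1 ⟨t, rfl⟩
  exact Algebra.FiniteType.equiv h1 (Subring.closureEquivAdjoinInt (t : Set F)).symm

theorem ff0 (R : CommRingCat.{0}) [IsDomain R] :
    Nonempty (FractionRing R ≃+* (Spec R).functionField) :=
  ⟨(FractionRing.algEquiv R (Spec R).functionField).toRingEquiv⟩

end T0

open T0 in
theorem thm_T0 : St_T0 := by
  intro X _ hX F _ hF
  obtain ⟨e⟩ := hF
  have h1 : EssFin X.functionField := thm_G3 X hX (genericPoint X)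
  obtain ⟨s, hs⟩ := essFin_equiv e h1
  obtain ⟨t, ht⟩ := coeffs s
  have hD := isFrac (Subring.closure (t : Set F)) (quot _ _ (fun x hx => ht x hx) hs)
  have hft := ft t
  have hdom : IsDomain (CommRingCat.of (Subring.closure (t : Set F))) :=
    inferInstanceAs (IsDomain (Subring.closure (t : Set F)))
  refine ⟨Spec (CommRingCat.of (Subring.closure (t : Set F))), inferInstance, ?_, ?_⟩
  · refine ⟨Spec.map (CommRingCat.ofHom (algebraMap ℤ (Subring.closure (t : Set F)))), ?_,
      inferInstance⟩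
    rw [HasRingHomProperty.Spec_iff (P := @LocallyOfFiniteType)]
    exact RingHom.finiteType_algebraMap.2 hft
  · obtain ⟨e1⟩ := ff0 (CommRingCat.of (Subring.closure (t : Set F)))
    exact ⟨e1.symm.trans (FractionRing.algEquiv (Subring.closure (t : Set F)) F).toRingEquiv⟩

end Pool.Agent.BTF
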