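import Pool.Agent.BTF.St3
import Pool.Agent.BTF.G4

/-!
# BTF, module TM (helper74): the termination condition
-/

set_option autoImplicit false

noncomputable section

namespace Pool.Agent.BTF

namespace TM

open Cardinal

/-- a unit of `V` times an element -/
theorem mem_of {V : Type} [CommRing V] (R : Subring V) (hd : ∀ r : R, IsUnit (r : V) → IsUnit r)
    {a b v : V} (ha : a ∈ R) (hb : b ∈ R) (hu : IsUnit b) (h : b * v = a) : v ∈ R := by
  obtain ⟨c, hc⟩ := (hd ⟨b, hb⟩ hu).exists_left_inv
  have h1 : (c : V) * b = 1 := congrArg Subtype.val hc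
  have h2 : v = c * a := by rw [← h, ← mul_assoc, h1, one_mul]
  rw [h2]
  exact mul_mem c.2 ha

/-- a dominated valuation ring with the same fractions -/
theorem eq_top {V : Type} [CommRing V] [IsDomain V] (R : Subring V)
    (hd : ∀ r : R, IsUnit (r : V) → IsUnit r) (hf : ∀ v : V, ∃ a b : R, b ≠ 0 ∧ (b : V) * v = a)
    (hv : ∀ a b : R, a ∣ b ∨ b ∣ a) : R = ⊤ := by
  rw [eq_top_iff]
  intro v _
  obtain ⟨a, b, hb, h⟩ := hf v
  have hb' : (b : V) ≠ 0 := fun h0 => hb (Subtype.ext h0)
  rcases hv a b with ⟨c, hc⟩ | ⟨c, hc⟩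
  · have h1 : (b : V) = a * c := congrArg Subtype.val hc
    have h2 : (c : V) * v = 1 := by
      apply mul_left_cancel₀ hb'
      rw [mul_left_comm, h, mul_one, mul_comm, ← h1]
    exact mem_of R hd R.one_mem c.2 (IsUnit.of_mul_eq_one v h2) h2
  · have h1 : (a : V) = b * c := congrArg Subtype.val hc
    have h2 : v = c := by
      apply mul_left_cancel₀ hb'
      rw [h, h1]
    rw [h2]
    exact c.2

/-- algebraically independent elements over the prime field come from subfields -/
theorem trdeg_le {k κ : Type} [Field k] [Field κ] (φ : k →+* κ) (m : ℕ) (x : Fin m → k)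
    (hx : AlgebraicIndependent (⊥ : Subfield κ) (φ ∘ x)) :
    (m : Cardinal) ≤ Algebra.trdeg (⊥ : Subfield k) k := by
  have hle : (⊥ : Subfield k) ≤ (⊥ : Subfield κ).comap φ := bot_le
  let f : (⊥ : Subfield k) →+* (⊥ : Subfield κ) :=
    (φ.comp (⊥ : Subfield k).subtype).codRestrict (⊥ : Subfield κ) fun r => hle r.2
  have h1 : AlgebraicIndependent (⊥ : Subfield k) x :=
    AlgebraicIndependent.of_ringHom_of_comp_eq f φ hx (RingHom.injective f) rfl
  have h2 := h1.cardinalMk_le_trdeg
  rwa [Cardinal.mk_fin] at h2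

/-- a finite set which bounds the transcendence degree of the residue fields from below -/
theorem exists_set (V : Type) [CommRing V] [IsLocalRing V] (m : ℕ)
    (hm : (m : Cardinal) ≤
      Algebra.trdeg (⊥ : Subfield (IsLocalRing.ResidueField V)) (IsLocalRing.ResidueField V)) :
    ∃ s : Finset V, ∀ R : Subring V, ∀ _ : IsLocalRing R,
      (∀ r : R, IsUnit (r : V) → IsUnit r) → (s : Set V) ⊆ R →
      (m : Cardinal) ≤
        Algebra.trdeg (⊥ : Subfield (IsLocalRing.ResidueField R)) (IsLocalRing.ResidueField R) := by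
  classical
  obtain ⟨B, hB⟩ := exists_isTranscendenceBasis'
    (⊥ : Subfield (IsLocalRing.ResidueField V)) (IsLocalRing.ResidueField V)
  obtain ⟨t, ht⟩ := hB
  rw [← ht.cardinalMk_eq_trdeg, ← Cardinal.mk_fin m, Cardinal.le_def] at hm
  obtain ⟨g⟩ := hm
  have hi : AlgebraicIndependent (⊥ : Subfield (IsLocalRing.ResidueField V)) (t ∘ g) :=
    ht.1.comp g g.injective
  choose v hv using fun i => IsLocalRing.residue_surjective (t (g i))
  refine ⟨Finset.univ.image v, fun R _ hd hs => ?_⟩
  have hloc : IsLocalHom R.subtype := ⟨fun r hr => hd r hr⟩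
  have hmem : ∀ i, v i ∈ R := fun i => hs (by simp)
  refine trdeg_le (IsLocalRing.ResidueField.map R.subtype) m
    (fun i => IsLocalRing.residue R ⟨v i, hmem i⟩) ?_
  have h1 : (IsLocalRing.ResidueField.map R.subtype) ∘
      (fun i => IsLocalRing.residue R ⟨v i, hmem i⟩) = t ∘ g := by
    funext i
    rw [Function.comp_apply, IsLocalRing.ResidueField.map_residue]
    exact hv i
  rw [h1]
  exact hi

theorem card_succ (c : Cardinal.{0}) (d : ℕ) (h : (d : Cardinal) < c) :
    ((d + 1 : ℕ) : Cardinal) ≤ c := by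
  by_contra hc
  rw [not_le] at hc
  obtain ⟨n, rfl⟩ := Cardinal.lt_aleph0.1 (hc.trans Cardinal.natCast_lt_aleph0)
  have h1 : d < n := by exact_mod_cast h
  have h2 : n < d + 1 := by exact_mod_cast hc
  omega

theorem card_le (c : Cardinal.{0}) (d : ℕ) (h : (d : Cardinal) < c + 1) : (d : Cardinal) ≤ c := by
  by_contra hc
  rw [not_le] at hc
  obtain ⟨n, rfl⟩ := Cardinal.lt_aleph0.1 (hc.trans Cardinal.natCast_lt_aleph0)
  have h1 : d < n + 1 := by exact_mod_cast h
  have h2 : n < d := by exact_mod_cast hc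
  omega

/-- the finite set for the Kronecker dimension -/
theorem exists_kr (V : Type) [CommRing V] [IsLocalRing V] (d : ℕ)
    (h : ¬ KrLe d (IsLocalRing.ResidueField V)) :
    ∃ s : Finset V, ∀ R : Subring V, ∀ _ : IsLocalRing R,
      (∀ r : R, IsUnit (r : V) → IsUnit r) → (s : Set V) ⊆ R →
      ¬ KrLe d (IsLocalRing.ResidueField R) := by
  rw [KrLe, not_and_or] at h
  rcases h with h | h
  · have h1 : ((d + 1 : ℕ) : Cardinal) ≤ Algebra.trdeg
        (⊥ : Subfield (IsLocalRing.ResidueField V)) (IsLocalRing.ResidueField V) := by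
      exact card_succ _ d (not_le.1 h)
    obtain ⟨s, hs⟩ := exists_set V (d + 1) h1
    refine ⟨s, fun R hR hd hsR hk => ?_⟩
    have h2 := (hs R hR hd hsR).trans hk.1
    have h3 : d + 1 ≤ d := by exact_mod_cast h2
    omega
  · push Not at h
    obtain ⟨hz, h0⟩ := h
    have h1 : (d : Cardinal) ≤ Algebra.trdeg
        (⊥ : Subfield (IsLocalRing.ResidueField V)) (IsLocalRing.ResidueField V) :=
      card_le _ d h0
    obtain ⟨s, hs⟩ := exists_set V d h1
    refine ⟨s, fun R hR hd hsR hk => ?_⟩
    have hloc : IsLocalHom R.subtype := ⟨fun r hr => hd r hr⟩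
    have hzR : CharZero (IsLocalRing.ResidueField R) :=
      (RingHom.charZero_iff (ϕ := IsLocalRing.ResidueField.map R.subtype)
        (RingHom.injective _)).2 hz
    have h2 := (add_le_add_left (hs R hR hd hsR) 1).trans (hk.2 hzR)
    have h3 : d + 1 ≤ d := by exact_mod_cast h2
    omega

end TM

/-- **TM** -/
theorem thm_TM (hDL : St_DL) (hDV : St_DV) : St_TM := by
  intro V _ _ _
  refine ⟨fun ⟨s, hs⟩ => ⟨s, fun R hR hsR => ?_⟩, fun K _ _ _ d hK hκ => ?_⟩
  · rw [eq_top_iff]
    intro v _
    obtain ⟨a, ha, b, hb, hu, h⟩ := hs v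
    have hle : Subring.closure (s : Set V) ≤ R := Subring.closure_le.2 hsR
    exact TM.mem_of R hR.dom (hle ha) (hle hb) hu h
  · obtain ⟨s, hs⟩ := TM.exists_kr V d hκ
    refine ⟨s, fun R hR hsR => ?_⟩
    have hreg := hR.reg
    let _ : Algebra R K := ((algebraMap V K).comp R.subtype).toAlgebra
    have hinj : Function.Injective (algebraMap R K) :=
      (IsFractionRing.injective V K).comp Subtype.val_injective
    have hfr : IsFractionRing R K := by
      have : FaithfulSMul R K := (faithfulSMul_iff_algebraMap_injective R K).2 hinj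
      refine IsFractionRing.of_field R K fun z => ?_
      obtain ⟨v, w, hw, hz⟩ := IsFractionRing.div_surjective (A := V) z
      obtain ⟨a, b, hb, h1⟩ := hR.frac v
      obtain ⟨a', b', hb', h2⟩ := hR.frac w
      have hw0 : algebraMap V K w ≠ 0 := IsFractionRing.to_map_ne_zero_of_mem_nonZeroDivisors hw
      have hb0 : algebraMap V K b ≠ 0 := fun h => hb (hinj (by rw [map_zero]; exact h))
      have hb0' : algebraMap V K b' ≠ 0 := fun h => hb' (hinj (by rw [map_zero]; exact h))
      refine ⟨a * b', b * a', ?_⟩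
      have e1 : algebraMap R K (a * b') = algebraMap V K a * algebraMap V K b' := map_mul _ _ _
      have e2 : algebraMap R K (b * a') = algebraMap V K b * algebraMap V K a' := map_mul _ _ _
      rw [e1, e2, ← h1, ← h2, map_mul, map_mul, ← hz]
      field_simp
    rcases G4.alg hDL hDV R K (IsLocalRing.ResidueField R) (IsLocalRing.residue R)
      IsLocalRing.residue_surjective (IsLocalRing.ker_residue) d hK with h | h | ⟨h, -⟩
    · exact absurd h (hs R inferInstance hR.dom hsR)
    · refine TM.eq_top R hR.dom hR.frac fun a b => ?_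
      by_cases ha : a = 0
      · right
        rw [ha]
        exact dvd_zero b
      · left
        obtain ⟨c, hc⟩ := h.mul_inv_cancel ha
        exact ⟨c * b, by rw [← mul_assoc, hc, one_mul]⟩
    · have : ValuationRing R := inferInstance
      exact TM.eq_top R hR.dom hR.frac fun a b => ValuationRing.dvd_total a b

end Pool.Agent.BTF
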