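import Pool.Agent.BTF.NB
import Pool.Agent.BTF.GY
import Pool.Agent.BTF.NR
import Pool.Agent.KGT.Reg

/-!
# BTF, module UR (helper22): unramifiedness, induction along the chain of blow-ups

MP_e17fa799_al.
-/

set_option autoImplicit false
set_option linter.style.haveILetI false

noncomputable section

namespace Pool.Agent.BTF

open CategoryTheory AlgebraicGeometry Pool.Agent.KPR Pool.Agent.KTX
open Pool.Agent.KGT.W (SerreClass FinType)
open Polynomial (X C)

namespace UR

/-- the data of `Unram` with a subring `R` of `V` -/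
def Dat (L : LThy.{1}) (Z : Scheme.{0}) (K V : Type) [Field K] [CommRing V] [Algebra V K]
    (η : Sp K ⟶ Z) (R₀ R : Subring V) : Prop :=
  ∃ (A : Type) (_ : CommRing A) (_ : IsDomain A) (_ : Algebra.FiniteType ℤ A) (j : A →+* V) (w : A)
    (W : Type) (_ : CommRing W) (l : A →+* W) (k : W →+* K) (i : Sp W ⟶ Z),
    Function.Injective j ∧ IsLocOf j.range R ∧ w ≠ 0 ∧
    IsLoc w l ∧ IsOpenImmersion i ∧ k.comp l = (algebraMap V K).comp j ∧ Sm k ≫ i = η ∧
    (R = R₀ ∨ ¬ IsUnit (j w)) ∧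
    ∀ (_ : Flat (Sm l)) (_ : Flat i) (n : ℤ) (α : (L.th n).T Z), ∃ β : (L.th n).T (Sp A),
      (L.th n).pull (Sm l) β = (L.th n).pull i α

/-! ### algebra -/

theorem reg_mod {V : Type} [CommRing V] [IsDomain V] [IsDiscreteValuationRing V] (R : Subring V)
    (hR : RegIn R) (x y : R) (h : Indep R x y) : x ≠ 0 ∧ ∀ a : R, x ∣ a * y → x ∣ a := by
  have hreg : IsRegularLocalRing R := hR.reg
  have hloc : IsLocalRing R := hreg.toIsLocalRing
  have hlh : IsLocalHom R.subtype := ⟨fun r hr => hR.dom r hr⟩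
  have hm : mIn R = IsLocalRing.maximalIdeal R := by
    ext r
    change R.subtype r ∈ IsLocalRing.maximalIdeal V ↔ _
    rw [IsLocalRing.mem_maximalIdeal, IsLocalRing.mem_maximalIdeal]
    exact not_congr (isUnit_map_iff R.subtype r)
  obtain ⟨hx, hy, hxy⟩ := h
  have hone : (1 : R) ∉ mIn R := by
    rw [hm]
    exact (Ideal.ne_top_iff_one _).1 (IsLocalRing.maximalIdeal.isMaximal R).ne_top
  have hx2 : x ∉ mIn R ^ 2 := fun h => hone (hxy 1 0 (by
    rw [one_mul, zero_mul, add_zero]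
    exact h)).1
  have hxy0 : ¬ x ∣ y := by
    rintro ⟨c, rfl⟩
    refine hone (hxy (-c) 1 ?_).2
    have h0 : -c * x + 1 * (x * c) = 0 := by ring
    rw [h0]
    exact Ideal.zero_mem _
  have hx0 : x ≠ 0 := by
    rintro rfl
    exact hx2 (Ideal.zero_mem _)
  rw [hm] at hx hx2
  have h1 := KGT.reg_local x hx hx2
  have h2 := NR.isDomain (R ⧸ Ideal.span {x})
  have h3 : (Ideal.span {x}).IsPrime := (Ideal.Quotient.isDomain_iff_prime _).1 h2
  refine ⟨hx0, fun a ha => ?_⟩
  have h4 : a * y ∈ Ideal.span {x} := Ideal.mem_span_singleton.2 ha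
  rcases h3.mem_or_mem h4 with h5 | h5
  · exact Ideal.mem_span_singleton.1 h5
  · exact absurd (Ideal.mem_span_singleton.1 h5) hxy0

theorem common {A : Type} [CommRing A] (I : Ideal A) (hI : I.FG) (x : A) (P : A → Prop) (h1 : P 1)
    (hmul : ∀ s t, P s → P t → P (s * t)) (h : ∀ a ∈ I, ∃ s, P s ∧ x ∣ s * a) :
    ∃ s, P s ∧ ∀ a ∈ I, x ∣ s * a := by
  classical
  obtain ⟨t, rfl⟩ := hI
  have key : ∀ u : Finset A, u ⊆ t → ∃ s, P s ∧ ∀ a ∈ u, x ∣ s * a := by
    intro u
    induction u using Finset.induction_on with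
    | empty => exact fun _ => ⟨1, h1, fun a ha => absurd ha (Finset.notMem_empty a)⟩
    | insert b u _ ih =>
      intro hu
      obtain ⟨s, hs, hs2⟩ := ih fun a ha => hu (Finset.mem_insert_of_mem ha)
      obtain ⟨r, hr, hr2⟩ := h b (Submodule.subset_span (hu (Finset.mem_insert_self b u)))
      refine ⟨s * r, hmul s r hs hr, fun a ha => ?_⟩
      rcases Finset.mem_insert.1 ha with rfl | ha
      · rw [mul_assoc]
        exact Dvd.dvd.mul_left hr2 s
      · rw [mul_comm s r, mul_assoc]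
        exact Dvd.dvd.mul_left (hs2 a ha) r
  obtain ⟨s, hs, hs2⟩ := key t (Finset.Subset.refl t)
  refine ⟨s, hs, fun a ha => ?_⟩
  induction ha using Submodule.span_induction with
  | mem a ha => exact hs2 a ha
  | zero => rw [mul_zero]; exact dvd_zero x
  | add a b _ _ ha hb => rw [mul_add]; exact dvd_add ha hb
  | smul c a _ ha =>
    rw [smul_eq_mul, mul_left_comm]
    exact Dvd.dvd.mul_left ha c

theorem reg_loc {A B : Type} [CommRing A] [CommRing B] {s : A} {l : A →+* B} (hl : IsLoc s l)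
    (x y : A) (h : ∀ a, x ∣ a * y → x ∣ s * a) (b : B) (hb : l x ∣ b * l y) : l x ∣ b := by
  obtain ⟨c, hc⟩ := hb
  obtain ⟨k, a, ha⟩ := GY.loc_surj hl b
  obtain ⟨m, a', ha'⟩ := GY.loc_surj hl c
  have h1 : l (s ^ m * (a * y) - s ^ k * (x * a')) = 0 := by
    rw [map_sub, map_mul, map_mul, map_mul, map_mul, map_pow, map_pow, ← ha, ← ha']
    linear_combination (l s ^ k * l s ^ m) * hc
  obtain ⟨N, hN⟩ := GY.loc_zero hl _ h1
  have h2 : x ∣ (s ^ N * s ^ m * a) * y := by
    refine ⟨s ^ N * s ^ k * a', ?_⟩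
    linear_combination hN
  obtain ⟨d, hd⟩ := h _ h2
  have hu : IsUnit (l s) := GY.loc_unit hl
  have hu2 : IsUnit (l s ^ (1 + N + m + k)) := hu.pow _
  have h3 : l s ^ (1 + N + m + k) * b = l x * l d := by
    rw [← map_mul, ← hd, map_mul, map_mul, map_mul, map_pow, map_pow, ← ha]
    ring
  have h4 : l x ∣ l s ^ (1 + N + m + k) * b := ⟨_, h3⟩
  exact (hu2.dvd_mul_left).1 h4

theorem loc_ft {A B : Type} [CommRing A] [CommRing B] [Algebra.FiniteType ℤ A] {s : A}
    {l : A →+* B} (h : IsLoc s l) : Algebra.FiniteType ℤ B := by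
  letI := l.toAlgebra
  haveI : IsLocalization.Away s B := h
  haveI : Algebra.FiniteType A B := IsLocalization.finiteType_of_monoid_fg (Submonoid.powers s) B
  exact Algebra.FiniteType.trans (R := ℤ) (S := A) (A := B) inferInstance inferInstance

theorem ft_poly {A B : Type} [CommRing A] [CommRing B] [hA : Algebra.FiniteType ℤ A]
    (ι : A →+* B) (z : B) (h : Function.Surjective (Polynomial.eval₂ ι z)) :
    Algebra.FiniteType ℤ B := by
  have h1 : (algebraMap ℤ A).FiniteType := RingHom.finiteType_algebraMap.2 hA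
  have h2 : (algebraMap A (Polynomial A)).FiniteType :=
    RingHom.finiteType_algebraMap.2 inferInstance
  have h3 : (Polynomial.eval₂RingHom ι z).FiniteType := RingHom.FiniteType.of_surjective _ h
  have h4 := h3.comp (h2.comp h1)
  rw [← RingHom.finiteType_algebraMap]
  rwa [Subsingleton.elim (algebraMap ℤ B) _]

theorem loc_inj {A V B : Type} [CommRing A] [CommRing V] [CommRing B] {s : A} {l : A →+* V}
    (h : IsLoc s l) (g : V →+* B) (hg : Function.Injective (g.comp l)) : Function.Injective g := by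
  rw [injective_iff_map_eq_zero]
  intro v hv
  obtain ⟨k, a, ha⟩ := GY.loc_surj h v
  have h1 : g.comp l a = 0 := by
    rw [RingHom.comp_apply, ← ha, map_mul, hv, zero_mul]
  have h2 : a = 0 := by
    apply hg
    rw [h1, map_zero]
  rw [h2, map_zero] at ha
  exact ((GY.loc_unit h).pow k).mul_left_eq_zero.1 ha

theorem mem_of_unit {W K : Type} [CommRing W] [CommRing K] (k : W →+* K) (c : K) (u d : W)
    (hu : IsUnit u) (h : c * k u = k d) : ∃ e, k e = c := by
  obtain ⟨u, rfl⟩ := hu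
  refine ⟨d * ↑u⁻¹, ?_⟩
  rw [map_mul, ← h, mul_assoc, ← map_mul, Units.mul_inv, map_one, mul_one]

/-! ### the start -/

theorem start (L : LThy.{1}) (Z : Scheme.{0}) [IsIntegral Z] (hZ : FinType ℤ Z) (K V : Type)
    [Field K] [CommRing V] [IsDomain V] [IsDiscreteValuationRing V] [Algebra V K]
    (x : Z) (l : Z.presheaf.stalk x →+* V)
    (hl : IsLocalHom l) (hinj : Function.Injective l) :
    Dat L Z K V (Spec.map (CommRingCat.ofHom ((algebraMap V K).comp l)) ≫ Z.fromSpecStalk x)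
      l.range l.range := by
  obtain ⟨f, hf, hq⟩ := hZ
  obtain ⟨U, hU, hxU, -⟩ := exists_isAffineOpen_mem_and_subset (x := x) (U := ⊤) trivial
  have hft := NB.ft Z f U hU
  have hne : Nonempty U := ⟨⟨x, hxU⟩⟩
  have hgi : Function.Injective (Z.presheaf.germ U x hxU).hom :=
    germ_injective_of_isIntegral Z x hxU
  have hN : IsNoetherianRing Γ(Z, U) := Algebra.FiniteType.isNoetherianRing ℤ _
  refine ⟨Γ(Z, U), inferInstance, inferInstance, hft, l.comp (Z.presheaf.germ U x hxU).hom, 1,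
    Γ(Z, U), inferInstance, RingHom.id _,
    (algebraMap V K).comp (l.comp (Z.presheaf.germ U x hxU).hom), hU.fromSpec, hinj.comp hgi, ?_,
    one_ne_zero, ?_, inferInstance, RingHom.comp_id _, ?_, Or.inl rfl, ?_⟩
  · letI := TopCat.Presheaf.algebra_section_stalk Z.presheaf ⟨x, hxU⟩
    have hat := hU.isLocalization_stalk ⟨x, hxU⟩
    intro v
    constructor
    · rintro ⟨s, rfl⟩
      obtain ⟨⟨a, b⟩, hab⟩ := IsLocalization.surj
        (hU.primeIdealOf ⟨x, hxU⟩).asIdeal.primeCompl s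
      have hbu := IsLocalization.map_units (Z.presheaf.stalk x) b
      refine ⟨_, ⟨a, rfl⟩, _, ⟨(b : Γ(Z, U)), rfl⟩, ?_, ?_⟩
      · exact IsUnit.map l hbu
      · rw [RingHom.comp_apply, RingHom.comp_apply, ← map_mul, mul_comm]
        exact congrArg l hab
    · rintro ⟨_, ⟨a, rfl⟩, _, ⟨b, rfl⟩, hbu, hv⟩
      have hbu' : IsUnit ((Z.presheaf.germ U x hxU).hom b) := (isUnit_map_iff l _).1 hbu
      exact mem_of_unit l v _ ((Z.presheaf.germ U x hxU).hom a) hbu' (by
        rw [mul_comm]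
        exact hv)
  · refine GY.loc_mk ?_ ?_ ?_
    · rw [map_one]
      exact isUnit_one
    · intro v
      exact ⟨0, v, by rw [pow_zero, mul_one, RingHom.id_apply]⟩
    · intro a ha
      exact ⟨0, by rw [pow_zero, one_mul]; exact ha⟩
  · rw [← hU.fromSpecStalk_eq_fromSpecStalk hxU, IsAffineOpen.fromSpecStalk, ← Category.assoc]
    congr 1
    change Spec.map _ = _
    rw [← Spec.map_comp]
    rfl
  · intro h1 h2 n α
    refine ⟨(L.th n).pull hU.fromSpec α, ?_⟩
    have : IsNoetherian (Sp Γ(Z, U)) := inferInstance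
    exact (NB.pull_congr (L.th n) (f := Sm (RingHom.id Γ(Z, U))) (g := 𝟙 (Sp Γ(Z, U)))
      (R0.Sm_id _) _).trans ((L.th n).pull_id _ _)

/-! ### one step -/

/-- the classes -/
theorem cls (hGY : St_GY) (L : LThy.{1}) (hPZ : PZ L) (Z : Scheme.{0}) [IsNoetherian Z]
    {A As A' W W2 : Type} [CommRing A] [CommRing As] [CommRing A'] [CommRing W] [CommRing W2]
    [IsNoetherianRing A] [IsNoetherianRing As] [IsNoetherianRing A']
    {w : A} {l : A →+* W} (hl : IsLoc w l) {s x y : A} {ls : A →+* As} (hls : IsLoc s ls)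
    (ι : As →+* A') (z : A') (hsurj : Function.Surjective (Polynomial.eval₂ ι z))
    (hker : ∀ p : Polynomial As, Polynomial.eval₂ ι z p = 0 ↔
      ∃ q, p = (C (ls x) * X - C (ls y)) * q)
    {m : W →+* W2} (hm : IsLoc (l (s * x)) m) {w2 : A'} {l2 : A' →+* W2} (hl2 : IsLoc w2 l2)
    (hl2i : Function.Injective l2) (hlm : (l2.comp ι).comp ls = m.comp l)
    (i : Sp W ⟶ Z) [IsOpenImmersion i]
    (hβ : ∀ (_ : Flat (Sm l)) (_ : Flat i) (n : ℤ) (α : (L.th n).T Z), ∃ β : (L.th n).T (Sp A),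
      (L.th n).pull (Sm l) β = (L.th n).pull i α)
    (h1 : Flat (Sm l2)) (h2 : Flat (Sm m ≫ i)) (n : ℤ) (α : (L.th n).T Z) :
    ∃ β : (L.th n).T (Sp A'), (L.th n).pull (Sm l2) β = (L.th n).pull (Sm m ≫ i) α := by
  have f1 : Flat (Sm l) := R0.flat_Sm (GY.loc_flat hl)
  have f2 : Flat (Sm ls) := R0.flat_Sm (GY.loc_flat hls)
  have f3 : Flat (Sm m) := R0.flat_Sm (GY.loc_flat hm)
  have nW : IsNoetherianRing W := GY.loc_noeth hl
  have nW2 : IsNoetherianRing W2 := GY.loc_noeth hm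
  obtain ⟨β, hβ⟩ := hβ f1 inferInstance n α
  obtain ⟨W1, _, l1, hl1⟩ := GY.loc_ex (ι (ls x))
  have nW1 : IsNoetherianRing W1 := GY.loc_noeth hl1
  have f4 : Flat (Sm l1) := R0.flat_Sm (GY.loc_flat hl1)
  have hz : ι (ls x) * z = ι (ls y) := by
    have h := (hker (C (ls x) * X - C (ls y))).2 ⟨1, by rw [mul_one]⟩
    rw [Polynomial.eval₂_sub, Polynomial.eval₂_mul, Polynomial.eval₂_C, Polynomial.eval₂_X,
      Polynomial.eval₂_C, sub_eq_zero] at h
    exact h
  have f5 : Flat (Sm (l1.comp ι)) := R0.flat_Sm (GY.loc_flat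
    (GY.loc_comp hsurj (fun p hp => (hker p).1 hp) hz hl1))
  obtain ⟨β', hβ'⟩ := hGY L hPZ As A' W1 ι (ls x) (ls y) z hsurj hker l1 hl1 n
    ((L.th n).pull (Sm ls) β)
  have hlx : ∀ a, l2 (ι (ls a)) = m (l a) := fun a => RingHom.congr_fun hlm a
  have hux : IsUnit (l2 (ι (ls x))) := by
    rw [hlx]
    have h := GY.loc_unit hm
    rw [map_mul, map_mul] at h
    exact isUnit_of_mul_isUnit_right h
  obtain ⟨q, hq⟩ := GY.loc_lift hl1 l2 hux
  have hq' : ∀ a, q (l1 a) = l2 a := fun a => RingHom.congr_fun hq a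
  have hqloc : IsLoc (l1 w2) q := by
    refine GY.loc_mk ?_ ?_ ?_
    · rw [hq']
      exact GY.loc_unit hl2
    · intro v
      obtain ⟨k, a, ha⟩ := GY.loc_surj hl2 v
      refine ⟨k, l1 a, ?_⟩
      rw [hq', hq', ha]
    · intro v hv
      obtain ⟨k, a, ha⟩ := GY.loc_surj hl1 v
      have h3 : l2 a = 0 := by
        rw [← hq', ← ha, map_mul, hv, zero_mul]
      have h4 : a = 0 := by
        apply hl2i
        rw [h3, map_zero]
      rw [h4, map_zero] at ha
      refine ⟨0, ?_⟩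
      rw [((GY.loc_unit hl1).pow k).mul_left_eq_zero.1 ha, mul_zero]
  have f6 : Flat (Sm q) := R0.flat_Sm (GY.loc_flat hqloc)
  refine ⟨β', ?_⟩
  have e1 : (L.th n).pull (Sm l2) β' = (L.th n).pull (Sm q) ((L.th n).pull (Sm l1) β') := by
    rw [← (L.th n).pull_comp]
    exact NB.pull_congr (L.th n) (by rw [R0.Sm_comp, hq]) _
  have e2 : (L.th n).pull (Sm m ≫ i) α = (L.th n).pull (Sm m) ((L.th n).pull (Sm l) β) := by
    rw [hβ, (L.th n).pull_comp]
  rw [e1, hβ', e2, ← (L.th n).pull_comp, ← (L.th n).pull_comp, ← (L.th n).pull_comp]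
  refine NB.pull_congr (L.th n) ?_ _
  rw [R0.Sm_comp, R0.Sm_comp, R0.Sm_comp, ← hlm, ← hq]

/-- the localisations of the bigger ring -/
theorem locOf {V : Type} [CommRing V] {A' : Subring V} {R R' : Subring V} {z : V} (hz : z ∈ A')
    (hle : A' ≤ Subring.closure (insert z (R : Set V)))
    (hR : ∀ r ∈ R, ∃ a ∈ A', ∃ b ∈ A', IsUnit b ∧ b * r = a)
    (hR' : IsLocOf (Subring.closure (insert z (R : Set V))) R') : IsLocOf A' R' := by
  have key : ∀ c ∈ Subring.closure (insert z (R : Set V)),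
      ∃ a ∈ A', ∃ b ∈ A', IsUnit b ∧ b * c = a := by
    intro c hc
    induction hc using Subring.closure_induction with
    | mem c hc =>
      rcases Set.mem_insert_iff.1 hc with rfl | hc
      · exact ⟨c, hz, 1, A'.one_mem, isUnit_one, one_mul c⟩
      · exact hR c hc
    | zero => exact ⟨0, A'.zero_mem, 1, A'.one_mem, isUnit_one, by rw [mul_zero]⟩
    | one => exact ⟨1, A'.one_mem, 1, A'.one_mem, isUnit_one, by rw [mul_one]⟩
    | add c d _ _ hc hd =>
      obtain ⟨a, ha, b, hb, hbu, h⟩ := hc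
      obtain ⟨a', ha', b', hb', hbu', h'⟩ := hd
      refine ⟨b' * a + b * a', A'.add_mem (A'.mul_mem hb' ha) (A'.mul_mem hb ha'), b * b',
        A'.mul_mem hb hb', hbu.mul hbu', ?_⟩
      rw [← h, ← h']
      ring
    | neg c _ hc =>
      obtain ⟨a, ha, b, hb, hbu, h⟩ := hc
      exact ⟨-a, A'.neg_mem ha, b, hb, hbu, by rw [← h]; ring⟩
    | mul c d _ _ hc hd =>
      obtain ⟨a, ha, b, hb, hbu, h⟩ := hc
      obtain ⟨a', ha', b', hb', hbu', h'⟩ := hd
      refine ⟨a * a', A'.mul_mem ha ha', b * b', A'.mul_mem hb hb', hbu.mul hbu', ?_⟩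
      rw [← h, ← h']
      ring
  intro v
  rw [hR' v]
  constructor
  · rintro ⟨a, ha, b, hb, hbu, h⟩
    obtain ⟨a1, ha1, a2, ha2, hau, h1⟩ := key a ha
    obtain ⟨b1, hb1, b2, hb2, hbu2, h2⟩ := key b hb
    refine ⟨b2 * a1, A'.mul_mem hb2 ha1, a2 * b1, A'.mul_mem ha2 hb1, ?_, ?_⟩
    · rw [← h2]
      exact hau.mul (hbu2.mul hbu)
    · rw [← h1, ← h2, ← h]
      ring
  · rintro ⟨a, ha, b, hb, hbu, h⟩
    exact ⟨a, hle ha, b, hle hb, hbu, h⟩

theorem step (hGY : St_GY) (hKE : St_KE) (L : LThy.{1}) (hPZ : PZ L) (Z : Scheme.{0})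
    [IsNoetherian Z] (K V : Type) [Field K] [CommRing V] [IsDomain V] [IsDiscreteValuationRing V]
    [Algebra V K] [IsFractionRing V K] (η : Sp K ⟶ Z) (R₀ R : Subring V) (hR : RegIn R)
    (hD : Dat L Z K V η R₀ R) (x y : R) (hxy : Indep R x y) (z : V) (hz : (x : V) * z = y)
    (R' : Subring V) (hR' : IsLocOf (Subring.closure (insert z (R : Set V))) R') :
    Dat L Z K V η R₀ R' := by
  obtain ⟨A, _, _, _, j, w, W, _, l, k, i, hj, hloc, hw, hl, hi, hkl, hη, -, hβ⟩ := hD
  have hAN : IsNoetherianRing A := Algebra.FiniteType.isNoetherianRing ℤ A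
  obtain ⟨hx0, hreg⟩ := reg_mod R hR x y hxy
  have hkj : ∀ a, k (l a) = algebraMap V K (j a) := fun a => RingHom.congr_fun hkl a
  have hVK : Function.Injective (algebraMap V K) := IsFractionRing.injective V K
  have hmem : ∀ a, j a ∈ R := fun a =>
    (hloc _).2 ⟨j a, ⟨a, rfl⟩, 1, ⟨1, map_one j⟩, isUnit_one, one_mul _⟩
  -- the elements `x`, `y` in `A`
  obtain ⟨_, ⟨a1, rfl⟩, _, ⟨b1, rfl⟩, hb1, hx1⟩ := (hloc x).1 x.2
  obtain ⟨_, ⟨a2, rfl⟩, _, ⟨b2, rfl⟩, hb2, hy1⟩ := (hloc y).1 y.2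
  obtain ⟨x0, hx⟩ : ∃ x0, j x0 = j b1 * j b2 * x := ⟨a1 * b2, by
    rw [map_mul, ← hx1]
    ring⟩
  obtain ⟨y0, hy⟩ : ∃ y0, j y0 = j b1 * j b2 * y := ⟨a2 * b1, by
    rw [map_mul, ← hy1]
    ring⟩
  have hxz : j x0 * z = j y0 := by
    rw [hx, hy, ← hz]
    ring
  have hxV : (x : V) ≠ 0 := fun h => hx0 (Subtype.ext h)
  have hjx : j x0 ≠ 0 := by
    rw [hx]
    exact mul_ne_zero (mul_ne_zero hb1.ne_zero hb2.ne_zero) hxV
  have hx00 : x0 ≠ 0 := by
    rintro rfl
    exact hjx (map_zero j)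
  -- the denominator
  let I : Ideal A :=
    { carrier := {a | x0 ∣ a * y0}
      add_mem' := by
        intro a b ha hb
        show x0 ∣ (a + b) * y0
        rw [add_mul]
        exact dvd_add ha hb
      zero_mem' := by
        show x0 ∣ 0 * y0
        rw [zero_mul]
        exact dvd_zero _
      smul_mem' := by
        intro c a ha
        show x0 ∣ (c * a) * y0
        rw [mul_assoc]
        exact Dvd.dvd.mul_left ha c }
  obtain ⟨s, hs, hsI⟩ := common I (IsNoetherian.noetherian I) x0 (fun s => IsUnit (j s))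
    (by rw [map_one]; exact isUnit_one) (fun s t hs ht => by rw [map_mul]; exact hs.mul ht) (by
      rintro a ⟨c, hc⟩
      have h1 : j a * y = x * j c := by
        have h2 := congrArg j hc
        rw [map_mul, map_mul, hx, hy] at h2
        refine (hb1.mul hb2).mul_left_cancel ?_
        linear_combination h2
      have h2 : x ∣ (⟨j a, hmem a⟩ : R) * y := ⟨⟨j c, hmem c⟩, Subtype.ext h1⟩
      obtain ⟨r, hr⟩ := hreg _ h2
      have hr' : j a = x * r := congrArg Subtype.val hr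
      obtain ⟨_, ⟨c', rfl⟩, _, ⟨s', rfl⟩, hs', hc'⟩ := (hloc r).1 r.2
      refine ⟨s' * b1 * b2, ?_, c', ?_⟩
      · rw [map_mul, map_mul]
        exact (hs'.mul hb1).mul hb2
      · apply hj
        rw [map_mul, map_mul, map_mul, map_mul, hx, hr', ← hc']
        ring)
  -- the localisation
  obtain ⟨As, _, ls, hls⟩ := GY.loc_ex s
  obtain ⟨js, hjs⟩ := GY.loc_lift hls j hs
  have hjs' : ∀ a, js (ls a) = j a := fun a => RingHom.congr_fun hjs a
  have hjsi : Function.Injective js := loc_inj hls js (by rw [hjs]; exact hj)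
  have hAsD : IsDomain As := hjsi.isDomain js
  have hAsN : IsNoetherianRing As := GY.loc_noeth hls
  have hAsF : Algebra.FiniteType ℤ As := loc_ft hls
  have hrs : ∀ b : As, ls x0 ∣ b * ls y0 → ls x0 ∣ b := reg_loc hls x0 y0 hsI
  have hlsx : ls x0 ≠ 0 := by
    intro h
    apply hjx
    rw [← hjs', h, map_zero]
  have hker0 := hKE As V js (ls x0) (ls y0) z hjsi hlsx (by rw [hjs', hjs', hxz]) hrs
  -- the bigger ring
  obtain ⟨A', hA'⟩ : ∃ A' : Subring V, A' = (Polynomial.eval₂RingHom js z).range := ⟨_, rfl⟩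
  have hev0 : ∀ p, Polynomial.eval₂ js z p ∈ A' := by
    intro p
    rw [hA']
    exact ⟨p, rfl⟩
  let ev : Polynomial As →+* A' := (Polynomial.eval₂RingHom js z).codRestrict A' hev0
  let ι : As →+* A' := ev.comp C
  let z' : A' := ev X
  have hz' : (z' : V) = z := Polynomial.eval₂_X js z
  have hι : ∀ a, (ι a : V) = js a := fun a => Polynomial.eval₂_C js z
  have hev : ∀ p, ((Polynomial.eval₂ ι z' p : A') : V) = Polynomial.eval₂ js z p := by
    intro p
    have h1 : A'.subtype (Polynomial.eval₂ ι z' p) =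
        Polynomial.eval₂ (A'.subtype.comp ι) (A'.subtype z') p :=
      Polynomial.hom_eval₂ p ι A'.subtype z'
    have h2 : A'.subtype.comp ι = js := RingHom.ext hι
    have h3 : A'.subtype z' = z := hz'
    rw [h2, h3] at h1
    exact h1
  have hsurj : Function.Surjective (Polynomial.eval₂ ι z') := by
    rintro ⟨v, hv⟩
    have hv' := hv
    rw [hA'] at hv'
    obtain ⟨p, hp⟩ := hv'
    exact ⟨p, Subtype.ext ((hev p).trans hp)⟩
  have hker : ∀ p, Polynomial.eval₂ ι z' p = 0 ↔ ∃ q, p = (C (ls x0) * X - C (ls y0)) * q := by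
    intro p
    rw [← hker0 p, ← hev p]
    exact ⟨fun h => by rw [h]; rfl, fun h => Subtype.ext h⟩
  have hA'N : IsNoetherianRing A' :=
    isNoetherianRing_of_surjective (Polynomial As) A' (Polynomial.eval₂RingHom ι z') hsurj
  have hA'F : Algebra.FiniteType ℤ A' := ft_poly ι z' hsurj
  -- the localisation of `W`
  obtain ⟨W2, _, m, hm⟩ := GY.loc_ex (l (s * x0))
  have hunit : IsUnit (k (l (s * x0))) := by
    rw [hkj, isUnit_iff_ne_zero, map_mul]
    intro h
    exact mul_ne_zero hs.ne_zero hjx (hVK (by rw [h, map_zero]))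
  obtain ⟨k2, hk2⟩ := GY.loc_lift hm k hunit
  have hk2' : ∀ a, k2 (m a) = k a := fun a => RingHom.congr_fun hk2 a
  have hki : Function.Injective k := loc_inj hl k (by
    rw [hkl]
    exact hVK.comp hj)
  have hk2i : Function.Injective k2 := loc_inj hm k2 (by
    rw [hk2]
    exact hki)
  have hmu : IsUnit (m (l s)) ∧ IsUnit (m (l x0)) := by
    have h := GY.loc_unit hm
    rw [map_mul, map_mul] at h
    exact ⟨isUnit_of_mul_isUnit_left h, isUnit_of_mul_isUnit_right h⟩
  have hmem2 : ∀ b : A', ∃ d, k2 d = ((algebraMap V K).comp A'.subtype) b := by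
    intro b
    obtain ⟨p, rfl⟩ := hsurj b
    have h0 : ((algebraMap V K).comp A'.subtype) (Polynomial.eval₂ ι z' p) =
        algebraMap V K (Polynomial.eval₂ js z p) := congrArg (algebraMap V K) (hev p)
    rw [h0]
    induction p using Polynomial.induction_on' with
    | add p q hp hq =>
      obtain ⟨c, hc⟩ := hp (congrArg (algebraMap V K) (hev p))
      obtain ⟨d, hd⟩ := hq (congrArg (algebraMap V K) (hev q))
      exact ⟨c + d, by rw [map_add, hc, hd, Polynomial.eval₂_add, map_add]⟩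
    | monomial n a =>
      obtain ⟨n', a', ha'⟩ := GY.loc_surj hls a
      obtain ⟨c, hc⟩ : ∃ c, k2 c = algebraMap V K (js a) := by
        refine mem_of_unit k2 _ (m (l s) ^ n') (m (l a')) (hmu.1.pow n') ?_
        rw [map_pow, hk2', hk2', hkj, hkj, ← hjs' s, ← hjs' a', ← ha', map_mul js, map_pow js,
          map_mul, map_pow]
      obtain ⟨d, hd⟩ : ∃ d, k2 d = algebraMap V K z := by
        refine mem_of_unit k2 _ (m (l x0)) (m (l y0)) hmu.2 ?_
        rw [hk2', hk2', hkj, hkj, ← map_mul, ← hxz, mul_comm]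
      exact ⟨c * d ^ n, by
        rw [map_mul, map_pow, hc, hd, Polynomial.eval₂_monomial, map_mul, map_pow]⟩
  obtain ⟨l2, hl2⟩ := NB.lift_inj k2 hk2i _ hmem2
  have hl2' : ∀ b : A', k2 (l2 b) = algebraMap V K (b : V) := fun b => RingHom.congr_fun hl2 b
  have hl2i : Function.Injective l2 := by
    intro a b hab
    apply Subtype.ext
    apply hVK
    rw [← hl2', ← hl2', hab]
  have hlm : (l2.comp ι).comp ls = m.comp l := by
    ext a
    apply hk2i
    show k2 (l2 (ι (ls a))) = k2 (m (l a))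
    rw [hl2', hι, hjs', hk2', hkj]
  have hlm' : ∀ a, l2 (ι (ls a)) = m (l a) := fun a => RingHom.congr_fun hlm a
  have hl2loc : IsLoc (ι (ls (w * (s * x0)))) l2 := by
    refine GY.loc_mk ?_ ?_ ?_
    · rw [hlm', map_mul, map_mul]
      exact ((GY.loc_unit hl).map m).mul (GY.loc_unit hm)
    · intro v
      obtain ⟨n, v1, hv1⟩ := GY.loc_surj hm v
      obtain ⟨n', a, ha⟩ := GY.loc_surj hl v1
      refine ⟨n + n', ι (ls (a * w ^ n * (s * x0) ^ n')), ?_⟩
      rw [hlm', hlm', map_mul, map_mul, map_mul l (a * w ^ n), map_mul l a, map_mul m, map_mul m,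
        ← ha, map_mul m, map_pow l, map_pow l, map_pow m, map_pow m, map_pow m, ← hv1]
      ring
    · intro a ha
      exact ⟨0, by
        rw [pow_zero, one_mul]
        apply hl2i
        rw [ha, map_zero]⟩
  have hmo : IsOpenImmersion (Sm m) := R0.open_Sm hm
  have hjw : ((ι (ls (w * (s * x0))) : A') : V) = j w * (j s * j x0) := by
    rw [hι, hjs', map_mul, map_mul]
  refine ⟨A', inferInstance, inferInstance, hA'F, A'.subtype, ι (ls (w * (s * x0))), W2,
    inferInstance, l2, k2, Sm m ≫ i, Subtype.val_injective, ?_, ?_, hl2loc, inferInstance, hl2, ?_,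
    Or.inr ?_, ?_⟩
  · rw [Subring.range_subtype]
    refine locOf (z := z) (R := R) ?_ ?_ ?_ hR'
    · rw [← hz']
      exact z'.2
    · intro v hv
      rw [hA'] at hv
      obtain ⟨p, rfl⟩ := hv
      show Polynomial.eval₂ js z p ∈ _
      induction p using Polynomial.induction_on' with
      | add p q hp hq =>
        rw [Polynomial.eval₂_add]
        exact Subring.add_mem _ hp hq
      | monomial n a =>
        rw [Polynomial.eval₂_monomial]
        refine Subring.mul_mem _ (Subring.subset_closure (Set.mem_insert_of_mem _ ?_))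
          (Subring.pow_mem _ (Subring.subset_closure (Set.mem_insert _ _)) _)
        obtain ⟨n', a', ha'⟩ := GY.loc_surj hls a
        refine (hloc _).2 ⟨_, ⟨a', rfl⟩, _, ⟨s ^ n', rfl⟩, ?_, ?_⟩
        · rw [map_pow]
          exact hs.pow n'
        · rw [← hjs' a', ← ha', map_mul, map_pow, map_pow, hjs', mul_comm]
    · intro r hr
      obtain ⟨_, ⟨a, rfl⟩, _, ⟨b, rfl⟩, hb, h⟩ := (hloc r).1 hr
      refine ⟨j a, ?_, j b, ?_, hb, h⟩
      · rw [← hjs', ← hι]
        exact Subtype.property _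
      · rw [← hjs', ← hι]
        exact Subtype.property _
  · intro h
    have h1 : ((ι (ls (w * (s * x0))) : A') : V) = 0 := by
      rw [h]
      rfl
    rw [hjw] at h1
    have h2 : j w ≠ 0 := fun h => hw (hj (by rw [h, map_zero]))
    exact mul_ne_zero h2 (mul_ne_zero hs.ne_zero hjx) h1
  · rw [← Category.assoc, R0.Sm_comp, hk2]
    exact hη
  · intro h
    have h1 : IsUnit ((ι (ls (w * (s * x0))) : A') : V) := h
    rw [hjw, hx] at h1
    have h2 : IsUnit (x : V) := isUnit_of_dvd_unit ⟨j w * (j s * (j b1 * j b2)), by ring⟩ h1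
    exact (IsLocalRing.mem_maximalIdeal _).1 hxy.1 h2
  · intro h1 h2 n α
    exact cls hGY L hPZ Z hl hls ι z' hsurj hker hm hl2loc hl2i hlm i hβ h1 h2 n α

end UR

open UR in
/-- **UR** -/
theorem thm_UR (hIP : St_IP) (hGY : St_GY) (hKE : St_KE) : St_UR := by
  intro L hPZ Z _ hZ K V _ _ _ _ _ _ hT x l hl hinj hreg hfrac
  have hN : IsNoetherian Z := NB.noeth_ft hZ
  have hst := start L Z hZ K V x l hl hinj
  have e : Z.presheaf.stalk x ≃+* l.range := RingEquiv.ofBijective l.rangeRestrict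
    ⟨fun a b hab => hinj (congrArg Subtype.val hab), l.rangeRestrict_surjective⟩
  have hR₀ : RegIn l.range := by
    refine ⟨IsRegularLocalRing.of_ringEquiv e, ?_, ?_⟩
    · rintro ⟨_, s, rfl⟩ hr
      have h1 : IsUnit s := (isUnit_map_iff l s).1 hr
      exact h1.map l.rangeRestrict
    · intro v
      obtain ⟨a, b, hb, h⟩ := hfrac v
      refine ⟨⟨l a, a, rfl⟩, ⟨l b, b, rfl⟩, ?_, h⟩
      intro h1
      have h2 : l b = 0 := congrArg Subtype.val h1
      exact hb (hinj (by rw [h2, map_zero]))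
  have h := hIP V hT (Dat L Z K V _ l.range) l.range hR₀ hst
    (fun R hR hD x y hxy z hz R' hR' _ => step hGY hKE L hPZ Z K V _ l.range R hR hD x y hxy z hz
      R' hR')
  obtain ⟨A, i1, i2, i3, j, w, W, i4, l', k, i, hj, hloc, hw, hl', hi, hkl, hη, hb, hβ⟩ := h
  refine ⟨A, i1, i2, i3, j, w, W, i4, l', k, i, hj, ?_, hw, hl', hi, hkl, hη, ?_, hβ⟩
  · intro v
    obtain ⟨_, ⟨a, rfl⟩, _, ⟨b, rfl⟩, hb, h⟩ := (hloc v).1 (Subring.mem_top v)
    exact ⟨a, b, hb, h⟩
  · refine hb.imp_left fun h => ⟨hinj, fun v => ?_⟩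
    have h1 : v ∈ l.range := by
      rw [← h]
      exact Subring.mem_top v
    exact h1

end Pool.Agent.BTF
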