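import Pool.Agent.BTF.St
import Mathlib.RingTheory.RegularLocalRing.Polynomial
import Mathlib.RingTheory.DiscreteValuationRing.Basic

/-!
# BTF, module V1 (helper44): discrete valuation rings of `F(t)`
-/

set_option autoImplicit false

noncomputable section

namespace Pool.Agent.BTF

namespace V1

open Polynomial IsLocalRing
open scoped nonZeroDivisors

/-- a homomorphism to the field of fractions with values in `V` lifts to `V` -/
theorem lift {A V K : Type} [CommRing A] [CommRing V] [IsDomain V] [Field K] [Algebra V K]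
    [IsFractionRing V K] (f : A →+* K) (h : ∀ a, ∃ v : V, algebraMap V K v = f a) :
    ∃ g : A →+* V, ∀ a, algebraMap V K (g a) = f a := by
  have inj : Function.Injective (algebraMap V K) := IsFractionRing.injective V K
  choose g hg using h
  refine ⟨{ toFun := g, map_one' := ?_, map_mul' := ?_, map_zero' := ?_, map_add' := ?_ }, hg⟩
  · exact inj (by rw [hg, map_one, map_one])
  · intro a b
    exact inj (by rw [hg, map_mul, map_mul, hg, hg])
  · exact inj (by rw [hg, map_zero, map_zero])
  · intro a b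
    exact inj (by rw [hg, map_add, map_add, hg, hg])

theorem dich (V : Type) {K : Type} [CommRing V] [IsDomain V] [Field K] [Algebra V K]
    [IsFractionRing V K] [ValuationRing V] (x : K) :
    (∃ v : V, algebraMap V K v = x) ∨ ∃ v ∈ maximalIdeal V, algebraMap V K v = x⁻¹ := by
  rcases ValuationRing.isInteger_or_isInteger V x with ⟨v, hv⟩ | ⟨v, hv⟩
  · exact Or.inl ⟨v, hv⟩
  · by_cases h : IsUnit v
    · obtain ⟨u, rfl⟩ := h
      refine Or.inl ⟨((u⁻¹ : Vˣ) : V), ?_⟩
      have h1 : algebraMap V K (u : V) * algebraMap V K ((u⁻¹ : Vˣ) : V) = 1 := by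
        rw [← map_mul, Units.mul_inv, map_one]
      have h2 : algebraMap V K (u : V) ≠ 0 := left_ne_zero_of_mul_eq_one h1
      rw [hv] at h1 h2
      have h3 : x ≠ 0 := by
        rintro rfl
        exact h2 inv_zero
      calc algebraMap V K ((u⁻¹ : Vˣ) : V) = x * (x⁻¹ * algebraMap V K ((u⁻¹ : Vˣ) : V)) := by
            rw [← mul_assoc, mul_inv_cancel₀ h3, one_mul]
        _ = x := by rw [h1, mul_one]
    · exact Or.inr ⟨v, (mem_maximalIdeal v).2 h, hv⟩

/-- case (3): `F ⊆ V`, `t ∉ V` -/
theorem caseA (F V : Type) [Field F] [CommRing V] [IsDomain V] [IsLocalRing V]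
    [Algebra V (RatFunc F)] [IsFractionRing V (RatFunc F)] (i : F →+* V)
    (hi : ∀ c, algebraMap V (RatFunc F) (i c) = algebraMap F (RatFunc F) c)
    (u : V) (hu : u ∈ maximalIdeal V)
    (hu' : algebraMap V (RatFunc F) u = (RatFunc.X : RatFunc F)⁻¹) :
    Nonempty (ResidueField V ≃+* F) := by
  have inj : Function.Injective (algebraMap V (RatFunc F)) := IsFractionRing.injective V _
  have hX : (RatFunc.X : RatFunc F) ≠ 0 := RatFunc.X_ne_zero
  let ρ : F →+* ResidueField V := (residue V).comp i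
  have hu0 : u ≠ 0 := by
    rintro rfl
    rw [map_zero] at hu'
    exact inv_ne_zero hX hu'.symm
  have ru : residue V u = 0 := (residue_eq_zero_iff u).2 hu
  -- the values of reversed polynomials
  have key : ∀ p : F[X], ∃ P : V, residue V P = ρ p.leadingCoeff ∧
      algebraMap V (RatFunc F) P * RatFunc.X ^ p.natDegree = algebraMap F[X] (RatFunc F) p := by
    intro p
    refine ⟨eval₂ i u (reverse p), ?_, ?_⟩
    · rw [Polynomial.hom_eval₂, ru, eval₂_at_zero, coeff_zero_reverse]
    · let _ : Invertible (RatFunc.X : RatFunc F) := invertibleOfNonzero hX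
      have h1 := eval₂_reverse_mul_pow (algebraMap F (RatFunc F)) RatFunc.X p
      rw [invOf_eq_inv, ← hu'] at h1
      rw [Polynomial.hom_eval₂]
      have h2 : (algebraMap V (RatFunc F)).comp i = algebraMap F (RatFunc F) :=
        RingHom.ext fun c => hi c
      rw [h2, h1]
      have h3 : aeval (RatFunc.X : RatFunc F) p = algebraMap F[X] (RatFunc F) p := by
        rw [← RatFunc.algebraMap_X, aeval_algebraMap_apply, aeval_X_left_apply]
      rw [← h3, aeval_def]
  have hsurj : Function.Surjective ρ := by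
    intro z
    obtain ⟨v, rfl⟩ := residue_surjective z
    obtain ⟨p, q, hq, hpq⟩ := IsFractionRing.div_surjective (A := F[X])
      (algebraMap V (RatFunc F) v)
    have hq0 : q ≠ 0 := nonZeroDivisors.ne_zero hq
    obtain ⟨P, hP1, hP2⟩ := key p
    obtain ⟨Q, hQ1, hQ2⟩ := key q
    have hq1 : algebraMap F[X] (RatFunc F) q ≠ 0 := by
      simpa using hq0
    rw [div_eq_iff hq1] at hpq
    by_cases hp0 : p = 0
    · refine ⟨0, ?_⟩
      rw [hp0, map_zero] at hpq
      have : algebraMap V (RatFunc F) v = 0 := by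
        rcases mul_eq_zero.1 hpq.symm with h | h
        · exact h
        · exact absurd h hq1
      have hv : v = 0 := inj (by rw [this, map_zero])
      rw [hv, map_zero, map_zero]
    have e1 : v * Q * u ^ p.natDegree = P * u ^ q.natDegree := by
      apply inj
      rw [map_mul, map_mul, map_mul, map_pow, map_pow, hu']
      rw [← hP2, ← hQ2] at hpq
      rw [inv_pow, inv_pow]
      field_simp
      field_simp at hpq
      linear_combination -hpq
    have hρ : ∀ c : F, ρ c = 0 → c = 0 := fun c hc => (map_eq_zero ρ).1 hc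
    have lp : ρ p.leadingCoeff ≠ 0 := fun h => hp0 (leadingCoeff_eq_zero.1 (hρ _ h))
    have lq : ρ q.leadingCoeff ≠ 0 := fun h => hq0 (leadingCoeff_eq_zero.1 (hρ _ h))
    rcases lt_trichotomy p.natDegree q.natDegree with h | h | h
    · -- `v` is in the maximal ideal
      obtain ⟨k, hk⟩ := Nat.exists_eq_add_of_lt h
      have e2 : v * Q = P * u ^ (k + 1) := by
        have : u ^ p.natDegree * (v * Q) = u ^ p.natDegree * (P * u ^ (k + 1)) := by
          rw [mul_comm, e1, hk]
          ring
        exact mul_left_cancel₀ (pow_ne_zero _ hu0) this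
      have e3 := congrArg (residue V) e2
      rw [map_mul, map_mul, map_pow, ru, zero_pow (Nat.succ_ne_zero k), mul_zero, hQ1] at e3
      refine ⟨0, ?_⟩
      rw [map_zero]
      rcases mul_eq_zero.1 e3 with h' | h'
      · exact h'.symm
      · exact absurd h' lq
    · have e2 : v * Q = P := by
        rw [h] at e1
        exact mul_right_cancel₀ (pow_ne_zero _ hu0) e1
      have e3 := congrArg (residue V) e2
      rw [map_mul, hP1, hQ1] at e3
      refine ⟨p.leadingCoeff / q.leadingCoeff, ?_⟩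
      rw [map_div₀, div_eq_iff lq, e3]
    · exfalso
      obtain ⟨k, hk⟩ := Nat.exists_eq_add_of_lt h
      have e2 : v * Q * u ^ (k + 1) = P := by
        have : u ^ q.natDegree * (v * Q * u ^ (k + 1)) = u ^ q.natDegree * P := by
          rw [mul_comm _ P, ← e1, hk]
          ring
        exact mul_left_cancel₀ (pow_ne_zero _ hu0) this
      have e3 := congrArg (residue V) e2
      rw [map_mul, map_pow, ru, zero_pow (Nat.succ_ne_zero k), mul_zero, hP1] at e3
      exact lp e3.symm
  exact ⟨(RingEquiv.ofBijective ρ ⟨RingHom.injective ρ, hsurj⟩).symm⟩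

/-! ### case (1) -/

/-- the ring `V ∩ F` -/
def W (V : Type) {F K : Type} [CommRing V] [Field F] [Field K] [Algebra V K] (i : F →+* K) :
    Subring F := ((algebraMap V K).range).comap i

theorem mem_W {V F K : Type} [CommRing V] [Field F] [Field K] [Algebra V K] (i : F →+* K)
    (c : F) : c ∈ W V i ↔ ∃ v : V, algebraMap V K v = i c := by
  rw [W, Subring.mem_comap, RingHom.mem_range]

section

variable {V F K : Type} [CommRing V] [IsDomain V] [IsDiscreteValuationRing V] [Field F] [Field K]
  [Algebra V K] [IsFractionRing V K] (i : F →+* K) (j : W V i →+* V)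
  (hj : ∀ w : W V i, algebraMap V K (j w) = i (w : F))

include hj

omit [IsDomain V] [IsDiscreteValuationRing V] [IsFractionRing V K] in
theorem j_inj : Function.Injective j := by
  intro a b h
  have h1 := congrArg (algebraMap V K) h
  rw [hj, hj] at h1
  exact Subtype.ext (i.injective h1)

omit [IsDomain V] [IsDiscreteValuationRing V] [IsFractionRing V K] in
theorem j_unit (w : W V i) (h : IsUnit (j w)) : IsUnit w := by
  obtain ⟨u, hu⟩ := h
  have h1 : algebraMap V K (u : V) * algebraMap V K ((u⁻¹ : Vˣ) : V) = 1 := by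
    rw [← map_mul, Units.mul_inv, map_one]
  rw [hu, hj] at h1
  have h0 : (w : F) ≠ 0 := by
    intro h
    rw [h, map_zero, zero_mul] at h1
    exact zero_ne_one h1
  have h2 : algebraMap V K ((u⁻¹ : Vˣ) : V) = i ((w : F)⁻¹) := by
    rw [map_inv₀]
    exact eq_inv_of_mul_eq_one_right h1
  have h3 : ((w : F)⁻¹) ∈ W V i := (mem_W i _).2 ⟨_, h2⟩
  refine IsUnit.of_mul_eq_one (⟨_, h3⟩ : W V i) (Subtype.ext ?_)
  exact mul_inv_cancel₀ h0

theorem dvr (c : F) (hc : ∀ v : V, algebraMap V K v ≠ i c) : IsDiscreteValuationRing (W V i) := by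
  have inj : Function.Injective (algebraMap V K) := IsFractionRing.injective V K
  obtain ⟨ϖ, hϖ⟩ := IsDiscreteValuationRing.exists_irreducible V
  have hϖ0 : ϖ ≠ 0 := hϖ.ne_zero
  have hex : ∃ n : ℕ, 1 ≤ n ∧ ∃ w : W V i, Associated (j w) (ϖ ^ n) := by
    rcases dich V (i c) with ⟨v, hv⟩ | ⟨v, hv, hv'⟩
    · exact absurd hv (hc v)
    · rw [← map_inv₀] at hv'
      have hw : c⁻¹ ∈ W V i := (mem_W i _).2 ⟨v, hv'⟩
      have hv1 : j ⟨c⁻¹, hw⟩ = v := inj (by rw [hj, hv'])
      have hc0 : c ≠ 0 := by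
        rintro rfl
        exact hc 0 (by rw [map_zero, map_zero])
      have hv0 : v ≠ 0 := by
        rintro rfl
        rw [map_zero] at hv'
        exact inv_ne_zero hc0 ((map_eq_zero i).1 hv'.symm)
      obtain ⟨n, hn⟩ := IsDiscreteValuationRing.associated_pow_irreducible hv0 hϖ
      refine ⟨n, ?_, ⟨c⁻¹, hw⟩, by rw [hv1]; exact hn⟩
      rcases Nat.eq_zero_or_pos n with h | h
      · exfalso
        rw [h, pow_zero, associated_one_iff_isUnit] at hn
        exact (mem_maximalIdeal v).1 hv hn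
      · exact h
  classical
  obtain ⟨hn1, π, hπ⟩ := Nat.find_spec hex
  set n0 := Nat.find hex with hn0
  have hmin : ∀ n : ℕ, 1 ≤ n → ∀ w : W V i, Associated (j w) (ϖ ^ n) → n0 ≤ n :=
    fun n h1 w hw => Nat.find_min' hex ⟨h1, w, hw⟩
  have hj0 : ∀ w : W V i, w ≠ 0 → j w ≠ 0 := fun w hw h =>
    hw (j_inj i j hj (by rw [h, map_zero]))
  have hπ0 : π ≠ 0 := by
    rintro rfl
    rw [map_zero] at hπ
    exact pow_ne_zero n0 hϖ0 (hπ.symm.eq_zero_iff.2 rfl)
  have hπu : ¬ IsUnit π := by
    intro h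
    have h1 : IsUnit (j π) := h.map j
    have h2 : IsUnit (ϖ ^ n0) := hπ.isUnit h1
    exact hϖ.not_isUnit (isUnit_of_dvd_unit (dvd_pow_self ϖ (by omega)) h2)
  have hfac : ∀ n : ℕ, ∀ w : W V i, Associated (j w) (ϖ ^ n) → ∃ k : ℕ, Associated (π ^ k) w := by
    intro n
    induction n using Nat.strong_induction_on with
    | _ n ih =>
      intro w hw
      rcases Nat.eq_zero_or_pos n with h | h
      · rw [h, pow_zero, associated_one_iff_isUnit] at hw
        refine ⟨0, ?_⟩
        rw [pow_zero]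
        exact (associated_one_iff_isUnit.2 (j_unit i j hj w hw)).symm
      · have hle := hmin n h w hw
        obtain ⟨m, hm⟩ := Nat.exists_eq_add_of_le hle
        obtain ⟨u1, hu1⟩ := hπ
        obtain ⟨u2, hu2⟩ := hw
        -- `j w = j π * (unit * ϖ ^ m)`
        have e1 : j w = j π * (u1 * ϖ ^ m * ((u2⁻¹ : Vˣ) : V)) := by
          have : j w * (u2 : V) * ((u2⁻¹ : Vˣ) : V) = j w := by
            rw [mul_assoc, Units.mul_inv, mul_one]
          rw [← this, hu2, hm, pow_add, ← hu1]
          ring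
        have hπ1 : i (π : F) ≠ 0 := by
          intro h
          exact hπ0 (Subtype.ext ((map_eq_zero i).1 h))
        have hw' : (w : F) / (π : F) ∈ W V i := by
          refine (mem_W i _).2 ⟨u1 * ϖ ^ m * ((u2⁻¹ : Vˣ) : V), ?_⟩
          rw [map_div₀, eq_div_iff hπ1, ← hj, ← hj, ← map_mul, e1, mul_comm]
        have hπF : (π : F) ≠ 0 := fun h => hπ0 (Subtype.ext h)
        have ew : π * (⟨_, hw'⟩ : W V i) = w := by
          apply Subtype.ext
          exact mul_div_cancel₀ _ hπF
        have e2 : j (⟨_, hw'⟩ : W V i) = u1 * ϖ ^ m * ((u2⁻¹ : Vˣ) : V) := by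
          apply mul_left_cancel₀ (hj0 π hπ0)
          rw [← map_mul, ew, e1]
        have h3 : Associated (j (⟨_, hw'⟩ : W V i)) (ϖ ^ m) := by
          refine ⟨u2 * u1⁻¹, ?_⟩
          rw [e2, Units.val_mul]
          have h4 : ((u2⁻¹ : Vˣ) : V) * (u2 : V) = 1 := Units.inv_mul u2
          have h5 : (u1 : V) * ((u1⁻¹ : Vˣ) : V) = 1 := Units.mul_inv u1
          linear_combination ϖ ^ m * (u1 : V) * ((u1⁻¹ : Vˣ) : V) * h4 + ϖ ^ m * h5
        obtain ⟨k, hk⟩ := ih m (by omega) _ h3
        refine ⟨k + 1, ?_⟩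
        rw [pow_succ', ← ew]
        exact Associated.mul_left π hk
  refine IsDiscreteValuationRing.ofHasUnitMulPowIrreducibleFactorization
    ⟨π, ⟨hπu, ?_⟩, ?_⟩
  · intro a b hab
    by_contra hcon
    rw [not_or] at hcon
    have ha0 : a ≠ 0 := by
      rintro rfl
      rw [zero_mul] at hab
      exact hπ0 hab
    have hb0 : b ≠ 0 := by
      rintro rfl
      rw [mul_zero] at hab
      exact hπ0 hab
    obtain ⟨x, hx⟩ := IsDiscreteValuationRing.associated_pow_irreducible (hj0 a ha0) hϖ
    obtain ⟨y, hy⟩ := IsDiscreteValuationRing.associated_pow_irreducible (hj0 b hb0) hϖ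
    have hx1 : 1 ≤ x := by
      rcases Nat.eq_zero_or_pos x with h | h
      · exfalso
        rw [h, pow_zero, associated_one_iff_isUnit] at hx
        exact hcon.1 (j_unit i j hj a hx)
      · exact h
    have hy1 : 1 ≤ y := by
      rcases Nat.eq_zero_or_pos y with h | h
      · exfalso
        rw [h, pow_zero, associated_one_iff_isUnit] at hy
        exact hcon.2 (j_unit i j hj b hy)
      · exact h
    have h1 := hmin x hx1 a hx
    have h2 := hmin y hy1 b hy
    have h3 : Associated (ϖ ^ n0) (ϖ ^ (x + y)) := by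
      rw [pow_add]
      refine hπ.symm.trans ?_
      rw [hab, map_mul]
      exact Associated.mul_mul hx hy
    have h4 : ϖ ^ (x + y) ∣ ϖ ^ n0 := h3.symm.dvd
    have h5 := (pow_dvd_pow_iff hϖ0 hϖ.not_isUnit).1 h4
    omega
  · intro w hw
    obtain ⟨n, hn⟩ := IsDiscreteValuationRing.associated_pow_irreducible (hj0 w hw) hϖ
    exact hfac n w hn

end

/-! ### generation of `F(t)` -/

theorem poly_mem (F : Type) [Field F] (S : Subfield (RatFunc F))
    (h1 : ∀ c : F, algebraMap F (RatFunc F) c ∈ S) (h2 : (RatFunc.X : RatFunc F) ∈ S) (p : F[X]) :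
    algebraMap F[X] (RatFunc F) p ∈ S := by
  induction p using Polynomial.induction_on' with
  | add p q hp hq =>
    rw [map_add]
    exact S.add_mem hp hq
  | monomial n a =>
    rw [← C_mul_X_pow_eq_monomial, map_mul, map_pow, RatFunc.algebraMap_X, RatFunc.algebraMap_C]
    have h3 := h1 a
    rw [RatFunc.algebraMap_eq_C] at h3
    exact S.mul_mem h3 (S.pow_mem h2 n)

theorem all_mem (F : Type) [Field F] (S : Subfield (RatFunc F))
    (h1 : ∀ c : F, algebraMap F (RatFunc F) c ∈ S) (h2 : (RatFunc.X : RatFunc F) ∈ S)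
    (x : RatFunc F) : x ∈ S := by
  obtain ⟨p, q, hq, rfl⟩ := IsFractionRing.div_surjective (A := F[X]) x
  exact S.div_mem (poly_mem F S h1 h2 p) (poly_mem F S h1 h2 q)

theorem eval_X (F : Type) [Field F] (p : F[X]) :
    eval₂ (algebraMap F (RatFunc F)) RatFunc.X p = algebraMap F[X] (RatFunc F) p := by
  have h3 : aeval (RatFunc.X : RatFunc F) p = algebraMap F[X] (RatFunc F) p := by
    rw [← RatFunc.algebraMap_X, aeval_algebraMap_apply, aeval_X_left_apply]
  rw [← h3, aeval_def]

theorem eval_inj (F : Type) [Field F] (t : RatFunc F) (ht : t = RatFunc.X ∨ t = RatFunc.X⁻¹)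
    (p : F[X]) (hp : eval₂ (algebraMap F (RatFunc F)) t p = 0) : p = 0 := by
  have hX : ∀ q : F[X], eval₂ (algebraMap F (RatFunc F)) RatFunc.X q = 0 → q = 0 := by
    intro q hq
    rw [eval_X] at hq
    exact (map_eq_zero_iff _ (IsFractionRing.injective F[X] (RatFunc F))).1 hq
  rcases ht with rfl | rfl
  · exact hX p hp
  · let _ : Invertible ((RatFunc.X : RatFunc F)⁻¹) :=
      invertibleOfNonzero (inv_ne_zero RatFunc.X_ne_zero)
    have h1 := (eval₂_reverse_eq_zero_iff (algebraMap F (RatFunc F))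
      ((RatFunc.X : RatFunc F)⁻¹) p).2 hp
    rw [invOf_eq_inv, inv_inv] at h1
    exact (reverse_eq_zero).1 (hX _ h1)

/-- case (1) -/
theorem caseB (hAB : St_AB) {F V : Type} [Field F] [CommRing V] [IsDomain V]
    [IsDiscreteValuationRing V] [Algebra V (RatFunc F)] [IsFractionRing V (RatFunc F)]
    (hV : EssFin V) (c : F)
    (hc : ∀ v : V, algebraMap V (RatFunc F) v ≠ algebraMap F (RatFunc F) c)
    (t : RatFunc F) (ht : t = RatFunc.X ∨ t = RatFunc.X⁻¹) (τ : V)
    (hτ : algebraMap V (RatFunc F) τ = t) :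
    ∃ (L : Type) (_ : Field L), Nonempty (ResidueField V ≃+* RatFunc L) := by
  have inj : Function.Injective (algebraMap V (RatFunc F)) := IsFractionRing.injective V _
  let i : F →+* RatFunc F := algebraMap F (RatFunc F)
  obtain ⟨j, hj⟩ := lift (V := V) (i.comp (W V i).subtype) (fun w => (mem_W i w).1 w.2)
  replace hj : ∀ w : W V i, algebraMap V (RatFunc F) (j w) = i (w : F) := hj
  have hdvr : IsDiscreteValuationRing (W V i) := dvr i j hj c hc
  have hjl : IsLocalHom j := ⟨fun w hw => j_unit i j hj w hw⟩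
  have hji := j_inj i j hj
  let ψ : (W V i)[X] →+* V := eval₂RingHom j τ
  have hψ : ∀ p, algebraMap V (RatFunc F) (ψ p) = eval₂ i t (p.map (W V i).subtype) := by
    intro p
    change algebraMap V (RatFunc F) (eval₂ j τ p) = _
    rw [hom_eval₂, hτ, eval₂_map]
    congr 1
    exact RingHom.ext fun w => hj w
  have hψi : Function.Injective ψ := by
    rw [injective_iff_map_eq_zero]
    intro p hp
    have h1 := hψ p
    rw [hp, map_zero] at h1
    have h2 := eval_inj F t ht _ h1.symm
    exact (Polynomial.map_eq_zero_iff (Subtype.val_injective)).1 h2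
  let 𝔭 : Ideal (W V i)[X] := (maximalIdeal V).comap ψ
  have h𝔭 : 𝔭.IsPrime := inferInstanceAs ((maximalIdeal V).comap ψ).IsPrime
  have hmem : ∀ p, p ∈ 𝔭 ↔ ψ p ∈ maximalIdeal V := fun p => Iff.rfl
  have hreg : IsRegularRing (W V i)[X] := inferInstance
  have hR : IsRegularLocalRing (Localization.AtPrime 𝔭) :=
    IsRegularRing.isRegularLocalRing_localization 𝔭
  have hdom : IsDomain (Localization.AtPrime 𝔭) :=
    IsLocalization.isDomain_localization 𝔭.primeCompl_le_nonZeroDivisors
  have hg : ∀ y : 𝔭.primeCompl, IsUnit (ψ y) := by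
    intro y
    by_contra h
    exact y.2 ((hmem _).2 ((mem_maximalIdeal _).2 h))
  let φ : Localization.AtPrime 𝔭 →+* V := IsLocalization.lift hg
  have hφ : ∀ a, φ (algebraMap _ _ a) = ψ a := fun a => IsLocalization.lift_eq hg a
  have hsur : ∀ x : Localization.AtPrime 𝔭, ∃ a s : (W V i)[X], s ∉ 𝔭 ∧
      x * algebraMap _ _ s = algebraMap _ _ a ∧ φ x * ψ s = ψ a := by
    intro x
    obtain ⟨⟨a, s⟩, h⟩ := IsLocalization.surj 𝔭.primeCompl x
    refine ⟨a, s, s.2, h, ?_⟩
    have := congrArg φ h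
    rw [map_mul, hφ, hφ] at this
    exact this
  have hunit : ∀ s : (W V i)[X], s ∉ 𝔭 →
      IsUnit (algebraMap (W V i)[X] (Localization.AtPrime 𝔭) s) := fun s hs =>
    IsLocalization.map_units (Localization.AtPrime 𝔭) (⟨s, hs⟩ : 𝔭.primeCompl)
  have hφi : Function.Injective φ := by
    rw [injective_iff_map_eq_zero]
    intro x hx
    obtain ⟨a, s, hs, h1, h2⟩ := hsur x
    rw [hx, zero_mul] at h2
    have ha : a = 0 := hψi (by rw [← h2, map_zero])
    rw [ha, map_zero] at h1
    exact (hunit s hs).mul_left_eq_zero.1 h1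
  have hloc : IsLocalHom φ := by
    refine ⟨fun x hx => ?_⟩
    obtain ⟨a, s, hs, h1, h2⟩ := hsur x
    have h3 : IsUnit (ψ a) := by
      rw [← h2]
      exact hx.mul (hg ⟨s, hs⟩)
    have h4 : a ∉ 𝔭 := fun h => (mem_maximalIdeal _).1 ((hmem a).1 h) h3
    have h5 := hunit a h4
    rw [← h1] at h5
    exact isUnit_of_mul_isUnit_left h5
  have hfrac : SameFrac (R := Localization.AtPrime 𝔭) (V := V) φ := by
    let f : (W V i)[X] →+* RatFunc F := (algebraMap V (RatFunc F)).comp ψ
    let S : Subfield (RatFunc F) := Subfield.closure (f.range : Set (RatFunc F))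
    have hfS : ∀ p, f p ∈ S := fun p => Subfield.subset_closure ⟨p, rfl⟩
    have hFS : ∀ d : F, i d ∈ S := by
      intro d
      have hC : ∀ w : W V i, i (w : F) ∈ S := by
        intro w
        have h1 : f (C w) = i (w : F) := by
          change algebraMap V (RatFunc F) (ψ (C w)) = _
          rw [← hj]
          congr 1
          exact eval₂_C j τ
        rw [← h1]
        exact hfS _
      rcases dich V (i d) with ⟨v, hv⟩ | ⟨v, _, hv⟩
      · exact hC ⟨d, (mem_W i d).2 ⟨v, hv⟩⟩
      · rw [← map_inv₀] at hv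
        have h1 := hC ⟨d⁻¹, (mem_W i _).2 ⟨v, hv⟩⟩
        have h2 := S.inv_mem h1
        rw [← map_inv₀] at h2
        simpa using h2
    have hXS : (RatFunc.X : RatFunc F) ∈ S := by
      have h1 : f X = t := by
        change algebraMap V (RatFunc F) (ψ X) = _
        rw [← hτ]
        congr 1
        exact eval₂_X j τ
      have h2 : t ∈ S := by
        rw [← h1]
        exact hfS _
      rcases ht with h | h
      · rw [← h]
        exact h2
      · rw [h] at h2
        have h3 := S.inv_mem h2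
        rwa [inv_inv] at h3
    intro v
    have hv := all_mem F S hFS hXS (algebraMap V (RatFunc F) v)
    rw [Subfield.mem_closure_iff, Subring.closure_eq] at hv
    obtain ⟨y, ⟨a, rfl⟩, z, ⟨b, rfl⟩, hyz⟩ := hv
    by_cases hb : f b = 0
    · rw [hb, div_zero] at hyz
      have hv0 : v = 0 := inj (by rw [← hyz, map_zero])
      exact ⟨0, 1, one_ne_zero, by rw [hv0, mul_zero, map_zero]⟩
    · rw [div_eq_iff hb] at hyz
      have h1 : ψ a = v * ψ b := inj (by rw [map_mul]; exact hyz)
      refine ⟨algebraMap _ _ a, algebraMap _ _ b, ?_, ?_⟩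
      · intro h
        apply hb
        change algebraMap V (RatFunc F) (ψ b) = 0
        rw [← hφ, h, map_zero, map_zero]
      · rw [hφ, hφ, h1, mul_comm]
  rcases hAB (Localization.AtPrime 𝔭) V φ hφi hfrac hV with hbij | h
  swap
  · exact h
  -- the bijective case
  obtain ⟨π, hπ⟩ := IsDiscreteValuationRing.exists_irreducible (W V i)
  obtain ⟨ϖ, hϖ⟩ := IsDiscreteValuationRing.exists_irreducible V
  have hprime : Prime (C π : (W V i)[X]) := Polynomial.prime_C_iff.2 hπ.prime
  have hCψ : ψ (C π) = j π := eval₂_C j τ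
  have hjπ0 : j π ≠ 0 := fun h => hπ.ne_zero (hji (by rw [h, map_zero]))
  have hgen : ∀ p ∈ 𝔭, (C π : (W V i)[X]) ∣ p := by
    intro p hp
    obtain ⟨n, u, hn⟩ := IsDiscreteValuationRing.eq_unit_mul_pow_irreducible hjπ0 hϖ
    have h1 : ϖ ∣ ψ p := by
      have := (hmem p).1 hp
      rw [hϖ.maximalIdeal_eq, Ideal.mem_span_singleton] at this
      exact this
    have h2 : j π ∣ ψ p ^ n := by
      rw [hn]
      exact (Units.mul_left_dvd).2 (pow_dvd_pow_of_dvd h1 n)
    obtain ⟨v, hv⟩ := h2
    obtain ⟨x, rfl⟩ := hbij.2 v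
    obtain ⟨a, s, hs, _, h4⟩ := hsur x
    have h5 : s * p ^ n = C π * a := by
      apply hψi
      rw [map_mul, map_mul, map_pow, hv, hCψ, ← h4]
      ring
    rcases hprime.dvd_or_dvd (Dvd.intro _ h5.symm) with h6 | h6
    · exfalso
      apply hs
      obtain ⟨q, rfl⟩ := h6
      refine Ideal.mul_mem_right _ _ ((hmem _).2 ?_)
      rw [hCψ, mem_maximalIdeal, mem_nonunits_iff]
      exact fun h => hπ.not_isUnit (j_unit i j hj π h)
    · exact hprime.dvd_of_dvd_pow h6
  let k := ResidueField (W V i)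
  let θ : k[X] →+* ResidueField V := eval₂RingHom (ResidueField.map j) (residue V τ)
  have hθ : ∀ p : (W V i)[X], θ (p.map (residue (W V i))) = residue V (ψ p) := by
    intro p
    change eval₂ (ResidueField.map j) (residue V τ) (p.map (residue (W V i))) =
      residue V (eval₂ j τ p)
    rw [eval₂_map, hom_eval₂]
    congr 1
  have hmaps : Function.Surjective (Polynomial.map (residue (W V i))) :=
    Polynomial.map_surjective _ residue_surjective
  have hθi : Function.Injective θ := by
    rw [injective_iff_map_eq_zero]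
    intro q hq
    obtain ⟨p, rfl⟩ := hmaps q
    rw [hθ, residue_eq_zero_iff] at hq
    obtain ⟨r, rfl⟩ := hgen p ((hmem p).2 hq)
    have h0 : residue (W V i) π = 0 :=
      (residue_eq_zero_iff π).2 ((mem_maximalIdeal _).2 hπ.not_isUnit)
    rw [Polynomial.map_mul, map_C, h0, C_0, zero_mul]
  have hθn : k[X]⁰ ≤ (ResidueField V)⁰.comap θ := by
    intro q hq
    rw [Submonoid.mem_comap]
    refine mem_nonZeroDivisors_of_ne_zero fun h => nonZeroDivisors.ne_zero hq ?_
    exact hθi (by rw [h, map_zero])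
  let Θ : RatFunc k →+* ResidueField V := RatFunc.liftRingHom θ hθn
  have hΘs : Function.Surjective Θ := by
    intro z
    obtain ⟨v, rfl⟩ := residue_surjective z
    obtain ⟨x, rfl⟩ := hbij.2 v
    obtain ⟨a, s, hs, _, h4⟩ := hsur x
    refine ⟨algebraMap _ _ (a.map (residue (W V i))) / algebraMap _ _ (s.map (residue (W V i))), ?_⟩
    change RatFunc.liftRingHom θ hθn _ = _
    rw [RatFunc.liftRingHom_apply_div, hθ, hθ]
    have h5 : residue V (ψ s) ≠ 0 := fun h => hs ((hmem s).2 ((residue_eq_zero_iff _).1 h))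
    rw [div_eq_iff h5, ← h4, map_mul]
  exact ⟨k, inferInstance, ⟨(RingEquiv.ofBijective Θ ⟨RingHom.injective Θ, hΘs⟩).symm⟩⟩

end V1

/-- **V1** -/
theorem thm_V1 (hAB : St_AB) : St_V1 := by
  intro F V _ _ _ _ _ _ hV
  by_cases hF : ∀ c : F, ∃ v : V, algebraMap V (RatFunc F) v = algebraMap F (RatFunc F) c
  · obtain ⟨g, hg⟩ := V1.lift (algebraMap F (RatFunc F)) hF
    rcases V1.dich V (RatFunc.X : RatFunc F) with ⟨τ, hτ⟩ | ⟨u, hu, hu'⟩
    · refine Or.inr (Or.inl fun p => ⟨Polynomial.eval₂ g τ p, ?_⟩)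
      rw [Polynomial.hom_eval₂, hτ, ← V1.eval_X]
      congr 1
      exact RingHom.ext fun c => hg c
    · exact Or.inr (Or.inr (V1.caseA F V g hg u hu hu'))
  · push Not at hF
    obtain ⟨c, hc⟩ := hF
    left
    rcases V1.dich V (RatFunc.X : RatFunc F) with ⟨τ, hτ⟩ | ⟨u, hu, hu'⟩
    · exact V1.caseB hAB hV c hc _ (Or.inl rfl) τ hτ
    · exact V1.caseB hAB hV c hc _ (Or.inr rfl) u hu'

end Pool.Agent.BTF
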