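import Pool.Agent.BTF.St3
import Pool.Agent.BTF.DL

/-!
# BTF: module VI, restriction of a discrete valuation ring to a subfield
-/

set_option autoImplicit false

noncomputable section

namespace Pool.Agent.BTF

namespace VI

open Polynomial IsDiscreteValuationRing Cardinal

/-- algebraic extensions -/
theorem krle {K K' : Type} [Field K] [Field K'] (φ : K →+* K')
    (h : ∀ z : K', ∃ p : Polynomial K, p ≠ 0 ∧ Polynomial.eval₂ φ z p = 0) (d : ℕ)
    (hd : KrLe d K) : KrLe d K' := by
  let _ : Algebra K K' := φ.toAlgebra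
  have halg : Algebra.IsAlgebraic K K' := ⟨fun z => by
    obtain ⟨p, hp, hz⟩ := h z
    exact ⟨p, hp, hz⟩⟩
  let _ : Algebra (⊥ : Subfield K) K' := (φ.comp (⊥ : Subfield K).subtype).toAlgebra
  have tower := IsScalarTower.of_algebraMap_eq (R := (⊥ : Subfield K)) (S := K) (A := K')
    fun _ => rfl
  have h1 := trdeg_add_eq (⊥ : Subfield K) K (A := K')
  rw [trdeg_eq_zero (R := K) (A := K'), add_zero] at h1
  have h2 := DL.trdeg_bot (⊥ : Subfield K) K' (fun r =>
    (bot_le : (⊥ : Subfield K) ≤ (⊥ : Subfield K').comap φ) r.2)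
  have h3 : Algebra.trdeg (⊥ : Subfield K') K' = Algebra.trdeg (⊥ : Subfield K) K := by
    rw [← h2, ← h1]
  refine ⟨by rw [h3]; exact hd.1, fun hz => ?_⟩
  rw [h3]
  exact hd.2 φ.charZero

variable {K K' : Type} (V' : Type) [Field K] [Field K'] [CommRing V'] [IsDomain V']
  [IsDiscreteValuationRing V'] [Algebra V' K'] [IsFractionRing V' K'] (φ : K →+* K')

/-- the restriction -/
def A : ValuationSubring K :=
  { ((algebraMap V' K').range.comap φ) with
    mem_or_inv_mem' := fun x => by
      rcases ValuationRing.isInteger_or_isInteger V' (φ x) with ⟨y, hy⟩ | ⟨y, hy⟩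
      · exact Or.inl ⟨y, hy⟩
      · exact Or.inr ⟨y, by rw [hy, map_inv₀]⟩ }

theorem mem_A (x : K) : x ∈ A V' φ ↔ ∃ y : V', algebraMap V' K' y = φ x := Iff.rfl

/-- the map to `V'` -/
def psi : A V' φ →+* V' where
  toFun a := Classical.choose ((mem_A V' φ a.1).1 a.2)
  map_one' := by
    apply IsFractionRing.injective V' K'
    rw [Classical.choose_spec ((mem_A V' φ _).1 (1 : A V' φ).2)]
    simp
  map_zero' := by
    apply IsFractionRing.injective V' K'
    rw [Classical.choose_spec ((mem_A V' φ _).1 (0 : A V' φ).2)]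
    simp
  map_mul' a b := by
    apply IsFractionRing.injective V' K'
    rw [Classical.choose_spec ((mem_A V' φ _).1 (a * b).2), map_mul,
      Classical.choose_spec ((mem_A V' φ _).1 a.2), Classical.choose_spec ((mem_A V' φ _).1 b.2)]
    simp
  map_add' a b := by
    apply IsFractionRing.injective V' K'
    rw [Classical.choose_spec ((mem_A V' φ _).1 (a + b).2), map_add,
      Classical.choose_spec ((mem_A V' φ _).1 a.2), Classical.choose_spec ((mem_A V' φ _).1 b.2)]
    simp

theorem psi_spec (a : A V' φ) : algebraMap V' K' (psi V' φ a) = φ a :=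
  Classical.choose_spec ((mem_A V' φ a.1).1 a.2)

theorem psi_inj : Function.Injective (psi V' φ) := by
  intro a b h
  have h1 := congrArg (algebraMap V' K') h
  rw [psi_spec, psi_spec] at h1
  exact Subtype.ext (φ.injective h1)

theorem dvd_of (a b : A V' φ) (h : psi V' φ b ∣ psi V' φ a) : b ∣ a := by
  by_cases hb : b = 0
  · subst hb
    rw [map_zero, zero_dvd_iff] at h
    have : a = 0 := psi_inj V' φ (by rw [h, map_zero])
    rw [this]
  · obtain ⟨c, hc⟩ := h
    have hb' : (b : K) ≠ 0 := fun h => hb (Subtype.ext h)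
    have hφb : φ b ≠ 0 := by rwa [Ne, map_eq_zero]
    have hm : (a : K) / b ∈ A V' φ := by
      rw [mem_A]
      refine ⟨c, ?_⟩
      rw [map_div₀, eq_div_iff hφb, ← psi_spec, ← psi_spec, hc, map_mul, mul_comm]
    refine ⟨⟨_, hm⟩, Subtype.ext ?_⟩
    show (a : K) = b * (a / b)
    rw [mul_div_cancel₀ _ hb']

theorem unit_of (a : A V' φ) (h : IsUnit (psi V' φ a)) : IsUnit a := by
  rw [isUnit_iff_dvd_one] at h ⊢
  refine dvd_of V' φ 1 a ?_
  rwa [map_one]

/-- the valuation -/
theorem exists_nat (a : A V' φ) (ha : a ≠ 0) : ∃ n : ℕ, addVal V' (psi V' φ a) = n := by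
  have h1 : addVal V' (psi V' φ a) ≠ ⊤ := by
    rw [Ne, addVal_eq_top_iff]
    intro h
    exact ha (psi_inj V' φ (by rw [h, map_zero]))
  obtain ⟨n, hn⟩ := ENat.ne_top_iff_exists.1 h1
  exact ⟨n, hn.symm⟩

theorem unit_iff (a : A V' φ) : IsUnit a ↔ addVal V' (psi V' φ a) = 0 := by
  constructor
  · intro h
    have h1 : psi V' φ a ∣ 1 := isUnit_iff_dvd_one.1 (h.map _)
    have h2 := addVal_le_iff_dvd.2 h1
    rw [addVal_one] at h2
    exact le_antisymm h2 bot_le
  · intro h
    refine unit_of V' φ a (isUnit_iff_dvd_one.2 (addVal_le_iff_dvd.1 ?_))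
    rw [h, addVal_one]

theorem dvr (h0 : ∃ a : A V' φ, a ≠ 0 ∧ ¬ IsUnit a) : IsDiscreteValuationRing (A V' φ) := by
  have hex : ∃ n : ℕ, ∃ a : A V' φ, a ≠ 0 ∧ ¬ IsUnit a ∧ addVal V' (psi V' φ a) = n := by
    obtain ⟨a, ha, hu⟩ := h0
    obtain ⟨n, hn⟩ := exists_nat V' φ a ha
    exact ⟨n, a, ha, hu, hn⟩
  classical
  obtain ⟨p, hp0, hpu, hpn⟩ := Nat.find_spec hex
  have hmin : ∀ (a : A V' φ) (n : ℕ), a ≠ 0 → ¬ IsUnit a → addVal V' (psi V' φ a) = n →
      Nat.find hex ≤ n := fun a n h1 h2 h3 => Nat.find_min' hex ⟨a, h1, h2, h3⟩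
  have hpos : 0 < Nat.find hex := by
    rcases Nat.eq_zero_or_pos (Nat.find hex) with h | h
    · exfalso
      apply hpu
      rw [unit_iff, hpn, h]
      rfl
    · exact h
  refine ofHasUnitMulPowIrreducibleFactorization ⟨p, ⟨hpu, ?_⟩, ?_⟩
  · intro a b hab
    by_contra hc
    push Not at hc
    have ha0 : a ≠ 0 := by rintro rfl; exact hp0 (by rw [hab, zero_mul])
    have hb0 : b ≠ 0 := by rintro rfl; exact hp0 (by rw [hab, mul_zero])
    obtain ⟨n, hn⟩ := exists_nat V' φ a ha0
    obtain ⟨m, hm⟩ := exists_nat V' φ b hb0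
    have h1 := hmin a n ha0 hc.1 hn
    have h2 := hmin b m hb0 hc.2 hm
    have h3 : addVal V' (psi V' φ p) = addVal V' (psi V' φ a) + addVal V' (psi V' φ b) := by
      rw [hab, map_mul, addVal_mul]
    rw [hpn, hn, hm] at h3
    have h4 : Nat.find hex = n + m := by exact_mod_cast h3
    omega
  · have key : ∀ (n : ℕ) (x : A V' φ), x ≠ 0 → addVal V' (psi V' φ x) = n →
        ∃ k : ℕ, Associated (p ^ k) x := by
      intro n
      induction n using Nat.strong_induction_on with
      | _ n ih =>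
        intro x hx hxn
        by_cases hu : IsUnit x
        · refine ⟨0, ?_⟩
          rw [pow_zero]
          exact (associated_one_iff_isUnit.2 hu).symm
        · have h1 := hmin x n hx hu hxn
          have h2 : p ∣ x := by
            apply dvd_of
            rw [← addVal_le_iff_dvd, hpn, hxn]
            exact_mod_cast h1
          obtain ⟨y, rfl⟩ := h2
          have hy : y ≠ 0 := by rintro rfl; exact hx (mul_zero _)
          obtain ⟨m, hm⟩ := exists_nat V' φ y hy
          have h3 : addVal V' (psi V' φ (p * y)) = addVal V' (psi V' φ p) + addVal V' (psi V' φ y) := by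
            rw [map_mul, addVal_mul]
          rw [hxn, hpn, hm] at h3
          have h4 : n = Nat.find hex + m := by exact_mod_cast h3
          obtain ⟨k, hk⟩ := ih m (by omega) y hy hm
          refine ⟨k + 1, ?_⟩
          rw [pow_succ']
          exact hk.mul_left p
    intro x hx
    obtain ⟨n, hn⟩ := exists_nat V' φ x hx
    exact key n x hx hn

theorem alg_of (N : ℕ) (h : FinDeg φ N) (z : K') :
    ∃ p : Polynomial K, p ≠ 0 ∧ eval₂ φ z p = 0 := by
  let _ : Algebra K K' := φ.toAlgebra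
  have hf : FiniteDimensional K K' := h.1
  exact Algebra.IsAlgebraic.isAlgebraic (R := K) z

theorem ex_nonunit (N : ℕ) (h : FinDeg φ N) : ∃ a : A V' φ, a ≠ 0 ∧ ¬ IsUnit a := by
  by_contra hc
  push Not at hc
  have hall : ∀ k : K, k ∈ (A V' φ).toSubring := by
    intro k
    rcases (A V' φ).mem_or_inv_mem k with h | h
    · exact h
    · by_cases hk : k = 0
      · rw [hk]; exact zero_mem _
      · have hu := hc ⟨k⁻¹, h⟩ (fun e => inv_ne_zero hk (congrArg Subtype.val e))
        obtain ⟨b, hb⟩ := isUnit_iff_exists_inv.1 hu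
        have h1 : k⁻¹ * (b : K) = 1 := congrArg Subtype.val hb
        have h2 : k = b := by
          rw [inv_mul_eq_iff_eq_mul₀ hk, mul_one] at h1
          exact h1.symm
        rw [h2]; exact b.2
  let g : K →+* V' := (psi V' φ).comp ((RingHom.id K).codRestrict (A V' φ).toSubring hall)
  have hg : (algebraMap V' K').comp g = φ := by
    ext k
    exact psi_spec V' φ ⟨k, hall k⟩
  obtain ⟨ϖ, hϖ⟩ := exists_irreducible V'
  obtain ⟨p, hp, hz⟩ := alg_of φ N h ((algebraMap V' K' ϖ)⁻¹)
  have hint : IsIntegral V' ((algebraMap V' K' ϖ)⁻¹) := by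
    refine ⟨(p * C p.leadingCoeff⁻¹).map g, (monic_mul_leadingCoeff_inv hp).map g, ?_⟩
    rw [eval₂_map, hg, eval₂_mul, hz, zero_mul]
  obtain ⟨y, hy⟩ := IsIntegrallyClosed.isIntegral_iff.1 hint
  have hne : algebraMap V' K' ϖ ≠ 0 := by
    intro h0
    exact hϖ.ne_zero (IsFractionRing.injective V' K' (by rw [h0, map_zero]))
  apply hϖ.not_isUnit
  rw [isUnit_iff_exists_inv]
  refine ⟨y, IsFractionRing.injective V' K' ?_⟩
  rw [map_mul, hy, map_one, mul_inv_cancel₀ hne]

instance : IsLocalHom (psi V' φ) := ⟨fun a h => unit_of V' φ a h⟩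

theorem res_alg (N : ℕ) (h : FinDeg φ N) (z : IsLocalRing.ResidueField V') :
    ∃ p : Polynomial (IsLocalRing.ResidueField (A V' φ)), p ≠ 0 ∧
      eval₂ (IsLocalRing.ResidueField.map (psi V' φ)) z p = 0 := by
  obtain ⟨v, rfl⟩ := IsLocalRing.residue_surjective z
  obtain ⟨p, hp, hz⟩ := alg_of φ N h (algebraMap V' K' v)
  obtain ⟨i, hi, hmax⟩ := Finset.exists_max_image p.support
    (fun i => (A V' φ).valuation (p.coeff i)) (support_nonempty.2 hp)
  have hi0 : p.coeff i ≠ 0 := mem_support_iff.1 hi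
  have hmem : C (p.coeff i)⁻¹ * p ∈ lifts (A V' φ).subtype := by
    rw [lifts_iff_coeff_lifts]
    intro n
    rw [coeff_C_mul]
    refine ⟨⟨(p.coeff i)⁻¹ * p.coeff n, ?_⟩, rfl⟩
    by_cases hn : p.coeff n = 0
    · rw [hn, mul_zero]; exact zero_mem _
    · rw [← ValuationSubring.valuation_le_one_iff, map_mul, map_inv₀]
      have h1 := hmax n (mem_support_iff.2 hn)
      have h2 : (A V' φ).valuation (p.coeff i) ≠ 0 := by rwa [Ne, map_eq_zero]
      calc ((A V' φ).valuation (p.coeff i))⁻¹ * (A V' φ).valuation (p.coeff n)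
          ≤ ((A V' φ).valuation (p.coeff i))⁻¹ * (A V' φ).valuation (p.coeff i) :=
            mul_le_mul_right h1 _
        _ = 1 := inv_mul_cancel₀ h2
  obtain ⟨Q, hQ⟩ := (mem_lifts _).1 hmem
  have hQi : Q.coeff i = 1 := by
    apply Subtype.ext
    have h1 := congrArg (fun q => q.coeff i) hQ
    simp only [coeff_map, coeff_C_mul, inv_mul_cancel₀ hi0] at h1
    exact h1
  have hQv : eval₂ (psi V' φ) v Q = 0 := by
    apply IsFractionRing.injective V' K'
    have hc : (algebraMap V' K').comp (psi V' φ) = φ.comp (A V' φ).subtype := by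
      ext a
      exact psi_spec V' φ a
    rw [hom_eval₂, hc, ← eval₂_map, hQ, eval₂_mul, hz, mul_zero, map_zero]
  refine ⟨Q.map (IsLocalRing.residue _), ?_, ?_⟩
  · intro h0
    have h1 := congrArg (fun q => q.coeff i) h0
    simp only [coeff_map, hQi, map_one, coeff_zero] at h1
    exact one_ne_zero h1
  · rw [eval₂_map, IsLocalRing.ResidueField.map_comp_residue, ← hom_eval₂, hQv, map_zero]

end VI

open VI in
/-- **VI**. The restriction of a discrete valuation ring to a subfield. -/
theorem thm_VI : St_VI := by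
  intro K K' V' _ _ _ _ _ _ _ φ N h
  have hD : IsDiscreteValuationRing (A V' φ) := dvr V' φ (ex_nonunit V' φ N h)
  refine ⟨A V' φ, inferInstance, inferInstance, hD, inferInstance, inferInstance, psi V' φ,
    inferInstance, fun v => (psi_spec V' φ v).symm, fun k v' hk => ⟨⟨k, v', hk.symm⟩, rfl⟩,
    fun d hd => ?_⟩
  exact krle (IsLocalRing.ResidueField.map (psi V' φ)) (res_alg V' φ N h) d hd

end Pool.Agent.BTF
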