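import Pool.Agent.BTF.St3

/-!
# BTF, module WL: the discrete valuation ring `V'` is a localisation of the integral closure of `V`

For `v` in `V'` take a relation with coefficients in `V`, one of them a unit; the part of the relation above
the last unit coefficient is a unit `b` of `V'`, and `b`, `b * v` are in all valuation rings over `V`.
-/

set_option autoImplicit false

noncomputable section

namespace Pool.Agent.BTF.WL

open Polynomial

/-- an element of all valuation rings over the image of `g` is integral -/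
theorem integral_of_mem {L R : Type} [Field L] [CommRing R] (g : R →+* L) (x : L)
    (h : ∀ A : ValuationSubring L, (∀ r, g r ∈ A) → x ∈ A) : g.IsIntegralElem x := by
  have h1 : x ∈ (integralClosure (Subring.closure (Set.range g)) L).toSubring := by
    rw [← iInf_valuationSubring_superset, Subring.mem_iInf]
    rintro ⟨A, hA⟩
    exact h A fun r => hA ⟨r, rfl⟩
  have h2 : IsIntegral (Subring.closure (Set.range g)) x := h1
  obtain ⟨p, hp, hp0⟩ := h2
  have hcl : ∀ y ∈ Subring.closure (Set.range g), ∃ r, g r = y := by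
    intro y hy
    have : Subring.closure (Set.range g) ≤ g.range :=
      Subring.closure_le.2 (by rintro _ ⟨r, rfl⟩; exact ⟨r, rfl⟩)
    exact this hy
  let f : R →+* Subring.closure (Set.range g) :=
    g.codRestrict _ fun r => Subring.subset_closure ⟨r, rfl⟩
  have hf : Function.Surjective f := by
    rintro ⟨y, hy⟩
    obtain ⟨r, hr⟩ := hcl y hy
    exact ⟨r, Subtype.ext hr⟩
  have hl : p ∈ Polynomial.lifts f := by
    rw [Polynomial.mem_lifts]
    exact Polynomial.map_surjective f hf p
  obtain ⟨q, hq, -, hqm⟩ := Polynomial.lifts_and_degree_eq_and_monic hl hp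
  refine ⟨q, hqm, ?_⟩
  rw [← hp0, ← hq, Polynomial.eval₂_map]
  rfl

theorem key {V V' K' : Type} [CommRing V] [IsDomain V] [IsDiscreteValuationRing V]
    [CommRing V'] [IsDomain V'] [IsLocalRing V'] [Field K'] [Algebra V' K'] [IsFractionRing V' K']
    (ψ : V →+* V') [IsLocalHom ψ] (hψ : Function.Injective ψ) (v : V') (hv : v ≠ 0) (q : V[X])
    (hq : q ≠ 0) (hqv : q.eval₂ ψ v = 0) :
    ∃ b : V', IsUnit b ∧ ψ.IsIntegralElem b ∧ ψ.IsIntegralElem (b * v) := by
  classical
  -- a coefficient dividing the others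
  obtain ⟨i, hi, hmin⟩ := Finset.exists_min_image q.support
    (fun j => IsDiscreteValuationRing.addVal V (q.coeff j)) (Polynomial.support_nonempty.2 hq)
  have hdvd : ∀ j, q.coeff i ∣ q.coeff j := by
    intro j
    by_cases hj : j ∈ q.support
    · exact (IsDiscreteValuationRing.addVal_le_iff_dvd).1 (hmin j hj)
    · rw [Polynomial.notMem_support_iff.1 hj]; exact dvd_zero _
  choose c hc using hdvd
  have hi0 : q.coeff i ≠ 0 := Polynomial.mem_support_iff.1 hi
  have hci : c i = 1 := by
    have := hc i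
    exact (mul_left_cancel₀ hi0 (by rw [mul_one]; exact this.symm))
  have hin : i ∈ Finset.range (q.natDegree + 1) :=
    Finset.mem_range.2 (Nat.lt_succ_of_le (Polynomial.le_natDegree_of_mem_supp i hi))
  have hsum : ∑ j ∈ Finset.range (q.natDegree + 1), ψ (c j) * v ^ j = 0 := by
    have h1 : ψ (q.coeff i) * ∑ j ∈ Finset.range (q.natDegree + 1), ψ (c j) * v ^ j = 0 := by
      rw [Finset.mul_sum, ← hqv, Polynomial.eval₂_eq_sum_range]
      refine Finset.sum_congr rfl fun j _ => ?_
      conv_rhs => rw [hc j, map_mul]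
      ring
    exact (mul_eq_zero.1 h1).resolve_left fun h => hi0 (hψ (by rw [h, map_zero]))
  -- the largest unit coefficient
  set n := q.natDegree
  let S := (Finset.range (n + 1)).filter fun j => IsUnit (c j)
  have hS : S.Nonempty := ⟨i, Finset.mem_filter.2 ⟨hin, by rw [hci]; exact isUnit_one⟩⟩
  obtain ⟨s, hs, hsmax⟩ := Finset.exists_max_image S id hS
  obtain ⟨hsn, u, hu⟩ := Finset.mem_filter.1 hs
  have hsn' : s < n + 1 := Finset.mem_range.1 hsn
  let d : ℕ → V := fun j => (↑u⁻¹ : V) * c j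
  have hds : d s = 1 := by
    change (↑u⁻¹ : V) * c s = 1
    rw [← hu]; exact u.inv_mul
  have hd : ∀ j, s < j → j < n + 1 → ¬ IsUnit (d j) := by
    intro j hj hjn hu'
    have h1 : IsUnit (c j) := by
      have : c j = (u : V) * d j := by
        change c j = (u : V) * ((↑u⁻¹ : V) * c j)
        rw [← mul_assoc, u.mul_inv, one_mul]
      rw [this]; exact u.isUnit.mul hu'
    have := hsmax j (Finset.mem_filter.2 ⟨Finset.mem_range.2 hjn, h1⟩)
    simp only [id] at this
    omega
  have hdsum : ∑ j ∈ Finset.range (n + 1), ψ (d j) * v ^ j = 0 := by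
    have : ∑ j ∈ Finset.range (n + 1), ψ (d j) * v ^ j =
        ψ (↑u⁻¹ : V) * ∑ j ∈ Finset.range (n + 1), ψ (c j) * v ^ j := by
      rw [Finset.mul_sum]
      refine Finset.sum_congr rfl fun j _ => ?_
      change ψ ((↑u⁻¹ : V) * c j) * v ^ j = _
      rw [map_mul]; ring
    rw [this, hsum, mul_zero]
  obtain ⟨m, hm⟩ : ∃ m, n + 1 = s + (m + 1) := ⟨n - s, by omega⟩
  -- the unit
  let b : V' := ∑ j ∈ Finset.range (m + 1), ψ (d (s + j)) * v ^ j
  have hrel : ∑ j ∈ Finset.range s, ψ (d j) * v ^ j + v ^ s * b = 0 := by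
    rw [← hdsum, hm, Finset.sum_range_add, Finset.mul_sum]
    congr 1
    refine Finset.sum_congr rfl fun j _ => ?_
    rw [pow_add]; ring
  have hb : IsUnit b := by
    have h1 : b = 1 + ∑ j ∈ Finset.range m, ψ (d (s + (j + 1))) * v ^ (j + 1) := by
      change ∑ j ∈ Finset.range (m + 1), ψ (d (s + j)) * v ^ j = _
      rw [Finset.sum_range_succ', add_comm, add_zero, hds, map_one, pow_zero, mul_one]
    have h2 : ∑ j ∈ Finset.range m, ψ (d (s + (j + 1))) * v ^ (j + 1) ∈
        IsLocalRing.maximalIdeal V' := by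
      refine Ideal.sum_mem _ fun j hj => ?_
      refine Ideal.mul_mem_right _ _ ?_
      rw [IsLocalRing.mem_maximalIdeal]
      intro h
      exact hd (s + (j + 1)) (by omega) (by have := Finset.mem_range.1 hj; omega)
        (isUnit_of_map_unit ψ _ h)
    by_contra hb
    have h3 : b ∈ IsLocalRing.maximalIdeal V' := hb
    have h4 : (1 : V') ∈ IsLocalRing.maximalIdeal V' := by
      have : (1 : V') = b - ∑ j ∈ Finset.range m, ψ (d (s + (j + 1))) * v ^ (j + 1) := by
        rw [h1]; ring
      rw [this]; exact Ideal.sub_mem _ h3 h2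
    exact (Ideal.ne_top_iff_one _).1 (IsLocalRing.maximalIdeal.isMaximal V').ne_top h4
  have hs0 : s ≠ 0 := by
    rintro rfl
    rw [Finset.range_zero, Finset.sum_empty, zero_add, pow_zero, one_mul] at hrel
    exact hb.ne_zero hrel
  obtain ⟨t, rfl⟩ := Nat.exists_eq_succ_of_ne_zero hs0
  -- the field
  let ι := algebraMap V' K'
  have hι : Function.Injective ι := IsFractionRing.injective V' K'
  let x : K' := ι v
  have hx : x ≠ 0 := fun h => hv (hι (by rw [map_zero]; exact h))
  have hxb : x * ι b = - ∑ j ∈ Finset.range (t + 1), ι (ψ (d j)) * (x⁻¹) ^ (t - j) := by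
    have h1 : x ^ (t + 1) * ι b = - ∑ j ∈ Finset.range (t + 1), ι (ψ (d j)) * x ^ j := by
      have := congrArg ι hrel
      rw [map_add, map_mul, map_pow, map_sum, map_zero] at this
      rw [eq_neg_iff_add_eq_zero, add_comm, ← this]
      congr 1
      refine Finset.sum_congr rfl fun j _ => ?_
      rw [map_mul ι (ψ (d j)), map_pow]
    have h2 : x * ι b = (x⁻¹) ^ t * (x ^ (t + 1) * ι b) := by
      rw [← mul_assoc, pow_succ, ← mul_assoc, inv_pow, inv_mul_cancel₀ (pow_ne_zero _ hx), one_mul]
    rw [h2, h1, mul_neg, Finset.mul_sum]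
    congr 1
    refine Finset.sum_congr rfl fun j hj => ?_
    have hj' : j ≤ t := Nat.lt_succ_iff.1 (Finset.mem_range.1 hj)
    have : (x⁻¹) ^ t = (x⁻¹) ^ (t - j) * (x⁻¹) ^ j := by
      rw [← pow_add]; congr 1; omega
    rw [this]
    calc (x⁻¹) ^ (t - j) * (x⁻¹) ^ j * (ι (ψ (d j)) * x ^ j) =
        ι (ψ (d j)) * (x⁻¹) ^ (t - j) * ((x⁻¹) ^ j * x ^ j) := by ring
      _ = ι (ψ (d j)) * (x⁻¹) ^ (t - j) := by
        rw [← mul_pow, inv_mul_cancel₀ hx, one_pow, mul_one]
  have hbx : ι b = ∑ j ∈ Finset.range (m + 1), ι (ψ (d (t + 1 + j))) * x ^ j := by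
    change ι (∑ j ∈ Finset.range (m + 1), ψ (d (t + 1 + j)) * v ^ j) = _
    rw [map_sum]
    refine Finset.sum_congr rfl fun j _ => ?_
    rw [map_mul, map_pow]
  have hmem : ∀ A : ValuationSubring K', (∀ r : V, (ι.comp ψ) r ∈ A) →
      ι b ∈ A ∧ ι (b * v) ∈ A := by
    intro A hA
    rcases A.mem_or_inv_mem x with hxA | hxA
    · have h1 : ι b ∈ A := by
        rw [hbx]
        exact sum_mem fun j _ => mul_mem (hA _) (pow_mem hxA _)
      exact ⟨h1, by rw [map_mul]; exact mul_mem h1 hxA⟩
    · have h1 : x * ι b ∈ A := by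
        rw [hxb]
        exact neg_mem (sum_mem fun j _ => mul_mem (hA _) (pow_mem hxA _))
      refine ⟨?_, by rw [map_mul, mul_comm]; exact h1⟩
      have : ι b = x⁻¹ * (x * ι b) := by
        rw [← mul_assoc, inv_mul_cancel₀ hx, one_mul]
      rw [this]; exact mul_mem hxA h1
  have hback : ∀ w : V', (ι.comp ψ).IsIntegralElem (ι w) → ψ.IsIntegralElem w := by
    rintro w ⟨p, hp, hp0⟩
    refine ⟨p, hp, hι ?_⟩
    rw [Polynomial.hom_eval₂, hp0, map_zero]
  exact ⟨b, hb, hback b (integral_of_mem _ _ fun A hA => (hmem A hA).1),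
    hback (b * v) (integral_of_mem _ _ fun A hA => (hmem A hA).2)⟩

end Pool.Agent.BTF.WL

namespace Pool.Agent.BTF

theorem thm_WL : St_WL := by
  intro K K' V V' _ _ _ _ _ _ _ _ _ _ _ _ φ N ψ hfs hψl hcomm v
  have := hψl
  have hψ : Function.Injective ψ := by
    intro r s h
    have h1 := hcomm r
    have h2 := hcomm s
    rw [h, ← h2] at h1
    exact IsFractionRing.injective V K (φ.injective h1)
  rcases eq_or_ne v 0 with rfl | hv
  · refine ⟨0, 1, ?_, ?_, isUnit_one, mul_zero _⟩
    · have := ψ.isIntegralElem_map (x := 0)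
      rwa [map_zero] at this
    · have := ψ.isIntegralElem_map (x := 1)
      rwa [map_one] at this
  obtain ⟨p, hp, hpv⟩ : ∃ p : Polynomial K, p ≠ 0 ∧
      Polynomial.eval₂ φ (algebraMap V' K' v) p = 0 := by
    let := φ.toAlgebra
    obtain ⟨h1, -⟩ := hfs
    have : FiniteDimensional K K' := h1
    obtain ⟨p, hp, hp0⟩ := Algebra.IsAlgebraic.isAlgebraic (R := K) (algebraMap V' K' v)
    exact ⟨p, hp, by rw [← hp0, Polynomial.aeval_def]; rfl⟩
  let q : Polynomial V := IsLocalization.integerNormalization (nonZeroDivisors V) p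
  have hq : q ≠ 0 := fun h => hp ((IsFractionRing.integerNormalization_eq_zero_iff).1 h)
  have hqv : q.eval₂ ψ v = 0 := by
    have h1 : Polynomial.eval₂ (φ.comp (algebraMap V K)) (algebraMap V' K' v) q = 0 :=
      IsLocalization.integerNormalization_eval₂_eq_zero (nonZeroDivisors V) φ p hpv
    have h2 : φ.comp (algebraMap V K) = (algebraMap V' K').comp ψ := RingHom.ext hcomm
    rw [h2, ← Polynomial.hom_eval₂] at h1
    exact IsFractionRing.injective V' K' (by rw [map_zero]; exact h1)
  obtain ⟨b, hb, hbi, hbv⟩ := WL.key (K' := K') ψ hψ v hv q hq hqv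
  exact ⟨b * v, b, hbv, hbi, hb, rfl⟩

end Pool.Agent.BTF
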