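import Pool.Agent.BTF.FinII
import Pool.Agent.BTF.PIM
import Pool.Agent.BTF.G0
import Pool.Agent.BTF.K0
import Pool.Agent.BTF.K3
import Pool.Agent.BTF.T0
import Pool.Agent.BTF.V1
import Pool.Agent.BTF.KA
import Pool.Agent.BTF.RL
import Pool.Agent.BTF.TM
import Pool.Agent.BTF.VI
import Pool.Agent.BTF.WL
import Pool.Agent.BTF.FI
import Pool.Agent.BTF.CFI
import Pool.Agent.BTF.NNI
import Pool.Agent.BTF.GY
import Pool.Agent.BTF.KE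
import Pool.Agent.BTF.IP
import Pool.Agent.BTF.UR
import Pool.Agent.BTF.NB
import Pool.Agent.BTF.G5
import Pool.Agent.BTF.MV
import Pool.Agent.BTF.GL
import Pool.Agent.BTF.NR
import Pool.Agent.BTF.N2
import Pool.Agent.BTF.N3
import Pool.Agent.BTF.N4b
import Pool.Agent.BTF.ALb
import Pool.Agent.BTF.N7
import Pool.Agent.BTF.N9
import Pool.Agent.BTF.C1
import Pool.Agent.BTF.C2
import Pool.Agent.BTF.PIII
import Pool.Agent.BTF.GCb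
import Pool.Agent.BTF.CO3

/-!
# BTF: all modules together (captain helper21)
-/

set_option autoImplicit false

noncomputable section

namespace Pool.Agent.BTF

open Pool.Agent.KGT.W (SerreClass)

/-- (I) for isomorphisms modulo `𝒮` -/
theorem birMod (𝒮 : (G : Type 1) → [AddCommGroup G] → Prop) (h𝒮 : SerreClass 𝒮) (d : ℕ)
    (hlow : Low 𝒮 d) : BirMod 𝒮 d :=
  thm_PIM thm_KL thm_AB (thm_K2 thm_DL) (thm_K3M thm_K1) (thm_K4 thm_DL) thm_G0 thm_G1 thm_G2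
    thm_G3 (thm_G4 thm_DL thm_DV) 𝒮 h𝒮 d hlow

/-- (I) -/
theorem birInv (𝒮 : (G : Type 1) → [AddCommGroup G] → Prop) (h𝒮 : SerreClass 𝒮) (d : ℕ)
    (hlow : Low 𝒮 d) : BirInv 𝒮 d := by
  intro X Y B _ _ _ f g _ _ hB hX hY hkr h n
  exact thm_IM 𝒮 h𝒮 _ _ (birMod 𝒮 h𝒮 d hlow X Y B f g hB hX hY hkr h n)

theorem fin_N7 : St_N7 :=
  thm_N7 thm_VI (thm_TM thm_DL thm_DV) thm_WL thm_G5 (thm_UR thm_IP thm_GY thm_KE)
    (thm_NB (thm_CF thm_FI thm_WL))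

theorem fin_N9 : St_N9 :=
  thm_N9 thm_K1N (thm_K2 thm_DL) thm_K3 (thm_G4 thm_DL thm_DV) thm_RL thm_KA (thm_GL thm_MV)
    thm_NR (thm_NN thm_FI) (thm_N2 thm_DL) thm_N3 (thm_N4b thm_DL) fin_N7 thm_ALb

theorem fin_PIII : St_PIII :=
  thm_PIII thm_RL thm_DL thm_KL thm_KA (thm_K2 thm_DL) thm_K3
    (thm_C1 thm_AB thm_DL thm_KL (thm_K4 thm_DL) thm_G2 thm_G3)
    (thm_C2 thm_DL thm_KL (thm_K4 thm_DL) thm_G3 (thm_V1 thm_AB)) fin_N9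

/-- (III) -/
theorem dominated (𝒮 : (G : Type 1) → [AddCommGroup G] → Prop) (h𝒮 : SerreClass 𝒮) (d : ℕ)
    (hlow : Low 𝒮 d) : Dominated 𝒮 d :=
  fin_PIII 𝒮 h𝒮 d hlow

/-- (IV) -/
theorem geom3 : Geom3 :=
  thm_CO3 thm_DL thm_KL thm_KA (thm_K0 thm_DL) thm_K1 (thm_K2 thm_DL) (thm_K4 thm_DL) thm_T0
    thm_NR (thm_NN thm_FI) fin_PIII thm_GCb

end Pool.Agent.BTF
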