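import Pool.Agent.BTF.St8
import Pool.Agent.BTF.G2

/-!
helper58. Module G5B of BTF: the centre of an abstract valuation ring of the function field, over a base.
-/

set_option autoImplicit false

noncomputable section

namespace Pool.Agent.BTF

open CategoryTheory CategoryTheory.Limits AlgebraicGeometry Pool.Agent.KPR
open Pool.Agent.KGT.W (SerreClass FinType)

theorem thm_G5B : St_G5B := by
  intro Z B _ f _ V _ _ _ _ _ v hv
  let R : CommRingCat.{0} := CommRingCat.of V
  let φ : R ⟶ Z.functionField := CommRingCat.ofHom (algebraMap V Z.functionField)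
  have hfr : @IsFractionRing R _ Z.functionField _ φ.hom.toAlgebra := by
    have h1 : φ.hom.toAlgebra = (inferInstance : Algebra V Z.functionField) :=
      Algebra.algebra_ext _ _ fun r => rfl
    rw [h1]
    infer_instance
  have hc : Z.fromSpecStalk (genericPoint Z) ≫ f = Spec.map φ ≫ v := hv.symm
  obtain ⟨L, hL1, hL2⟩ := G2.lift f R Z.functionField (inferInstanceAs (IsDomain V))
    (inferInstanceAs (ValuationRing V)) (Field.toIsField _) φ hfr _ _ hc
  refine ⟨L (IsLocalRing.closedPoint R), (Scheme.stalkClosedPointTo L).hom, inferInstance, ?_⟩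
  have h2 : Scheme.stalkClosedPointTo L ≫ φ = toF Z (L (IsLocalRing.closedPoint R)) := by
    apply Spec.map_injective
    rw [← cancel_mono (Z.fromSpecStalk _), Spec.map_comp, Category.assoc,
      Scheme.Spec_stalkClosedPointTo_fromSpecStalk, hL1, G2.spec_toF]
  intro s
  rw [← h2]
  rfl

end Pool.Agent.BTF
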