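import Pool.Agent.BTF.St8
import Pool.Agent.BTF.N7

/-!
helper81 (after helper68's N7). Module N7B of BTF: the points of `Y` outside of `U`, over a base `B`.
-/

set_option autoImplicit false

noncomputable section

namespace Pool.Agent.BTF

open CategoryTheory CategoryTheory.Limits AlgebraicGeometry Pool.Agent.KPR Pool.Agent.KTX
open Pool.Agent.KGT.W (SerreClass FinType)

namespace N7B

/-- proper schemes over `B` are of finite type -/
theorem finType {X B : Scheme.{0}} (f : X ⟶ B) [IsProper f] (h : FinType ℤ B) : FinType ℤ X := by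
  obtain ⟨b, h1, h2⟩ := h
  exact ⟨f ≫ b, inferInstance, inferInstance⟩

/-- proper schemes over a separated scheme are separated -/
theorem sep {X B : Scheme.{0}} (f : X ⟶ B) [IsProper f] [B.IsSeparated] : X.IsSeparated := by
  constructor
  rw [← terminal.comp_from f]
  infer_instance

/-- the two morphisms from the generic point to `B` -/
theorem comm {X X₁ Y B : Scheme.{0}} [IsIntegral X] [IsIntegral X₁] [IsIntegral Y] (f : X ⟶ B)
    (g : Y ⟶ B) (φ : X.functionField →+* Y.functionField) (π : X₁ ⟶ X)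
    (θ : Y.functionField ≅ X₁.functionField)
    (hfg : etaX φ ≫ f = Y.fromSpecStalk (genericPoint Y) ≫ g)
    (hθ : Spec.map θ.inv ≫ X₁.fromSpecStalk (genericPoint X₁) ≫ π = etaX φ) (y : Y) :
    Spec.map (toF Y y ≫ θ.hom) ≫ Y.fromSpecStalk y ≫ g =
      X₁.fromSpecStalk (genericPoint X₁) ≫ π ≫ f := by
  have e2 : Spec.map θ.hom ≫ Spec.map θ.inv = 𝟙 _ := by
    rw [← Spec.map_comp, θ.inv_hom_id, Spec.map_id]
  rw [Spec.map_comp, Category.assoc, ← Category.assoc (Spec.map (toF Y y)), G2.spec_toF, ← hfg,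
    ← hθ, Category.assoc, Category.assoc, ← Category.assoc (Spec.map θ.hom), e2, Category.id_comp]

/-- the centre on `X₁` of a local ring of `Y` -/
theorem centre (hG5B : St_G5B) {X X₁ Y B : Scheme.{0}} [IsIntegral X] [IsIntegral X₁] [IsIntegral Y]
    (f : X ⟶ B) (g : Y ⟶ B) [IsProper f] (φ : X.functionField →+* Y.functionField) (π : X₁ ⟶ X)
    [IsFinite π] (θ : Y.functionField ≅ X₁.functionField)
    (hfg : etaX φ ≫ f = Y.fromSpecStalk (genericPoint Y) ≫ g)
    (hθ : Spec.map θ.inv ≫ X₁.fromSpecStalk (genericPoint X₁) ≫ π = etaX φ) (y : Y)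
    (V : Type) [CommRing V] [IsDomain V] [ValuationRing V] [Algebra V X₁.functionField]
    [IsFractionRing V X₁.functionField] (ι : Y.presheaf.stalk y ≅ CommRingCat.of V)
    (hι : ∀ v : V, algebraMap V X₁.functionField v = θ.hom.hom ((toF Y y).hom (ι.inv.hom v))) :
    ∃ (x : X₁) (l : X₁.presheaf.stalk x →+* V), IsLocalHom l ∧
      ∀ s : X₁.presheaf.stalk x, algebraMap V X₁.functionField (l s) = (toF X₁ x).hom s := by
  have e1 : Sm (algebraMap V X₁.functionField) = Spec.map (toF Y y ≫ θ.hom) ≫ Spec.map ι.inv := by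
    rw [← Spec.map_comp]
    congr 1
    ext v
    exact hι v
  refine hG5B X₁ B (π ≫ f) V (Spec.map ι.hom ≫ Y.fromSpecStalk y ≫ g) ?_
  have e2 : Spec.map ι.inv ≫ Spec.map ι.hom = 𝟙 _ := by
    rw [← Spec.map_comp, ι.hom_inv_id, Spec.map_id]
  rw [e1, Category.assoc, ← Category.assoc (Spec.map ι.inv), e2, Category.id_comp]
  exact comm f g φ π θ hfg hθ y

end N7B

set_option maxHeartbeats 1000000 in
open N7 N7B in
theorem thm_N7B (hVI : St_VI) (hTM : St_TM) (hWL : St_WL) (hG5B : St_G5B) (hUR : St_UR)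
    (hNB : St_NB) : St_N7B := by
  intro L hPZ d X X₁ Y B _ _ _ _ _ f g _ hFB hRX hKX hFY φ N hφ hfg π _ θ hθ hint U hU ρ _ hρ y
    hyU hDVR hbad hcomp
  have hsep : X.IsSeparated := N7B.sep f
  have hFX : FinType ℤ X := N7B.finType f hFB
  obtain ⟨V, iV1, iV2, iV3, iV4, iV5, ψ, hψ, h1, h2, h3⟩ :=
    hVI X.functionField Y.functionField (Y.presheaf.stalk y) φ N hφ
  have hTerm : Term V := (hTM V).2 X.functionField d hKX (fun h => hbad (h3 d h))
  let jj : Y.presheaf.stalk y →+* X₁.functionField := θ.hom.hom.comp (toF Y y).hom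
  let : Algebra (Y.presheaf.stalk y) X₁.functionField := jj.toAlgebra
  have hfr : IsFractionRing (Y.presheaf.stalk y) X₁.functionField := by
    have h4 : IsFractionRing (Y.presheaf.stalk y) Y.functionField := inferInstance
    exact IsLocalization.isLocalization_of_algEquiv (nonZeroDivisors (Y.presheaf.stalk y))
      (AlgEquiv.ofRingEquiv (f := θ.commRingCatIsoToRingEquiv) (fun x => rfl) :
        Y.functionField ≃ₐ[Y.presheaf.stalk y] X₁.functionField)
  have hjj : Function.Injective jj := IsFractionRing.injective (Y.presheaf.stalk y) X₁.functionField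
  have hd : IsDomain (Y.presheaf.stalk y) := inferInstance
  have hd2 : ValuationRing (Y.presheaf.stalk y) := inferInstance
  obtain ⟨x₁, l₁, hl₁, hl₁'⟩ := @N7B.centre hG5B X X₁ Y B _ _ _ f g _ φ π _ θ hfg hθ y
    (Y.presheaf.stalk y) _ hd hd2 _ hfr (Iso.refl _) (fun v => rfl)
  obtain ⟨φ', hφ'⟩ : ∃ φ' : X.functionField ⟶ Y.functionField, φ'.hom = φ :=
    ⟨CommRingCat.ofHom φ, rfl⟩
  have hφ2 : etaX φ = Spec.map φ' ≫ X.fromSpecStalk (genericPoint X) := by
    rw [← hφ']
    rfl
  have hc : π.stalkMap x₁ ≫ toF X₁ x₁ ≫ θ.inv = toF X (π x₁) ≫ φ' := by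
    apply Spec.map_injective
    rw [← cancel_mono (X.fromSpecStalk (π x₁))]
    rw [Spec.map_comp, Spec.map_comp, Spec.map_comp, Category.assoc, Category.assoc,
      Category.assoc, Scheme.SpecMap_stalkMap_fromSpecStalk,
      ← Category.assoc (Spec.map (toF X₁ x₁)), G2.spec_toF, hθ, G2.spec_toF, hφ2]
  have hc' : ∀ s : X.presheaf.stalk (π x₁), φ ((toF X (π x₁)).hom s) =
      algebraMap (Y.presheaf.stalk y) Y.functionField (l₁ ((π.stalkMap x₁).hom s)) := by
    intro s
    have h5 : θ.inv.hom ((toF X₁ x₁).hom ((π.stalkMap x₁).hom s)) =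
        φ ((toF X (π x₁)).hom s) := by
      rw [← hφ']
      exact congrArg (fun f => f.hom s) hc
    rw [← h5, ← hl₁']
    have h6 : ∀ v : Y.functionField, θ.inv.hom (θ.hom.hom v) = v := by
      intro v
      exact congrArg (fun f => f.hom v) θ.hom_inv_id
    exact h6 _
  obtain ⟨l, hl⟩ := factor (algebraMap V X.functionField)
    (IsFractionRing.injective V X.functionField) (toF X (π x₁)).hom
    (fun s => h2 _ _ (hc' s))
  have hψl : ψ.comp l = l₁.comp (π.stalkMap x₁).hom := by
    ext s
    apply IsFractionRing.injective (Y.presheaf.stalk y) Y.functionField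
    rw [RingHom.comp_apply, RingHom.comp_apply, ← h1, hl]
    exact hc' s
  have hlloc : IsLocalHom l := by
    constructor
    intro s hs
    have h7 : IsUnit (l₁ ((π.stalkMap x₁).hom s)) := by
      have h8 := hs.map ψ
      rwa [← RingHom.comp_apply, hψl] at h8
    exact isUnit_of_map_unit (π.stalkMap x₁).hom _ (hl₁.map_nonunit _ h7)
  have hlinj : Function.Injective l := by
    intro s t hst
    apply IsFractionRing.injective (X.presheaf.stalk (π x₁)) X.functionField
    rw [← G2.toF_eq, ← hl, ← hl, hst]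
  have hsame : SameFrac l := by
    intro v
    obtain ⟨a, b, hb, hab⟩ := IsFractionRing.div_surjective (A := X.presheaf.stalk (π x₁))
      (algebraMap V X.functionField v)
    have hb0 : b ≠ 0 := nonZeroDivisors.ne_zero hb
    refine ⟨a, b, hb0, ?_⟩
    apply IsFractionRing.injective V X.functionField
    rw [map_mul, hl, hl, ← hab, G2.toF_eq]
    have h9 : algebraMap (X.presheaf.stalk (π x₁)) X.functionField b ≠ 0 := by
      intro h
      exact hb0 (IsFractionRing.injective (X.presheaf.stalk (π x₁)) X.functionField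
        (by rw [h, map_zero]))
    field_simp
  have hnb : ¬ Function.Bijective l := by
    intro hbij
    have hs := surj l hbij (π.stalkMap x₁).hom l₁ hl₁ ψ hψl jj hjj
      (RingHom.ext fun s => hl₁' s)
      (hWL X.functionField Y.functionField V (Y.presheaf.stalk y) φ N ψ hφ hψ h1)
    have hi : Function.Injective l₁ := by
      intro s t hst
      apply IsFractionRing.injective (X₁.presheaf.stalk x₁) X₁.functionField
      rw [← G2.toF_eq, ← hl₁', ← hl₁', hst]
    let e := RingEquiv.ofBijective l₁ ⟨hi, hs⟩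
    refine hcomp x₁ ⟨e.symm.toCommRingCatIso, ?_⟩
    ext v
    obtain ⟨s, rfl⟩ := hs v
    have h10 : e.symm (l₁ s) = s := e.symm_apply_apply s
    show (toF X₁ x₁).hom (e.symm (l₁ s)) = θ.hom.hom ((toF Y y).hom (l₁ s))
    rw [h10, ← hl₁']
    rfl
  have hun := hUR L hPZ X hFX X.functionField V hTerm (π x₁) l hlloc hlinj (hRX _) hsame
  have hη : Spec.map (CommRingCat.ofHom ((algebraMap V X.functionField).comp l)) ≫
      X.fromSpecStalk (π x₁) = X.fromSpecStalk (genericPoint X) := by
    rw [← G2.spec_toF X (π x₁)]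
    congr 2
    ext s
    exact hl s
  rw [hη] at hun
  have hun' : Unram L X X.functionField V (X.fromSpecStalk (genericPoint X)) False := by
    obtain ⟨A, a1, a2, a3, j, w, W, b1, lw, k, i, c1, c2, c3, c4, c5, c6, c7, c8, c9⟩ := hun
    exact ⟨A, a1, a2, a3, j, w, W, b1, lw, k, i, c1, c2, c3, c4, c5, c6, c7,
      Or.inr (c8.resolve_left hnb), c9⟩
  exact hNB L X Y hFX hFY φ N hφ U hU ρ hρ y hyU hDVR V ψ hψ h1 hun'

end Pool.Agent.BTF
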