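import Pool.Agent.BTF.St8
import Pool.Agent.BTF.N9

/-!
# BTF, N9B (helper77): the main step of part (III), domination, over a base
-/

set_option autoImplicit false

noncomputable section

namespace Pool.Agent.BTF

open CategoryTheory CategoryTheory.Limits AlgebraicGeometry Pool.Agent.KPR Pool.Agent.KTX
open Pool.Agent.KGT.W (SerreClass FinType)
open Pool.Agent.GTH (Serre)

namespace N9B

theorem sep {Y B : Scheme.{0}} [Y.IsSeparated] (g : Y ⟶ B) : IsSeparated g := by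
  have h : IsSeparated (g ≫ terminal.from B) := by
    rw [terminal.comp_from]
    infer_instance
  exact IsSeparated.of_comp g (terminal.from B)

theorem lft {Y B : Scheme.{0}} (g : Y ⟶ B) (hY : FinType ℤ Y) (hB : FinType ℤ B) :
    LocallyOfFiniteType g := by
  obtain ⟨a, ha, -⟩ := hY
  obtain ⟨b, hb, -⟩ := hB
  have h : g ≫ b = a := specZIsTerminal.hom_ext _ _
  have h1 : LocallyOfFiniteType (g ≫ b) := h ▸ ha
  exact locallyOfFiniteType_of_comp g b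

theorem overB {X X₁ Y B : Scheme.{0}} [IsIntegral X] [IsIntegral X₁] [IsIntegral Y]
    (θ : Y.functionField ≅ X₁.functionField) (f : X ⟶ B) (g : Y ⟶ B) (π : X₁ ⟶ X)
    (φ : X.functionField →+* Y.functionField)
    (hθ : Spec.map θ.inv ≫ X₁.fromSpecStalk (genericPoint X₁) ≫ π = etaX φ)
    (h : etaX φ ≫ f = Y.fromSpecStalk (genericPoint Y) ≫ g) : OverB θ (π ≫ f) g := by
  unfold OverB
  rw [← h, ← hθ]
  simp only [Category.assoc]
  rw [← Spec.map_comp_assoc, θ.inv_hom_id, Spec.map_id, Category.id_comp]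

end N9B

/-- **N9B** -/
theorem thm_N9B (hK1N : St_K1N) (hK2 : St_K2) (hK3 : St_K3) (hG4 : St_G4) (hRL : St_RL)
    (hKA : St_KA) (hGL : St_GL) (hNR : St_NR) (hNN : St_NN) (hN2 : St_N2) (hN3 : St_N3)
    (hN4b : St_N4b) (hN7B : St_N7B) (hALb : St_ALb) : St_N9B := by
  intro 𝒮 h𝒮 d hlow X Y B _ _ _ _ f g _ hfB hrX hkr hfY hrY φ N hφ hφg n hcomp hY
  obtain ⟨L, hPZ, hLK, -⟩ := hRL
  have hfX : FinType ℤ X := N9.ft_comp f hfB
  have hXn : IsNoetherian X := N9.noeth hfX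
  have hYn : IsNoetherian Y := N9.noeth hfY
  have hic : ∀ x : X, IsIntegrallyClosed (X.presheaf.stalk x) := hNR X hrX
  obtain ⟨X₁, hX₁, π, hπ, ε, hε, hic₁⟩ := hNN X hfX hic Y.functionField φ N hφ
  obtain ⟨X₀, hX₀, hgX₀, hLF, hFl⟩ := hN3 X X₁ π Y.functionField ε φ N hφ hε
  have hfX₁ : FinType ℤ X₁ := N9.ft_comp π hfX
  have hX₁n : IsNoetherian X₁ := N9.noeth hfX₁
  let θ : Y.functionField ≅ X₁.functionField := ε.symm.toCommRingCatIso
  have hθ : Spec.map θ.inv ≫ X₁.fromSpecStalk (genericPoint X₁) ≫ π = etaX φ := hε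
  have hgs : IsSeparated g := N9B.sep g
  have hgl : LocallyOfFiniteType g := N9B.lft g hfY hfB
  have hOB : OverB θ (π ≫ f) g := N9B.overB θ f g π φ hθ hφg
  obtain ⟨D, hD, j, hj, hDj, hDc⟩ := N9.big X₁ Y B (π ≫ f) g θ hOB
  have hπg : π (genericPoint X₁) = genericPoint X := by
    have h1 := G1.ap2 (f := Spec.map θ.inv) (g := X₁.fromSpecStalk (genericPoint X₁) ≫ π)
      (h := Spec.map (CommRingCat.ofHom φ)) (k := X.fromSpecStalk (genericPoint X)) hθ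
      (IsLocalRing.closedPoint Y.functionField)
    rw [N9.fs_gen] at h1
    exact (congrArg π (N9.fs_gen ((Spec.map θ.inv)
      (IsLocalRing.closedPoint Y.functionField)))).symm.trans h1
  have hgood0 : ∀ x : X, x ∉ X₀ → KrLe d (X.residueField x) := by
    intro x hx
    rcases hG4 X hrX d hkr x with h | h | h
    · exact h
    · exact absurd (h ▸ hgX₀) hx
    · exact absurd (hX₀ x h.1) hx
  have hgood1 : ∀ x₁ : X₁, x₁ ∉ π ⁻¹ᵁ X₀ → KrLe d (X₁.residueField x₁) := fun x₁ hx =>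
    hKA (X.residueField (π x₁)) (X₁.residueField x₁) (π.residueFieldMap x₁).hom
      (N9.res_alg π x₁) d (hgood0 (π x₁) hx)
  have hkrY : KrLe (d + 2) Y.functionField := by
    refine hKA X.functionField Y.functionField φ ?_ (d + 2) hkr
    intro z
    let _ := φ.toAlgebra
    have h1 : FiniteDimensional X.functionField Y.functionField := hφ.1
    have h2 : IsAlgebraic X.functionField z := Algebra.IsAlgebraic.isAlgebraic z
    exact h2
  have hkrX₁ : KrLe (d + 2) X₁.functionField := PI.krLe_of_equiv ε.symm (d + 2) hkrY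
  let P : X₁.Opens := π ⁻¹ᵁ X₀
  have hgP : genericPoint X₁ ∈ P := by
    show π (genericPoint X₁) ∈ X₀
    rw [hπg]
    exact hgX₀
  let D' : X₁.Opens := D ⊓ P
  have hgD' : genericPoint X₁ ∈ D' := ⟨hD, hgP⟩
  let a : D'.toScheme ⟶ Y := X₁.homOfLE (inf_le_left : D' ≤ D) ≫ j
  let b : D'.toScheme ⟶ P.toScheme := X₁.homOfLE (inf_le_right : D' ≤ P)
  have ha : IsOpenImmersion a := inferInstance
  let U : Y.Opens := a.opensRange
  let e : D'.toScheme ≅ U.toScheme := a.isoOpensRange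
  have he : e.inv ≫ a = U.ι := a.isoOpensRange_inv_comp
  let c : U.toScheme ⟶ P.toScheme := e.inv ≫ b
  let ρ : U.toScheme ⟶ X := c ≫ (π ∣_ X₀) ≫ X₀.ι
  have hρf : Flat ρ := inferInstance
  have hX₀n : IsNoetherian X₀.toScheme := N9.noeth (N9.ft_open X₀.ι hfX)
  have hPn : IsNoetherian P.toScheme := N9.noeth (N9.ft_open P.ι hfX₁)
  have hUn : IsNoetherian U.toScheme := N9.noeth (N9.ft_open U.ι hfY)
  have hgU : genericPoint Y ∈ U := by
    have : Nonempty D'.toScheme := ⟨⟨_, hgD'⟩⟩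
    exact ⟨genericPoint D'.toScheme, genericPoint_eq_of_isOpenImmersion a⟩
  have heta : etaU U hgU ≫ ρ = etaX φ := by
    have h1 : etaU U hgU ≫ e.inv = Spec.map θ.inv ≫ D'.fromSpecStalkOfMem _ hgD' := by
      rw [← cancel_mono a, Category.assoc, he]
      show U.fromSpecStalkOfMem _ hgU ≫ U.ι = _
      rw [Scheme.Opens.fromSpecStalkOfMem_ι, Category.assoc]
      show _ = Spec.map θ.inv ≫ D'.fromSpecStalkOfMem _ hgD' ≫
        X₁.homOfLE (inf_le_left : D' ≤ D) ≫ j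
      rw [← Category.assoc (D'.fromSpecStalkOfMem _ hgD'), G1.fs_homOfLE, hDj,
        ← Spec.map_comp_assoc, θ.hom_inv_id, Spec.map_id, Category.id_comp]
    have h2 : ρ = e.inv ≫ D'.ι ≫ π := by
      show (e.inv ≫ X₁.homOfLE (inf_le_right : D' ≤ P)) ≫ (π ∣_ X₀) ≫ X₀.ι = _
      rw [morphismRestrict_ι, Category.assoc, ← Category.assoc (X₁.homOfLE _),
        Scheme.homOfLE_ι]
    rw [h2, ← Category.assoc, h1, Category.assoc, ← Category.assoc (D'.fromSpecStalkOfMem _ hgD'),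
      Scheme.Opens.fromSpecStalkOfMem_ι]
    exact hθ
  have haU : ∀ (x₁ : X₁) (hx : x₁ ∈ D) (hx' : x₁ ∈ P), j ⟨x₁, hx⟩ ∈ U := by
    intro x₁ hx hx'
    refine ⟨(⟨x₁, hx, hx'⟩ : D'.toScheme), ?_⟩
    have h1 := G1.ap (X₁.homOfLE_ι (inf_le_left : D' ≤ D)) (⟨x₁, hx, hx'⟩ : D'.toScheme)
    have h2 : X₁.homOfLE (inf_le_left : D' ≤ D) (⟨x₁, hx, hx'⟩ : D'.toScheme) = ⟨x₁, hx⟩ :=
      Subtype.ext h1
    show j (X₁.homOfLE (inf_le_left : D' ≤ D) (⟨x₁, hx, hx'⟩ : D'.toScheme)) = _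
    rw [h2]
  let Bd : Set Y := {y | y ∉ U ∧ ¬ KrLe d (Y.residueField y)}
  have hBdvr : ∀ y ∈ Bd, IsDiscreteValuationRing (Y.presheaf.stalk y) := by
    intro y hy
    rcases hG4 Y hrY d hkrY y with h | h | h
    · exact absurd h hy.2
    · exact absurd (h ▸ hgU) hy.1
    · exact h.1
  have hBmax : ∀ y ∈ Bd, ∀ z : Y, z ∉ U → z ⤳ y → z = y := by
    intro y hy z hz hzy
    have := hBdvr y hy
    rcases N9.dvr_gen y z hzy with h | h
    · exact h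
    · exact absurd (h ▸ hgU) hz
  have hBfin : Bd.Finite :=
    N9.fin_bad (U : Set Y)ᶜ U.isOpen.isClosed_compl Bd (fun y hy => hy.1) hBmax
  have hBext : ∀ y ∈ Bd, ExtAt L U ρ y := by
    intro y hy
    refine hN7B L hPZ d X X₁ Y B f g hfB hrX hkr hfY φ N hφ hφg π θ hθ hic₁ U hgU ρ heta y hy.1
      (hBdvr y hy) hy.2 (fun x₁ hc => ?_)
    obtain ⟨hx, hxy⟩ := hDc x₁ y hc
    by_cases hxP : x₁ ∈ P
    · exact hy.1 (hxy ▸ haU x₁ hx hxP)
    · obtain ⟨e'⟩ := N9.res_compat hc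
      exact hy.2 (PI.krLe_of_equiv e' d (hgood1 x₁ hxP))
  obtain ⟨Y', hUY', hsY', hext⟩ := hGL L X Y U ρ hBfin.toFinset
    (fun y hy => (hBfin.mem_toFinset.1 hy).1)
    (fun y hy z hz hyz => (hBmax y (hBfin.mem_toFinset.1 hy) z (hBfin.mem_toFinset.1 hz).1
      (specializes_iff_mem_closure.2 hyz)).symm)
    (fun y hy => hBext y (hBfin.mem_toFinset.1 hy))
  have hY' : 𝒮 (KX n Y'.toScheme) := by
    refine (hK3 𝒮 h𝒮 Y Y'.toScheme Y'.ι hfY (fun y hy => hK2 𝒮 h𝒮 d hlow _ ?_) n).1 hY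
    by_contra hcon
    refine hy ?_
    rw [Scheme.Opens.range_ι]
    by_cases hyU : y ∈ U
    · exact hUY' hyU
    · exact hsY' y (hBfin.mem_toFinset.2 ⟨hyU, hcon⟩)
  have hX₀ne : Nonempty X₀.toScheme := ⟨⟨_, hgX₀⟩⟩
  have hX₀i : IsIntegral X₀.toScheme := inferInstance
  have hkrX₀ : KrLe (d + 2) X₀.toScheme.functionField := by
    obtain ⟨e'⟩ := N9.ff_open X₀.ι
    exact PI.krLe_of_equiv e' (d + 2) hkr
  obtain ⟨Z₂, i₂, hi₂, hkZ₂, hm⟩ := hN4b L d X₀.toScheme P.toScheme (π ∣_ X₀) N hLF hkrX₀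
  have hZ₂ : 𝒮 (KX n Z₂) := hlow Z₂ (N9.ft_comp i₂ (N9.ft_open X₀.ι hfX)) hkZ₂ n
  have hk1 : 𝒮 ((L.th n).pull X₀.ι).ker := by
    refine N9.ker_mem hK1N h𝒮 L hLK n X₀.ι hfX (fun x hx => ?_)
    refine N9.goodN_of (hK2 𝒮 h𝒮 d hlow _ (hgood0 x (fun h => hx ?_))) n
    rw [Scheme.Opens.range_ι]
    exact h
  have hk2 : 𝒮 ((L.th n).pull c).ker := by
    refine N9.ker_mem hK1N h𝒮 L hLK n c (N9.ft_open P.ι hfX₁) (fun x hx => ?_)
    obtain ⟨e'⟩ := N9.res_open P.ι x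
    refine N9.goodN_iso e' ?_
    have hxD' : P.ι x ∉ D' := by
      intro hxD
      apply hx
      let z : D'.toScheme := ⟨P.ι x, hxD⟩
      refine ⟨e.hom z, ?_⟩
      have h1 : c (e.hom z) = b z := G1.ap (f := e.hom) (g := c) (h := b)
        (e.hom_inv_id_assoc b) z
      have h2 := G1.ap (X₁.homOfLE_ι (inf_le_right : D' ≤ P)) z
      rw [h1]
      exact Subtype.ext h2
    have hxP : P.ι x ∈ P := x.2
    rcases hN2 X₁ hic₁ d hkrX₁ (P.ι x) with h | h | h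
    · exact N9.goodN_of (hK2 𝒮 h𝒮 d hlow _ h) n
    · exact absurd (h ▸ hgD') hxD'
    · by_contra hcon
      obtain ⟨y, hy⟩ := hcomp X₁ (π ≫ f) θ hOB hfX₁ (P.ι x) h.1 hcon
      obtain ⟨hxD, -⟩ := hDc _ _ hy
      exact hxD' ⟨hxD, hxP⟩
  obtain ⟨eX⟩ := hLK n X
  obtain ⟨eY'⟩ := hLK n Y'.toScheme
  obtain ⟨eZ₂⟩ := hLK n Z₂
  refine N9.mulIn_iso h𝒮 eX _ (hALb 𝒮 h𝒮 _ _ _ _ _ _ ((L.th n).pull X₀.ι)
    ((L.th n).pull (π ∣_ X₀)) ((L.th n).push (π ∣_ X₀)) ((L.th n).pull c)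
    ((L.th n).pull (Y.homOfLE hUY')) ((L.th n).push i₂) N hk1 hk2 ((N9.iso_iff h𝒮 eY').2 hY')
    ((N9.iso_iff h𝒮 eZ₂).2 hZ₂) ?_ (hm n))
  intro α
  obtain ⟨β, hβ⟩ := hext n α
  have e1 := (L.th n).pull_comp c ((π ∣_ X₀) ≫ X₀.ι) α
  have e2 := (L.th n).pull_comp (π ∣_ X₀) X₀.ι α
  exact ⟨β, hβ.trans (e1.trans (congrArg ((L.th n).pull c) e2))⟩

end Pool.Agent.BTF
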