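import Pool.Agent.BTF.St8
import Pool.Agent.BTF.PIII

/-!
# BTF, module PIIIB (helper63): part (III), domination, over a base `B`
-/

set_option autoImplicit false

noncomputable section

namespace Pool.Agent.BTF

open CategoryTheory CategoryTheory.Limits AlgebraicGeometry Pool.Agent.KPR Pool.Agent.KTX
open Pool.Agent.KGT.W (SerreClass FinType)

namespace PIIIB

/-- proper schemes over `B` are of finite type over the integers -/
theorem finType {Y B : Scheme.{0}} (g : Y ⟶ B) [IsProper g] (hB : FinType ℤ B) : FinType ℤ Y := by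
  obtain ⟨b, hb1, hb2⟩ := hB
  exact ⟨g ≫ b, inferInstance, inferInstance⟩

/-- proper schemes over the separated scheme `B` are separated -/
theorem sep {Y B : Scheme.{0}} (g : Y ⟶ B) [IsProper g] [B.IsSeparated] : Y.IsSeparated := by
  constructor
  rw [← terminal.comp_from g]
  infer_instance

/-- the field of fractions of `D[t]` -/
theorem frac_poly (D F : Type) [CommRing D] [IsDomain D] [Field F] [Algebra D F]
    [IsFractionRing D F] :
    ∃ E : RatFunc F ≃+* FractionRing (Polynomial D), ∀ c : D,
      E (algebraMap F (RatFunc F) (algebraMap D F c)) =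
        algebraMap (Polynomial D) (FractionRing (Polynomial D)) (Polynomial.C c) := by
  let ι : Polynomial D →+* RatFunc F := (algebraMap (Polynomial F) (RatFunc F)).comp
    (Polynomial.mapRingHom (algebraMap D F))
  have hι : Function.Injective ι :=
    (IsFractionRing.injective (Polynomial F) (RatFunc F)).comp
      (Polynomial.map_injective _ (IsFractionRing.injective D F))
  let a : Algebra (Polynomial D) (RatFunc F) := ι.toAlgebra
  have hf : FaithfulSMul (Polynomial D) (RatFunc F) :=
    (faithfulSMul_iff_algebraMap_injective _ _).2 hι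
  have hC : ∀ (b : D) (p : Polynomial F) (p' : Polynomial D),
      p'.map (algebraMap D F) = b • p →
      ι p' = ι (Polynomial.C b) * algebraMap (Polynomial F) (RatFunc F) p := by
    intro b p p' h
    show algebraMap (Polynomial F) (RatFunc F) (p'.map (algebraMap D F)) =
      algebraMap (Polynomial F) (RatFunc F) ((Polynomial.C b).map (algebraMap D F)) * _
    rw [h, ← map_mul]
    congr 1
    rw [Polynomial.map_C, ← Polynomial.smul_eq_C_mul, algebraMap_smul]
  have hfr : IsFractionRing (Polynomial D) (RatFunc F) := by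
    refine IsFractionRing.of_field _ _ (fun z => ?_)
    obtain ⟨p, q, hq, rfl⟩ := IsFractionRing.div_surjective (A := Polynomial F) z
    obtain ⟨b₁, hb₁, h₁⟩ := IsLocalization.integerNormalization_spec (nonZeroDivisors D) p
    obtain ⟨b₂, hb₂, h₂⟩ := IsLocalization.integerNormalization_spec (nonZeroDivisors D) q
    obtain ⟨p', hp'⟩ : ∃ p', p' = IsLocalization.integerNormalization (nonZeroDivisors D) p :=
      ⟨_, rfl⟩
    obtain ⟨q', hq'⟩ : ∃ q', q' = IsLocalization.integerNormalization (nonZeroDivisors D) q :=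
      ⟨_, rfl⟩
    rw [← hp'] at h₁
    rw [← hq'] at h₂
    have e₁ := hC b₁ p p' h₁
    have e₂ := hC b₂ q q' h₂
    have n₁ : ι (Polynomial.C b₁) ≠ 0 := (map_ne_zero_iff ι hι).2
      (Polynomial.C_ne_zero.2 (nonZeroDivisors.ne_zero hb₁))
    have n₂ : ι (Polynomial.C b₂) ≠ 0 := (map_ne_zero_iff ι hι).2
      (Polynomial.C_ne_zero.2 (nonZeroDivisors.ne_zero hb₂))
    have n₃ : algebraMap (Polynomial F) (RatFunc F) q ≠ 0 :=
      (map_ne_zero_iff _ (IsFractionRing.injective (Polynomial F) (RatFunc F))).2
        (nonZeroDivisors.ne_zero hq)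
    refine ⟨Polynomial.C b₂ * p', Polynomial.C b₁ * q', ?_⟩
    show _ = ι _ / ι _
    rw [map_mul, map_mul, e₁, e₂]
    field_simp
  refine ⟨(FractionRing.algEquiv (Polynomial D) (RatFunc F)).toRingEquiv.symm, fun c => ?_⟩
  have h1 : algebraMap F (RatFunc F) (algebraMap D F c) =
      algebraMap (Polynomial D) (RatFunc F) (Polynomial.C c) := by
    show _ = algebraMap (Polynomial F) (RatFunc F) ((Polynomial.C c).map (algebraMap D F))
    rw [Polynomial.map_C]
    rfl
  rw [h1]
  exact (FractionRing.algEquiv (Polynomial D) (RatFunc F)).symm.commutes _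

/-- the function field of an affine scheme -/
theorem ffR (R : CommRingCat.{0}) [IsDomain R] :
    ∃ A : FractionRing R ≃+* (Spec R).functionField, ∀ c : R,
      A (algebraMap R (FractionRing R) c) =
        (StructureSheaf.toStalk R (genericPoint (Spec R))).hom c :=
  ⟨(FractionRing.algEquiv R (Spec R).functionField).toRingEquiv, fun c =>
    (FractionRing.algEquiv R (Spec R).functionField).commutes c⟩

/-- the function field of `Spec D[t]` -/
theorem ff_poly (D F : Type) [CommRing D] [IsDomain D] [Field F] [Algebra D F]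
    [IsFractionRing D F] [IsIntegral (Sp (Polynomial D))] :
    ∃ E : RatFunc F ≃+* (Sp (Polynomial D)).functionField,
      (Sp (Polynomial D)).fromSpecStalk (genericPoint (Sp (Polynomial D))) ≫
        Sm (Polynomial.C : D →+* Polynomial D) =
      Sm (E : RatFunc F →+* (Sp (Polynomial D)).functionField) ≫
        Sm (algebraMap F (RatFunc F)) ≫ Sm (algebraMap D F) := by
  obtain ⟨E, hE⟩ := frac_poly D F
  have hd : IsDomain (CommRingCat.of (Polynomial D)) := inferInstanceAs (IsDomain (Polynomial D))
  obtain ⟨A, hA⟩ := ffR (CommRingCat.of (Polynomial D))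
  refine ⟨E.trans A, ?_⟩
  rw [Spec.fromSpecStalk_eq', ← Spec.map_comp, ← Spec.map_comp]
  refine (Spec.map_comp _ _).symm.trans ?_
  congr 1
  ext c
  have h1 := hA (Polynomial.C c)
  have h2 := congrArg A (hE c)
  exact (h2.trans h1).symm

end PIIIB

theorem thm_PIIIB (hRL : St_RL) (hKL : St_KL) (hKA : St_KA) (hC2 : St_C2) (hC1B : St_C1B)
    (hN9B : St_N9B) (hV2B : St_V2B) : St_PIIIB := by
  intro 𝒮 h𝒮 d hL
  have hdom := hN9B 𝒮 h𝒮 d hL
  refine ⟨?_, ?_⟩
  · intro X Y B _ _ _ f g _ _ hB hXr hYr hXk φ N hφ hc n hn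
    have hs : Y.IsSeparated := PIIIB.sep g
    have hk : KrLe (d + 2) Y.functionField := hKA _ _ φ (PIII.alg_of φ N hφ) (d + 2) hXk
    exact hdom X Y B f g hB hXr hXk (PIIIB.finType g hB) hYr φ N hφ hc n
      (hC1B 𝒮 h𝒮 d hL Y B g hB hYr hk n) hn
  · intro X T B _ _ _ f h _ hB hXr hXk hT φ N hφ hc n hn
    have hkR : KrLe (d + 2) (RatFunc T.functionField) :=
      hKA _ _ φ (PIII.alg_of φ N hφ) (d + 2) hXk
    have hkT : KrLe (d + 1) T.functionField :=
      hKL T.functionField (RatFunc T.functionField) ⟨RingEquiv.refl _⟩ (d + 1) hkR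
    obtain ⟨D, _, _, j, eD, hD, hDr, hj, hje, -, hD2⟩ := hV2B 𝒮 h𝒮 d hL T hT hkT
    obtain ⟨hDn, hgood⟩ := hD2 n hn
    obtain ⟨r⟩ := PIII.ratFunc eD
    have hkD : KrLe (d + 1) (FractionRing D) :=
      hKL (FractionRing D) (RatFunc T.functionField) ⟨r.symm⟩ (d + 1) hkR
    have hdP : IsDomain (CommRingCat.of (Polynomial D)) := inferInstanceAs (IsDomain (Polynomial D))
    have hint : IsIntegral (Sp (Polynomial D)) := inferInstance
    let aD : Algebra D T.functionField :=
      ((eD : FractionRing D →+* T.functionField).comp (algebraMap D (FractionRing D))).toAlgebra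
    have hfr : IsFractionRing D T.functionField :=
      IsLocalization.isLocalization_of_algEquiv (nonZeroDivisors D)
        (AlgEquiv.ofRingEquiv (f := eD) (fun _ => rfl) : FractionRing D ≃ₐ[D] T.functionField)
    obtain ⟨E, hE⟩ := PIIIB.ff_poly D T.functionField
    have hDP : Algebra.FiniteType ℤ (Polynomial D) :=
      V2.ftZ (Polynomial D) _ (Algebra.FiniteType.trans (S := D) hD inferInstance)
    have hC := hC2 𝒮 h𝒮 d hL D (FractionRing D) hkD n (hgood (FractionRing D) ⟨eD⟩)
    refine hdom X (Sp (Polynomial D)) B f (Sm (Polynomial.C : D →+* Polynomial D) ≫ j ≫ h) hB hXr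
      hXk (PIII.finType_Sp _ hDP) (PIII.regular_Sp _)
      ((E : RatFunc T.functionField →+* (Sp (Polynomial D)).functionField).comp φ) N
      (PIII.finDeg_comp φ E N hφ) ?_ n
      (fun X₁ _ f₁ θ _ hX₁ x₁ h1 h2 => hC X₁ θ hX₁ x₁ h1 h2) (PIII.poly hRL h𝒮 n D hDn)
    have e1 : etaX ((E : RatFunc T.functionField →+* (Sp (Polynomial D)).functionField).comp φ) =
        Sm (E : RatFunc T.functionField →+* (Sp (Polynomial D)).functionField) ≫ etaX φ := by
      unfold etaX
      rw [← Category.assoc, ← Spec.map_comp]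
      rfl
    have e2 : etaT T = Sm (algebraMap T.functionField (RatFunc T.functionField)) ≫
        T.fromSpecStalk (genericPoint T) := rfl
    rw [e1, Category.assoc, hc, e2, ← hje]
    simp only [← Category.assoc]
    congr 2
    rw [hE, Category.assoc]

end Pool.Agent.BTF
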