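import Pool.Agent.BTF.St2
import Pool.Agent.BTF.PI

/-!
# BTF, PIIA: ruled regular proper schemes in each degree, assembly
-/

set_option autoImplicit false

noncomputable section

namespace Pool.Agent.BTF

open CategoryTheory CategoryTheory.Limits AlgebraicGeometry Pool.Agent.KPR Pool.Agent.KTX
open Pool.Agent.KGT.W (SerreClass FinType)

namespace PIIA

/-- the last part of `PI.good_side`: a centre on a regular scheme -/
theorem good_centre (hKL : St_KL) (hAB : St_AB) (hK4 : St_K4) (hG3 : St_G3)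
    (𝒮 : (G : Type 1) → [AddCommGroup G] → Prop) (h𝒮 : SerreClass 𝒮) (d : ℕ) (hlow : Low 𝒮 d)
    (X Y : Scheme.{0}) [IsIntegral X] [IsIntegral Y] (θ : Y.functionField ≅ X.functionField)
    (hX : FinType ℤ X) (hrY : KGT.W.Regular Y) (x : X)
    (h1 : IsDiscreteValuationRing (X.presheaf.stalk x)) (h2 : KrLe (d + 1) (X.residueField x))
    (y : Y) (l : Y.presheaf.stalk y ⟶ X.presheaf.stalk x) (hl : IsLocalHom l.hom)
    (hlc : l ≫ toF X x = toF Y y ≫ θ.hom) (hx : ∀ y : Y, ¬ Compat θ x y) :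
    Good 𝒮 (X.residueField x) := by
  have hreg : IsRegularLocalRing (Y.presheaf.stalk y) := hrY y
  rcases hAB (Y.presheaf.stalk y) (X.presheaf.stalk x) l.hom (PI.inj_of_comp θ x y l hlc)
    (PI.sameFrac_of_comp θ x y l hlc) (hG3 X hX x) with hb | ⟨L, hL, ⟨e⟩⟩
  · exact absurd (PI.compat_of_bij θ x y l hlc hb) (hx y)
  · have e' : X.residueField x ≃+* RatFunc L := e
    exact hK4 𝒮 h𝒮 d hlow (X.residueField x) L ⟨e'⟩
      (hKL L (X.residueField x) ⟨e'⟩ d h2)

/-- the case distinction of `V1A` for a point of `X` -/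
theorem ruled_or (hV1A : St_V1A) (hG3 : St_G3) (D : Type) [CommRing D] [IsDomain D]
    (X : Scheme.{0}) [IsIntegral X] (hX : FinType ℤ X)
    (θ0 : RatFunc (FractionRing D) ≃+* X.functionField) (x : X)
    (h1 : IsDiscreteValuationRing (X.presheaf.stalk x)) :
    (∃ (L : Type) (_ : Field L), Nonempty (X.residueField x ≃+* RatFunc L)) ∨
    ∀ c : D, ∃ v : X.presheaf.stalk x, (toF X x).hom v = θ0 (toT D (Polynomial.C c)) := by
  let alg : Algebra (X.presheaf.stalk x) (RatFunc (FractionRing D)) :=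
    ((θ0.symm : X.functionField →+* RatFunc (FractionRing D)).comp (toF X x).hom).toAlgebra
  have hfr : IsFractionRing (X.presheaf.stalk x) (RatFunc (FractionRing D)) := by
    have h3 : IsFractionRing (X.presheaf.stalk x) X.functionField := inferInstance
    exact IsLocalization.isLocalization_of_algEquiv (nonZeroDivisors (X.presheaf.stalk x))
      (AlgEquiv.ofRingEquiv (f := θ0.symm) (fun _ => rfl))
  rcases hV1A (FractionRing D) (X.presheaf.stalk x) (hG3 X hX x) with ⟨L, hL, ⟨e⟩⟩ | h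
  · exact Or.inl ⟨L, hL, ⟨e⟩⟩
  · refine Or.inr fun c => ?_
    obtain ⟨v, hv⟩ := h (algebraMap D (FractionRing D) c)
    refine ⟨v, ?_⟩
    have h4 : toT D (Polynomial.C c) =
        algebraMap (FractionRing D) (RatFunc (FractionRing D)) (algebraMap D (FractionRing D) c) := by
      unfold toT
      rw [Polynomial.coe_eval₂RingHom, Polynomial.eval₂_C]
      rfl
    rw [h4, ← hv]
    exact (θ0.apply_symm_apply _).symm

theorem overZ {X Y : Scheme.{0}} [IsIntegral X] [IsIntegral Y]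
    (θ : Y.functionField ≅ X.functionField) (f : X ⟶ Spec (CommRingCat.of ℤ))
    (g : Y ⟶ Spec (CommRingCat.of ℤ)) : OverB θ f g :=
  specZIsTerminal.hom_ext _ _

end PIIA

/-- **PIIA** (II) in each degree -/
theorem thm_PIIA (hKL : St_KL) (hAB : St_AB) (hK2 : St_K2) (hK3 : St_K3) (hK4 : St_K4)
    (hG1 : St_G1) (hG2 : St_G2) (hG3 : St_G3) (hG4 : St_G4) (hPL : St_PL) (hLP : St_LP)
    (hV1A : St_V1A) (hV2A : St_V2A) (hRP : St_RP) (hCE : St_CE) : St_PIIA := by
  intro 𝒮 h𝒮 d hlow X T _ _ hpr hrX hkr hT hiso n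
  obtain ⟨e⟩ := hiso
  have hkT : KrLe (d + 1) T.functionField :=
    hKL T.functionField X.functionField ⟨e⟩ (d + 1) hkr
  obtain ⟨D, _, _, hDf, hDr, ⟨e1⟩, hDn⟩ := hV2A 𝒮 h𝒮 d hlow T hT hkT
  have hDN : IsNoetherianRing D := Algebra.FiniteType.isNoetherianRing ℤ D
  obtain ⟨P, p, a, b, s, hL⟩ := hPL D
  have hPi : IsIntegral P := hL.int
  have hps : IsSeparated p := hL.sep
  have hpl : LocallyOfFiniteType p := hL.lft
  have hpq : QuasiCompact p := hL.qc
  obtain ⟨f, hf⟩ := hpr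
  obtain ⟨q, hq1, hq2, hq3⟩ : ∃ q : Sp D ⟶ Spec (CommRingCat.of ℤ), LocallyOfFiniteType q ∧
      QuasiCompact q ∧ IsSeparated q := by
    refine ⟨Spec.map (CommRingCat.ofHom (algebraMap ℤ D)), ?_, inferInstance, inferInstance⟩
    rw [HasRingHomProperty.Spec_iff (P := @LocallyOfFiniteType)]
    exact RingHom.finiteType_algebraMap.2 hDf
  obtain ⟨g, hg⟩ : ∃ g : P ⟶ Spec (CommRingCat.of ℤ), g = p ≫ q := ⟨_, rfl⟩
  have hg1 : LocallyOfFiniteType g := by rw [hg]; infer_instance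
  have hg2 : QuasiCompact g := by rw [hg]; infer_instance
  have hg3 : IsSeparated g := by rw [hg]; infer_instance
  have hX : FinType ℤ X := ⟨f, inferInstance, inferInstance⟩
  have hP : FinType ℤ P := ⟨g, hg1, hg2⟩
  have hrP : KGT.W.Regular P := hRP D P p a b s hL hDr
  -- the function fields
  let θ0 : RatFunc (FractionRing D) ≃+* X.functionField :=
    (IsFractionRing.ringEquivOfRingEquiv (K := RatFunc (FractionRing D))
      (L := RatFunc T.functionField) (Polynomial.mapEquiv e1)).trans e.symm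
  obtain ⟨θ, hθ⟩ := hCE D P p a b s hL X θ0
  have hkP : KrLe (d + 2) P.functionField :=
    PI.krLe_of_equiv θ.symm.commRingCatIsoToRingEquiv (d + 2) hkr
  obtain ⟨U, i, j, hi, hj, h1, h2⟩ := hG1 X P (Spec (CommRingCat.of ℤ)) f g θ (PIIA.overZ θ f g)
  have hgX : ∀ x : X, x ∉ Set.range i → Good 𝒮 (X.residueField x) := by
    intro x hx
    rcases hG4 X hrX d hkr x with h3 | h3 | ⟨h3, h4⟩
    · exact hK2 𝒮 h𝒮 d hlow _ h3
    · exact absurd (PI.compat_generic θ) (h3 ▸ h1 x hx (genericPoint P))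
    · rcases PIIA.ruled_or hV1A hG3 D X hX θ0 x h3 with ⟨L, hL', ⟨e'⟩⟩ | h5
      · exact hK4 𝒮 h𝒮 d hlow (X.residueField x) L ⟨e'⟩
          (hKL L (X.residueField x) ⟨e'⟩ d h4)
      · obtain ⟨y, l, hl, hlc⟩ := hθ x inferInstance h5
        exact PIIA.good_centre hKL hAB hK4 hG3 𝒮 h𝒮 d hlow X P θ hX hrP x h3 h4 y l hl hlc
          (h1 x hx)
  have hgP : ∀ y : P, y ∉ Set.range j → Good 𝒮 (P.residueField y) := fun y hy =>
    PI.good_side hKL hAB hK2 hK4 hG2 hG3 hG4 𝒮 h𝒮 d hlow P X (Spec (CommRingCat.of ℤ)) g f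
      θ.symm (PI.overB_symm θ f g (PIIA.overZ θ f g)) hP hrP hrX hkP y
      (fun x hx => h2 y hy x (PI.compat_symm θ x y hx))
  exact (hK3 𝒮 h𝒮 X U i hX hgX n).trans ((hK3 𝒮 h𝒮 P U j hP hgP n).symm.trans
    ((hLP 𝒮 h𝒮 D P p a b s hL n).trans (hDn n).symm))

end Pool.Agent.BTF
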