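import Pool.Agent.BTF.St5
import Pool.Agent.BTF.PIIA

/-!
# BTF, PIIM: ruled regular proper schemes, isomorphisms modulo a Serre class
-/

set_option autoImplicit false

noncomputable section

namespace Pool.Agent.BTF

open CategoryTheory CategoryTheory.Limits AlgebraicGeometry Pool.Agent.KPR Pool.Agent.KTX
open Pool.Agent.KGT.W (SerreClass FinType)

namespace PIIM

/-- kernel and cokernel are in the class -/
def QI (𝒮 : (G : Type 1) → [AddCommGroup G] → Prop) {G E : Type 1} [AddCommGroup G]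
    [AddCommGroup E] (f : G →+ E) : Prop := 𝒮 f.ker ∧ 𝒮 (E ⧸ f.range)

variable {𝒮 : (G : Type 1) → [AddCommGroup G] → Prop}

theorem of_inj (h𝒮 : SerreClass 𝒮) {G G' : Type 1} [AddCommGroup G] [AddCommGroup G']
    (f : G →+ G') (h : ∀ x, f x = 0 → x = 0) (h1 : 𝒮 G') : 𝒮 G := by
  refine h𝒮.exact PUnit G G' 0 f (fun x => ⟨fun hx => ⟨0, (h x hx).symm⟩, ?_⟩)
    (h𝒮.zero PUnit) h1
  rintro ⟨y, hy⟩
  rw [← hy]
  exact map_zero f

theorem of_prod (h𝒮 : SerreClass 𝒮) {G G' : Type 1} [AddCommGroup G] [AddCommGroup G']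
    (h1 : 𝒮 G) (h2 : 𝒮 G') : 𝒮 (G × G') := by
  refine h𝒮.exact G (G × G') G' (AddMonoidHom.inl G G') (AddMonoidHom.snd G G') (fun x => ?_)
    h1 h2
  constructor
  · intro hx
    exact ⟨x.1, Prod.ext rfl hx.symm⟩
  · rintro ⟨y, rfl⟩
    rfl

theorem QI.comp (h𝒮 : SerreClass 𝒮) {G H E : Type 1} [AddCommGroup G] [AddCommGroup H]
    [AddCommGroup E] {f : G →+ H} {g : H →+ E} (hf : QI 𝒮 f) (hg : QI 𝒮 g) :
    QI 𝒮 (g.comp f) := by
  constructor
  · let k1 : f.ker →+ (g.comp f).ker :=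
      { toFun := fun x => ⟨x.1, by
          have hx : f x.1 = 0 := x.2
          show g (f x.1) = 0
          rw [hx, map_zero]⟩
        map_zero' := rfl
        map_add' := fun _ _ => rfl }
    let k2 : (g.comp f).ker →+ g.ker :=
      { toFun := fun x => ⟨f x.1, x.2⟩
        map_zero' := Subtype.ext (map_zero f)
        map_add' := fun a b => Subtype.ext (map_add f a.1 b.1) }
    refine h𝒮.exact _ _ _ k1 k2 (fun x => ?_) hf.1 hg.1
    constructor
    · intro hx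
      have h1 : f x.1 = 0 := congrArg Subtype.val hx
      exact ⟨⟨x.1, h1⟩, rfl⟩
    · rintro ⟨y, rfl⟩
      have h1 : f y.1 = 0 := y.2
      exact Subtype.ext h1
  · let c1 : (H ⧸ f.range) →+ (E ⧸ (g.comp f).range) :=
      QuotientAddGroup.lift f.range ((QuotientAddGroup.mk' (g.comp f).range).comp g) (by
        rintro x ⟨y, rfl⟩
        show (QuotientAddGroup.mk' (g.comp f).range) (g (f y)) = 0
        rw [QuotientAddGroup.mk'_apply, QuotientAddGroup.eq_zero_iff]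
        exact ⟨y, rfl⟩)
    let c2 : (E ⧸ (g.comp f).range) →+ (E ⧸ g.range) :=
      QuotientAddGroup.lift (g.comp f).range (QuotientAddGroup.mk' g.range) (by
        rintro x ⟨y, rfl⟩
        show (QuotientAddGroup.mk' g.range) (g (f y)) = 0
        rw [QuotientAddGroup.mk'_apply, QuotientAddGroup.eq_zero_iff]
        exact ⟨f y, rfl⟩)
    refine h𝒮.exact _ _ _ c1 c2 (fun x => ?_) hf.2 hg.2
    obtain ⟨e, rfl⟩ := QuotientAddGroup.mk'_surjective _ x
    constructor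
    · intro hx
      have h1 : (QuotientAddGroup.mk' g.range) e = 0 := hx
      rw [QuotientAddGroup.mk'_apply, QuotientAddGroup.eq_zero_iff] at h1
      obtain ⟨h, hh⟩ := h1
      exact ⟨QuotientAddGroup.mk' f.range h, congrArg (QuotientAddGroup.mk' (g.comp f).range) hh⟩
    · rintro ⟨y, hy⟩
      obtain ⟨h, rfl⟩ := QuotientAddGroup.mk'_surjective _ y
      rw [← hy]
      show (QuotientAddGroup.mk' g.range) (g h) = 0
      rw [QuotientAddGroup.mk'_apply, QuotientAddGroup.eq_zero_iff]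
      exact ⟨h, rfl⟩

theorem QI.prod (h𝒮 : SerreClass 𝒮) {G H E F : Type 1} [AddCommGroup G] [AddCommGroup H]
    [AddCommGroup E] [AddCommGroup F] {f : G →+ E} {g : H →+ F} (hf : QI 𝒮 f) (hg : QI 𝒮 g) :
    QI 𝒮 (f.prodMap g) := by
  constructor
  · let k : (f.prodMap g).ker →+ f.ker × g.ker :=
      { toFun := fun x => (⟨x.1.1, congrArg Prod.fst x.2⟩, ⟨x.1.2, congrArg Prod.snd x.2⟩)
        map_zero' := rfl
        map_add' := fun _ _ => rfl }
    refine of_inj h𝒮 k (fun x hx => ?_) (of_prod h𝒮 hf.1 hg.1)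
    have h1 : x.1.1 = 0 := congrArg Subtype.val (congrArg Prod.fst hx)
    have h2 : x.1.2 = 0 := congrArg Subtype.val (congrArg Prod.snd hx)
    exact Subtype.ext (Prod.ext h1 h2)
  · let c : ((E × F) ⧸ (f.prodMap g).range) →+ (E ⧸ f.range) × (F ⧸ g.range) :=
      QuotientAddGroup.lift (f.prodMap g).range
        ((QuotientAddGroup.mk' f.range).prodMap (QuotientAddGroup.mk' g.range)) (by
        rintro x ⟨y, rfl⟩
        refine Prod.ext ?_ ?_
        · show (QuotientAddGroup.mk' f.range) (f y.1) = 0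
          rw [QuotientAddGroup.mk'_apply, QuotientAddGroup.eq_zero_iff]
          exact ⟨y.1, rfl⟩
        · show (QuotientAddGroup.mk' g.range) (g y.2) = 0
          rw [QuotientAddGroup.mk'_apply, QuotientAddGroup.eq_zero_iff]
          exact ⟨y.2, rfl⟩)
    refine of_inj h𝒮 c (fun x hx => ?_) (of_prod h𝒮 hf.2 hg.2)
    obtain ⟨e, rfl⟩ := QuotientAddGroup.mk'_surjective _ x
    have h1 : (QuotientAddGroup.mk' f.range) e.1 = 0 := congrArg Prod.fst hx
    have h2 : (QuotientAddGroup.mk' g.range) e.2 = 0 := congrArg Prod.snd hx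
    rw [QuotientAddGroup.mk'_apply, QuotientAddGroup.eq_zero_iff] at h1 h2 ⊢
    obtain ⟨a, ha⟩ := h1
    obtain ⟨b, hb⟩ := h2
    exact ⟨(a, b), Prod.ext ha hb⟩

theorem QI.equiv (h𝒮 : SerreClass 𝒮) {G E : Type 1} [AddCommGroup G] [AddCommGroup E]
    (e : G ≃+ E) : QI 𝒮 (e : G →+ E) := by
  constructor
  · have : Subsingleton (e : G →+ E).ker := by
      refine ⟨fun a b => Subtype.ext ?_⟩
      have ha : e a.1 = 0 := a.2
      have hb : e b.1 = 0 := b.2
      exact e.injective (ha.trans hb.symm)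
    exact h𝒮.zero _
  · have : Subsingleton (E ⧸ (e : G →+ E).range) := by
      refine ⟨fun a b => ?_⟩
      have h0 : ∀ a : E ⧸ (e : G →+ E).range, a = 0 := by
        intro a
        obtain ⟨x, rfl⟩ := QuotientAddGroup.mk'_surjective _ a
        rw [QuotientAddGroup.mk'_apply, QuotientAddGroup.eq_zero_iff]
        exact ⟨e.symm x, e.apply_symm_apply x⟩
      rw [h0 a, h0 b]
    exact h𝒮.zero _

end PIIM

/-- **PIIM** (II) for isomorphisms modulo a Serre class -/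
theorem thm_PIIM (hKL : St_KL) (hAB : St_AB) (hK2 : St_K2) (hK3M : St_K3M) (hK4 : St_K4)
    (hG1 : St_G1) (hG2 : St_G2) (hG3 : St_G3) (hG4 : St_G4) (hPL : St_PL) (hLPM : St_LPM)
    (hV1A : St_V1A) (hV2M : St_V2M) (hRP : St_RP) (hCE : St_CE) : St_PIIM := by
  intro 𝒮 h𝒮 d hlow X T _ _ hpr hrX hkr hT hiso n
  obtain ⟨e⟩ := hiso
  have hkT : KrLe (d + 1) T.functionField :=
    hKL T.functionField X.functionField ⟨e⟩ (d + 1) hkr
  obtain ⟨D, _, _, hDf, hDr, ⟨e1⟩, hDn⟩ := hV2M 𝒮 h𝒮 d hlow T hT hkT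
  have hDN : IsNoetherianRing D := Algebra.FiniteType.isNoetherianRing ℤ D
  obtain ⟨P, p, a, b, s, hL⟩ := hPL D
  have hPi : IsIntegral P := hL.int
  have hps : IsSeparated p := hL.sep
  have hpl : LocallyOfFiniteType p := hL.lft
  have hpq : QuasiCompact p := hL.qc
  obtain ⟨f, hf⟩ := hpr
  obtain ⟨q, hq1, hq2, hq3⟩ : ∃ q : Sp D ⟶ Spec (CommRingCat.of ℤ), LocallyOfFiniteType q ∧
      QuasiCompact q ∧ IsSeparated q := by
    refine ⟨Spec.map (CommRingCat.ofHom (algebraMap ℤ D)), ?_, inferInstance, inferInstance⟩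
    rw [HasRingHomProperty.Spec_iff (P := @LocallyOfFiniteType)]
    exact RingHom.finiteType_algebraMap.2 hDf
  obtain ⟨g, hg⟩ : ∃ g : P ⟶ Spec (CommRingCat.of ℤ), g = p ≫ q := ⟨_, rfl⟩
  have hg1 : LocallyOfFiniteType g := by rw [hg]; infer_instance
  have hg2 : QuasiCompact g := by rw [hg]; infer_instance
  have hg3 : IsSeparated g := by rw [hg]; infer_instance
  have hX : FinType ℤ X := ⟨f, inferInstance, inferInstance⟩
  have hP : FinType ℤ P := ⟨g, hg1, hg2⟩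
  have hrP : KGT.W.Regular P := hRP D P p a b s hL hDr
  -- the function fields
  let θ0 : RatFunc (FractionRing D) ≃+* X.functionField :=
    (IsFractionRing.ringEquivOfRingEquiv (K := RatFunc (FractionRing D))
      (L := RatFunc T.functionField) (Polynomial.mapEquiv e1)).trans e.symm
  obtain ⟨θ, hθ⟩ := hCE D P p a b s hL X θ0
  have hkP : KrLe (d + 2) P.functionField :=
    PI.krLe_of_equiv θ.symm.commRingCatIsoToRingEquiv (d + 2) hkr
  obtain ⟨U, i, j, hi, hj, h1, h2⟩ := hG1 X P (Spec (CommRingCat.of ℤ)) f g θ (PIIA.overZ θ f g)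
  have hgX : ∀ x : X, x ∉ Set.range i → Good 𝒮 (X.residueField x) := by
    intro x hx
    rcases hG4 X hrX d hkr x with h3 | h3 | ⟨h3, h4⟩
    · exact hK2 𝒮 h𝒮 d hlow _ h3
    · exact absurd (PI.compat_generic θ) (h3 ▸ h1 x hx (genericPoint P))
    · rcases PIIA.ruled_or hV1A hG3 D X hX θ0 x h3 with ⟨L, hL', ⟨e'⟩⟩ | h5
      · exact hK4 𝒮 h𝒮 d hlow (X.residueField x) L ⟨e'⟩
          (hKL L (X.residueField x) ⟨e'⟩ d h4)
      · obtain ⟨y, l, hl, hlc⟩ := hθ x inferInstance h5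
        exact PIIA.good_centre hKL hAB hK4 hG3 𝒮 h𝒮 d hlow X P θ hX hrP x h3 h4 y l hl hlc
          (h1 x hx)
  have hgP : ∀ y : P, y ∉ Set.range j → Good 𝒮 (P.residueField y) := fun y hy =>
    PI.good_side hKL hAB hK2 hK4 hG2 hG3 hG4 𝒮 h𝒮 d hlow P X (Spec (CommRingCat.of ℤ)) g f
      θ.symm (PI.overB_symm θ f g (PIIA.overZ θ f g)) hP hrP hrX hkP y
      (fun x hx => h2 y hy x (PI.compat_symm θ x y hx))
  obtain ⟨u, hu⟩ := hK3M 𝒮 h𝒮 X U i hX hgX n
  obtain ⟨v, hv⟩ := hK3M 𝒮 h𝒮 P U j hP hgP n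
  obtain ⟨w, hw⟩ := hDn n
  obtain ⟨l⟩ := hLPM D P p a b s hL n
  have hw' : PIIM.QI 𝒮 w := hw
  have hv' : PIIM.QI 𝒮 v := hv
  have key := ((hw'.prod h𝒮 hw').comp h𝒮 (PIIM.QI.equiv h𝒮 l.symm)).comp h𝒮 hv'
  exact ⟨KX n U, inferInstance, u, _, hu.1, hu.2, key.1, key.2⟩

end Pool.Agent.BTF
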