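import Pool.Agent.BTF.St8
import Pool.Agent.BTF.PIIM
import Pool.Agent.BTF.N9B
import Pool.Agent.BTF.PIIIB
import Pool.Agent.BTF.CE

/-!
# BTF, PIIB: ruled regular schemes, proper over `B`, isomorphisms modulo a Serre class
-/

set_option autoImplicit false

noncomputable section

namespace Pool.Agent.BTF

open CategoryTheory CategoryTheory.Limits AlgebraicGeometry Pool.Agent.KPR Pool.Agent.KTX
open Pool.Agent.KGT.W (SerreClass FinType)

namespace PIIB

/-- the isomorphism of the rational function fields -/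
theorem ring {D F K : Type} [CommRing D] [IsDomain D] [Field F] [Field K]
    (e1 : FractionRing D ≃+* F) (e : K ≃+* RatFunc F) (c : D) :
    ((IsFractionRing.ringEquivOfRingEquiv (K := RatFunc (FractionRing D))
      (L := RatFunc F) (Polynomial.mapEquiv e1)).trans e.symm) (toT D (Polynomial.C c)) =
      e.symm (algebraMap F (RatFunc F) (e1 (algebraMap D (FractionRing D) c))) := by
  rw [RingEquiv.trans_apply]
  congr 1
  have h0 : toT D (Polynomial.C c) =
      algebraMap (Polynomial (FractionRing D)) (RatFunc (FractionRing D))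
        (Polynomial.C (algebraMap D (FractionRing D) c)) := by
    rw [CE.toT_apply, Polynomial.map_C]
  rw [h0, IsFractionRing.ringEquivOfRingEquiv_algebraMap]
  show algebraMap (Polynomial F) (RatFunc F)
    (Polynomial.map (e1 : FractionRing D →+* F)
      (Polynomial.C (algebraMap D (FractionRing D) c))) = _
  rw [Polynomial.map_C]
  rfl

end PIIB

/-- **PIIB** (II) over `B` -/
theorem thm_PIIB (hKL : St_KL) (hAB : St_AB) (hK2 : St_K2) (hK3M : St_K3M) (hK4 : St_K4)
    (hG1 : St_G1) (hG2 : St_G2) (hG3 : St_G3) (hG4 : St_G4) (hPL : St_PL) (hLPM : St_LPM)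
    (hV1A : St_V1A) (hV2B : St_V2B) (hRP : St_RP) (hCEB : St_CEB) : St_PIIB := by
  intro 𝒮 h𝒮 d hlow X T B _ _ _ f h _ hB hrX hkr hT e he n
  have hkT : KrLe (d + 1) T.functionField :=
    hKL T.functionField X.functionField ⟨e⟩ (d + 1) hkr
  obtain ⟨D, _, _, j0, e1, hDf, hDr, hj0, hje, hDn, -⟩ := hV2B 𝒮 h𝒮 d hlow T hT hkT
  have hDN : IsNoetherianRing D := Algebra.FiniteType.isNoetherianRing ℤ D
  obtain ⟨P, p, a, b, s, hL⟩ := hPL D
  have hPi : IsIntegral P := hL.int
  have hps : IsSeparated p := hL.sep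
  have hpl : LocallyOfFiniteType p := hL.lft
  have hpq : QuasiCompact p := hL.qc
  have hX : FinType ℤ X := PIIIB.finType f hB
  have hP : FinType ℤ P := by
    obtain ⟨q, hq1, hq2⟩ := PIII.finType_Sp D hDf
    exact ⟨p ≫ q, inferInstance, inferInstance⟩
  have hPs : P.IsSeparated := by
    constructor
    rw [← terminal.comp_from p]
    infer_instance
  obtain ⟨g, hg⟩ : ∃ g : P ⟶ B, g = p ≫ j0 ≫ h := ⟨_, rfl⟩
  have hg1 : IsSeparated g := N9B.sep g
  have hg2 : LocallyOfFiniteType g := by
    obtain ⟨b0, hb1, hb2⟩ := hB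
    have h1 : LocallyOfFiniteType (g ≫ b0) := by
      obtain ⟨q, hq1, hq2⟩ := hP
      rw [specZIsTerminal.hom_ext (g ≫ b0) q]
      exact hq1
    exact locallyOfFiniteType_of_comp g b0
  have hrP : KGT.W.Regular P := hRP D P p a b s hL hDr
  -- the function fields
  let θ0 : RatFunc (FractionRing D) ≃+* X.functionField :=
    (IsFractionRing.ringEquivOfRingEquiv (K := RatFunc (FractionRing D))
      (L := RatFunc T.functionField) (Polynomial.mapEquiv e1)).trans e.symm
  obtain ⟨θ, hθ', hθ⟩ := hCEB D P p a b s hL X θ0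
  have hov : OverB θ f g := by
    unfold OverB
    rw [hg, ← Category.assoc, hθ', Category.assoc, ← Category.assoc a, hL.ap]
    have k1 : Sm ((θ0 : RatFunc (FractionRing D) →+* X.functionField).comp (toT D)) ≫
        Sm (Polynomial.C : D →+* Polynomial D) =
        Sm (e.symm : RatFunc T.functionField →+* X.functionField) ≫
          Sm (algebraMap T.functionField (RatFunc T.functionField)) ≫
          Sm ((e1 : FractionRing D →+* T.functionField).comp
            (algebraMap D (FractionRing D))) := by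
      rw [← Spec.map_comp, ← Spec.map_comp, ← Spec.map_comp]
      congr 1
      ext c
      exact PIIB.ring e1 e c
    have k2 : etaT T = Sm (algebraMap T.functionField (RatFunc T.functionField)) ≫
        T.fromSpecStalk (genericPoint T) := rfl
    have k3 : Sm (e.symm : RatFunc T.functionField →+* X.functionField) ≫
        etaX (e : X.functionField →+* RatFunc T.functionField) =
        X.fromSpecStalk (genericPoint X) := by
      unfold etaX
      rw [← Category.assoc, ← Spec.map_comp]
      have k4 : CommRingCat.ofHom (e : X.functionField →+* RatFunc T.functionField) ≫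
          CommRingCat.ofHom (e.symm : RatFunc T.functionField →+* X.functionField) = 𝟙 _ := by
        ext z
        exact e.symm_apply_apply z
      rw [k4, Spec.map_id]
      exact Category.id_comp _
    calc Sm ((θ0 : RatFunc (FractionRing D) →+* X.functionField).comp (toT D)) ≫
          (Sm (Polynomial.C : D →+* Polynomial D)) ≫ j0 ≫ h
        = (Sm (e.symm : RatFunc T.functionField →+* X.functionField) ≫
          Sm (algebraMap T.functionField (RatFunc T.functionField)) ≫
          Sm ((e1 : FractionRing D →+* T.functionField).comp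
            (algebraMap D (FractionRing D)))) ≫ j0 ≫ h := by
          rw [← k1, Category.assoc]
      _ = Sm (e.symm : RatFunc T.functionField →+* X.functionField) ≫ etaT T ≫ h := by
          rw [k2, ← hje]
          simp only [Category.assoc]
      _ = Sm (e.symm : RatFunc T.functionField →+* X.functionField) ≫
            etaX (e : X.functionField →+* RatFunc T.functionField) ≫ f := by rw [he]
      _ = X.fromSpecStalk (genericPoint X) ≫ f := by rw [← Category.assoc, k3]
  have hkP : KrLe (d + 2) P.functionField :=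
    PI.krLe_of_equiv θ.symm.commRingCatIsoToRingEquiv (d + 2) hkr
  obtain ⟨U, i, j, hi, hj, h1, h2⟩ := hG1 X P B f g θ hov
  have hgX : ∀ x : X, x ∉ Set.range i → Good 𝒮 (X.residueField x) := by
    intro x hx
    rcases hG4 X hrX d hkr x with h3 | h3 | ⟨h3, h4⟩
    · exact hK2 𝒮 h𝒮 d hlow _ h3
    · exact absurd (PI.compat_generic θ) (h3 ▸ h1 x hx (genericPoint P))
    · rcases PIIA.ruled_or hV1A hG3 D X hX θ0 x h3 with ⟨L, hL', ⟨e'⟩⟩ | h5
      · exact hK4 𝒮 h𝒮 d hlow (X.residueField x) L ⟨e'⟩
          (hKL L (X.residueField x) ⟨e'⟩ d h4)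
      · obtain ⟨y, l, hl, hlc⟩ := hθ x inferInstance h5
        exact PIIA.good_centre hKL hAB hK4 hG3 𝒮 h𝒮 d hlow X P θ hX hrP x h3 h4 y l hl hlc
          (h1 x hx)
  have hgP : ∀ y : P, y ∉ Set.range j → Good 𝒮 (P.residueField y) := fun y hy =>
    PI.good_side hKL hAB hK2 hK4 hG2 hG3 hG4 𝒮 h𝒮 d hlow P X B g f
      θ.symm (PI.overB_symm θ f g hov) hP hrP hrX hkP y
      (fun x hx => h2 y hy x (PI.compat_symm θ x y hx))
  obtain ⟨u, hu⟩ := hK3M 𝒮 h𝒮 X U i hX hgX n
  obtain ⟨v, hv⟩ := hK3M 𝒮 h𝒮 P U j hP hgP n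
  obtain ⟨w, hw⟩ := hDn n
  obtain ⟨l⟩ := hLPM D P p a b s hL n
  have hw' : PIIM.QI 𝒮 w := hw
  have hv' : PIIM.QI 𝒮 v := hv
  have key := ((hw'.prod h𝒮 hw').comp h𝒮 (PIIM.QI.equiv h𝒮 l.symm)).comp h𝒮 hv'
  exact ⟨KX n U, inferInstance, u, _, hu.1, hu.2, key.1, key.2⟩

end Pool.Agent.BTF
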