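import Pool.Agent.BTF.St8

/-!
# BTF, module T0B (helper8): the coefficient field of a rational function field, over a base

The scheme `T` comes from `T0`; the morphism from the spectrum of its function field to `B` spreads out to
a nonempty open subscheme, which has the same function field.
-/

set_option autoImplicit false

noncomputable section

namespace Pool.Agent.BTF

open CategoryTheory CategoryTheory.Limits AlgebraicGeometry Pool.Agent.KPR Pool.Agent.KTX
open Pool.Agent.KGT.W (SerreClass FinType)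

namespace T0B

theorem noeth_ft {X : Scheme.{0}} (h : FinType ℤ X) : IsNoetherian X := by
  obtain ⟨f, hf, hq⟩ := h
  exact { __ := LocallyOfFiniteType.isLocallyNoetherian f
          toCompactSpace := QuasiCompact.compactSpace_of_compactSpace f }

theorem ft_open {X Y : Scheme.{0}} (g : X ⟶ Y) [IsOpenImmersion g] (h : FinType ℤ Y) :
    FinType ℤ X := by
  have := noeth_ft h
  obtain ⟨f, hf1, hf2⟩ := h
  have : QuasiCompact g := inferInstance
  exact ⟨g ≫ f, inferInstance, inferInstance⟩

/-- spreading out from the generic point -/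
theorem spread (T B : Scheme.{0}) [IsIntegral T] (hT : FinType ℤ T) (hB : FinType ℤ B)
    (φ : Spec T.functionField ⟶ B) :
    ∃ (U : T.Opens) (hU : genericPoint T ∈ U) (f : U.toScheme ⟶ B),
      φ = U.fromSpecStalkOfMem (genericPoint T) hU ≫ f := by
  obtain ⟨sT, _, _⟩ := hT
  obtain ⟨sB, _, _⟩ := hB
  obtain ⟨U, hU, f, h, _⟩ := spread_out_of_isGermInjective' sT sB (x := genericPoint T) φ
    (specZIsTerminal.hom_ext _ _)
  exact ⟨U, hU, f, h⟩

/-- the local ring of the open subscheme -/
theorem pt {T B : Scheme.{0}} (x : T) (U : T.Opens) (hx : x ∈ U) (f : U.toScheme ⟶ B) {M : Type}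
    [Field M] (e : T.presheaf.stalk x ≃+* M) (β : Sp M ⟶ B)
    (h : Spec.map (CommRingCat.ofHom (e.symm : M →+* T.presheaf.stalk x)) ≫ β =
      U.fromSpecStalkOfMem x hx ≫ f)
    (y : U.toScheme) (hy : y = ⟨x, hx⟩) :
    ∃ e' : U.toScheme.presheaf.stalk y ≃+* M, U.toScheme.fromSpecStalk y ≫ f =
      Spec.map (CommRingCat.ofHom (e'.symm : M →+* U.toScheme.presheaf.stalk y)) ≫ β := by
  subst hy
  refine ⟨(asIso (U.ι.stalkMap ⟨x, hx⟩)).commRingCatIsoToRingEquiv.symm.trans e, ?_⟩
  have h1 : CommRingCat.ofHom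
      (((asIso (U.ι.stalkMap ⟨x, hx⟩)).commRingCatIsoToRingEquiv.symm.trans e).symm :
        M →+* U.toScheme.presheaf.stalk ⟨x, hx⟩) =
      CommRingCat.ofHom (e.symm : M →+* T.presheaf.stalk x) ≫ U.ι.stalkMap ⟨x, hx⟩ := by
    ext m
    rfl
  rw [h1, Spec.map_comp, Category.assoc, h, Scheme.Opens.fromSpecStalkOfMem, Category.assoc,
    ← Category.assoc, ← Spec.map_comp, IsIso.inv_hom_id, Spec.map_id]
  exact (Category.id_comp _).symm

end T0B

theorem thm_T0B (hT0 : St_T0) : St_T0B := by
  intro X B _ hX hB M _ β he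
  obtain ⟨T, hTi, hT, ⟨e⟩⟩ := hT0 X hX M he
  obtain ⟨U, hU, f, hf⟩ := T0B.spread T B hT hB
    (Spec.map (CommRingCat.ofHom (e.symm : M →+* T.functionField)) ≫ β)
  have hne : Nonempty U.toScheme := ⟨⟨genericPoint T, hU⟩⟩
  have hi : IsIntegral U.toScheme := isIntegral_of_isOpenImmersion U.ι
  have hy : genericPoint U.toScheme = ⟨genericPoint T, hU⟩ := by
    apply Subtype.ext
    exact genericPoint_eq_of_isOpenImmersion U.ι
  obtain ⟨e', h'⟩ := T0B.pt (genericPoint T) U hU f e β hf (genericPoint U.toScheme) hy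
  exact ⟨U.toScheme, hi, f, e', T0B.ft_open U.ι hT, h'⟩

end Pool.Agent.BTF
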