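import Pool.Agent.BTF.V2
import Pool.Agent.BTF.St2

/-!
# BTF, module V2A (helper77): a regular affine open subscheme, one degree
-/

set_option autoImplicit false

noncomputable section

namespace Pool.Agent.BTF

open CategoryTheory CategoryTheory.Limits AlgebraicGeometry Pool.Agent.KPR Pool.Agent.KTX
open Pool.Agent.KGT.W (SerreClass FinType)

namespace V2

/-- a regular affine open subscheme -/
theorem aff (T : Scheme.{0}) [IsIntegral T] (hf : FinType ℤ T) :
    ∃ (D : Type) (_ : CommRing D) (_ : IsDomain D) (j : Sp D ⟶ T), Algebra.FiniteType ℤ D ∧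
      IsRegularRing D ∧ IsOpenImmersion j := by
  obtain ⟨f, hf1, hf2⟩ := hf
  obtain ⟨W, hW, hgW, -⟩ := exists_isAffineOpen_mem_and_subset (x := genericPoint T) (U := ⊤) trivial
  have : IsAffine W.toScheme := hW
  have : Nonempty W := ⟨⟨_, hgW⟩⟩
  obtain ⟨C, _, iA, hC, ⟨e⟩⟩ := KGT.aff_alg (W.ι ≫ f)
  obtain rfl : iA = Ring.toIntAlgebra C := Subsingleton.elim _ _
  have hne : Nonempty (Sp C) := ⟨e.hom ⟨_, hgW⟩⟩
  have hCd : IsDomain C := by
    have h1 : IsIntegral W.toScheme := inferInstance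
    have h2 : IsIntegral (Sp C) := isIntegral_of_isOpenImmersion e.inv
    exact (affine_isIntegral_iff (CommRingCat.of C)).1 h2
  obtain ⟨s, hs, hreg⟩ := KGT.gen_reg C
  have hle : Submonoid.powers s ≤ nonZeroDivisors C :=
    powers_le_nonZeroDivisors_of_noZeroDivisors hs
  have hDd : IsDomain (Localization.Away s) := IsLocalization.isDomain_localization hle
  have hDf : Algebra.FiniteType C (Localization.Away s) :=
    IsLocalization.finiteType_of_monoid_fg (Submonoid.powers s) _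
  have hDZ := ftZ (Localization.Away s) _ (Algebra.FiniteType.trans (S := C) hC hDf)
  have hj1 : IsOpenImmersion (Sm (algebraMap C (Localization.Away s))) :=
    inferInstanceAs (IsOpenImmersion (Spec.map (CommRingCat.ofHom
      (algebraMap C (Localization.Away s)))))
  exact ⟨Localization.Away s, inferInstance, hDd,
    Sm (algebraMap C (Localization.Away s)) ≫ e.inv ≫ W.ι, hDZ, hreg, inferInstance⟩

/-- affine open subschemes, one degree -/
theorem opn_iff (hDL : St_DL) (hK2 : St_K2) (hK3 : St_K3)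
    {𝒮 : (G : Type 1) → [AddCommGroup G] → Prop} (h𝒮 : SerreClass 𝒮) (d : ℕ) (hL : Low 𝒮 d)
    (T : Scheme.{0}) [IsIntegral T] (hf : FinType ℤ T) (hT : KrLe (d + 1) T.functionField)
    (E : Type) [CommRing E] [IsDomain E] (j : Sp E ⟶ T) [IsOpenImmersion j] (n : ℕ) :
    𝒮 (KX n T) ↔ 𝒮 (KX n (Sp E)) := by
  refine hK3 𝒮 h𝒮 T (Sp E) j hf (fun z hz => ?_) n
  refine hK2 𝒮 h𝒮 d hL _ (pt hDL T d hT z ?_)
  rintro rfl
  exact hz ⟨genericPoint (Sp E), genericPoint_eq_of_isOpenImmersion j⟩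

end V2

theorem thm_V2A (hDL : St_DL) (hK2 : St_K2) (hK3 : St_K3) : St_V2A := by
  intro 𝒮 h𝒮 d hL T _ hf hT
  obtain ⟨D, _, _, j, hDZ, hreg, hj⟩ := V2.aff T hf
  exact ⟨D, inferInstance, inferInstance, hDZ, hreg, V2.ff T D j,
    V2.opn_iff hDL hK2 hK3 h𝒮 d hL T hf hT D j⟩

end Pool.Agent.BTF
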