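import Pool.Agent.BTF.St5
import Pool.Agent.BTF.V2A

/-!
# BTF, module V2M (helper77): a regular affine open subscheme, isomorphisms modulo a Serre class
-/

set_option autoImplicit false

noncomputable section

namespace Pool.Agent.BTF

open CategoryTheory CategoryTheory.Limits AlgebraicGeometry Pool.Agent.KPR Pool.Agent.KTX
open Pool.Agent.KGT.W (SerreClass FinType)

namespace V2

/-- affine open subschemes, isomorphisms modulo a Serre class -/
theorem opn_mod (hDL : St_DL) (hK2 : St_K2) (hK3M : St_K3M)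
    {𝒮 : (G : Type 1) → [AddCommGroup G] → Prop} (h𝒮 : SerreClass 𝒮) (d : ℕ) (hL : Low 𝒮 d)
    (T : Scheme.{0}) [IsIntegral T] (hf : FinType ℤ T) (hT : KrLe (d + 1) T.functionField)
    (E : Type) [CommRing E] [IsDomain E] (j : Sp E ⟶ T) [IsOpenImmersion j] (n : ℕ) :
    ∃ f : KX n T →+ KX n (Sp E), 𝒮 f.ker ∧ 𝒮 (KX n (Sp E) ⧸ f.range) := by
  refine hK3M 𝒮 h𝒮 T (Sp E) j hf (fun z hz => ?_) n
  refine hK2 𝒮 h𝒮 d hL _ (pt hDL T d hT z ?_)
  rintro rfl
  exact hz ⟨genericPoint (Sp E), genericPoint_eq_of_isOpenImmersion j⟩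

end V2

theorem thm_V2M (hDL : St_DL) (hK2 : St_K2) (hK3M : St_K3M) : St_V2M := by
  intro 𝒮 h𝒮 d hL T _ hf hT
  obtain ⟨D, _, _, j, hDZ, hreg, hj⟩ := V2.aff T hf
  exact ⟨D, inferInstance, inferInstance, hDZ, hreg, V2.ff T D j,
    V2.opn_mod hDL hK2 hK3M h𝒮 d hL T hf hT D j⟩

end Pool.Agent.BTF
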