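import Pool.Agent.BTF.St8
import Pool.Agent.BTF.V2M
import Pool.Agent.BTF.PIII
import Pool.Agent.BTF.CE

/-!
# BTF, module V2B (helper6): a regular affine open subscheme, with the open immersion
-/

set_option autoImplicit false

noncomputable section

namespace Pool.Agent.BTF

open CategoryTheory CategoryTheory.Limits AlgebraicGeometry Pool.Agent.KPR Pool.Agent.KTX
open Pool.Agent.KGT.W (SerreClass FinType)

namespace V2B

/-- the field of fractions of an affine open subscheme, with the morphisms -/
theorem ff (T : Scheme.{0}) [IsIntegral T] (D : Type) [CommRing D] [IsDomain D] (j : Sp D ⟶ T)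
    [IsOpenImmersion j] : ∃ e : FractionRing D ≃+* T.functionField,
      Sm ((e : FractionRing D →+* T.functionField).comp (algebraMap D (FractionRing D))) ≫ j =
        T.fromSpecStalk (genericPoint T) := by
  have hd : IsDomain (CommRingCat.of D) := inferInstanceAs (IsDomain D)
  obtain ⟨ψ, hψ⟩ := CE.specIso (CommRingCat.of D) (CommRingCat.of (FractionRing D))
    (Field.toIsField (FractionRing D)) (CommRingCat.ofHom (algebraMap D (FractionRing D)))
    (IsFractionRing.injective D (FractionRing D)) (fun z => by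
      obtain ⟨p, q, hq, hz⟩ := IsFractionRing.div_surjective (A := D) (K := FractionRing D) z
      refine ⟨p, q, nonZeroDivisors.ne_zero hq, ?_⟩
      have hq' : algebraMap D (FractionRing D) q ≠ 0 :=
        IsFractionRing.to_map_ne_zero_of_mem_nonZeroDivisors hq
      show algebraMap D (FractionRing D) q * z = algebraMap D (FractionRing D) p
      rw [← hz]
      field_simp)
  have h1 : j (genericPoint (Sp D)) = genericPoint T := genericPoint_eq_of_isOpenImmersion j
  obtain ⟨φ, hφ⟩ := G0.stalk_iso j _ _ h1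
  let E : T.functionField ≅ CommRingCat.of (FractionRing D) := φ ≪≫ ψ
  have hE : Spec.map E.hom ≫ T.fromSpecStalk (genericPoint T) =
      Spec.map (CommRingCat.ofHom (algebraMap D (FractionRing D))) ≫ j := by
    show Spec.map (φ ≪≫ ψ).hom ≫ T.fromSpecStalk (genericPoint T) = _
    rw [Iso.trans_hom, Spec.map_comp, Category.assoc, hφ, ← Category.assoc, hψ]
  refine ⟨E.symm.commRingCatIsoToRingEquiv, ?_⟩
  have h2 : Sm (((E.symm.commRingCatIsoToRingEquiv : FractionRing D ≃+* T.functionField) :
      FractionRing D →+* T.functionField).comp (algebraMap D (FractionRing D))) =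
      Spec.map E.inv ≫ Spec.map (CommRingCat.ofHom (algebraMap D (FractionRing D))) := by
    rw [← Spec.map_comp]
    rfl
  rw [h2, Category.assoc]
  erw [← hE]
  rw [← Category.assoc, ← Spec.map_comp, E.hom_inv_id, Spec.map_id]
  exact Category.id_comp _

end V2B

theorem thm_V2B (hDL : St_DL) (hK2 : St_K2) (hK3 : St_K3) (hK3M : St_K3M) : St_V2B := by
  intro 𝒮 h𝒮 d hL T _ hf hT
  obtain ⟨D, _, _, j, hDZ, hreg, hj⟩ := V2.aff T hf
  obtain ⟨e, he⟩ := V2B.ff T D j
  refine ⟨D, inferInstance, inferInstance, j, e, hDZ, hreg, hj, he,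
    V2.opn_mod hDL hK2 hK3M h𝒮 d hL T hf hT D j, fun n hK => ?_⟩
  obtain ⟨_, _, _, _, _, _, _, h⟩ := PIII.v2 hDL hK2 hK3 h𝒮 d hL T hf hT n hK
  exact ⟨PIII.opn hDL hK2 hK3 h𝒮 d hL T hf hT n hK D j, h⟩

end Pool.Agent.BTF
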