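import Pool.Agent.BTF.Fin
import Pool.Agent.BTF.G5B
import Pool.Agent.BTF.C1B
import Pool.Agent.BTF.N7B
import Pool.Agent.BTF.N9B
import Pool.Agent.BTF.V2B
import Pool.Agent.BTF.PIIIB
import Pool.Agent.BTF.T0B
import Pool.Agent.BTF.CEB
import Pool.Agent.BTF.PIIB
import Pool.Agent.BTF.GCS
import Pool.Agent.BTF.CO9

/-!
# BTF: the theorem over a base `B` (captain helper21)
-/

set_option autoImplicit false

noncomputable section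

namespace Pool.Agent.BTF

open Pool.Agent.KGT.W (SerreClass)

theorem fin_N7B : St_N7B :=
  thm_N7B thm_VI (thm_TM thm_DL thm_DV) thm_WL thm_G5B (thm_UR thm_IP thm_GY thm_KE)
    (thm_NB (thm_CF thm_FI thm_WL))

theorem fin_N9B : St_N9B :=
  thm_N9B thm_K1N (thm_K2 thm_DL) thm_K3 (thm_G4 thm_DL thm_DV) thm_RL thm_KA (thm_GL thm_MV)
    thm_NR (thm_NN thm_FI) (thm_N2 thm_DL) thm_N3 (thm_N4b thm_DL) fin_N7B thm_ALb

theorem fin_V2B : St_V2B := thm_V2B thm_DL (thm_K2 thm_DL) thm_K3 (thm_K3M thm_K1)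

theorem fin_PIIIB : St_PIIIB :=
  thm_PIIIB thm_RL thm_KL thm_KA
    (thm_C2 thm_DL thm_KL (thm_K4 thm_DL) thm_G3 (thm_V1 thm_AB))
    (thm_C1B thm_AB thm_DL thm_KL (thm_K4 thm_DL) thm_G2 thm_G3) fin_N9B fin_V2B

/-- (II) over `B` -/
theorem ruledB (𝒮 : (G : Type 1) → [AddCommGroup G] → Prop) (h𝒮 : SerreClass 𝒮) (d : ℕ)
    (hlow : Low 𝒮 d) : RuledB 𝒮 d :=
  thm_PIIB thm_KL thm_AB (thm_K2 thm_DL) (thm_K3M thm_K1) (thm_K4 thm_DL) thm_G1 thm_G2 thm_G3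
    (thm_G4 thm_DL thm_DV) thm_PL thm_LPM (thm_V1A thm_AB) fin_V2B thm_RP thm_CEB 𝒮 h𝒮 d hlow

/-- (III) over `B` -/
theorem dominatedB (𝒮 : (G : Type 1) → [AddCommGroup G] → Prop) (h𝒮 : SerreClass 𝒮) (d : ℕ)
    (hlow : Low 𝒮 d) : DominatedB 𝒮 d :=
  fin_PIIIB 𝒮 h𝒮 d hlow

/-- (IV) over `B` -/
theorem unirationalB (𝒮 : (G : Type 1) → [AddCommGroup G] → Prop) (h𝒮 : SerreClass 𝒮) (d : ℕ)
    (hlow : Low 𝒮 d) : UnirationalB 𝒮 d :=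
  thm_CO9 thm_DL thm_KL thm_KA thm_K1 (thm_K2 thm_DL) (thm_K4 thm_DL) (thm_T0B thm_T0)
    thm_NR (thm_NN thm_FI) fin_PIIIB thm_GCS 𝒮 h𝒮 d hlow

/-- finitely generated groups, `d = 1` -/
theorem lowFG : Low (fun G _ => AddGroup.FG G) 1 := thm_K0 thm_DL

end Pool.Agent.BTF
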