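import Pool.Agent.BTF.St4

/-!
# BTF, module IM (helper21): isomorphisms modulo a Serre class
-/

set_option autoImplicit false

noncomputable section

namespace Pool.Agent.BTF

open Pool.Agent.KGT.W (SerreClass FinType)

namespace IM

theorem ker_range {𝒮 : (G : Type 1) → [AddCommGroup G] → Prop} (h𝒮 : SerreClass 𝒮)
    {G E : Type 1} [AddCommGroup G] [AddCommGroup E] (f : G →+ E) (h1 : 𝒮 f.ker)
    (h2 : 𝒮 (E ⧸ f.range)) : 𝒮 G ↔ 𝒮 E := by
  constructor
  · intro hG
    refine h𝒮.exact G E (E ⧸ f.range) f (QuotientAddGroup.mk' f.range) ?_ hG h2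
    intro x
    rw [QuotientAddGroup.mk'_apply, QuotientAddGroup.eq_zero_iff]
    exact AddMonoidHom.mem_range
  · intro hE
    refine h𝒮.exact f.ker G E f.ker.subtype f ?_ h1 hE
    intro x
    constructor
    · intro hx
      exact ⟨⟨x, hx⟩, rfl⟩
    · rintro ⟨y, rfl⟩
      exact y.2

end IM

theorem thm_IM : St_IM := by
  intro 𝒮 h𝒮 G H _ _ h
  obtain ⟨E, hE, f, g, h1, h2, h3, h4⟩ := h
  exact (IM.ker_range h𝒮 f h1 h2).trans (IM.ker_range h𝒮 g h3 h4).symm

end Pool.Agent.BTF
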