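import Pool.Agent.BTF.St2
import Pool.Agent.KGT.WFin

/-!
# BTF, module K1: schemes all of whose residue fields are good

MP_e17fa799_al. The proof is written in one degree `n` (`K1.main`).
-/

set_option autoImplicit false
set_option linter.style.haveILetI false
set_option linter.unusedSectionVars false

noncomputable section

namespace Pool.Agent.BTF

open CategoryTheory CategoryTheory.Limits AlgebraicGeometry Pool.Agent.KPR TopologicalSpace
open Pool.Agent.KGT.W (SerreClass FinType)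
open Pool.Agent.KTX (Sp Sm LThy)
open Pool.Agent.GTH (Serre)
open Pool.Agent.KGT (serre_iff)

namespace K1

/-! ### commutative algebra -/

/-- a nonempty open subset of the spectrum with exactly one minimal prime -/
theorem exists_irr (D : Type) [CommRing D] [IsNoetherianRing D] [Nontrivial D] :
    ∃ (t : D) (N : Ideal D), N.IsPrime ∧ t ∉ N ∧ ∀ Q : Ideal D, Q.IsPrime → t ∉ Q → N ≤ Q := by
  classical
  have hfin : (minimalPrimes D).Finite := minimalPrimes.finite_of_isNoetherianRing D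
  obtain ⟨m, hm⟩ := Ideal.exists_maximal D
  haveI := hm.isPrime
  obtain ⟨N, hN, -⟩ := Ideal.exists_minimalPrimes_le (I := (⊥ : Ideal D)) (J := m) bot_le
  have hNp : N.IsPrime := hN.1.1
  let S : Finset (Ideal D) := hfin.toFinset.erase N
  have h1 : ¬ (S.inf id ≤ N) := by
    intro h
    obtain ⟨M, hM, hMN⟩ := (Ideal.IsPrime.inf_le' hNp).1 h
    have hM1 : M ≠ N := Finset.ne_of_mem_erase hM
    have hM2 : M ∈ minimalPrimes D := hfin.mem_toFinset.1 (Finset.mem_of_mem_erase hM)
    exact hM1 (le_antisymm hMN (hN.2 hM2.1 hMN))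
  obtain ⟨t, ht, htN⟩ := Set.not_subset.1 h1
  refine ⟨t, N, hNp, htN, fun Q hQ htQ => ?_⟩
  obtain ⟨M, hM, hMQ⟩ := Ideal.exists_minimalPrimes_le (I := (⊥ : Ideal D)) (J := Q) bot_le
  by_cases hMN : M = N
  · exact hMN ▸ hMQ
  · exfalso
    apply htQ
    apply hMQ
    have h2 : M ∈ S := Finset.mem_erase.2 ⟨hMN, hfin.mem_toFinset.2 hM⟩
    have h3 : S.inf id ≤ M := Finset.inf_le (f := id) h2
    exact h3 ht

/-- the nilradical is prime after inverting one element -/
theorem exists_nil_prime (D : Type) [CommRing D] [IsNoetherianRing D] [Nontrivial D] :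
    ∃ t : D, (nilradical (Localization.Away t)).IsPrime := by
  obtain ⟨t, N, hN, htN, h⟩ := exists_irr D
  refine ⟨t, ?_⟩
  have hdis : Disjoint (Submonoid.powers t : Set D) (N : Set D) := by
    rw [Set.disjoint_left]
    rintro _ ⟨k, rfl⟩ hk
    exact htN (hN.mem_of_pow_mem k hk)
  have hP := IsLocalization.isPrime_of_isPrime_disjoint (Submonoid.powers t)
    (Localization.Away t) N hN hdis
  have h1 : Ideal.map (algebraMap D (Localization.Away t)) N = nilradical (Localization.Away t) := by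
    apply le_antisymm
    · rw [nilradical_eq_sInf]
      refine le_sInf ?_
      intro Q hQ
      have hQ' : Q.IsPrime := hQ
      rw [Ideal.map_le_iff_le_comap]
      refine h _ inferInstance ?_
      intro ht
      have h2 : IsUnit (algebraMap D (Localization.Away t) t) :=
        IsLocalization.Away.algebraMap_isUnit t
      exact hQ'.ne_top (Ideal.eq_top_of_isUnit_mem _ ht h2)
    · rw [nilradical_eq_sInf]
      exact sInf_le hP
  rw [← h1]
  exact hP

/-- lifting of a localization modulo the nilradical -/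
theorem away_lift {A : Type} [CommRing A] (s' : A) :
    ∃ φ : Localization.Away s' →+* Localization.Away (Ideal.Quotient.mk (nilradical A) s'),
      Function.Surjective φ ∧ ∀ a, φ a = 0 → IsNilpotent a := by
  let q : A →+* A ⧸ nilradical A := Ideal.Quotient.mk (nilradical A)
  refine ⟨Localization.awayMap q s', ?_, ?_⟩
  · refine Localization.awayMap_surjective_iff.2 fun y => ?_
    obtain ⟨b, rfl⟩ := Ideal.Quotient.mk_surjective y
    exact ⟨b, 0, by rw [pow_zero, one_mul]⟩
  · intro a ha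
    obtain ⟨⟨b, ⟨_, k, rfl⟩⟩, hb⟩ := IsLocalization.surj (Submonoid.powers s') a
    have h2 : Localization.awayMap q s' (algebraMap A (Localization.Away s') b) = 0 := by
      rw [← hb, map_mul, ha, zero_mul]
    rw [Localization.awayMap, IsLocalization.Away.map, IsLocalization.map_eq,
      IsLocalization.map_eq_zero_iff (Submonoid.powers (q s'))] at h2
    obtain ⟨⟨_, m, rfl⟩, hm⟩ := h2
    have h3 : q (s' ^ m * b) = 0 := by
      rw [map_mul, map_pow]
      exact hm
    have h4 : s' ^ m * b ∈ nilradical A := Ideal.Quotient.eq_zero_iff_mem.1 h3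
    have h5 : IsNilpotent (algebraMap A (Localization.Away s') (s' ^ m * b)) :=
      IsNilpotent.map (mem_nilradical.1 h4) _
    have hu : IsUnit (algebraMap A (Localization.Away s') s') :=
      IsLocalization.Away.algebraMap_isUnit s'
    rw [map_mul, map_pow, ← hb] at h5
    obtain ⟨l, hl⟩ := h5
    refine ⟨l, ?_⟩
    have h6 : IsUnit ((algebraMap A (Localization.Away s') s' ^ m *
        algebraMap A (Localization.Away s') (s' ^ k)) ^ l) := by
      rw [map_pow]
      exact ((hu.pow m).mul (hu.pow k)).pow l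
    have h7 : a ^ l * ((algebraMap A (Localization.Away s') s' ^ m *
        algebraMap A (Localization.Away s') (s' ^ k)) ^ l) = 0 := by
      rw [← mul_pow]
      refine Eq.trans ?_ hl
      congr 1
      ring
    exact (h6.mul_left_eq_zero).1 h7

/-! ### good fields, one degree -/

theorem gIso {𝒮 : (G : Type 1) → [AddCommGroup G] → Prop} {n : ℕ} {κ κ' : Type} [Field κ]
    [Field κ'] (e : κ ≃+* κ') (h : GoodN 𝒮 n κ) : GoodN 𝒮 n κ' := by
  intro C _ _ _ hC
  obtain ⟨f⟩ := hC
  exact h C ⟨f.trans e.symm⟩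

theorem goodN_of {𝒮 : (G : Type 1) → [AddCommGroup G] → Prop} {κ : Type} [Field κ]
    (h : Good 𝒮 κ) (n : ℕ) : GoodN 𝒮 n κ := by
  intro C _ _ _ hC
  obtain ⟨s, hs, h1⟩ := h C hC
  exact ⟨s, hs, h1 n⟩

/-- all residue fields are good -/
def GoodS (𝒮 : (G : Type 1) → [AddCommGroup G] → Prop) (n : ℕ) (X : Scheme.{0}) : Prop :=
  ∀ x : X, GoodN 𝒮 n (X.residueField x)

theorem goodS_open {𝒮 : (G : Type 1) → [AddCommGroup G] → Prop} {n : ℕ} {X Y : Scheme.{0}}
    (j : Y ⟶ X) [IsOpenImmersion j] (h : GoodS 𝒮 n X) : GoodS 𝒮 n Y := fun y =>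
  gIso (asIso (j.residueFieldMap y)).commRingCatIsoToRingEquiv (h (j y))

theorem goodS_closed {𝒮 : (G : Type 1) → [AddCommGroup G] → Prop} {n : ℕ} {X Y : Scheme.{0}}
    (i : Y ⟶ X) [IsClosedImmersion i] (h : GoodS 𝒮 n X) : GoodS 𝒮 n Y := by
  intro y
  have hs : Function.Surjective (i.residueFieldMap y).hom := by
    have h1 : Function.Surjective (i.stalkMap y).hom := i.stalkMap_surjective y
    intro z
    obtain ⟨w, rfl⟩ := IsLocalRing.residue_surjective z
    obtain ⟨v, rfl⟩ := h1 w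
    exact ⟨X.residue (i y) v, rfl⟩
  exact gIso (RingEquiv.ofBijective _ ⟨RingHom.injective _, hs⟩) (h (i y))

theorem goodS_spec {𝒮 : (G : Type 1) → [AddCommGroup G] → Prop} {n : ℕ} {C : Type} [CommRing C]
    (h : GoodS 𝒮 n (Sp C)) (P : Ideal C) [hP : P.IsPrime] : GoodN 𝒮 n (FractionRing (C ⧸ P)) := by
  let x : Sp C := ⟨P, hP⟩
  have e1 : Nonempty (FractionRing (C ⧸ P) ≃+* (Sp C).residueField x) := by
    obtain ⟨e⟩ := KGT.frac_res P
    exact ⟨e.trans (Scheme.Spec.residueFieldIso (CommRingCat.of C) x).symm.commRingCatIsoToRingEquiv⟩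
  obtain ⟨e⟩ := e1
  exact gIso e.symm (h x)

theorem gQuot {𝒮 : (G : Type 1) → [AddCommGroup G] → Prop} {n : ℕ} {A : Type} [CommRing A]
    [hA : Algebra.FiniteType ℤ A] (P : Ideal A) [hP : P.IsPrime]
    (h : GoodN 𝒮 n (FractionRing (A ⧸ P))) :
    ∃ s : A ⧸ P, s ≠ 0 ∧ 𝒮 (KX n (Sp (Localization.Away s))) := by
  have h1 : @Algebra.FiniteType ℤ (A ⧸ P) _ _ (Ring.toIntAlgebra (A ⧸ P)) :=
    Algebra.FiniteType.of_surjective
      (RingHom.toIntAlgHom (Ideal.Quotient.mk P)) Ideal.Quotient.mk_surjective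
  exact @h (A ⧸ P) _ _ h1 ⟨RingEquiv.refl _⟩

theorem ft_away {D : Type} [CommRing D] [Algebra.FiniteType ℤ D] (t : D) :
    @Algebra.FiniteType ℤ (Localization.Away t) _ _ (Ring.toIntAlgebra (Localization.Away t)) := by
  haveI : Algebra.FiniteType D (Localization.Away t) :=
    IsLocalization.finiteType_of_monoid_fg (Submonoid.powers t) (Localization.Away t)
  have h : Algebra.FiniteType ℤ (Localization.Away t) :=
    Algebra.FiniteType.trans (R := ℤ) (S := D) (A := Localization.Away t) inferInstance inferInstance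
  exact @KGT.ft_int_alg (Localization.Away t) _ _ h

/-! ### noetherian induction -/

/-- noetherian induction over the closed subschemes; the open subscheme is chosen -/
theorem ind {X : Scheme.{0}} [IsNoetherian X] (P : Scheme.{0} → Prop)
    (h0 : ∀ Z : Scheme.{0}, IsEmpty Z → P Z)
    (hopen : ∀ (Z : Scheme.{0}) (i : Z ⟶ X) [IsClosedImmersion i], Nonempty Z →
      ∃ (W : Scheme.{0}) (j : W ⟶ Z), IsOpenImmersion j ∧ Nonempty W ∧ P W)
    (hloc : ∀ (Z' Z W : Scheme.{0}) [IsNoetherian Z] (i : Z' ⟶ Z) (j : W ⟶ Z)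
      [IsClosedImmersion i] [IsOpenImmersion j], Set.range i = (Set.range j)ᶜ → P Z' → P W →
        P Z) : P X := by
  have key : ∀ (C : Closeds X) (Z : Scheme.{0}) (i : Z ⟶ X) [IsClosedImmersion i],
      Set.range i = (C : Set X) → P Z := by
    intro C
    induction C using WellFoundedLT.induction with
    | ind C ih =>
    intro Z i _ hC
    have hZ : IsNoetherian Z := Pool.Agent.KIN.h2_noeth i
    rcases isEmpty_or_nonempty Z with hem | hne
    · exact h0 Z hem
    obtain ⟨W, j, hj, ⟨w⟩, hW⟩ := hopen Z i hne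
    let C0 : Closeds Z := ⟨(Set.range j)ᶜ, j.isOpenEmbedding.isOpen_range.isClosed_compl⟩
    let I : Z.IdealSheafData := Scheme.IdealSheafData.vanishingIdeal C0
    let i' : I.subscheme ⟶ Z := I.subschemeι
    have hij : Set.range i' = (Set.range j)ᶜ := by
      change Set.range I.subschemeι = _
      rw [Scheme.IdealSheafData.range_subschemeι, Scheme.IdealSheafData.coe_support_vanishingIdeal]
      rfl
    let C' : Closeds X := ⟨Set.range (i' ≫ i), (i' ≫ i).isClosedEmbedding.isClosed_range⟩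
    have hlt : C' < C := by
      refine lt_of_le_of_ne ?_ ?_
      · rintro _ ⟨x, rfl⟩
        rw [Scheme.Hom.comp_apply]
        change i (i' x) ∈ (C : Set X)
        rw [← hC]
        exact ⟨_, rfl⟩
      · intro he
        have h1 : i (j w) ∈ (C' : Set X) := by
          rw [he, ← hC]
          exact ⟨j w, rfl⟩
        obtain ⟨x, hx⟩ := h1
        rw [Scheme.Hom.comp_apply] at hx
        have h2 := i.isClosedEmbedding.injective hx
        have h3 : j w ∈ Set.range i' := ⟨x, h2⟩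
        rw [hij] at h3
        exact h3 ⟨w, rfl⟩
    exact hloc I.subscheme Z W i' j hij (ih C' hlt I.subscheme (i' ≫ i) rfl) hW
  exact key ⊤ X (𝟙 X) (by simp)

/-- the groups of the empty scheme -/
theorem empty_zero (L : LThy.{1}) (n : ℤ) (Z : Scheme.{0}) (hZ : IsEmpty Z) :
    Subsingleton ((L.th n).T Z) := by
  let f : Z ⟶ Sp ℤ := isInitialOfIsEmpty.to (Sp ℤ)
  haveI : IsNoetherian (Sp ℤ) := inferInstance
  haveI : IsOpenImmersion f := inferInstance
  haveI : LocallyOfFiniteType f := inferInstance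
  haveI : QuasiCompact f := inferInstance
  haveI : IsNoetherian Z := Pool.Agent.KIN.h2_noeth f
  refine ⟨fun x y => ?_⟩
  have key : ∀ x : (L.th n).T Z, x = 0 := by
    intro x
    have h1 := (L.th n).ex0 (𝟙 Z) (𝟙 Z) (Set.eq_of_subset_of_subset (fun z => hZ.elim z)
      (fun z => hZ.elim z)) x
    rw [(L.th n).push_id] at h1
    exact ((L.th n).pull_id Z x).symm.trans h1
  rw [key x, key y]

section

variable {𝒮 : (G : Type 1) → [AddCommGroup G] → Prop} (h𝒮 : Serre 𝒮)

include h𝒮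

/-- empty schemes -/
theorem emp (n : ℕ) (Z : Scheme.{0}) (hZ : IsEmpty Z) : 𝒮 (KX n Z) := by
  obtain ⟨L, G, e1, e2, -⟩ := KGT.real Pool.Agent.KQH.all_HOMK
  obtain ⟨a⟩ := e1 n Z
  haveI := empty_zero L n Z hZ
  exact (serre_iff h𝒮 a).1 (h𝒮.zero _)

/-- gluing -/
theorem glue (n : ℕ) (Z' Z W : Scheme.{0}) [IsNoetherian Z] (i : Z' ⟶ Z) (j : W ⟶ Z)
    [IsClosedImmersion i] [IsOpenImmersion j] (hij : Set.range i = (Set.range j)ᶜ)
    (h1 : 𝒮 (KX n Z')) (h2 : 𝒮 (KX n W)) : 𝒮 (KX n Z) := by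
  obtain ⟨L, G, e1, e2, -⟩ := KGT.real Pool.Agent.KQH.all_HOMK
  obtain ⟨a⟩ := e1 n Z'
  obtain ⟨b⟩ := e1 n Z
  obtain ⟨c⟩ := e1 n W
  rw [← serre_iff h𝒮 b]
  exact h𝒮.exact _ _ _ ((L.th n).push i) ((L.th n).pull j)
    (fun x => ⟨(L.th n).ex i j hij x, by
      rintro ⟨y, rfl⟩
      exact (L.th n).ex0 i j hij y⟩) ((serre_iff h𝒮 a).2 h1) ((serre_iff h𝒮 c).2 h2)

/-- the nonempty open subscheme -/
theorem opn (n : ℕ) (D : Type) [CommRing D] [Algebra.FiniteType ℤ D] [Nontrivial D]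
    (hD : GoodS 𝒮 n (Sp D)) : ∃ (W : Scheme.{0}) (j : W ⟶ Sp D), IsOpenImmersion j ∧ Nonempty W ∧
      𝒮 (KX n W) := by
  haveI : IsNoetherianRing D := Algebra.FiniteType.isNoetherianRing ℤ D
  obtain ⟨t, ht⟩ := exists_nil_prime D
  haveI := ht
  let A := Localization.Away t
  let j1 : Sp A ⟶ Sp D := Sm (algebraMap D A)
  haveI hj1 : IsOpenImmersion j1 := inferInstance
  haveI : IsNoetherianRing A := IsLocalization.isNoetherianRing (Submonoid.powers t) A inferInstance
  haveI hAft : @Algebra.FiniteType ℤ A _ _ (Ring.toIntAlgebra A) := ft_away t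
  have hA : GoodS 𝒮 n (Sp A) := goodS_open j1 hD
  obtain ⟨s, hs, hS⟩ := gQuot (nilradical A) (goodS_spec hA (nilradical A))
  obtain ⟨s', rfl⟩ := Ideal.Quotient.mk_surjective s
  obtain ⟨φ, hφ1, hφ2⟩ := away_lift s'
  let A' := Localization.Away s'
  let j2 : Sp A' ⟶ Sp A := Sm (algebraMap A A')
  haveI hj2 : IsOpenImmersion j2 := inferInstance
  haveI : IsNoetherianRing A' := IsLocalization.isNoetherianRing (Submonoid.powers s') A' inferInstance
  have hne : Nontrivial A' := by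
    by_contra hc
    rw [not_nontrivial_iff_subsingleton,
      IsLocalization.subsingleton_iff (M := Submonoid.powers s')] at hc
    obtain ⟨k, hk⟩ := hc
    apply hs
    rw [Ideal.Quotient.eq_zero_iff_mem]
    exact mem_nilradical.2 ⟨k, hk⟩
  refine ⟨Sp A', j2 ≫ j1, inferInstance, ?_, ?_⟩
  · obtain ⟨m, hm⟩ := Ideal.exists_maximal A'
    exact ⟨⟨m, hm.isPrime⟩⟩
  · haveI : IsClosedImmersion (Sm φ) := IsClosedImmersion.spec_of_surjective _ hφ1
    have hr : Set.range (Sm φ) = Set.univ := by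
      refine (range_comap_of_surjective _ φ hφ1).trans ?_
      refine Set.eq_univ_of_forall fun x => ?_
      intro a ha
      exact nilradical_le_prime x.asIdeal (mem_nilradical.2 (hφ2 a ha))
    have hemp : IsEmpty (⊥ : (Sp A').Opens).toScheme := ⟨fun x => x.2⟩
    refine glue h𝒮 n _ (Sp A') _ (Sm φ) (⊥ : (Sp A').Opens).ι ?_ hS (emp h𝒮 n _ hemp)
    rw [hr, Scheme.Opens.range_ι]
    simp

end

/-- **K1**, one degree -/
theorem main {𝒮 : (G : Type 1) → [AddCommGroup G] → Prop} (h : SerreClass 𝒮) (n : ℕ)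
    (Z : Scheme.{0}) (hZ : FinType ℤ Z) (hg : ∀ z : Z, GoodN 𝒮 n (Z.residueField z)) :
    𝒮 (KX n Z) := by
  have h𝒮 : Serre 𝒮 := h.serre
  obtain ⟨f, hf1, hf2⟩ := hZ
  haveI : IsNoetherian (Sp ℤ) := inferInstance
  haveI : IsNoetherian Z := Pool.Agent.KIN.h2_noeth f
  refine ind (X := Z) (fun Z => 𝒮 (KX n Z)) (fun Y hY => emp h𝒮 n Y hY) (fun Y i _ hY => ?_)
    (fun Z' Z W _ i j _ _ hij h1 h2 => glue h𝒮 n Z' Z W i j hij h1 h2)
  haveI hYn : IsNoetherian Y := Pool.Agent.KIN.h2_noeth i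
  obtain ⟨y⟩ := hY
  obtain ⟨W, hW, hyW, -⟩ := exists_isAffineOpen_mem_and_subset (x := y) (U := ⊤) trivial
  haveI hWa : IsAffine W.toScheme := hW
  let j : W.toScheme ⟶ Y := W.ι
  haveI : LocallyOfFiniteType (j ≫ i ≫ f) := inferInstance
  obtain ⟨D, _, _, hD, ⟨e⟩⟩ := KGT.aff_alg (j ≫ i ≫ f)
  haveI : Nontrivial D := by
    have x : Sp D := e.hom ⟨y, hyW⟩
    exact PrimeSpectrum.nonempty_iff_nontrivial.1 ⟨x⟩
  have hgW : GoodS 𝒮 n W.toScheme := goodS_open j (goodS_closed i hg)
  have hgD : GoodS 𝒮 n (Sp D) := goodS_open e.inv hgW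
  haveI hD' : @Algebra.FiniteType ℤ D _ _ (Ring.toIntAlgebra D) := KGT.ft_int_alg D
  obtain ⟨V, j', hj', hV, hSV⟩ := opn h𝒮 n D hgD
  exact ⟨V, j' ≫ e.inv ≫ j, inferInstance, hV, hSV⟩

end K1

/-- **K1N** -/
theorem thm_K1N : St_K1N := fun _ h𝒮 n Z hZ hg => K1.main h𝒮 n Z hZ hg

/-- **K1** -/
theorem thm_K1 : St_K1 := fun _ h𝒮 Z hZ hg n =>
  K1.main h𝒮 n Z hZ fun z => K1.goodN_of (hg z) n

end Pool.Agent.BTF
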