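import Pool.Agent.BTF.CO
import Pool.Agent.BTF.DL

/-!
# BTF, module K2 (helper74): fields of small Kronecker dimension are good
-/

set_option autoImplicit false

noncomputable section

namespace Pool.Agent.BTF

open CategoryTheory CategoryTheory.Limits AlgebraicGeometry Pool.Agent.KPR
open Pool.Agent.KGT.W (SerreClass FinType)

namespace K2

/-- the transcendence degree over the prime field is an invariant -/
theorem trdeg_congr {K L : Type} [Field K] [Field L] (e : K ≃+* L) :
    Algebra.trdeg (⊥ : Subfield K) K = Algebra.trdeg (⊥ : Subfield L) L := by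
  let i : Algebra K L := (e : K →+* L).toAlgebra
  have hF : FaithfulSMul (⊥ : Subfield K) L := by
    have h : Function.Injective (algebraMap (⊥ : Subfield K) L) :=
      RingHom.injective (algebraMap (⊥ : Subfield K) L)
    exact (faithfulSMul_iff_algebraMap_injective (⊥ : Subfield K) L).2 h
  let e' : K ≃ₐ[(⊥ : Subfield K)] L := AlgEquiv.ofRingEquiv (f := e) fun _ => rfl
  rw [e'.trdeg_eq]
  refine DL.trdeg_bot _ _ fun r => ?_
  have h1 : (⊥ : Subfield K) ≤ (⊥ : Subfield L).comap (e : K →+* L) := bot_le
  exact h1 r.2

theorem krLe_congr {K L : Type} [Field K] [Field L] (e : K ≃+* L) (d : ℕ) (h : KrLe d K) :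
    KrLe d L := by
  refine ⟨?_, fun hL => ?_⟩
  · rw [← trdeg_congr e]
    exact h.1
  · rw [← trdeg_congr e]
    refine h.2 ?_
    exact charZero_of_injective_ringHom (f := (e.symm : L →+* K)) e.symm.injective

theorem ff (R : CommRingCat.{0}) [IsDomain R] :
    Nonempty (FractionRing R ≃+* (Spec R).functionField) :=
  ⟨(FractionRing.algEquiv R (Spec R).functionField).toRingEquiv⟩

end K2

/-- **K2** -/
theorem thm_K2 (hDL : St_DL) : St_K2 := by
  intro 𝒮 _ d hlow κ _ hκ C _ _ _ ⟨e⟩
  refine ⟨1, one_ne_zero, hlow _ ?_ ?_⟩
  · have hf : Algebra.FiniteType C (Localization.Away (1 : C)) :=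
      IsLocalization.finiteType_of_monoid_fg (Submonoid.powers (1 : C)) _
    have hft : Algebra.FiniteType ℤ (Localization.Away (1 : C)) :=
      Algebra.FiniteType.trans (S := C) inferInstance hf
    refine ⟨Spec.map (CommRingCat.ofHom (algebraMap ℤ (Localization.Away (1 : C)))), ?_,
      inferInstance⟩
    refine (HasRingHomProperty.Spec_iff (P := @LocallyOfFiniteType)).2 ?_
    exact (RingHom.finiteType_algebraMap (A := ℤ) (B := Localization.Away (1 : C))).2 hft
  · have hle : Submonoid.powers (1 : C) ≤ nonZeroDivisors C :=
      powers_le_nonZeroDivisors_of_noZeroDivisors one_ne_zero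
    have hd : IsDomain (Localization.Away (1 : C)) := IsLocalization.isDomain_localization hle
    have hd' : IsDomain (CommRingCat.of (Localization.Away (1 : C))) := hd
    have hi : IsIntegral (Spec (CommRingCat.of (Localization.Away (1 : C)))) := inferInstance
    obtain ⟨e1⟩ : Nonempty (FractionRing (Localization.Away (1 : C)) ≃+*
        (Spec (CommRingCat.of (Localization.Away (1 : C)))).functionField) :=
      K2.ff (CommRingCat.of (Localization.Away (1 : C)))
    have e2 : C ≃+* Localization.Away (1 : C) :=
      (IsLocalization.atOne C (Localization.Away (1 : C))).toRingEquiv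
    have e3 : FractionRing C ≃+* FractionRing (Localization.Away (1 : C)) :=
      IsFractionRing.ringEquivOfRingEquiv e2
    have hK : KrLe d (Spec (CommRingCat.of (Localization.Away (1 : C)))).functionField :=
      K2.krLe_congr (e.symm.trans (e3.trans e1)) d hκ
    have hK1 : KrLe (d + 1) (Spec (CommRingCat.of (Localization.Away (1 : C)))).functionField := by
      refine ⟨hK.1.trans ?_, fun h => (hK.2 h).trans ?_⟩ <;> exact_mod_cast Nat.le_succ d
    intro z
    by_cases hz : z = genericPoint (Spec (CommRingCat.of (Localization.Away (1 : C))))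
    · subst hz
      obtain ⟨g⟩ := CO.res_gen (Spec (CommRingCat.of (Localization.Away (1 : C))))
      exact K2.krLe_congr g.symm d hK
    · exact CO.kr_res hDL _ z hz d hK1

end Pool.Agent.BTF
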