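import Pool.Agent.BTF.St4
import Pool.Agent.KGT.WFin

/-!
# BTF, module K3M: comparison with an open subscheme, kernels and cokernels

MP_e17fa799_al (captain helper21); helper97.
-/

set_option autoImplicit false
set_option linter.style.haveILetI false

noncomputable section

namespace Pool.Agent.BTF

open CategoryTheory CategoryTheory.Limits AlgebraicGeometry TopologicalSpace Pool.Agent.KPR
open Pool.Agent.KTX
open Pool.Agent.KGT.W (SerreClass FinType)

namespace K3M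

theorem good_equiv {𝒮 : (G : Type 1) → [AddCommGroup G] → Prop} {κ κ' : Type} [Field κ]
    [Field κ'] (e : κ ≃+* κ') (h : Good 𝒮 κ) : Good 𝒮 κ' := by
  intro C _ _ _ hC
  obtain ⟨e'⟩ := hC
  exact h C ⟨e'.trans e.symm⟩

/-- the residue fields of a closed subscheme -/
theorem res_closed {X Z : Scheme.{0}} (i : Z ⟶ X) [IsClosedImmersion i] (z : Z) :
    Nonempty (X.residueField (i z) ≃+* Z.residueField z) := by
  have hs : Function.Surjective (i.residueFieldMap z).hom := by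
    have h1 : Function.Surjective (i.stalkMap z).hom := i.stalkMap_surjective z
    intro y
    obtain ⟨w, rfl⟩ := IsLocalRing.residue_surjective y
    obtain ⟨v, rfl⟩ := h1 w
    exact ⟨X.residue (i z) v, rfl⟩
  exact ⟨RingEquiv.ofBijective _ ⟨RingHom.injective _, hs⟩⟩

/-- the reduced closed complement -/
theorem exists_compl {X U : Scheme.{0}} (j : U ⟶ X) [IsOpenImmersion j] :
    ∃ (Z : Scheme.{0}) (i : Z ⟶ X), IsClosedImmersion i ∧ Set.range i = (Set.range j)ᶜ := by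
  let C0 : Closeds X := ⟨(j.opensRange : Set X)ᶜ, j.opensRange.isOpen.isClosed_compl⟩
  let I : X.IdealSheafData := Scheme.IdealSheafData.vanishingIdeal C0
  refine ⟨I.subscheme, I.subschemeι, inferInstance, ?_⟩
  rw [Scheme.IdealSheafData.range_subschemeι, Scheme.IdealSheafData.coe_support_vanishingIdeal]
  rfl

theorem ker_in {𝒮 : (G : Type 1) → [AddCommGroup G] → Prop} (h𝒮 : Pool.Agent.GTH.Serre 𝒮)
    {G H E : Type 1} [AddCommGroup G] [AddCommGroup H] [AddCommGroup E] (i : G →+ H) (f : H →+ E)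
    (h : ∀ x, f x = 0 → ∃ y, i y = x) (h0 : ∀ y, f (i y) = 0) (hG : 𝒮 G) : 𝒮 f.ker := by
  refine h𝒮.of_surj (i.codRestrict f.ker fun y => h0 y) (fun x => ?_) hG
  obtain ⟨y, hy⟩ := h x.1 x.2
  exact ⟨y, Subtype.ext hy⟩

theorem coker_in {𝒮 : (G : Type 1) → [AddCommGroup G] → Prop} (h𝒮 : Pool.Agent.GTH.Serre 𝒮)
    {G H E : Type 1} [AddCommGroup G] [AddCommGroup H] [AddCommGroup E] (f : G →+ H) (b : H →+ E)
    (h : ∀ x, b x = 0 → ∃ y, f y = x) (h0 : ∀ y, b (f y) = 0) (hE : 𝒮 E) :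
    𝒮 (H ⧸ f.range) := by
  have h1 : f.range ≤ b.ker := by
    rintro _ ⟨y, rfl⟩
    exact h0 y
  refine h𝒮.of_inj (QuotientAddGroup.lift f.range b h1) ?_ hE
  intro x
  obtain ⟨x, rfl⟩ := QuotientAddGroup.mk_surjective x
  intro hx
  obtain ⟨y, hy⟩ := h x hx
  exact (QuotientAddGroup.eq_zero_iff x).2 ⟨y, hy⟩

/-- transport -/
theorem transport {𝒮 : (G : Type 1) → [AddCommGroup G] → Prop} (h𝒮 : Pool.Agent.GTH.Serre 𝒮)
    {G H G' H' : Type 1} [AddCommGroup G] [AddCommGroup H] [AddCommGroup G'] [AddCommGroup H']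
    (a : G ≃+ G') (b : H ≃+ H') (f : G →+ H) (h1 : 𝒮 f.ker) (h2 : 𝒮 (H ⧸ f.range)) :
    ∃ f' : G' →+ H', 𝒮 f'.ker ∧ 𝒮 (H' ⧸ f'.range) := by
  let f' : G' →+ H' := (b.toAddMonoidHom.comp f).comp a.symm.toAddMonoidHom
  have hf' : ∀ x, f' x = b (f (a.symm x)) := fun _ => rfl
  refine ⟨f', ?_, ?_⟩
  · refine ker_in h𝒮 (a.toAddMonoidHom.comp f.ker.subtype) f' (fun x hx => ?_) (fun y => ?_) h1
    · rw [hf'] at hx
      have h3 : f (a.symm x) = 0 := b.injective (by rw [hx, map_zero])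
      exact ⟨⟨a.symm x, h3⟩, a.apply_symm_apply x⟩
    · change b (f (a.symm (a y.1))) = 0
      rw [a.symm_apply_apply, y.2, map_zero]
  · refine coker_in h𝒮 f' ((QuotientAddGroup.mk' f.range).comp b.symm.toAddMonoidHom)
      (fun x hx => ?_) (fun y => ?_) h2
    · obtain ⟨y, hy⟩ := (QuotientAddGroup.eq_zero_iff (b.symm x)).1 hx
      refine ⟨a y, ?_⟩
      rw [hf', a.symm_apply_apply, hy, b.apply_symm_apply]
    · refine (QuotientAddGroup.eq_zero_iff _).2 ⟨a.symm y, ?_⟩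
      change _ = b.symm (f' y)
      rw [hf', b.symm_apply_apply]

end K3M

/-- **K3M**. `K3` for kernels and cokernels. -/
theorem thm_K3M (hK1 : St_K1) : St_K3M := by
  intro 𝒮 hS X U j _ hX hgood n
  have h𝒮 : Pool.Agent.GTH.Serre 𝒮 := hS.serre
  obtain ⟨L, G, e1, e2, e3⟩ := Pool.Agent.KGT.real Pool.Agent.KQH.all_HOMK
  obtain ⟨f, hf1, hf2⟩ := id hX
  haveI : IsNoetherian X := Pool.Agent.KIN.h2_noeth f
  obtain ⟨Z, i, hi, hij⟩ := K3M.exists_compl j
  have hZ : FinType ℤ Z := ⟨i ≫ f, inferInstance, inferInstance⟩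
  have hZg : ∀ z : Z, Good 𝒮 (Z.residueField z) := by
    intro z
    obtain ⟨e⟩ := K3M.res_closed i z
    refine K3M.good_equiv e (hgood (i z) fun h => ?_)
    have h1 : i z ∈ Set.range i := ⟨z, rfl⟩
    rw [hij] at h1
    exact h1 h
  have hZS : ∀ m : ℕ, 𝒮 (KX m Z) := hK1 𝒮 hS Z hZ hZg
  have hZT : ∀ m : ℕ, 𝒮 ((L.th m).T Z) := fun m => by
    obtain ⟨a⟩ := e1 m Z
    exact (h𝒮.of_bij a.toAddMonoidHom a.bijective).2 (hZS m)
  obtain ⟨a⟩ := e1 n X
  obtain ⟨b⟩ := e1 n U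
  refine K3M.transport h𝒮 a b ((L.th n).pull j) ?_ ?_
  · exact K3M.ker_in h𝒮 ((L.th n).push i) ((L.th n).pull j) ((L.th n).ex i j hij)
      ((L.th n).ex0 i j hij) (hZT n)
  · have key : ∀ (k l : ℤ), l = k + 1 → 𝒮 ((L.th k).T Z) →
        𝒮 ((L.th l).T U ⧸ ((L.th l).pull j).range) := by
      rintro k l rfl hk
      exact K3M.coker_in h𝒮 ((L.th (k + 1)).pull j) (L.bd k i j) (L.exU k i j hij)
        (L.bd_pull k i j hij) hk
    rcases n with n | n
    · refine key (Int.negSucc 0) (0 : ℕ) (by simp) ?_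
      have h1 : Subsingleton ((L.th (Int.negSucc 0)).T Z) :=
        ⟨fun x y => by rw [e3 0 Z x, e3 0 Z y]⟩
      exact h𝒮.zero _
    · exact key (n : ℕ) ((n + 1 : ℕ) : ℤ) (by push_cast; ring) (hZT n)

end Pool.Agent.BTF
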