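import Pool.Agent.BTF.St
import Pool.Agent.KGT.WFin

/-!
# BTF: ruled fields are good (K4)

MP_e17fa799_al (captain helper21).
-/

set_option autoImplicit false
set_option linter.style.haveILetI false

noncomputable section

namespace Pool.Agent.BTF

open CategoryTheory AlgebraicGeometry Pool.Agent.KPR
open Pool.Agent.KGT.W (SerreClass FinType)

namespace K4


/-! ### Kronecker dimension -/

/-- transcendence degrees and homomorphisms of fields -/
theorem trdeg_mono {K L : Type} [Field K] [Field L] (g : K →+* L) :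
    Algebra.trdeg (⊥ : Subfield K) K ≤ Algebra.trdeg (⊥ : Subfield L) L := by
  obtain ⟨ι, x, hx⟩ := exists_isTranscendenceBasis' (⊥ : Subfield K) K
  have h2 : (⊥ : Subfield K).map g = ⊥ := Subfield.map_bot _
  let f : (⊥ : Subfield K) →+* (⊥ : Subfield L) :=
    (g.comp (⊥ : Subfield K).subtype).codRestrict _ (fun y => by
      rw [← h2]
      exact ⟨y, y.2, rfl⟩)
  have hf : Function.Surjective f := by
    rintro ⟨z, hz⟩
    rw [← h2] at hz
    obtain ⟨y, hy, rfl⟩ := hz
    exact ⟨⟨y, hy⟩, rfl⟩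
  have h3 : AlgebraicIndependent (⊥ : Subfield L) (g ∘ x) :=
    hx.1.ringHom_of_comp_eq f g hf g.injective rfl
  have h4 := h3.cardinalMk_le_trdeg
  rwa [hx.cardinalMk_eq_trdeg] at h4

theorem krLe_mono {d : ℕ} {K L : Type} [Field K] [Field L] (g : K →+* L) (h : KrLe d L) :
    KrLe d K :=
  ⟨(trdeg_mono g).trans h.1, fun hc => by
    have : CharZero L := (RingHom.charZero_iff g.injective).1 hc
    exact (add_le_add_left (trdeg_mono g) 1).trans (h.2 this)⟩

theorem krLe_succ {d : ℕ} {K : Type} [Field K] (h : KrLe d K) : KrLe (d + 1) K := by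
  have h1 : (d : Cardinal) ≤ ((d + 1 : ℕ) : Cardinal) := by exact_mod_cast Nat.le_succ d
  exact ⟨h.1.trans h1, fun hc => (h.2 hc).trans h1⟩

/-- the transcendence degree of the field of rational functions -/
theorem trdeg_ratFunc (L : Type) [Field L] :
    Algebra.trdeg (⊥ : Subfield (RatFunc L)) (RatFunc L) ≤ Algebra.trdeg (⊥ : Subfield L) L + 1 := by
  have h1 : Algebra.trdeg L (Polynomial L) + Algebra.trdeg (Polynomial L) (RatFunc L) =
      Algebra.trdeg L (RatFunc L) := trdeg_add_eq L (Polynomial L)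
  have h2 : Algebra.trdeg (Polynomial L) (RatFunc L) = 0 := by
    have : Algebra.IsAlgebraic (Polynomial L) (RatFunc L) :=
      IsLocalization.isAlgebraic (RatFunc L) (nonZeroDivisors (Polynomial L))
    exact trdeg_eq_zero
  rw [Polynomial.trdeg_of_isDomain, h2, add_zero] at h1
  have h3 : Algebra.trdeg (⊥ : Subfield L) L + Algebra.trdeg L (RatFunc L) =
      Algebra.trdeg (⊥ : Subfield L) (RatFunc L) := trdeg_add_eq (⊥ : Subfield L) L
  rw [← h1] at h3
  rw [h3]
  obtain ⟨ι, x, hx⟩ := exists_isTranscendenceBasis' (⊥ : Subfield (RatFunc L)) (RatFunc L)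
  have h4 : (⊥ : Subfield L).map (algebraMap L (RatFunc L)) = ⊥ := Subfield.map_bot _
  let f : (⊥ : Subfield L) →+* (⊥ : Subfield (RatFunc L)) :=
    ((algebraMap L (RatFunc L)).comp (⊥ : Subfield L).subtype).codRestrict _ (fun y => by
      rw [← h4]
      exact ⟨y, y.2, rfl⟩)
  have hf : Function.Surjective f := by
    rintro ⟨z, hz⟩
    rw [← h4] at hz
    obtain ⟨y, hy, rfl⟩ := hz
    exact ⟨⟨y, hy⟩, rfl⟩
  let e : (⊥ : Subfield L) ≃+* (⊥ : Subfield (RatFunc L)) :=
    RingEquiv.ofBijective f ⟨f.injective, hf⟩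
  have h5 : AlgebraicIndependent (⊥ : Subfield L) ((RingHom.id (RatFunc L)) ∘ x) := by
    refine hx.1.ringHom_of_comp_eq (e.symm : (⊥ : Subfield (RatFunc L)) →+* (⊥ : Subfield L))
      (RingHom.id (RatFunc L)) e.symm.surjective Function.injective_id ?_
    ext z
    obtain ⟨y, rfl⟩ := e.surjective z
    show algebraMap L (RatFunc L) ((e.symm (e y) : (⊥ : Subfield L)) : L) = _
    rw [e.symm_apply_apply]
    rfl
  have h6 := h5.cardinalMk_le_trdeg
  rwa [hx.cardinalMk_eq_trdeg] at h6

theorem krLe_ratFunc {d : ℕ} {L : Type} [Field L] (h : KrLe d L) : KrLe (d + 1) (RatFunc L) := by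
  have h1 : ((d : Cardinal) + 1) = ((d + 1 : ℕ) : Cardinal) := by push_cast; rfl
  refine ⟨?_, fun hc => ?_⟩
  · rw [← h1]
    exact (trdeg_ratFunc L).trans (add_le_add_left h.1 1)
  · have : CharZero L := (RingHom.charZero_iff (algebraMap L (RatFunc L)).injective).2 hc
    rw [← h1]
    exact add_le_add_left ((trdeg_ratFunc L).trans (h.2 this)) 1

/-- residue fields at primes which contain the image of a non-zero element -/
theorem dl_quot (hDL : St_DL) {d : ℕ} {A E : Type} [CommRing A] [IsDomain A] [CommRing E]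
    {F : Type} [Field F] (g : A →+* F) (hg : Function.Injective g) (hF : KrLe (d + 1) F)
    (τ : A →+* E) (hτ : Function.Surjective τ) (P : Ideal E) [P.IsPrime]
    (ha : ∃ a : A, a ≠ 0 ∧ τ a ∈ P) : KrLe d (FractionRing (E ⧸ P)) := by
  have hK : KrLe (d + 1) (FractionRing A) := krLe_mono (IsFractionRing.lift hg) hF
  refine hDL A (FractionRing A) (FractionRing (E ⧸ P))
    ((algebraMap (E ⧸ P) (FractionRing (E ⧸ P))).comp ((Ideal.Quotient.mk P).comp τ)) ?_ ?_ d hK
  · obtain ⟨a, ha0, haP⟩ := ha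
    refine ⟨a, ha0, ?_⟩
    show algebraMap (E ⧸ P) (FractionRing (E ⧸ P)) (Ideal.Quotient.mk P (τ a)) = 0
    rw [Ideal.Quotient.eq_zero_iff_mem.2 haP, map_zero]
  · intro z
    obtain ⟨x, y, hy, rfl⟩ := IsFractionRing.div_surjective (A := E ⧸ P) z
    obtain ⟨x, rfl⟩ := Ideal.Quotient.mk_surjective x
    obtain ⟨y, rfl⟩ := Ideal.Quotient.mk_surjective y
    obtain ⟨x, rfl⟩ := hτ x
    obtain ⟨y, rfl⟩ := hτ y
    have hy0 : algebraMap (E ⧸ P) (FractionRing (E ⧸ P)) (Ideal.Quotient.mk P (τ y)) ≠ 0 := by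
      intro h
      exact nonZeroDivisors.ne_zero hy ((IsFractionRing.injective (E ⧸ P)
        (FractionRing (E ⧸ P))) (h.trans (map_zero _).symm))
    exact ⟨x, y, hy0, mul_div_cancel₀ _ hy0⟩


/-! ### localisations inside a field -/

/-- the localisation inside the field -/
def loc {A F : Type} [CommRing A] [Field F] (α : A →+* F) (hα : Function.Injective α) (s : A)
    (hs : s ≠ 0) : Localization.Away s →+* F :=
  IsLocalization.Away.lift s (g := α)
    (isUnit_iff_ne_zero.2 fun h => hs (hα (h.trans (map_zero α).symm)))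

theorem loc_inj {A F : Type} [CommRing A] [Field F] (α : A →+* F) (hα : Function.Injective α)
    (s : A) (hs : s ≠ 0) : Function.Injective (loc α hα s hs) := by
  rw [injective_iff_map_eq_zero]
  intro z hz
  obtain ⟨n, a, ha⟩ := IsLocalization.Away.surj s z
  have h1 : α a = 0 := by
    have h2 := congrArg (loc α hα s hs) ha
    rw [map_mul, hz, zero_mul] at h2
    rw [loc, IsLocalization.Away.lift_eq] at h2
    exact h2.symm
  have h3 : a = 0 := hα (h1.trans (map_zero α).symm)
  rw [h3, map_zero] at ha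
  have hu : IsUnit (algebraMap A (Localization.Away s) s ^ n) :=
    (IsLocalization.Away.algebraMap_isUnit s).pow n
  exact (hu.mul_left_eq_zero).1 ha

theorem loc_le {A B F : Type} [CommRing A] [CommRing B] [Field F] (α : A →+* F) (β : B →+* F)
    (hα : Function.Injective α) (hβ : Function.Injective β) (s : A) (h : B) (hs : s ≠ 0)
    (hh : h ≠ 0) (H1 : ∀ a : A, ∃ (b : B) (N : ℕ), β h ^ N * α a = β b)
    (H2 : ∃ (b : B) (N : ℕ), β h ^ N = β b * α s) :
    (loc α hα s hs).range ≤ (loc β hβ h hh).range := by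
  have hβh : β h ≠ 0 := fun h' => hh (hβ (h'.trans (map_zero β).symm))
  have hαs : α s ≠ 0 := fun h' => hs (hα (h'.trans (map_zero α).symm))
  have e1 : ∀ b : B, β b ∈ (loc β hβ h hh).range := fun b =>
    ⟨algebraMap B _ b, by rw [loc, IsLocalization.Away.lift_eq]⟩
  have e2 : (β h)⁻¹ ∈ (loc β hβ h hh).range := by
    refine ⟨IsLocalization.Away.invSelf h, ?_⟩
    have h1 : (loc β hβ h hh) (algebraMap B _ h) * (loc β hβ h hh) (IsLocalization.Away.invSelf h)
        = 1 := by
      rw [← map_mul, IsLocalization.Away.mul_invSelf, map_one]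
    have h2 : (loc β hβ h hh) (algebraMap B _ h) = β h := by
      rw [loc, IsLocalization.Away.lift_eq]
    rw [h2] at h1
    exact (eq_inv_of_mul_eq_one_right h1)
  have e3 : ∀ a : A, α a ∈ (loc β hβ h hh).range := by
    intro a
    obtain ⟨b, N, hb⟩ := H1 a
    have h1 : α a = (β h)⁻¹ ^ N * β b := by
      rw [← hb, ← mul_assoc, ← mul_pow, inv_mul_cancel₀ hβh, one_pow, one_mul]
    rw [h1]
    exact Subring.mul_mem _ (Subring.pow_mem _ e2 N) (e1 b)
  have e4 : (α s)⁻¹ ∈ (loc β hβ h hh).range := by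
    obtain ⟨b, N, hb⟩ := H2
    have h1 : (α s)⁻¹ = (β h)⁻¹ ^ N * β b := by
      rw [inv_pow, hb, mul_inv]
      have h2 : β b ≠ 0 := by
        intro h3
        rw [h3, zero_mul] at hb
        exact pow_ne_zero N hβh hb
      field_simp
    rw [h1]
    exact Subring.mul_mem _ (Subring.pow_mem _ e2 N) (e1 b)
  rintro _ ⟨z, rfl⟩
  obtain ⟨n, a, ha⟩ := IsLocalization.Away.surj s z
  have h1 : loc α hα s hs z * α s ^ n = α a := by
    have h2 := congrArg (loc α hα s hs) ha
    rw [map_mul, map_pow] at h2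
    have h3 : ∀ a : A, (loc α hα s hs) (algebraMap A _ a) = α a := fun a => by
      rw [loc, IsLocalization.Away.lift_eq]
    rw [h3, h3] at h2
    exact h2
  have h4 : loc α hα s hs z = α a * (α s)⁻¹ ^ n := by
    rw [← h1, mul_assoc, ← mul_pow, mul_inv_cancel₀ hαs, one_pow, mul_one]
  rw [h4]
  exact Subring.mul_mem _ (e3 a) (Subring.pow_mem _ e4 n)

/-- the localisations are isomorphic -/
theorem glue {A B F : Type} [CommRing A] [CommRing B] [Field F] (α : A →+* F) (β : B →+* F)
    (hα : Function.Injective α) (hβ : Function.Injective β) (s : A) (h : B) (hs : s ≠ 0)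
    (hh : h ≠ 0) (H1 : ∀ a : A, ∃ (b : B) (N : ℕ), β h ^ N * α a = β b)
    (H2 : ∃ (b : B) (N : ℕ), β h ^ N = β b * α s)
    (H3 : ∀ b : B, ∃ (a : A) (N : ℕ), α s ^ N * β b = α a)
    (H4 : ∃ (a : A) (N : ℕ), α s ^ N = α a * β h) :
    Nonempty (Localization.Away s ≃+* Localization.Away h) := by
  have h1 : (loc α hα s hs).range = (loc β hβ h hh).range :=
    le_antisymm (loc_le α β hα hβ s h hs hh H1 H2) (loc_le β α hβ hα h s hh hs H3 H4)
  have f1 : Localization.Away s ≃+* (loc α hα s hs).range :=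
    RingEquiv.ofBijective (loc α hα s hs).rangeRestrict
      ⟨fun x y hxy => loc_inj α hα s hs (congrArg Subtype.val hxy),
        (loc α hα s hs).rangeRestrict_surjective⟩
  have f2 : Localization.Away h ≃+* (loc β hβ h hh).range :=
    RingEquiv.ofBijective (loc β hβ h hh).rangeRestrict
      ⟨fun x y hxy => loc_inj β hβ h hh (congrArg Subtype.val hxy),
        (loc β hβ h hh).rangeRestrict_surjective⟩
  exact ⟨f1.trans ((RingEquiv.subringCongr h1).trans f2.symm)⟩

/-! ### denominators -/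

/-- the elements with a power of `S` as a denominator -/
def dn {A F : Type} [CommRing A] [Field F] (α : A →+* F) (S : A) : Subring F where
  carrier := {v | ∃ (a : A) (N : ℕ), α S ^ N * v = α a}
  mul_mem' := by
    rintro v w ⟨a, N, ha⟩ ⟨b, M, hb⟩
    refine ⟨a * b, N + M, ?_⟩
    rw [map_mul, ← ha, ← hb]
    ring
  one_mem' := ⟨1, 0, by simp⟩
  add_mem' := by
    rintro v w ⟨a, N, ha⟩ ⟨b, M, hb⟩
    refine ⟨S ^ M * a + S ^ N * b, N + M, ?_⟩
    rw [map_add, map_mul, map_mul, ← ha, ← hb, map_pow, map_pow]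
    ring
  zero_mem' := ⟨0, 0, by simp⟩
  neg_mem' := by
    rintro v ⟨a, N, ha⟩
    refine ⟨-a, N, ?_⟩
    rw [map_neg, ← ha]
    ring

theorem dn_self {A F : Type} [CommRing A] [Field F] (α : A →+* F) (S a : A) : α a ∈ dn α S :=
  ⟨a, 0, by simp⟩

theorem dn_left {A F : Type} [CommRing A] [Field F] (α : A →+* F) (S b : A) :
    dn α S ≤ dn α (S * b) := by
  rintro v ⟨a, N, ha⟩
  refine ⟨b ^ N * a, N, ?_⟩
  rw [map_mul, map_mul, map_pow, ← ha]
  ring

theorem dn_right {A F : Type} [CommRing A] [Field F] (α : A →+* F) (S b : A) :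
    dn α b ≤ dn α (S * b) := by
  rw [mul_comm]
  exact dn_left α b S

theorem exists_den {A F : Type} [CommRing A] [IsDomain A] [Field F] (α : A →+* F)
    (V : Finset F) (h : ∀ v ∈ V, ∃ a b : A, b ≠ 0 ∧ α b * v = α a) :
    ∃ S : A, S ≠ 0 ∧ ∀ v ∈ V, v ∈ dn α S := by
  classical
  induction V using Finset.induction_on with
  | empty => exact ⟨1, one_ne_zero, fun v hv => absurd hv (Finset.notMem_empty v)⟩
  | insert v V _ ih =>
    obtain ⟨S, hS, hV⟩ := ih fun w hw => h w (Finset.mem_insert_of_mem hw)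
    obtain ⟨a, b, hb, hab⟩ := h v (Finset.mem_insert_self v V)
    refine ⟨S * b, mul_ne_zero hS hb, fun w hw => ?_⟩
    rcases Finset.mem_insert.1 hw with rfl | hw
    · exact dn_right α S b ⟨a, 1, by rw [pow_one, hab]⟩
    · exact dn_left α S b (hV w hw)

/-- two subrings of a field which are contained in a localisation of each other -/
theorem glue2 {A B F : Type} [CommRing A] [IsDomain A] [CommRing B] [IsDomain B] [Field F]
    (α : A →+* F) (β : B →+* F) (hα : Function.Injective α) (hβ : Function.Injective β) (S : A)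
    (G : B) (hS : S ≠ 0) (hG : G ≠ 0) (h1 : ∀ a : A, α a ∈ dn β G) (h2 : ∀ b : B, β b ∈ dn α S) :
    ∃ (s : A) (h : B), s ≠ 0 ∧ h ≠ 0 ∧ Nonempty (Localization.Away s ≃+* Localization.Away h) := by
  have hαS : α S ≠ 0 := fun h' => hS (hα (h'.trans (map_zero α).symm))
  have hβG : β G ≠ 0 := fun h' => hG (hβ (h'.trans (map_zero β).symm))
  obtain ⟨p, n, hp⟩ := h1 S
  obtain ⟨q, m, hq⟩ := h2 G
  have hp0 : p ≠ 0 := by
    rintro rfl
    rw [map_zero] at hp
    exact mul_ne_zero (pow_ne_zero n hβG) hαS hp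
  have hq0 : q ≠ 0 := by
    rintro rfl
    rw [map_zero] at hq
    exact mul_ne_zero (pow_ne_zero m hαS) hβG hq
  have key : ∀ {A' B' : Type} [CommRing A'] [CommRing B'] (α : A' →+* F) (β : B' →+* F)
      (S q : A') (G p : B') (n m : ℕ), β G ^ n * α S = β p → α S ^ m * β G = α q →
      (∀ a, α a ∈ dn β G) →
      (∀ a : A', ∃ (b : B') (N : ℕ), β (G * p) ^ N * α a = β b) ∧
      ∃ (b : B') (N : ℕ), β (G * p) ^ N = β b * α (S * q) := by
    intro A' B' _ _ α β S q G p n m hp hq h1
    constructor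
    · intro a
      obtain ⟨b, N, hb⟩ := h1 a
      refine ⟨p ^ N * b, N, ?_⟩
      rw [map_mul, map_mul, mul_pow, map_pow, ← hb]
      ring
    · refine ⟨G ^ ((m + 1) * (n + 1) - 1), m + 1, ?_⟩
      have h3 : (m + 1) * (n + 1) = ((m + 1) * (n + 1) - 1) + 1 := by
        have : 0 < (m + 1) * (n + 1) := by positivity
        omega
      rw [map_mul, map_mul, map_pow, ← hp, ← hq]
      calc (β G * (β G ^ n * α S)) ^ (m + 1) = β G ^ ((m + 1) * (n + 1)) * α S ^ (m + 1) := by
            rw [mul_pow, mul_pow, ← pow_mul, ← mul_assoc, ← pow_add]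
            congr 2
            ring
        _ = β G ^ ((m + 1) * (n + 1) - 1 + 1) * α S ^ (m + 1) := by rw [← h3]
        _ = β G ^ ((m + 1) * (n + 1) - 1) * (α S * (α S ^ m * β G)) := by
            rw [pow_succ, pow_succ (α S)]
            ring
  obtain ⟨k1, k2⟩ := key α β S q G p n m hp hq h1
  obtain ⟨k3, k4⟩ := key β α G p S q m n hq hp h2
  exact ⟨S * q, G * p, mul_ne_zero hS hq0, mul_ne_zero hG hp0,
    glue α β hα hβ (S * q) (G * p) (mul_ne_zero hS hq0) (mul_ne_zero hG hp0) k1 k2 k3 k4⟩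

/-! ### the coefficient ring -/

/-- polynomials over a subring -/
def ev {L : Type} [Field L] (D : Subalgebra ℤ L) : Polynomial D →+* RatFunc L :=
  (algebraMap (Polynomial L) (RatFunc L)).comp (Polynomial.mapRingHom (algebraMap D L))

theorem ev_inj {L : Type} [Field L] (D : Subalgebra ℤ L) : Function.Injective (ev D) := by
  intro p q hpq
  have h1 := IsFractionRing.injective (Polynomial L) (RatFunc L) hpq
  exact Polynomial.map_injective (algebraMap D L) Subtype.val_injective h1

theorem ev_lift {L : Type} [Field L] (D : Subalgebra ℤ L) (p : Polynomial L)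
    (hp : ∀ n, p.coeff n ∈ D) : ∃ q : Polynomial D, ev D q = algebraMap (Polynomial L) _ p := by
  have h1 : p ∈ Polynomial.lifts (algebraMap D L) := by
    rw [Polynomial.lifts_iff_coeff_lifts]
    intro n
    exact ⟨⟨p.coeff n, hp n⟩, rfl⟩
  obtain ⟨q, hq⟩ := (Polynomial.mem_lifts p).1 h1
  exact ⟨q, congrArg (algebraMap (Polynomial L) (RatFunc L)) hq⟩

/-- **(1)** the model `D[t]` -/
theorem model {C L : Type} [CommRing C] [IsDomain C] [Algebra.FiniteType ℤ C] [Field L]
    (α : C →+* RatFunc L) (hα : Function.Injective α)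
    (hfr : ∀ v : RatFunc L, ∃ a b : C, b ≠ 0 ∧ α b * v = α a) :
    ∃ D : Subalgebra ℤ L, Algebra.FiniteType ℤ D ∧ ∃ (s : C) (h : Polynomial D),
      s ≠ 0 ∧ h ≠ 0 ∧ Nonempty (Localization.Away s ≃+* Localization.Away h) := by
  classical
  obtain ⟨S₀, hS₀⟩ := (inferInstance : Algebra.FiniteType ℤ C).out
  let E : Finset L := S₀.biUnion fun c => (α c).num.coeffs ∪ (α c).denom.coeffs
  let D : Subalgebra ℤ L := Algebra.adjoin ℤ (E : Set L)
  have hD : ∀ c ∈ S₀, (∀ n, (α c).num.coeff n ∈ D) ∧ ∀ n, (α c).denom.coeff n ∈ D := by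
    intro c hc
    constructor
    · intro n
      by_cases h0 : (α c).num.coeff n = 0
      · rw [h0]
        exact zero_mem D
      · refine Algebra.subset_adjoin ?_
        exact Finset.mem_coe.2 (Finset.mem_biUnion.2 ⟨c, hc, Finset.mem_union_left _
          (Polynomial.coeff_mem_coeffs h0)⟩)
    · intro n
      by_cases h0 : (α c).denom.coeff n = 0
      · rw [h0]
        exact zero_mem D
      · refine Algebra.subset_adjoin ?_
        exact Finset.mem_coe.2 (Finset.mem_biUnion.2 ⟨c, hc, Finset.mem_union_right _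
          (Polynomial.coeff_mem_coeffs h0)⟩)
  -- denominators of the generators of `C`
  obtain ⟨G, hG0, hG⟩ := exists_den (ev D) (S₀.image α) (by
    intro v hv
    obtain ⟨c, hc, rfl⟩ := Finset.mem_image.1 hv
    obtain ⟨p, hp⟩ := ev_lift D _ (hD c hc).1
    obtain ⟨q, hq⟩ := ev_lift D _ (hD c hc).2
    have hq1 : algebraMap (Polynomial L) (RatFunc L) (α c).denom ≠ 0 := by
      intro h
      exact (α c).denom_ne_zero (IsFractionRing.injective (Polynomial L) (RatFunc L)
        (h.trans (map_zero _).symm))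
    refine ⟨p, q, ?_, ?_⟩
    · rintro rfl
      rw [map_zero] at hq
      exact hq1 hq.symm
    · rw [hp, hq]
      have h2 := RatFunc.num_div_denom (α c)
      rw [div_eq_iff hq1] at h2
      rw [h2, mul_comm])
  have h1 : ∀ a : C, α a ∈ dn (ev D) G := by
    have h2 : Algebra.adjoin ℤ (S₀ : Set C) ≤
        subalgebraOfSubring ((dn (ev D) G).comap α) := by
      refine Algebra.adjoin_le fun c hc => ?_
      exact hG _ (Finset.mem_image_of_mem α hc)
    intro a
    have h3 : a ∈ Algebra.adjoin ℤ (S₀ : Set C) := by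
      rw [hS₀]
      trivial
    exact h2 h3
  -- denominators of the coefficients
  obtain ⟨S, hS0, hS⟩ := exists_den α
    (insert (RatFunc.X : RatFunc L) (E.image (algebraMap L (RatFunc L)))) fun v _ => hfr v
  have h4 : ∀ d : D, algebraMap L (RatFunc L) d ∈ dn α S := by
    have h2 : D ≤ subalgebraOfSubring ((dn α S).comap (algebraMap L (RatFunc L))) := by
      refine Algebra.adjoin_le fun c hc => ?_
      exact hS _ (Finset.mem_insert_of_mem (Finset.mem_image_of_mem _ hc))
    intro d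
    exact h2 d.2
  have h2 : ∀ b : Polynomial D, ev D b ∈ dn α S := by
    intro b
    rw [b.as_sum_range_C_mul_X_pow, map_sum]
    refine Subring.sum_mem _ fun i _ => ?_
    rw [map_mul, map_pow]
    refine Subring.mul_mem _ ?_ (Subring.pow_mem _ ?_ i)
    · have h5 : ev D (Polynomial.C (b.coeff i)) = algebraMap L (RatFunc L) (b.coeff i) := by
        show algebraMap (Polynomial L) (RatFunc L)
          (Polynomial.map (algebraMap D L) (Polynomial.C (b.coeff i))) = _
        rw [Polynomial.map_C, RatFunc.algebraMap_C]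
        rfl
      rw [h5]
      exact h4 _
    · have h5 : ev D (Polynomial.X) = RatFunc.X := by
        show algebraMap (Polynomial L) (RatFunc L)
          (Polynomial.map (algebraMap D L) Polynomial.X) = _
        rw [Polynomial.map_X, RatFunc.algebraMap_X]
      rw [h5]
      exact hS _ (Finset.mem_insert_self _ _)
  obtain ⟨s, h, hs, hh, e⟩ := glue2 α (ev D) hα (ev_inj D) S G hS0 hG0 h1 h2
  exact ⟨D, (Subalgebra.fg_iff_finiteType D).1 (Subalgebra.fg_adjoin_finset E), s, h, hs, hh, e⟩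

/-! ### rings all of whose residue fields have Kronecker dimension at most `d` -/

theorem kr_spec {d : ℕ} {E : Type} [CommRing E]
    (h : ∀ (P : Ideal E) [P.IsPrime], KrLe d (FractionRing (E ⧸ P))) : Kr d (KTX.Sp E) := by
  intro x
  obtain ⟨e⟩ := KGT.frac_res x.asIdeal
  let e' : FractionRing (E ⧸ x.asIdeal) ≃+* (KTX.Sp E).residueField x :=
    e.trans (Scheme.Spec.residueFieldIso (CommRingCat.of E) x).symm.commRingCatIsoToRingEquiv
  exact krLe_mono (e'.symm : (KTX.Sp E).residueField x →+* FractionRing (E ⧸ x.asIdeal))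
    (h x.asIdeal)

theorem low_ring {𝒮 : (G : Type 1) → [AddCommGroup G] → Prop} {d : ℕ} (hLow : Low 𝒮 d)
    {E : Type} [CommRing E] [Algebra.FiniteType ℤ E]
    (h : ∀ (P : Ideal E) [P.IsPrime], KrLe d (FractionRing (E ⧸ P))) (n : ℕ) :
    𝒮 (KX n (KTX.Sp E)) :=
  hLow _ (KGT.w_ft (k := ℤ) (C := E)) (kr_spec h) n

theorem ft_int {A : Type} [CommRing A] (i j : Algebra ℤ A) (h : @Algebra.FiniteType ℤ A _ _ i) :
    @Algebra.FiniteType ℤ A _ _ j := by
  rwa [Subsingleton.elim j i]

theorem ft_poly (D : Type) [CommRing D] [Algebra.FiniteType ℤ D] :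
    @Algebra.FiniteType ℤ (Polynomial D) _ _ (Ring.toIntAlgebra _) :=
  ft_int Polynomial.algebraOfAlgebra _ (Algebra.FiniteType.trans (S := D) inferInstance
    inferInstance)

theorem ft_quot {A : Type} [CommRing A] (hA : @Algebra.FiniteType ℤ A _ _ (Ring.toIntAlgebra _))
    (h : A) : @Algebra.FiniteType ℤ (A ⧸ Ideal.span {h}) _ _ (Ring.toIntAlgebra _) :=
  Algebra.FiniteType.of_surjective (Ideal.Quotient.mk (Ideal.span {h})).toIntAlgHom
    Ideal.Quotient.mk_surjective

/-- finitely generated subrings of a field -/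
theorem low_dom (hDL : St_DL) {𝒮 : (G : Type 1) → [AddCommGroup G] → Prop} {d : ℕ}
    (hLow : Low 𝒮 d) {A L : Type} [CommRing A] [IsDomain A] [Algebra.FiniteType ℤ A] [Field L]
    (g : A →+* L) (hg : Function.Injective g) (hL : KrLe d L) (m : ℕ) :
    𝒮 (KX m (KTX.Sp A)) := by
  refine low_ring hLow (fun P _ => ?_) m
  by_cases hP : P = ⊥
  · subst hP
    have hi : Function.Injective (g.comp
        (RingEquiv.quotientBot A : (A ⧸ (⊥ : Ideal A)) →+* A)) :=
      hg.comp (RingEquiv.quotientBot A).injective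
    exact krLe_mono (IsFractionRing.lift hi) hL
  · obtain ⟨a, haP, ha⟩ := Submodule.exists_mem_ne_zero_of_ne_bot hP
    exact dl_quot hDL g hg (krLe_succ hL) (RingHom.id A) Function.surjective_id P ⟨a, ha, haP⟩

/-- hypersurfaces in the spectrum of a finitely generated subring of a field -/
theorem low_quot (hDL : St_DL) {𝒮 : (G : Type 1) → [AddCommGroup G] → Prop} {d : ℕ}
    (hLow : Low 𝒮 d) {A F : Type} [CommRing A] [IsDomain A] [Field F]
    (hA : @Algebra.FiniteType ℤ A _ _ (Ring.toIntAlgebra _))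
    (g : A →+* F) (hg : Function.Injective g) (hF : KrLe (d + 1) F) (h : A) (hh : h ≠ 0) (m : ℕ) :
    𝒮 (KX m (KTX.Sp (A ⧸ Ideal.span {h}))) := by
  haveI := ft_quot hA h
  refine low_ring hLow (fun P _ => ?_) m
  refine dl_quot hDL g hg hF (Ideal.Quotient.mk (Ideal.span {h}))
    Ideal.Quotient.mk_surjective P ⟨h, hh, ?_⟩
  have h0 : Ideal.Quotient.mk (Ideal.span {h}) h = 0 :=
    Ideal.Quotient.eq_zero_iff_mem.2 (Ideal.mem_span_singleton_self h)
  rw [h0]
  exact zero_mem P

/-- polynomial rings with one element inverted -/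
theorem poly_loc {𝒮 : (G : Type 1) → [AddCommGroup G] → Prop} (h𝒮 : SerreClass 𝒮)
    {A : Type} [CommRing A] [IsNoetherianRing A] (hD : ∀ m : ℕ, 𝒮 (KX m (KTX.Sp A)))
    (h : Polynomial A) (hE : ∀ m : ℕ, 𝒮 (KX m (KTX.Sp (Polynomial A ⧸ Ideal.span {h})))) (n : ℕ) :
    𝒮 (KX n (KTX.Sp (Localization.Away h))) := by
  haveI : IsNoetherianRing (Localization.Away h) :=
    IsLocalization.isNoetherianRing (Submonoid.powers h) (Localization.Away h) inferInstance
  obtain ⟨T, G, k1, k2, k3⟩ := KGT.real_deg h𝒮.serre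
  have h1 : GTH.SFG G 𝒮 n (Polynomial A) :=
    (GTH.SFG.poly h𝒮.serre).1 ((k3 n A).2 fun m _ => hD m)
  have h2 : GTH.SFG G 𝒮 n (Polynomial A ⧸ Ideal.span {h}) :=
    (k3 n _).2 fun m _ => hE m
  have h3 : GTH.SFG G 𝒮 n (Localization.Away h) :=
    GTH.SFG.loc h𝒮.serre (GTH.isLoc_std h) h1 h2
  exact (k3 n _).1 h3 n le_rfl

end K4

/-- **K4** -/
theorem thm_K4 (hDL : St_DL) : St_K4 := by
  intro 𝒮 h𝒮 d hLow κ L _ _ he hL
  obtain ⟨e⟩ := he
  intro C _ _ _ hc
  obtain ⟨c⟩ := hc
  let ce : FractionRing C ≃+* RatFunc L := c.trans e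
  let α : C →+* RatFunc L :=
    (ce : FractionRing C →+* RatFunc L).comp (algebraMap C (FractionRing C))
  have hα : Function.Injective α :=
    ce.injective.comp (IsFractionRing.injective C (FractionRing C))
  have hfr : ∀ v : RatFunc L, ∃ a b : C, b ≠ 0 ∧ α b * v = α a := by
    intro v
    obtain ⟨w, rfl⟩ := ce.surjective v
    obtain ⟨a, b, hb, rfl⟩ := IsFractionRing.div_surjective (A := C) w
    refine ⟨a, b, nonZeroDivisors.ne_zero hb, ?_⟩
    have hb0 : algebraMap C (FractionRing C) b ≠ 0 := fun h =>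
      nonZeroDivisors.ne_zero hb (IsFractionRing.injective C (FractionRing C)
        (h.trans (map_zero _).symm))
    show ce (algebraMap C (FractionRing C) b) * ce _ = ce (algebraMap C (FractionRing C) a)
    rw [← map_mul, mul_div_cancel₀ _ hb0]
  obtain ⟨D, hD, s, h, hs, hh, ⟨f⟩⟩ := K4.model α hα hfr
  refine ⟨s, hs, fun n => ?_⟩
  haveI := hD
  haveI : IsNoetherianRing C := Algebra.FiniteType.isNoetherianRing ℤ C
  haveI : IsNoetherianRing D := Algebra.FiniteType.isNoetherianRing ℤ D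
  haveI : IsNoetherianRing (Localization.Away s) :=
    IsLocalization.isNoetherianRing (Submonoid.powers s) (Localization.Away s) inferInstance
  haveI : IsNoetherianRing (Localization.Away h) :=
    IsLocalization.isNoetherianRing (Submonoid.powers h) (Localization.Away h) inferInstance
  obtain ⟨g⟩ := KGT.kx_equiv n f
  exact (KGT.serre_iff h𝒮.serre g).2 (K4.poly_loc h𝒮
    (K4.low_dom hDL hLow (algebraMap D L) Subtype.val_injective hL) h
    (K4.low_quot hDL hLow (K4.ft_poly D) (K4.ev D) (K4.ev_inj D) (K4.krLe_ratFunc hL) h hh) n)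

end Pool.Agent.BTF
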