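import Pool.Agent.BTF.St2
import Pool.Agent.KGT.WFin
import Pool.Agent.KIN.H2

/-!
# BTF, module LP: `K'_n` of the projective line

MP_e17fa799_al (captain helper21, this part helper65); helper43.
-/

set_option autoImplicit false
set_option linter.style.haveILetI false

noncomputable section

namespace Pool.Agent.BTF

open CategoryTheory CategoryTheory.Limits AlgebraicGeometry Pool.Agent.KPR Pool.Agent.KTX
open Pool.Agent.KGT.W (SerreClass FinType)

namespace LP

open Pool.Agent.KIN (h2_noeth)

/-- the pull-back to the affine line is bijective -/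
theorem hom_bij (t : STh.{1}) (D : Type) [CommRing D] [IsNoetherianRing D]
    [Flat (Sm (Polynomial.C : D →+* Polynomial D))] :
    Function.Bijective (t.pull (Sm (Polynomial.C : D →+* Polynomial D))) := by
  haveI : IsNoetherian (Sp D) := inferInstance
  exact t.hom D (Sm (Polynomial.C : D →+* Polynomial D)) (𝟙 _) (𝟙 _)
    (IsPullback.of_vert_isIso ⟨by rw [Category.comp_id, Category.id_comp]⟩)

theorem pull_congr (t : STh.{1}) {Y Z : Scheme.{0}} {f g : Y ⟶ Z} [Flat f] [Flat g] (h : f = g)
    (a : t.T Z) : t.pull f a = t.pull g a := by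
  subst h
  rfl

end LP

open LP Pool.Agent.KIN in
theorem thm_LP : St_LP := by
  intro 𝒮 h𝒮 D _ _ _ P p a b s hP n
  have hS := h𝒮.serre
  haveI := hP.flat
  haveI := hP.opa
  haveI := hP.cls
  haveI := hP.lft
  haveI := hP.qc
  haveI : IsNoetherian P := h2_noeth p
  haveI : IsNoetherian (Sp (Polynomial D)) := inferInstance
  haveI hfl : Flat (Sm (Polynomial.C : D →+* Polynomial D)) := by
    rw [← hP.ap]
    infer_instance
  obtain ⟨L, G, k1, k2, k3⟩ := Pool.Agent.KGT.real_deg hS
  rw [← k1, ← k1]
  have hb := hom_bij (L.th n) D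
  have hc : ∀ x : (L.th n).T (Sp D), (L.th n).pull a ((L.th n).pull p x)
      = (L.th n).pull (Sm (Polynomial.C : D →+* Polynomial D)) x := fun x => by
    rw [← (L.th n).pull_comp]
    exact pull_congr _ hP.ap x
  constructor
  · intro h
    refine hS.of_inj ((L.th n).pull p) (fun x hx => ?_) h
    apply hb.1
    rw [← hc, hx, map_zero, map_zero]
  · intro h
    have h2 : 𝒮 ((L.th n).T (Sp (Polynomial D))) := (hS.of_bij _ hb).1 h
    refine hS.exact _ _ _ ((L.th n).push s) ((L.th n).pull a) (fun x => ⟨fun hx => ?_, ?_⟩) h h2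
    · exact (L.th n).ex s a hP.compl x hx
    · rintro ⟨y, rfl⟩
      exact (L.th n).ex0 s a hP.compl y

end Pool.Agent.BTF
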