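import Pool.Agent.BTF.St5
import Pool.Agent.BTF.LP

/-!
# BTF, module LPM: `K'_n` of the projective line is `K'_n(D) ⊕ K'_n(D)`

MP_e17fa799_al (captain helper21, this part helper65); helper43.
-/

set_option autoImplicit false
set_option linter.style.haveILetI false

noncomputable section

namespace Pool.Agent.BTF

open CategoryTheory CategoryTheory.Limits AlgebraicGeometry Pool.Agent.KPR Pool.Agent.KTX

namespace LPM

open Pool.Agent.KIN (h2_noeth)

/-- the projective line for a graded theory -/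
theorem line (L : LThy.{1}) (D : Type) [CommRing D] [IsDomain D] [IsNoetherianRing D]
    (P : Scheme.{0}) (p : P ⟶ Sp D) (a b : Sp (Polynomial D) ⟶ P) (s : Sp D ⟶ P)
    (hP : IsLine D P p a b s) (n : ℤ) :
    Nonempty ((L.th n).T P ≃+ (L.th n).T (Sp D) × (L.th n).T (Sp D)) := by
  haveI := hP.flat
  haveI := hP.opa
  haveI := hP.cls
  haveI := hP.lft
  haveI := hP.qc
  haveI : IsNoetherian P := h2_noeth p
  haveI : IsNoetherian (Sp (Polynomial D)) := inferInstance
  haveI hfl : Flat (Sm (Polynomial.C : D →+* Polynomial D)) := by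
    rw [← hP.ap]
    infer_instance
  have hb := fun m => LP.hom_bij (L.th m) D
  have hc : ∀ (m : ℤ) (x : (L.th m).T (Sp D)), (L.th m).pull a ((L.th m).pull p x)
      = (L.th m).pull (Sm (Polynomial.C : D →+* Polynomial D)) x := fun m x => by
    rw [← (L.th m).pull_comp]
    exact LP.pull_congr _ hP.ap x
  have hsur : ∀ (m : ℤ) (y : (L.th m).T (Sp (Polynomial D))), ∃ x, (L.th m).pull a x = y := by
    intro m y
    obtain ⟨x, hx⟩ := (hb m).2 y
    exact ⟨(L.th m).pull p x, (hc m x).trans hx⟩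
  have hinj : ∀ z : (L.th n).T (Sp D), (L.th n).push s z = 0 → z = 0 := by
    intro z hz
    obtain ⟨u, hu⟩ := L.exZ n s a hP.compl z hz
    obtain ⟨x, rfl⟩ := hsur (n + 1) u
    rw [← hu]
    exact L.bd_pull n s a hP.compl x
  let F : (L.th n).T (Sp D) × (L.th n).T (Sp D) →+ (L.th n).T P :=
    AddMonoidHom.coprod ((L.th n).push s) ((L.th n).pull p)
  have hF : ∀ z x, F (z, x) = (L.th n).push s z + (L.th n).pull p x := fun z x => rfl
  have hF1 : Function.Injective F := by
    rw [injective_iff_map_eq_zero]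
    rintro ⟨z, x⟩ h
    rw [hF] at h
    have h1 : (L.th n).pull (Sm (Polynomial.C : D →+* Polynomial D)) x = 0 := by
      have h2 := congrArg ((L.th n).pull a) h
      rw [map_add, (L.th n).ex0 s a hP.compl z, zero_add, hc, map_zero] at h2
      exact h2
    have h3 : x = 0 := (hb n).1 (h1.trans (map_zero _).symm)
    subst h3
    rw [map_zero, add_zero] at h
    rw [hinj z h]
    rfl
  have hF2 : Function.Surjective F := by
    intro y
    obtain ⟨x, hx⟩ := (hb n).2 ((L.th n).pull a y)
    obtain ⟨z, hz⟩ := (L.th n).ex s a hP.compl (y - (L.th n).pull p x) (by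
      rw [map_sub, hc, hx, sub_self])
    exact ⟨(z, x), by rw [hF, hz, sub_add_cancel]⟩
  exact ⟨(AddEquiv.ofBijective F ⟨hF1, hF2⟩).symm⟩

end LPM

/-- [LPM] -/
theorem thm_LPM : St_LPM := by
  intro D _ _ _ P p a b s hP n
  obtain ⟨L, G, e1, e2, e3⟩ := Pool.Agent.KGT.real Pool.Agent.KQH.all_HOMK
  obtain ⟨c⟩ := LPM.line L D P p a b s hP n
  obtain ⟨u⟩ := e1 n P
  obtain ⟨v⟩ := e1 n (Sp D)
  exact ⟨u.symm.trans (c.trans (AddEquiv.prodCongr v v))⟩

end Pool.Agent.BTF
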