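import Pool.Agent.BTF.St2
import Pool.Agent.KSS.Q3a

/-!
# BTF, PL: the projective line over an affine scheme
-/

set_option autoImplicit false

noncomputable section

namespace Pool.Agent.BTF

open CategoryTheory CategoryTheory.Limits AlgebraicGeometry Pool.Agent.KPR Pool.Agent.KTX
open Pool.Agent.KGT.W (SerreClass FinType)
open HomogeneousLocalization

namespace PL

attribute [local instance] MvPolynomial.gradedAlgebra

section alg

variable {D : Type} [CommRing D]

theorem ev2 {R : Type} [CommRing R] (φ : D →+* R) (u v : R) (a : MvPolynomial (Fin 2) D) :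
    MvPolynomial.eval₂Hom φ ![u, v] a =
      ∑ m ∈ a.support, φ (MvPolynomial.coeff m a) * (u ^ m 0 * v ^ m 1) := by
  rw [MvPolynomial.coe_eval₂Hom, MvPolynomial.eval₂_eq']
  refine Finset.sum_congr rfl fun m _ => ?_
  rw [Fin.prod_univ_two]
  rfl

theorem deg_two (m : Fin 2 →₀ ℕ) : m.degree = m 0 + m 1 := by
  rw [Finsupp.degree_eq_sum, Fin.sum_univ_two]

theorem supp_deg {a : MvPolynomial (Fin 2) D} {d : ℕ} (ha : a.IsHomogeneous d)
    (m : Fin 2 →₀ ℕ) (hm : m ∈ a.support) : m 0 + m 1 = d := by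
  rw [← deg_two]
  have h1 := ha (MvPolynomial.mem_support_iff.1 hm)
  rw [Finsupp.degree_eq_weight_one]
  exact h1

theorem inj_a {a : MvPolynomial (Fin 2) D} {d : ℕ} (ha : a.IsHomogeneous d)
    (h : MvPolynomial.eval₂Hom (Polynomial.C : D →+* Polynomial D) ![1, Polynomial.X] a = 0) :
    a = 0 := by
  ext m
  rw [MvPolynomial.coeff_zero]
  by_contra hm
  have hm' : m ∈ a.support := MvPolynomial.mem_support_iff.2 hm
  have h1 := congrArg (fun q => Polynomial.coeff q (m 1)) h
  rw [ev2] at h1
  simp only [one_pow, one_mul, Polynomial.finsetSum_coeff, Polynomial.coeff_C_mul_X_pow,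
    Polynomial.coeff_zero] at h1
  rw [Finset.sum_eq_single m] at h1
  · rw [if_pos rfl] at h1
    exact hm h1
  · intro m' hm1 hne
    rw [if_neg]
    intro h2
    apply hne
    have h3 := supp_deg ha m hm'
    have h4 := supp_deg ha m' hm1
    ext j
    fin_cases j
    · change m' 0 = m 0
      omega
    · exact h2.symm
  · intro h2
    exact absurd hm' h2

theorem inj_b {a : MvPolynomial (Fin 2) D} {d : ℕ} (ha : a.IsHomogeneous d)
    (h : MvPolynomial.eval₂Hom (Polynomial.C : D →+* Polynomial D) ![Polynomial.X, 1] a = 0) :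
    a = 0 := by
  ext m
  rw [MvPolynomial.coeff_zero]
  by_contra hm
  have hm' : m ∈ a.support := MvPolynomial.mem_support_iff.2 hm
  have h1 := congrArg (fun q => Polynomial.coeff q (m 0)) h
  rw [ev2] at h1
  simp only [one_pow, mul_one, Polynomial.finsetSum_coeff, Polynomial.coeff_C_mul_X_pow,
    Polynomial.coeff_zero] at h1
  rw [Finset.sum_eq_single m] at h1
  · rw [if_pos rfl] at h1
    exact hm h1
  · intro m' hm1 hne
    rw [if_neg]
    intro h2
    apply hne
    have h3 := supp_deg ha m hm'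
    have h4 := supp_deg ha m' hm1
    ext j
    fin_cases j
    · exact h2.symm
    · change m' 1 = m 1
      omega
  · intro h2
    exact absurd hm' h2

/-- the homogeneity -/
theorem hom_id {R : Type} [Field R] (φ : D →+* R) (t : R) (ht : t ≠ 0)
    {a : MvPolynomial (Fin 2) D} {d : ℕ} (ha : a.IsHomogeneous d) :
    MvPolynomial.eval₂Hom φ ![1, t] a = t ^ d * MvPolynomial.eval₂Hom φ ![t⁻¹, 1] a := by
  rw [ev2, ev2, Finset.mul_sum]
  refine Finset.sum_congr rfl fun m hm => ?_
  have h1 := supp_deg ha m hm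
  rw [← h1, pow_add, one_pow, one_pow, inv_pow]
  field_simp

end alg

variable (D : Type) [CommRing D]

/-- the graded ring `D[x_0, x_1]` -/
abbrev HS : ℕ → Submodule D (MvPolynomial (Fin 2) D) := MvPolynomial.homogeneousSubmodule (Fin 2) D

theorem X_mem (i : Fin 2) : (MvPolynomial.X i : MvPolynomial (Fin 2) D) ∈ HS D 1 :=
  MvPolynomial.isHomogeneous_X _ _

/-- the projective line -/
abbrev P1 : Scheme.{0} := Proj (HS D)

/-- the structure morphism -/
def str : P1 D ⟶ Sp D := Proj.toSpecZero (HS D) ≫ Spec.map (CommRingCat.ofHom (algebraMap D (HS D 0)))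

/-- `x_0 ↦ 1`, `x_1 ↦ t` -/
def tha : MvPolynomial (Fin 2) D →+* Polynomial D :=
  MvPolynomial.eval₂Hom (Polynomial.C : D →+* Polynomial D) ![1, Polynomial.X]

/-- `x_0 ↦ t`, `x_1 ↦ 1` -/
def thb : MvPolynomial (Fin 2) D →+* Polynomial D :=
  MvPolynomial.eval₂Hom (Polynomial.C : D →+* Polynomial D) ![Polynomial.X, 1]

theorem tha_X0 : tha D (MvPolynomial.X 0) = 1 := by simp [tha]
theorem tha_X1 : tha D (MvPolynomial.X 1) = Polynomial.X := by simp [tha]
theorem thb_X0 : thb D (MvPolynomial.X 0) = Polynomial.X := by simp [thb]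
theorem thb_X1 : thb D (MvPolynomial.X 1) = 1 := by simp [thb]
theorem tha_C (c : D) : tha D (MvPolynomial.C c) = Polynomial.C c := by simp [tha]
theorem thb_C (c : D) : thb D (MvPolynomial.C c) = Polynomial.C c := by simp [thb]

theorem tha_surj : Function.Surjective (tha D) := by
  intro q
  refine ⟨Polynomial.eval₂ MvPolynomial.C (MvPolynomial.X 1) q, ?_⟩
  rw [Polynomial.hom_eval₂, tha_X1]
  have h1 : (tha D).comp MvPolynomial.C = Polynomial.C := RingHom.ext (tha_C D)
  rw [h1, Polynomial.eval₂_C_X]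

theorem thb_surj : Function.Surjective (thb D) := by
  intro q
  refine ⟨Polynomial.eval₂ MvPolynomial.C (MvPolynomial.X 0) q, ?_⟩
  rw [Polynomial.hom_eval₂, thb_X0]
  have h1 : (thb D).comp MvPolynomial.C = Polynomial.C := RingHom.ext (thb_C D)
  rw [h1, Polynomial.eval₂_C_X]

/-- the chart `a` -/
def cha : Away (HS D) (MvPolynomial.X 0 : MvPolynomial (Fin 2) D) →+* Polynomial D :=
  KSS.Q3a.chart (HS D) (tha D) (tha_X0 D)

/-- the chart `b` -/
def chb : Away (HS D) (MvPolynomial.X 1 : MvPolynomial (Fin 2) D) →+* Polynomial D :=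
  KSS.Q3a.chart (HS D) (thb D) (thb_X1 D)

theorem cha_bij : Function.Bijective (cha D) := by
  refine ⟨?_, KSS.Q3a.chart_surj (HS D) (tha D) (tha_X0 D) (X_mem D 0) (tha_surj D)⟩
  rw [injective_iff_map_eq_zero]
  intro y hy
  obtain ⟨n, q, hq, rfl⟩ := Away.mk_surjective (HS D) (X_mem D 0) y
  have h1 := KSS.Q3a.chart_mk (HS D) (tha D) (tha_X0 D) (X_mem D 0) n q hq
  have h2 : tha D q = 0 := h1.symm.trans hy
  have h3 : q.IsHomogeneous (n • 1) := hq
  have h4 : q = 0 := inj_a h3 h2
  subst h4
  apply HomogeneousLocalization.val_injective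
  rw [Away.val_mk, HomogeneousLocalization.val_zero, Localization.mk_zero]

theorem chb_bij : Function.Bijective (chb D) := by
  refine ⟨?_, KSS.Q3a.chart_surj (HS D) (thb D) (thb_X1 D) (X_mem D 1) (thb_surj D)⟩
  rw [injective_iff_map_eq_zero]
  intro y hy
  obtain ⟨n, q, hq, rfl⟩ := Away.mk_surjective (HS D) (X_mem D 1) y
  have h1 := KSS.Q3a.chart_mk (HS D) (thb D) (thb_X1 D) (X_mem D 1) n q hq
  have h2 : thb D q = 0 := h1.symm.trans hy
  have h3 : q.IsHomogeneous (n • 1) := hq
  have h4 : q = 0 := inj_b h3 h2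
  subst h4
  apply HomogeneousLocalization.val_injective
  rw [Away.val_mk, HomogeneousLocalization.val_zero, Localization.mk_zero]

/-- the chart `a` as a morphism -/
def ca : Sp (Polynomial D) ⟶ P1 D :=
  Sm (cha D) ≫ Proj.awayι (HS D) (MvPolynomial.X 0) (X_mem D 0) one_pos

/-- the chart `b` as a morphism -/
def cb : Sp (Polynomial D) ⟶ P1 D :=
  Sm (chb D) ≫ Proj.awayι (HS D) (MvPolynomial.X 1) (X_mem D 1) one_pos

theorem iso_a : IsIso (Sm (cha D)) := by
  have h1 : IsIso (CommRingCat.ofHom (cha D)) := by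
    rw [CategoryTheory.ConcreteCategory.isIso_iff_bijective]
    exact cha_bij D
  infer_instance

theorem iso_b : IsIso (Sm (chb D)) := by
  have h1 : IsIso (CommRingCat.ofHom (chb D)) := by
    rw [CategoryTheory.ConcreteCategory.isIso_iff_bijective]
    exact chb_bij D
  infer_instance

theorem ca_str : ca D ≫ str D = Sm (Polynomial.C : D →+* Polynomial D) := by
  unfold ca str
  rw [Category.assoc, Proj.awayι_toSpecZero_assoc, ← Spec.map_comp, ← Spec.map_comp,
    ← CommRingCat.ofHom_comp, ← CommRingCat.ofHom_comp]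
  refine congrArg (fun φ : D →+* Polynomial D => Sm φ) (RingHom.ext fun r => ?_)
  rw [RingHom.comp_apply, RingHom.comp_apply]
  have h1 := KSS.Q3a.chart_zero (HS D) (tha D) (tha_X0 D) (X_mem D 0) (algebraMap D (HS D 0) r)
  exact h1.trans (tha_C D r)

theorem cb_str : cb D ≫ str D = Sm (Polynomial.C : D →+* Polynomial D) := by
  unfold cb str
  rw [Category.assoc, Proj.awayι_toSpecZero_assoc, ← Spec.map_comp, ← Spec.map_comp,
    ← CommRingCat.ofHom_comp, ← CommRingCat.ofHom_comp]
  refine congrArg (fun φ : D →+* Polynomial D => Sm φ) (RingHom.ext fun r => ?_)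
  rw [RingHom.comp_apply, RingHom.comp_apply]
  have h1 := KSS.Q3a.chart_zero (HS D) (thb D) (thb_X1 D) (X_mem D 1) (algebraMap D (HS D 0) r)
  exact h1.trans (thb_C D r)

theorem opens_a : Set.range (ca D) =
    (Proj.basicOpen (HS D) (MvPolynomial.X 0) : Set (P1 D)) := by
  have := iso_a D
  rw [← Proj.opensRange_awayι (HS D) (MvPolynomial.X 0) (X_mem D 0) one_pos]
  have h1 := Scheme.Hom.opensRange_comp_of_isIso (Sm (cha D))
    (Proj.awayι (HS D) (MvPolynomial.X 0) (X_mem D 0) one_pos)
  exact congrArg (fun U : (P1 D).Opens => (U : Set (P1 D))) h1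

theorem opens_b : Set.range (cb D) =
    (Proj.basicOpen (HS D) (MvPolynomial.X 1) : Set (P1 D)) := by
  have := iso_b D
  rw [← Proj.opensRange_awayι (HS D) (MvPolynomial.X 1) (X_mem D 1) one_pos]
  have h1 := Scheme.Hom.opensRange_comp_of_isIso (Sm (chb D))
    (Proj.awayι (HS D) (MvPolynomial.X 1) (X_mem D 1) one_pos)
  exact congrArg (fun U : (P1 D).Opens => (U : Set (P1 D))) h1

theorem sup_top : ⨆ k : Fin 2, Proj.basicOpen (HS D) (MvPolynomial.X k) = ⊤ := by
  refine Proj.iSup_basicOpen_eq_top' (HS D)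
    (fun k : Fin 2 => (MvPolynomial.X k : MvPolynomial (Fin 2) D))
    (fun k => ⟨1, X_mem D k⟩) ?_
  rw [eq_top_iff]
  intro f _
  have h1 : f ∈ Algebra.adjoin D (Set.range
      (fun k : Fin 2 => (MvPolynomial.X k : MvPolynomial (Fin 2) D))) := by
    rw [MvPolynomial.adjoin_range_X]
    trivial
  induction h1 using Algebra.adjoin_induction with
  | mem x hx => exact Algebra.subset_adjoin hx
  | algebraMap r =>
    exact (Algebra.adjoin (HS D 0) _).algebraMap_mem
      (⟨MvPolynomial.C r, MvPolynomial.isHomogeneous_C _ _⟩ : HS D 0)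
  | add x y _ _ hx hy => exact add_mem (hx trivial) (hy trivial)
  | mul x y _ _ hx hy => exact mul_mem (hx trivial) (hy trivial)

theorem cover (x : P1 D) : x ∈ Set.range (ca D) ∨ x ∈ Set.range (cb D) := by
  have h2 : x ∈ ⨆ k : Fin 2, Proj.basicOpen (HS D) (MvPolynomial.X k) := by
    rw [sup_top]
    trivial
  obtain ⟨k, hk⟩ := TopologicalSpace.Opens.mem_iSup.mp h2
  fin_cases k
  · left
    rw [opens_a]
    exact hk
  · right
    rw [opens_b]
    exact hk


/-! ### properness -/

theorem bij_zero : Function.Bijective (algebraMap D (HS D 0)) := by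
  constructor
  · intro a b h
    have h1 := congrArg (Subtype.val) h
    exact MvPolynomial.C_injective _ _ h1
  · intro x
    have hx : (x : MvPolynomial (Fin 2) D).IsHomogeneous 0 := x.2
    have h1 := hx.totalDegree_le
    have h2 : (x : MvPolynomial (Fin 2) D) =
        MvPolynomial.C (MvPolynomial.coeff 0 (x : MvPolynomial (Fin 2) D)) :=
      MvPolynomial.totalDegree_eq_zero_iff_eq_C.mp (by omega)
    exact ⟨MvPolynomial.coeff 0 (x : MvPolynomial (Fin 2) D), Subtype.ext h2.symm⟩

theorem ft_zero : Algebra.FiniteType (HS D 0) (MvPolynomial (Fin 2) D) := by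
  have h : Algebra.FiniteType D (MvPolynomial (Fin 2) D) := inferInstance
  have h' : IsScalarTower D (HS D 0) (MvPolynomial (Fin 2) D) := by
    refine IsScalarTower.of_algebraMap_eq (R := D) (S := HS D 0) ?_
    intro x
    rfl
  exact Algebra.FiniteType.of_restrictScalars_finiteType D _ _

theorem proper : IsProper (str D) := by
  have h1 : IsIso (CommRingCat.ofHom (algebraMap D (HS D 0))) := by
    rw [CategoryTheory.ConcreteCategory.isIso_iff_bijective]
    exact bij_zero D
  have h3 := ft_zero D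
  have h2 : IsProper (Proj.toSpecZero (HS D)) := inferInstance
  unfold str
  infer_instance

/-! ### flatness -/

theorem flat_C : Flat (Sm (Polynomial.C : D →+* Polynomial D)) := by
  rw [HasRingHomProperty.Spec_iff (P := @Flat)]
  change (algebraMap D (Polynomial D)).Flat
  rw [RingHom.flat_algebraMap_iff]
  infer_instance

theorem flat_open {X Y S : Scheme.{0}} (j : X ⟶ Y) (p : Y ⟶ S) [IsOpenImmersion j] (U : Y.Opens)
    (hU : Set.range j = (U : Set Y)) (h : Flat (j ≫ p)) : Flat (U.ι ≫ p) := by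
  have h1 : Set.range j = Set.range U.ι := by
    rw [hU]
    exact U.range_ι.symm
  have h2 := IsOpenImmersion.isoOfRangeEq_inv_fac j U.ι h1
  rw [← h2, Category.assoc]
  infer_instance

theorem flat_str : Flat (str D) := by
  have i1 := iso_a D
  have i2 := iso_b D
  have i3 : IsOpenImmersion (ca D) := by
    unfold ca
    infer_instance
  have i4 : IsOpenImmersion (cb D) := by
    unfold cb
    infer_instance
  rw [IsZariskiLocalAtSource.iff_of_iSup_eq_top (P := @Flat) _ (sup_top D)]
  intro k
  have hC := flat_C D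
  fin_cases k
  · refine flat_open (ca D) (str D) _ (opens_a D) ?_
    rw [ca_str]
    exact hC
  · refine flat_open (cb D) (str D) _ (opens_b D) ?_
    rw [cb_str]
    exact hC


/-! ### the section at infinity -/

/-- the section at infinity -/
def sec : Sp D ⟶ P1 D := Sm (Polynomial.evalRingHom (0 : D)) ≫ cb D

theorem sec_str : sec D ≫ str D = 𝟙 _ := by
  unfold sec
  rw [Category.assoc, cb_str, ← Spec.map_comp, ← CommRingCat.ofHom_comp]
  have h1 : (Polynomial.evalRingHom (0 : D)).comp (Polynomial.C : D →+* Polynomial D) =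
      RingHom.id D := RingHom.ext fun r => by simp
  rw [h1]
  exact Spec.map_id _

theorem sec_closed : IsClosedImmersion (sec D) := by
  have h1 := proper D
  have h2 : IsClosedImmersion (sec D ≫ str D) := by
    rw [sec_str]
    infer_instance
  exact IsClosedImmersion.of_comp (sec D) (str D)

theorem mem_b (w : Sp (Polynomial D)) : cb D w ∈ Set.range (ca D) ↔ Polynomial.X ∉ w.asIdeal := by
  rw [opens_a]
  have h1 := KSS.Q3a.cmap_mem (HS D) (thb D) (thb_X1 D) (X_mem D 1) w 1 (MvPolynomial.X 0) (X_mem D 0)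
  rw [KSS.Q3a.cmap_ι, thb_X0] at h1
  have h2 : cb D w ∈ Proj.basicOpen (HS D) (MvPolynomial.X 0) ↔
    (MvPolynomial.X 0 : MvPolynomial (Fin 2) D) ∉ (cb D w).asHomogeneousIdeal := Iff.rfl
  exact h2.trans (not_congr h1)

theorem sec_compl : Set.range (sec D) = (Set.range (ca D))ᶜ := by
  ext x
  constructor
  · rintro ⟨z, rfl⟩ h1
    have h2 : cb D (Sm (Polynomial.evalRingHom (0 : D)) z) ∈ Set.range (ca D) := h1
    rw [mem_b] at h2
    apply h2
    have h3 : Polynomial.evalRingHom (0 : D) Polynomial.X ∈ z.asIdeal := by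
      rw [Polynomial.coe_evalRingHom, Polynomial.eval_X]
      exact Ideal.zero_mem _
    exact h3
  · intro hx
    obtain ⟨w, rfl⟩ : x ∈ Set.range (cb D) := (cover D x).resolve_left hx
    have h1 : Polynomial.X ∈ w.asIdeal := by
      by_contra h2
      exact hx ((mem_b D w).2 h2)
    have h2 : w ∈ Set.range (PrimeSpectrum.comap (Polynomial.evalRingHom (0 : D))) := by
      rw [range_comap_of_surjective _ _ (Polynomial.eval_surjective (0 : D))]
      intro q hq
      have h3 : Polynomial.eval (0 : D) q = 0 := hq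
      have h4 : Polynomial.X ∣ q := by
        rw [Polynomial.X_dvd_iff, Polynomial.coeff_zero_eq_eval_zero]
        exact h3
      exact Ideal.mem_of_dvd _ h4 h1
    obtain ⟨z, hz⟩ := h2
    refine ⟨z, ?_⟩
    have h3 : Sm (Polynomial.evalRingHom (0 : D)) z = w := hz
    change cb D (Sm (Polynomial.evalRingHom (0 : D)) z) = cb D w
    rw [h3]


/-! ### the generic point -/

section glue

variable {D} [IsDomain D]

/-- the coefficients -/
abbrev cf (D : Type) [CommRing D] [IsDomain D] : D →+* RatFunc (FractionRing D) :=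
  (algebraMap (FractionRing D) (RatFunc (FractionRing D))).comp (algebraMap D (FractionRing D))

/-- `x_0 ↦ 1`, `x_1 ↦ t` -/
def Th (D : Type) [CommRing D] [IsDomain D] :
    MvPolynomial (Fin 2) D →+* RatFunc (FractionRing D) :=
  MvPolynomial.eval₂Hom (cf D) ![1, RatFunc.X]

theorem Th_mul : Th D (MvPolynomial.X 0 * MvPolynomial.X 1) = RatFunc.X := by
  simp [Th]

theorem Th_X0 : Th D (MvPolynomial.X 0) = 1 := by
  simp [Th]

theorem Th_X1 : Th D (MvPolynomial.X 1) = RatFunc.X := by
  simp [Th]

theorem Th_unit : IsUnit (Th D (MvPolynomial.X 0 * MvPolynomial.X 1)) := by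
  rw [Th_mul]
  exact isUnit_iff_ne_zero.2 RatFunc.X_ne_zero

/-- the homomorphism of the ring of the intersection of the charts to the function field -/
def HH (D : Type) [CommRing D] [IsDomain D] :
    Away (HS D) (MvPolynomial.X 0 * MvPolynomial.X 1 : MvPolynomial (Fin 2) D) →+*
      RatFunc (FractionRing D) :=
  (Localization.awayLift (Th D) (MvPolynomial.X 0 * MvPolynomial.X 1) Th_unit).comp
    (algebraMap (Away (HS D) (MvPolynomial.X 0 * MvPolynomial.X 1 : MvPolynomial (Fin 2) D))
      (Localization.Away (MvPolynomial.X 0 * MvPolynomial.X 1 : MvPolynomial (Fin 2) D)))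

theorem HH_mk (m : ℕ) (hl : (MvPolynomial.X 0 * MvPolynomial.X 1 : MvPolynomial (Fin 2) D) ∈ HS D m)
    (n : ℕ) (q : MvPolynomial (Fin 2) D) (hq : q ∈ HS D (n • m)) :
    HH D (Away.mk (HS D) hl n q hq) * RatFunc.X ^ n = Th D q := by
  unfold HH
  rw [RingHom.comp_apply, HomogeneousLocalization.algebraMap_apply, Away.val_mk]
  have h1 : Localization.mk q (⟨(MvPolynomial.X 0 * MvPolynomial.X 1) ^ n, by use n⟩ :
      Submonoid.powers (MvPolynomial.X 0 * MvPolynomial.X 1 : MvPolynomial (Fin 2) D)) *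
      algebraMap (MvPolynomial (Fin 2) D) (Localization.Away
        (MvPolynomial.X 0 * MvPolynomial.X 1 : MvPolynomial (Fin 2) D))
          ((MvPolynomial.X 0 * MvPolynomial.X 1) ^ n) =
      algebraMap (MvPolynomial (Fin 2) D) (Localization.Away
        (MvPolynomial.X 0 * MvPolynomial.X 1 : MvPolynomial (Fin 2) D)) q := by
    rw [← Localization.mk_one_eq_algebraMap, Localization.mk_mul,
      ← Localization.mk_one_eq_algebraMap, Localization.mk_eq_mk_iff, Localization.r_iff_exists]
    refine ⟨1, ?_⟩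
    simp [mul_comm]
  have h2 := congrArg (Localization.awayLift (Th D)
    (MvPolynomial.X 0 * MvPolynomial.X 1) Th_unit) h1
  rw [map_mul] at h2
  have h3 : ∀ b : MvPolynomial (Fin 2) D, Localization.awayLift (Th D)
      (MvPolynomial.X 0 * MvPolynomial.X 1) Th_unit
      (algebraMap (MvPolynomial (Fin 2) D) (Localization.Away
        (MvPolynomial.X 0 * MvPolynomial.X 1 : MvPolynomial (Fin 2) D)) b) = Th D b := fun b =>
    IsLocalization.Away.lift_eq _ _ _
  rw [h3, h3, map_pow, Th_mul] at h2
  exact h2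

theorem toT_tha (q : MvPolynomial (Fin 2) D) : toT D (tha D q) = Th D q := by
  have h1 : (toT D).comp (tha D) = Th D := by
    apply MvPolynomial.ringHom_ext
    · intro r
      rw [RingHom.comp_apply, tha_C]
      simp [toT, Th]
    · intro i
      rw [RingHom.comp_apply]
      fin_cases i
      · change toT D (tha D (MvPolynomial.X 0)) = Th D (MvPolynomial.X 0)
        rw [tha_X0, Th_X0, map_one]
      · change toT D (tha D (MvPolynomial.X 1)) = Th D (MvPolynomial.X 1)
        rw [tha_X1, Th_X1]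
        simp [toT]
  exact congrArg (fun φ : MvPolynomial (Fin 2) D →+* RatFunc (FractionRing D) => φ q) h1

theorem toI_thb (q : MvPolynomial (Fin 2) D) :
    toI D (thb D q) = MvPolynomial.eval₂Hom (cf D) ![(RatFunc.X)⁻¹, 1] q := by
  have h1 : (toI D).comp (thb D) = MvPolynomial.eval₂Hom (cf D) ![(RatFunc.X)⁻¹, 1] := by
    apply MvPolynomial.ringHom_ext
    · intro r
      rw [RingHom.comp_apply, thb_C]
      simp [toI]
    · intro i
      rw [RingHom.comp_apply]
      fin_cases i
      · change toI D (thb D (MvPolynomial.X 0)) = _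
        rw [thb_X0]
        simp [toI]
      · change toI D (thb D (MvPolynomial.X 1)) = _
        rw [thb_X1]
        simp
  exact congrArg (fun φ : MvPolynomial (Fin 2) D →+* RatFunc (FractionRing D) => φ q) h1

theorem HH_a : (HH D).comp (awayMap (HS D) (X_mem D 1)
    (rfl : (MvPolynomial.X 0 * MvPolynomial.X 1 : MvPolynomial (Fin 2) D) = _)) =
      (toT D).comp (cha D) := by
  refine RingHom.ext fun y => ?_
  obtain ⟨n, q, hq, rfl⟩ := Away.mk_surjective (HS D) (X_mem D 0) y
  rw [RingHom.comp_apply, RingHom.comp_apply, awayMap_mk]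
  have h1 := KSS.Q3a.chart_mk (HS D) (tha D) (tha_X0 D) (X_mem D 0) n q hq
  have h2 : cha D (Away.mk (HS D) (X_mem D 0) n q hq) = tha D q := h1
  rw [h2, toT_tha]
  have h3 : (RatFunc.X : RatFunc (FractionRing D)) ^ n ≠ 0 := pow_ne_zero _ RatFunc.X_ne_zero
  refine mul_right_cancel₀ h3 ?_
  rw [HH_mk, map_mul, map_pow, Th_X1]

theorem HH_b : (HH D).comp (awayMap (HS D) (X_mem D 0)
    (mul_comm _ _ : (MvPolynomial.X 0 * MvPolynomial.X 1 : MvPolynomial (Fin 2) D) = _)) =
      (toI D).comp (chb D) := by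
  refine RingHom.ext fun y => ?_
  obtain ⟨n, q, hq, rfl⟩ := Away.mk_surjective (HS D) (X_mem D 1) y
  rw [RingHom.comp_apply, RingHom.comp_apply, awayMap_mk]
  have h1 := KSS.Q3a.chart_mk (HS D) (thb D) (thb_X1 D) (X_mem D 1) n q hq
  have h2 : chb D (Away.mk (HS D) (X_mem D 1) n q hq) = thb D q := h1
  rw [h2, toI_thb]
  have h3 : (RatFunc.X : RatFunc (FractionRing D)) ^ n ≠ 0 := pow_ne_zero _ RatFunc.X_ne_zero
  refine mul_right_cancel₀ h3 ?_
  rw [HH_mk, map_mul, map_pow, Th_X0, one_pow, mul_one]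
  have h4 : q.IsHomogeneous n := by
    have h5 : q.IsHomogeneous (n • 1) := hq
    rwa [smul_eq_mul, mul_one] at h5
  have h6 := hom_id (cf D) RatFunc.X RatFunc.X_ne_zero h4
  exact h6.trans (mul_comm _ _)

theorem glue : Sm (toT D) ≫ ca D = Sm (toI D) ≫ cb D := by
  unfold ca cb
  rw [← Category.assoc, ← Category.assoc]
  have h1 : Sm (toT D) ≫ Sm (cha D) = Sm (HH D) ≫ Sm (awayMap (HS D) (X_mem D 1)
      (rfl : (MvPolynomial.X 0 * MvPolynomial.X 1 : MvPolynomial (Fin 2) D) = _)) := by
    rw [← Spec.map_comp, ← Spec.map_comp, ← CommRingCat.ofHom_comp, ← CommRingCat.ofHom_comp, HH_a]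
  have h2 : Sm (toI D) ≫ Sm (chb D) = Sm (HH D) ≫ Sm (awayMap (HS D) (X_mem D 0)
      (mul_comm _ _ : (MvPolynomial.X 0 * MvPolynomial.X 1 : MvPolynomial (Fin 2) D) = _)) := by
    rw [← Spec.map_comp, ← Spec.map_comp, ← CommRingCat.ofHom_comp, ← CommRingCat.ofHom_comp, HH_b]
  rw [h1, h2, Category.assoc, Category.assoc, Proj.SpecMap_awayMap_awayι,
    Proj.SpecMap_awayMap_awayι]


/-! ### integrality -/

theorem toT_inj : Function.Injective (toT D) := by
  have h1 : toT D = (algebraMap (Polynomial (FractionRing D)) (RatFunc (FractionRing D))).comp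
      (Polynomial.mapRingHom (algebraMap D (FractionRing D))) := by
    apply Polynomial.ringHom_ext
    · intro r
      simp [toT]
    · simp [toT]
  rw [h1]
  have h2 : Function.Injective (algebraMap (Polynomial (FractionRing D))
      (RatFunc (FractionRing D))) := RatFunc.algebraMap_injective _
  have h3 : Function.Injective (Polynomial.mapRingHom (algebraMap D (FractionRing D))) :=
    Polynomial.map_injective _ (IsFractionRing.injective D (FractionRing D))
  exact h2.comp h3

theorem toI_inj : Function.Injective (toI D) := by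
  rw [injective_iff_map_eq_zero]
  intro y hy
  obtain ⟨z, rfl⟩ := (chb_bij D).2 y
  obtain ⟨n, q, hq, rfl⟩ := Away.mk_surjective (HS D) (X_mem D 1) z
  have h1 := KSS.Q3a.chart_mk (HS D) (thb D) (thb_X1 D) (X_mem D 1) n q hq
  have h2 : chb D (Away.mk (HS D) (X_mem D 1) n q hq) = thb D q := h1
  rw [h2] at hy ⊢
  rw [toI_thb] at hy
  have h4 : q.IsHomogeneous n := by
    have h5 : q.IsHomogeneous (n • 1) := hq
    rwa [smul_eq_mul, mul_one] at h5
  have h6 : Th D q = 0 := by
    have h7 := hom_id (cf D) RatFunc.X RatFunc.X_ne_zero h4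
    rw [hy, mul_zero] at h7
    exact h7
  rw [← toT_tha] at h6
  have h8 : tha D q = 0 := toT_inj (h6.trans (map_zero _).symm)
  rw [inj_a h4 h8, map_zero]

/-- the generic point of `Spec D[t]` -/
theorem bot_of_inj {R K : Type} [CommRing R] [IsDomain R] [Field K] (φ : R →+* K)
    (h : Function.Injective φ) (ζ : Sp K) (z : Sp R) : Sm φ ζ ⤳ z := by
  have h1 : ∀ r : R, r ∈ (Sm φ ζ).asIdeal → r ∈ z.asIdeal := by
    intro r hr
    have h2 : φ r ∈ ζ.asIdeal := hr
    have h3 : ζ.asIdeal = ⊥ := (Ideal.eq_bot_or_top _).resolve_right ζ.isPrime.ne_top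
    rw [h3, Ideal.mem_bot] at h2
    have h4 : r = 0 := h (h2.trans (map_zero _).symm)
    rw [h4]
    exact Ideal.zero_mem _
  exact (PrimeSpectrum.le_iff_specializes (R := R) _ _).1 (show (Sm φ ζ).asIdeal ≤ z.asIdeal from h1)

theorem spec_generic (ζ : Sp (RatFunc (FractionRing D))) (x : P1 D) :
    (Sm (toT D) ≫ ca D) ζ ⤳ x := by
  rcases cover D x with ⟨z, rfl⟩ | ⟨z, rfl⟩
  · exact (bot_of_inj (toT D) toT_inj ζ z).map (ca D).continuous
  · rw [glue]
    exact (bot_of_inj (toI D) toI_inj ζ z).map (cb D).continuous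

theorem irr : IrreducibleSpace (P1 D) := by
  obtain ⟨ζ⟩ : Nonempty (Sp (RatFunc (FractionRing D))) := inferInstance
  rw [irreducibleSpace_def]
  have h1 : closure {(Sm (toT D) ≫ ca D) ζ} = (Set.univ : Set (P1 D)) := by
    rw [Set.eq_univ_iff_forall]
    intro x
    exact (spec_generic ζ x).mem_closure
  have h2 : IsIrreducible (closure {(Sm (toT D) ≫ ca D) ζ}) := isIrreducible_singleton.closure
  rw [h1] at h2
  exact h2

omit [IsDomain D] in
theorem open_a : IsOpenImmersion (ca D) := by
  have := iso_a D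
  unfold ca
  infer_instance

omit [IsDomain D] in
theorem open_b : IsOpenImmersion (cb D) := by
  have := iso_b D
  unfold cb
  infer_instance

theorem red_aux {X Y : Scheme.{0}} (j : X ⟶ Y) [IsOpenImmersion j] [IsReduced X] (z : X) :
    _root_.IsReduced (Y.presheaf.stalk (j z)) := by
  have h1 : Function.Injective (j.stalkMap z).hom :=
    ((ConcreteCategory.isIso_iff_bijective (j.stalkMap z)).1 inferInstance).1
  exact isReduced_of_injective (j.stalkMap z).hom h1

theorem red : IsReduced (P1 D) := by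
  have i1 : IsOpenImmersion (ca D) := open_a
  have i2 : IsOpenImmersion (cb D) := open_b
  have h1 : ∀ x : P1 D, _root_.IsReduced ((P1 D).presheaf.stalk x) := by
    intro x
    rcases cover D x with ⟨z, rfl⟩ | ⟨z, rfl⟩
    · exact red_aux (ca D) z
    · exact red_aux (cb D) z
  exact isReduced_of_isReduced_stalk _

theorem integral : IsIntegral (P1 D) := by
  have h1 : IsReduced (P1 D) := red
  have h2 : IrreducibleSpace (P1 D) := irr
  exact isIntegral_of_irreducibleSpace_of_isReduced _

end glue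

end PL

/-- **PL** -/
theorem thm_PL : St_PL := by
  intro D _ _ _
  have h1 := PL.proper D
  exact ⟨PL.P1 D, PL.str D, PL.ca D, PL.cb D, PL.sec D,
    { int := PL.integral
      sep := inferInstance
      lft := inferInstance
      qc := inferInstance
      flat := PL.flat_str D
      opa := PL.open_a
      opb := PL.open_b
      cls := PL.sec_closed D
      ap := PL.ca_str D
      bp := PL.cb_str D
      compl := PL.sec_compl D
      cover := PL.cover D
      glue := PL.glue }⟩

end Pool.Agent.BTF
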