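import Pool.Agent.BTF.St2
import Mathlib.RingTheory.RegularLocalRing.Polynomial

/-!
# BTF: module RP, the projective line over a regular ring is regular
-/

set_option autoImplicit false

noncomputable section

namespace Pool.Agent.BTF

open CategoryTheory CategoryTheory.Limits AlgebraicGeometry Pool.Agent.KPR Pool.Agent.KTX

namespace RP

theorem stalk {R : Type} [CommRing R] [IsRegularRing R] {P : Scheme.{0}} (f : Sp R ⟶ P)
    [IsOpenImmersion f] (z : Sp R) : IsRegularLocalRing (P.presheaf.stalk (f z)) := by
  have h2 : IsRegularLocalRing ((Sp R).presheaf.stalk z) :=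
    IsRegularLocalRing.of_ringEquiv
      (Spec.stalkIso (CommRingCat.of R) z).symm.commRingCatIsoToRingEquiv
  exact IsRegularLocalRing.of_ringEquiv (asIso (f.stalkMap z)).symm.commRingCatIsoToRingEquiv

end RP

/-- **RP**. The projective line over a regular ring is regular. -/
theorem thm_RP : St_RP := by
  intro D _ _ _ P p a b s h hD x
  have := h.opa
  have := h.opb
  rcases h.cover x with ⟨z, rfl⟩ | ⟨z, rfl⟩
  · exact RP.stalk a z
  · exact RP.stalk b z

end Pool.Agent.BTF
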