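import Pool.Agent.BTF.AB
import Pool.Agent.BTF.CE
import Pool.Agent.BTF.DL
import Pool.Agent.BTF.DV
import Pool.Agent.BTF.G1
import Pool.Agent.BTF.G2
import Pool.Agent.BTF.G3
import Pool.Agent.BTF.G4
import Pool.Agent.BTF.K1
import Pool.Agent.BTF.K2
import Pool.Agent.BTF.K3M
import Pool.Agent.BTF.K4
import Pool.Agent.BTF.KL
import Pool.Agent.BTF.LPM
import Pool.Agent.BTF.PIIM
import Pool.Agent.BTF.PL
import Pool.Agent.BTF.RP
import Pool.Agent.BTF.V1A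
import Pool.Agent.BTF.V2M
import Pool.Agent.BTF.IM

/-!
# BTF: (II), all modules together
-/

set_option autoImplicit false

noncomputable section

namespace Pool.Agent.BTF

open Pool.Agent.KGT.W (SerreClass)

/-- (II) for isomorphisms modulo `𝒮` -/
theorem ruledMod (𝒮 : (G : Type 1) → [AddCommGroup G] → Prop) (h𝒮 : SerreClass 𝒮) (d : ℕ)
    (hlow : Low 𝒮 d) : RuledMod 𝒮 d :=
  thm_PIIM thm_KL thm_AB (thm_K2 thm_DL) (thm_K3M thm_K1) (thm_K4 thm_DL) thm_G1 thm_G2 thm_G3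
    (thm_G4 thm_DL thm_DV) thm_PL thm_LPM (thm_V1A thm_AB)
    (thm_V2M thm_DL (thm_K2 thm_DL) (thm_K3M thm_K1)) thm_RP thm_CE 𝒮 h𝒮 d hlow

/-- (II) in each degree -/
theorem ruledIff (𝒮 : (G : Type 1) → [AddCommGroup G] → Prop) (h𝒮 : SerreClass 𝒮) (d : ℕ)
    (hlow : Low 𝒮 d) : RuledIff 𝒮 d := by
  intro X T _ _ hX hreg hkr hT hiso n
  refine (thm_IM 𝒮 h𝒮 _ _ (ruledMod 𝒮 h𝒮 d hlow X T hX hreg hkr hT hiso n)).trans ?_
  constructor
  · intro h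
    exact h𝒮.serre.of_surj (AddMonoidHom.fst _ _) (fun x => ⟨(x, 0), rfl⟩) h
  · intro h
    exact h𝒮.serre.prod h h

end Pool.Agent.BTF
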