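import Pool.Agent.BTF.St4

/-!
# BTF, module GC (helper21): greatest common divisors
-/

set_option autoImplicit false

noncomputable section

namespace Pool.Agent.BTF

namespace GC

/-- the range of the multiplication by `m` is finitely generated if there is a finitely generated
subgroup which contains all `m • x` -/
theorem fg_of (G : Type 1) [AddCommGroup G] (m : ℕ) (H : AddSubgroup G) (hH : H.FG)
    (h : ∀ x : G, m • x ∈ H) : AddGroup.FG (nsmulAddMonoidHom (α := G) m).range := by
  have hle : AddSubgroup.toIntSubmodule (nsmulAddMonoidHom (α := G) m).range ≤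
      AddSubgroup.toIntSubmodule H := by
    rintro _ ⟨x, rfl⟩
    exact h x
  have h1 : (AddSubgroup.toIntSubmodule H).FG := by
    rw [Submodule.fg_iff_addSubgroup_fg]
    exact hH
  have hN : IsNoetherian ℤ (AddSubgroup.toIntSubmodule H) :=
    isNoetherian_of_fg_of_noetherian _ h1
  have h2 : (AddSubgroup.toIntSubmodule (nsmulAddMonoidHom (α := G) m).range).FG :=
    Submodule.FG.of_le_of_isNoetherian hle
  rw [Submodule.fg_iff_addSubgroup_fg] at h2
  exact (AddGroup.fg_iff_addSubgroup_fg _).2 h2

end GC

end Pool.Agent.BTF
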