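import Pool.Agent.BTF.St7
import Pool.Agent.BTF.GC

/-!
# BTF, module GCb (helper21): greatest common divisors, exponent two
-/

set_option autoImplicit false

noncomputable section

namespace Pool.Agent.BTF

namespace GC

theorem two' (G : Type 1) [AddCommGroup G] (N m : ℕ)
    (hN : AddGroup.FG (nsmulAddMonoidHom (α := G) (N ^ 2)).range)
    (hm : AddGroup.FG (nsmulAddMonoidHom (α := G) (m ^ 2)).range) :
    AddGroup.FG (nsmulAddMonoidHom (α := G) ((Nat.gcd N m) ^ 2)).range := by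
  refine fg_of G _ ((nsmulAddMonoidHom (α := G) (N ^ 2)).range ⊔
    (nsmulAddMonoidHom (α := G) (m ^ 2)).range) ?_ ?_
  · exact ((AddGroup.fg_iff_addSubgroup_fg _).1 hN).sup ((AddGroup.fg_iff_addSubgroup_fg _).1 hm)
  · intro x
    have hk : (Nat.gcd N m) ^ 2 = Nat.gcd (N ^ 2) (m ^ 2) := Nat.pow_gcd_pow.symm
    have hz : ((Nat.gcd N m) ^ 2) • x =
        (Nat.gcdA (N ^ 2) (m ^ 2)) • ((N ^ 2) • x) +
        (Nat.gcdB (N ^ 2) (m ^ 2)) • ((m ^ 2) • x) := by
      rw [hk, ← natCast_zsmul x (Nat.gcd _ _), Nat.gcd_eq_gcd_ab, add_zsmul,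
        ← natCast_zsmul x (N ^ 2), ← natCast_zsmul x (m ^ 2), smul_smul, smul_smul,
        mul_comm, mul_comm ((m ^ 2 : ℕ) : ℤ)]
    rw [hz]
    refine AddSubgroup.add_mem _ ?_ ?_
    · refine AddSubgroup.mem_sup_left (AddSubgroup.zsmul_mem _ ?_ _)
      exact ⟨x, rfl⟩
    · refine AddSubgroup.mem_sup_right (AddSubgroup.zsmul_mem _ ?_ _)
      exact ⟨x, rfl⟩

end GC

theorem thm_GCb : St_GCb := by
  intro G _ s
  induction s using Finset.induction_on with
  | empty =>
    intro _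
    refine GC.fg_of G _ ⊥ AddSubgroup.FG.bot ?_
    intro x
    simp
  | insert N s hNs ih =>
    intro hs
    have h := GC.two' G N (s.gcd id) (hs N (Finset.mem_insert_self N s))
      (ih (fun M hM => hs M (Finset.mem_insert_of_mem hM)))
    rw [Finset.gcd_insert]
    exact h

end Pool.Agent.BTF
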