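import Pool.Agent.BTF.St3

/-!
# BTF: module KE, the kernel of `A[Y] → V`, `Y ↦ y / x`
-/

set_option autoImplicit false

noncomputable section

namespace Pool.Agent.BTF

namespace KE

open Polynomial

variable {A V : Type} [CommRing A] [CommRing V]

/-- multiplication by `x ^ n` -/
theorem mul_pow (j : A →+* V) (x y : A) (z : V) (hz : j x * z = j y) :
    ∀ (n : ℕ) (p : Polynomial A), p.natDegree ≤ n →
      ∃ b : A, j x ^ n * Polynomial.eval₂ j z p = j (x * b + p.coeff n * y ^ n) := by
  intro n
  induction n with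
  | zero =>
    intro p hp
    refine ⟨0, ?_⟩
    have h1 := Polynomial.eq_C_of_natDegree_le_zero hp
    rw [mul_zero, zero_add, pow_zero, one_mul, pow_zero, mul_one]
    conv_lhs => rw [h1]
    rw [Polynomial.eval₂_C]
  | succ n ih =>
    intro p hp
    obtain ⟨b, hb⟩ := ih p.divX (by
      rw [Polynomial.natDegree_divX_eq_natDegree_tsub_one]
      omega)
    refine ⟨b * y + x ^ n * p.coeff 0, ?_⟩
    have h1 := Polynomial.divX_mul_X_add p
    have h2 : Polynomial.eval₂ j z p = Polynomial.eval₂ j z p.divX * z + j (p.coeff 0) := by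
      conv_lhs => rw [← h1]
      rw [Polynomial.eval₂_add, Polynomial.eval₂_mul_X, Polynomial.eval₂_C]
    rw [Polynomial.coeff_divX] at hb
    have h3 : j x ^ (n + 1) * Polynomial.eval₂ j z p =
        j x ^ n * Polynomial.eval₂ j z p.divX * (j x * z) + j x ^ (n + 1) * j (p.coeff 0) := by
      rw [h2]
      ring
    rw [h3, hb, hz, ← map_pow, ← map_mul, ← map_mul, ← map_add]
    congr 1
    ring

end KE

open Polynomial in
theorem thm_KE : St_KE := by
  intro A V _ _ _ _ j x y z hj hx hz hreg p
  have hpow : ∀ (n : ℕ) (a : A), x ∣ a * y ^ n → x ∣ a := by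
    intro n
    induction n with
    | zero => intro a h; rwa [pow_zero, mul_one] at h
    | succ n ih =>
      intro a h
      rw [pow_succ, ← mul_assoc] at h
      exact ih a (hreg _ h)
  have key : ∀ (n : ℕ) (p : Polynomial A), p.natDegree ≤ n → Polynomial.eval₂ j z p = 0 →
      ∃ q, p = (C x * X - C y) * q := by
    intro n
    induction n with
    | zero =>
      intro p hp h0
      have h1 := Polynomial.eq_C_of_natDegree_le_zero hp
      rw [h1, Polynomial.eval₂_C] at h0
      have h2 : p.coeff 0 = 0 := hj (by rw [h0, map_zero])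
      refine ⟨0, ?_⟩
      rw [h1, h2, mul_zero, Polynomial.C_0]
    | succ n ih =>
      intro p hp h0
      obtain ⟨b, hb⟩ := KE.mul_pow j x y z hz (n + 1) p hp
      rw [h0, mul_zero] at hb
      have h1 : x * b + p.coeff (n + 1) * y ^ (n + 1) = 0 := hj (by rw [← hb, map_zero])
      have h2 : x ∣ p.coeff (n + 1) * y ^ (n + 1) :=
        ⟨-b, by rw [mul_neg]; exact eq_neg_of_add_eq_zero_right h1⟩
      obtain ⟨a, ha⟩ := hpow (n + 1) _ h2
      have h3 : (C x * X - C y) * (C a * X ^ n) =
          C (x * a) * X ^ (n + 1) - C (y * a) * X ^ n := by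
        rw [C_mul, C_mul, pow_succ]
        ring
      obtain ⟨q, hq⟩ := ih (p - (C x * X - C y) * (C a * X ^ n)) (by
        rw [Polynomial.natDegree_le_iff_coeff_eq_zero]
        intro N hN
        rw [h3, Polynomial.coeff_sub, Polynomial.coeff_sub, Polynomial.coeff_C_mul_X_pow,
          Polynomial.coeff_C_mul_X_pow, if_neg (by omega : ¬ N = n)]
        rcases eq_or_ne N (n + 1) with rfl | hN'
        · rw [if_pos rfl, ha]
          ring
        · rw [if_neg hN', Polynomial.coeff_eq_zero_of_natDegree_lt (by omega)]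
          ring) (by
        rw [Polynomial.eval₂_sub, h0, Polynomial.eval₂_mul, Polynomial.eval₂_sub,
          Polynomial.eval₂_mul, Polynomial.eval₂_C, Polynomial.eval₂_X, Polynomial.eval₂_C, hz]
        ring)
      refine ⟨q + C a * X ^ n, ?_⟩
      rw [mul_add, ← hq]
      ring
  constructor
  · exact key p.natDegree p le_rfl
  · rintro ⟨q, rfl⟩
    rw [Polynomial.eval₂_mul, Polynomial.eval₂_sub, Polynomial.eval₂_mul, Polynomial.eval₂_C,
      Polynomial.eval₂_X, Polynomial.eval₂_C, hz]
    ring

end Pool.Agent.BTF
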