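import Pool.Agent.BTF.St3

/-!
# BTF: last statements: isomorphisms modulo a Serre class, and schemes of dimension three

MP_e17fa799_al (captain helper21). Every `def St_X : Prop` is one module `Pool/Agent/BTF/X.lean` with
`theorem thm_X : St_X` (with the statements listed after `needs` as hypotheses) in the namespace
`Pool.Agent.BTF`; auxiliary lemmas in a sub-namespace with the name of the file.
-/

set_option autoImplicit false

noncomputable section

namespace Pool.Agent.BTF

open CategoryTheory CategoryTheory.Limits AlgebraicGeometry Pool.Agent.KPR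
open Pool.Agent.KGT.W (SerreClass FinType)

/-- `G` and `H` are isomorphic modulo the class `𝒮`: there are homomorphisms `G → E ← H` whose kernels
and cokernels are in `𝒮` -/
def IsoMod (𝒮 : (G : Type 1) → [AddCommGroup G] → Prop) (G H : Type 1) [AddCommGroup G]
    [AddCommGroup H] : Prop :=
  ∃ (E : Type 1) (_ : AddCommGroup E) (f : G →+ E) (g : H →+ E),
    𝒮 f.ker ∧ 𝒮 (E ⧸ f.range) ∧ 𝒮 g.ker ∧ 𝒮 (E ⧸ g.range)

/-- (I), for isomorphisms modulo `𝒮` -/
def BirMod (𝒮 : (G : Type 1) → [AddCommGroup G] → Prop) (d : ℕ) : Prop :=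
  ∀ (X Y B : Scheme.{0}) [IsIntegral X] [IsIntegral Y] [B.IsSeparated] (f : X ⟶ B) (g : Y ⟶ B)
    [IsProper f] [IsProper g], FinType ℤ B → KGT.W.Regular X → KGT.W.Regular Y →
    KrLe (d + 2) X.functionField → Scheme.BirationalOver f g → ∀ n : ℕ,
      IsoMod 𝒮 (KX n X) (KX n Y)

/-- (IV) Let `X` be integral, regular, proper over `ℤ`, of Kronecker dimension at most three, and let `s`
be a finite set of degrees of finite embeddings of the function field of `X` into fields `M(t)`, where
`M = L(s)` or `M` is of Kronecker dimension at most one. Let `g` be the greatest common divisor of `s`. Then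
`g² K'_n(X)` is finitely generated; if `g = 1`, `K'_n(X)` is finitely generated. -/
def Geom3 : Prop :=
  ∀ (X : Scheme.{0}) [IsIntegral X], ProperZ X → KGT.W.Regular X → KrLe 3 X.functionField →
    ∀ s : Finset ℕ, (∀ N ∈ s, ∃ (M : Type) (_ : Field M) (φ : X.functionField →+* RatFunc M),
        FinDeg φ N ∧ (KrLe 1 M ∨ ∃ (L : Type) (_ : Field L), Nonempty (M ≃+* RatFunc L))) →
      ∀ n : ℕ, AddGroup.FG (nsmulAddMonoidHom (α := KX n X) ((s.gcd id) ^ 2)).range ∧
        (s.gcd id = 1 → AddGroup.FG (KX n X))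

/-- **IM**. Isomorphisms modulo a Serre class. needs: nothing -/
def St_IM : Prop := ∀ (𝒮 : (G : Type 1) → [AddCommGroup G] → Prop), SerreClass 𝒮 →
  ∀ (G H : Type 1) [AddCommGroup G] [AddCommGroup H], IsoMod 𝒮 G H → (𝒮 G ↔ 𝒮 H)

/-- **K3M**. `K3` for kernels and cokernels. Proof: the restriction `K'_n(X) → K'_n(U)`: the kernel is a
quotient of `K'_n(Z)`, the cokernel a subgroup of `K'_(n-1)(Z)`, `Z` the complement; both are in `𝒮` (`K1`).
(Transport `(L.th n).T` to `KX n`.) needs: K1 -/
def St_K3M : Prop := ∀ (𝒮 : (G : Type 1) → [AddCommGroup G] → Prop), SerreClass 𝒮 →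
  ∀ (X U : Scheme.{0}) (j : U ⟶ X) [IsOpenImmersion j], FinType ℤ X →
    (∀ x : X, x ∉ Set.range j → Good 𝒮 (X.residueField x)) →
      ∀ n : ℕ, ∃ f : KX n X →+ KX n U, 𝒮 f.ker ∧ 𝒮 (KX n U ⧸ f.range)

/-- **PIM**. (I) for isomorphisms modulo `𝒮`. Proof: `PI.lean` with `K3M` instead of `K3`, `E = K'_n(U)`.
needs: as PI, K3M -/
def St_PIM : Prop := ∀ (𝒮 : (G : Type 1) → [AddCommGroup G] → Prop), SerreClass 𝒮 → ∀ d : ℕ,
  Low 𝒮 d → BirMod 𝒮 d

/-- **CO3**. Proof: let `φ : K(X) → E = M(t)` be of degree `N`. `E` is the function field of an integral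
scheme `X₁` of finite type over `ℤ` (`NR`, `NN`: the normalisation of `X` in `E`), so (`T0`) `M` is the
function field of such a scheme `T`. `KrLe 3 E` (`KA`), `KrLe 2 M` (`KL`), and `KrLe 1 M` or `M = L(s)`,
`KrLe 1 L`, so the residue fields of `T` are good for the finitely generated groups (`K0`, `K2`, `K4`, `DL`, as
in `CO.lean`), and all `K'_n(T)` are finitely generated (`K1`). By `PIII` (second part, `d = 1`) `N² K'_n(X)` is
finitely generated. Then `GCb`. If `g = 1`, the range is everything.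
needs: DL, KL, KA, K0, K1, K2, K4, T0, NR, NN, PIII, GCb -/
def St_CO3 : Prop := Geom3

end Pool.Agent.BTF
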