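import Pool.Agent.BTF.St2
import Pool.Agent.BTF.St4

/-!
# BTF: (II) for isomorphisms modulo a Serre class

MP_e17fa799_al (captain helper21; this file helper65). Let `X` be integral, regular and proper over `ℤ`, of
Kronecker dimension `≤ d + 2`, and `K(X) = K(T)(t)`, `T` integral of finite type over `ℤ`. Then `K'_n(X)` is
isomorphic to `K'_n(T) ⊕ K'_n(T)` modulo `𝒮`, for each `n`.
-/

set_option autoImplicit false

noncomputable section

namespace Pool.Agent.BTF

open CategoryTheory CategoryTheory.Limits AlgebraicGeometry Pool.Agent.KPR Pool.Agent.KTX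
open Pool.Agent.KGT.W (SerreClass FinType)

/-- (II), for isomorphisms modulo `𝒮` -/
def RuledMod (𝒮 : (G : Type 1) → [AddCommGroup G] → Prop) (d : ℕ) : Prop :=
  ∀ (X T : Scheme.{0}) [IsIntegral X] [IsIntegral T], ProperZ X → KGT.W.Regular X →
    KrLe (d + 2) X.functionField → FinType ℤ T →
    Nonempty (X.functionField ≃+* RatFunc T.functionField) → ∀ n : ℕ,
      IsoMod 𝒮 (KX n X) (KX n T × KX n T)

/-- **LPM**. `K'_n` of the projective line. Proof: as for `LP`: `pull a` is surjective in all degrees, and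
`pull p ∘ (pull (a ≫ p))⁻¹` is a section of it; so the boundary maps vanish (`bd_pull`), and `push s` is
injective (`exZ`); the sequence `0 → K'_n(D) → K'_n(P) → K'_n(D[t]) → 0` is exact and split.
needs: nothing -/
def St_LPM : Prop := ∀ (D : Type) [CommRing D] [IsDomain D] [IsNoetherianRing D] (P : Scheme.{0})
  (p : P ⟶ Sp D) (a b : Sp (Polynomial D) ⟶ P) (s : Sp D ⟶ P), IsLine D P p a b s →
    ∀ n : ℕ, Nonempty (KX n P ≃+ KX n (Sp D) × KX n (Sp D))

/-- **V2M**. As `V2A`, with `K3M` instead of `K3`. needs: DL, K2, K3M -/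
def St_V2M : Prop := ∀ (𝒮 : (G : Type 1) → [AddCommGroup G] → Prop), SerreClass 𝒮 → ∀ d : ℕ,
  Low 𝒮 d → ∀ (T : Scheme.{0}) [IsIntegral T], FinType ℤ T → KrLe (d + 1) T.functionField →
    ∃ (D : Type) (_ : CommRing D) (_ : IsDomain D), Algebra.FiniteType ℤ D ∧ IsRegularRing D ∧
      Nonempty (FractionRing D ≃+* T.functionField) ∧
      ∀ n : ℕ, ∃ f : KX n T →+ KX n (Sp D), 𝒮 f.ker ∧ 𝒮 (KX n (Sp D) ⧸ f.range)

/-- **PIIM**. Proof: `PIIA.lean` with `K3M`, `LPM`, `V2M` instead of `K3`, `LP`, `V2A`: `E = K'_n(U)`,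
`K'_n(X) → K'_n(U)`, and `K'_n(T)² → K'_n(D)² ≅ K'_n(P) → K'_n(U)` (the kernel and the cokernel of a
composition are extensions of subgroups and quotients of the kernels and cokernels).
needs: KL, AB, K2, K4, G1, G2, G3, G4, PL, LPM, V1A, V2M, RP, CE, K3M -/
def St_PIIM : Prop := ∀ (𝒮 : (G : Type 1) → [AddCommGroup G] → Prop), SerreClass 𝒮 → ∀ d : ℕ,
  Low 𝒮 d → RuledMod 𝒮 d

end Pool.Agent.BTF
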