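import Pool.Agent.BTF.St3

/-!
# BTF: finiteness of integral closures

MP_e17fa799_al (captain helper21). Part (III) holds for all finite extensions of function fields,
separable or not; this is used for `CF` and `NN` (in `CFI.lean`, `NNI.lean`).
-/

set_option autoImplicit false

noncomputable section

namespace Pool.Agent.BTF

open CategoryTheory CategoryTheory.Limits AlgebraicGeometry Pool.Agent.KPR Pool.Agent.KTX
open Pool.Agent.KGT.W (SerreClass FinType)

/-- **FI**. Finiteness of the integral closure. Proof: in characteristic zero `K'/K` is separable
(`IsIntegralClosure.finite`). Let the characteristic be `p`. (1) The Frobenius `F : R → R` is finite: let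
`s` be the finite set of `EssFin`; `R` is generated by `s` as an algebra over itself through `F`, since
`v = a / b = a b^(p-1) (b⁻¹)^p`, and the elements of `s` are integral (`t^p = F(t)`). (2) Let `E` be the separable
closure of `K` in `K'` (`separableClosure K K'`); `K'/E` is purely inseparable and finitely generated, so
there is `r` with `K'^(p^r) ⊆ E` (exponent; take the maximum over a basis). (3) The integral closure `C` of
`R` in `E` is finite over `R` (`IsIntegralClosure.finite`), so also over `R` through `F^r : R → R`. (4) `b ↦ b^(p^r)` is
an injective additive map `B → C`, and `(x b)^(p^r) = F^r(x) b^(p^r)`; so `B` is isomorphic to a submodule of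
`C` with the structure of (3), a noetherian module. needs: nothing -/
def St_FI : Prop := ∀ (R : Type) [CommRing R] [IsDomain R] [IsNoetherianRing R]
  [IsIntegrallyClosed R], EssFin R → ∀ (K K' B : Type) [Field K] [Field K'] [Algebra R K]
  [IsFractionRing R K] [Algebra K K'] [Algebra R K'] [IsScalarTower R K K'] [FiniteDimensional K K']
  [CommRing B] [Algebra B K'] [Algebra R B] [IsScalarTower R B K'] [IsIntegralClosure B R K'],
  Module.Finite R B

end Pool.Agent.BTF
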