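import Pool.Agent.BTF.St2
import Pool.Agent.BTF.St4
import Pool.Agent.BTF.St7

/-!
# BTF: everything over a base `B`

MP_e17fa799_al (captain helper21). `B` is a separated scheme of finite type over `ℤ`, `X → B` is proper, and all
embeddings of function fields are compatible with the morphisms to `B`. The proofs over `ℤ` (in `G5`, `C1`,
`N7`, `N9`, `PIII`, `CO3`, `CE`, `V2M`, `PIIM`) are used again; properness of `X` over `ℤ` was needed only for the
existence of centres (valuative criterion), and the valuation rings in question have a morphism to `B`.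
Every `def St_X : Prop` is one module `Pool/Agent/BTF/X.lean` with `theorem thm_X : St_X`.
-/

set_option autoImplicit false

noncomputable section

namespace Pool.Agent.BTF

open CategoryTheory CategoryTheory.Limits AlgebraicGeometry Pool.Agent.KPR Pool.Agent.KTX
open Pool.Agent.KGT.W (SerreClass FinType)

/-! ### the theorems -/

/-- the morphism `Spec K(T)(t) → T` -/
def etaT (T : Scheme.{0}) [IsIntegral T] : Sp (RatFunc T.functionField) ⟶ T :=
  etaX (algebraMap T.functionField (RatFunc T.functionField))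

/-- (II) over `B`: if `K(X) = K(T)(t)` over `B`, then `K'_n(X)` is isomorphic to `K'_n(T) ⊕ K'_n(T)`
modulo `𝒮` -/
def RuledB (𝒮 : (G : Type 1) → [AddCommGroup G] → Prop) (d : ℕ) : Prop :=
  ∀ (X T B : Scheme.{0}) [IsIntegral X] [IsIntegral T] [B.IsSeparated] (f : X ⟶ B) (h : T ⟶ B)
    [IsProper f], FinType ℤ B → KGT.W.Regular X → KrLe (d + 2) X.functionField → FinType ℤ T →
    ∀ e : X.functionField ≃+* RatFunc T.functionField,
      etaX (e : X.functionField →+* RatFunc T.functionField) ≫ f = etaT T ≫ h → ∀ n : ℕ,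
        IsoMod 𝒮 (KX n X) (KX n T × KX n T)

/-- (III) over `B`: if the function field of `X` is embedded over `B` with finite degree `N` in that of
`Y` or `T × ℙ¹`, and `K'_n(Y)` or `K'_n(T)` is in `𝒮`, then `N² K'_n(X)` is in `𝒮` -/
def DominatedB (𝒮 : (G : Type 1) → [AddCommGroup G] → Prop) (d : ℕ) : Prop :=
  (∀ (X Y B : Scheme.{0}) [IsIntegral X] [IsIntegral Y] [B.IsSeparated] (f : X ⟶ B) (g : Y ⟶ B)
    [IsProper f] [IsProper g], FinType ℤ B → KGT.W.Regular X → KGT.W.Regular Y →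
    KrLe (d + 2) X.functionField → ∀ (φ : X.functionField →+* Y.functionField) (N : ℕ),
      FinDeg φ N → etaX φ ≫ f = Y.fromSpecStalk (genericPoint Y) ≫ g → ∀ n : ℕ,
        𝒮 (KX n Y) → MulIn 𝒮 (N ^ 2) (KX n X)) ∧
  ∀ (X T B : Scheme.{0}) [IsIntegral X] [IsIntegral T] [B.IsSeparated] (f : X ⟶ B) (h : T ⟶ B)
    [IsProper f], FinType ℤ B → KGT.W.Regular X → KrLe (d + 2) X.functionField → FinType ℤ T →
    ∀ (φ : X.functionField →+* RatFunc T.functionField) (N : ℕ), FinDeg φ N →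
      etaX φ ≫ f = etaT T ≫ h → ∀ n : ℕ, 𝒮 (KX n T) → MulIn 𝒮 (N ^ 2) (KX n X)

/-- (IV) over `B`: let `X` be integral, regular, proper over `B`, of Kronecker dimension at most three,
and let `s` be a finite set of degrees of finite embeddings over `B` of the function field of `X` into
fields `M(t)`, where `M` is a field over `B`, `M = L(s)` or `M` of Kronecker dimension at most one. Let `g` be
the greatest common divisor of `s`. Then `g² K'_n(X)` is finitely generated; if `g = 1`, `K'_n(X)` is finitely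
generated. -/
def Geom3B : Prop :=
  ∀ (X B : Scheme.{0}) [IsIntegral X] [B.IsSeparated] (f : X ⟶ B) [IsProper f], FinType ℤ B →
    KGT.W.Regular X → KrLe 3 X.functionField →
    ∀ s : Finset ℕ, (∀ N ∈ s, ∃ (M : Type) (_ : Field M) (β : Sp M ⟶ B)
        (φ : X.functionField →+* RatFunc M), FinDeg φ N ∧
        etaX φ ≫ f = Sm (algebraMap M (RatFunc M)) ≫ β ∧
        (KrLe 1 M ∨ ∃ (L : Type) (_ : Field L), Nonempty (M ≃+* RatFunc L))) →
      ∀ n : ℕ, AddGroup.FG (nsmulAddMonoidHom (α := KX n X) ((s.gcd id) ^ 2)).range ∧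
        (s.gcd id = 1 → AddGroup.FG (KX n X))

/-! ### (III) over `B` -/

/-- as `Complete`, for schemes over `B` -/
def CompleteB (𝒮 : (G : Type 1) → [AddCommGroup G] → Prop) (n : ℕ) {Y B : Scheme.{0}}
    [IsIntegral Y] (g : Y ⟶ B) : Prop :=
  ∀ (X₁ : Scheme.{0}) [IsIntegral X₁] (f₁ : X₁ ⟶ B) (θ : Y.functionField ≅ X₁.functionField),
    OverB θ f₁ g → FinType ℤ X₁ → ∀ x₁ : X₁, IsDiscreteValuationRing (X₁.presheaf.stalk x₁) →
      ¬ GoodIn 𝒮 n (X₁.residueField x₁) → ∃ y : Y, Compat θ x₁ y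

/-- **G5B**. The centre of an abstract valuation ring over `B`. Proof: as `G5`. needs: nothing -/
def St_G5B : Prop := ∀ (Z B : Scheme.{0}) [IsIntegral Z] (f : Z ⟶ B) [IsProper f] (V : Type)
  [CommRing V] [IsDomain V] [ValuationRing V] [Algebra V Z.functionField]
  [IsFractionRing V Z.functionField] (v : Sp V ⟶ B),
  Sm (algebraMap V Z.functionField) ≫ v = Z.fromSpecStalk (genericPoint Z) ≫ f →
  ∃ (x : Z) (l : Z.presheaf.stalk x →+* V), IsLocalHom l ∧
    ∀ s : Z.presheaf.stalk x, algebraMap V Z.functionField (l s) = (toF Z x).hom s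

/-- **C1B**. Proof: as `C1` (`G2` is relative). needs: AB, DL, KL, K4, G2, G3 -/
def St_C1B : Prop := ∀ (𝒮 : (G : Type 1) → [AddCommGroup G] → Prop), SerreClass 𝒮 → ∀ d : ℕ,
  Low 𝒮 d → ∀ (Y B : Scheme.{0}) [IsIntegral Y] (g : Y ⟶ B) [IsProper g], FinType ℤ B →
    KGT.W.Regular Y → KrLe (d + 2) Y.functionField → ∀ n : ℕ, CompleteB 𝒮 n g

/-- **N7B**. Proof: as `N7`, with `G5B` for `π ≫ f : X₁ → B` and `Spec 𝒪_{Y,y} → Y → B`.
needs: VI, TM, WL, G5B, UR, NB -/
def St_N7B : Prop := ∀ (L : LThy.{1}), PZ L → ∀ (d : ℕ) (X X₁ Y B : Scheme.{0}) [IsIntegral X]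
  [IsIntegral X₁] [IsIntegral Y] [Y.IsSeparated] [B.IsSeparated] (f : X ⟶ B) (g : Y ⟶ B)
  [IsProper f], FinType ℤ B → KGT.W.Regular X → KrLe (d + 2) X.functionField → FinType ℤ Y →
  ∀ (φ : X.functionField →+* Y.functionField) (N : ℕ), FinDeg φ N →
  etaX φ ≫ f = Y.fromSpecStalk (genericPoint Y) ≫ g →
  ∀ (π : X₁ ⟶ X) [IsFinite π] (θ : Y.functionField ≅ X₁.functionField),
  Spec.map θ.inv ≫ X₁.fromSpecStalk (genericPoint X₁) ≫ π = etaX φ →
  (∀ x : X₁, IsIntegrallyClosed (X₁.presheaf.stalk x)) →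
  ∀ (U : Y.Opens) (hU : genericPoint Y ∈ U) (ρ : U.toScheme ⟶ X) [Flat ρ],
  etaU U hU ≫ ρ = etaX φ → ∀ y : Y, y ∉ U → IsDiscreteValuationRing (Y.presheaf.stalk y) →
  ¬ KrLe d (Y.residueField y) → (∀ x₁ : X₁, ¬ Compat θ x₁ y) → ExtAt L U ρ y

/-- the main step of (III) over `B` -/
def Dom0B (𝒮 : (G : Type 1) → [AddCommGroup G] → Prop) (d : ℕ) : Prop :=
  ∀ (X Y B : Scheme.{0}) [IsIntegral X] [IsIntegral Y] [Y.IsSeparated] [B.IsSeparated]
    (f : X ⟶ B) (g : Y ⟶ B) [IsProper f], FinType ℤ B → KGT.W.Regular X →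
    KrLe (d + 2) X.functionField → FinType ℤ Y → KGT.W.Regular Y →
    ∀ (φ : X.functionField →+* Y.functionField) (N : ℕ), FinDeg φ N →
      etaX φ ≫ f = Y.fromSpecStalk (genericPoint Y) ≫ g → ∀ n : ℕ,
        CompleteB 𝒮 n g → 𝒮 (KX n Y) → MulIn 𝒮 (N ^ 2) (KX n X)

/-- **N9B**. Proof: as `N9` (`N9.big` is relative; `OverB θ (π ≫ f) g` follows from the hypothesis on `φ`;
`X` is separated and of finite type over `ℤ`, `g` is separated and locally of finite type).
needs: as N9, with N7B -/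
def St_N9B : Prop := ∀ (𝒮 : (G : Type 1) → [AddCommGroup G] → Prop), SerreClass 𝒮 → ∀ d : ℕ,
  Low 𝒮 d → Dom0B 𝒮 d

/-- **V2B**. As `V2M`, with the open immersion, and with `GoodIn`. Proof: `V2M.lean`, `V2A.lean`, `PIII.v2`.
needs: DL, K2, K3, K3M -/
def St_V2B : Prop := ∀ (𝒮 : (G : Type 1) → [AddCommGroup G] → Prop), SerreClass 𝒮 → ∀ d : ℕ,
  Low 𝒮 d → ∀ (T : Scheme.{0}) [IsIntegral T], FinType ℤ T → KrLe (d + 1) T.functionField →
    ∃ (D : Type) (_ : CommRing D) (_ : IsDomain D) (j : Sp D ⟶ T)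
      (e : FractionRing D ≃+* T.functionField),
      Algebra.FiniteType ℤ D ∧ IsRegularRing D ∧ IsOpenImmersion j ∧
      Sm ((e : FractionRing D →+* T.functionField).comp (algebraMap D (FractionRing D))) ≫ j =
        T.fromSpecStalk (genericPoint T) ∧
      (∀ n : ℕ, ∃ f : KX n T →+ KX n (Sp D), 𝒮 f.ker ∧ 𝒮 (KX n (Sp D) ⧸ f.range)) ∧
      ∀ n : ℕ, 𝒮 (KX n T) → 𝒮 (KX n (Sp D)) ∧
        ∀ (κ : Type) [Field κ], Nonempty (κ ≃+* T.functionField) → GoodIn 𝒮 n κ

/-- **PIIIB** (III) over `B`. Proof: as `PIII`: first part `C1B`, `N9B`; second part: `D`, `j`, `e` from `V2B`,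
`Y = Spec D[t] → Spec D → T → B`, `C2` (which gives `CompleteB`), `N9B`. The compatibility: the morphism
`Spec K(T)(t) → Spec D[t] → Spec D → T` is `etaT T`. needs: as PIII, with C1B, N9B, V2B -/
def St_PIIIB : Prop := ∀ (𝒮 : (G : Type 1) → [AddCommGroup G] → Prop), SerreClass 𝒮 → ∀ d : ℕ,
  Low 𝒮 d → DominatedB 𝒮 d

/-- **T0B**. As `T0`, with a morphism to `B`. Proof: `T` from `T0`; the morphism `Spec K(T) ≅ Spec M → B` spreads
out to an open subset of `T` (`Scheme.RationalMap.ofFunctionField` over `Spec ℤ`; `B` is locally of finite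
presentation over `ℤ`); replace `T` by it. needs: T0 -/
def St_T0B : Prop := ∀ (X B : Scheme.{0}) [IsIntegral X], FinType ℤ X → FinType ℤ B →
  ∀ (M : Type) [Field M] (β : Sp M ⟶ B), Nonempty (X.functionField ≃+* RatFunc M) →
    ∃ (T : Scheme.{0}) (_ : IsIntegral T) (h : T ⟶ B) (e : T.functionField ≃+* M), FinType ℤ T ∧
      T.fromSpecStalk (genericPoint T) ≫ h = Sm (e.symm : M →+* T.functionField) ≫ β

/-- **CO3B**. Proof: as `CO3`, with `T0B` and `PIIIB`. needs: as CO3, with T0B, PIIIB -/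
def St_CO3B : Prop := Geom3B

/-! ### (II) over `B` -/

/-- **CEB**. As `CE`, with the statement on the generic point (part (1) of its proof). needs: nothing -/
def St_CEB : Prop := ∀ (D : Type) [CommRing D] [IsDomain D] [IsNoetherianRing D] (P : Scheme.{0})
  (p : P ⟶ Sp D) (a b : Sp (Polynomial D) ⟶ P) (s : Sp D ⟶ P), IsLine D P p a b s →
  ∀ (X : Scheme.{0}) [IsIntegral X] [IsIntegral P]
    (θ0 : RatFunc (FractionRing D) ≃+* X.functionField),
    ∃ θ : P.functionField ≅ X.functionField,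
      Spec.map θ.hom ≫ P.fromSpecStalk (genericPoint P) =
        Sm ((θ0 : RatFunc (FractionRing D) →+* X.functionField).comp (toT D)) ≫ a ∧
      ∀ x : X, ValuationRing (X.presheaf.stalk x) →
        (∀ c : D, ∃ v : X.presheaf.stalk x, (toF X x).hom v = θ0 (toT D (Polynomial.C c))) →
        ∃ (y : P) (l : P.presheaf.stalk y ⟶ X.presheaf.stalk x), IsLocalHom l.hom ∧
          l ≫ toF X x = toF P y ≫ θ.hom

/-- **PIIB** (II) over `B`. Proof: as `PIIM`, `G2` and `G1` over `B`: `P → Spec D → T → B` (`V2B`), and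
`OverB θ f (p ≫ j ≫ h)` from the hypothesis on `e`, `V2B` and `CEB`. needs: as PIIM, with V2B, CEB -/
def St_PIIB : Prop := ∀ (𝒮 : (G : Type 1) → [AddCommGroup G] → Prop), SerreClass 𝒮 → ∀ d : ℕ,
  Low 𝒮 d → RuledB 𝒮 d

end Pool.Agent.BTF
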