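import Pool.Agent.BTF.St8

/-!
# BTF: (IV) for all Serre classes

MP_e17fa799_al (captain helper21).
-/

set_option autoImplicit false

noncomputable section

namespace Pool.Agent.BTF

open CategoryTheory CategoryTheory.Limits AlgebraicGeometry Pool.Agent.KPR Pool.Agent.KTX
open Pool.Agent.KGT.W (SerreClass FinType)

/-- (IV) over `B`: let `X` be integral, regular, proper over `B`, of Kronecker dimension at most `d + 2`,
and let `s` be a finite set of degrees of finite embeddings over `B` of the function field of `X` into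
fields `M(t)`, where `M` is a field over `B`, `M = L(s)` or `M` of Kronecker dimension at most `d`. Let `g` be
the greatest common divisor of `s`. Then `g² K'_n(X)` is in `𝒮`; if `g = 1`, `K'_n(X)` is in `𝒮`. -/
def UnirationalB (𝒮 : (G : Type 1) → [AddCommGroup G] → Prop) (d : ℕ) : Prop :=
  ∀ (X B : Scheme.{0}) [IsIntegral X] [B.IsSeparated] (f : X ⟶ B) [IsProper f], FinType ℤ B →
    KGT.W.Regular X → KrLe (d + 2) X.functionField →
    ∀ s : Finset ℕ, (∀ N ∈ s, ∃ (M : Type) (_ : Field M) (β : Sp M ⟶ B)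
        (φ : X.functionField →+* RatFunc M), FinDeg φ N ∧
        etaX φ ≫ f = Sm (algebraMap M (RatFunc M)) ≫ β ∧
        (KrLe d M ∨ ∃ (L : Type) (_ : Field L), Nonempty (M ≃+* RatFunc L))) →
      ∀ n : ℕ, MulIn 𝒮 ((s.gcd id) ^ 2) (KX n X) ∧ (s.gcd id = 1 → 𝒮 (KX n X))

/-- **GCS**. As `GCb`, for Serre classes. needs: nothing -/
def St_GCS : Prop := ∀ (𝒮 : (G : Type 1) → [AddCommGroup G] → Prop), SerreClass 𝒮 →
  ∀ (G : Type 1) [AddCommGroup G] (s : Finset ℕ),
  (∀ N ∈ s, MulIn 𝒮 (N ^ 2) G) → MulIn 𝒮 ((s.gcd id) ^ 2) G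

/-- **CO9**. Proof: as `CO3` (there `𝒮` is the class of finitely generated groups and `d = 1`; now `Low 𝒮 d` is
a hypothesis), with `T0B`, `PIIIB`, `GCS`: the fields `M` with `KrLe d M` are good by `K2`, the fields `L(s)` with
`KrLe d L` by `K4`. needs: DL, KL, KA, K1, K2, K4, T0B, NR, NN, PIIIB, GCS -/
def St_CO9 : Prop := ∀ (𝒮 : (G : Type 1) → [AddCommGroup G] → Prop), SerreClass 𝒮 → ∀ d : ℕ,
  Low 𝒮 d → UnirationalB 𝒮 d

end Pool.Agent.BTF
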