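import Pool.Agent.BTF.V1
import Pool.Agent.BTF.St2

/-!
# BTF, V1A: discrete valuation rings of `F(t)` which do not contain `F`
-/

set_option autoImplicit false

noncomputable section

namespace Pool.Agent.BTF

/-- **V1A** -/
theorem thm_V1A (hAB : St_AB) : St_V1A := by
  intro F V _ _ _ _ _ _ hV
  by_cases hF : ∀ c : F, ∃ v : V, algebraMap V (RatFunc F) v = algebraMap F (RatFunc F) c
  · exact Or.inr hF
  · push Not at hF
    obtain ⟨c, hc⟩ := hF
    left
    rcases V1.dich V (RatFunc.X : RatFunc F) with ⟨τ, hτ⟩ | ⟨u, hu, hu'⟩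
    · exact V1.caseB hAB hV c hc _ (Or.inl rfl) τ hτ
    · exact V1.caseB hAB hV c hc _ (Or.inr rfl) u hu'

end Pool.Agent.BTF
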